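import Pool.Agent.MSQ.Defs
/-!
EvA (110 lines). Values of the polynomial operations of Poly.lean and PolyS.lean.

PROOF. Everything by induction on the lists. `evL` of `addV`, `smV`, `mul1`, then `ev` of the outer
operations. `ev x y (pX p) = x * ev x y p` is by definition (`[] :: p`). `ev_pMul`: induction on the first
factor, `ev (p.map (mul1 r)) = evL y r * ev p`. `at1`: `evL y [r.sum] = r.sum = evL 1 r`. `at0`:
`evL y (r.take 1) = evL 0 r`. `isZ`: all coefficients 0 gives `evL y r = 0`. `eqP`: from isZ of the
difference. `ev_N3` etc.: from ev_pAdd, ev_pSm, ev_pY. The head lemma: `ev 0 y p = evL y (p.headD [])`.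
-/
namespace Pool.Agent.MSQ

theorem evL_addV (y : ℝ) (a b : List Int) : evL y (addV a b) = evL y a + evL y b := by
  induction a generalizing b with
  | nil => simp [addV, addL, evL]
  | cons a s ih =>
    cases b with
    | nil => simp [addV, addL, evL]
    | cons b t =>
      have h := ih t
      simp only [addV] at h
      simp only [addV, addL, evL, h]
      push_cast
      ring
theorem evL_smV (y : ℝ) (c : Int) (a : List Int) : evL y (smV c a) = c * evL y a := by
  induction a with
  | nil => simp [smV, evL]
  | cons a s ih =>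
    simp only [smV] at ih
    simp only [smV, List.map_cons, evL, ih]
    push_cast
    ring
theorem ev_pAdd (x y : ℝ) (p q : P) : ev x y (pAdd p q) = ev x y p + ev x y q := by
  induction p generalizing q with
  | nil => simp [pAdd, addP, addL, ev]
  | cons r l ih =>
    cases q with
    | nil => simp [pAdd, addP, addL, ev]
    | cons r' l' =>
      have h := ih l'
      simp only [pAdd, addP] at h
      simp only [pAdd, addP, addL, ev, h, evL_addV]
      ring
theorem ev_pSm (x y : ℝ) (c : Int) (p : P) : ev x y (pSm c p) = c * ev x y p := by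
  induction p with
  | nil => simp [pSm, smP, ev]
  | cons r l ih =>
    simp only [pSm, smP] at ih
    simp only [pSm, smP, List.map_cons, ev, ih, evL_smV]
    ring
theorem ev_pX (x y : ℝ) (p : P) : ev x y (pX p) = x * ev x y p := by
  simp [pX, ev, evL]
theorem ev_pY (x y : ℝ) (p : P) : ev x y (pY p) = y * ev x y p := by
  induction p with
  | nil => simp [pY, ev]
  | cons r l ih =>
    simp only [pY] at ih
    simp only [pY, List.map_cons, ev, ih, evL]
    push_cast
    ring
private theorem eva_mul1 (y : ℝ) (a b : List Int) : evL y (mul1 a b) = evL y a * evL y b := by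
  induction a with
  | nil => simp [mul1, evL]
  | cons a l ih =>
    simp only [mul1, evL_addV, evL_smV, evL, ih]
    push_cast
    ring

private theorem eva_map (x y : ℝ) (r : List Int) (q : P) :
    ev x y (q.map (mul1 r)) = evL y r * ev x y q := by
  induction q with
  | nil => simp [ev]
  | cons s l ih =>
    simp only [List.map_cons, ev, ih, eva_mul1]
    ring

private theorem eva_sum (r : List Int) : ((r.sum : Int) : ℝ) = evL 1 r := by
  induction r with
  | nil => simp [evL]
  | cons a l ih =>
    simp only [List.sum_cons, evL, one_mul]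
    rw [← ih]
    push_cast
    ring

private theorem eva_take (y : ℝ) (r : List Int) : evL y (r.take 1) = evL 0 r := by
  cases r with
  | nil => rfl
  | cons a l => simp [evL]

private theorem eva_zero (y : ℝ) (r : List Int) (h : r.all (· == 0) = true) : evL y r = 0 := by
  induction r with
  | nil => rfl
  | cons a l ih =>
    simp only [List.all_cons, Bool.and_eq_true, beq_iff_eq] at h
    simp only [evL, ih h.2, h.1]
    simp

theorem ev_pMul (x y : ℝ) (p q : P) : ev x y (pMul p q) = ev x y p * ev x y q := by
  induction p with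
  | nil => simp [pMul, ev]
  | cons r l ih =>
    simp only [pMul, ev_pAdd, ev_pX, ih, ev, eva_map]
    ring
theorem ev_cP (x y : ℝ) (c : Int) : ev x y (cP c) = c := by
  simp [cP, ev, evL]
theorem ev_nil (x y : ℝ) : ev x y [] = 0 := by
  rfl
theorem ev_N3 (x y : ℝ) (p : P) : ev x y (N3 p) = (3 + y ^ 2) * ev x y p := by
  simp only [N3, ev_pAdd, ev_pSm, ev_pY]
  push_cast
  ring
theorem ev_M2 (x y : ℝ) (p : P) : ev x y (M2 p) = (2 + x ^ 2) * ev x y p := by
  simp only [M2, ev_pAdd, ev_pSm, ev_pX]
  push_cast
  ring
theorem ev_O2 (x y : ℝ) (p : P) : ev x y (O2 p) = (1 - y ^ 2) * ev x y p := by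
  simp only [O2, ev_pAdd, ev_pSm, ev_pY]
  push_cast
  ring
theorem ev_AG (x y : ℝ) (G : P) : ev x y (AG G) = 3 * Af x y G := by
  simp only [AG, Af, ev_pAdd, ev_pSm, ev_pY, ev_N3]
  push_cast
  ring
theorem ev_sumP (x y : ℝ) (l : List P) : ev x y (sumP l) = (l.map (ev x y)).sum := by
  induction l with
  | nil => simp [sumP, ev]
  | cons p l ih =>
    simp only [sumP] at ih
    simp only [sumP, List.foldr_cons, ev_pAdd, ih, List.map_cons, List.sum_cons]
theorem ev_at1 (x y : ℝ) (p : P) : ev x y (at1 p) = ev x 1 p := by
  induction p with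
  | nil => simp [at1, ev]
  | cons r l ih =>
    simp only [at1] at ih
    simp only [at1, List.map_cons, ev, ih, evL, eva_sum]
    ring
theorem ev_at0 (x y : ℝ) (p : P) : ev x y (at0 p) = ev x 0 p := by
  induction p with
  | nil => simp [at0, ev]
  | cons r l ih =>
    simp only [at0] at ih
    simp only [at0, List.map_cons, ev, ih, eva_take]
theorem ev_isZ (x y : ℝ) (p : P) (h : isZ p = true) : ev x y p = 0 := by
  induction p with
  | nil => rfl
  | cons r l ih =>
    simp only [isZ, List.all_cons, Bool.and_eq_true] at h
    simp only [ev, eva_zero y r h.1, ih h.2, mul_zero, add_zero]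
theorem ev_eqP (x y : ℝ) (p q : P) (h : eqP p q = true) : ev x y p = ev x y q := by
  have h1 := ev_isZ x y _ h
  rw [ev_pAdd, ev_pSm] at h1
  push_cast at h1
  linarith
theorem ev_head (y : ℝ) (p : P) (h : (p.headD []).all (· == 0) = true) : ev 0 y p = 0 := by
  cases p with
  | nil => rfl
  | cons r l =>
    simp only [List.headD_cons] at h
    simp only [ev, eva_zero y r h, zero_mul, add_zero]

end Pool.Agent.MSQ
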