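import Pool.Agent.MSQ.FOpen
/-!
ChkS. Soundness of the positivity test `chkM` of a polynomial matrix on a box (Poly.lean, Fast.lean).
`evE x y E = E.map (ev x y)`. On the half open box this is FOpen; the closed box follows by continuity.
-/
namespace Pool.Agent.MSQ

/-- products of the entries -/
private def ChkS_W : List ℝ → List ℝ
  | [] => []
  | s :: ss => ((s :: ss).map fun z => s * z) ++ ChkS_W ss

private theorem ChkS_dot0 (M : List ℝ) : dotL M [] = 0 := by
  cases M <;> simp [dotL]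

private theorem ChkS_dotn (M : List ℝ) : dotL [] M = 0 := by
  simp [dotL]

private theorem ChkS_app : ∀ A B M : List ℝ,
    dotL M (A ++ B) = dotL (M.take A.length) A + dotL (M.drop A.length) B
  | [], B, M => by simp [ChkS_dot0]
  | a :: A, B, [] => by simp [ChkS_dotn]
  | a :: A, B, m :: M => by
    simp only [List.cons_append, dotL, List.length_cons, List.take_succ_cons, List.drop_succ_cons,
      ChkS_app A B M]
    ring

private theorem ChkS_dmap (s : ℝ) : ∀ M A : List ℝ,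
    dotL M (A.map fun z => s * z) = s * dotL M A
  | [], A => by simp [ChkS_dotn]
  | m :: M, [] => by simp [ChkS_dot0]
  | m :: M, a :: A => by
    simp only [List.map_cons, dotL, ChkS_dmap s M A]
    ring

private theorem ChkS_qf : ∀ s M : List ℝ, qf M s = dotL M (ChkS_W s)
  | [], M => by simp [qf, ChkS_W, ChkS_dot0]
  | s :: ss, M => by
    rw [qf, ChkS_W, ChkS_app, ChkS_dmap, ChkS_qf ss]
    simp

private theorem ChkS_rep (c : ℝ) : ∀ (k : ℕ) (A : List ℝ),
    dotL (List.replicate k 0 ++ [c]) A = c * (A.drop k).headD 0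
  | 0, [] => by simp [ChkS_dot0]
  | 0, a :: A => by simp [dotL]
  | k + 1, [] => by simp [ChkS_dot0]
  | k + 1, a :: A => by
    simp only [List.replicate_succ, List.cons_append, dotL, List.drop_succ_cons, ChkS_rep c k A]
    ring

private theorem ChkS_add {α : Type} (add : α → α → α) (φ : α → ℝ)
    (h1 : ∀ a b, φ (add a b) = φ a + φ b) (t : ℝ) : ∀ A B : List α,
    evA φ t (addL add A B) = evA φ t A + evA φ t B
  | [], B => by simp [addL, evA]
  | a :: A, [] => by simp [addL, evA]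
  | a :: A, b :: B => by
    simp only [addL, evA, h1, ChkS_add add φ h1 t A B]
    ring

private theorem ChkS_map {α β : Type} (f : β → α) (φ : α → ℝ) (ψ : β → ℝ) (c : ℝ)
    (h : ∀ b, φ (f b) = c * ψ b) (t : ℝ) : ∀ A : List β,
    evA φ t (A.map f) = c * evA ψ t A
  | [] => by simp [evA]
  | a :: A => by
    simp only [List.map_cons, evA, h, ChkS_map f φ ψ c h t A]
    ring

private theorem ChkS_evL (y : ℝ) : ∀ r : List Int, evA (fun z : Int => (z : ℝ)) y r = evL y r
  | [] => by simp [evA, evL]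
  | a :: r => by simp only [evA, evL, ChkS_evL y r]

private theorem ChkS_ev (x y : ℝ) : ∀ p : P, evA (evL y) x p = ev x y p
  | [] => by simp [evA, ev]
  | a :: r => by simp only [evA, ev, ChkS_ev x y r]

/-- the functional -/
private def ChkS_f (s : List ℝ) (v : List Int) : ℝ := qf (v.map fun z : Int => (z : ℝ)) s

private theorem ChkS_f1 (s : List ℝ) (a b : List Int) :
    ChkS_f s (addV a b) = ChkS_f s a + ChkS_f s b := qf_addV a b s

private theorem ChkS_f2 (s : List ℝ) (c : Int) (a : List Int) :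
    ChkS_f s (smV c a) = (c : ℝ) * ChkS_f s a := qf_smV c a s

private theorem ChkS_f0 (s : List ℝ) : ChkS_f s [] = 0 := by
  unfold ChkS_f
  rw [List.map_nil, qf_nil]

private theorem ChkS_g1 (s : List ℝ) (y : ℝ) (a b : List (List Int)) :
    evA (ChkS_f s) y (addP a b) = evA (ChkS_f s) y a + evA (ChkS_f s) y b :=
  ChkS_add addV (ChkS_f s) (ChkS_f1 s) y a b

private theorem ChkS_g2 (s : List ℝ) (y : ℝ) (c : Int) (a : List (List Int)) :
    evA (ChkS_f s) y (smP c a) = (c : ℝ) * evA (ChkS_f s) y a :=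
  ChkS_map (smV c) (ChkS_f s) (ChkS_f s) c (ChkS_f2 s c) y a

private theorem ChkS_fe (s : List ℝ) (k : ℕ) (c : Int) :
    ChkS_f s (List.replicate k 0 ++ [c]) = ((ChkS_W s).drop k).headD 0 * (c : ℝ) := by
  unfold ChkS_f
  rw [ChkS_qf, List.map_append, List.map_replicate, List.map_cons, List.map_nil, Int.cast_zero,
    ChkS_rep]
  ring

private theorem ChkS_emb (s : List ℝ) (x y : ℝ) (k : ℕ) (p : P) :
    evA (fun c => evA (ChkS_f s) y c) x (emb k p) =
      ((ChkS_W s).drop k).headD 0 * ev x y p := by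
  unfold emb
  rw [ChkS_map _ (fun c => evA (ChkS_f s) y c) (evL y) (((ChkS_W s).drop k).headD 0), ChkS_ev]
  intro r
  rw [ChkS_map _ (ChkS_f s) (fun z : Int => (z : ℝ)) (((ChkS_W s).drop k).headD 0)
    (ChkS_fe s k) y r, ChkS_evL]

private theorem ChkS_embL (s : List ℝ) (x y : ℝ) : ∀ (E : List P) (k : ℕ),
    evA (fun c => evA (ChkS_f s) y c) x (embL k E) = dotL (evE x y E) ((ChkS_W s).drop k)
  | [], k => by simp [embL, evA, evE, dotL]
  | p :: E, k => by
    rw [embL, ChkS_add addP (fun c => evA (ChkS_f s) y c) (ChkS_g1 s y) x, ChkS_emb,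
      ChkS_embL s x y E (k + 1)]
    unfold evE
    rw [List.map_cons]
    have e : (ChkS_W s).drop (k + 1) = ((ChkS_W s).drop k).drop 1 := by
      rw [List.drop_drop]
    rw [e]
    rcases (ChkS_W s).drop k with _ | ⟨a, A⟩
    · simp [ChkS_dot0]
    · simp [dotL]
      ring

private theorem ChkS_embL0 (s : List ℝ) (x y : ℝ) (E : List P) :
    evA (fun c => evA (ChkS_f s) y c) x (embL 0 E) = qf (evE x y E) s := by
  rw [ChkS_embL, ChkS_qf, List.drop_zero]

private theorem ChkS_nn {α : Type} (φ : α → ℝ) (t : ℝ) (ht : 0 ≤ t) : ∀ L : List α,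
    (∀ c ∈ L, 0 ≤ φ c) → 0 ≤ evA φ t L
  | [], _ => by simp [evA]
  | a :: L, h => by
    have h1 := ChkS_nn φ t ht L fun c hc => h c (List.mem_cons_of_mem _ hc)
    have h2 := h a List.mem_cons_self
    rw [evA]
    positivity

private theorem ChkS_cont1 (f : List Int → ℝ) : ∀ L : List (List Int),
    Continuous fun y : ℝ => evA f y L
  | [] => by
    simp only [evA]
    exact continuous_const
  | a :: L => by
    simp only [evA]
    have := ChkS_cont1 f L
    fun_prop

private theorem ChkS_cont2 (f : List Int → ℝ) : ∀ L : List (List (List Int)),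
    Continuous fun z : ℝ × ℝ => evA (fun c => evA f z.2 c) z.1 L
  | [] => by
    simp only [evA]
    exact continuous_const
  | a :: L => by
    simp only [evA]
    have h1 := ChkS_cont2 f L
    have h2 : Continuous fun z : ℝ × ℝ => evA f z.2 a := (ChkS_cont1 f a).comp continuous_snd
    exact h2.add (continuous_fst.mul h1)

private theorem ChkS_open (n : ℕ) (E : List P) (x0 x1 qx y0 y1 qy : Int)
    (h : chkN n E x0 x1 qx y0 y1 qy = true) (x y : ℝ)
    (hx0 : (x0 : ℝ) ≤ (qx : ℝ) * x)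
    (hx1 : (qx : ℝ) * x < (x1 : ℝ)) (hy0 : (y0 : ℝ) ≤ (qy : ℝ) * y)
    (hy1 : (qy : ℝ) * y < (y1 : ℝ)) (s : List ℝ) (hs : s.length = n) :
    0 ≤ evA (fun c => evA (ChkS_f s) y c) x (embL 0 E) :=
  chkN_open n E x0 x1 qx y0 y1 qy h x y hx0 hx1 hy0 hy1 s hs

theorem chkM_sound (n : ℕ) (E : List P) (x0 x1 qx y0 y1 qy : Int)
    (h : chkM n E x0 x1 qx y0 y1 qy = true) (x y : ℝ) (hx0 : (x0 : ℝ) ≤ (qx : ℝ) * x)
    (hx1 : (qx : ℝ) * x ≤ (x1 : ℝ)) (hy0 : (y0 : ℝ) ≤ (qy : ℝ) * y)
    (hy1 : (qy : ℝ) * y ≤ (y1 : ℝ)) (s : List ℝ) (hs : s.length = n) :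
    0 ≤ qf (evE x y E) s := by
  unfold chkM at h
  have hc := h
  unfold chkN at h
  simp only [Bool.and_eq_true, decide_eq_true_eq] at h
  obtain ⟨⟨⟨⟨⟨hqx, hqy⟩, hxx⟩, hyy⟩, _⟩, _⟩ := h
  have hqx' : (0:ℝ) < (qx : ℝ) := by exact_mod_cast hqx
  have hqy' : (0:ℝ) < (qy : ℝ) := by exact_mod_cast hqy
  have hxx' : (x0:ℝ) < (x1 : ℝ) := by exact_mod_cast hxx
  have hyy' : (y0:ℝ) < (y1 : ℝ) := by exact_mod_cast hyy
  rw [← ChkS_embL0]
  have hcont : Continuous fun e : ℝ =>
      evA (fun c => evA (ChkS_f s) (y + e * ((y0 : ℝ) / qy - y)) c) (x + e * ((x0 : ℝ) / qx - x))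
        (embL 0 E) := by
    have h1 := ChkS_cont2 (ChkS_f s) (embL 0 E)
    have h2 : Continuous fun e : ℝ => ((x + e * ((x0 : ℝ) / qx - x)), (y + e * ((y0 : ℝ) / qy - y))) := by
      fun_prop
    exact h1.comp h2
  have hcl : IsClosed {e : ℝ | 0 ≤
      evA (fun c => evA (ChkS_f s) (y + e * ((y0 : ℝ) / qy - y)) c) (x + e * ((x0 : ℝ) / qx - x))
        (embL 0 E)} := isClosed_le continuous_const hcont
  have hsub : Set.Ioo (0:ℝ) 1 ⊆ {e : ℝ | 0 ≤
      evA (fun c => evA (ChkS_f s) (y + e * ((y0 : ℝ) / qy - y)) c) (x + e * ((x0 : ℝ) / qx - x))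
        (embL 0 E)} := by
    intro e he
    obtain ⟨he0, he1⟩ := he
    have ex : (qx : ℝ) * (x + e * ((x0 : ℝ) / qx - x)) = (1 - e) * (qx * x) + e * x0 := by
      field_simp
      ring
    have ey : (qy : ℝ) * (y + e * ((y0 : ℝ) / qy - y)) = (1 - e) * (qy * y) + e * y0 := by
      field_simp
      ring
    refine ChkS_open n E x0 x1 qx y0 y1 qy hc _ _ ?_ ?_ ?_ ?_ s hs
    · rw [ex]
      nlinarith [mul_nonneg (sub_nonneg.mpr he1.le) (sub_nonneg.mpr hx0)]
    · rw [ex]
      nlinarith [mul_nonneg (sub_nonneg.mpr he1.le) (sub_nonneg.mpr hx1),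
        mul_pos he0 (sub_pos.mpr hxx')]
    · rw [ey]
      nlinarith [mul_nonneg (sub_nonneg.mpr he1.le) (sub_nonneg.mpr hy0)]
    · rw [ey]
      nlinarith [mul_nonneg (sub_nonneg.mpr he1.le) (sub_nonneg.mpr hy1),
        mul_pos he0 (sub_pos.mpr hyy')]
  have h0 : (0:ℝ) ∈ closure (Set.Ioo (0:ℝ) 1) := by
    rw [closure_Ioo (by norm_num)]
    exact ⟨le_refl _, by norm_num⟩
  have h1 := closure_minimal hsub hcl h0
  simpa using h1

end Pool.Agent.MSQ
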