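import Pool.Agent.MSQ.Defs
/-!
JGood (90 lines). Reflections, the norm and the swap preserve good jets.

PROOF. rx: HasFDerivAt of J.f ∘ (z ↦ (-z.1, z.2)): HasFDerivAt.comp with the continuous linear map
(-fst).prod snd; the derivative applied to (a,b) is fX(..)*(-a) + fY(..) b; compare the two linear maps by
`ContinuousLinearMap.ext` and ring. ry the same. lJ: lf z = √(1+z.1^2+z.2^2) > 0, differentiate:
D1 lf (z.1/lf) (z.2/lf), etc.; derivatives: ∂_X (X/l) = 1/l - X^2/l^3 = (1+Y^2)/l^3, ∂_Y (X/l) = -XY/l^3,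
∂_X ((1+Y^2) l^-3) = -3 X (1+Y^2)/l^5, ∂_Y ((1+Y^2)/l^3) = 2Y/l^3 - 3Y(1+Y^2)/l^5 = Y(2X^2-1-Y^2)/l^5,
∂_X(-XY/l^3) = -Y/l^3 + 3X^2 Y/l^5 = Y(2X^2-1-Y^2)/l^5, ∂_Y(-XY/l^3) = X(2Y^2-1-X^2)/l^5,
∂_X((1+X^2)/l^3) = 2X/l^3 - 3X(1+X^2)/l^5 = X(2Y^2-1-X^2)/l^5, ∂_Y((1+X^2)/l^3) = -3Y(1+X^2)/l^5
(use l^2 = 1+X^2+Y^2). sw: difference of lJ and the jet composed with z ↦ (z.2, z.1).
-/
namespace Pool.Agent.MSQ

private theorem jg_congr {F FX FY F' FX' FY' : ℝ × ℝ → ℝ} (h : D1 F FX FY)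
    (h0 : ∀ z, F' z = F z) (h1 : ∀ z, FX' z = FX z) (h2 : ∀ z, FY' z = FY z) : D1 F' FX' FY' := by
  intro z
  rw [h1 z, h2 z, show F' = F from funext h0]
  exact h z

private theorem jg_mul {F FX FY G GX GY : ℝ × ℝ → ℝ} (h : D1 F FX FY) (k : D1 G GX GY) :
    D1 (fun z => F z * G z) (fun z => F z * GX z + FX z * G z)
      (fun z => F z * GY z + FY z * G z) := by
  intro z
  refine ((h z).mul (k z)).congr_fderiv ?_
  refine ContinuousLinearMap.ext fun v => ?_
  change F z * (GX z * v.1 + GY z * v.2) + G z * (FX z * v.1 + FY z * v.2) =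
    (F z * GX z + FX z * G z) * v.1 + (F z * GY z + FY z * G z) * v.2
  ring

private theorem jg_sub {F FX FY G GX GY : ℝ × ℝ → ℝ} (h : D1 F FX FY) (k : D1 G GX GY) :
    D1 (fun z => F z - G z) (fun z => FX z - GX z) (fun z => FY z - GY z) := by
  intro z
  refine ((h z).sub (k z)).congr_fderiv ?_
  refine ContinuousLinearMap.ext fun v => ?_
  change (FX z * v.1 + FY z * v.2) - (GX z * v.1 + GY z * v.2) =
    (FX z - GX z) * v.1 + (FY z - GY z) * v.2
  ring

private theorem jg_const (c : ℝ) : D1 (fun _ => c) (fun _ => 0) (fun _ => 0) := by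
  intro z
  refine (hasFDerivAt_const c z).congr_fderiv ?_
  refine ContinuousLinearMap.ext fun v => ?_
  change (0 : ℝ) = 0 * v.1 + 0 * v.2
  ring

private theorem jg_fst : D1 (fun z => z.1) (fun _ => 1) (fun _ => 0) := by
  intro z
  refine (hasFDerivAt_fst (𝕜 := ℝ) (p := z)).congr_fderiv ?_
  refine ContinuousLinearMap.ext fun v => ?_
  change v.1 = 1 * v.1 + 0 * v.2
  ring

private theorem jg_snd : D1 (fun z => z.2) (fun _ => 0) (fun _ => 1) := by
  intro z
  refine (hasFDerivAt_snd (𝕜 := ℝ) (p := z)).congr_fderiv ?_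
  refine ContinuousLinearMap.ext fun v => ?_
  change v.2 = 0 * v.1 + 1 * v.2
  ring

private theorem jg_comp {F FX FY : ℝ × ℝ → ℝ} (h : D1 F FX FY) (c a b : ℝ) :
    D1 (fun z => c * F (a * z.1, b * z.2)) (fun z => c * a * FX (a * z.1, b * z.2))
      (fun z => c * b * FY (a * z.1, b * z.2)) := by
  intro z
  have h1 : HasFDerivAt (fun z : ℝ × ℝ => (a * z.1, b * z.2))
      ((a • ContinuousLinearMap.fst ℝ ℝ ℝ).prod (b • ContinuousLinearMap.snd ℝ ℝ ℝ)) z :=
    ((a • ContinuousLinearMap.fst ℝ ℝ ℝ).prod (b • ContinuousLinearMap.snd ℝ ℝ ℝ)).hasFDerivAt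
  have h2 := ((h (a * z.1, b * z.2)).comp z h1).const_mul c
  refine h2.congr_fderiv ?_
  refine ContinuousLinearMap.ext fun v => ?_
  change c * (FX (a * z.1, b * z.2) * (a * v.1) + FY (a * z.1, b * z.2) * (b * v.2)) =
    (c * a * FX (a * z.1, b * z.2)) * v.1 + (c * b * FY (a * z.1, b * z.2)) * v.2
  ring

private theorem jg_swap {F FX FY : ℝ × ℝ → ℝ} (h : D1 F FX FY) :
    D1 (fun z => F (z.2, z.1)) (fun z => FY (z.2, z.1)) (fun z => FX (z.2, z.1)) := by
  intro z
  have h1 : HasFDerivAt (fun z : ℝ × ℝ => (z.2, z.1))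
      ((ContinuousLinearMap.snd ℝ ℝ ℝ).prod (ContinuousLinearMap.fst ℝ ℝ ℝ)) z :=
    ((ContinuousLinearMap.snd ℝ ℝ ℝ).prod (ContinuousLinearMap.fst ℝ ℝ ℝ)).hasFDerivAt
  refine ((h (z.2, z.1)).comp z h1).congr_fderiv ?_
  refine ContinuousLinearMap.ext fun v => ?_
  change FX (z.2, z.1) * v.2 + FY (z.2, z.1) * v.1 = FY (z.2, z.1) * v.1 + FX (z.2, z.1) * v.2
  ring

private theorem jg_pos (z : ℝ × ℝ) : 0 < 1 + z.1 ^ 2 + z.2 ^ 2 := by positivity

private theorem jg_lpos (z : ℝ × ℝ) : 0 < lf z := Real.sqrt_pos.2 (jg_pos z)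

private theorem jg_lsq (z : ℝ × ℝ) : lf z ^ 2 = 1 + z.1 ^ 2 + z.2 ^ 2 :=
  Real.sq_sqrt (jg_pos z).le

private theorem jg_l : D1 lf (fun z => z.1 / lf z) (fun z => z.2 / lf z) := by
  have h1 : D1 (fun z => 1 + z.1 ^ 2 + z.2 ^ 2) (fun z => 2 * z.1) (fun z => 2 * z.2) := by
    have h2 := jg_sub (jg_const 1) (jg_mul (jg_const (-1)) (jg_mul jg_fst jg_fst))
    have h3 := jg_sub h2 (jg_mul (jg_const (-1)) (jg_mul jg_snd jg_snd))
    exact jg_congr h3 (fun z => by ring) (fun z => by ring) (fun z => by ring)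
  intro z
  have h2 := (h1 z).sqrt (jg_pos z).ne'
  refine h2.congr_fderiv ?_
  have h3 := (jg_lpos z).ne'
  refine ContinuousLinearMap.ext fun v => ?_
  change 1 / (2 * lf z) * (2 * z.1 * v.1 + 2 * z.2 * v.2) = z.1 / lf z * v.1 + z.2 / lf z * v.2
  field_simp

private theorem jg_r : D1 (fun z => (lf z)⁻¹) (fun z => -z.1 * (lf z)⁻¹ ^ 3)
    (fun z => -z.2 * (lf z)⁻¹ ^ 3) := by
  intro z
  have h3 := (jg_lpos z).ne'
  have h2 : HasFDerivAt (fun z => (lf z)⁻¹) ((-(lf z ^ 2)⁻¹) •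
      ((z.1 / lf z) • ContinuousLinearMap.fst ℝ ℝ ℝ + (z.2 / lf z) •
        ContinuousLinearMap.snd ℝ ℝ ℝ)) z :=
    (hasDerivAt_inv h3).comp_hasFDerivAt z (jg_l z)
  refine h2.congr_fderiv ?_
  refine ContinuousLinearMap.ext fun v => ?_
  change -(lf z ^ 2)⁻¹ * (z.1 / lf z * v.1 + z.2 / lf z * v.2) =
    -z.1 * (lf z)⁻¹ ^ 3 * v.1 + -z.2 * (lf z)⁻¹ ^ 3 * v.2
  field_simp
  ring

private theorem jg_r3 : D1 (fun z => (lf z)⁻¹ ^ 3) (fun z => -3 * z.1 * (lf z)⁻¹ ^ 5)
    (fun z => -3 * z.2 * (lf z)⁻¹ ^ 5) := by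
  have h := jg_mul (jg_mul jg_r jg_r) jg_r
  exact jg_congr h (fun z => by ring) (fun z => by ring) (fun z => by ring)

private theorem jg_id (z : ℝ × ℝ) : (lf z)⁻¹ ^ 2 * (1 + z.1 ^ 2 + z.2 ^ 2) = 1 := by
  rw [← jg_lsq z]
  have h3 := (jg_lpos z).ne'
  field_simp

private theorem jg_cont : Continuous lf := by
  unfold lf
  fun_prop

theorem good_rx (J : Jet) (h : J.Good) : J.rx.Good := by
  have key : ∀ {F FX FY : ℝ × ℝ → ℝ} (c : ℝ), D1 F FX FY →
      D1 (fun z => c * F (-z.1, z.2)) (fun z => -(c * FX (-z.1, z.2)))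
        (fun z => c * FY (-z.1, z.2)) := by
    intro F FX FY c hF
    refine jg_congr (jg_comp hF c (-1) 1) (fun z => ?_) (fun z => ?_) (fun z => ?_)
    · simp only [neg_one_mul, one_mul]
    · simp only [neg_one_mul, one_mul, mul_neg, mul_one, neg_mul]
    · simp only [neg_one_mul, one_mul, mul_one]
  have hc : Continuous fun z : ℝ × ℝ => (-z.1, z.2) := by fun_prop
  exact
    { d := jg_congr (key 1 h.d) (fun z => by simp [Jet.rx]) (fun z => by simp [Jet.rx])
        (fun z => by simp [Jet.rx])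
      dX := jg_congr (key (-1) h.dX) (fun z => by simp [Jet.rx]) (fun z => by simp [Jet.rx])
        (fun z => by simp [Jet.rx])
      dY := jg_congr (key 1 h.dY) (fun z => by simp [Jet.rx]) (fun z => by simp [Jet.rx])
        (fun z => by simp [Jet.rx])
      dXX := jg_congr (key 1 h.dXX) (fun z => by simp [Jet.rx]) (fun z => by simp [Jet.rx])
        (fun z => by simp [Jet.rx])
      dXY := jg_congr (key (-1) h.dXY) (fun z => by simp [Jet.rx]) (fun z => by simp [Jet.rx])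
        (fun z => by simp [Jet.rx])
      dYY := jg_congr (key 1 h.dYY) (fun z => by simp [Jet.rx]) (fun z => by simp [Jet.rx])
        (fun z => by simp [Jet.rx])
      cXXX := (h.cXXX.comp hc).neg
      cXXY := h.cXXY.comp hc
      cXYY := (h.cXYY.comp hc).neg
      cYYY := h.cYYY.comp hc }
theorem good_ry (J : Jet) (h : J.Good) : J.ry.Good := by
  have key : ∀ {F FX FY : ℝ × ℝ → ℝ} (c : ℝ), D1 F FX FY →
      D1 (fun z => c * F (z.1, -z.2)) (fun z => c * FX (z.1, -z.2))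
        (fun z => -(c * FY (z.1, -z.2))) := by
    intro F FX FY c hF
    refine jg_congr (jg_comp hF c 1 (-1)) (fun z => ?_) (fun z => ?_) (fun z => ?_)
    · simp only [neg_one_mul, one_mul]
    · simp only [neg_one_mul, one_mul, mul_one]
    · simp only [neg_one_mul, one_mul, mul_neg, mul_one, neg_mul]
  have hc : Continuous fun z : ℝ × ℝ => (z.1, -z.2) := by fun_prop
  exact
    { d := jg_congr (key 1 h.d) (fun z => by simp [Jet.ry]) (fun z => by simp [Jet.ry])
        (fun z => by simp [Jet.ry])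
      dX := jg_congr (key 1 h.dX) (fun z => by simp [Jet.ry]) (fun z => by simp [Jet.ry])
        (fun z => by simp [Jet.ry])
      dY := jg_congr (key (-1) h.dY) (fun z => by simp [Jet.ry]) (fun z => by simp [Jet.ry])
        (fun z => by simp [Jet.ry])
      dXX := jg_congr (key 1 h.dXX) (fun z => by simp [Jet.ry]) (fun z => by simp [Jet.ry])
        (fun z => by simp [Jet.ry])
      dXY := jg_congr (key (-1) h.dXY) (fun z => by simp [Jet.ry]) (fun z => by simp [Jet.ry])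
        (fun z => by simp [Jet.ry])
      dYY := jg_congr (key 1 h.dYY) (fun z => by simp [Jet.ry]) (fun z => by simp [Jet.ry])
        (fun z => by simp [Jet.ry])
      cXXX := h.cXXX.comp hc
      cXXY := (h.cXXY.comp hc).neg
      cXYY := h.cXYY.comp hc
      cYYY := (h.cYYY.comp hc).neg }
theorem good_lJ : lJ.Good := by
  have px : D1 (fun z : ℝ × ℝ => 1 + z.2 ^ 2) (fun _ => 0) (fun z => 2 * z.2) :=
    jg_congr (jg_sub (jg_const 1) (jg_mul (jg_const (-1)) (jg_mul jg_snd jg_snd)))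
      (fun z => by ring) (fun z => by ring) (fun z => by ring)
  have py : D1 (fun z : ℝ × ℝ => 1 + z.1 ^ 2) (fun z => 2 * z.1) (fun _ => 0) :=
    jg_congr (jg_sub (jg_const 1) (jg_mul (jg_const (-1)) (jg_mul jg_fst jg_fst)))
      (fun z => by ring) (fun z => by ring) (fun z => by ring)
  have pxy : D1 (fun z : ℝ × ℝ => -(z.1 * z.2)) (fun z => -z.2) (fun z => -z.1) :=
    jg_congr (jg_mul (jg_const (-1)) (jg_mul jg_fst jg_snd))
      (fun z => by ring) (fun z => by ring) (fun z => by ring)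
  have hne : ∀ z, lf z ^ 5 ≠ 0 := fun z => pow_ne_zero 5 (jg_lpos z).ne'
  have hlc := jg_cont
  exact
    { d := jg_l
      dX := by
        refine jg_congr (jg_mul jg_fst jg_r) (fun z => ?_) (fun z => ?_) (fun z => ?_)
        · simp only [lJ, div_eq_mul_inv]
        · simp only [lJ, div_eq_mul_inv, ← inv_pow]
          linear_combination (lf z)⁻¹ * jg_id z
        · simp only [lJ, div_eq_mul_inv, ← inv_pow]
          ring
      dY := by
        refine jg_congr (jg_mul jg_snd jg_r) (fun z => ?_) (fun z => ?_) (fun z => ?_)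
        · simp only [lJ, div_eq_mul_inv]
        · simp only [lJ, div_eq_mul_inv, ← inv_pow]
          ring
        · simp only [lJ, div_eq_mul_inv, ← inv_pow]
          linear_combination (lf z)⁻¹ * jg_id z
      dXX := by
        refine jg_congr (jg_mul px jg_r3) (fun z => ?_) (fun z => ?_) (fun z => ?_)
        · simp only [lJ, div_eq_mul_inv, ← inv_pow]
        · simp only [lJ, div_eq_mul_inv, ← inv_pow]
          ring
        · simp only [lJ, div_eq_mul_inv, ← inv_pow]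
          linear_combination (2 * z.2 * (lf z)⁻¹ ^ 3) * jg_id z
      dXY := by
        refine jg_congr (jg_mul pxy jg_r3) (fun z => ?_) (fun z => ?_) (fun z => ?_)
        · simp only [lJ, div_eq_mul_inv, ← inv_pow]
        · simp only [lJ, div_eq_mul_inv, ← inv_pow]
          linear_combination (-z.2 * (lf z)⁻¹ ^ 3) * jg_id z
        · simp only [lJ, div_eq_mul_inv, ← inv_pow]
          linear_combination (-z.1 * (lf z)⁻¹ ^ 3) * jg_id z
      dYY := by
        refine jg_congr (jg_mul py jg_r3) (fun z => ?_) (fun z => ?_) (fun z => ?_)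
        · simp only [lJ, div_eq_mul_inv, ← inv_pow]
        · simp only [lJ, div_eq_mul_inv, ← inv_pow]
          linear_combination (2 * z.1 * (lf z)⁻¹ ^ 3) * jg_id z
        · simp only [lJ, div_eq_mul_inv, ← inv_pow]
          ring
      cXXX := Continuous.div (by fun_prop) (hlc.pow 5) hne
      cXXY := Continuous.div (by fun_prop) (hlc.pow 5) hne
      cXYY := Continuous.div (by fun_prop) (hlc.pow 5) hne
      cYYY := Continuous.div (by fun_prop) (hlc.pow 5) hne }
theorem good_sw (J : Jet) (h : J.Good) : J.sw.Good := by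
  have hc : Continuous fun z : ℝ × ℝ => (z.2, z.1) := by fun_prop
  exact
    { d := jg_sub good_lJ.d (jg_swap h.d)
      dX := jg_sub good_lJ.dX (jg_swap h.dY)
      dY := jg_sub good_lJ.dY (jg_swap h.dX)
      dXX := jg_sub good_lJ.dXX (jg_swap h.dYY)
      dXY := jg_sub good_lJ.dXY (jg_swap h.dXY)
      dYY := jg_sub good_lJ.dYY (jg_swap h.dXX)
      cXXX := good_lJ.cXXX.sub (h.cYYY.comp hc)
      cXXY := good_lJ.cXXY.sub (h.cXYY.comp hc)
      cXYY := good_lJ.cXYY.sub (h.cXXY.comp hc)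
      cYYY := good_lJ.cYYY.sub (h.cXXX.comp hc) }

end Pool.Agent.MSQ
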