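import Pool.Agent.MSQ.Defs
/-!
JCh (160 lines). The chart states of a good jet satisfy the relations `JS`.

PROOF. Let w = wf x, X = cc x, Y = w y/√3, z = (X,Y), cc^2 = 1/2, w^2 = mf x = 1 + x^2/2, w' = x/(2w).
Chain rule: for a function G with D1 G GX GY,
 d/dy G(z) = GY(z) w/√3,  d/dx G(z) = cc GX(z) + (x y/(2 √3 w)) GY(z)
(HasFDerivAt.comp_hasDerivAt with the curve t ↦ (cc x, w t/√3), resp. t ↦ (cc t, wf t y/√3)); apply it to
f, fX, fY, fXX, fXY, fYY. Then each field of JS is the product rule and algebra (field_simp, using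
w^2 = 1 + x^2/2, cc^2 = 1/2, √3^2 = 3). All the identities were checked numerically. With
 E x y = cc (w^3 fXYY/3 + cc w x fYY/3 + cc w^2 x y fYYY/(3√3)),
 Z x y = mf x * cc * ( x fXY/√3 + w^2 (cc fXXY + x y/(2√3 w) fXYY)/√3
          + (cc/3) ( (w + x^2/(2w)) y fYY + w x y (cc fXYY + x y/(2√3 w) fYYY) ) )
(all at z) one has κ_y = 2Z - yμ, m ν_x = Z, ν_y = E, m μ_x = E. Continuity: z depends continuously on (x,y),
the jet functions are continuous (differentiable, or given for the third order), w > 0.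
-/
namespace Pool.Agent.MSQ

private theorem JCh_mf_pos (x : ℝ) : 0 < mf x := by unfold mf; positivity

private theorem JCh_wf_pos (x : ℝ) : 0 < wf x := Real.sqrt_pos.2 (JCh_mf_pos x)

private theorem JCh_wf_sq (x : ℝ) : wf x ^ 2 = 1 + x ^ 2 / 2 := Real.sq_sqrt (JCh_mf_pos x).le

private theorem JCh_mf (x : ℝ) : mf x = wf x ^ 2 := (Real.sq_sqrt (JCh_mf_pos x).le).symm

private theorem JCh_cc : cc ^ 2 = 1 / 2 := by
  unfold cc
  rw [div_pow, one_pow, Real.sq_sqrt (by norm_num)]

private theorem JCh_mf_der (x : ℝ) : HasDerivAt mf x x := by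
  have h := ((hasDerivAt_id x).pow 2).div_const 2 |>.const_add 1
  have h2 : HasDerivAt mf (((2 : ℕ) : ℝ) * id x ^ (2 - 1) * 1 / 2) x := h
  refine h2.congr_deriv ?_
  simp only [id]
  norm_num

private theorem JCh_wf_der (x : ℝ) : HasDerivAt wf (x / (2 * wf x)) x :=
  (JCh_mf_der x).sqrt (JCh_mf_pos x).ne'

/-- the point of the plane -/
private noncomputable def JChz (x y : ℝ) : ℝ × ℝ := (cc * x, wf x * y / √3)

private theorem JCh_y {G GX GY : ℝ × ℝ → ℝ} (h : D1 G GX GY) (x y : ℝ) :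
    HasDerivAt (fun t => G (JChz x t)) (GY (JChz x y) * (wf x / √3)) y := by
  have h1 : HasDerivAt (fun t => JChz x t) ((0 : ℝ), wf x / √3) y := by
    refine (hasDerivAt_const y (cc * x)).prodMk ?_
    have h := ((hasDerivAt_id y).const_mul (wf x)).div_const (√3)
    rw [mul_one] at h
    exact h
  have h2 := (h (JChz x y)).comp_hasDerivAt y h1
  refine h2.congr_deriv ?_
  simp

private theorem JCh_x {G GX GY : ℝ × ℝ → ℝ} (h : D1 G GX GY) (x y : ℝ) :
    HasDerivAt (fun t => G (JChz t y)) (GX (JChz x y) * cc +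
      GY (JChz x y) * (x / (2 * wf x) * y / √3)) x := by
  have h1 : HasDerivAt (fun t => JChz t y) (cc, x / (2 * wf x) * y / √3) x := by
    refine HasDerivAt.prodMk ?_ ?_
    · have h := (hasDerivAt_id x).const_mul cc
      rw [mul_one] at h
      exact h
    · exact ((JCh_wf_der x).mul_const y).div_const _
  have h2 := (h (JChz x y)).comp_hasDerivAt x h1
  refine h2.congr_deriv ?_
  simp

private noncomputable def JChE (J : Jet) (x y : ℝ) : ℝ :=
  cc * (wf x ^ 3 * J.fXYY (JChz x y) / 3 + cc * wf x * x * J.fYY (JChz x y) / 3 +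
    cc * wf x ^ 2 * x * y * J.fYYY (JChz x y) / (3 * √3))

private noncomputable def JChZ (J : Jet) (x y : ℝ) : ℝ :=
  mf x * cc * (x * J.fXY (JChz x y) / √3 + wf x ^ 2 * (cc * J.fXXY (JChz x y) +
    x * y / (2 * √3 * wf x) * J.fXYY (JChz x y)) / √3 + (cc / 3) * ((wf x + x ^ 2 / (2 * wf x)) * y *
      J.fYY (JChz x y) + wf x * x * y * (cc * J.fXYY (JChz x y) +
        x * y / (2 * √3 * wf x) * J.fYYY (JChz x y))))

private theorem JCh_u (J : Jet) (x y : ℝ) : (ch J x y).u = J.f (JChz x y) / wf x := rfl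
private theorem JCh_q (J : Jet) (x y : ℝ) : (ch J x y).q = J.fY (JChz x y) / √3 := rfl
private theorem JCh_p (J : Jet) (x y : ℝ) : (ch J x y).p = cc * (wf x * J.fX (JChz x y) +
    cc * x * y * J.fY (JChz x y) / √3 - cc * x * J.f (JChz x y) / wf x) := rfl
private theorem JCh_mu (J : Jet) (x y : ℝ) : (ch J x y).mu = wf x * J.fYY (JChz x y) / 3 := rfl
private theorem JCh_nu (J : Jet) (x y : ℝ) : (ch J x y).nu =
    cc * (wf x ^ 2 * J.fXY (JChz x y) / √3 + cc * wf x * x * y * J.fYY (JChz x y) / 3) := rfl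
private theorem JCh_ka (J : Jet) (x y : ℝ) : (ch J x y).ka = wf x ^ 3 * J.fXX (JChz x y) +
    2 * wf x ^ 2 * (cc * x * y / √3) * J.fXY (JChz x y) +
      wf x / 3 * (cc * x * y) ^ 2 * J.fYY (JChz x y) := rfl

private theorem JCh_lin (c x : ℝ) : HasDerivAt (fun t : ℝ => c * t) c x := by
  have h := (hasDerivAt_id x).const_mul c
  rw [mul_one] at h
  exact h

private theorem JCh_cxy (y x : ℝ) : HasDerivAt (fun t : ℝ => cc * t * y) (cc * y) x :=
  (JCh_lin cc x).mul_const y

private theorem JCh_uy (J : Jet) (hJ : J.Good) (x y : ℝ) :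
    HasDerivAt (fun t => (ch J x t).u) (ch J x y).q y := by
  have hw := JCh_wf_pos x
  have hw2 := JCh_wf_sq x
  have hc := JCh_cc
  have hr : (√3 : ℝ) ^ 2 = 3 := Real.sq_sqrt (by norm_num)
  have hr0 : (0 : ℝ) < √3 := by positivity
  have h : HasDerivAt (fun t => (ch J x t).u) _ y := (JCh_y hJ.d x y).div_const (wf x)
  refine h.congr_deriv ?_
  clear h
  rw [JCh_q]
  generalize J.f (JChz x y) = a0 at *
  generalize J.fX (JChz x y) = a1 at *
  generalize J.fY (JChz x y) = a2 at *
  generalize J.fXX (JChz x y) = a3 at *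
  generalize J.fXY (JChz x y) = a4 at *
  generalize J.fYY (JChz x y) = a5 at *
  generalize J.fXXX (JChz x y) = b1 at *
  generalize J.fXXY (JChz x y) = b2 at *
  generalize J.fXYY (JChz x y) = b3 at *
  generalize J.fYYY (JChz x y) = b4 at *
  generalize wf x = w at *
  generalize (√3 : ℝ) = r at *
  generalize cc = c at *
  clear hJ J
  field_simp

private theorem JCh_ux (J : Jet) (hJ : J.Good) (x y : ℝ) :
    HasDerivAt (fun t => (ch J t y).u) ((ch J x y).p / mf x) x := by
  have hw := JCh_wf_pos x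
  have hw2 := JCh_wf_sq x
  have hc := JCh_cc
  have hr : (√3 : ℝ) ^ 2 = 3 := Real.sq_sqrt (by norm_num)
  have hr0 : (0 : ℝ) < √3 := by positivity
  have h : HasDerivAt (fun t => (ch J t y).u) _ x :=
    (JCh_x hJ.d x y).div (JCh_wf_der x) hw.ne'
  refine h.congr_deriv ?_
  clear h
  rw [JCh_p, JCh_mf]
  generalize J.f (JChz x y) = a0 at *
  generalize J.fX (JChz x y) = a1 at *
  generalize J.fY (JChz x y) = a2 at *
  generalize J.fXX (JChz x y) = a3 at *
  generalize J.fXY (JChz x y) = a4 at *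
  generalize J.fYY (JChz x y) = a5 at *
  generalize J.fXXX (JChz x y) = b1 at *
  generalize J.fXXY (JChz x y) = b2 at *
  generalize J.fXYY (JChz x y) = b3 at *
  generalize J.fYYY (JChz x y) = b4 at *
  generalize wf x = w at *
  generalize (√3 : ℝ) = r at *
  generalize cc = c at *
  clear hJ J
  field_simp
  grind

private theorem JCh_qy (J : Jet) (hJ : J.Good) (x y : ℝ) :
    HasDerivAt (fun t => (ch J x t).q) (ch J x y).mu y := by
  have hw := JCh_wf_pos x
  have hw2 := JCh_wf_sq x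
  have hc := JCh_cc
  have hr : (√3 : ℝ) ^ 2 = 3 := Real.sq_sqrt (by norm_num)
  have hr0 : (0 : ℝ) < √3 := by positivity
  have h : HasDerivAt (fun t => (ch J x t).q) _ y := (JCh_y hJ.dY x y).div_const (√3)
  refine h.congr_deriv ?_
  clear h
  rw [JCh_mu]
  generalize J.f (JChz x y) = a0 at *
  generalize J.fX (JChz x y) = a1 at *
  generalize J.fY (JChz x y) = a2 at *
  generalize J.fXX (JChz x y) = a3 at *
  generalize J.fXY (JChz x y) = a4 at *
  generalize J.fYY (JChz x y) = a5 at *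
  generalize J.fXXX (JChz x y) = b1 at *
  generalize J.fXXY (JChz x y) = b2 at *
  generalize J.fXYY (JChz x y) = b3 at *
  generalize J.fYYY (JChz x y) = b4 at *
  generalize wf x = w at *
  generalize (√3 : ℝ) = r at *
  generalize cc = c at *
  clear hJ J
  field_simp
  grind

private theorem JCh_qx (J : Jet) (hJ : J.Good) (x y : ℝ) :
    HasDerivAt (fun t => (ch J t y).q) ((ch J x y).nu / mf x) x := by
  have hw := JCh_wf_pos x
  have hw2 := JCh_wf_sq x
  have hc := JCh_cc
  have hr : (√3 : ℝ) ^ 2 = 3 := Real.sq_sqrt (by norm_num)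
  have hr0 : (0 : ℝ) < √3 := by positivity
  have h : HasDerivAt (fun t => (ch J t y).q) _ x := (JCh_x hJ.dY x y).div_const (√3)
  refine h.congr_deriv ?_
  clear h
  rw [JCh_nu, JCh_mf]
  generalize J.f (JChz x y) = a0 at *
  generalize J.fX (JChz x y) = a1 at *
  generalize J.fY (JChz x y) = a2 at *
  generalize J.fXX (JChz x y) = a3 at *
  generalize J.fXY (JChz x y) = a4 at *
  generalize J.fYY (JChz x y) = a5 at *
  generalize J.fXXX (JChz x y) = b1 at *
  generalize J.fXXY (JChz x y) = b2 at *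
  generalize J.fXYY (JChz x y) = b3 at *
  generalize J.fYYY (JChz x y) = b4 at *
  generalize wf x = w at *
  generalize (√3 : ℝ) = r at *
  generalize cc = c at *
  clear hJ J
  field_simp
  grind

private theorem JCh_py (J : Jet) (hJ : J.Good) (x y : ℝ) :
    HasDerivAt (fun t => (ch J x t).p) (ch J x y).nu y := by
  have hw := JCh_wf_pos x
  have hw2 := JCh_wf_sq x
  have hc := JCh_cc
  have hr : (√3 : ℝ) ^ 2 = 3 := Real.sq_sqrt (by norm_num)
  have hr0 : (0 : ℝ) < √3 := by positivity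
  have h1 : HasDerivAt (fun t => wf x * J.fX (JChz x t)) _ y :=
    (JCh_y hJ.dX x y).const_mul (wf x)
  have h2 : HasDerivAt (fun t => cc * x * t * J.fY (JChz x t)) _ y :=
    (JCh_lin (cc * x) y).fun_mul (JCh_y hJ.dY x y)
  have h3 : HasDerivAt (fun t => cc * x * J.f (JChz x t)) _ y :=
    (JCh_y hJ.d x y).const_mul (cc * x)
  have h : HasDerivAt (fun t => (ch J x t).p) _ y :=
    ((h1.fun_add (h2.div_const (√3))).fun_sub (h3.div_const (wf x))).const_mul cc
  refine h.congr_deriv ?_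
  clear h h1 h2 h3
  rw [JCh_nu]
  generalize J.f (JChz x y) = a0 at *
  generalize J.fX (JChz x y) = a1 at *
  generalize J.fY (JChz x y) = a2 at *
  generalize J.fXX (JChz x y) = a3 at *
  generalize J.fXY (JChz x y) = a4 at *
  generalize J.fYY (JChz x y) = a5 at *
  generalize J.fXXX (JChz x y) = b1 at *
  generalize J.fXXY (JChz x y) = b2 at *
  generalize J.fXYY (JChz x y) = b3 at *
  generalize J.fYYY (JChz x y) = b4 at *
  generalize wf x = w at *
  generalize (√3 : ℝ) = r at *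
  generalize cc = c at *
  clear hJ J
  field_simp
  grind

private theorem JCh_px (J : Jet) (hJ : J.Good) (x y : ℝ) :
    HasDerivAt (fun t => (ch J t y).p)
      (((ch J x y).ka - (ch J x y).u + y * (ch J x y).q) / (2 * mf x)) x := by
  have hw := JCh_wf_pos x
  have hw2 := JCh_wf_sq x
  have hc := JCh_cc
  have hr : (√3 : ℝ) ^ 2 = 3 := Real.sq_sqrt (by norm_num)
  have hr0 : (0 : ℝ) < √3 := by positivity
  have h1 : HasDerivAt (fun t => wf t * J.fX (JChz t y)) _ x :=
    (JCh_wf_der x).fun_mul (JCh_x hJ.dX x y)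
  have h2 : HasDerivAt (fun t => cc * t * y * J.fY (JChz t y)) _ x :=
    (JCh_cxy y x).fun_mul (JCh_x hJ.dY x y)
  have h3 : HasDerivAt (fun t => cc * t * J.f (JChz t y)) _ x :=
    (JCh_lin cc x).fun_mul (JCh_x hJ.d x y)
  have h : HasDerivAt (fun t => (ch J t y).p) _ x :=
    ((h1.fun_add (h2.div_const (√3))).fun_sub (h3.fun_div (JCh_wf_der x) hw.ne')).const_mul cc
  refine h.congr_deriv ?_
  clear h h1 h2 h3
  rw [JCh_ka, JCh_u, JCh_q, JCh_mf]
  generalize J.f (JChz x y) = a0 at *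
  generalize J.fX (JChz x y) = a1 at *
  generalize J.fY (JChz x y) = a2 at *
  generalize J.fXX (JChz x y) = a3 at *
  generalize J.fXY (JChz x y) = a4 at *
  generalize J.fYY (JChz x y) = a5 at *
  generalize J.fXXX (JChz x y) = b1 at *
  generalize J.fXXY (JChz x y) = b2 at *
  generalize J.fXYY (JChz x y) = b3 at *
  generalize J.fYYY (JChz x y) = b4 at *
  generalize wf x = w at *
  generalize (√3 : ℝ) = r at *
  generalize cc = c at *
  clear hJ J
  field_simp
  grind

private theorem JCh_kay (J : Jet) (hJ : J.Good) (x y : ℝ) :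
    HasDerivAt (fun t => (ch J x t).ka) (2 * JChZ J x y - y * (ch J x y).mu) y := by
  have hw := JCh_wf_pos x
  have hw2 := JCh_wf_sq x
  have hc := JCh_cc
  have hr : (√3 : ℝ) ^ 2 = 3 := Real.sq_sqrt (by norm_num)
  have hr0 : (0 : ℝ) < √3 := by positivity
  have h1 : HasDerivAt (fun t => wf x ^ 3 * J.fXX (JChz x t)) _ y :=
    (JCh_y hJ.dXX x y).const_mul (wf x ^ 3)
  have h2 : HasDerivAt (fun t => 2 * wf x ^ 2 * (cc * x * t / √3) * J.fXY (JChz x t)) _ y :=
    (((JCh_lin (cc * x) y).div_const (√3)).const_mul (2 * wf x ^ 2)).fun_mul (JCh_y hJ.dXY x y)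
  have h3 : HasDerivAt (fun t => wf x / 3 * (cc * x * t) ^ 2 * J.fYY (JChz x t)) _ y :=
    (((JCh_lin (cc * x) y).fun_pow 2).const_mul (wf x / 3)).fun_mul (JCh_y hJ.dYY x y)
  have h : HasDerivAt (fun t => (ch J x t).ka) _ y := (h1.fun_add h2).fun_add h3
  refine h.congr_deriv ?_
  clear h h1 h2 h3
  unfold JChZ
  rw [JCh_mu, JCh_mf]
  generalize J.f (JChz x y) = a0 at *
  generalize J.fX (JChz x y) = a1 at *
  generalize J.fY (JChz x y) = a2 at *
  generalize J.fXX (JChz x y) = a3 at *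
  generalize J.fXY (JChz x y) = a4 at *
  generalize J.fYY (JChz x y) = a5 at *
  generalize J.fXXX (JChz x y) = b1 at *
  generalize J.fXXY (JChz x y) = b2 at *
  generalize J.fXYY (JChz x y) = b3 at *
  generalize J.fYYY (JChz x y) = b4 at *
  generalize wf x = w at *
  generalize (√3 : ℝ) = r at *
  generalize cc = c at *
  clear hJ J
  field_simp
  grind

private theorem JCh_nux (J : Jet) (hJ : J.Good) (x y : ℝ) :
    HasDerivAt (fun t => (ch J t y).nu) (JChZ J x y / mf x) x := by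
  have hw := JCh_wf_pos x
  have hw2 := JCh_wf_sq x
  have hc := JCh_cc
  have hr : (√3 : ℝ) ^ 2 = 3 := Real.sq_sqrt (by norm_num)
  have hr0 : (0 : ℝ) < √3 := by positivity
  have h1 : HasDerivAt (fun t => wf t ^ 2 * J.fXY (JChz t y)) _ x :=
    ((JCh_wf_der x).fun_pow 2).fun_mul (JCh_x hJ.dXY x y)
  have h2 : HasDerivAt (fun t => cc * wf t * t * y * J.fYY (JChz t y)) _ x :=
    ((((JCh_wf_der x).const_mul cc).fun_mul (hasDerivAt_id' x)).mul_const y).fun_mul
      (JCh_x hJ.dYY x y)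
  have h : HasDerivAt (fun t => (ch J t y).nu) _ x :=
    ((h1.div_const (√3)).fun_add (h2.div_const 3)).const_mul cc
  refine h.congr_deriv ?_
  clear h h1 h2
  unfold JChZ
  rw [JCh_mf]
  generalize J.f (JChz x y) = a0 at *
  generalize J.fX (JChz x y) = a1 at *
  generalize J.fY (JChz x y) = a2 at *
  generalize J.fXX (JChz x y) = a3 at *
  generalize J.fXY (JChz x y) = a4 at *
  generalize J.fYY (JChz x y) = a5 at *
  generalize J.fXXX (JChz x y) = b1 at *
  generalize J.fXXY (JChz x y) = b2 at *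
  generalize J.fXYY (JChz x y) = b3 at *
  generalize J.fYYY (JChz x y) = b4 at *
  generalize wf x = w at *
  generalize (√3 : ℝ) = r at *
  generalize cc = c at *
  clear hJ J
  field_simp
  grind

private theorem JCh_nuy (J : Jet) (hJ : J.Good) (x y : ℝ) :
    HasDerivAt (fun t => (ch J x t).nu) (JChE J x y) y := by
  have hw := JCh_wf_pos x
  have hw2 := JCh_wf_sq x
  have hc := JCh_cc
  have hr : (√3 : ℝ) ^ 2 = 3 := Real.sq_sqrt (by norm_num)
  have hr0 : (0 : ℝ) < √3 := by positivity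
  have h1 : HasDerivAt (fun t => wf x ^ 2 * J.fXY (JChz x t)) _ y :=
    (JCh_y hJ.dXY x y).const_mul (wf x ^ 2)
  have h2 : HasDerivAt (fun t => cc * wf x * x * t * J.fYY (JChz x t)) _ y :=
    (JCh_lin (cc * wf x * x) y).fun_mul (JCh_y hJ.dYY x y)
  have h : HasDerivAt (fun t => (ch J x t).nu) _ y :=
    ((h1.div_const (√3)).fun_add (h2.div_const 3)).const_mul cc
  refine h.congr_deriv ?_
  clear h h1 h2
  unfold JChE
  generalize J.f (JChz x y) = a0 at *
  generalize J.fX (JChz x y) = a1 at *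
  generalize J.fY (JChz x y) = a2 at *
  generalize J.fXX (JChz x y) = a3 at *
  generalize J.fXY (JChz x y) = a4 at *
  generalize J.fYY (JChz x y) = a5 at *
  generalize J.fXXX (JChz x y) = b1 at *
  generalize J.fXXY (JChz x y) = b2 at *
  generalize J.fXYY (JChz x y) = b3 at *
  generalize J.fYYY (JChz x y) = b4 at *
  generalize wf x = w at *
  generalize (√3 : ℝ) = r at *
  generalize cc = c at *
  clear hJ J
  field_simp
  grind

private theorem JCh_mux (J : Jet) (hJ : J.Good) (x y : ℝ) :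
    HasDerivAt (fun t => (ch J t y).mu) (JChE J x y / mf x) x := by
  have hw := JCh_wf_pos x
  have hw2 := JCh_wf_sq x
  have hc := JCh_cc
  have hr : (√3 : ℝ) ^ 2 = 3 := Real.sq_sqrt (by norm_num)
  have hr0 : (0 : ℝ) < √3 := by positivity
  have h : HasDerivAt (fun t => (ch J t y).mu) _ x :=
    ((JCh_wf_der x).fun_mul (JCh_x hJ.dYY x y)).div_const 3
  refine h.congr_deriv ?_
  clear h
  unfold JChE
  rw [JCh_mf]
  generalize J.f (JChz x y) = a0 at *
  generalize J.fX (JChz x y) = a1 at *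
  generalize J.fY (JChz x y) = a2 at *
  generalize J.fXX (JChz x y) = a3 at *
  generalize J.fXY (JChz x y) = a4 at *
  generalize J.fYY (JChz x y) = a5 at *
  generalize J.fXXX (JChz x y) = b1 at *
  generalize J.fXXY (JChz x y) = b2 at *
  generalize J.fXYY (JChz x y) = b3 at *
  generalize J.fYYY (JChz x y) = b4 at *
  generalize wf x = w at *
  generalize (√3 : ℝ) = r at *
  generalize cc = c at *
  clear hJ J
  field_simp
  grind

private theorem JCh_cont {G GX GY : ℝ × ℝ → ℝ} (h : D1 G GX GY) : Continuous G :=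
  continuous_iff_continuousAt.2 fun z => (h z).continuousAt

private theorem JCh_cw : Continuous wf := by
  unfold wf mf
  fun_prop

theorem js_ch (J : Jet) (hJ : J.Good) : ∃ Z E : ℝ → ℝ → ℝ, JS (ch J) Z E := by
  have hz : Continuous fun z : ℝ × ℝ => JChz z.1 z.2 := by
    unfold JChz
    have := JCh_cw
    fun_prop
  have hw : Continuous fun z : ℝ × ℝ => wf z.1 := JCh_cw.comp continuous_fst
  have hw0 : ∀ z : ℝ × ℝ, wf z.1 ≠ 0 := fun z => (JCh_wf_pos z.1).ne'
  have hm : Continuous fun z : ℝ × ℝ => mf z.1 := by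
    unfold mf
    fun_prop
  have hr0 : (√3 : ℝ) ≠ 0 := by positivity
  have c0 : Continuous fun z : ℝ × ℝ => J.f (JChz z.1 z.2) := (JCh_cont hJ.d).comp hz
  have c1 : Continuous fun z : ℝ × ℝ => J.fX (JChz z.1 z.2) := (JCh_cont hJ.dX).comp hz
  have c2 : Continuous fun z : ℝ × ℝ => J.fY (JChz z.1 z.2) := (JCh_cont hJ.dY).comp hz
  have c3 : Continuous fun z : ℝ × ℝ => J.fXX (JChz z.1 z.2) := (JCh_cont hJ.dXX).comp hz
  have c4 : Continuous fun z : ℝ × ℝ => J.fXY (JChz z.1 z.2) := (JCh_cont hJ.dXY).comp hz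
  have c5 : Continuous fun z : ℝ × ℝ => J.fYY (JChz z.1 z.2) := (JCh_cont hJ.dYY).comp hz
  have e2 : Continuous fun z : ℝ × ℝ => J.fXXY (JChz z.1 z.2) := hJ.cXXY.comp hz
  have e3 : Continuous fun z : ℝ × ℝ => J.fXYY (JChz z.1 z.2) := hJ.cXYY.comp hz
  have e4 : Continuous fun z : ℝ × ℝ => J.fYYY (JChz z.1 z.2) := hJ.cYYY.comp hz
  refine ⟨JChZ J, JChE J, JCh_uy J hJ, JCh_ux J hJ, JCh_qy J hJ, JCh_qx J hJ, JCh_py J hJ,
    JCh_px J hJ, JCh_kay J hJ, JCh_nux J hJ, JCh_nuy J hJ, JCh_mux J hJ, ?_, ?_, ?_, ?_, ?_, ?_,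
    ?_, ?_⟩
  · simp only [JCh_u]
    exact c0.div hw hw0
  · simp only [JCh_q]
    exact c2.div_const _
  · simp only [JCh_p]
    have h1 : Continuous fun z : ℝ × ℝ => cc * z.1 * J.f (JChz z.1 z.2) / wf z.1 :=
      ((continuous_const.mul continuous_fst).mul c0).div hw hw0
    fun_prop
  · simp only [JCh_mu]
    fun_prop
  · simp only [JCh_nu]
    fun_prop
  · simp only [JCh_ka]
    fun_prop
  · unfold JChZ
    have h1 : Continuous fun z : ℝ × ℝ => z.1 * z.2 / (2 * √3 * wf z.1) :=
      (continuous_fst.mul continuous_snd).div (continuous_const.mul hw) fun z =>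
        mul_ne_zero (mul_ne_zero two_ne_zero hr0) (hw0 z)
    have h2 : Continuous fun z : ℝ × ℝ => z.1 ^ 2 / (2 * wf z.1) :=
      (continuous_fst.pow 2).div (continuous_const.mul hw) fun z =>
        mul_ne_zero two_ne_zero (hw0 z)
    fun_prop
  · unfold JChE
    fun_prop

end Pool.Agent.MSQ
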