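import Pool.Agent.MSQ.Defs
/-!
JOps (60 lines). Differences, half sums, half differences of state fields.

PROOF. Componentwise: HasDerivAt.sub / .add / .div_const and `HasDerivAt.congr_deriv` with ring
(div by mf x: `sub_div`). For JS.sub the new fields are Z - Z', E - E', for hs (Z+Z')/2, for hd (Z-Z')/2.
-/
namespace Pool.Agent.MSQ

theorem JS.sub {S T : ℝ → ℝ → St} {Z E Z' E' : ℝ → ℝ → ℝ} (h : JS S Z E) (h' : JS T Z' E') :
    JS (fun x y => (S x y).sub (T x y)) (fun x y => Z x y - Z' x y) (fun x y => E x y - E' x y) where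
  uy x y := (h.uy x y).sub (h'.uy x y)
  ux x y := ((h.ux x y).sub (h'.ux x y)).congr_deriv (by simp only [St.sub]; ring)
  qy x y := (h.qy x y).sub (h'.qy x y)
  qx x y := ((h.qx x y).sub (h'.qx x y)).congr_deriv (by simp only [St.sub]; ring)
  py x y := (h.py x y).sub (h'.py x y)
  px x y := ((h.px x y).sub (h'.px x y)).congr_deriv (by simp only [St.sub]; ring)
  kay x y := ((h.kay x y).sub (h'.kay x y)).congr_deriv (by simp only [St.sub]; ring)
  nux x y := ((h.nux x y).sub (h'.nux x y)).congr_deriv (by ring)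
  nuy x y := (h.nuy x y).sub (h'.nuy x y)
  mux x y := ((h.mux x y).sub (h'.mux x y)).congr_deriv (by ring)
  cu := h.cu.sub h'.cu
  cq := h.cq.sub h'.cq
  cp := h.cp.sub h'.cp
  cmu := h.cmu.sub h'.cmu
  cnu := h.cnu.sub h'.cnu
  cka := h.cka.sub h'.cka
  cZ := h.cZ.sub h'.cZ
  cE := h.cE.sub h'.cE

theorem JS.hs {S T : ℝ → ℝ → St} {Z E Z' E' : ℝ → ℝ → ℝ} (h : JS S Z E) (h' : JS T Z' E') :
    JS (fun x y => (S x y).hs (T x y)) (fun x y => (Z x y + Z' x y) / 2)
      (fun x y => (E x y + E' x y) / 2) where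
  uy x y := ((h.uy x y).add (h'.uy x y)).div_const 2
  ux x y := (((h.ux x y).add (h'.ux x y)).div_const 2).congr_deriv (by simp only [St.hs]; ring)
  qy x y := ((h.qy x y).add (h'.qy x y)).div_const 2
  qx x y := (((h.qx x y).add (h'.qx x y)).div_const 2).congr_deriv (by simp only [St.hs]; ring)
  py x y := ((h.py x y).add (h'.py x y)).div_const 2
  px x y := (((h.px x y).add (h'.px x y)).div_const 2).congr_deriv (by simp only [St.hs]; ring)
  kay x y := (((h.kay x y).add (h'.kay x y)).div_const 2).congr_deriv (by simp only [St.hs]; ring)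
  nux x y := (((h.nux x y).add (h'.nux x y)).div_const 2).congr_deriv (by ring)
  nuy x y := ((h.nuy x y).add (h'.nuy x y)).div_const 2
  mux x y := (((h.mux x y).add (h'.mux x y)).div_const 2).congr_deriv (by ring)
  cu := (h.cu.add h'.cu).div_const 2
  cq := (h.cq.add h'.cq).div_const 2
  cp := (h.cp.add h'.cp).div_const 2
  cmu := (h.cmu.add h'.cmu).div_const 2
  cnu := (h.cnu.add h'.cnu).div_const 2
  cka := (h.cka.add h'.cka).div_const 2
  cZ := (h.cZ.add h'.cZ).div_const 2
  cE := (h.cE.add h'.cE).div_const 2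

theorem JS.hd {S T : ℝ → ℝ → St} {Z E Z' E' : ℝ → ℝ → ℝ} (h : JS S Z E) (h' : JS T Z' E') :
    JS (fun x y => (S x y).hd (T x y)) (fun x y => (Z x y - Z' x y) / 2)
      (fun x y => (E x y - E' x y) / 2) where
  uy x y := ((h.uy x y).sub (h'.uy x y)).div_const 2
  ux x y := (((h.ux x y).sub (h'.ux x y)).div_const 2).congr_deriv (by simp only [St.hd]; ring)
  qy x y := ((h.qy x y).sub (h'.qy x y)).div_const 2
  qx x y := (((h.qx x y).sub (h'.qx x y)).div_const 2).congr_deriv (by simp only [St.hd]; ring)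
  py x y := ((h.py x y).sub (h'.py x y)).div_const 2
  px x y := (((h.px x y).sub (h'.px x y)).div_const 2).congr_deriv (by simp only [St.hd]; ring)
  kay x y := (((h.kay x y).sub (h'.kay x y)).div_const 2).congr_deriv (by simp only [St.hd]; ring)
  nux x y := (((h.nux x y).sub (h'.nux x y)).div_const 2).congr_deriv (by ring)
  nuy x y := ((h.nuy x y).sub (h'.nuy x y)).div_const 2
  mux x y := (((h.mux x y).sub (h'.mux x y)).div_const 2).congr_deriv (by ring)
  cu := (h.cu.sub h'.cu).div_const 2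
  cq := (h.cq.sub h'.cq).div_const 2
  cp := (h.cp.sub h'.cp).div_const 2
  cmu := (h.cmu.sub h'.cmu).div_const 2
  cnu := (h.cnu.sub h'.cnu).div_const 2
  cka := (h.cka.sub h'.cka).div_const 2
  cZ := (h.cZ.sub h'.cZ).div_const 2
  cE := (h.cE.sub h'.cE).div_const 2

end Pool.Agent.MSQ
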