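import Pool.Agent.MSQ.JStar
import Pool.Agent.MSQ.JOps
import Pool.Agent.MSQ.JCh
import Pool.Agent.MSQ.JGood
/-!
JAll (30 lines). All state fields used later satisfy `JS`.

PROOF. AC = starC - ch, FC = (starC - lSt) - (AC - starC), etc. (by definition, `JS.sub`); eC, oC, eS, oS are
half sums and differences of AC J and AC J.ry (good_ry).
-/
namespace Pool.Agent.MSQ

theorem js_AC (J : Jet) (h : J.Good) : ∃ Z E : ℝ → ℝ → ℝ, JS (AC J) Z E := by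
  obtain ⟨Z, E, hj⟩ := js_ch J h
  exact ⟨_, _, js_starC.sub hj⟩
theorem js_AS (J : Jet) (h : J.Good) : ∃ Z E : ℝ → ℝ → ℝ, JS (AS J) Z E := by
  obtain ⟨Z, E, hj⟩ := js_ch J h
  exact ⟨_, _, js_starS.sub hj⟩
theorem js_FC (J : Jet) (h : J.Good) : ∃ Z E : ℝ → ℝ → ℝ, JS (FC J) Z E := by
  obtain ⟨Z, E, hj⟩ := js_AC J h
  exact ⟨_, _, (js_starC.sub js_lSt).sub (hj.sub js_starC)⟩
theorem js_FS (J : Jet) (h : J.Good) : ∃ Z E : ℝ → ℝ → ℝ, JS (FS J) Z E := by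
  obtain ⟨Z, E, hj⟩ := js_AS J h
  exact ⟨_, _, (js_starS.sub js_lSt).sub (hj.sub js_starS)⟩
theorem js_eC (J : Jet) (h : J.Good) : ∃ Z E : ℝ → ℝ → ℝ, JS (eC J) Z E := by
  obtain ⟨Z, E, hj⟩ := js_AC J h
  obtain ⟨Z', E', hj'⟩ := js_AC J.ry (good_ry J h)
  exact ⟨_, _, hj.hs hj'⟩
theorem js_oC (J : Jet) (h : J.Good) : ∃ Z E : ℝ → ℝ → ℝ, JS (oC J) Z E := by
  obtain ⟨Z, E, hj⟩ := js_AC J h
  obtain ⟨Z', E', hj'⟩ := js_AC J.ry (good_ry J h)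
  exact ⟨_, _, hj.hd hj'⟩
theorem js_eS (J : Jet) (h : J.Good) : ∃ Z E : ℝ → ℝ → ℝ, JS (eS J) Z E := by
  obtain ⟨Z, E, hj⟩ := js_AS J h
  obtain ⟨Z', E', hj'⟩ := js_AS J.ry (good_ry J h)
  exact ⟨_, _, hj.hs hj'⟩
theorem js_oS (J : Jet) (h : J.Good) : ∃ Z E : ℝ → ℝ → ℝ, JS (oS J) Z E := by
  obtain ⟨Z, E, hj⟩ := js_AS J h
  obtain ⟨Z', E', hj'⟩ := js_AS J.ry (good_ry J h)
  exact ⟨_, _, hj.hd hj'⟩

end Pool.Agent.MSQ
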