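import Pool.Agent.MSQ.JGood
/-!
HypR (90 lines). The hypotheses are invariant under the reflections and the swap; reflections of states.

PROOF. `hyp_rx`, `hyp_ry`: every field of Hyp for J.rx at z is the field for J at (-z.1, z.2); lf, lJ.fXX, lJ.fYY are even,
lJ.fXY odd, |−X| = |X|, sign(−X) = −sign X (`Left.sign_neg`); `good_rx`.
`hyp_sw`: J.sw = l - J(Y,X): hXX for J.sw at z is lYY for J at (z.2,z.1) (lf symmetric, lJ.fXX z = lJ.fYY (z.2,z.1)), etc.;
low ↔ upp, aX ↔ aY: J.sw.f (X,Y) - (|X|/2 + cc/2) = lf (Y,X) - J.f (Y,X) - (|X|/2+cc/2).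
`ch_rx`, `ch_ry`: unfold ch, Jet.rx: wf (-x) = wf x, ring. `AC_ry0`: AC J.ry x 0 = (AC J x 0).fy since starC has q = nu = 0.
`A_rx0`: at x = 0 starC, starS, lSt have p = nu = 0, so the states of J.rx at x = 0 are the fx of those of J.
-/
namespace Pool.Agent.MSQ

private theorem HypR_lfx (a b : ℝ) : lf (-a, b) = lf (a, b) := by
  unfold lf
  simp
private theorem HypR_lfy (a b : ℝ) : lf (a, -b) = lf (a, b) := by
  unfold lf
  simp
private theorem HypR_lfs (a b : ℝ) : lf (b, a) = lf (a, b) := by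
  unfold lf
  rw [add_right_comm]
private theorem HypR_sign (X : ℝ) :
    ((SignType.sign (-X) : SignType) : ℝ) = -((SignType.sign X : SignType) : ℝ) := by
  rw [Left.sign_neg]
  push_cast
  rfl
private theorem HypR_wf (x : ℝ) : wf (-x) = wf x := by
  unfold wf mf
  rw [neg_sq]

theorem hyp_rx {J : Jet} {δ : ℝ} (h : Hyp J δ) : Hyp J.rx δ := by
  refine ⟨good_rx J h.good, h.pos, h.le1, fun z => h.hXX _, fun z => h.hYY _, ?_, ?_, ?_, ?_,
    ?_, ?_, ?_, ?_, ?_, ?_, ?_, ?_⟩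
  · intro z
    have := h.hdet (-z.1, z.2)
    simpa only [Jet.rx, neg_sq] using this
  · rintro ⟨a, b⟩
    have := h.lXX (-a, b)
    simpa only [Jet.rx, lJ, HypR_lfx] using this
  · rintro ⟨a, b⟩
    have := h.lYY (-a, b)
    simpa only [Jet.rx, lJ, HypR_lfx, neg_sq] using this
  · rintro ⟨a, b⟩
    have := h.ldet (-a, b)
    simp only [Jet.rx, lJ, HypR_lfx, neg_sq] at this ⊢
    have e : (-(a * b) / lf (a, b) ^ 3 - -J.fXY (-a, b)) ^ 2 =
        (-(-a * b) / lf (a, b) ^ 3 - J.fXY (-a, b)) ^ 2 := by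
      ring
    rw [e]
    exact this
  · intro X Y hX hY
    have := h.low (-X) Y (by rwa [abs_neg]) hY
    simpa only [Jet.rx, abs_neg] using this
  · intro X Y hX hY
    have := h.upp (-X) Y (by rwa [abs_neg]) hY
    simpa only [Jet.rx, abs_neg, HypR_lfx] using this
  · intro X Y h1 h2 h3
    have := h.aX0 (-X) Y (by rwa [abs_neg]) (by rwa [abs_neg]) h3
    simpa only [Jet.rx, abs_neg] using this
  · intro X Y h1 h2 h3
    have := h.aX1 (-X) Y (by rwa [abs_neg]) (by rwa [abs_neg]) h3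
    rw [HypR_sign] at this
    simp only [Jet.rx]
    rw [← abs_neg]
    have e : -(-J.fX (-X, Y) - ((SignType.sign X : SignType) : ℝ) / 2) =
        J.fX (-X, Y) - -((SignType.sign X : SignType) : ℝ) / 2 := by
      ring
    rw [e]
    exact this
  · intro X Y h1 h2 h3
    exact h.aX2 (-X) Y (by rwa [abs_neg]) (by rwa [abs_neg]) h3
  · intro X Y h1 h2 h3
    have := h.aY0 (-X) Y (by rwa [abs_neg]) h2 h3
    simpa only [Jet.rx, HypR_lfx] using this
  · intro X Y h1 h2 h3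
    have := h.aY1 (-X) Y (by rwa [abs_neg]) h2 h3
    simp only [Jet.rx, lJ, HypR_lfx] at this ⊢
    rw [← abs_neg]
    have e : -(X / lf (X, Y) - -J.fX (-X, Y)) = -X / lf (X, Y) - J.fX (-X, Y) := by
      ring
    rw [e]
    exact this
  · intro X Y h1 h2 h3
    have := h.aY2 (-X) Y (by rwa [abs_neg]) h2 h3
    simpa only [Jet.rx, lJ, HypR_lfx] using this
theorem hyp_ry {J : Jet} {δ : ℝ} (h : Hyp J δ) : Hyp J.ry δ := by
  refine ⟨good_ry J h.good, h.pos, h.le1, fun z => h.hXX _, fun z => h.hYY _, ?_, ?_, ?_, ?_,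
    ?_, ?_, ?_, ?_, ?_, ?_, ?_, ?_⟩
  · intro z
    have := h.hdet (z.1, -z.2)
    simpa only [Jet.ry, neg_sq] using this
  · rintro ⟨a, b⟩
    have := h.lXX (a, -b)
    simpa only [Jet.ry, lJ, HypR_lfy, neg_sq] using this
  · rintro ⟨a, b⟩
    have := h.lYY (a, -b)
    simpa only [Jet.ry, lJ, HypR_lfy] using this
  · rintro ⟨a, b⟩
    have := h.ldet (a, -b)
    simp only [Jet.ry, lJ, HypR_lfy, neg_sq] at this ⊢
    have e : (-(a * b) / lf (a, b) ^ 3 - -J.fXY (a, -b)) ^ 2 =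
        (-(a * -b) / lf (a, b) ^ 3 - J.fXY (a, -b)) ^ 2 := by
      ring
    rw [e]
    exact this
  · intro X Y hX hY
    have := h.low X (-Y) hX (by rwa [abs_neg])
    simpa only [Jet.ry, abs_neg] using this
  · intro X Y hX hY
    have := h.upp X (-Y) hX (by rwa [abs_neg])
    simpa only [Jet.ry, abs_neg, HypR_lfy] using this
  · intro X Y h1 h2 h3
    exact h.aX0 X (-Y) h1 h2 (by rwa [abs_neg])
  · intro X Y h1 h2 h3
    exact h.aX1 X (-Y) h1 h2 (by rwa [abs_neg])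
  · intro X Y h1 h2 h3
    have := h.aX2 X (-Y) h1 h2 (by rwa [abs_neg])
    simpa only [Jet.ry, abs_neg] using this
  · intro X Y h1 h2 h3
    have := h.aY0 X (-Y) h1 (by rwa [abs_neg]) (by rwa [abs_neg])
    simpa only [Jet.ry, HypR_lfy, abs_neg] using this
  · intro X Y h1 h2 h3
    have := h.aY1 X (-Y) h1 (by rwa [abs_neg]) (by rwa [abs_neg])
    simpa only [Jet.ry, lJ, HypR_lfy] using this
  · intro X Y h1 h2 h3
    have := h.aY2 X (-Y) h1 (by rwa [abs_neg]) (by rwa [abs_neg])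
    rw [HypR_sign] at this
    simp only [Jet.ry, lJ, HypR_lfy] at this ⊢
    rw [← abs_neg]
    have e : -(Y / lf (X, Y) - -J.fY (X, -Y) - ((SignType.sign Y : SignType) : ℝ) / 2) =
        -Y / lf (X, Y) - J.fY (X, -Y) - -((SignType.sign Y : SignType) : ℝ) / 2 := by
      ring
    rw [e]
    exact this
theorem hyp_sw {J : Jet} {δ : ℝ} (h : Hyp J δ) : Hyp J.sw δ := by
  refine ⟨good_sw J h.good, h.pos, h.le1, ?_, ?_, ?_, ?_, ?_, ?_,
    ?_, ?_, ?_, ?_, ?_, ?_, ?_, ?_⟩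
  · rintro ⟨a, b⟩
    have := h.lYY (b, a)
    simp only [Jet.sw, lJ, HypR_lfs a b] at this ⊢
    linarith
  · rintro ⟨a, b⟩
    have := h.lXX (b, a)
    simp only [Jet.sw, lJ, HypR_lfs a b] at this ⊢
    linarith
  · rintro ⟨a, b⟩
    have := h.ldet (b, a)
    simp only [Jet.sw, lJ, HypR_lfs a b] at this ⊢
    rw [mul_comm b a] at this
    rw [mul_comm ((1 + b ^ 2) / lf (a, b) ^ 3 - J.fYY (b, a))]
    exact this
  · rintro ⟨a, b⟩
    have := h.hYY (b, a)
    simp only [Jet.sw]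
    linarith
  · rintro ⟨a, b⟩
    have := h.hXX (b, a)
    simp only [Jet.sw]
    linarith
  · rintro ⟨a, b⟩
    have := h.hdet (b, a)
    simp only [Jet.sw, sub_sub_cancel]
    rw [mul_comm]
    exact this
  · intro X Y hX hY
    have := h.upp Y X hY hX
    rw [HypR_lfs] at this
    simp only [Jet.sw]
    linarith
  · intro X Y hX hY
    have := h.low Y X hY hX
    simp only [Jet.sw]
    linarith
  · intro X Y h1 h2 h3
    have := h.aY0 Y X h3 h1 h2
    rw [HypR_lfs] at this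
    exact this
  · intro X Y h1 h2 h3
    have := h.aY2 Y X h3 h1 h2
    simp only [lJ, HypR_lfs X Y] at this
    simpa only [Jet.sw, lJ] using this
  · intro X Y h1 h2 h3
    have := h.aY1 Y X h3 h1 h2
    simp only [lJ, HypR_lfs X Y] at this
    simpa only [Jet.sw, lJ] using this
  · intro X Y h1 h2 h3
    have := h.aX0 Y X h2 h3 h1
    simpa only [Jet.sw, sub_sub_cancel] using this
  · intro X Y h1 h2 h3
    have := h.aX2 Y X h2 h3 h1
    simpa only [Jet.sw, sub_sub_cancel] using this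
  · intro X Y h1 h2 h3
    have := h.aX1 Y X h2 h3 h1
    simpa only [Jet.sw, sub_sub_cancel] using this
theorem ch_rx (J : Jet) (x y : ℝ) : ch J.rx x y = (ch J (-x) y).fx := by
  have hz : cc * -x = -(cc * x) := by ring
  simp only [ch, St.fx, Jet.rx, HypR_wf, hz, St.mk.injEq]
  refine ⟨?_, ?_, ?_, ?_, ?_, ?_⟩ <;> first | trivial | ring
theorem ch_ry (J : Jet) (x y : ℝ) : ch J.ry x y = (ch J x (-y)).fy := by
  have hz : wf x * -y / √3 = -(wf x * y / √3) := by ring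
  simp only [ch, St.fy, Jet.ry, hz, St.mk.injEq]
  refine ⟨?_, ?_, ?_, ?_, ?_, ?_⟩ <;> first | trivial | ring
theorem rx_ry (J : Jet) : J.rx.ry = J.ry.rx := by
  simp only [Jet.rx, Jet.ry, neg_neg]
private theorem HypR_Ny (y : ℝ) : Nf (-y) = Nf y := by
  unfold Nf
  rw [neg_sq]
theorem AC_ry0 (J : Jet) (x : ℝ) : AC J.ry x 0 = (AC J x 0).fy := by
  unfold AC
  rw [ch_ry, neg_zero]
  simp only [St.sub, St.fy, starC, St.mk.injEq]
  refine ⟨?_, ?_, ?_, ?_, ?_, ?_⟩ <;> first | trivial | ring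
theorem FC_ry0 (J : Jet) (x : ℝ) : FC J.ry x 0 = (FC J x 0).fy := by
  unfold FC
  rw [AC_ry0]
  simp only [St.sub, St.fy, starC, lSt, St.mk.injEq, zero_div]
  refine ⟨?_, ?_, ?_, ?_, ?_, ?_⟩ <;> first | trivial | ring
theorem AC_rx0 (J : Jet) (y : ℝ) : AC J.rx 0 y = (AC J 0 y).fx := by
  unfold AC
  rw [ch_rx, neg_zero]
  simp only [St.sub, St.fx, starC, St.mk.injEq, mul_zero, zero_div]
  refine ⟨?_, ?_, ?_, ?_, ?_, ?_⟩ <;> first | trivial | ring
theorem AS_rx0 (J : Jet) (y : ℝ) : AS J.rx 0 y = (AS J 0 y).fx := by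
  unfold AS
  rw [ch_rx, neg_zero]
  simp only [St.sub, St.fx, starS, St.mk.injEq, mul_zero, zero_div]
  refine ⟨?_, ?_, ?_, ?_, ?_, ?_⟩ <;> first | trivial | ring
theorem FC_rx0 (J : Jet) (y : ℝ) : FC J.rx 0 y = (FC J 0 y).fx := by
  unfold FC
  rw [AC_rx0]
  simp only [St.sub, St.fx, starC, lSt, St.mk.injEq, mul_zero, zero_div]
  refine ⟨?_, ?_, ?_, ?_, ?_, ?_⟩ <;> first | trivial | ring
theorem FS_rx0 (J : Jet) (y : ℝ) : FS J.rx 0 y = (FS J 0 y).fx := by
  unfold FS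
  rw [AS_rx0]
  simp only [St.sub, St.fx, starS, lSt, St.mk.injEq, mul_zero, zero_div]
  refine ⟨?_, ?_, ?_, ?_, ?_, ?_⟩ <;> first | trivial | ring

end Pool.Agent.MSQ
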