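import Pool.Agent.MSQ.RIb
/-!
RDiv (120 lines). The divergence theorem on a rectangle and on the staircase.

PROOF. `RI_div`: (A + m B)/m = A/m + B (m = mf x > 0, independent of y). Inner integral of A x y/m over y: FTC
(intervalIntegral.integral_eq_sub_of_hasDerivAt) gives (V1 x d - V1 x c)/m. For B: exchange the order
(intervalIntegral_integral_interval_swap for continuous functions; the theorem
`MeasureTheory.integral_integral_swap` on the product of restricted measures, or
`intervalIntegral.integral_interval_swap..`), then FTC in x.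
`SI_div`: RI_div on every rectangle [k/6,(k+1)/6]×[1,t_k], t_k = stY k, k = 0..5:
 SI(..) = Σ_k [ ∫ V1(x,t_k)/m - ∫ V1(x,1)/m + ∫_1^{t_k} V2((k+1)/6,y) dy - ∫_1^{t_k} V2(k/6,y) dy ].
 The first terms are ≤ ε/6 each in absolute value (m ≥ 1); the second sum is -∫_0^1 V1(x,1)/m
 (adjacent intervals, continuity of x ↦ V1 x 1); the V2 terms: ∫_1^{t_0} V2(0,·) remains with sign -, and for
 k = 1..6: ∫_1^{t_{k-1}} V2(k/6,·) - ∫_1^{t_k} V2(k/6,·) = ∫_{t_k}^{t_{k-1}} V2(k/6,·) (t_6 = stY 6 = 1), at most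
 ε (t_{k-1} - t_k); total at most ε(1 + 1).
-/
namespace Pool.Agent.MSQ

private theorem RDiv_mf_ne (x : ℝ) : mf x ≠ 0 := by
  unfold mf; positivity

private theorem RDiv_mf_one (x : ℝ) : 1 ≤ mf x := by
  unfold mf; nlinarith [sq_nonneg x]

private theorem RDiv_mf_cont : Continuous mf := by
  unfold mf; fun_prop

theorem RI_div (a b c d : ℝ) (V1 V2 A B : ℝ → ℝ → ℝ) (hA : Continuous fun z : ℝ × ℝ => A z.1 z.2)
    (hB : Continuous fun z : ℝ × ℝ => B z.1 z.2) (h1 : ∀ x y, HasDerivAt (fun t => V1 x t) (A x y) y)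
    (h2 : ∀ x y, HasDerivAt (fun t => V2 t y) (B x y) x) :
    RI a b c d (fun x y => (A x y + mf x * B x y) / mf x) =
      (∫ x in a..b, (V1 x d - V1 x c) / mf x) + ∫ y in c..d, (V2 b y - V2 a y) := by
  have hAx : ∀ x, Continuous fun y => A x y := fun x => hA.comp (Continuous.prodMk_right x)
  have hBx : ∀ x, Continuous fun y => B x y := fun x => hB.comp (Continuous.prodMk_right x)
  have hBy : ∀ y, Continuous fun x => B x y := fun y => hB.comp (Continuous.prodMk_left y)
  have hinA : ∀ x, ∫ y in c..d, A x y = V1 x d - V1 x c := fun x =>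
    intervalIntegral.integral_eq_sub_of_hasDerivAt (fun y _ => h1 x y)
      ((hAx x).intervalIntegrable _ _)
  have hin : ∀ x, ∫ y in c..d, (A x y + mf x * B x y) / mf x =
      (V1 x d - V1 x c) / mf x + ∫ y in c..d, B x y := by
    intro x
    have e : ∀ y, (A x y + mf x * B x y) / mf x = A x y / mf x + B x y := by
      intro y
      rw [add_div, mul_div_cancel_left₀ _ (RDiv_mf_ne x)]
    simp_rw [e]
    rw [intervalIntegral.integral_add (((hAx x).div_const _).intervalIntegrable _ _)
      ((hBx x).intervalIntegrable _ _), intervalIntegral.integral_div, hinA x]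
  have hV : Continuous fun x => (V1 x d - V1 x c) / mf x := by
    have h := intervalIntegral.continuous_parametric_intervalIntegral_of_continuous'
      (μ := MeasureTheory.volume) hA c d
    have h' : Continuous fun x => V1 x d - V1 x c := by
      refine h.congr fun x => hinA x
    exact h'.div RDiv_mf_cont RDiv_mf_ne
  have hBi : Continuous fun x => ∫ y in c..d, B x y :=
    intervalIntegral.continuous_parametric_intervalIntegral_of_continuous' hB c d
  unfold RI
  simp_rw [hin]
  rw [intervalIntegral.integral_add (hV.intervalIntegrable _ _) (hBi.intervalIntegrable _ _)]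
  congr 1
  rw [MeasureTheory.intervalIntegral_intervalIntegral_swap]
  · refine intervalIntegral.integral_congr fun y _ => ?_
    exact intervalIntegral.integral_eq_sub_of_hasDerivAt (fun x _ => h2 x y)
      ((hBy y).intervalIntegrable _ _)
  · have hc : Continuous (Function.uncurry B) := hB
    refine (hc.continuousOn.integrableOn_compact
      (isCompact_uIcc.prod (isCompact_uIcc (a := c) (b := d)))).mono_set
      (Set.prod_mono Set.uIoc_subset_uIcc Set.uIoc_subset_uIcc)

private theorem RDiv_st (k : ℕ) (hk : k < 6) : stY (k + 1) ≤ stY k := by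
  interval_cases k <;> norm_num [stY]
theorem SI_div (ε : ℝ) (hε : 0 ≤ ε) (V1 V2 A B : ℝ → ℝ → ℝ)
    (hA : Continuous fun z : ℝ × ℝ => A z.1 z.2) (hB : Continuous fun z : ℝ × ℝ => B z.1 z.2)
    (hV1 : Continuous fun z : ℝ × ℝ => V1 z.1 z.2) (hV2 : Continuous fun z : ℝ × ℝ => V2 z.1 z.2)
    (h1 : ∀ x y, HasDerivAt (fun t => V1 x t) (A x y) y)
    (h2 : ∀ x y, HasDerivAt (fun t => V2 t y) (B x y) x)
    (e1 : ∀ k : ℕ, k < 6 → ∀ x, (k : ℝ) / 6 ≤ x → x ≤ ((k : ℝ) + 1) / 6 → |V1 x (stY k)| ≤ ε)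
    (e2 : ∀ k : ℕ, k < 6 → ∀ y, stY (k + 1) ≤ y → y ≤ stY k → |V2 (((k : ℝ) + 1) / 6) y| ≤ ε) :
    |SI (fun x y => (A x y + mf x * B x y) / mf x) + (∫ x in (0:ℝ)..1, V1 x 1 / mf x) +
      ∫ y in (1:ℝ)..(49 / 40), V2 0 y| ≤ 2 * ε := by
  have hV1y : ∀ y, Continuous fun x => V1 x y := fun y => hV1.comp (Continuous.prodMk_left y)
  have hV2x : ∀ x, Continuous fun y => V2 x y := fun x => hV2.comp (Continuous.prodMk_right x)
  have hV1m : ∀ y, Continuous fun x => V1 x y / mf x := fun y =>
    (hV1y y).div RDiv_mf_cont RDiv_mf_ne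
  have hsum : SI (fun x y => (A x y + mf x * B x y) / mf x) =
      ∑ k ∈ Finset.range 6, (((∫ x in ((k : ℝ) / 6)..(((k : ℝ) + 1) / 6), V1 x (stY k) / mf x) -
        ∫ x in ((k : ℝ) / 6)..(((k : ℝ) + 1) / 6), V1 x 1 / mf x) +
        ((∫ y in (stY (k + 1))..(stY k), V2 (((k : ℝ) + 1) / 6) y) +
        ((∫ y in (1:ℝ)..(stY (k + 1)), V2 (((k : ℝ) + 1) / 6) y) -
          ∫ y in (1:ℝ)..(stY k), V2 ((k : ℝ) / 6) y))) := by
    unfold SI
    refine Finset.sum_congr rfl fun k _ => ?_
    rw [RI_div _ _ _ _ V1 V2 A B hA hB h1 h2]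
    congr 1
    · rw [← intervalIntegral.integral_sub ((hV1m _).intervalIntegrable _ _)
        ((hV1m _).intervalIntegrable _ _)]
      refine intervalIntegral.integral_congr fun x _ => ?_
      exact sub_div _ _ _
    · rw [intervalIntegral.integral_sub ((hV2x _).intervalIntegrable _ _)
        ((hV2x _).intervalIntegrable _ _),
        ← intervalIntegral.integral_add_adjacent_intervals
          ((hV2x _).intervalIntegrable (1:ℝ) (stY (k + 1)))
          ((hV2x _).intervalIntegrable (stY (k + 1)) (stY k))]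
      ring
  have hQ : ∑ k ∈ Finset.range 6, ∫ x in ((k : ℝ) / 6)..(((k : ℝ) + 1) / 6), V1 x 1 / mf x =
      ∫ x in (0:ℝ)..1, V1 x 1 / mf x := by
    have h := intervalIntegral.sum_integral_adjacent_intervals (μ := MeasureTheory.volume)
      (f := fun x => V1 x 1 / mf x) (a := fun k : ℕ => (k : ℝ) / 6) (n := 6)
      (fun k _ => (hV1m 1).intervalIntegrable _ _)
    simp only [Nat.cast_add, Nat.cast_one] at h
    rw [h]
    norm_num
  have hT : ∑ k ∈ Finset.range 6, ((∫ y in (1:ℝ)..(stY (k + 1)), V2 (((k : ℝ) + 1) / 6) y) -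
          ∫ y in (1:ℝ)..(stY k), V2 ((k : ℝ) / 6) y) = - ∫ y in (1:ℝ)..(49 / 40), V2 0 y := by
    have h := Finset.sum_range_sub (fun k : ℕ => ∫ y in (1:ℝ)..(stY k), V2 ((k : ℝ) / 6) y) 6
    simp only [Nat.cast_add, Nat.cast_one] at h
    rw [h]
    simp [stY]
  have hP : |∑ k ∈ Finset.range 6,
      ∫ x in ((k : ℝ) / 6)..(((k : ℝ) + 1) / 6), V1 x (stY k) / mf x| ≤ ε := by
    refine (Finset.abs_sum_le_sum_abs _ _).trans ?_
    have hb : ∀ k ∈ Finset.range 6,
        |∫ x in ((k : ℝ) / 6)..(((k : ℝ) + 1) / 6), V1 x (stY k) / mf x| ≤ ε * (1 / 6) := by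
      intro k hk
      have hk6 := Finset.mem_range.1 hk
      have h := intervalIntegral.norm_integral_le_of_norm_le_const (a := (k : ℝ) / 6)
        (b := ((k : ℝ) + 1) / 6) (f := fun x => V1 x (stY k) / mf x) (C := ε) (fun x hx => by
          rw [Set.uIoc_of_le (by linarith)] at hx
          rw [Real.norm_eq_abs, abs_div, abs_of_pos (lt_of_lt_of_le one_pos (RDiv_mf_one x))]
          refine (div_le_self (abs_nonneg _) (RDiv_mf_one x)).trans ?_
          exact e1 k hk6 x hx.1.le hx.2)
      rw [Real.norm_eq_abs] at h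
      refine h.trans (le_of_eq ?_)
      rw [show ((k : ℝ) + 1) / 6 - (k : ℝ) / 6 = 1 / 6 by ring]
      norm_num
    refine (Finset.sum_le_sum hb).trans (le_of_eq ?_)
    rw [Finset.sum_const, Finset.card_range]
    simp only [nsmul_eq_mul]
    push_cast
    ring
  have hR : |∑ k ∈ Finset.range 6,
      ∫ y in (stY (k + 1))..(stY k), V2 (((k : ℝ) + 1) / 6) y| ≤ ε := by
    refine (Finset.abs_sum_le_sum_abs _ _).trans ?_
    have hb : ∀ k ∈ Finset.range 6,
        |∫ y in (stY (k + 1))..(stY k), V2 (((k : ℝ) + 1) / 6) y| ≤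
          ε * stY k - ε * stY (k + 1) := by
      intro k hk
      have hk6 := Finset.mem_range.1 hk
      have hst := RDiv_st k hk6
      have h := intervalIntegral.norm_integral_le_of_norm_le_const (a := stY (k + 1))
        (b := stY k) (f := fun y => V2 (((k : ℝ) + 1) / 6) y) (C := ε) (fun y hy => by
          rw [Set.uIoc_of_le hst] at hy
          rw [Real.norm_eq_abs]
          exact e2 k hk6 y hy.1.le hy.2)
      rw [Real.norm_eq_abs] at h
      refine h.trans (le_of_eq ?_)
      rw [abs_of_nonneg (sub_nonneg.2 hst)]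
      ring
    refine (Finset.sum_le_sum hb).trans ?_
    have h := Finset.sum_range_sub' (fun k : ℕ => ε * stY k) 6
    rw [h]
    simp only [stY]
    nlinarith
  rw [hsum, Finset.sum_add_distrib, Finset.sum_sub_distrib, Finset.sum_add_distrib, hQ, hT]
  rw [abs_le] at hP hR ⊢
  constructor
  · linarith [hP.1, hR.1]
  · linarith [hP.2, hR.2]

end Pool.Agent.MSQ
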