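/-
MSQ: computable part. Polynomials in `x, y` with integer coefficients, polynomial matrices on a
box, basic operations.
-/
namespace Pool.Agent.MSQ

/-- padded addition of lists -/
def addL {α : Type} (f : α → α → α) : List α → List α → List α
  | [], b => b
  | a :: s, [] => a :: s
  | a :: s, b :: t => f a b :: addL f s t

/-- multiplication of a polynomial (low degree first) by `a + b t` -/
def mulLin {α : Type} (sm : Int → α → α) (add : α → α → α) (zero : α) (a b : Int) (h : List α) :
    List α :=
  addL add (h.map (sm a)) (zero :: h.map (sm b))

/-- `(trA .. a b q p).1` : coefficients in `t` of `(q(1+t))^(len p - 1) * p((a+b t)/(q(1+t)))`;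
second component: the coefficients of `(q(1+t))^(len p)` -/
def trA {α : Type} (sm : Int → α → α) (add : α → α → α) (zero : α) (a b q : Int) :
    List α → List α × List Int
  | [] => ([], [1])
  | c :: l =>
    let r := trA sm add zero a b q l
    (addL add (r.2.map (fun z => sm z c)) (mulLin sm add zero a b r.1),
      mulLin (· * ·) (· + ·) 0 q q r.2)

def addV : List Int → List Int → List Int := addL (· + ·)
def smV (c : Int) (v : List Int) : List Int := v.map (c * ·)
def addP : List (List Int) → List (List Int) → List (List Int) := addL addV
def smP (c : Int) (v : List (List Int)) : List (List Int) := v.map (smV c)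

/-- `a m_j - 2 r_i r_j` for the off diagonal entries (missing entries are 0) -/
def rowUp : Nat → Int → Int → List Int → List Int → List Int
  | 0, _, _, _, _ => []
  | n + 1, a, ri, r, ms => (a * ms.headD 0 - 2 * ri * r.headD 0) :: rowUp n a ri r.tail ms.tail

/-- Schur complement of the first variable (times `4a`), missing entries are 0 -/
def upd : Nat → Int → List Int → List Int → List Int
  | 0, _, _, _ => []
  | n + 1, a, r, ms =>
    (4 * a * ms.headD 0 - r.headD 0 * r.headD 0) ::
      (rowUp n (4 * a) (r.headD 0) r.tail ms.tail ++ upd n a r.tail (ms.tail.drop n))

/-- positive semidefiniteness of the quadratic form whose coefficients of `s_i s_j` (`i ≤ j`) are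
listed row by row -/
def psd : Nat → List Int → Bool
  | 0, _ => true
  | _ + 1, [] => true
  | n + 1, a :: t =>
    if a < 0 then false
    else if a = 0 then (t.take n).all (· == 0) && psd n (t.drop n)
    else psd n (upd n a (t.take n) (t.drop n))

/-- polynomials in `x, y`: outer list powers of `x`, inner list powers of `y` -/
abbrev P := List (List Int)

/-- put a scalar polynomial at position `k` of a vector polynomial -/
def emb (k : Nat) (p : P) : List (List (List Int)) := p.map fun r => r.map fun c => List.replicate k 0 ++ [c]

def embL : Nat → List P → List (List (List Int))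
  | _, [] => []
  | k, p :: l => addL addP (emb k p) (embL (k + 1) l)

def pAdd : P → P → P := addP
def pSm (c : Int) (p : P) : P := smP c p

end Pool.Agent.MSQ
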