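import Pool.Agent.MSQ.Defs
/-!
PsdS (70 lines). Soundness of the positive semidefiniteness test `psd` (file Poly.lean).
Definitions (Defs.lean): `dotL c s = Σ c_j s_j`; `qf M s` is the quadratic form whose upper triangular
coefficients (of `s_i s_j`, `i ≤ j`) are listed row by row in `M`, missing entries are 0.

PROOF. Work with the cast lists `M.map (fun z : Int => (z:ℝ))` (List.map_take, List.map_drop).
(0) `dotL [] s = 0`, `qf [] s = 0` (induction on s), `dotL` of a list of zeros is 0.
(1) `dotL ((rowUp n a ri r ms).map cast) ss = a * dotL (ms.map cast) ss - 2*ri*dotL (r.map cast) ss`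
    for `ss.length = n`: induction on n, generalizing r, ms, ss (cases on r, ms: headD 0, tail).
(2) `qf ((upd n a r ms).map cast) ss = 4*a*qf (ms.map cast) ss - (dotL (r.map cast) ss)^2` for
    `ss.length = n`: induction on n, generalizing r, ms, ss = s :: ss'. The first row of `upd` has
    exactly n+1 entries (rowUp n has length n), so take (n+1) of it is that row, drop (n+1) is
    `upd n a r.tail (ms.tail.drop n)`. The row contributes
    s*((4a*m0 - r0^2) s + 4a*dotL ms.tail.. - 2 r0 dotL r.tail ss'), note that
    `dotL (ms.tail.take n) ss' = dotL ms.tail ss'` because ss' has length n. Then ring, using the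
    induction hypothesis: (r0 s + d)^2 = r0^2 s^2 + 2 r0 s d + d^2.
(3) `psd_sound`: induction on n, generalizing M, s. n = 0: s = [] and qf = 0. n+1: s = s0 :: ss;
    M = [] : 0. M = a :: t. `a < 0` impossible. `a = 0`: the entries t.take n are 0, so the first row
    contributes 0, and the rest is qf (t.drop n) ss ≥ 0 by induction. `a > 0`:
    4a * qf (a::t) (s0::ss) = (2 a s0 + d)^2 + qf (upd n a (t.take n) (t.drop n)) ss  with
    d = dotL (t.take n) ss, by (2); the last term is ≥ 0 by induction; divide by 4a > 0.
-/
namespace Pool.Agent.MSQ

private theorem pss_nil (s : List ℝ) : dotL [] s = 0 := by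
  cases s <;> rfl

private theorem pss_nil' (c : List ℝ) : dotL c [] = 0 := by
  cases c <;> rfl

private theorem pss_qnil (s : List ℝ) : qf [] s = 0 := by
  induction s with
  | nil => rfl
  | cons t s ih =>
    simp only [qf, List.take_nil, List.drop_nil, ih, pss_nil]
    ring

private theorem pss_take (c s : List ℝ) : dotL (c.take s.length) s = dotL c s := by
  induction c generalizing s with
  | nil => simp
  | cons a c ih =>
    cases s with
    | nil => rw [pss_nil', pss_nil']
    | cons t s => simp [dotL, ih]

private theorem pss_hd (l : List Int) (t : ℝ) (s : List ℝ) :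
    dotL (l.map fun z : Int => (z : ℝ)) (t :: s) =
      ((l.headD 0 : Int) : ℝ) * t + dotL (l.tail.map fun z : Int => (z : ℝ)) s := by
  cases l with
  | nil => simp [pss_nil]
  | cons a l => simp [dotL]

private theorem pss_row (n : ℕ) (a ri : Int) (r ms : List Int) (s : List ℝ) (hs : s.length = n) :
    dotL ((rowUp n a ri r ms).map fun z : Int => (z : ℝ)) s =
      a * dotL (ms.map fun z : Int => (z : ℝ)) s -
        2 * ri * dotL (r.map fun z : Int => (z : ℝ)) s := by
  induction n generalizing r ms s with
  | zero =>
    obtain rfl := List.length_eq_zero_iff.1 hs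
    simp only [pss_nil']
    ring
  | succ n ih =>
    cases s with
    | nil => simp at hs
    | cons t s =>
      have hs' : s.length = n := by simpa using hs
      rw [pss_hd ms, pss_hd r]
      simp only [rowUp, List.map_cons, dotL, ih _ _ _ hs']
      push_cast
      ring

private theorem pss_rowlen (n : ℕ) (a ri : Int) (r ms : List Int) :
    (rowUp n a ri r ms).length = n := by
  induction n generalizing r ms with
  | zero => rfl
  | succ n ih => simp [rowUp, ih]

private theorem pss_qf (l : List Int) (t : ℝ) (s : List ℝ) (n : ℕ) (hs : s.length = n) :
    qf (l.map fun z : Int => (z : ℝ)) (t :: s) =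
      t * (((l.headD 0 : Int) : ℝ) * t + dotL (l.tail.map fun z : Int => (z : ℝ)) s) +
        qf ((l.tail.drop n).map fun z : Int => (z : ℝ)) s := by
  have h1 := pss_take (l.map fun z : Int => (z : ℝ)) (t :: s)
  rw [List.length_cons] at h1
  simp only [qf]
  rw [h1, pss_hd, ← List.map_drop, hs]
  congr 3
  cases l <;> simp

private theorem pss_upd (n : ℕ) (a : Int) (r ms : List Int) (s : List ℝ) (hs : s.length = n) :
    qf ((upd n a r ms).map fun z : Int => (z : ℝ)) s =
      4 * a * qf (ms.map fun z : Int => (z : ℝ)) s -
        (dotL (r.map fun z : Int => (z : ℝ)) s) ^ 2 := by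
  induction n generalizing r ms s with
  | zero =>
    obtain rfl := List.length_eq_zero_iff.1 hs
    simp [qf, pss_nil']
  | succ n ih =>
    cases s with
    | nil => simp at hs
    | cons t s =>
      have hs' : s.length = n := by simpa using hs
      rw [pss_qf _ t s n hs', pss_qf ms t s n hs', pss_hd r]
      have h1 : (upd (n + 1) a r ms).headD 0 = 4 * a * ms.headD 0 - r.headD 0 * r.headD 0 := rfl
      have h2 : (upd (n + 1) a r ms).tail =
        rowUp n (4 * a) (r.headD 0) r.tail ms.tail ++ upd n a r.tail (ms.tail.drop n) := rfl
      have h3 : ((upd (n + 1) a r ms).tail.drop n) = upd n a r.tail (ms.tail.drop n) := by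
        rw [h2, List.drop_left' (pss_rowlen n _ _ _ _)]
      have h4 : dotL ((upd (n + 1) a r ms).tail.map fun z : Int => (z : ℝ)) s =
          dotL ((rowUp n (4 * a) (r.headD 0) r.tail ms.tail).map fun z : Int => (z : ℝ)) s := by
        rw [← pss_take, ← List.map_take, h2, hs', List.take_left' (pss_rowlen n _ _ _ _)]
      rw [h1, h3, h4, pss_row n _ _ _ _ _ hs', ih _ _ _ hs']
      push_cast
      ring

theorem psd_sound (n : ℕ) (M : List Int) (h : psd n M = true) (s : List ℝ) (hs : s.length = n) :
    0 ≤ qf (M.map fun z : Int => (z : ℝ)) s := by
  induction n generalizing M s with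
  | zero =>
    obtain rfl := List.length_eq_zero_iff.1 hs
    simp [qf]
  | succ n ih =>
    cases s with
    | nil => simp at hs
    | cons t s =>
      have hs' : s.length = n := by simpa using hs
      cases M with
      | nil =>
        rw [List.map_nil, pss_qnil]
      | cons a l =>
        rw [pss_qf _ t s n hs', List.headD_cons, List.tail_cons]
        have hd : dotL (l.map fun z : Int => (z : ℝ)) s =
            dotL ((l.take n).map fun z : Int => (z : ℝ)) s := by
          rw [← pss_take (l.map fun z : Int => (z : ℝ)), ← List.map_take, hs']
        unfold psd at h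
        split_ifs at h with h0 h1
        · rw [Bool.and_eq_true] at h
          have h2 := ih _ h.2 s hs'
          have h3 : ∀ m : List Int, m.all (· == 0) = true → ∀ u : List ℝ,
              dotL (m.map fun z : Int => (z : ℝ)) u = 0 := by
            intro m
            induction m with
            | nil => exact fun _ u => by rw [List.map_nil, pss_nil]
            | cons b m ihm =>
              intro hm u
              cases u with
              | nil => rw [pss_nil']
              | cons v u =>
                rw [List.all_cons, Bool.and_eq_true] at hm
                have hb : b = 0 := by simpa using hm.1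
                rw [List.map_cons, dotL, ihm hm.2, hb]
                simp
          rw [hd, h3 _ h.1, h1]
          simp only [Int.cast_zero]
          nlinarith [h2]
        · have ha : 0 < a := by omega
          have ha' : (0 : ℝ) < a := by exact_mod_cast ha
          have h2 := ih _ h s hs'
          rw [pss_upd n _ _ _ _ hs', ← hd] at h2
          have h3 : 0 ≤ (4 * (a : ℝ)) * (t * ((a : ℝ) * t + dotL (l.map fun z : Int => (z : ℝ)) s) +
              qf ((l.drop n).map fun z : Int => (z : ℝ)) s) := by
            nlinarith [sq_nonneg (2 * (a : ℝ) * t + dotL (l.map fun z : Int => (z : ℝ)) s)]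
          exact nonneg_of_mul_nonneg_right h3 (by positivity)

end Pool.Agent.MSQ
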