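import Mathlib
import Pool.Agent.MSQ.DataE
/-!
MSQ: definitions for the square theorem.
Chart: `X = x/√2`, `Y = w y/√3`, `w = √(1+x^2/2)`, `m = w^2`, `N = √(1+y^2/3)`.
-/
namespace Pool.Agent.MSQ

noncomputable section

/-! ### evaluation of the computable polynomials -/

/-- value of a one variable polynomial -/
def evL (y : ℝ) : List Int → ℝ
  | [] => 0
  | a :: l => (a : ℝ) + y * evL y l

/-- value of a polynomial in `x, y` -/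
def ev (x y : ℝ) : P → ℝ
  | [] => 0
  | r :: l => evL y r + x * ev x y l

/-- `Σ c_j s_j` -/
def dotL : List ℝ → List ℝ → ℝ
  | [], _ => 0
  | _ :: _, [] => 0
  | c :: cs, s :: ss => c * s + dotL cs ss

/-- quadratic form whose coefficients of `s_i s_j`, `i ≤ j`, are listed row by row (missing
entries are 0) -/
def qf : List ℝ → List ℝ → ℝ
  | _, [] => 0
  | M, s :: ss => s * dotL (M.take (ss.length + 1)) (s :: ss) + qf (M.drop (ss.length + 1)) ss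

/-- values of the entries of a vector polynomial (used for the entries of a matrix) -/
def evE (x y : ℝ) (E : List P) : List ℝ := E.map (ev x y)

/-! ### elementary functions of the chart -/

/-- `c = 1/√2` -/
def cc : ℝ := 1 / √2
def s3 : ℝ := √3 / 2
def mf (x : ℝ) : ℝ := 1 + x ^ 2 / 2
def wf (x : ℝ) : ℝ := √(mf x)
def Nf (y : ℝ) : ℝ := √(1 + y ^ 2 / 3)

/-! ### states -/

/-- state of a function at a point of the chart: value, first and second order data -/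
structure St where
  u : ℝ
  q : ℝ
  p : ℝ
  mu : ℝ
  nu : ℝ
  ka : ℝ

def St.sub (s t : St) : St := ⟨s.u - t.u, s.q - t.q, s.p - t.p, s.mu - t.mu, s.nu - t.nu, s.ka - t.ka⟩
/-- half sum (even part) -/
def St.hs (s t : St) : St :=
  ⟨(s.u + t.u) / 2, (s.q + t.q) / 2, (s.p + t.p) / 2, (s.mu + t.mu) / 2, (s.nu + t.nu) / 2,
    (s.ka + t.ka) / 2⟩
/-- half difference (odd part) -/
def St.hd (s t : St) : St :=
  ⟨(s.u - t.u) / 2, (s.q - t.q) / 2, (s.p - t.p) / 2, (s.mu - t.mu) / 2, (s.nu - t.nu) / 2,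
    (s.ka - t.ka) / 2⟩
/-- state of the function reflected in `y` -/
def St.fy (s : St) : St := ⟨s.u, -s.q, s.p, s.mu, -s.nu, s.ka⟩
/-- state of the function reflected in `x` -/
def St.fx (s : St) : St := ⟨s.u, s.q, -s.p, s.mu, -s.nu, s.ka⟩

/-- the field `S` is the field of states of a `C^3` function; `Z = m ν_x`, `E = ν_y` -/
structure JS (S : ℝ → ℝ → St) (Z E : ℝ → ℝ → ℝ) : Prop where
  uy : ∀ x y, HasDerivAt (fun t => (S x t).u) (S x y).q y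
  ux : ∀ x y, HasDerivAt (fun t => (S t y).u) ((S x y).p / mf x) x
  qy : ∀ x y, HasDerivAt (fun t => (S x t).q) (S x y).mu y
  qx : ∀ x y, HasDerivAt (fun t => (S t y).q) ((S x y).nu / mf x) x
  py : ∀ x y, HasDerivAt (fun t => (S x t).p) (S x y).nu y
  px : ∀ x y, HasDerivAt (fun t => (S t y).p)
    (((S x y).ka - (S x y).u + y * (S x y).q) / (2 * mf x)) x
  kay : ∀ x y, HasDerivAt (fun t => (S x t).ka) (2 * Z x y - y * (S x y).mu) y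
  nux : ∀ x y, HasDerivAt (fun t => (S t y).nu) (Z x y / mf x) x
  nuy : ∀ x y, HasDerivAt (fun t => (S x t).nu) (E x y) y
  mux : ∀ x y, HasDerivAt (fun t => (S t y).mu) (E x y / mf x) x
  cu : Continuous fun z : ℝ × ℝ => (S z.1 z.2).u
  cq : Continuous fun z : ℝ × ℝ => (S z.1 z.2).q
  cp : Continuous fun z : ℝ × ℝ => (S z.1 z.2).p
  cmu : Continuous fun z : ℝ × ℝ => (S z.1 z.2).mu
  cnu : Continuous fun z : ℝ × ℝ => (S z.1 z.2).nu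
  cka : Continuous fun z : ℝ × ℝ => (S z.1 z.2).ka
  cZ : Continuous fun z : ℝ × ℝ => Z z.1 z.2
  cE : Continuous fun z : ℝ × ℝ => E z.1 z.2

/-! ### gauges -/

/-- first component of the quadratic gauge (multiplied by `DD`) -/
def V1q (g : GB) (x y : ℝ) (s : St) : ℝ :=
  (ev x y g.G11 * s.u ^ 2 / 2 + ev x y g.G12 * s.u * s.q + ev x y g.G22 * s.q ^ 2 / 2 +
    ev x y g.G13 * s.u * s.p + ev x y g.G23 * s.q * s.p + ev x y g.G33 * s.p ^ 2 / 2 +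
    ev x y g.K * s.q * (s.ka - s.u + y * s.q)) / Nf y

/-- second component of the quadratic gauge -/
def V2q (g : GB) (x y : ℝ) (s : St) : ℝ :=
  (ev x y g.H11 * s.u ^ 2 / 2 + ev x y g.H12 * s.u * s.q + ev x y g.H22 * s.q ^ 2 / 2 +
    ev x y g.H13 * s.u * s.p + ev x y g.H23 * s.q * s.p + ev x y g.H33 * s.p ^ 2 / 2) / Nf y ^ 3 -
    2 * ev x y g.K * s.q * s.nu / Nf y

/-- `N^2 G_y - y G/3` -/
def Af (x y : ℝ) (G : P) : ℝ := (1 + y ^ 2 / 3) * ev x y (pDY G) - y * ev x y G / 3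

/-- the residual form of the quadratic gauge -/
def Rg (D : ℝ) (g : GB) (x y : ℝ) (s : St) : ℝ :=
  D * (3 * (1 + y ^ 2 / 3) * s.u * s.mu + s.u * s.ka)
  - (Af x y g.G11 * s.u ^ 2 / 2 + Af x y g.G12 * s.u * s.q + Af x y g.G22 * s.q ^ 2 / 2 +
    Af x y g.G13 * s.u * s.p + Af x y g.G23 * s.q * s.p + Af x y g.G33 * s.p ^ 2 / 2)
  - (1 + y ^ 2 / 3) * (ev x y g.G11 * s.u * s.q + ev x y g.G12 * (s.q ^ 2 + s.u * s.mu) +
    ev x y g.G22 * s.q * s.mu + ev x y g.G13 * (s.q * s.p + s.u * s.nu) +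
    ev x y g.G23 * (s.mu * s.p + s.q * s.nu) + ev x y g.G33 * s.p * s.nu)
  - mf x * (ev x y (pDX g.H11) * s.u ^ 2 / 2 + ev x y (pDX g.H12) * s.u * s.q +
    ev x y (pDX g.H22) * s.q ^ 2 / 2 + ev x y (pDX g.H13) * s.u * s.p +
    ev x y (pDX g.H23) * s.q * s.p + ev x y (pDX g.H33) * s.p ^ 2 / 2)
  - (ev x y g.H11 * s.u * s.p + ev x y g.H12 * (s.p * s.q + s.u * s.nu) +
    ev x y g.H22 * s.q * s.nu + ev x y g.H13 * (s.p ^ 2 + s.u * (s.ka - s.u + y * s.q) / 2) +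
    ev x y g.H23 * (s.nu * s.p + s.q * (s.ka - s.u + y * s.q) / 2) +
    ev x y g.H33 * s.p * (s.ka - s.u + y * s.q) / 2)
  - ((Af x y g.K * s.q + (1 + y ^ 2 / 3) * ev x y g.K * s.mu) * (s.ka - s.u + y * s.q) -
    2 * (1 + y ^ 2 / 3) * (mf x * ev x y (pDX g.K) * s.q * s.nu + ev x y g.K * s.nu ^ 2))

/-- first component of the bilinear gauge -/
def W1 (y : ℝ) (s v : St) : ℝ := Nf y * v.ka * s.q - 2 * Nf y * v.nu * s.p - y / (3 * Nf y) * v.ka * s.u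
/-- second component of the bilinear gauge -/
def W2 (y : ℝ) (s v : St) : ℝ :=
  2 * Nf y * v.mu * s.p - 2 * Nf y * v.nu * s.q + 2 * (y / (3 * Nf y)) * v.nu * s.u

/-- base term of the core -/
def bC (y : ℝ) (s : St) : ℝ :=
  (3 * Nf y ^ 2 * s.u * s.mu + s.u * s.ka) / Nf y ^ 3 + (2 - √3 * Nf y) * s.u / Nf y ^ 4
/-- base term of the sliver -/
def bS (y : ℝ) (s : St) : ℝ :=
  (3 * Nf y ^ 2 * s.u * s.mu + s.u * s.ka) / Nf y ^ 3 - 2 * s.u / Nf y ^ 4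

/-! ### the two reference functions and the norm in the chart -/

def lSt (_x y : ℝ) : St := ⟨Nf y, y / (3 * Nf y), 0, 1 / (3 * Nf y ^ 3), 0, 1 / Nf y⟩
def starC (x _y : ℝ) : St := ⟨s3 - cc / (2 * wf x), 0, cc * x / (4 * wf x), 0, 0, s3⟩
def starS (x y : ℝ) : St :=
  ⟨Nf y - y / (2 * √3) - cc / (2 * wf x), y / (3 * Nf y) - 1 / (2 * √3), cc * x / (4 * wf x),
    1 / (3 * Nf y ^ 3), 0, 1 / Nf y⟩

/-! ### jets in the plane -/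

/-- a function of `(X,Y)` with its derivatives up to order three -/
structure Jet where
  f : ℝ × ℝ → ℝ
  fX : ℝ × ℝ → ℝ
  fY : ℝ × ℝ → ℝ
  fXX : ℝ × ℝ → ℝ
  fXY : ℝ × ℝ → ℝ
  fYY : ℝ × ℝ → ℝ
  fXXX : ℝ × ℝ → ℝ
  fXXY : ℝ × ℝ → ℝ
  fXYY : ℝ × ℝ → ℝ
  fYYY : ℝ × ℝ → ℝ

/-- `FX, FY` are the first derivatives of `F`, and `F` is differentiable -/
def D1 (F FX FY : ℝ × ℝ → ℝ) : Prop :=
  ∀ z, HasFDerivAt F (FX z • ContinuousLinearMap.fst ℝ ℝ ℝ + FY z • ContinuousLinearMap.snd ℝ ℝ ℝ) z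

structure Jet.Good (J : Jet) : Prop where
  d : D1 J.f J.fX J.fY
  dX : D1 J.fX J.fXX J.fXY
  dY : D1 J.fY J.fXY J.fYY
  dXX : D1 J.fXX J.fXXX J.fXXY
  dXY : D1 J.fXY J.fXXY J.fXYY
  dYY : D1 J.fYY J.fXYY J.fYYY
  cXXX : Continuous J.fXXX
  cXXY : Continuous J.fXXY
  cXYY : Continuous J.fXYY
  cYYY : Continuous J.fYYY

/-- reflection `X → -X` -/
def Jet.rx (J : Jet) : Jet where
  f := fun z => J.f (-z.1, z.2)
  fX := fun z => -J.fX (-z.1, z.2)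
  fY := fun z => J.fY (-z.1, z.2)
  fXX := fun z => J.fXX (-z.1, z.2)
  fXY := fun z => -J.fXY (-z.1, z.2)
  fYY := fun z => J.fYY (-z.1, z.2)
  fXXX := fun z => -J.fXXX (-z.1, z.2)
  fXXY := fun z => J.fXXY (-z.1, z.2)
  fXYY := fun z => -J.fXYY (-z.1, z.2)
  fYYY := fun z => J.fYYY (-z.1, z.2)

/-- reflection `Y → -Y` -/
def Jet.ry (J : Jet) : Jet where
  f := fun z => J.f (z.1, -z.2)
  fX := fun z => J.fX (z.1, -z.2)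
  fY := fun z => -J.fY (z.1, -z.2)
  fXX := fun z => J.fXX (z.1, -z.2)
  fXY := fun z => -J.fXY (z.1, -z.2)
  fYY := fun z => J.fYY (z.1, -z.2)
  fXXX := fun z => J.fXXX (z.1, -z.2)
  fXXY := fun z => -J.fXXY (z.1, -z.2)
  fXYY := fun z => J.fXYY (z.1, -z.2)
  fYYY := fun z => -J.fYYY (z.1, -z.2)

/-- `l = √(1+X^2+Y^2)` -/
def lf (z : ℝ × ℝ) : ℝ := √(1 + z.1 ^ 2 + z.2 ^ 2)

/-- the jet of `l` -/
def lJ : Jet where
  f := lf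
  fX := fun z => z.1 / lf z
  fY := fun z => z.2 / lf z
  fXX := fun z => (1 + z.2 ^ 2) / lf z ^ 3
  fXY := fun z => -(z.1 * z.2) / lf z ^ 3
  fYY := fun z => (1 + z.1 ^ 2) / lf z ^ 3
  fXXX := fun z => -3 * z.1 * (1 + z.2 ^ 2) / lf z ^ 5
  fXXY := fun z => z.2 * (2 * z.1 ^ 2 - 1 - z.2 ^ 2) / lf z ^ 5
  fXYY := fun z => z.1 * (2 * z.2 ^ 2 - 1 - z.1 ^ 2) / lf z ^ 5
  fYYY := fun z => -3 * z.2 * (1 + z.1 ^ 2) / lf z ^ 5

/-- the jet of `(X,Y) ↦ l - J(Y,X)` -/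
def Jet.sw (J : Jet) : Jet where
  f := fun z => lf z - J.f (z.2, z.1)
  fX := fun z => lJ.fX z - J.fY (z.2, z.1)
  fY := fun z => lJ.fY z - J.fX (z.2, z.1)
  fXX := fun z => lJ.fXX z - J.fYY (z.2, z.1)
  fXY := fun z => lJ.fXY z - J.fXY (z.2, z.1)
  fYY := fun z => lJ.fYY z - J.fXX (z.2, z.1)
  fXXX := fun z => lJ.fXXX z - J.fYYY (z.2, z.1)
  fXXY := fun z => lJ.fXXY z - J.fXYY (z.2, z.1)
  fXYY := fun z => lJ.fXYY z - J.fXXY (z.2, z.1)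
  fYYY := fun z => lJ.fYYY z - J.fXXX (z.2, z.1)

/-- state of `J` at the chart point `(x,y)` -/
def ch (J : Jet) (x y : ℝ) : St :=
  let z : ℝ × ℝ := (cc * x, wf x * y / √3)
  ⟨J.f z / wf x, J.fY z / √3,
    cc * (wf x * J.fX z + cc * x * y * J.fY z / √3 - cc * x * J.f z / wf x),
    wf x * J.fYY z / 3,
    cc * (wf x ^ 2 * J.fXY z / √3 + cc * wf x * x * y * J.fYY z / 3),
    wf x ^ 3 * J.fXX z + 2 * wf x ^ 2 * (cc * x * y / √3) * J.fXY z +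
      wf x / 3 * (cc * x * y) ^ 2 * J.fYY z⟩

/-- `A = H* - H` in the core -/
def AC (J : Jet) (x y : ℝ) : St := (starC x y).sub (ch J x y)
/-- `A = H* - H` in the sliver -/
def AS (J : Jet) (x y : ℝ) : St := (starS x y).sub (ch J x y)
/-- `F = 2 H* - l - A` -/
def FC (J : Jet) (x y : ℝ) : St := ((starC x y).sub (lSt x y)).sub ((AC J x y).sub (starC x y))
def FS (J : Jet) (x y : ℝ) : St := ((starS x y).sub (lSt x y)).sub ((AS J x y).sub (starS x y))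

/-- the integrand `𝓔 = N (μ_H κ_L + κ_H μ_L - 4 ν_H ν_L)/2`, `L = l - H` -/
def EI (J : Jet) (x y : ℝ) : ℝ :=
  Nf y * ((ch J x y).mu * ((lSt x y).ka - (ch J x y).ka) +
    (ch J x y).ka * ((lSt x y).mu - (ch J x y).mu) -
    4 * (ch J x y).nu * ((lSt x y).nu - (ch J x y).nu)) / 2

/-- the hypotheses of the square theorem -/
structure Hyp (J : Jet) (δ : ℝ) : Prop where
  good : J.Good
  pos : 0 < δ
  le1 : δ ≤ 1
  hXX : ∀ z, 0 ≤ J.fXX z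
  hYY : ∀ z, 0 ≤ J.fYY z
  hdet : ∀ z, J.fXY z ^ 2 ≤ J.fXX z * J.fYY z
  lXX : ∀ z, J.fXX z ≤ lJ.fXX z
  lYY : ∀ z, J.fYY z ≤ lJ.fYY z
  ldet : ∀ z, (lJ.fXY z - J.fXY z) ^ 2 ≤ (lJ.fXX z - J.fXX z) * (lJ.fYY z - J.fYY z)
  low : ∀ X Y : ℝ, |X| ≤ 1 → |Y| ≤ 1 → |X| / 2 + cc / 2 - δ ≤ J.f (X, Y)
  upp : ∀ X Y : ℝ, |X| ≤ 1 → |Y| ≤ 1 → J.f (X, Y) ≤ lf (X, Y) - |Y| / 2 - cc / 2 + δ
  aX0 : ∀ X Y : ℝ, cc ≤ |X| → |X| ≤ 1 → |Y| ≤ cc → |J.f (X, Y) - (|X| / 2 + cc / 2)| ≤ δ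
  aX1 : ∀ X Y : ℝ, cc ≤ |X| → |X| ≤ 1 → |Y| ≤ cc → |J.fX (X, Y) - SignType.sign X / 2| ≤ δ
  aX2 : ∀ X Y : ℝ, cc ≤ |X| → |X| ≤ 1 → |Y| ≤ cc → |J.fY (X, Y)| ≤ δ
  aY0 : ∀ X Y : ℝ, |X| ≤ cc → cc ≤ |Y| → |Y| ≤ 1 →
    |lf (X, Y) - J.f (X, Y) - (|Y| / 2 + cc / 2)| ≤ δ
  aY1 : ∀ X Y : ℝ, |X| ≤ cc → cc ≤ |Y| → |Y| ≤ 1 → |lJ.fX (X, Y) - J.fX (X, Y)| ≤ δ
  aY2 : ∀ X Y : ℝ, |X| ≤ cc → cc ≤ |Y| → |Y| ≤ 1 →
    |lJ.fY (X, Y) - J.fY (X, Y) - SignType.sign Y / 2| ≤ δ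

/-- the integral of the square theorem -/
def EE (J : Jet) : ℝ :=
  ∫ X in (-cc)..cc, ∫ Y in (-cc)..cc, lf (X, Y) *
    (J.fXX (X, Y) * (lJ.fYY (X, Y) - J.fYY (X, Y)) + J.fYY (X, Y) * (lJ.fXX (X, Y) - J.fXX (X, Y)) -
      2 * J.fXY (X, Y) * (lJ.fXY (X, Y) - J.fXY (X, Y))) / 2

/-! ### the upper bounds -/

def TT (y : ℝ) : ℝ := √(3 + y ^ 2)
/-- `√(1+Y^2)` in the chart -/
def mY (x y : ℝ) : ℝ := √(1 + mf x * y ^ 2 / 3)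
def r15 : ℝ := √(3 / 2)
def E1 (x y : ℝ) : ℝ := TT y * (3 / 2 + 3 / 2 * mY x y / wf x - r15 / wf x - TT y)
def E2 (x y : ℝ) : ℝ :=
  E1 x y - √3 * TT y * ((1 - cc) / 2 * (1 - x * r15 / mY x y) - (1 - s3) * (mY x y - r15 * x)) / wf x
def td0 : ℝ := (√3 - cc - 1) / 2
def E2l (x y : ℝ) : ℝ := E2 x y + √3 * td0 * TT y * y * (1 - x * r15 / mY x y)
def E3 (x y : ℝ) : ℝ :=
  3 / 2 * TT y * (1 + wf x * mY x y) - r15 * TT y * wf x - 3 - mf x * y ^ 2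
def E34 (x y : ℝ) : ℝ := E3 x y - √3 * TT y * ((1 - cc) / 2 * wf x - (1 - s3) * (wf x * mY x y))
def E34l (x y : ℝ) : ℝ := E34 x y + √3 * td0 * TT y * mf x * y
def E1b (x y : ℝ) : ℝ := TT y * (3 / 2 - r15 * (1 + x / 2) / wf x)
def E3b (x y : ℝ) : ℝ := TT y * (3 / 2 - r15 * wf x)

/-- value of one of the polynomial bounds -/
def uv (x y : ℝ) (p : P) : ℝ := ev x y p / (QE : ℝ)

/-- `3 N (u - x p + x^2 y q/2)` -/
def rr (x y : ℝ) (s : St) : ℝ := 3 * Nf y * (s.u - x * s.p + x ^ 2 * y * s.q / 2)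

/-- half of the reference integrand: value of `𝓔*` in the core -/
def EIs (y : ℝ) : ℝ := √3 / (12 * Nf y ^ 2)

/-! ### gauge of a pair of states (even and odd part) -/

/-- the coefficient `h0` of the sliver -/
def h0f (x y : ℝ) : ℝ := -ev x y (pDY sf2) - mf x * ev x y (pDX sh2)

def V1C (x y : ℝ) (e o : St) : ℝ :=
  V1q gCe x y e + V1q gCo x y o + (ev x y cf1 * e.q - ev x y (pDY cf1) * e.u)
def V2C (x y : ℝ) (e o : St) : ℝ := V2q gCe x y e + V2q gCo x y o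
def V1S (x y : ℝ) (e o : St) : ℝ :=
  V1q gSe x y e + V1q gSo x y o + (ev x y sf1 * e.q + ev x y sf0 * e.u + ev x y sf2 * e.p)
def V2S (x y : ℝ) (e o : St) : ℝ :=
  V2q gSe x y e + V2q gSo x y o + (h0f x y * e.u + ev x y sh2 * e.p)

/-! ### multipliers at a point -/

/-- multipliers of the core at a point -/
structure CM where
  la11 : ℝ
  la12 : ℝ
  la22 : ℝ
  ro11 : ℝ
  ro12 : ℝ
  ro22 : ℝ
  phA : ℝ
  phB : ℝ
  phC : ℝ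
  phs : ℝ
  psA : ℝ
  psB : ℝ
  psE : ℝ
  pss : ℝ
  vus : ℝ

/-- quadratic part of the products, with the opposite sign; `e = 1` even block, `e = 0` odd block -/
def CM.Q (M : CM) (e x y : ℝ) (s : St) : ℝ :=
  e * M.vus * s.u ^ 2
  - 3 * (M.ro11 + (M.phA + M.phB + M.phC + e * M.phs) + (M.psA + M.psB + M.psE + e * M.pss)) *
      s.u * s.mu
  - 6 * M.ro12 * s.u * s.nu - 3 * M.ro22 * s.u * s.ka
  - 3 / 2 * x ^ 2 * y * (M.psA + M.psB + M.psE + e * M.pss) * s.q * s.mu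
  + 3 * x * (M.psA + M.psB + M.psE + e * M.pss) * s.p * s.mu
  + 9 * (1 + y ^ 2 / 3) *
      (M.la11 * s.mu ^ 2 + 2 * M.la12 * s.mu * s.nu + M.la22 * s.mu * s.ka)

/-- the sign conditions on the multipliers of the core; `D` scale, `f = f1`, `g = f1_yy` -/
structure CM.Good (M : CM) (D f g x y : ℝ) : Prop where
  la11 : 0 ≤ M.la11
  la22 : 0 ≤ M.la22
  la12 : M.la12 ^ 2 ≤ 2 * M.la11 * M.la22
  ro11 : 0 ≤ M.ro11
  ro22 : 0 ≤ M.ro22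
  ro12 : M.ro12 ^ 2 ≤ 2 * M.ro11 * M.ro22
  phA : 0 ≤ M.phA
  phB : 0 ≤ M.phB
  phC : 0 ≤ M.phC
  phs : 0 ≤ M.phs
  psA : 0 ≤ M.psA
  psB : 0 ≤ M.psB
  psE : 0 ≤ M.psE
  pss : 0 ≤ M.pss
  vus : 0 ≤ M.vus
  zero : x ≤ 4 / 5 ∨ (M.phA = 0 ∧ M.phB = 0 ∧ M.phs = 0 ∧ M.vus = 0)
  S1 : 0 ≤ Nf y ^ 4 * f - 3 * M.la11 - 3 * M.la22 * (3 * Nf y ^ 2 * (1 - √3 * Nf y / 2)) -
    (M.phA * uv x y UE1 + M.phB * uv x y UE2l + M.phC * uv x y UE1b + M.phs * uv x y UE2 +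
      M.psA * uv x y UE3 + M.psB * uv x y UE34l + M.psE * uv x y UE3b + M.pss * uv x y UE34)
  S2 : 0 ≤ Nf y ^ 6 * g + D * (2 - √3 * Nf y) * Nf y ^ 2 - M.ro11 -
    M.ro22 * (3 * Nf y ^ 2 * (1 - √3 * Nf y / 2)) - Nf y ^ 2 / 3 * M.vus * uv x y UE2

/-- all multipliers are at most `B` -/
def CM.Le (M : CM) (B : ℝ) : Prop :=
  |M.la11| ≤ B ∧ |M.la12| ≤ B ∧ |M.la22| ≤ B ∧ |M.ro11| ≤ B ∧ |M.ro12| ≤ B ∧ |M.ro22| ≤ B ∧
  |M.phA| ≤ B ∧ |M.phB| ≤ B ∧ |M.phC| ≤ B ∧ |M.phs| ≤ B ∧ |M.psA| ≤ B ∧ |M.psB| ≤ B ∧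
  |M.psE| ≤ B ∧ |M.pss| ≤ B ∧ |M.vus| ≤ B

/-- multipliers of the sliver at a point -/
structure SM where
  ro11 : ℝ
  ro12 : ℝ
  ro22 : ℝ
  w1111 : ℝ
  w1112 : ℝ
  w1121 : ℝ
  w1122 : ℝ
  w1212 : ℝ
  w1221 : ℝ
  w1222 : ℝ
  w2121 : ℝ
  w2122 : ℝ
  w2222 : ℝ

def SM.Q (M : SM) (s : St) : ℝ :=
  -3 * M.ro11 * s.u * s.mu - 6 * M.ro12 * s.u * s.nu - 3 * M.ro22 * s.u * s.ka +
  9 * (M.w1111 * s.mu ^ 2 + 2 * (M.w1112 + M.w1121) * s.mu * s.nu +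
    (M.w1212 + M.w2121) * s.mu * s.ka / 2 + 2 * (M.w1122 + M.w1221) * s.nu ^ 2 +
    (M.w1222 + M.w2122) * s.nu * s.ka + M.w2222 * s.ka ^ 2 / 4)

/-- the quadratic form of the multiplier `W` -/
def SM.W (M : SM) (a b c d : ℝ) : ℝ :=
  M.w1111 * a ^ 2 + 2 * M.w1112 * a * b + 2 * M.w1121 * a * c + 2 * M.w1122 * a * d +
  M.w1212 * b ^ 2 + 2 * M.w1221 * b * c + 2 * M.w1222 * b * d + M.w2121 * c ^ 2 +
  2 * M.w2122 * c * d + M.w2222 * d ^ 2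

/-- sign conditions of the sliver; `f1, f2, h2` and the coefficients `l1` of `u` and `l2` of `-q` -/
structure SM.Good (M : SM) (f1 f2 h2 l1 l2 y : ℝ) : Prop where
  ro11 : 0 ≤ M.ro11
  ro22 : 0 ≤ M.ro22
  ro12 : M.ro12 ^ 2 ≤ 2 * M.ro11 * M.ro22
  W : ∀ a b c d : ℝ, 0 ≤ M.W a b c d
  hA2 : ∀ a b : ℝ, 0 ≤ (-(Nf y ^ 6 * f1) - 3 * (M.w1111 + 3 / 2 * Nf y ^ 2 * M.w2121)) * a ^ 2 +
    2 * (-(Nf y ^ 6 * f2) / 2 - 3 * (M.w1112 + 3 / 2 * Nf y ^ 2 * M.w2122)) * a * b +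
    (-(Nf y ^ 6 * h2) - 3 * (M.w1212 + 3 / 2 * Nf y ^ 2 * M.w2222)) * b ^ 2
  hl1 : 0 ≤ l1
  hl2 : 0 ≤ l2

def SM.Le (M : SM) (B : ℝ) : Prop := |M.ro11| ≤ B ∧ |M.ro12| ≤ B ∧ |M.ro22| ≤ B

/-! ### boxes -/

def CBox.In (b : CBox) (x y : ℝ) : Prop :=
  (b.x0 : ℝ) ≤ (b.qx : ℝ) * x ∧ (b.qx : ℝ) * x ≤ (b.x1 : ℝ) ∧ (b.y0 : ℝ) ≤ (b.qy : ℝ) * y ∧
    (b.qy : ℝ) * y ≤ (b.y1 : ℝ)
def SBox.In (b : SBox) (x y : ℝ) : Prop :=
  (b.x0 : ℝ) ≤ (b.qx : ℝ) * x ∧ (b.qx : ℝ) * x ≤ (b.x1 : ℝ) ∧ (b.y0 : ℝ) ≤ (b.qy : ℝ) * y ∧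
    (b.qy : ℝ) * y ≤ (b.y1 : ℝ)

/-- multipliers of a core box at the point `(x,y)` -/
def CBox.at (b : CBox) (l r : P) (x y : ℝ) : CM :=
  ⟨ev x y b.la11, ev x y b.la12, ev x y l, ev x y b.ro11, ev x y b.ro12, ev x y r, ev x y b.phA,
    ev x y b.phB, ev x y b.phC, ev x y b.phs, ev x y b.psA, ev x y b.psB, ev x y b.psE,
    ev x y b.pss, ev x y b.vus⟩

/-- multipliers of a sliver box at the point `(x,y)` -/
def SBox.at (b : SBox) (x y : ℝ) : SM :=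
  ⟨ev x y b.ro11, ev x y b.ro12, ev x y b.ro22, ev x y b.w1111, ev x y b.w1112, ev x y b.w1121,
    ev x y b.w1122, ev x y b.w1212, ev x y b.w1221, ev x y b.w1222, ev x y b.w2121,
    ev x y b.w2122, ev x y b.w2222⟩

/-- coefficient of `u` in the sliver (times `N^6`), scale `D` -/
def l1f (D : ℝ) (f0 f2 h2 : P) (x y : ℝ) : ℝ :=
  -(2 * D * Nf y ^ 2) + Nf y ^ 6 * (-ev x y (pDY f0) + mf x * (ev x y (pDX (pDY f2)) +
    x * ev x y (pDX h2) + mf x * ev x y (pDX (pDX h2))) + ev x y h2 / 2)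
/-- coefficient of `-q` in the sliver -/
def l2f (f0 f1 h2 : P) (x y : ℝ) : ℝ := ev x y (pDY f1) + ev x y f0 + y * ev x y h2 / 2

/-- the list of the six components of a state -/
def St.l (s : St) : List ℝ := [s.u, s.q, s.p, s.mu, s.nu, s.ka]

/-- value at `t` of a polynomial with coefficients in `α`, through the linear functional `φ` -/
def evA {α : Type} (φ : α → ℝ) (t : ℝ) : List α → ℝ
  | [] => 0
  | c :: l => φ c + t * evA φ t l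

/-- sign conditions on the interface `y = 1` at `x` -/
structure IGood (x c1 c2 c2s d1 lin : ℝ) : Prop where
  hc1 : 0 ≤ c1
  hc2 : 0 ≤ c2
  hc2s : 0 ≤ c2s
  hd1 : 0 ≤ d1
  hlin : (c2 * uv x 1 UE1 + c2s * uv x 1 UE2) / 4 ≤ lin
  form : ∀ e o : St, -(c2 + c2s - d1) * e.u ^ 2 - (c2 + d1) * o.u ^ 2 -
      c1 * (e.u * e.q + o.u * o.q) + Nf 1 * lin * e.u ≤
    Nf 1 * (V1C x 1 e o - V1S x 1 e o) +
      (mf x * ev x 1 (pDX w1e) * e.u ^ 2 + 2 * ev x 1 w1e * e.u * e.p) +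
      (mf x * ev x 1 (pDX w1o) * o.u ^ 2 + 2 * ev x 1 w1o * o.u * o.p)

/-! ### facts about the states -/

/-- facts about a state of `A` in the core -/
structure CF (δ x y : ℝ) (s : St) : Prop where
  mu0 : s.mu ≤ 0
  mu1 : 0 ≤ 1 + 3 * Nf y ^ 3 * s.mu
  k0 : 0 ≤ 3 * Nf y ^ 2 * (1 - √3 * Nf y / 2) + 3 * Nf y ^ 3 * s.ka
  k1 : 3 * Nf y ^ 2 * (1 - √3 * Nf y / 2) + 3 * Nf y ^ 3 * s.ka ≤ 3 * Nf y ^ 2
  det : 2 * (3 * Nf y ^ 3 * s.nu) ^ 2 ≤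
    (1 + 3 * Nf y ^ 3 * s.mu) * (3 * Nf y ^ 2 * (1 - √3 * Nf y / 2) + 3 * Nf y ^ 3 * s.ka)
  u0 : -δ ≤ s.u
  u1 : s.u ≤ 2
  U1b : 3 * Nf y * s.u ≤ uv x y UE1b + 10 * δ
  U1 : x ≤ 4 / 5 → 3 * Nf y * s.u ≤ uv x y UE1 + 10 * δ
  U2l : x ≤ 4 / 5 → 3 * Nf y * s.u ≤ uv x y UE2l + 10 * δ
  R3 : rr x y s ≤ uv x y UE3 + 10 * δ
  R34l : rr x y s ≤ uv x y UE34l + 10 * δ
  R3b : rr x y s ≤ uv x y UE3b + 10 * δ

/-- facts about a pair of states in the core -/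
structure CP (δ x y : ℝ) (s t : St) : Prop where
  U2 : x ≤ 4 / 5 → 3 * Nf y * ((s.u + t.u) / 2) ≤ uv x y UE2 + 10 * δ
  R34 : (rr x y s + rr x y t) / 2 ≤ uv x y UE34 + 10 * δ

/-- facts about a state of `A` in the sliver -/
structure SF (δ y : ℝ) (s : St) : Prop where
  mu0 : 0 ≤ s.mu
  ka0 : 0 ≤ s.ka
  det0 : 2 * s.nu ^ 2 ≤ s.mu * s.ka
  mu1 : 3 * Nf y ^ 3 * s.mu ≤ 1
  ka1 : Nf y * s.ka ≤ 1
  det1 : 2 * s.nu ^ 2 ≤ (1 / (3 * Nf y ^ 3) - s.mu) * (1 / Nf y - s.ka)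
  u0 : -δ ≤ s.u
  u1 : s.u ≤ 2
  q1 : s.q ≤ δ

/-- facts about a state of `A` on the interface `y = 1` -/
structure IF1 (δ x : ℝ) (s : St) : Prop where
  u0 : -δ ≤ s.u
  u1 : s.u ≤ 2
  q1 : s.q ≤ δ
  q2 : -3 ≤ s.q
  U1 : 3 * Nf 1 * s.u ≤ uv x 1 UE1 + 10 * δ

/-! ### integrals -/

/-- iterated integral over a rectangle -/
def RI (a b c d : ℝ) (f : ℝ → ℝ → ℝ) : ℝ := ∫ x in a..b, ∫ y in c..d, f x y

/-- heights of the staircase containing the sliver -/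
def stY : ℕ → ℝ
  | 0 => 49 / 40
  | 1 => 1217 / 1000
  | 2 => 1193 / 1000
  | 3 => 231 / 200
  | 4 => 277 / 250
  | 5 => 132 / 125
  | _ => 1

/-- integral over the staircase -/
def SI (f : ℝ → ℝ → ℝ) : ℝ :=
  ∑ k ∈ Finset.range 6, RI ((k : ℝ) / 6) (((k : ℝ) + 1) / 6) 1 (stY k) f

/-- integral of `𝓔` over one quarter (core and staircase) -/
def QT (J : Jet) : ℝ :=
  RI 0 1 0 1 (fun x y => EI J x y / mf x) + SI (fun x y => EI J x y / mf x)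

/-- integral of the base term over one quarter -/
def BI (J : Jet) : ℝ :=
  RI 0 1 0 1 (fun x y => bC y (AC J x y) / mf x) + SI (fun x y => bS y (AS J x y) / mf x)

/-- flux of the bilinear gauge through `y = 0` -/
def WX (J : Jet) : ℝ := ∫ x in (0:ℝ)..1, W1 0 (AC J x 0) (FC J x 0) / mf x
/-- flux of the bilinear gauge through `x = 0` -/
def WY (J : Jet) : ℝ :=
  (∫ y in (0:ℝ)..1, W2 y (AC J 0 y) (FC J 0 y)) + ∫ y in (1:ℝ)..(49 / 40), W2 y (AS J 0 y) (FS J 0 y)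

/-- even and odd part of the pair of states of `J` and its reflection, core and sliver -/
def eC (J : Jet) (x y : ℝ) : St := (AC J x y).hs (AC J.ry x y)
def oC (J : Jet) (x y : ℝ) : St := (AC J x y).hd (AC J.ry x y)
def eS (J : Jet) (x y : ℝ) : St := (AS J x y).hs (AS J.ry x y)
def oS (J : Jet) (x y : ℝ) : St := (AS J x y).hd (AS J.ry x y)

/-- flux of the gauge through `x = 0` -/
def VY (J : Jet) : ℝ :=
  (∫ y in (0:ℝ)..1, V2C 0 y (eC J 0 y) (oC J 0 y)) +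
    ∫ y in (1:ℝ)..(49 / 40), V2S 0 y (eS J 0 y) (oS J 0 y)

end

end Pool.Agent.MSQ
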