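import Pool.Agent.MSQ.Defs
/-!
EvD (90 lines). Derivatives, continuity and bounds of the polynomial functions `ev`.

PROOF. `evL`: HasDerivAt (fun t => evL t l) (evL y (der l)) y. Prove the shifted version: for all k,
evL y (derA k l) = k * evL y l + y * (derivative of evL l), i.e. by induction on l:
HasDerivAt (fun t => evL t l) d y with evL y (derA k l) = k * evL y l + y * d; for l = a :: l':
evL t l = a + t * evL t l', derivative evL y l' + y d', and
`derA k (a::l') = k*a :: derA (k+1) l'` has value k a + y ((k+1) evL y l' + y d') = k evL y l + y (evL y l' + y d').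
`der l = derA 1 l.tail` for l = a :: l' has value evL y l' + y d'. Same for `dxA`, `pDX` in x
(outer list), and `pDY` is `map der` (the derivative in y goes through the outer recursion).
Continuity: induction. Bound: a continuous function on the compact set Icc 0 1 ×ˢ Icc 0 2 is bounded
(IsCompact.exists_bound_of_continuousOn), take the maximum of the bound with 0.
-/
namespace Pool.Agent.MSQ

private lemma EvD_evL (l : List Int) (y : ℝ) :
    ∃ d : ℝ, HasDerivAt (fun t => evL t l) d y ∧
      ∀ k : Int, evL y (derA k l) = (k : ℝ) * evL y l + y * d := by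
  induction l with
  | nil =>
    refine ⟨0, ?_, ?_⟩
    · simpa [evL] using hasDerivAt_const y (0 : ℝ)
    · intro k; simp [evL, derA]
  | cons a l ih =>
    obtain ⟨d, hd, hk⟩ := ih
    refine ⟨evL y l + y * d, ?_, ?_⟩
    · have h1 := ((hasDerivAt_id y).mul hd).const_add (a : ℝ)
      refine (h1.congr_deriv ?_)
      simp
    · intro k
      simp only [derA, evL]
      rw [hk (k + 1)]
      push_cast
      ring

private lemma EvD_der (l : List Int) (y : ℝ) : HasDerivAt (fun t => evL t l) (evL y (der l)) y := by
  cases l with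
  | nil =>
    have h := hasDerivAt_const y (0 : ℝ)
    simpa [evL, der, derA] using h
  | cons a l =>
    obtain ⟨d, hd, hk⟩ := EvD_evL l y
    have h1 := ((hasDerivAt_id y).mul hd).const_add (a : ℝ)
    refine (h1.congr_deriv ?_)
    simp only [der, List.tail_cons]
    rw [hk 1]
    simp

private lemma EvD_smV (k : Int) (r : List Int) (y : ℝ) :
    evL y (smV k r) = (k : ℝ) * evL y r := by
  induction r with
  | nil => simp [smV, evL]
  | cons a r ih =>
    have h2 : smV k (a :: r) = k * a :: smV k r := rfl
    rw [h2]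
    simp only [evL]
    rw [ih]
    push_cast
    ring

private lemma EvD_ev (l : P) (x y : ℝ) :
    ∃ d : ℝ, HasDerivAt (fun t => ev t y l) d x ∧
      ∀ k : Int, ev x y (dxA k l) = (k : ℝ) * ev x y l + x * d := by
  induction l with
  | nil =>
    refine ⟨0, ?_, ?_⟩
    · simpa [ev] using hasDerivAt_const x (0 : ℝ)
    · intro k; simp [ev, dxA]
  | cons a l ih =>
    obtain ⟨d, hd, hk⟩ := ih
    refine ⟨ev x y l + x * d, ?_, ?_⟩
    · have h1 := ((hasDerivAt_id x).mul hd).const_add (evL y a)
      refine (h1.congr_deriv ?_)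
      simp
    · intro k
      simp only [dxA, ev]
      rw [hk (k + 1), EvD_smV]
      push_cast
      ring

private lemma EvD_contL (l : List Int) : Continuous fun t : ℝ => evL t l := by
  induction l with
  | nil => simpa [evL] using (continuous_const : Continuous fun _ : ℝ => (0 : ℝ))
  | cons a l ih =>
    simp only [evL]
    exact continuous_const.add (continuous_id.mul ih)

theorem hasDerivAt_ev_y (x y : ℝ) (p : P) :
    HasDerivAt (fun t => ev x t p) (ev x y (pDY p)) y := by
  induction p with
  | nil =>
    have h := hasDerivAt_const y (0 : ℝ)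
    simpa [ev, pDY] using h
  | cons r l ih =>
    have h1 := (EvD_der r y).add (ih.const_mul x)
    exact h1
theorem hasDerivAt_ev_x (x y : ℝ) (p : P) :
    HasDerivAt (fun t => ev t y p) (ev x y (pDX p)) x := by
  cases p with
  | nil =>
    have h := hasDerivAt_const x (0 : ℝ)
    simpa [ev, pDX, dxA] using h
  | cons a l =>
    obtain ⟨d, hd, hk⟩ := EvD_ev l x y
    have h1 := ((hasDerivAt_id x).mul hd).const_add (evL y a)
    refine (h1.congr_deriv ?_)
    simp only [pDX, List.tail_cons]
    rw [hk 1]
    simp
theorem continuous_ev (p : P) : Continuous fun z : ℝ × ℝ => ev z.1 z.2 p := by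
  induction p with
  | nil => simpa [ev] using (continuous_const : Continuous fun _ : ℝ × ℝ => (0 : ℝ))
  | cons r l ih =>
    simp only [ev]
    exact ((EvD_contL r).comp continuous_snd).add (continuous_fst.mul ih)
theorem ev_bdd (p : P) : ∃ B : ℝ, 0 ≤ B ∧ ∀ x y : ℝ, 0 ≤ x → x ≤ 1 → 0 ≤ y → y ≤ 2 →
    |ev x y p| ≤ B := by
  have hc : IsCompact (Set.Icc (0 : ℝ) 1 ×ˢ Set.Icc (0 : ℝ) 2) :=
    isCompact_Icc.prod isCompact_Icc
  obtain ⟨C, hC⟩ := hc.exists_bound_of_continuousOn (continuous_ev p).continuousOn
  refine ⟨max C 0, le_max_right _ _, ?_⟩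
  intro x y hx0 hx1 hy0 hy2
  have h := hC (x, y) ⟨⟨hx0, hx1⟩, ⟨hy0, hy2⟩⟩
  rw [Real.norm_eq_abs] at h
  exact h.trans (le_max_left _ _)

end Pool.Agent.MSQ
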