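import Pool.Agent.MSQ.Defs
/-!
KH (100 lines). The convexity of H and l - H in the chart, and values of the chart states.

PROOF. Let z = (cc x, w y/√3), N = Nf y, w = wf x. `lf z = w N`: lf z² = 1 + x²/2 + w² y²/3 = w²(1+y²/3).
For any numbers a = fXX, b = fXY, d = fYY put τ = cc x y/(√3 w); then μ = (w/3) d, ν = (w²/√6)(b + τ d) (cc/√3 = 1/√6),
κ = w³ (a + 2τ b + τ² d), so μ κ - 2 ν² = (w⁴/3)(a d - b²) and κ ≥ 0 when a,d ≥ 0, b² ≤ a d (a + 2τb + τ²d ≥ 0).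
`kh`: apply it to (J.fXX, ..) and to (lJ.fXX - J.fXX, ...); the state is linear in the jet, and the state of lJ is
μ = 1/(3N³), ν = 0, κ = 1/N: with l = wN, X = cc x, Y = w y/√3:
 μ = w (1+X²)/(3 l³) = w·w²/(3 w³ N³);  ν ∝ -w² X Y/√3 + w x y cc (1+X²)/3 = 0;
 κ = [w³(1+Y²) - 2 w² (cc x y/√3) X Y + (w/3)(cc x y)² (1+X²)]/l³ = w³ (1 + y²/3·...)/l³ = w³ N²/l³ = 1/N
 (Y = w y/√3, 1 + X² = w²: w³ + w³·w²y²/3 - 2 w³ X² y²/3 + w³X²y²/3 = w³(1 + (w² - X²) y²/3) = w³(1+y²/3)).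
`ch_rr`: u - x p + x² y q/2 = w (H - X H_X): substitute and use cc² = 1/2, w² = 1+x²/2.
-/
namespace Pool.Agent.MSQ

private theorem KH_cc2 : cc ^ 2 = 1 / 2 := by
  unfold cc
  rw [div_pow, Real.sq_sqrt (by norm_num), one_pow]

private theorem KH_s2 : (√3 : ℝ) ^ 2 = 3 := Real.sq_sqrt (by norm_num)

private theorem KH_s0 : (0 : ℝ) < √3 := Real.sqrt_pos.mpr (by norm_num)

private theorem KH_m0 (x : ℝ) : 0 < mf x := by unfold mf; positivity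

private theorem KH_w0 (x : ℝ) : 0 < wf x := Real.sqrt_pos.mpr (KH_m0 x)

private theorem KH_w2 (x : ℝ) : wf x ^ 2 = 1 + x ^ 2 / 2 := by
  unfold wf
  rw [Real.sq_sqrt (KH_m0 x).le, mf]

private theorem KH_N0 (y : ℝ) : 0 < Nf y := Real.sqrt_pos.mpr (by positivity)

private theorem KH_N2 (y : ℝ) : Nf y ^ 2 = 1 + y ^ 2 / 3 := by
  unfold Nf
  rw [Real.sq_sqrt (by positivity)]

theorem lf_chart (x y : ℝ) : lf (cc * x, wf x * y / √3) = wf x * Nf y := by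
  unfold lf
  rw [Real.sqrt_eq_iff_mul_self_eq_of_pos (mul_pos (KH_w0 x) (KH_N0 y))]
  have h1 := KH_cc2
  have h2 := KH_s2
  have h3 := KH_w2 x
  have h4 := KH_N2 y
  have h5 := KH_s0.ne'
  have e1 : (wf x * y / √3) ^ 2 = wf x ^ 2 * y ^ 2 / 3 := by
    rw [div_pow, h2]; ring
  have e2 : wf x * Nf y * (wf x * Nf y) = wf x ^ 2 * Nf y ^ 2 := by ring
  simp only
  rw [e1, e2, h4, mul_pow, h1, h3]
  ring

private theorem KH_abs {w c s x y a b d : ℝ} (hw : 0 < w) (hs : 0 < s) (hc : c ^ 2 = 1 / 2)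
    (hs2 : s ^ 2 = 3) (ha : 0 ≤ a) (hd : 0 ≤ d) (hdet : b ^ 2 ≤ a * d) :
    0 ≤ w * d / 3 ∧
    0 ≤ w ^ 3 * a + 2 * w ^ 2 * (c * x * y / s) * b + w / 3 * (c * x * y) ^ 2 * d ∧
    2 * (c * (w ^ 2 * b / s + c * w * x * y * d / 3)) ^ 2 ≤ (w * d / 3) *
      (w ^ 3 * a + 2 * w ^ 2 * (c * x * y / s) * b + w / 3 * (c * x * y) ^ 2 * d) := by
  refine ⟨by positivity, ?_, ?_⟩
  · set t := c * x * y / s with ht
    have e : (c * x * y) ^ 2 = 3 * t ^ 2 := by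
      rw [ht, div_pow, hs2]; ring
    have e2 : w ^ 3 * a + 2 * w ^ 2 * t * b + w / 3 * (c * x * y) ^ 2 * d =
        w * (w ^ 2 * a + 2 * w * t * b + t ^ 2 * d) := by rw [e]; ring
    rw [e2]
    refine mul_nonneg hw.le ?_
    have h1 : 0 ≤ (w * √a - |t| * √d) ^ 2 := sq_nonneg _
    have h2 : |b| ≤ √a * √d := by
      rw [← Real.sqrt_mul ha]
      exact Real.abs_le_sqrt hdet
    have h3 : √a ^ 2 = a := Real.sq_sqrt ha
    have h4 : √d ^ 2 = d := Real.sq_sqrt hd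
    have h5 : |w * t * b| ≤ w * |t| * (√a * √d) := by
      rw [abs_mul, abs_mul, abs_of_pos hw]
      exact mul_le_mul_of_nonneg_left h2 (by positivity)
    have h6 := neg_abs_le (w * t * b)
    have h7 : |t| ^ 2 = t ^ 2 := sq_abs t
    nlinarith
  · have e : (c * (w ^ 2 * b / s + c * w * x * y * d / 3)) ^ 2 =
        c ^ 2 * (w ^ 4 * b ^ 2 / s ^ 2 + 2 * w ^ 3 * b * c * x * y * d / (3 * s) +
          c ^ 2 * w ^ 2 * x ^ 2 * y ^ 2 * d ^ 2 / 9) := by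
      field_simp
      ring
    have e2 : (w * d / 3) * (w ^ 3 * a + 2 * w ^ 2 * (c * x * y / s) * b +
        w / 3 * (c * x * y) ^ 2 * d) = w ^ 4 * (a * d) / 3 +
          2 * w ^ 3 * b * c * x * y * d / (3 * s) + c ^ 2 * w ^ 2 * x ^ 2 * y ^ 2 * d ^ 2 / 9 := by
      field_simp
      ring
    rw [e, e2, hc, hs2]
    have h1 : w ^ 4 * b ^ 2 ≤ w ^ 4 * (a * d) := mul_le_mul_of_nonneg_left hdet (by positivity)
    linarith

theorem kh {J : Jet} {δ : ℝ} (h : Hyp J δ) (x y : ℝ) :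
    0 ≤ (ch J x y).mu ∧ 0 ≤ (ch J x y).ka ∧ 2 * (ch J x y).nu ^ 2 ≤ (ch J x y).mu * (ch J x y).ka ∧
    (ch J x y).mu ≤ 1 / (3 * Nf y ^ 3) ∧ (ch J x y).ka ≤ 1 / Nf y ∧
    2 * (ch J x y).nu ^ 2 ≤ (1 / (3 * Nf y ^ 3) - (ch J x y).mu) * (1 / Nf y - (ch J x y).ka) := by
  set z : ℝ × ℝ := (cc * x, wf x * y / √3) with hz
  have hw := KH_w0 x
  have hs := KH_s0
  have hc := KH_cc2
  have hs2 := KH_s2
  have hw2 := KH_w2 x
  have hN := KH_N0 y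
  have hN2 := KH_N2 y
  have hl : lf z = wf x * Nf y := lf_chart x y
  have H1 := KH_abs (x := x) (y := y) hw hs hc hs2 (h.hXX z) (h.hYY z) (h.hdet z)
  have H2 := KH_abs (x := x) (y := y) hw hs hc hs2 (a := lJ.fXX z - J.fXX z)
    (b := lJ.fXY z - J.fXY z) (d := lJ.fYY z - J.fYY z) (sub_nonneg.mpr (h.lXX z))
    (sub_nonneg.mpr (h.lYY z)) (h.ldet z)
  have eYY : lJ.fYY z = 1 / (wf x * Nf y ^ 3) := by
    simp only [lJ, hl]
    rw [hz]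
    simp only
    rw [mul_pow, hc, div_eq_div_iff (by positivity) (by positivity)]
    have : (1 + 1 / 2 * x ^ 2) = wf x ^ 2 := by rw [hw2]; ring
    rw [this]; ring
  have eXY : lJ.fXY z = -(cc * x * y) / (√3 * wf x ^ 2 * Nf y ^ 3) := by
    simp only [lJ, hl]
    rw [hz]
    simp only
    field_simp
  have eXX : lJ.fXX z = (1 + wf x ^ 2 * y ^ 2 / 3) / (wf x ^ 3 * Nf y ^ 3) := by
    simp only [lJ, hl]
    rw [hz]
    simp only
    rw [div_pow, hs2]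
    ring
  have m1 : wf x * lJ.fYY z / 3 = 1 / (3 * Nf y ^ 3) := by
    rw [eYY]; field_simp
  have m2 : cc * (wf x ^ 2 * lJ.fXY z / √3 + cc * wf x * x * y * lJ.fYY z / 3) = 0 := by
    rw [eYY, eXY]
    have : wf x ^ 2 * (-(cc * x * y) / (√3 * wf x ^ 2 * Nf y ^ 3)) / √3 =
        -(cc * x * y) / (√3 ^ 2 * Nf y ^ 3) := by field_simp
    rw [this, hs2]
    field_simp
    ring
  have m3 : wf x ^ 3 * lJ.fXX z + 2 * wf x ^ 2 * (cc * x * y / √3) * lJ.fXY z +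
      wf x / 3 * (cc * x * y) ^ 2 * lJ.fYY z = 1 / Nf y := by
    rw [eYY, eXY, eXX]
    have e1 : 2 * wf x ^ 2 * (cc * x * y / √3) * (-(cc * x * y) / (√3 * wf x ^ 2 * Nf y ^ 3)) =
        -(2 * (cc ^ 2 * x ^ 2 * y ^ 2)) / (√3 ^ 2 * Nf y ^ 3) := by field_simp
    have e2 : wf x / 3 * (cc * x * y) ^ 2 * (1 / (wf x * Nf y ^ 3)) =
        cc ^ 2 * x ^ 2 * y ^ 2 / (3 * Nf y ^ 3) := by field_simp
    have e3 : wf x ^ 3 * ((1 + wf x ^ 2 * y ^ 2 / 3) / (wf x ^ 3 * Nf y ^ 3)) =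
        (1 + wf x ^ 2 * y ^ 2 / 3) / Nf y ^ 3 := by field_simp
    rw [e1, e2, e3, hs2, hc, hw2]
    have e4 : 1 / Nf y = Nf y ^ 2 / Nf y ^ 3 := by field_simp
    rw [e4, hN2]
    field_simp
    ring
  have c1 : (ch J x y).mu = wf x * J.fYY z / 3 := rfl
  have c2 : (ch J x y).nu = cc * (wf x ^ 2 * J.fXY z / √3 + cc * wf x * x * y * J.fYY z / 3) := rfl
  have c3 : (ch J x y).ka = wf x ^ 3 * J.fXX z + 2 * wf x ^ 2 * (cc * x * y / √3) * J.fXY z +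
      wf x / 3 * (cc * x * y) ^ 2 * J.fYY z := rfl
  obtain ⟨a1, a2, a3⟩ := H1
  obtain ⟨b1, b2, b3⟩ := H2
  have n1 : wf x * (lJ.fYY z - J.fYY z) / 3 = 1 / (3 * Nf y ^ 3) - (ch J x y).mu := by
    rw [c1, ← m1]; ring
  have n2 : cc * (wf x ^ 2 * (lJ.fXY z - J.fXY z) / √3 +
      cc * wf x * x * y * (lJ.fYY z - J.fYY z) / 3) = -(ch J x y).nu := by
    have : cc * (wf x ^ 2 * (lJ.fXY z - J.fXY z) / √3 +
      cc * wf x * x * y * (lJ.fYY z - J.fYY z) / 3) =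
      cc * (wf x ^ 2 * lJ.fXY z / √3 + cc * wf x * x * y * lJ.fYY z / 3) -
      cc * (wf x ^ 2 * J.fXY z / √3 + cc * wf x * x * y * J.fYY z / 3) := by ring
    rw [this, m2, ← c2, zero_sub]
  have n3 : wf x ^ 3 * (lJ.fXX z - J.fXX z) + 2 * wf x ^ 2 * (cc * x * y / √3) *
      (lJ.fXY z - J.fXY z) + wf x / 3 * (cc * x * y) ^ 2 * (lJ.fYY z - J.fYY z) =
      1 / Nf y - (ch J x y).ka := by
    rw [c3, ← m3]; ring
  rw [n1] at b1
  rw [n3] at b2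
  rw [n1, n2, n3, neg_sq] at b3
  rw [← c1] at a1
  rw [← c3] at a2
  rw [← c1, ← c2, ← c3] at a3
  exact ⟨a1, a2, a3, by linarith, by linarith, b3⟩

theorem ch_rr (J : Jet) (x y : ℝ) :
    (ch J x y).u - x * (ch J x y).p + x ^ 2 * y * (ch J x y).q / 2 =
      wf x * (J.f (cc * x, wf x * y / √3) - cc * x * J.fX (cc * x, wf x * y / √3)) := by
  simp only [ch]
  set f := J.f (cc * x, wf x * y / √3)
  set fX := J.fX (cc * x, wf x * y / √3)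
  set fY := J.fY (cc * x, wf x * y / √3)
  have hw := KH_w0 x
  have hs := KH_s0
  have hc := KH_cc2
  have hw2 := KH_w2 x
  have e1 : x * (cc * (wf x * fX + cc * x * y * fY / √3 - cc * x * f / wf x)) =
      cc * x * wf x * fX + cc ^ 2 * x ^ 2 * y * (fY / √3) - cc ^ 2 * x ^ 2 * f / wf x := by ring
  have e2 : wf x * f = wf x ^ 2 * f / wf x := by field_simp
  rw [e1, mul_sub, e2, hc, hw2]
  ring

theorem star_rr (x y : ℝ) :
    (starC x y).u - x * (starC x y).p + x ^ 2 * y * (starC x y).q / 2 = s3 - cc * wf x / 2 := by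
  simp only [starC]
  have hw := KH_w0 x
  have hw2 := KH_w2 x
  have e2 : cc * wf x / 2 = cc * wf x ^ 2 / (2 * wf x) := by field_simp
  rw [e2, hw2]
  field_simp
  ring

end Pool.Agent.MSQ
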