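import Pool.Agent.MSQ.JGood
/-!
CvXY (110 lines). One variable convexity of H = J.f and L = l - H along coordinate lines.

PROOF. Fix Y. The function X ↦ J.f (X,Y) has derivative J.fX (X,Y) (compose h.good.d with the curve X ↦ (X,Y),
HasFDerivAt.comp_hasDerivAt), and X ↦ J.fX (X,Y) has derivative J.fXX (X,Y) ≥ 0. So J.fX (·,Y) is monotone
(monotone_of_deriv_nonneg or monotone_of_hasDerivAt_nonneg-type lemma), the tangent inequality and convexity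
follow (ConvexOn of monotone derivative: `MonotoneOn.convexOn_of_deriv`/`convexOn_univ_of_deriv2_nonneg`;
tangent line: mean value theorem or ConvexOn.le_slope..). The same for L: derivatives lJ.f.. - J.f.. (good_lJ of
JGood, lJ.f = lf), second derivative lJ.fXX - J.fXX ≥ 0 by h.lXX. The same in Y. Prove first a private lemma for
functions f f' f'' : ℝ → ℝ with HasDerivAt and 0 ≤ f''.
-/
namespace Pool.Agent.MSQ

private theorem CvXY_one {f g k : ℝ → ℝ} (h1 : ∀ x, HasDerivAt f (g x) x)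
    (h2 : ∀ x, HasDerivAt g (k x) x) (h3 : ∀ x, 0 ≤ k x) :
    (∀ x y, f x + g x * (y - x) ≤ f y) ∧ (Monotone g) ∧ (ConvexOn ℝ Set.univ f) := by
  have hm : Monotone g := monotone_of_deriv_nonneg (fun x => (h2 x).differentiableAt)
    (fun x => by rw [(h2 x).deriv]; exact h3 x)
  have hd : deriv f = g := funext fun x => (h1 x).deriv
  have hc : ConvexOn ℝ Set.univ f :=
    Monotone.convexOn_univ_of_deriv (fun x => (h1 x).differentiableAt) (by rw [hd]; exact hm)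
  refine ⟨fun x y => ?_, hm, hc⟩
  rcases lt_trichotomy x y with h | h | h
  · have h4 := hc.le_slope_of_hasDerivAt (Set.mem_univ x) (Set.mem_univ y) h (h1 x)
    rw [slope_def_field, le_div_iff₀ (by linarith)] at h4
    linarith
  · rw [h]
    linarith
  · have h4 := hc.slope_le_of_hasDerivAt (Set.mem_univ y) (Set.mem_univ x) h (h1 x)
    rw [slope_def_field, div_le_iff₀ (by linarith)] at h4
    linarith

private theorem CvXY_x {G GX GY : ℝ × ℝ → ℝ} (h : D1 G GX GY) (Y x : ℝ) :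
    HasDerivAt (fun t => G (t, Y)) (GX (x, Y)) x := by
  have h1 : HasDerivAt (fun t : ℝ => (t, Y)) ((1 : ℝ), (0 : ℝ)) x :=
    (hasDerivAt_id' x).prodMk (hasDerivAt_const x Y)
  have h2 := (h (x, Y)).comp_hasDerivAt x h1
  refine h2.congr_deriv ?_
  simp

private theorem CvXY_y {G GX GY : ℝ × ℝ → ℝ} (h : D1 G GX GY) (X y : ℝ) :
    HasDerivAt (fun t => G (X, t)) (GY (X, y)) y := by
  have h1 : HasDerivAt (fun t : ℝ => (X, t)) ((0 : ℝ), (1 : ℝ)) y :=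
    (hasDerivAt_const y X).prodMk (hasDerivAt_id' y)
  have h2 := (h (X, y)).comp_hasDerivAt y h1
  refine h2.congr_deriv ?_
  simp

theorem cvX {J : Jet} {δ : ℝ} (h : Hyp J δ) (Y : ℝ) :
    (∀ X X' : ℝ, J.f (X, Y) + J.fX (X, Y) * (X' - X) ≤ J.f (X', Y)) ∧
    (Monotone fun X : ℝ => J.fX (X, Y)) ∧
    (∀ X X' : ℝ, lf (X, Y) - J.f (X, Y) + (lJ.fX (X, Y) - J.fX (X, Y)) * (X' - X) ≤
      lf (X', Y) - J.f (X', Y)) ∧
    (Monotone fun X : ℝ => lJ.fX (X, Y) - J.fX (X, Y)) ∧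
    (ConvexOn ℝ Set.univ fun X : ℝ => J.f (X, Y)) ∧
    (ConvexOn ℝ Set.univ fun X : ℝ => lf (X, Y) - J.f (X, Y)) := by
  obtain ⟨h1, h2, h3⟩ := CvXY_one (CvXY_x h.good.d Y) (CvXY_x h.good.dX Y)
    (fun x => h.hXX (x, Y))
  obtain ⟨k1, k2, k3⟩ := CvXY_one
    (fun x => (CvXY_x good_lJ.d Y x).fun_sub (CvXY_x h.good.d Y x))
    (fun x => (CvXY_x good_lJ.dX Y x).fun_sub (CvXY_x h.good.dX Y x))
    (fun x => sub_nonneg.2 (h.lXX (x, Y)))
  exact ⟨h1, h2, k1, k2, h3, k3⟩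
theorem cvY {J : Jet} {δ : ℝ} (h : Hyp J δ) (X : ℝ) :
    (∀ Y Y' : ℝ, J.f (X, Y) + J.fY (X, Y) * (Y' - Y) ≤ J.f (X, Y')) ∧
    (Monotone fun Y : ℝ => J.fY (X, Y)) ∧
    (∀ Y Y' : ℝ, lf (X, Y) - J.f (X, Y) + (lJ.fY (X, Y) - J.fY (X, Y)) * (Y' - Y) ≤
      lf (X, Y') - J.f (X, Y')) ∧
    (Monotone fun Y : ℝ => lJ.fY (X, Y) - J.fY (X, Y)) ∧
    (ConvexOn ℝ Set.univ fun Y : ℝ => J.f (X, Y)) ∧
    (ConvexOn ℝ Set.univ fun Y : ℝ => lf (X, Y) - J.f (X, Y)) := by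
  obtain ⟨h1, h2, h3⟩ := CvXY_one (CvXY_y h.good.d X) (CvXY_y h.good.dY X)
    (fun x => h.hYY (X, x))
  obtain ⟨k1, k2, k3⟩ := CvXY_one
    (fun x => (CvXY_y good_lJ.d X x).fun_sub (CvXY_y h.good.d X x))
    (fun x => (CvXY_y good_lJ.dY X x).fun_sub (CvXY_y h.good.dY X x))
    (fun x => sub_nonneg.2 (h.lYY (X, x)))
  exact ⟨h1, h2, k1, k2, h3, k3⟩

end Pool.Agent.MSQ
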