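import Pool.Agent.MSQ.Defs
/-!
Cst (50 lines). The value of the reference integral.

PROOF. The inner integral ∫_0^1 √3/(12 N²)/m dy = (√3/12)/m · ∫_0^1 1/(1+y²/3) dy = (√3/12)/m · √3 arctan(1/√3)
= (√3/12)(√3 π/6)/m; ∫_0^1 1/(1+x²/2) dx = √2 arctan(1/√2) (derivatives of √3 arctan(y/√3), √2 arctan(x/√2)).
Product: 4√3 cc · (3π/72) √2 arctan(1/√2) = √3 π/6 arctan(1/√2) (cc√2 = 1). Finally arccos(1/3) = 2 arctan(1/√2):
cos(2θ) = (1-t²)/(1+t²) = 1/3 for t = tan θ = 1/√2, θ ∈ [0, π/2] (Real.arccos_cos), so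
π arccos(1/3)/(4√3) = π·2 arctan(1/√2)/(4√3) = √3 π arctan(1/√2)/6.
-/
namespace Pool.Agent.MSQ

private theorem Cst_int (c : ℝ) (hc : 0 < c) :
    ∫ y in (0:ℝ)..1, 1 / (1 + y ^ 2 / c) = √c * Real.arctan (1 / √c) := by
  have hs : 0 < √c := Real.sqrt_pos.mpr hc
  have hsq : √c ^ 2 = c := Real.sq_sqrt hc.le
  have hd : ∀ y ∈ Set.uIcc (0:ℝ) 1,
      HasDerivAt (fun y => √c * Real.arctan (y / √c)) (1 / (1 + y ^ 2 / c)) y := by
    intro y _
    have h1 : HasDerivAt (fun y : ℝ => y / √c) (1 / √c) y := (hasDerivAt_id y).div_const _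
    have h2 := (h1.arctan).const_mul (√c)
    have e : √c * (1 / (1 + (y / √c) ^ 2) * (1 / √c)) = 1 / (1 + y ^ 2 / c) := by
      rw [div_pow, hsq]
      have hp : 0 < 1 + y ^ 2 / c := by positivity
      field_simp
    rw [e] at h2
    exact h2
  have hcont : Continuous fun y : ℝ => 1 / (1 + y ^ 2 / c) := by
    apply Continuous.div continuous_const (by fun_prop)
    intro y
    have hp : 0 < 1 + y ^ 2 / c := by positivity
    exact hp.ne'
  rw [intervalIntegral.integral_eq_sub_of_hasDerivAt hd (hcont.intervalIntegrable _ _)]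
  simp

private theorem Cst_acos : Real.arccos (1 / 3) = 2 * Real.arctan (1 / √2) := by
  have hs : √2 ^ 2 = (2:ℝ) := Real.sq_sqrt (by norm_num)
  have h1 : Real.cos (2 * Real.arctan (1 / √2)) = 1 / 3 := by
    rw [Real.cos_two_mul, Real.cos_sq_arctan, div_pow, hs]
    norm_num
  rw [← h1, Real.arccos_cos]
  · have : 0 ≤ Real.arctan (1 / √2) := Real.arctan_nonneg.mpr (by positivity)
    linarith
  · have := Real.arctan_lt_pi_div_two (1 / √2)
    linarith

private theorem Cst_pi6 : Real.arctan (1 / √3) = Real.pi / 6 := by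
  rw [← Real.tan_pi_div_six, Real.arctan_tan]
  · linarith [Real.pi_pos]
  · linarith [Real.pi_pos]

theorem cst_val : 4 * (√3 * cc) * RI 0 1 0 1 (fun x y => EIs y / mf x) =
    Real.pi * Real.arccos (1 / 3) / (4 * √3) := by
  have h3 : √3 ^ 2 = (3:ℝ) := Real.sq_sqrt (by norm_num)
  have h2 : √2 ^ 2 = (2:ℝ) := Real.sq_sqrt (by norm_num)
  have hs3 : 0 < √3 := Real.sqrt_pos.mpr (by norm_num)
  have hs2 : 0 < √2 := Real.sqrt_pos.mpr (by norm_num)
  have e : ∀ x y : ℝ, EIs y / mf x = (√3 / 12 * (1 / (1 + x ^ 2 / 2))) * (1 / (1 + y ^ 2 / 3)) := by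
    intro x y
    unfold EIs mf Nf
    rw [Real.sq_sqrt (by positivity)]
    have hp : 0 < 1 + y ^ 2 / 3 := by positivity
    have hq : 0 < 1 + x ^ 2 / 2 := by positivity
    field_simp
  have hR : RI 0 1 0 1 (fun x y => EIs y / mf x) =
      (√3 * (Real.pi / 6)) * (√3 / 12) * (√2 * Real.arctan (1 / √2)) := by
    unfold RI
    simp only [e]
    simp only [intervalIntegral.integral_const_mul, intervalIntegral.integral_mul_const]
    rw [Cst_int 3 (by norm_num), Cst_int 2 (by norm_num), Cst_pi6]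
    ring
  rw [hR, Cst_acos]
  unfold cc
  field_simp
  nlinarith [h3, h2]

end Pool.Agent.MSQ
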