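import Pool.Agent.MSQ.Defs
/-!
RIb (90 lines). Basic properties of the rectangle integral `RI a b c d f = ∫ x in a..b, ∫ y in c..d, f x y` and of the
staircase integral `SI` for continuous functions.

PROOF. For continuous f (uncurried) the inner integral is continuous in x
(`intervalIntegral.continuous_parametric_intervalIntegral_of_continuous` or `continuous_parametric_...'`), so
everything is interval integrable; use intervalIntegral.integral_add, integral_const_mul, integral_mono_on.
RI_congr: integral_congr twice. SI is a finite sum of RI over Finset.range 6 (Finset.sum_add_distrib, mul_sum,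
sum_le_sum); the rectangles [k/6,(k+1)/6] × [1, stY k] have 1 ≤ stY k for k < 6 (interval_cases k; norm_num [stY]).
-/
namespace Pool.Agent.MSQ

private theorem RIb_inner {f : ℝ → ℝ → ℝ} (hf : Continuous fun z : ℝ × ℝ => f z.1 z.2)
    (c d : ℝ) : Continuous fun x => ∫ y in c..d, f x y :=
  intervalIntegral.continuous_parametric_intervalIntegral_of_continuous' hf c d

private theorem RIb_fib {f : ℝ → ℝ → ℝ} (hf : Continuous fun z : ℝ × ℝ => f z.1 z.2)
    (x : ℝ) : Continuous fun y => f x y :=
  hf.comp (Continuous.prodMk_right x)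

theorem RI_add (a b c d : ℝ) (f g : ℝ → ℝ → ℝ) (hf : Continuous fun z : ℝ × ℝ => f z.1 z.2)
    (hg : Continuous fun z : ℝ × ℝ => g z.1 z.2) :
    RI a b c d (fun x y => f x y + g x y) = RI a b c d f + RI a b c d g := by
  unfold RI
  rw [← intervalIntegral.integral_add ((RIb_inner hf c d).intervalIntegrable _ _)
    ((RIb_inner hg c d).intervalIntegrable _ _)]
  refine intervalIntegral.integral_congr fun x _ => ?_
  exact intervalIntegral.integral_add ((RIb_fib hf x).intervalIntegrable _ _)
    ((RIb_fib hg x).intervalIntegrable _ _)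
theorem RI_mul (a b c d k : ℝ) (f : ℝ → ℝ → ℝ) :
    RI a b c d (fun x y => k * f x y) = k * RI a b c d f := by
  unfold RI
  rw [← intervalIntegral.integral_const_mul]
  refine intervalIntegral.integral_congr fun x _ => ?_
  exact intervalIntegral.integral_const_mul _ _
theorem RI_mono (a b c d : ℝ) (hab : a ≤ b) (hcd : c ≤ d) (f g : ℝ → ℝ → ℝ)
    (hf : Continuous fun z : ℝ × ℝ => f z.1 z.2) (hg : Continuous fun z : ℝ × ℝ => g z.1 z.2)
    (h : ∀ x y, a ≤ x → x ≤ b → c ≤ y → y ≤ d → f x y ≤ g x y) :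
    RI a b c d f ≤ RI a b c d g := by
  unfold RI
  refine intervalIntegral.integral_mono_on hab ((RIb_inner hf c d).intervalIntegrable _ _)
    ((RIb_inner hg c d).intervalIntegrable _ _) fun x hx => ?_
  exact intervalIntegral.integral_mono_on hcd ((RIb_fib hf x).intervalIntegrable _ _)
    ((RIb_fib hg x).intervalIntegrable _ _) fun y hy => h x y hx.1 hx.2 hy.1 hy.2
theorem RI_const (a b c d k : ℝ) : RI a b c d (fun _ _ => k) = k * (b - a) * (d - c) := by
  unfold RI
  simp only [intervalIntegral.integral_const, smul_eq_mul]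
  ring
theorem SI_add (f g : ℝ → ℝ → ℝ) (hf : Continuous fun z : ℝ × ℝ => f z.1 z.2)
    (hg : Continuous fun z : ℝ × ℝ => g z.1 z.2) :
    SI (fun x y => f x y + g x y) = SI f + SI g := by
  unfold SI
  rw [← Finset.sum_add_distrib]
  exact Finset.sum_congr rfl fun k _ => RI_add _ _ _ _ f g hf hg
theorem SI_mul (k : ℝ) (f : ℝ → ℝ → ℝ) : SI (fun x y => k * f x y) = k * SI f := by
  unfold SI
  rw [Finset.mul_sum]
  exact Finset.sum_congr rfl fun i _ => RI_mul _ _ _ _ k f

private theorem RIb_stY (k : ℕ) (hk : k < 6) : 1 ≤ stY k := by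
  interval_cases k <;> norm_num [stY]

theorem SI_mono (f g : ℝ → ℝ → ℝ) (hf : Continuous fun z : ℝ × ℝ => f z.1 z.2)
    (hg : Continuous fun z : ℝ × ℝ => g z.1 z.2)
    (h : ∀ k : ℕ, k < 6 → ∀ x y, (k : ℝ) / 6 ≤ x → x ≤ ((k : ℝ) + 1) / 6 → 1 ≤ y → y ≤ stY k →
      f x y ≤ g x y) : SI f ≤ SI g := by
  unfold SI
  refine Finset.sum_le_sum fun k hk => ?_
  have hk6 := Finset.mem_range.1 hk
  refine RI_mono _ _ _ _ (by linarith) (RIb_stY k hk6) f g hf hg fun x y h1 h2 h3 h4 =>
    h k hk6 x y h1 h2 h3 h4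
theorem SI_const_le (k : ℝ) (hk : 0 ≤ k) : SI (fun _ _ => k) ≤ k := by
  unfold SI
  simp only [RI_const, Finset.sum_range_succ, Finset.sum_range_zero, stY]
  push_cast
  nlinarith

end Pool.Agent.MSQ
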