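import Pool.Agent.MSQ.Defs
/-!
StG (50 lines). Geometry of the staircase.

PROOF. `st_ge`: for k/6 ≤ x ≤ (k+1)/6, k < 6: wf x ≥ √(1 + (k/6)²/2), and stY k · √(1+(k/6)²/2) ≥ √(3/2): check the six
squares: stY k² (1 + k²/72) ≥ 3/2: k=0: 49/40; 1: (1217/1000)²(1+1/72); 2: (1193/1000)²(1+4/72); 3: (231/200)²(1+9/72);
4: (277/250)²(1+16/72); 5: (132/125)²(1+25/72). (norm_num.) `st_ge'`: at x = (k+1)/6 and stY (k+1) ≤ y the same with index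
k+1; for k = 5: x = 1, y ≥ 1: w = √(3/2). `st_le`: stY k ≤ 5/4; `st_pos`: 1 ≤ stY k.
-/
namespace Pool.Agent.MSQ

private theorem stg_aux {c s x y : ℝ} (hc : c ≤ mf x) (hs : s ≤ y) (h0 : 0 ≤ s)
    (h : 3 / 2 ≤ c * s ^ 2) : √(3 / 2) ≤ wf x * y := by
  have hm : 0 ≤ mf x := by
    unfold mf
    positivity
  have hy : 0 ≤ y := h0.trans hs
  refine Real.sqrt_le_iff.2 ⟨mul_nonneg (Real.sqrt_nonneg _) hy, ?_⟩
  have h1 : (wf x * y) ^ 2 = mf x * y ^ 2 := by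
    rw [mul_pow]
    unfold wf
    rw [Real.sq_sqrt hm]
  rw [h1]
  refine h.trans ?_
  have h2 : s ^ 2 ≤ y ^ 2 := by gcongr
  exact mul_le_mul hc h2 (sq_nonneg s) hm

private theorem stg_mf {a x : ℝ} (h0 : 0 ≤ a) (h : a ≤ x) : 1 + a ^ 2 / 2 ≤ mf x := by
  unfold mf
  have : a ^ 2 ≤ x ^ 2 := by gcongr
  linarith

theorem st_ge (k : ℕ) (hk : k < 6) (x y : ℝ) (h0 : (k : ℝ) / 6 ≤ x) (h1 : x ≤ ((k : ℝ) + 1) / 6)
    (hy : stY k ≤ y) : √(3 / 2) ≤ wf x * y := by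
  have _ := h1
  have h2 : 0 ≤ (k : ℝ) / 6 := by positivity
  have h3 := stg_mf h2 h0
  refine stg_aux h3 hy ?_ ?_
  · interval_cases k <;> norm_num [stY]
  · interval_cases k <;> norm_num [stY]
theorem st_ge' (k : ℕ) (hk : k < 6) (y : ℝ) (hy : stY (k + 1) ≤ y) :
    √(3 / 2) ≤ wf (((k : ℝ) + 1) / 6) * y := by
  have h2 : 0 ≤ ((k : ℝ) + 1) / 6 := by positivity
  have h3 := stg_mf h2 le_rfl
  refine stg_aux h3 hy ?_ ?_
  · interval_cases k <;> norm_num [stY]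
  · interval_cases k <;> norm_num [stY]
theorem st_le (k : ℕ) : stY k ≤ 5 / 4 := by
  unfold stY
  split <;> norm_num
theorem st_pos (k : ℕ) : 1 ≤ stY k := by
  unfold stY
  split <;> norm_num
theorem st_range (k : ℕ) (hk : k < 6) (x : ℝ) (h0 : (k : ℝ) / 6 ≤ x) (h1 : x ≤ ((k : ℝ) + 1) / 6) :
    0 ≤ x ∧ x ≤ 1 := by
  have h2 : 0 ≤ (k : ℝ) / 6 := by positivity
  have h3 : (k : ℝ) + 1 ≤ 6 := by exact_mod_cast hk
  exact ⟨h2.trans h0, h1.trans (by linarith)⟩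

end Pool.Agent.MSQ
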