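import Pool.Agent.MSQ.Bd2
import Pool.Agent.MSQ.StG
import Pool.Agent.MSQ.RIb
import Pool.Agent.MSQ.HypR
/-!
EEq (150 lines). The integral over the square is at most the sum over the four quarters.

PROOF. Let F_J(X,Y) be the integrand of EE (continuous, from good jets and lf, lJ continuous). (1) Splitting at 0 in both
variables and reflecting (integral_comp_neg): ∫_{-c}^{c}∫_{-c}^{c} F_J = Σ_{σ} EQ(J^σ), EQ(J) = ∫_0^c ∫_0^c F_J, because
F_J(-X,Y) = F_{J.rx}(X,Y), F_J(X,-Y) = F_{J.ry}(X,Y) (lf, lJ.fXX, lJ.fYY even, fXY odd·odd).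
(2) Substitution: X = cc x, x ∈ [0,1], and for fixed x, Y = (wf x/√3) y, y ∈ [0, √(3/2)/wf x] (cc √3 = √(3/2)):
 EQ(J) = ∫_0^1 ∫_0^{√(3/2)/wf x} cc (wf x/√3) F_J(cc x, wf x y/√3) dy dx
 (intervalIntegral.integral_comp_mul_left / mul_integral_comp_mul_left). Pointwise
 cc (w/√3) F_J = √3 cc EI J x y/mf x: with a=fXX.. as in KH.lean: μ_H κ_L + κ_H μ_L - 4 ν_H ν_L =
 (w⁴/3)(H_XX L_YY + H_YY L_XX - 2 H_XY L_XY), lf = w N, mf = w², the state of lJ is lSt (KH: prove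
 (ch lJ x y).mu = (lSt x y).mu etc. again or derive it from the computation in KH.lean).
(3) For x ∈ [k/6,(k+1)/6]: √(3/2)/wf x ≤ stY k (st_ge with y = stY k), 1 ≤ √(3/2)/wf x, EI ≥ 0 (EI_nonneg), so
 ∫_0^{√(3/2)/w} ≤ ∫_0^1 + ∫_1^{stY k}; integrate over x and sum over k.
-/
namespace Pool.Agent.MSQ

open MeasureTheory

/-- the integrand of `EE` -/
private noncomputable def EEqF (J : Jet) (X Y : ℝ) : ℝ :=
  lf (X, Y) *
    (J.fXX (X, Y) * (lJ.fYY (X, Y) - J.fYY (X, Y)) + J.fYY (X, Y) * (lJ.fXX (X, Y) - J.fXX (X, Y)) -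
      2 * J.fXY (X, Y) * (lJ.fXY (X, Y) - J.fXY (X, Y))) / 2

private theorem EEq_EE (J : Jet) : EE J = ∫ X in (-cc)..cc, ∫ Y in (-cc)..cc, EEqF J X Y := rfl

private theorem EEq_c1 {G GX GY : ℝ × ℝ → ℝ} (h : D1 G GX GY) : Continuous G :=
  continuous_iff_continuousAt.2 fun z => (h z).continuousAt

private theorem EEq_lf : Continuous lf := by
  unfold lf
  fun_prop

private theorem EEq_Fc {J : Jet} (h : J.Good) : Continuous fun z : ℝ × ℝ => EEqF J z.1 z.2 := by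
  have h1 := EEq_c1 h.dXX
  have h2 := EEq_c1 h.dXY
  have h3 := EEq_c1 h.dYY
  have h4 := EEq_c1 good_lJ.dXX
  have h5 := EEq_c1 good_lJ.dXY
  have h6 := EEq_c1 good_lJ.dYY
  have h7 := EEq_lf
  have e : (fun z : ℝ × ℝ => EEqF J z.1 z.2) = fun z => lf z *
    (J.fXX z * (lJ.fYY z - J.fYY z) + J.fYY z * (lJ.fXX z - J.fXX z) -
      2 * J.fXY z * (lJ.fXY z - J.fXY z)) / 2 := rfl
  rw [e]
  fun_prop

private theorem EEq_lfx (a b : ℝ) : lf (-a, b) = lf (a, b) := by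
  unfold lf
  simp
private theorem EEq_lfy (a b : ℝ) : lf (a, -b) = lf (a, b) := by
  unfold lf
  simp
private theorem EEq_lfs (a b : ℝ) : lf (b, a) = lf (a, b) := by
  unfold lf
  rw [add_right_comm]

private theorem EEq_rx (J : Jet) (X Y : ℝ) : EEqF J (-X) Y = EEqF J.rx X Y := by
  simp only [EEqF, Jet.rx, lJ, EEq_lfx]
  ring

private theorem EEq_ry (J : Jet) (X Y : ℝ) : EEqF J X (-Y) = EEqF J.ry X Y := by
  simp only [EEqF, Jet.ry, lJ, EEq_lfy]
  ring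

private theorem EEq_split {f : ℝ → ℝ} (hf : Continuous f) (c : ℝ) :
    ∫ x in (-c)..c, f x = (∫ x in (0:ℝ)..c, f x) + ∫ x in (0:ℝ)..c, f (-x) := by
  have h1 := intervalIntegral.integral_add_adjacent_intervals
    (hf.intervalIntegrable (μ := volume) (-c) 0) (hf.intervalIntegrable (μ := volume) 0 c)
  have h2 : ∫ x in (0:ℝ)..c, f (-x) = ∫ x in (-c)..0, f x := by
    rw [intervalIntegral.integral_comp_neg, neg_zero]
  rw [h2, ← h1, add_comm]

private theorem EEq_in {f : ℝ → ℝ → ℝ} (hf : Continuous fun z : ℝ × ℝ => f z.1 z.2)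
    (c d : ℝ) : Continuous fun x => ∫ y in c..d, f x y :=
  intervalIntegral.continuous_parametric_intervalIntegral_of_continuous' hf c d

private theorem EEq_fib {f : ℝ → ℝ → ℝ} (hf : Continuous fun z : ℝ × ℝ => f z.1 z.2)
    (x : ℝ) : Continuous fun y => f x y :=
  hf.comp (Continuous.prodMk_right x)

private noncomputable def EEqQ (J : Jet) : ℝ := ∫ X in (0:ℝ)..cc, ∫ Y in (0:ℝ)..cc, EEqF J X Y

private theorem EEq_four {J : Jet} (h : J.Good) :
    EE J = EEqQ J + EEqQ J.rx + EEqQ J.ry + EEqQ J.rx.ry := by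
  have half : ∀ {K : Jet}, K.Good → ∫ X in (0:ℝ)..cc, ∫ Y in (-cc)..cc, EEqF K X Y =
      EEqQ K + EEqQ K.ry := by
    intro K hK
    have e : ∀ X : ℝ, ∫ Y in (-cc)..cc, EEqF K X Y =
        (∫ Y in (0:ℝ)..cc, EEqF K X Y) + ∫ Y in (0:ℝ)..cc, EEqF K.ry X Y := by
      intro X
      rw [EEq_split (EEq_fib (EEq_Fc hK) X)]
      simp only [EEq_ry]
    simp only [e]
    rw [intervalIntegral.integral_add ((EEq_in (EEq_Fc hK) _ _).intervalIntegrable _ _)
      ((EEq_in (EEq_Fc (good_ry K hK)) _ _).intervalIntegrable _ _)]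
    rfl
  rw [EEq_EE, EEq_split (EEq_in (EEq_Fc h) _ _)]
  have e : ∀ X : ℝ, ∫ Y in (-cc)..cc, EEqF J (-X) Y = ∫ Y in (-cc)..cc, EEqF J.rx X Y := by
    intro X
    simp only [EEq_rx]
  simp only [e]
  rw [half h, half (good_rx J h)]
  ring

/-! ### the chart -/

private theorem EEq_cc2 : cc ^ 2 = 1 / 2 := by
  unfold cc
  rw [div_pow, Real.sq_sqrt (by norm_num), one_pow]

private theorem EEq_cc0 : 0 < cc := by
  unfold cc
  positivity

private theorem EEq_s2 : (√3 : ℝ) ^ 2 = 3 := Real.sq_sqrt (by norm_num)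

private theorem EEq_s0 : (0 : ℝ) < √3 := Real.sqrt_pos.mpr (by norm_num)

private theorem EEq_m0 (x : ℝ) : 0 < mf x := by unfold mf; positivity

private theorem EEq_w0 (x : ℝ) : 0 < wf x := Real.sqrt_pos.mpr (EEq_m0 x)

private theorem EEq_wm (x : ℝ) : wf x ^ 2 = mf x := by
  unfold wf
  rw [Real.sq_sqrt (EEq_m0 x).le]

private theorem EEq_w2 (x : ℝ) : wf x ^ 2 = 1 + x ^ 2 / 2 := by
  rw [EEq_wm, mf]

private theorem EEq_N0 (y : ℝ) : 0 < Nf y := Real.sqrt_pos.mpr (by positivity)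

private theorem EEq_N2 (y : ℝ) : Nf y ^ 2 = 1 + y ^ 2 / 3 := by
  unfold Nf
  rw [Real.sq_sqrt (by positivity)]

private theorem EEq_lst (x y : ℝ) :
    wf x * lJ.fYY (cc * x, wf x * y / √3) / 3 = (lSt x y).mu ∧
    cc * (wf x ^ 2 * lJ.fXY (cc * x, wf x * y / √3) / √3 +
      cc * wf x * x * y * lJ.fYY (cc * x, wf x * y / √3) / 3) = (lSt x y).nu ∧
    wf x ^ 3 * lJ.fXX (cc * x, wf x * y / √3) +
      2 * wf x ^ 2 * (cc * x * y / √3) * lJ.fXY (cc * x, wf x * y / √3) +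
      wf x / 3 * (cc * x * y) ^ 2 * lJ.fYY (cc * x, wf x * y / √3) = (lSt x y).ka := by
  have hw := EEq_w0 x
  have hs := EEq_s0
  have hc := EEq_cc2
  have hs2 := EEq_s2
  have hw2 := EEq_w2 x
  have hN := EEq_N0 y
  have hN2 := EEq_N2 y
  have hl : lf (cc * x, wf x * y / √3) = wf x * Nf y := lf_chart x y
  have eYY : lJ.fYY (cc * x, wf x * y / √3) = 1 / (wf x * Nf y ^ 3) := by
    simp only [lJ, hl]
    rw [mul_pow, hc, div_eq_div_iff (by positivity) (by positivity)]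
    have : (1 + 1 / 2 * x ^ 2) = wf x ^ 2 := by rw [hw2]; ring
    rw [this]; ring
  have eXY : lJ.fXY (cc * x, wf x * y / √3) = -(cc * x * y) / (√3 * wf x ^ 2 * Nf y ^ 3) := by
    simp only [lJ, hl]
    field_simp
  have eXX : lJ.fXX (cc * x, wf x * y / √3) =
      (1 + wf x ^ 2 * y ^ 2 / 3) / (wf x ^ 3 * Nf y ^ 3) := by
    simp only [lJ, hl]
    rw [div_pow, hs2]
    ring
  refine ⟨?_, ?_, ?_⟩
  · rw [eYY]
    simp only [lSt]
    field_simp
  · rw [eYY, eXY]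
    have : wf x ^ 2 * (-(cc * x * y) / (√3 * wf x ^ 2 * Nf y ^ 3)) / √3 =
        -(cc * x * y) / (√3 ^ 2 * Nf y ^ 3) := by field_simp
    rw [this, hs2]
    simp only [lSt]
    field_simp
    ring
  · rw [eYY, eXY, eXX]
    have e1 : 2 * wf x ^ 2 * (cc * x * y / √3) * (-(cc * x * y) / (√3 * wf x ^ 2 * Nf y ^ 3)) =
        -(2 * (cc ^ 2 * x ^ 2 * y ^ 2)) / (√3 ^ 2 * Nf y ^ 3) := by field_simp
    have e2 : wf x / 3 * (cc * x * y) ^ 2 * (1 / (wf x * Nf y ^ 3)) =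
        cc ^ 2 * x ^ 2 * y ^ 2 / (3 * Nf y ^ 3) := by field_simp
    have e3 : wf x ^ 3 * ((1 + wf x ^ 2 * y ^ 2 / 3) / (wf x ^ 3 * Nf y ^ 3)) =
        (1 + wf x ^ 2 * y ^ 2 / 3) / Nf y ^ 3 := by field_simp
    rw [e1, e2, e3, hs2, hc, hw2]
    have e4 : (lSt x y).ka = Nf y ^ 2 / Nf y ^ 3 := by
      simp only [lSt]
      field_simp
    rw [e4, hN2]
    field_simp
    ring

/-- the algebraic identity behind the change of variables -/
private theorem EEq_alg {w c s x y a b d a' b' d' : ℝ} (hs : s ≠ 0) (hc : c ^ 2 = 1 / 2)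
    (hs2 : s ^ 2 = 3) :
    (w * d / 3) * (w ^ 3 * a' + 2 * w ^ 2 * (c * x * y / s) * b' + w / 3 * (c * x * y) ^ 2 * d') +
    (w ^ 3 * a + 2 * w ^ 2 * (c * x * y / s) * b + w / 3 * (c * x * y) ^ 2 * d) * (w * d' / 3) -
    4 * (c * (w ^ 2 * b / s + c * w * x * y * d / 3)) *
      (c * (w ^ 2 * b' / s + c * w * x * y * d' / 3)) =
    w ^ 4 / 3 * (a * d' + d * a' - 2 * b * b') := by
  have e : 4 * (c * (w ^ 2 * b / s + c * w * x * y * d / 3)) *
      (c * (w ^ 2 * b' / s + c * w * x * y * d' / 3)) =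
      4 * (c ^ 2) * (w ^ 4 * b * b' / s ^ 2 + c * w ^ 3 * x * y * (b * d' + b' * d) / (3 * s) +
        (c ^ 2) * w ^ 2 * x ^ 2 * y ^ 2 * d * d' / 9) := by
    field_simp
    ring
  rw [e, hc, hs2]
  have e2 : (c * x * y) ^ 2 = x ^ 2 * y ^ 2 / 2 := by
    rw [mul_pow, mul_pow, hc]; ring
  rw [e2]
  field_simp
  ring

private theorem EEq_pt (J : Jet) (x y : ℝ) :
    wf x / √3 * EEqF J (cc * x) (wf x / √3 * y) = √3 * (EI J x y / mf x) := by
  have hz : wf x / √3 * y = wf x * y / √3 := by ring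
  rw [hz]
  obtain ⟨m1, m2, m3⟩ := EEq_lst x y
  set z : ℝ × ℝ := (cc * x, wf x * y / √3) with hzz
  have hw := EEq_w0 x
  have hl : lf z = wf x * Nf y := lf_chart x y
  have c1 : (ch J x y).mu = wf x * J.fYY z / 3 := rfl
  have c2 : (ch J x y).nu = cc * (wf x ^ 2 * J.fXY z / √3 + cc * wf x * x * y * J.fYY z / 3) := rfl
  have c3 : (ch J x y).ka = wf x ^ 3 * J.fXX z + 2 * wf x ^ 2 * (cc * x * y / √3) * J.fXY z +
      wf x / 3 * (cc * x * y) ^ 2 * J.fYY z := rfl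
  have n1 : (lSt x y).mu - (ch J x y).mu = wf x * (lJ.fYY z - J.fYY z) / 3 := by
    rw [c1, ← m1]; ring
  have n2 : (lSt x y).nu - (ch J x y).nu = cc * (wf x ^ 2 * (lJ.fXY z - J.fXY z) / √3 +
      cc * wf x * x * y * (lJ.fYY z - J.fYY z) / 3) := by
    rw [c2, ← m2]; ring
  have n3 : (lSt x y).ka - (ch J x y).ka = wf x ^ 3 * (lJ.fXX z - J.fXX z) +
      2 * wf x ^ 2 * (cc * x * y / √3) * (lJ.fXY z - J.fXY z) +
      wf x / 3 * (cc * x * y) ^ 2 * (lJ.fYY z - J.fYY z) := by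
    rw [c3, ← m3]; ring
  have key := EEq_alg (w := wf x) (c := cc) (s := √3) (x := x) (y := y) (a := J.fXX z)
    (b := J.fXY z) (d := J.fYY z) (a' := lJ.fXX z - J.fXX z) (b' := lJ.fXY z - J.fXY z)
    (d' := lJ.fYY z - J.fYY z) EEq_s0.ne' EEq_cc2 EEq_s2
  unfold EI
  rw [n1, n2, n3, c1, c2, c3, key]
  have hF : EEqF J (cc * x) (wf x * y / √3) = lf z *
    (J.fXX z * (lJ.fYY z - J.fYY z) + J.fYY z * (lJ.fXX z - J.fXX z) -
      2 * J.fXY z * (lJ.fXY z - J.fXY z)) / 2 := rfl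
  rw [hF, hl, ← EEq_wm]
  generalize (J.fXX z * (lJ.fYY z - J.fYY z) + J.fYY z * (lJ.fXX z - J.fXX z) -
      2 * J.fXY z * (lJ.fXY z - J.fXY z)) = T
  have hs := EEq_s0
  have hs2 := EEq_s2
  have e3 : √3 * (Nf y * (wf x ^ 4 / 3 * T) / 2 / wf x ^ 2) =
      wf x ^ 2 * Nf y * T / 2 * (√3 / 3) := by
    field_simp
  have e4 : √3 / 3 = 1 / √3 := by
    rw [div_eq_div_iff (by norm_num) hs.ne', one_mul, ← sq, hs2]
  rw [e3, e4]
  field_simp

/-! ### the quarter -/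

private noncomputable def EEqg (J : Jet) (x y : ℝ) : ℝ := EI J x y / mf x

private theorem EEq_wc : Continuous wf := by
  unfold wf mf
  fun_prop

private theorem EEq_gc {J : Jet} (h : J.Good) : Continuous fun z : ℝ × ℝ => EEqg J z.1 z.2 := by
  have e : (fun z : ℝ × ℝ => EEqg J z.1 z.2) = fun z : ℝ × ℝ =>
      wf z.1 / √3 * EEqF J (cc * z.1) (wf z.1 / √3 * z.2) / √3 := by
    funext z
    have h1 := EEq_pt J z.1 z.2
    have hs := EEq_s0
    rw [h1]
    unfold EEqg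
    field_simp
  rw [e]
  have hw : Continuous fun z : ℝ × ℝ => wf z.1 := EEq_wc.comp continuous_fst
  have h2 : Continuous fun z : ℝ × ℝ => EEqF J (cc * z.1) (wf z.1 / √3 * z.2) :=
    (EEq_Fc h).comp (f := fun z : ℝ × ℝ => (cc * z.1, wf z.1 / √3 * z.2)) (by fun_prop)
  fun_prop

private theorem EEq_r (x : ℝ) : wf x / √3 * (√(3 / 2) / wf x) = cc := by
  have hw := EEq_w0 x
  have hs := EEq_s0
  have e : √(3 / 2) = √3 * cc := by
    have : (3 / 2 : ℝ) = 3 * (1 / 2) := by norm_num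
    rw [this, Real.sqrt_mul (by norm_num), Real.sqrt_div (by norm_num), Real.sqrt_one]
    rfl
  rw [e]
  field_simp

private theorem EEq_quarter {J : Jet} (_h : J.Good) :
    EEqQ J = √3 * cc * ∫ x in (0:ℝ)..1, ∫ y in (0:ℝ)..(√(3 / 2) / wf x), EEqg J x y := by
  have inner : ∀ x : ℝ, ∫ Y in (0:ℝ)..cc, EEqF J (cc * x) Y =
      √3 * ∫ y in (0:ℝ)..(√(3 / 2) / wf x), EEqg J x y := by
    intro x
    have h1 := intervalIntegral.mul_integral_comp_mul_left (a := 0) (b := √(3 / 2) / wf x)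
      (f := fun Y => EEqF J (cc * x) Y) (wf x / √3)
    rw [mul_zero, EEq_r] at h1
    rw [← h1, ← intervalIntegral.integral_const_mul, ← intervalIntegral.integral_const_mul]
    refine intervalIntegral.integral_congr fun y _ => ?_
    exact EEq_pt J x y
  have h2 := intervalIntegral.mul_integral_comp_mul_left (a := 0) (b := 1)
    (f := fun X => ∫ Y in (0:ℝ)..cc, EEqF J X Y) cc
  rw [mul_zero, mul_one] at h2
  unfold EEqQ
  rw [← h2]
  simp only [inner]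
  rw [intervalIntegral.integral_const_mul]
  ring

private theorem EEq_le {J : Jet} {δ : ℝ} (h : Hyp J δ) :
    ∫ x in (0:ℝ)..1, ∫ y in (0:ℝ)..(√(3 / 2) / wf x), EEqg J x y ≤ QT J := by
  have hgc := EEq_gc h.good
  have hg0 : ∀ x y, 0 ≤ EEqg J x y := fun x y => div_nonneg (EI_nonneg h x y) (EEq_m0 x).le
  have hrc : Continuous fun x => √(3 / 2) / wf x :=
    continuous_const.div EEq_wc fun x => (EEq_w0 x).ne'
  have hG : Continuous fun x => ∫ y in (0:ℝ)..(√(3 / 2) / wf x), EEqg J x y :=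
    intervalIntegral.continuous_parametric_intervalIntegral_of_continuous hgc hrc
  -- pointwise
  have pt : ∀ k : ℕ, k < 6 → ∀ x, (k : ℝ) / 6 ≤ x → x ≤ ((k : ℝ) + 1) / 6 →
      ∫ y in (0:ℝ)..(√(3 / 2) / wf x), EEqg J x y ≤
        (∫ y in (0:ℝ)..1, EEqg J x y) + ∫ y in (1:ℝ)..(stY k), EEqg J x y := by
    intro k hk x h0 h1
    have hw := EEq_w0 x
    have hr : √(3 / 2) / wf x ≤ stY k := by
      rw [div_le_iff₀ hw, mul_comm]
      exact st_ge k hk x (stY k) h0 h1 le_rfl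
    have hr0 : 0 ≤ √(3 / 2) / wf x := by positivity
    have hfib := EEq_fib hgc x
    rw [intervalIntegral.integral_add_adjacent_intervals (hfib.intervalIntegrable _ _)
      (hfib.intervalIntegrable _ _),
      ← intervalIntegral.integral_add_adjacent_intervals (hfib.intervalIntegrable 0
        (√(3 / 2) / wf x)) (hfib.intervalIntegrable (√(3 / 2) / wf x) (stY k))]
    have := intervalIntegral.integral_nonneg (μ := volume) hr fun y _ => hg0 x y
    linarith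
  -- sum over the pieces
  have i1 := EEq_in hgc 0 1
  have s1 : ∑ k ∈ Finset.range 6, ∫ x in ((k : ℝ) / 6)..(((k + 1 : ℕ) : ℝ) / 6),
      (∫ y in (0:ℝ)..(√(3 / 2) / wf x), EEqg J x y) =
      ∫ x in (((0 : ℕ) : ℝ) / 6)..(((6 : ℕ) : ℝ) / 6),
        ∫ y in (0:ℝ)..(√(3 / 2) / wf x), EEqg J x y :=
    intervalIntegral.sum_integral_adjacent_intervals (a := fun k : ℕ => (k : ℝ) / 6)
      fun k _ => hG.intervalIntegrable _ _
  have s2 : ∑ k ∈ Finset.range 6, ∫ x in ((k : ℝ) / 6)..(((k + 1 : ℕ) : ℝ) / 6),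
      (∫ y in (0:ℝ)..1, EEqg J x y) =
      ∫ x in (((0 : ℕ) : ℝ) / 6)..(((6 : ℕ) : ℝ) / 6), ∫ y in (0:ℝ)..1, EEqg J x y :=
    intervalIntegral.sum_integral_adjacent_intervals (a := fun k : ℕ => (k : ℝ) / 6)
      fun k _ => i1.intervalIntegrable _ _
  have z1 : (((0 : ℕ) : ℝ) / 6) = 0 := by norm_num
  have z2 : (((6 : ℕ) : ℝ) / 6) = 1 := by norm_num
  rw [z1, z2] at s1 s2
  have hQ : QT J = (∫ x in (0:ℝ)..1, ∫ y in (0:ℝ)..1, EEqg J x y) +
      ∑ k ∈ Finset.range 6, ∫ x in ((k : ℝ) / 6)..(((k : ℝ) + 1) / 6),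
        ∫ y in (1:ℝ)..(stY k), EEqg J x y := rfl
  rw [hQ, ← s1, ← s2, ← Finset.sum_add_distrib]
  refine Finset.sum_le_sum fun k hk => ?_
  have hk6 := Finset.mem_range.1 hk
  have hcast : (((k + 1 : ℕ) : ℝ) / 6) = ((k : ℝ) + 1) / 6 := by push_cast; ring
  rw [hcast]
  have i2 := EEq_in hgc 1 (stY k)
  rw [← intervalIntegral.integral_add (i1.intervalIntegrable _ _) (i2.intervalIntegrable _ _)]
  refine intervalIntegral.integral_mono_on (by linarith) (hG.intervalIntegrable _ _)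
    ((i1.add i2).intervalIntegrable _ _) fun x hx => ?_
  exact pt k hk6 x hx.1 hx.2

theorem eeq {J : Jet} {δ : ℝ} (h : Hyp J δ) :
    EE J ≤ √3 * cc * (QT J + QT J.rx + QT J.ry + QT J.rx.ry) := by
  have one : ∀ {K : Jet}, Hyp K δ → EEqQ K ≤ √3 * cc * QT K := by
    intro K hK
    rw [EEq_quarter hK.good]
    have h3 : 0 ≤ √3 * cc := mul_nonneg EEq_s0.le EEq_cc0.le
    exact mul_le_mul_of_nonneg_left (EEq_le hK) h3
  rw [EEq_four h.good]
  have a := one h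
  have b := one (hyp_rx h)
  have c := one (hyp_ry h)
  have d := one (hyp_ry (hyp_rx h))
  linarith

theorem ee_sw {J : Jet} {δ : ℝ} (h : Hyp J δ) : EE J.sw = EE J := by
  have e : ∀ X Y : ℝ, EEqF J.sw X Y = EEqF J Y X := by
    intro X Y
    simp only [EEqF, Jet.sw, lJ, EEq_lfs X Y]
    ring
  rw [EEq_EE, EEq_EE]
  simp only [e]
  refine (intervalIntegral_intervalIntegral_swap ?_).symm
  have hc : Continuous (Function.uncurry fun X Y => EEqF J X Y) := EEq_Fc h.good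
  refine (hc.continuousOn.integrableOn_compact (isCompact_uIcc.prod isCompact_uIcc)).mono_set
    (Set.prod_mono Set.uIoc_subset_uIcc Set.uIoc_subset_uIcc)

end Pool.Agent.MSQ
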