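import Pool.Agent.MSQ.KH

/-!
Bd2 (60 lines). Crude bounds of the second order data.

PROOF. kh (KH): 0 ≤ μ_H ≤ 1/(3N³) ≤ 1/3, 0 ≤ κ_H ≤ 1/N ≤ 1, 2ν_H² ≤ μ_H κ_H ≤ 1/3 (N ≥ 1). AC = starC - ch:
μ = -μ_H, ν = -ν_H, κ = s3 - κ_H; AS: μ = 1/(3N³) - μ_H, ...; FC = (starC - lSt) - (AC - starC), FS the same:
all entries are at most 2 in absolute value (0 ≤ s3 ≤ 1).
-/

namespace Pool.Agent.MSQ

/-- the second order data are at most `2` -/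
def Bd (s : St) : Prop := |s.mu| ≤ 2 ∧ |s.nu| ≤ 2 ∧ |s.ka| ≤ 2

private theorem Bd2_N (y : ℝ) : 1 ≤ Nf y := by
  unfold Nf
  rw [Real.one_le_sqrt]
  nlinarith [sq_nonneg y]

private theorem Bd2_s3 : 0 ≤ s3 ∧ s3 ≤ 1 := by
  unfold s3
  have h1 : √3 ≤ 2 := by
    rw [Real.sqrt_le_left (by norm_num)]
    norm_num
  have h2 := Real.sqrt_nonneg 3
  constructor <;> linarith

private theorem Bd2_all {J : Jet} {δ : ℝ} (h : Hyp J δ) (x y : ℝ) :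
    0 ≤ (ch J x y).mu ∧ (ch J x y).mu ≤ 1 ∧ 0 ≤ (ch J x y).ka ∧ (ch J x y).ka ≤ 1 ∧
      -1 ≤ (ch J x y).nu ∧ (ch J x y).nu ≤ 1 ∧ 0 ≤ 1 / (3 * Nf y ^ 3) ∧ 1 / (3 * Nf y ^ 3) ≤ 1 ∧
      0 ≤ 1 / Nf y ∧ 1 / Nf y ≤ 1 := by
  obtain ⟨h1, h2, h3, h4, h5, _⟩ := kh h x y
  have hN := Bd2_N y
  have hN0 : 0 < Nf y := by linarith
  have hN3 : 1 ≤ Nf y ^ 3 := one_le_pow₀ hN
  have a1 : 1 / (3 * Nf y ^ 3) ≤ 1 := by
    rw [div_le_one (by positivity)]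
    linarith
  have a2 : 1 / Nf y ≤ 1 := by
    rw [div_le_one hN0]
    exact hN
  have a3 : 0 ≤ 1 / (3 * Nf y ^ 3) := by positivity
  have a4 : 0 ≤ 1 / Nf y := by positivity
  have b1 : (ch J x y).mu ≤ 1 := h4.trans a1
  have b2 : (ch J x y).ka ≤ 1 := h5.trans a2
  have b3 : (ch J x y).mu * (ch J x y).ka ≤ 1 := by nlinarith
  have b4 : (ch J x y).nu ^ 2 ≤ 1 := by nlinarith
  exact ⟨h1, b1, h2, b2, by nlinarith, by nlinarith, a3, a1, a4, a2⟩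

theorem bd_AC {J : Jet} {δ : ℝ} (h : Hyp J δ) (x y : ℝ) : Bd (AC J x y) := by
  obtain ⟨h1, h2, h3, h4, h5, h6, h7, h8, h9, h10⟩ := Bd2_all h x y
  obtain ⟨s1, s2⟩ := Bd2_s3
  refine ⟨?_, ?_, ?_⟩ <;> simp only [AC, St.sub, starC] <;> rw [abs_le] <;>
    constructor <;> linarith

theorem bd_AS {J : Jet} {δ : ℝ} (h : Hyp J δ) (x y : ℝ) : Bd (AS J x y) := by
  obtain ⟨h1, h2, h3, h4, h5, h6, h7, h8, h9, h10⟩ := Bd2_all h x y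
  refine ⟨?_, ?_, ?_⟩ <;> simp only [AS, St.sub, starS] <;> rw [abs_le] <;>
    constructor <;> linarith

theorem bd_FC {J : Jet} {δ : ℝ} (h : Hyp J δ) (x y : ℝ) : Bd (FC J x y) := by
  obtain ⟨h1, h2, h3, h4, h5, h6, h7, h8, h9, h10⟩ := Bd2_all h x y
  obtain ⟨s1, s2⟩ := Bd2_s3
  refine ⟨?_, ?_, ?_⟩ <;> simp only [FC, AC, St.sub, starC, lSt] <;> rw [abs_le] <;>
    constructor <;> linarith

theorem bd_FS {J : Jet} {δ : ℝ} (h : Hyp J δ) (x y : ℝ) : Bd (FS J x y) := by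
  obtain ⟨h1, h2, h3, h4, h5, h6, h7, h8, h9, h10⟩ := Bd2_all h x y
  refine ⟨?_, ?_, ?_⟩ <;> simp only [FS, AS, St.sub, starS, lSt] <;> rw [abs_le] <;>
    constructor <;> linarith

theorem EI_nonneg {J : Jet} {δ : ℝ} (h : Hyp J δ) (x y : ℝ) : 0 ≤ EI J x y := by
  obtain ⟨h1, h2, h3, h4, h5, _⟩ := kh h x y
  have hN := Bd2_N y
  have hN0 : 0 < Nf y := by linarith
  simp only [EI, lSt]
  have e1 : 0 ≤ (ch J x y).mu * (1 / Nf y - (ch J x y).ka) := mul_nonneg h1 (by linarith)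
  have e2 : 0 ≤ (ch J x y).ka * (1 / (3 * Nf y ^ 3) - (ch J x y).mu) := mul_nonneg h2 (by linarith)
  have e3 : 0 ≤ (ch J x y).mu * (1 / Nf y - (ch J x y).ka) +
      (ch J x y).ka * (1 / (3 * Nf y ^ 3) - (ch J x y).mu) -
        4 * (ch J x y).nu * (0 - (ch J x y).nu) := by nlinarith [sq_nonneg (ch J x y).nu]
  have := mul_nonneg hN0.le e3
  linarith

end Pool.Agent.MSQ
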