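import Pool.Agent.MSQ.Defs
/-!
DivB (80 lines). The divergence identity of the bilinear gauge.

PROOF. s = S x y, v = T x y, N = Nf y, N_y = y/(3N), N_yy = 1/(3N³).
 ∂_y W1 = N_y κ_v q + N (2Z_v - yμ_v) q + N κ_v μ - 2 N_y ν_v p - 2N E_v p - 2N ν_v ν - N_yy κ_v u
          - N_y (2Z_v - y μ_v) u - N_y κ_v q,
 m ∂_x W2 = 2N E_v p + 2N μ_v (κ - u + yq)/2 - 2N Z_v q - 2N ν_v ν + 2 N_y Z_v u + 2 N_y ν_v p,
 (m μ_{v,x} = E_v, m ν_{v,x} = Z_v, m p_x = (κ-u+yq)/2). Sum: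
 N κ_v μ + N μ_v κ - 4 N ν ν_v - u ( N_yy κ_v + N μ_v - N_y y μ_v ) and
 N - y N_y = 1/N, so N μ_v - y N_y μ_v = μ_v/N. Continuity as in DivQ (explicit formulas).
-/
namespace Pool.Agent.MSQ

private theorem dvb_Npos (y : ℝ) : 0 < Nf y := Real.sqrt_pos.2 (by positivity)

private theorem dvb_Nsq (y : ℝ) : Nf y ^ 2 = 1 + y ^ 2 / 3 := Real.sq_sqrt (by positivity)

private theorem dvb_N (y : ℝ) : HasDerivAt Nf (y / (3 * Nf y)) y := by
  have h1 : HasDerivAt (fun t : ℝ => 1 + t ^ 2 / 3) (2 * y / 3) y := by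
    have h2 := ((hasDerivAt_pow 2 y).div_const 3).const_add 1
    refine h2.congr_deriv ?_
    norm_num
  have h3 := h1.sqrt (by positivity : (1 : ℝ) + y ^ 2 / 3 ≠ 0)
  refine h3.congr_deriv ?_
  change 2 * y / 3 / (2 * Nf y) = y / (3 * Nf y)
  have h4 := (dvb_Npos y).ne'
  field_simp

private theorem dvb_M (y : ℝ) :
    HasDerivAt (fun t => t / (3 * Nf t)) (1 / (3 * Nf y ^ 3)) y := by
  have h4 := (dvb_Npos y).ne'
  have h1 := (hasDerivAt_id y).div ((dvb_N y).const_mul 3) (by positivity : 3 * Nf y ≠ 0)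
  refine h1.congr_deriv ?_
  change (1 * (3 * Nf y) - y * (3 * (y / (3 * Nf y)))) / (3 * Nf y) ^ 2 = 1 / (3 * Nf y ^ 3)
  have h5 := dvb_Nsq y
  field_simp
  linear_combination 3 * h5

private theorem dvb_cN : Continuous Nf := by
  unfold Nf
  fun_prop

private theorem dvb_cN2 : Continuous fun z : ℝ × ℝ => Nf z.2 := dvb_cN.comp continuous_snd

private theorem dvb_cm1 : Continuous fun z : ℝ × ℝ => mf z.1 := by
  unfold mf
  fun_prop

private theorem dvb_mpos (x : ℝ) : 0 < mf x := by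
  unfold mf
  positivity

private theorem dvb_cM : Continuous fun z : ℝ × ℝ => z.2 / (3 * Nf z.2) :=
  continuous_snd.div (continuous_const.mul dvb_cN2) fun z => by
    have := dvb_Npos z.2
    positivity

private theorem dvb_cM3 : Continuous fun z : ℝ × ℝ => 1 / (3 * Nf z.2 ^ 3) :=
  continuous_const.div (continuous_const.mul (dvb_cN2.pow 3)) fun z => by
    have := dvb_Npos z.2
    positivity

private noncomputable def dvbA (S T : ℝ → ℝ → St) (Z' E' : ℝ → ℝ → ℝ) (x y : ℝ) : ℝ :=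
  y / (3 * Nf y) * (T x y).ka * (S x y).q + Nf y * (2 * Z' x y - y * (T x y).mu) * (S x y).q +
    Nf y * (T x y).ka * (S x y).mu -
    2 * (y / (3 * Nf y) * (T x y).nu * (S x y).p + Nf y * E' x y * (S x y).p +
      Nf y * (T x y).nu * (S x y).nu) -
    (1 / (3 * Nf y ^ 3) * (T x y).ka * (S x y).u +
      y / (3 * Nf y) * (2 * Z' x y - y * (T x y).mu) * (S x y).u +
      y / (3 * Nf y) * (T x y).ka * (S x y).q)

private noncomputable def dvbB (S T : ℝ → ℝ → St) (Z' E' : ℝ → ℝ → ℝ) (x y : ℝ) : ℝ :=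
  (2 * Nf y * (E' x y * (S x y).p +
      (T x y).mu * ((S x y).ka - (S x y).u + y * (S x y).q) / 2) -
    2 * Nf y * (Z' x y * (S x y).q + (T x y).nu * (S x y).nu) +
    2 * (y / (3 * Nf y)) * (Z' x y * (S x y).u + (T x y).nu * (S x y).p)) / mf x

theorem divB {S T : ℝ → ℝ → St} {Z E Z' E' : ℝ → ℝ → ℝ} (hS : JS S Z E) (hT : JS T Z' E') :
    ∃ A B : ℝ → ℝ → ℝ, (Continuous fun z : ℝ × ℝ => A z.1 z.2) ∧
      (Continuous fun z : ℝ × ℝ => B z.1 z.2) ∧
      (∀ x y, HasDerivAt (fun t => W1 t (S x t) (T x t)) (A x y) y) ∧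
      (∀ x y, HasDerivAt (fun t => W2 y (S t y) (T t y)) (B x y) x) ∧
      ∀ x y, A x y + mf x * B x y =
        Nf y * ((S x y).mu * (T x y).ka + (S x y).ka * (T x y).mu - 4 * (S x y).nu * (T x y).nu) -
          (S x y).u * ((T x y).ka / (3 * Nf y ^ 3) + (T x y).mu / Nf y) := by
  refine ⟨dvbA S T Z' E', dvbB S T Z' E', ?_, ?_, fun x y => ?_, fun x y => ?_, fun x y => ?_⟩
  · have t1 := ((dvb_cM.mul hT.cka).mul hS.cq).add ((dvb_cN2.mul ((continuous_const (y := (2:ℝ))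
      |>.mul hT.cZ).sub (continuous_snd.mul hT.cmu))).mul hS.cq)
    have t2 := t1.add ((dvb_cN2.mul hT.cka).mul hS.cmu)
    have t3 := (continuous_const (y := (2:ℝ))).mul ((((dvb_cM.mul hT.cnu).mul hS.cp).add
      ((dvb_cN2.mul hT.cE).mul hS.cp)).add ((dvb_cN2.mul hT.cnu).mul hS.cnu))
    have t4 := (((dvb_cM3.mul hT.cka).mul hS.cu).add ((dvb_cM.mul ((continuous_const (y := (2:ℝ))
      |>.mul hT.cZ).sub (continuous_snd.mul hT.cmu))).mul hS.cu)).add
      ((dvb_cM.mul hT.cka).mul hS.cq)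
    exact (t2.sub t3).sub t4
  · have t0 : Continuous fun z : ℝ × ℝ => 2 * Nf z.2 := continuous_const.mul dvb_cN2
    have t1 := t0.mul ((hT.cE.mul hS.cp).add ((hT.cmu.mul ((hS.cka.sub hS.cu).add
      (continuous_snd.mul hS.cq))).div_const 2))
    have t2 := t0.mul ((hT.cZ.mul hS.cq).add (hT.cnu.mul hS.cnu))
    have t3 := ((continuous_const (y := (2:ℝ))).mul dvb_cM).mul
      ((hT.cZ.mul hS.cu).add (hT.cnu.mul hS.cp))
    exact ((t1.sub t2).add t3).div dvb_cm1 fun z => (dvb_mpos z.1).ne'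
  · have h := (((dvb_N y).mul (hT.kay x y)).mul (hS.qy x y)).sub
      ((((dvb_N y).const_mul 2).mul (hT.nuy x y)).mul (hS.py x y))
    have h2 := h.sub (((dvb_M y).mul (hT.kay x y)).mul (hS.uy x y))
    refine h2.congr_deriv ?_
    unfold dvbA
    simp only [Pi.mul_apply]
    ring
  · have h := (((hT.mux x y).const_mul (2 * Nf y)).mul (hS.px x y)).sub
      (((hT.nux x y).const_mul (2 * Nf y)).mul (hS.qx x y))
    have h2 := h.add (((hT.nux x y).const_mul (2 * (y / (3 * Nf y)))).mul (hS.ux x y))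
    refine h2.congr_deriv ?_
    unfold dvbB
    have h3 := (dvb_mpos x).ne'
    have h4 := (dvb_Npos y).ne'
    field_simp
  · unfold dvbA dvbB
    have h3 := (dvb_mpos x).ne'
    have h4 := (dvb_Npos y).ne'
    have h5 := dvb_Nsq y
    rw [mul_div_cancel₀ _ h3]
    have h6 : Nf y - y * (y / (3 * Nf y)) = 1 / Nf y := by
      field_simp
      linear_combination 3 * h5
    have h7 : (T x y).mu / Nf y = (T x y).mu * (Nf y - y * (y / (3 * Nf y))) := by
      rw [h6]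
      ring
    rw [h7]
    ring
theorem cont_W {S T : ℝ → ℝ → St} {Z E Z' E' : ℝ → ℝ → ℝ} (hS : JS S Z E) (hT : JS T Z' E') :
    (Continuous fun z : ℝ × ℝ => W1 z.2 (S z.1 z.2) (T z.1 z.2)) ∧
    (Continuous fun z : ℝ × ℝ => W2 z.2 (S z.1 z.2) (T z.1 z.2)) := by
  have t0 : Continuous fun z : ℝ × ℝ => 2 * Nf z.2 := continuous_const.mul dvb_cN2
  exact ⟨(((dvb_cN2.mul hT.cka).mul hS.cq).sub ((t0.mul hT.cnu).mul hS.cp)).sub
      ((dvb_cM.mul hT.cka).mul hS.cu),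
    (((t0.mul hT.cmu).mul hS.cp).sub ((t0.mul hT.cnu).mul hS.cq)).add
      ((((continuous_const (y := (2:ℝ))).mul dvb_cM).mul hT.cnu).mul hS.cu)⟩

end Pool.Agent.MSQ
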