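import Pool.Agent.MSQ.SqB
/-!
EA1 (90 lines). The upper bounds E1, E1b, E3b are below their polynomial approximations.

Notation: q = qE = 4194304 (as real), T = TT y, w = wf x, I = 1/w, M = mY x y, J = 1/M; tilde = polynomial
approximations: T~ = ev Tn/q, W~ = ev Wn/q, I~ = ev In/q, M~ = ev Mn/(1296 q), J~ = ev Jn/(1296 q);
|T~-T| ≤ 20/q, |W~-w| ≤ 4/q, |I~-I| ≤ 26/q, |M~-M| ≤ 4/q, |J~-J| ≤ 26/q (SqB), 0 ≤ T ≤ 2, 1 ≤ w ≤ 1.2248,
0 ≤ I ≤ 1, 1 ≤ M ≤ 1.2248, 0 ≤ J ≤ 1; constants c3n/q, ccn/q, c15n/q are within 1/q of √3, cc, r15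
(squares; norm_num with Real.sqrt bounds). epn/QE = 192/q. QE = 2 q^6 1296.
Product rule: |a b - a' b'| ≤ |a - a'| |b| + |a'| |b - b'|.

PROOF. kE1 (KE.lean) with ev_eqP and the ev lemmas gives the exact value
 uv x y UE1 = (3/2) T~ + T~ I~ ((3/2) M~ - c15n/q) - 3 - y^2 + 192/q, while
 E1 = (3/2) T + T I ((3/2) M - r15) - 3 - y^2 (T^2 = 3 + y^2).
 |T~ I~ - T I| ≤ (20 + 2*26 + 1)/q =: 73/q, |(3/2)M - r15| ≤ 5/8, |(3/2)(M~-M) - (c15n/q - r15)| ≤ 7/q, so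
 |difference of the middle terms| ≤ (73*5/8 + (2+1)*7)/q < 70/q, the first: 30/q; total 100/q < 192/q.
 E1b = (3/2) T - r15 (1+x/2) T I, uv UE1b = (3/2) T~ - (c15n/q)(1+x/2) T~ I~ + 192/q (kE1b;
 ev x y [[2],[1]] = 2 + x): error ≤ 30/q + 1.5 (1.2248*73 + 3)/q < 170/q.
 E3b = (3/2) T - r15 T w, uv UE3b = (3/2)T~ - (c15n/q) T~ W~ + 192/q (kE3b): error ≤ 30/q + (1.2248*33 + 3)/q.
-/
namespace Pool.Agent.MSQ

private lemma ea1_mul {a b a' b' A B da db : ℝ} (h1 : |a' - a| ≤ da) (h2 : |b' - b| ≤ db)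
    (hb : |b'| ≤ B) (ha : |a| ≤ A) : |a' * b' - a * b| ≤ da * B + A * db := by
  have h : a' * b' - a * b = (a' - a) * b' + a * (b' - b) := by ring
  rw [h]
  refine (abs_add_le _ _).trans (add_le_add ?_ ?_)
  · rw [abs_mul]
    exact mul_le_mul h1 hb (abs_nonneg _) ((abs_nonneg _).trans h1)
  · rw [abs_mul]
    exact mul_le_mul ha h2 (abs_nonneg _) ((abs_nonneg _).trans ha)

private lemma ea1_q : ((qE : ℤ) : ℝ) = 4194304 := by norm_num [qE]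

private lemma ea1_QE : ((QE : ℤ) : ℝ) = 2 * 4194304 ^ 6 * 1296 := by
  norm_num [QE, qE]

private lemma ea1_TT (y : ℝ) (h2 : 0 ≤ y) (h3 : y ≤ 1) :
    0 ≤ TT y ∧ TT y ≤ 2 ∧ TT y ^ 2 = 3 + y ^ 2 := by
  refine ⟨Real.sqrt_nonneg _, ?_, Real.sq_sqrt (by positivity)⟩
  unfold TT
  rw [Real.sqrt_le_iff]
  constructor <;> nlinarith

private lemma ea1_w (x : ℝ) (h0 : 0 ≤ x) (h1 : x ≤ 1) : 1 ≤ wf x ∧ wf x ≤ 1.2248 := by
  unfold wf mf
  constructor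
  · rw [Real.one_le_sqrt]; nlinarith
  · rw [Real.sqrt_le_iff]
    constructor
    · norm_num
    · nlinarith

private lemma ea1_I (x : ℝ) (h0 : 0 ≤ x) (h1 : x ≤ 1) : 0 ≤ 1 / wf x ∧ 1 / wf x ≤ 1 := by
  obtain ⟨h, _⟩ := ea1_w x h0 h1
  constructor
  · positivity
  · rw [div_le_one (by linarith)]; exact h

private lemma ea1_M (x y : ℝ) (h0 : 0 ≤ x) (h1 : x ≤ 1) (h2 : 0 ≤ y) (h3 : y ≤ 1) :
    1 ≤ mY x y ∧ mY x y ≤ 1.2248 := by
  have hx : x ^ 2 ≤ 1 := by nlinarith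
  have hy : y ^ 2 ≤ 1 := by nlinarith
  have hx0 : 0 ≤ x ^ 2 := sq_nonneg x
  have hy0 : 0 ≤ y ^ 2 := sq_nonneg y
  have hm : (1 + x ^ 2 / 2) * y ^ 2 ≤ 3 / 2 := by nlinarith
  have hm0 : 0 ≤ (1 + x ^ 2 / 2) * y ^ 2 := by positivity
  unfold mY mf
  constructor
  · rw [Real.one_le_sqrt]; linarith
  · rw [Real.sqrt_le_iff]
    constructor
    · norm_num
    · norm_num
      linarith

private lemma ea1_r15 : 1.2247 ≤ r15 ∧ r15 ≤ 1.2248 := by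
  unfold r15
  constructor
  · apply Real.le_sqrt_of_sq_le; norm_num
  · rw [Real.sqrt_le_iff]; norm_num

private lemma ea1_c15 : |((c15n : ℤ) : ℝ) / 4194304 - r15| ≤ 1 / 4194304 := by
  have hc : ((c15n : ℤ) : ℝ) = 5136952 := by norm_num [c15n]
  rw [hc, abs_le]
  unfold r15
  constructor
  · have : √(3 / 2 : ℝ) ≤ 5136953 / 4194304 := by
      rw [Real.sqrt_le_iff]; norm_num
    linarith
  · have : (5136951 : ℝ) / 4194304 ≤ √(3 / 2 : ℝ) := by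
      apply Real.le_sqrt_of_sq_le; norm_num
    linarith

private lemma ea1_ep : ((epn : ℤ) : ℝ) / (2 * 4194304 ^ 6 * 1296) = 192 / 4194304 := by
  norm_num [epn]

/-- exact value of `UE1` -/
private lemma ea1_uE1 (x y : ℝ) : uv x y UE1 =
    3 / 2 * (ev x y Tn / 4194304) + (ev x y Tn / 4194304) * (ev x y In / 4194304) *
      (3 / 2 * (ev x y Mn / (1296 * 4194304)) - (c15n : ℝ) / 4194304) - 3 - y ^ 2 +
      192 / 4194304 := by
  unfold uv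
  rw [ev_eqP x y _ _ kE1]
  have h : ev x y [[0, 0, 1]] = y ^ 2 := by
    simp [ev, evL]; ring
  unfold FE1
  rw [ev_sumP]
  simp only [List.map_cons, List.map_nil, List.sum_cons, List.sum_nil, ev_pSm, ev_pMul, ev_cP, h]
  rw [← ea1_ep]
  push_cast
  rw [ea1_q, ea1_QE]
  ring

private lemma ea1_uE1b (x y : ℝ) : uv x y UE1b =
    3 / 2 * (ev x y Tn / 4194304) - (c15n : ℝ) / 4194304 * (1 + x / 2) *
      ((ev x y Tn / 4194304) * (ev x y In / 4194304)) + 192 / 4194304 := by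
  unfold uv
  rw [ev_eqP x y _ _ kE1b]
  have h : ev x y [[2], [1]] = 2 + x := by
    simp [ev, evL]
  unfold FE1b
  rw [ev_sumP]
  simp only [List.map_cons, List.map_nil, List.sum_cons, List.sum_nil, ev_pSm, ev_pMul, ev_cP, h]
  rw [← ea1_ep]
  push_cast
  rw [ea1_q, ea1_QE]
  ring

private lemma ea1_uE3b (x y : ℝ) : uv x y UE3b =
    3 / 2 * (ev x y Tn / 4194304) - (c15n : ℝ) / 4194304 *
      ((ev x y Tn / 4194304) * (ev x y Wn / 4194304)) + 192 / 4194304 := by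
  unfold uv
  rw [ev_eqP x y _ _ kE3b]
  unfold FE3b
  rw [ev_sumP]
  simp only [List.map_cons, List.map_nil, List.sum_cons, List.sum_nil, ev_pSm, ev_pMul, ev_cP]
  rw [← ea1_ep]
  push_cast
  rw [ea1_q, ea1_QE]
  ring

/-- the product `T I` -/
private lemma ea1_TI (x y : ℝ) (h0 : 0 ≤ x) (h1 : x ≤ 1) (h2 : 0 ≤ y) (h3 : y ≤ 1) :
    |ev x y Tn / 4194304 - TT y| ≤ 20 / 4194304 ∧
    |(ev x y Tn / 4194304) * (ev x y In / 4194304) - TT y * (1 / wf x)| ≤ 73 / 4194304 := by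
  have hT := ap_T x y h2 h3
  have hI := ap_I x y h0 h1
  rw [ea1_q] at hT hI
  obtain ⟨t0, t1, _⟩ := ea1_TT y h2 h3
  obtain ⟨i0, i1⟩ := ea1_I x h0 h1
  refine ⟨hT, ?_⟩
  have hI' : |ev x y In / 4194304| ≤ 1 + 26 / 4194304 := by
    rw [abs_le] at hI ⊢
    constructor <;> linarith [hI.1, hI.2]
  have hTa : |TT y| ≤ 2 := by rw [abs_of_nonneg t0]; exact t1
  refine (ea1_mul hT hI hI' hTa).trans ?_
  norm_num

private lemma ea1_mid (x y : ℝ) (h0 : 0 ≤ x) (h1 : x ≤ 1) (h2 : 0 ≤ y) (h3 : y ≤ 1) :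
    |(ev x y Tn / 4194304) * (ev x y In / 4194304)| ≤ 2.001 ∧
    |3 / 2 * (ev x y Mn / (1296 * 4194304)) - (c15n : ℝ) / 4194304| ≤ 0.626 ∧
    |(ev x y Tn / 4194304) * (ev x y In / 4194304) *
      (3 / 2 * (ev x y Mn / (1296 * 4194304)) - (c15n : ℝ) / 4194304) -
      TT y * (1 / wf x) * (3 / 2 * mY x y - r15)| ≤ 65 / 4194304 := by
  obtain ⟨hT, hTI⟩ := ea1_TI x y h0 h1 h2 h3
  have hM := ap_M x y h0 h1 h2 h3
  rw [ea1_q] at hM
  obtain ⟨t0, t1, _⟩ := ea1_TT y h2 h3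
  obtain ⟨i0, i1⟩ := ea1_I x h0 h1
  obtain ⟨m0, m1⟩ := ea1_M x y h0 h1 h2 h3
  obtain ⟨r0, r1⟩ := ea1_r15
  have hc := ea1_c15
  have hTI0 : 0 ≤ TT y * (1 / wf x) := mul_nonneg t0 i0
  have hTI1 : TT y * (1 / wf x) ≤ 2 := by nlinarith
  have hMc : |(3 / 2 * (ev x y Mn / (1296 * 4194304)) - (c15n : ℝ) / 4194304) -
      (3 / 2 * mY x y - r15)| ≤ 7 / 4194304 := by
    rw [abs_le] at hM hc ⊢
    constructor <;> linarith [hM.1, hM.2, hc.1, hc.2]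
  have hB : |3 / 2 * (ev x y Mn / (1296 * 4194304)) - (c15n : ℝ) / 4194304| ≤ 0.626 := by
    rw [abs_le] at hMc ⊢
    constructor <;> norm_num at * <;> linarith [hMc.1, hMc.2]
  have hA : |TT y * (1 / wf x)| ≤ 2 := by rw [abs_of_nonneg hTI0]; exact hTI1
  refine ⟨?_, hB, ?_⟩
  · rw [abs_le] at hTI ⊢
    constructor <;> norm_num at * <;> linarith [hTI.1, hTI.2]
  · refine (ea1_mul hTI hMc hB hA).trans ?_
    norm_num

theorem ea_E1 (x y : ℝ) (h0 : 0 ≤ x) (h1 : x ≤ 1) (h2 : 0 ≤ y) (h3 : y ≤ 1) :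
    E1 x y ≤ uv x y UE1 := by
  rw [ea1_uE1]
  obtain ⟨hT, hTI⟩ := ea1_TI x y h0 h1 h2 h3
  obtain ⟨_, _, hm⟩ := ea1_mid x y h0 h1 h2 h3
  obtain ⟨t0, t1, t2⟩ := ea1_TT y h2 h3
  have hE : E1 x y = 3 / 2 * TT y + TT y * (1 / wf x) * (3 / 2 * mY x y - r15) - 3 - y ^ 2 := by
    unfold E1
    have : TT y * (3 / 2 + 3 / 2 * mY x y / wf x - r15 / wf x - TT y) =
      3 / 2 * TT y + TT y * (1 / wf x) * (3 / 2 * mY x y - r15) - TT y ^ 2 := by ring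
    rw [this, t2]; ring
  rw [hE]
  rw [abs_le] at hT hm
  have e : (192:ℝ) / 4194304 = 192 * (1 / 4194304) := by norm_num
  have e1 : (65:ℝ) / 4194304 = 65 * (1 / 4194304) := by norm_num
  have e2 : (20:ℝ) / 4194304 = 20 * (1 / 4194304) := by norm_num
  have e3 : (0:ℝ) < 1 / 4194304 := by norm_num
  rw [e]
  rw [e1] at hm
  rw [e2] at hT
  linarith [hT.1, hT.2, hm.1, hm.2]

theorem ea_E1b (x y : ℝ) (h0 : 0 ≤ x) (h1 : x ≤ 1) (h2 : 0 ≤ y) (h3 : y ≤ 1) :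
    E1b x y ≤ uv x y UE1b := by
  rw [ea1_uE1b]
  obtain ⟨hT, hTI⟩ := ea1_TI x y h0 h1 h2 h3
  obtain ⟨hp, _, _⟩ := ea1_mid x y h0 h1 h2 h3
  obtain ⟨r0, r1⟩ := ea1_r15
  have hc := ea1_c15
  have hr : |r15| ≤ 1.2248 := by
    rw [abs_le]; constructor <;> norm_num at * <;> linarith
  have h := ea1_mul hc hTI hp hr
  have hx : |(1 + x / 2) * (((c15n : ℤ) : ℝ) / 4194304 *
      ((ev x y Tn / 4194304) * (ev x y In / 4194304)) - r15 * (TT y * (1 / wf x)))| ≤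
      3 / 2 * (1 / 4194304 * 2.001 + 1.2248 * (73 / 4194304)) := by
    rw [abs_mul]
    refine mul_le_mul ?_ h (abs_nonneg _) (by norm_num)
    rw [abs_le]; constructor <;> linarith
  have hE : E1b x y = 3 / 2 * TT y - (1 + x / 2) * (r15 * (TT y * (1 / wf x))) := by
    unfold E1b; ring
  rw [hE]
  rw [abs_le] at hT hx
  norm_num at hT hx ⊢
  linarith [hT.1, hT.2, hx.1, hx.2]

theorem ea_E3b (x y : ℝ) (h0 : 0 ≤ x) (h1 : x ≤ 1) (h2 : 0 ≤ y) (h3 : y ≤ 1) :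
    E3b x y ≤ uv x y UE3b := by
  rw [ea1_uE3b]
  obtain ⟨hT, _⟩ := ea1_TI x y h0 h1 h2 h3
  obtain ⟨t0, t1, t2⟩ := ea1_TT y h2 h3
  obtain ⟨w0, w1⟩ := ea1_w x h0 h1
  obtain ⟨r0, r1⟩ := ea1_r15
  have hc := ea1_c15
  have hW := ap_W x y h0 h1
  rw [ea1_q] at hW
  have hr : |r15| ≤ 1.2248 := by
    rw [abs_le]; constructor <;> norm_num at * <;> linarith
  have hTa : |TT y| ≤ 2 := by rw [abs_of_nonneg t0]; exact t1
  have hW' : |ev x y Wn / 4194304| ≤ 1.2249 := by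
    rw [abs_le] at hW ⊢
    constructor <;> norm_num at * <;> linarith [hW.1, hW.2]
  have hTW := ea1_mul hT hW hW' hTa
  have hTW' : |TT y * wf x| ≤ 2.4496 := by
    rw [abs_of_nonneg (by positivity)]
    norm_num at *
    nlinarith
  have hp : |ev x y Tn / 4194304 * (ev x y Wn / 4194304)| ≤ 2.45 := by
    rw [abs_le] at hTW hTW' ⊢
    constructor <;> norm_num at * <;> linarith [hTW.1, hTW.2, hTW'.1, hTW'.2]
  have h := ea1_mul hc hTW hp hr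
  have hE : E3b x y = 3 / 2 * TT y - r15 * (TT y * wf x) := by
    unfold E3b; ring
  rw [hE]
  rw [abs_le] at hT h
  norm_num at hT h ⊢
  linarith [hT.1, hT.2, h.1, h.2]

/-- a crude bound -/
theorem ea_bd (x y : ℝ) (h0 : 0 ≤ x) (h1 : x ≤ 1) (h2 : 0 ≤ y) (h3 : y ≤ 1) :
    |uv x y UE1| ≤ 10 := by
  rw [ea1_uE1]
  obtain ⟨hT, hTI⟩ := ea1_TI x y h0 h1 h2 h3
  obtain ⟨hp, hB, _⟩ := ea1_mid x y h0 h1 h2 h3
  obtain ⟨t0, t1, t2⟩ := ea1_TT y h2 h3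
  have h := mul_le_mul hp hB (abs_nonneg _) (by norm_num : (0:ℝ) ≤ 2.001)
  rw [← abs_mul] at h
  have hy : y ^ 2 ≤ 1 := by nlinarith
  have hy0 : 0 ≤ y ^ 2 := sq_nonneg y
  rw [abs_le] at hT h ⊢
  norm_num at hT h ⊢
  constructor <;> linarith [hT.1, hT.2, h.1, h.2]

end Pool.Agent.MSQ
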