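import Pool.Agent.MSQ.PlF
import Pool.Agent.MSQ.KH
import Pool.Agent.MSQ.EA1
/-!
SFa (120 lines). Facts in the sliver, on the interface y = 1, and the comparison of the two reference functions
on y = 1.

NOTATION: X = cc x, Y = w y/√3, w = wf x, N = Nf y, l = lf(X,Y) = w N (lf_chart), L = l - J.f.
PROOF. `sfa`: AS.u = (L(X,Y) - Y/2 - cc/2)/w because (starS).u w = wN - w y/(2√3) - cc/2. u0: h.upp (Y ≤ 1:
 1.2248*1.25/1.732 < 1). u1: h.low: L ≤ l - X/2 - cc/2 + δ, so L - Y/2 - cc/2 ≤ l - X/2 - Y/2 - cc + δ ≤ 1.52 - .7 + 1 ≤ 2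
 (l² = w²N² ≤ 1.5*(1+25/48) < 2.3104). q1: AS.q = (lJ.fY - J.fY - 1/2)/√3 at (X,Y), since lJ.fY = Y/l =
 y/(√3 N); pl5. Second order: AS.mu = 1/(3N³) - μ_H, AS.ka = 1/N - κ_H, AS.nu = -ν_H and kh.
`star1`: N(1) = 2/√3, 1/N(1) = √3/2 = s3, so starS x 1 and starC x 1 have the same u, q, p, nu, ka.
`if1`: u0, u1 as for the sliver at y = 1 (same u by star1), q1, q2 from pl5 (-(1/2+δ) ≤ L_Y, so q ≥ -2/√3 ≥ -3);
 U1: pl1 at y = 1: X ≤ mY x 1/√3 for x ≤ 1 (x²/2 ≤ (1 + (1+x²/2)/3)/3), then as in CFa (U1):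
 3N u ≤ E1 x 1 + 4δ ≤ uv x 1 UE1 + 10δ (ea_E1). Here mY x y = √(1+Y²).
-/
namespace Pool.Agent.MSQ

private theorem sfa_cc_pos : 0 < cc := by
  unfold cc; positivity
private theorem sfa_cc_sq : cc ^ 2 = 1 / 2 := by
  unfold cc; rw [div_pow, Real.sq_sqrt (by norm_num)]; norm_num
private theorem sfa_cc_le : cc ≤ 1 := by
  nlinarith [sfa_cc_sq, sfa_cc_pos]
private theorem sfa_cc_ge : 1 / 2 ≤ cc := by
  nlinarith [sfa_cc_sq, sfa_cc_pos]
private theorem sfa_s3 : √3 ^ 2 = 3 := Real.sq_sqrt (by norm_num)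
private theorem sfa_s3p : 0 < √3 := by positivity
private theorem sfa_s31 : 1 ≤ √3 := by
  rw [Real.one_le_sqrt]; norm_num
private theorem sfa_s32 : √3 ≤ 2 := by
  rw [Real.sqrt_le_left (by norm_num)]; norm_num
private theorem sfa_w1 (x : ℝ) : 1 ≤ wf x := by
  unfold wf mf
  rw [Real.one_le_sqrt]
  nlinarith [sq_nonneg x]
private theorem sfa_w2 (x : ℝ) : wf x ^ 2 = 1 + x ^ 2 / 2 := by
  unfold wf mf
  exact Real.sq_sqrt (by positivity)
private theorem sfa_N2 (y : ℝ) : Nf y ^ 2 = 1 + y ^ 2 / 3 := by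
  unfold Nf
  exact Real.sq_sqrt (by positivity)
private theorem sfa_Np (y : ℝ) : 0 < Nf y := by
  unfold Nf; positivity
private theorem sfa_N1 : Nf 1 = 2 / √3 := by
  have h1 := sfa_N2 1
  have h2 : (2 / √3) ^ 2 = 1 + (1 : ℝ) ^ 2 / 3 := by
    rw [div_pow, sfa_s3]; norm_num
  have h3 := sfa_Np 1
  have h4 : 0 < 2 / √3 := by positivity
  nlinarith [mul_self_inj_of_nonneg h3.le h4.le]

theorem sfa {J : Jet} {δ : ℝ} (h : Hyp J δ) (x y : ℝ) (hx0 : 0 ≤ x) (hx1 : x ≤ 1) (hy0 : 1 ≤ y)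
    (hy1 : y ≤ 5 / 4) : SF δ y (AS J x y) := by
  have hk := kh h x y
  obtain ⟨k1, k2, k3, k4, k5, k6⟩ := hk
  have hw1 := sfa_w1 x
  have hw2 := sfa_w2 x
  have hN2 := sfa_N2 y
  have hNp := sfa_Np y
  have h3 := sfa_s3
  have h3p := sfa_s3p
  have hcp := sfa_cc_pos
  have hc1 := sfa_cc_le
  have hc2 := sfa_cc_ge
  have hlc := lf_chart x y
  have hwp : 0 < wf x := by linarith
  have hd := h.pos
  -- X and Y
  have hX0 : 0 ≤ cc * x := by positivity
  have hX1 : cc * x ≤ cc := by nlinarith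
  have hXa : |cc * x| ≤ cc := by rw [abs_of_nonneg hX0]; exact hX1
  have hXb : |cc * x| ≤ 1 := hXa.trans hc1
  have hY0 : 0 ≤ wf x * y / √3 := by positivity
  have hY1 : wf x * y / √3 ≤ 1 := by
    have e : (wf x * y / √3) ^ 2 ≤ 1 := by
      rw [div_pow, mul_pow, hw2, h3]
      have : (1 + x ^ 2 / 2) * y ^ 2 ≤ (3 / 2) * (25 / 16) := by
        apply mul_le_mul
        · nlinarith
        · nlinarith
        · positivity
        · norm_num
      linarith
    nlinarith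
  have hYb : |wf x * y / √3| ≤ 1 := by rw [abs_of_nonneg hY0]; exact hY1
  have hup := h.upp _ _ hXb hYb
  have hlo := h.low _ _ hXb hYb
  rw [abs_of_nonneg hY0, hlc] at hup
  rw [abs_of_nonneg hX0] at hlo
  have hu : (AS J x y).u = Nf y - y / (2 * √3) - cc / (2 * wf x) -
      J.f (cc * x, wf x * y / √3) / wf x := rfl
  have huw : (AS J x y).u * wf x = wf x * Nf y - wf x * y / √3 / 2 - cc / 2 -
      J.f (cc * x, wf x * y / √3) := by
    rw [hu]
    have := h3p.ne'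
    field_simp
  have hq : (AS J x y).q = y / (3 * Nf y) - 1 / (2 * √3) - J.fY (cc * x, wf x * y / √3) / √3 := rfl
  have hmu : (AS J x y).mu = 1 / (3 * Nf y ^ 3) - (ch J x y).mu := rfl
  have hnu : (AS J x y).nu = 0 - (ch J x y).nu := rfl
  have hka : (AS J x y).ka = 1 / Nf y - (ch J x y).ka := rfl
  refine ⟨?_, ?_, ?_, ?_, ?_, ?_, ?_, ?_, ?_⟩
  · rw [hmu]; linarith
  · rw [hka]; linarith
  · rw [hmu, hnu, hka]
    have : (0 - (ch J x y).nu) ^ 2 = (ch J x y).nu ^ 2 := by ring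
    rw [this]; exact k6
  · rw [hmu]
    have e : 3 * Nf y ^ 3 * (1 / (3 * Nf y ^ 3) - (ch J x y).mu) =
        1 - 3 * Nf y ^ 3 * (ch J x y).mu := by
      field_simp
    rw [e]
    have : 0 ≤ 3 * Nf y ^ 3 * (ch J x y).mu := by positivity
    linarith
  · rw [hka]
    have e : Nf y * (1 / Nf y - (ch J x y).ka) = 1 - Nf y * (ch J x y).ka := by
      field_simp
    rw [e]
    have : 0 ≤ Nf y * (ch J x y).ka := by positivity
    linarith
  · rw [hmu, hnu, hka]
    have e1 : (0 - (ch J x y).nu) ^ 2 = (ch J x y).nu ^ 2 := by ring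
    have e2 : (1 / (3 * Nf y ^ 3) - (1 / (3 * Nf y ^ 3) - (ch J x y).mu)) = (ch J x y).mu := by ring
    have e3 : (1 / Nf y - (1 / Nf y - (ch J x y).ka)) = (ch J x y).ka := by ring
    rw [e1, e2, e3]; exact k3
  · have : -δ ≤ (AS J x y).u * wf x := by rw [huw]; linarith
    by_contra hc
    push Not at hc
    nlinarith
  · have hN : Nf y ≤ 5 / 4 := by
      have : Nf y ^ 2 ≤ (5 / 4) ^ 2 := by rw [hN2]; nlinarith
      exact (pow_le_pow_iff_left₀ hNp.le (by norm_num) (by norm_num)).mp this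
    have hle := h.le1
    have e : (AS J x y).u * wf x ≤ 2 * wf x := by
      rw [huw]
      nlinarith
    exact le_of_mul_le_mul_right e hwp
  · rw [hq]
    have e1 : lJ.fY (cc * x, wf x * y / √3) = y / (√3 * Nf y) := by
      have : lJ.fY (cc * x, wf x * y / √3) = (wf x * y / √3) / lf (cc * x, wf x * y / √3) := rfl
      rw [this, hlc]
      field_simp
    have e2 := (pl5 h _ _ hXa hY0 hY1).1
    rw [e1] at e2
    have e3 : y / (3 * Nf y) - 1 / (2 * √3) - J.fY (cc * x, wf x * y / √3) / √3 =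
        (y / (√3 * Nf y) - J.fY (cc * x, wf x * y / √3) - 1 / 2) / √3 := by
      field_simp
      linear_combination (2 * y) * h3
    rw [e3, div_le_iff₀ h3p]
    have := sfa_s31
    nlinarith

theorem star1 (J : Jet) (x : ℝ) : (AS J x 1).u = (AC J x 1).u ∧ (AS J x 1).q = (AC J x 1).q ∧
    (AS J x 1).p = (AC J x 1).p ∧ (AS J x 1).nu = (AC J x 1).nu ∧ (AS J x 1).ka = (AC J x 1).ka ∧
    (FS J x 1).nu = (FC J x 1).nu ∧ (FS J x 1).ka = (FC J x 1).ka := by
  have h3 := sfa_s3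
  have h3p := sfa_s3p
  have hN := sfa_N1
  have hu : (starS x 1).u = (starC x 1).u := by
    show Nf 1 - 1 / (2 * √3) - cc / (2 * wf x) = s3 - cc / (2 * wf x)
    rw [hN]; unfold s3
    have : 2 / √3 - 1 / (2 * √3) = √3 / 2 := by
      field_simp
      rw [h3]; norm_num
    rw [this]
  have hq : (starS x 1).q = (starC x 1).q := by
    show 1 / (3 * Nf 1) - 1 / (2 * √3) = 0
    rw [hN]
    have : 1 / (3 * (2 / √3)) - 1 / (2 * √3) = 0 := by
      field_simp
      rw [h3]; norm_num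
    exact this
  have hk : (starS x 1).ka = (starC x 1).ka := by
    show 1 / Nf 1 = s3
    rw [hN]; unfold s3
    field_simp
  have hp : (starS x 1).p = (starC x 1).p := rfl
  have hn : (starS x 1).nu = (starC x 1).nu := rfl
  have e4 : (AS J x 1).nu = (AC J x 1).nu := rfl
  have e5 : (AS J x 1).ka = (AC J x 1).ka := by
    show (starS x 1).ka - (ch J x 1).ka = (starC x 1).ka - (ch J x 1).ka
    rw [hk]
  refine ⟨?_, ?_, rfl, e4, e5, ?_, ?_⟩
  · show (starS x 1).u - (ch J x 1).u = (starC x 1).u - (ch J x 1).u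
    rw [hu]
  · show (starS x 1).q - (ch J x 1).q = (starC x 1).q - (ch J x 1).q
    rw [hq]
  · show ((starS x 1).nu - (lSt x 1).nu) - ((AS J x 1).nu - (starS x 1).nu) =
      ((starC x 1).nu - (lSt x 1).nu) - ((AC J x 1).nu - (starC x 1).nu)
    rw [hn, e4]
  · show ((starS x 1).ka - (lSt x 1).ka) - ((AS J x 1).ka - (starS x 1).ka) =
      ((starC x 1).ka - (lSt x 1).ka) - ((AC J x 1).ka - (starC x 1).ka)
    rw [hk, e5]

theorem if1 {J : Jet} {δ : ℝ} (h : Hyp J δ) (x : ℝ) (hx0 : 0 ≤ x) (hx1 : x ≤ 1) :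
    IF1 δ x (AC J x 1) := by
  have hs := sfa h x 1 hx0 hx1 le_rfl (by norm_num)
  obtain ⟨s1, s2, -, -, -, -, -⟩ := star1 J x
  have hw1 := sfa_w1 x
  have hw2 := sfa_w2 x
  have h3 := sfa_s3
  have h3p := sfa_s3p
  have hcp := sfa_cc_pos
  have hc1 := sfa_cc_le
  have hcs := sfa_cc_sq
  have hlc := lf_chart x 1
  have hwp : 0 < wf x := by linarith
  have hd := h.pos
  have hX0 : 0 ≤ cc * x := by positivity
  have hX1 : cc * x ≤ cc := by nlinarith
  have hXa : |cc * x| ≤ cc := by rw [abs_of_nonneg hX0]; exact hX1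
  have hY0 : 0 ≤ wf x * 1 / √3 := by positivity
  have hY2 : (wf x * 1 / √3) ^ 2 = (1 + x ^ 2 / 2) / 3 := by
    rw [div_pow, mul_pow, hw2, h3]; ring
  have hY1 : wf x * 1 / √3 ≤ 1 := by
    nlinarith
  have hYb : |wf x * 1 / √3| ≤ 1 := by rw [abs_of_nonneg hY0]; exact hY1
  refine ⟨?_, ?_, ?_, ?_, ?_⟩
  · rw [← s1]; exact hs.u0
  · rw [← s1]; exact hs.u1
  · rw [← s2]; exact hs.q1
  · rw [← s2]
    have hq : (AS J x 1).q = 1 / (3 * Nf 1) - 1 / (2 * √3) -
      J.fY (cc * x, wf x * 1 / √3) / √3 := rfl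
    rw [hq]
    have hNp := sfa_Np 1
    have e1 : lJ.fY (cc * x, wf x * 1 / √3) = 1 / (√3 * Nf 1) := by
      have : lJ.fY (cc * x, wf x * 1 / √3) = (wf x * 1 / √3) / lf (cc * x, wf x * 1 / √3) := rfl
      rw [this, hlc]
      field_simp
    have e2 := (pl5 h _ _ hXa hY0 hY1).2
    rw [e1] at e2
    have e3 : 1 / (3 * Nf 1) - 1 / (2 * √3) - J.fY (cc * x, wf x * 1 / √3) / √3 =
        (1 / (√3 * Nf 1) - J.fY (cc * x, wf x * 1 / √3) - 1 / 2) / √3 := by
      field_simp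
      linear_combination 2 * h3
    rw [e3, le_div_iff₀ h3p]
    have := sfa_s31
    have := h.le1
    nlinarith
  · have hM2 : mY x 1 ^ 2 = 1 + (1 + x ^ 2 / 2) / 3 := by
      unfold mY mf
      rw [Real.sq_sqrt (by positivity)]
      ring
    have hMY : √(1 + (wf x * 1 / √3) ^ 2) = mY x 1 := by
      unfold mY mf
      rw [hY2]
      congr 1
      ring
    have hMp : 0 ≤ mY x 1 := Real.sqrt_nonneg _
    have hXM : |cc * x| ≤ √(1 + (wf x * 1 / √3) ^ 2) / √3 := by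
      rw [hMY, abs_of_nonneg hX0, le_div_iff₀ h3p]
      have : (cc * x * √3) ^ 2 ≤ mY x 1 ^ 2 := by
        rw [mul_pow, mul_pow, hcs, h3, hM2]
        nlinarith
      exact (pow_le_pow_iff_left₀ (by positivity) hMp (by norm_num)).mp this
    have hp := pl1 h (cc * x) (wf x * 1 / √3) hYb hXM
    rw [hMY, hlc] at hp
    have hu : (AC J x 1).u = s3 - cc / (2 * wf x) - J.f (cc * x, wf x * 1 / √3) / wf x := rfl
    have hN := sfa_N1
    have hea := ea_E1 x 1 hx0 hx1 (by norm_num) le_rfl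
    have hTT : TT 1 = 2 := by
      unfold TT
      have : (3 : ℝ) + 1 ^ 2 = 2 ^ 2 := by norm_num
      rw [this, Real.sqrt_sq (by norm_num)]
    have hr : r15 = √3 * cc := by
      unfold r15 cc
      rw [Real.sqrt_div (by norm_num)]
      ring
    have hE : E1 x 1 = 2 * (3 / 2 + 3 / 2 * mY x 1 / wf x - √3 * cc / wf x - 2) := by
      unfold E1
      rw [hTT, hr]
    have key : 3 * Nf 1 * (AC J x 1).u ≤ E1 x 1 + 2 * √3 * (δ / wf x) := by
      have e1 : (AC J x 1).u * wf x ≤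
          s3 * wf x - cc + s3 * mY x 1 + δ - wf x * Nf 1 := by
        have : (AC J x 1).u * wf x = s3 * wf x - cc / 2 - J.f (cc * x, wf x * 1 / √3) := by
          rw [hu]
          field_simp
        rw [this]
        linarith
      have e2 : (AC J x 1).u ≤ (s3 * wf x - cc + s3 * mY x 1 + δ - wf x * Nf 1) / wf x := by
        rw [le_div_iff₀ hwp]; exact e1
      have e3 : 3 * Nf 1 = 2 * √3 := by
        rw [hN]
        field_simp
        rw [h3]
      rw [e3, hE]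
      have e4 := mul_le_mul_of_nonneg_left e2 (show 0 ≤ 2 * √3 by positivity)
      have e5 : 2 * √3 * ((s3 * wf x - cc + s3 * mY x 1 + δ - wf x * Nf 1) / wf x) =
          2 * (3 / 2 + 3 / 2 * mY x 1 / wf x - √3 * cc / wf x - 2) + 2 * √3 * (δ / wf x) := by
        rw [hN]
        unfold s3
        field_simp
        ring_nf
        rw [h3]
        ring
      rw [e5] at e4
      exact e4
    have e6 : 2 * √3 * (δ / wf x) ≤ 10 * δ := by
      have e7 : δ / wf x ≤ δ := div_le_self hd.le hw1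
      have e8 : 0 ≤ δ / wf x := by positivity
      have := sfa_s32
      nlinarith
    linarith

end Pool.Agent.MSQ
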