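import Pool.Agent.MSQ.KH
/-!
Edge (90 lines). On the arms the first order data of A are small.

NOTATION: X = cc x, Y = w y/√3, w = wf x, N = Nf y, l = w N (lf_chart), 1 ≤ w ≤ 1.2248, cc ≤ .70711.
PROOF. For a function F with first derivatives: u = F/w, q = F_Y/√3, p = cc(w F_X + cc x y F_Y/√3 - cc x F/w); if
|F|, |F_X|, |F_Y| ≤ δ and 0 ≤ x ≤ 1, 0 ≤ y ≤ 5/4, then |u| ≤ δ, |q| ≤ δ, |p| ≤ cc(1.2248 + .7072*1.25/1.732 + .7072)δ ≤ 2δ.
`edgeC`: x = 1: X = cc, w = √(3/2), Y = cc y ≤ cc. The star function is F* = s3 √(1+X²) - cc/2; at X = cc it has value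
 cc = X/2 + cc/2 and F*_X = 1/2, F*_Y = 0 (check that starC 1 y is the state of these values: u = cc/w, q = 0,
 p = cc(w/2 - cc·cc/w) = cc/(4w)), so AC is the state of F* - H with |F| ≤ δ etc. by h.aX0, h.aX1, h.aX2.
`edgeS`: w y ≥ √(3/2) means Y ≥ cc; Y ≤ w (5/4)/√3 ≤ 1. starS is the state of l - Y/2 - cc/2:
 u = (wN - Y/2 - cc/2)/w, q = (l_Y - 1/2)/√3 with l_Y = Y/l = y/(√3N), p: w l_X + cc x y l_Y/√3 - cc x l/w = 0
 (l_X = cc x/(wN)), Y/2 has p = 0, -cc/2 gives + cc x/(4w)·(cc=1/√2: cc·cc x (cc/2)/w = cc x/(4w)).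
 AS = state of L - Y/2 - cc/2 with derivatives L_X, L_Y - 1/2: h.aY0, h.aY1, h.aY2 (|X| ≤ cc, cc ≤ |Y| = Y ≤ 1).
-/
namespace Pool.Agent.MSQ

private lemma Edge_cc_pos : 0 < cc := by unfold cc; positivity

private lemma Edge_cc_sq : cc ^ 2 = 1 / 2 := by
  unfold cc
  rw [div_pow, Real.sq_sqrt (by norm_num)]; norm_num

private lemma Edge_cc_le : cc ≤ 1 := by
  nlinarith [Edge_cc_sq, Edge_cc_pos]

private lemma Edge_w_sq (x : ℝ) : wf x ^ 2 = 1 + x ^ 2 / 2 := by
  unfold wf mf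
  exact Real.sq_sqrt (by positivity)

private lemma Edge_w_nonneg (x : ℝ) : 0 ≤ wf x := Real.sqrt_nonneg _

private lemma Edge_w_one (x : ℝ) : 1 ≤ wf x := by
  unfold wf mf
  rw [Real.one_le_sqrt]
  nlinarith [sq_nonneg x]

private lemma Edge_ccw {x : ℝ} (hx0 : 0 ≤ x) (hx1 : x ≤ 1) : cc * wf x ≤ 1 := by
  have h : (cc * wf x) ^ 2 ≤ 1 ^ 2 := by
    rw [mul_pow, Edge_cc_sq, Edge_w_sq]; nlinarith
  exact le_of_sq_le_sq h (by norm_num)
  where
  le_of_sq_le_sq {a b : ℝ} (h : a ^ 2 ≤ b ^ 2) (hb : 0 ≤ b) : a ≤ b := by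
    nlinarith [abs_le_of_sq_le_sq' h hb]

private lemma Edge_s3_sq : √3 ^ 2 = (3 : ℝ) := Real.sq_sqrt (by norm_num)

private lemma Edge_s3_one : (1 : ℝ) ≤ √3 := by rw [Real.one_le_sqrt]; norm_num

private lemma Edge_r : √(3 / 2) = √3 * cc := by
  rw [Real.sqrt_eq_iff_mul_self_eq (by norm_num) (by have := Edge_cc_pos; positivity)]
  have h1 := Edge_cc_sq
  have h2 := Edge_s3_sq
  nlinarith

private lemma Edge_w1 : wf 1 = √3 * cc := by
  rw [← Edge_r]; unfold wf mf; norm_num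

private lemma Edge_bound {w a b c t s δ : ℝ} (hδ : 0 ≤ δ) (hcw : cc * w ≤ 1) (hw : 1 ≤ w)
    (ht0 : 0 ≤ t) (ht : t ≤ 1) (hs0 : 0 ≤ s) (hs : s ≤ 1) (ha : |a| ≤ δ) (hb : |b| ≤ δ) (hc : |c| ≤ δ) :
    |cc * (w * a + cc * t * b - cc * s * c / w)| ≤ 2 * δ := by
  have h0 := Edge_cc_pos
  have hq := Edge_cc_sq
  have e : cc * (w * a + cc * t * b - cc * s * c / w) =
      (cc * w) * a + cc ^ 2 * t * b - cc ^ 2 * (s / w) * c := by
    field_simp
  have hsw0 : 0 ≤ s / w := by positivity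
  have hsw : s / w ≤ 1 := by rw [div_le_one (by linarith)]; linarith
  rw [e, hq]
  have b1 : |(cc * w) * a| ≤ 1 * δ := by
    rw [abs_mul, abs_of_nonneg (by positivity : 0 ≤ cc * w)]
    exact mul_le_mul hcw ha (abs_nonneg _) (by norm_num)
  have b2 : |1 / 2 * t * b| ≤ 1 / 2 * δ := by
    rw [abs_mul, abs_of_nonneg (by positivity : 0 ≤ 1 / 2 * t)]
    exact mul_le_mul (by linarith) hb (abs_nonneg _) (by norm_num)
  have b3 : |1 / 2 * (s / w) * c| ≤ 1 / 2 * δ := by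
    rw [abs_mul, abs_of_nonneg (by positivity : 0 ≤ 1 / 2 * (s / w))]
    exact mul_le_mul (by linarith) hc (abs_nonneg _) (by norm_num)
  rw [abs_le] at b1 b2 b3 ⊢
  constructor <;> linarith [b1.1, b1.2, b2.1, b2.2, b3.1, b3.2]

private lemma Edge_div {a c δ : ℝ} (hc : 1 ≤ c) (ha : |a| ≤ δ) : |a / c| ≤ δ := by
  rw [abs_div, abs_of_pos (by linarith : 0 < c)]
  exact (div_le_self (abs_nonneg _) hc).trans ha

theorem edgeC {J : Jet} {δ : ℝ} (h : Hyp J δ) (y : ℝ) (hy0 : 0 ≤ y) (hy1 : y ≤ 1) :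
    |(AC J 1 y).u| ≤ δ ∧ |(AC J 1 y).q| ≤ δ ∧ |(AC J 1 y).p| ≤ 2 * δ := by
  have h0 := Edge_cc_pos
  have hq := Edge_cc_sq
  have hcl := Edge_cc_le
  have h3 := Edge_s3_sq
  have h31 := Edge_s3_one
  have hw := Edge_w_sq 1
  have hw1 := Edge_w_one 1
  have hwe := Edge_w1
  have hwpos : 0 < wf 1 := by linarith
  have h3pos : (0 : ℝ) < √3 := by linarith
  have hz : ((cc * 1, wf 1 * y / √3) : ℝ × ℝ) = (cc, cc * y) := by
    rw [hwe, mul_one]
    congr 1
    field_simp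
  have hX : |cc| = cc := abs_of_pos h0
  have hY : |cc * y| ≤ cc := by
    rw [abs_of_nonneg (by positivity)]
    nlinarith
  have f0 := h.aX0 cc (cc * y) (le_of_eq hX.symm) (by rw [hX]; exact hcl) hY
  have f1 := h.aX1 cc (cc * y) (le_of_eq hX.symm) (by rw [hX]; exact hcl) hY
  have f2 := h.aX2 cc (cc * y) (le_of_eq hX.symm) (by rw [hX]; exact hcl) hY
  rw [hX] at f0
  have hsg : ((SignType.sign cc : SignType) : ℝ) = 1 := by
    rw [sign_pos h0]; norm_num
  rw [hsg] at f1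
  have hδ : 0 ≤ δ := h.pos.le
  simp only [AC, St.sub, starC, ch, hz]
  generalize J.f (cc, cc * y) = f at f0 ⊢
  generalize J.fX (cc, cc * y) = a at f1 ⊢
  generalize J.fY (cc, cc * y) = b at f2 ⊢
  refine ⟨?_, ?_, ?_⟩
  · have e : s3 - cc / (2 * wf 1) - f / wf 1 = -(f - (cc / 2 + cc / 2)) / wf 1 := by
      have : s3 = 3 / 2 * cc / wf 1 := by
        rw [hwe]; unfold s3; field_simp; nlinarith
      rw [this]; field_simp; ring
    rw [e]
    exact Edge_div hw1 (by rw [abs_neg]; exact f0)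
  · have e : (0 : ℝ) - b / √3 = -b / √3 := by ring
    rw [e]
    exact Edge_div h31 (by rw [abs_neg]; exact f2)
  · have e : cc * 1 / (4 * wf 1) - cc * (wf 1 * a + cc * 1 * y * b / √3 - cc * 1 * f / wf 1) =
        cc * (wf 1 * (-(a - 1 / 2)) + cc * (y / √3) * (-b) -
          cc * 1 * (-(f - (cc / 2 + cc / 2))) / wf 1) := by
      have hw2 : wf 1 ^ 2 = 3 / 2 := by rw [hw]; norm_num
      field_simp
      nlinarith [hw2, hq]
    rw [e]
    refine Edge_bound hδ (Edge_ccw (by norm_num) (by norm_num)) hw1 (by positivity) ?_ (by norm_num)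
      (by norm_num) (by rw [abs_neg]; exact f1) (by rw [abs_neg]; exact f2) (by rw [abs_neg]; exact f0)
    rw [div_le_one h3pos]; linarith

theorem edgeS {J : Jet} {δ : ℝ} (h : Hyp J δ) (x y : ℝ) (hx0 : 0 ≤ x) (hx1 : x ≤ 1)
    (hy0 : √(3 / 2) ≤ wf x * y) (hy1 : y ≤ 5 / 4) :
    |(AS J x y).u| ≤ δ ∧ |(AS J x y).q| ≤ δ ∧ |(AS J x y).p| ≤ 2 * δ := by
  have h0 := Edge_cc_pos
  have hq := Edge_cc_sq
  have hcl := Edge_cc_le
  have h3 := Edge_s3_sq
  have h31 := Edge_s3_one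
  have hw := Edge_w_sq x
  have hw1 := Edge_w_one x
  have hccw := Edge_ccw hx0 hx1
  have hwpos : 0 < wf x := by linarith
  have h3pos : (0 : ℝ) < √3 := by linarith
  rw [Edge_r] at hy0
  have hypos : 0 < y := by
    by_contra hn
    push Not at hn
    have : wf x * y ≤ 0 := mul_nonpos_of_nonneg_of_nonpos hwpos.le hn
    have : 0 < √3 * cc := by positivity
    linarith
  have hNpos : 0 < Nf y := by unfold Nf; positivity
  have hN : Nf y ^ 2 = 1 + y ^ 2 / 3 := by unfold Nf; exact Real.sq_sqrt (by positivity)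
  have hX : |cc * x| ≤ cc := by
    rw [abs_of_nonneg (by positivity)]; nlinarith
  have hYp : 0 < wf x * y / √3 := by positivity
  have hYa : |wf x * y / √3| = wf x * y / √3 := abs_of_pos hYp
  have hY0 : cc ≤ |wf x * y / √3| := by
    rw [hYa, le_div_iff₀ h3pos]; linarith
  have hws : wf x ≤ √3 * cc := by
    rw [← Edge_r]; unfold wf mf; apply Real.sqrt_le_sqrt; nlinarith
  have hY1 : |wf x * y / √3| ≤ 1 := by
    rw [hYa, div_le_one h3pos]
    have : wf x * y ≤ √3 * cc * (5 / 4) := mul_le_mul hws hy1 hypos.le (by positivity)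
    have hc8 : cc * (5 / 4) ≤ 1 := by
      have : (cc * (5 / 4)) ^ 2 ≤ 1 ^ 2 := by rw [mul_pow, hq]; norm_num
      exact (abs_le_of_sq_le_sq' this (by norm_num)).2
    nlinarith
  have f0 := h.aY0 (cc * x) (wf x * y / √3) hX hY0 hY1
  have f1 := h.aY1 (cc * x) (wf x * y / √3) hX hY0 hY1
  have f2 := h.aY2 (cc * x) (wf x * y / √3) hX hY0 hY1
  rw [hYa] at f0
  have hsg : ((SignType.sign (wf x * y / √3) : SignType) : ℝ) = 1 := by
    rw [sign_pos hYp]; norm_num
  rw [hsg] at f2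
  simp only [lJ] at f1 f2
  rw [lf_chart] at f0 f1 f2
  have hδ : 0 ≤ δ := h.pos.le
  simp only [AS, St.sub, starS, ch]
  generalize J.f (cc * x, wf x * y / √3) = f at f0 ⊢
  generalize J.fX (cc * x, wf x * y / √3) = a at f1 ⊢
  generalize J.fY (cc * x, wf x * y / √3) = b at f2 ⊢
  refine ⟨?_, ?_, ?_⟩
  · have e : Nf y - y / (2 * √3) - cc / (2 * wf x) - f / wf x =
        (wf x * Nf y - f - (wf x * y / √3 / 2 + cc / 2)) / wf x := by
      field_simp; ring
    rw [e]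
    exact Edge_div hw1 f0
  · have e : y / (3 * Nf y) - 1 / (2 * √3) - b / √3 =
        (wf x * y / √3 / (wf x * Nf y) - b - 1 / 2) / √3 := by
      have : y / (3 * Nf y) = wf x * y / √3 / (wf x * Nf y) / √3 := by
        field_simp; nlinarith
      rw [this]; field_simp; ring
    rw [e]
    exact Edge_div h31 f2
  · have e : cc * x / (4 * wf x) - cc * (wf x * a + cc * x * y * b / √3 - cc * x * f / wf x) =
        cc * (wf x * (cc * x / (wf x * Nf y) - a) +
          cc * (x * y / √3) * (wf x * y / √3 / (wf x * Nf y) - b - 1 / 2) -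
          cc * x * (wf x * Nf y - f - (wf x * y / √3 / 2 + cc / 2)) / wf x) := by
      have k1 : cc * x * (cc / 2) / wf x = x / (4 * wf x) := by
        field_simp; nlinarith [hq]
      have k2 : wf x * (cc * x / (wf x * Nf y)) = cc * x / Nf y := by field_simp
      have k3 : cc * (x * y / √3) * (wf x * y / √3 / (wf x * Nf y)) = cc * x * (y ^ 2 / 3) / Nf y := by
        field_simp; nlinarith [h3]
      have k4 : cc * x / Nf y + cc * x * (y ^ 2 / 3) / Nf y = cc * x * Nf y := by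
        field_simp; nlinarith [hN]
      have k5 : cc * x * (wf x * Nf y - f - (wf x * y / √3 / 2 + cc / 2)) / wf x =
          cc * x * Nf y - cc * x * f / wf x - cc * x * y / √3 / 2 - cc * x * (cc / 2) / wf x := by
        field_simp; ring
      have k6 : cc * (wf x * (cc * x / (wf x * Nf y) - a) +
          cc * (x * y / √3) * (wf x * y / √3 / (wf x * Nf y) - b - 1 / 2) -
          cc * x * (wf x * Nf y - f - (wf x * y / √3 / 2 + cc / 2)) / wf x) =
          cc * ((wf x * (cc * x / (wf x * Nf y)) +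
            cc * (x * y / √3) * (wf x * y / √3 / (wf x * Nf y))) - wf x * a -
            cc * x * y * b / √3 - cc * x * y / √3 / 2 -
          cc * x * (wf x * Nf y - f - (wf x * y / √3 / 2 + cc / 2)) / wf x) := by
        ring
      rw [k6, k5, k2, k3, k4, k1]
      ring
    rw [e]
    refine Edge_bound hδ hccw hw1 (by positivity) ?_ hx0 hx1 f1 f2 f0
    rw [div_le_one h3pos]
    have : x * y ≤ 5 / 4 := by nlinarith
    have : (5 / 4 : ℝ) ≤ √3 := by
      rw [Real.le_sqrt' (by norm_num)]; norm_num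
    linarith

end Pool.Agent.MSQ
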