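import Pool.Agent.MSQ.EvD
import Pool.Agent.MSQ.Bd2
import Pool.Agent.MSQ.Edge
import Pool.Agent.MSQ.HypR
import Pool.Agent.MSQ.StG

/-!
VEdge (130 lines). The gauges are small on the outer edges.

PROOF. Let s be a state with |u|, |q|, |p| ≤ 2δ ≤ 2, |μ|, |ν|, |κ| ≤ 2 and 0 ≤ x ≤ 1, 0 ≤ y ≤ 5/4, 1 ≤ N ≤ 2. Every monomial
of V1q, V2q contains a factor u, q or p: |V1q g x y s| ≤ C_g δ, |V2q g x y s| ≤ C_g δ with C_g = 100·(sum of the bounds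
of ev_bdd for the 13 polynomials of g) (private lemma, for any g : GB). The linear parts of V1S, V2S, V1C:
the same; W1, W2: |W1|, |W2| ≤ 50 δ. The half sum and half difference of two such states are again such states.
On the edges: edgeC, edgeS for J and for J.ry (hyp_ry), bd_AC etc. st_ge, st_ge', st_le give the hypotheses of edgeS.
C is the maximum (sum) of the finitely many constants.
-/

namespace Pool.Agent.MSQ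

private def VEdge_Sm (ε : ℝ) (s : St) : Prop :=
  |s.u| ≤ ε ∧ |s.q| ≤ ε ∧ |s.p| ≤ ε ∧ |s.mu| ≤ 2 ∧ |s.nu| ≤ 2 ∧ |s.ka| ≤ 2

private theorem VEdge_N (y : ℝ) (h0 : 0 ≤ y) (h1 : y ≤ 5 / 4) : 1 ≤ Nf y ∧ Nf y ≤ 2 := by
  unfold Nf
  constructor
  · rw [Real.one_le_sqrt]
    nlinarith [sq_nonneg y]
  · rw [Real.sqrt_le_left (by norm_num)]
    nlinarith

private theorem VEdge_m3 {a b c A B C : ℝ} (ha : |a| ≤ A) (hb : |b| ≤ B) (hc : |c| ≤ C) :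
    |a * b * c| ≤ A * B * C := by
  rw [abs_mul, abs_mul]
  have hA := (abs_nonneg a).trans ha
  have hB := (abs_nonneg b).trans hb
  exact mul_le_mul (mul_le_mul ha hb (abs_nonneg _) hA) hc (abs_nonneg _) (mul_nonneg hA hB)

private theorem VEdge_m2 {a b A B : ℝ} (ha : |a| ≤ A) (hb : |b| ≤ B) :
    |a * b| ≤ A * B := by
  rw [abs_mul]
  have hA := (abs_nonneg a).trans ha
  exact mul_le_mul ha hb (abs_nonneg _) hA

private theorem VEdge_div {a b A : ℝ} (hb : 1 ≤ b) (h : |a| ≤ A) : |a / b| ≤ A := by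
  have hb0 : 0 < b := by linarith
  rw [abs_div, abs_of_pos hb0, div_le_iff₀ hb0]
  nlinarith [abs_nonneg a]

private theorem VEdge_V1 (g : GB) : ∃ C : ℝ, 0 ≤ C ∧ ∀ (x y ε : ℝ) (s : St), 0 ≤ x → x ≤ 1 →
    0 ≤ y → y ≤ 5 / 4 → 0 ≤ ε → ε ≤ 2 → VEdge_Sm ε s → |V1q g x y s| ≤ C * ε := by
  obtain ⟨B1, b1, h1⟩ := ev_bdd g.G11
  obtain ⟨B2, b2, h2⟩ := ev_bdd g.G12
  obtain ⟨B3, b3, h3⟩ := ev_bdd g.G22
  obtain ⟨B4, b4, h4⟩ := ev_bdd g.G13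
  obtain ⟨B5, b5, h5⟩ := ev_bdd g.G23
  obtain ⟨B6, b6, h6⟩ := ev_bdd g.G33
  obtain ⟨B7, b7, h7⟩ := ev_bdd g.K
  refine ⟨B1 + B2 * 2 + B3 + B4 * 2 + B5 * 2 + B6 + B7 * 7, by positivity, ?_⟩
  intro x y ε s hx0 hx1 hy0 hy1 he0 he2 hs
  obtain ⟨su, sq, sp, sm, sn, sk⟩ := hs
  obtain ⟨hN1, hN2⟩ := VEdge_N y hy0 hy1
  have hy2 : y ≤ 2 := by linarith
  have hyq : |y * s.q| ≤ 5 / 2 := by
    rw [abs_mul, abs_of_nonneg hy0]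
    nlinarith [abs_nonneg s.q]
  have hc : |s.ka - s.u + y * s.q| ≤ 7 := by
    rw [abs_le] at su sk hyq ⊢
    constructor <;> linarith
  have e1 := VEdge_m3 (h1 x y hx0 hx1 hy0 hy2) su (su.trans he2)
  have e2 := VEdge_m3 (h2 x y hx0 hx1 hy0 hy2) su (sq.trans he2)
  have e3 := VEdge_m3 (h3 x y hx0 hx1 hy0 hy2) sq (sq.trans he2)
  have e4 := VEdge_m3 (h4 x y hx0 hx1 hy0 hy2) su (sp.trans he2)
  have e5 := VEdge_m3 (h5 x y hx0 hx1 hy0 hy2) sq (sp.trans he2)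
  have e6 := VEdge_m3 (h6 x y hx0 hx1 hy0 hy2) sp (sp.trans he2)
  have e7 := VEdge_m3 (h7 x y hx0 hx1 hy0 hy2) sq hc
  unfold V1q
  refine VEdge_div hN1 ?_
  generalize s.ka - s.u + y * s.q = c at *
  rw [abs_le] at e1 e2 e3 e4 e5 e6 e7 ⊢
  obtain ⟨e1, e1'⟩ := e1
  obtain ⟨e2, e2'⟩ := e2
  obtain ⟨e3, e3'⟩ := e3
  obtain ⟨e4, e4'⟩ := e4
  obtain ⟨e5, e5'⟩ := e5
  obtain ⟨e6, e6'⟩ := e6
  obtain ⟨e7, e7'⟩ := e7
  constructor <;> linarith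

private theorem VEdge_V2 (g : GB) : ∃ C : ℝ, 0 ≤ C ∧ ∀ (x y ε : ℝ) (s : St), 0 ≤ x → x ≤ 1 →
    0 ≤ y → y ≤ 5 / 4 → 0 ≤ ε → ε ≤ 2 → VEdge_Sm ε s → |V2q g x y s| ≤ C * ε := by
  obtain ⟨B1, b1, h1⟩ := ev_bdd g.H11
  obtain ⟨B2, b2, h2⟩ := ev_bdd g.H12
  obtain ⟨B3, b3, h3⟩ := ev_bdd g.H22
  obtain ⟨B4, b4, h4⟩ := ev_bdd g.H13
  obtain ⟨B5, b5, h5⟩ := ev_bdd g.H23
  obtain ⟨B6, b6, h6⟩ := ev_bdd g.H33
  obtain ⟨B7, b7, h7⟩ := ev_bdd g.K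
  refine ⟨B1 + B2 * 2 + B3 + B4 * 2 + B5 * 2 + B6 + B7 * 4, by positivity, ?_⟩
  intro x y ε s hx0 hx1 hy0 hy1 he0 he2 hs
  obtain ⟨su, sq, sp, sm, sn, sk⟩ := hs
  obtain ⟨hN1, hN2⟩ := VEdge_N y hy0 hy1
  have hy2 : y ≤ 2 := by linarith
  have e1 := VEdge_m3 (h1 x y hx0 hx1 hy0 hy2) su (su.trans he2)
  have e2 := VEdge_m3 (h2 x y hx0 hx1 hy0 hy2) su (sq.trans he2)
  have e3 := VEdge_m3 (h3 x y hx0 hx1 hy0 hy2) sq (sq.trans he2)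
  have e4 := VEdge_m3 (h4 x y hx0 hx1 hy0 hy2) su (sp.trans he2)
  have e5 := VEdge_m3 (h5 x y hx0 hx1 hy0 hy2) sq (sp.trans he2)
  have e6 := VEdge_m3 (h6 x y hx0 hx1 hy0 hy2) sp (sp.trans he2)
  have e7 := VEdge_m3 (h7 x y hx0 hx1 hy0 hy2) sq sn
  unfold V2q
  have f1 : |(ev x y g.H11 * s.u ^ 2 / 2 + ev x y g.H12 * s.u * s.q + ev x y g.H22 * s.q ^ 2 / 2 +
    ev x y g.H13 * s.u * s.p + ev x y g.H23 * s.q * s.p + ev x y g.H33 * s.p ^ 2 / 2) / Nf y ^ 3| ≤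
      (B1 + B2 * 2 + B3 + B4 * 2 + B5 * 2 + B6) * ε := by
    refine VEdge_div (one_le_pow₀ hN1) ?_
    rw [abs_le] at e1 e2 e3 e4 e5 e6 ⊢
    obtain ⟨e1, e1'⟩ := e1
    obtain ⟨e2, e2'⟩ := e2
    obtain ⟨e3, e3'⟩ := e3
    obtain ⟨e4, e4'⟩ := e4
    obtain ⟨e5, e5'⟩ := e5
    obtain ⟨e6, e6'⟩ := e6
    constructor <;> linarith
  have f2 : |2 * ev x y g.K * s.q * s.nu / Nf y| ≤ B7 * 4 * ε := by
    refine VEdge_div hN1 ?_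
    rw [abs_le] at e7 ⊢
    obtain ⟨e7, e7'⟩ := e7
    constructor <;> linarith
  refine (abs_sub _ _).trans ?_
  linarith

private theorem VEdge_W {y ε : ℝ} {s v : St} (hy0 : 0 ≤ y) (hy1 : y ≤ 5 / 4) (he0 : 0 ≤ ε)
    (hs : VEdge_Sm ε s) (hv : Bd v) : |W1 y s v| ≤ 20 * ε ∧ |W2 y s v| ≤ 20 * ε := by
  obtain ⟨su, sq, sp, _, _, _⟩ := hs
  obtain ⟨vm, vn, vk⟩ := hv
  obtain ⟨hN1, hN2⟩ := VEdge_N y hy0 hy1
  have hN0 : 0 < Nf y := by linarith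
  have hNa : |Nf y| ≤ 2 := by rw [abs_of_pos hN0]; exact hN2
  have hya : |y / (3 * Nf y)| ≤ 1 := by
    rw [abs_of_nonneg (by positivity), div_le_one (by positivity)]
    linarith
  have a1 := VEdge_m3 hNa vk sq
  have a2 := VEdge_m3 hNa vn sp
  have a3 := VEdge_m3 hya vk su
  have a4 := VEdge_m3 hNa vm sp
  have a5 := VEdge_m3 hNa vn sq
  have a6 := VEdge_m3 hya vn su
  unfold W1 W2
  generalize y / (3 * Nf y) = t at *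
  rw [abs_le] at a1 a2 a3 a4 a5 a6
  rw [abs_le, abs_le]
  obtain ⟨a1, a1'⟩ := a1
  obtain ⟨a2, a2'⟩ := a2
  obtain ⟨a3, a3'⟩ := a3
  obtain ⟨a4, a4'⟩ := a4
  obtain ⟨a5, a5'⟩ := a5
  obtain ⟨a6, a6'⟩ := a6
  refine ⟨⟨?_, ?_⟩, ?_, ?_⟩ <;> linarith

private theorem VEdge_avg {a b c : ℝ} (ha : |a| ≤ c) (hb : |b| ≤ c) :
    |(a + b) / 2| ≤ c ∧ |(a - b) / 2| ≤ c := by
  rw [abs_le] at ha hb
  rw [abs_le, abs_le]
  refine ⟨⟨?_, ?_⟩, ?_, ?_⟩ <;> linarith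

private theorem VEdge_hsd {ε : ℝ} {s t : St} (hs : VEdge_Sm ε s) (ht : VEdge_Sm ε t) :
    VEdge_Sm ε (s.hs t) ∧ VEdge_Sm ε (s.hd t) := by
  obtain ⟨s1, s2, s3, s4, s5, s6⟩ := hs
  obtain ⟨t1, t2, t3, t4, t5, t6⟩ := ht
  exact ⟨⟨(VEdge_avg s1 t1).1, (VEdge_avg s2 t2).1, (VEdge_avg s3 t3).1, (VEdge_avg s4 t4).1,
    (VEdge_avg s5 t5).1, (VEdge_avg s6 t6).1⟩, (VEdge_avg s1 t1).2, (VEdge_avg s2 t2).2,
    (VEdge_avg s3 t3).2, (VEdge_avg s4 t4).2, (VEdge_avg s5 t5).2, (VEdge_avg s6 t6).2⟩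

private theorem VEdge_mk {δ : ℝ} {s : St} (hδ : 0 < δ)
    (h : |s.u| ≤ δ ∧ |s.q| ≤ δ ∧ |s.p| ≤ 2 * δ) (hb : Bd s) : VEdge_Sm (2 * δ) s :=
  ⟨by linarith [h.1], by linarith [h.2.1], h.2.2, hb.1, hb.2.1, hb.2.2⟩

theorem vedge : ∃ C : ℝ, 0 ≤ C ∧ ∀ (δ : ℝ) (J : Jet), Hyp J δ →
    (∀ y, 0 ≤ y → y ≤ 1 → |V2C 1 y (eC J 1 y) (oC J 1 y)| ≤ C * δ ∧
      |W2 y (AC J 1 y) (FC J 1 y)| ≤ C * δ) ∧
    (∀ x y, 0 ≤ x → x ≤ 1 → √(3 / 2) ≤ wf x * y → y ≤ 5 / 4 →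
      |V1S x y (eS J x y) (oS J x y)| ≤ C * δ ∧ |V2S x y (eS J x y) (oS J x y)| ≤ C * δ ∧
      |W1 y (AS J x y) (FS J x y)| ≤ C * δ ∧ |W2 y (AS J x y) (FS J x y)| ≤ C * δ) := by
  obtain ⟨C1, c1, h1⟩ := VEdge_V2 gCe
  obtain ⟨C2, c2, h2⟩ := VEdge_V2 gCo
  obtain ⟨C3, c3, h3⟩ := VEdge_V1 gSe
  obtain ⟨C4, c4, h4⟩ := VEdge_V1 gSo
  obtain ⟨C5, c5, h5⟩ := VEdge_V2 gSe
  obtain ⟨C6, c6, h6⟩ := VEdge_V2 gSo
  obtain ⟨B1, b1, k1⟩ := ev_bdd sf1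
  obtain ⟨B2, b2, k2⟩ := ev_bdd sf0
  obtain ⟨B3, b3, k3⟩ := ev_bdd sf2
  obtain ⟨B4, b4, k4⟩ := ev_bdd (pDY sf2)
  obtain ⟨B5, b5, k5⟩ := ev_bdd (pDX sh2)
  obtain ⟨B6, b6, k6⟩ := ev_bdd sh2
  refine ⟨2 * (C1 + C2 + C3 + C4 + C5 + C6 + B1 + B2 + B3 + B4 + 2 * B5 + B6 + 20), by positivity,
    ?_⟩
  intro δ J h
  have hδ := h.pos
  have hδ1 := h.le1
  have hr := hyp_ry h
  have he0 : 0 ≤ 2 * δ := by linarith
  have he2 : 2 * δ ≤ 2 := by linarith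
  have nn : ∀ z : ℝ, 0 ≤ z → 0 ≤ z * δ := fun z hz => mul_nonneg hz hδ.le
  have n1 := nn _ c1
  have n2 := nn _ c2
  have n3 := nn _ c3
  have n4 := nn _ c4
  have n5 := nn _ c5
  have n6 := nn _ c6
  have m1 := nn _ b1
  have m2 := nn _ b2
  have m3 := nn _ b3
  have m4 := nn _ b4
  have m5 := nn _ b5
  have m6 := nn _ b6
  constructor
  · intro y hy0 hy1
    have hy2 : y ≤ 5 / 4 := by linarith
    have sA := VEdge_mk hδ (edgeC h y hy0 hy1) (bd_AC h 1 y)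
    have sB := VEdge_mk hδ (edgeC hr y hy0 hy1) (bd_AC hr 1 y)
    obtain ⟨se, so⟩ := VEdge_hsd sA sB
    have g1 := h1 1 y _ _ zero_le_one le_rfl hy0 hy2 he0 he2 se
    have g2 := h2 1 y _ _ zero_le_one le_rfl hy0 hy2 he0 he2 so
    have g3 := (VEdge_W hy0 hy2 he0 sA (bd_FC h 1 y)).2
    constructor
    · refine (abs_add_le _ _).trans ?_
      refine (add_le_add g1 g2).trans ?_
      linarith
    · refine g3.trans ?_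
      linarith
  · intro x y hx0 hx1 hy0 hy1
    have hw : 0 < wf x := by
      unfold wf mf
      positivity
    have h32 : 0 < √(3 / 2 : ℝ) := by positivity
    have hyp : 0 ≤ y := by
      by_contra hneg
      push Not at hneg
      have : wf x * y < 0 := mul_neg_of_pos_of_neg hw hneg
      linarith
    have hy2 : y ≤ 2 := by linarith
    have sA := VEdge_mk hδ (edgeS h x y hx0 hx1 hy0 hy1) (bd_AS h x y)
    have sB := VEdge_mk hδ (edgeS hr x y hx0 hx1 hy0 hy1) (bd_AS hr x y)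
    obtain ⟨se, so⟩ := VEdge_hsd sA sB
    have g1 := h3 x y _ _ hx0 hx1 hyp hy1 he0 he2 se
    have g2 := h4 x y _ _ hx0 hx1 hyp hy1 he0 he2 so
    have g3 := h5 x y _ _ hx0 hx1 hyp hy1 he0 he2 se
    have g4 := h6 x y _ _ hx0 hx1 hyp hy1 he0 he2 so
    obtain ⟨w1, w2⟩ := VEdge_W hyp hy1 he0 sA (bd_FS h x y)
    have l1 := VEdge_m2 (k1 x y hx0 hx1 hyp hy2) se.2.1
    have l2 := VEdge_m2 (k2 x y hx0 hx1 hyp hy2) se.1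
    have l3 := VEdge_m2 (k3 x y hx0 hx1 hyp hy2) se.2.2.1
    have l4 := VEdge_m2 (k6 x y hx0 hx1 hyp hy2) se.2.2.1
    have hmf : |mf x| ≤ 2 := by
      unfold mf
      rw [abs_of_nonneg (by positivity)]
      nlinarith
    have hh0 : |h0f x y| ≤ B4 + 2 * B5 := by
      have q1 := k4 x y hx0 hx1 hyp hy2
      have q2 := VEdge_m2 hmf (k5 x y hx0 hx1 hyp hy2)
      unfold h0f
      rw [abs_le] at q1 q2 ⊢
      obtain ⟨q1, q1'⟩ := q1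
      obtain ⟨q2, q2'⟩ := q2
      constructor <;> linarith
    have l5 := VEdge_m2 hh0 se.1
    refine ⟨?_, ?_, ?_, ?_⟩
    · refine (abs_add_le _ _).trans ?_
      refine (add_le_add ((abs_add_le _ _).trans (add_le_add g1 g2))
        ((abs_add_le _ _).trans (add_le_add ((abs_add_le _ _).trans (add_le_add l1 l2)) l3))).trans ?_
      linarith
    · refine (abs_add_le _ _).trans ?_
      refine (add_le_add ((abs_add_le _ _).trans (add_le_add g3 g4))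
        ((abs_add_le _ _).trans (add_le_add l5 l4))).trans ?_
      linarith
    · refine w1.trans ?_
      linarith
    · refine w2.trans ?_
      linarith

end Pool.Agent.MSQ
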