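import Pool.Agent.MSQ.RDiv
import Pool.Agent.MSQ.DivB
import Pool.Agent.MSQ.JAll
import Pool.Agent.MSQ.Bd2
import Pool.Agent.MSQ.VEdge
import Pool.Agent.MSQ.SFa
import Pool.Agent.MSQ.HypR
import Pool.Agent.MSQ.StG

/-!
QFlux (140 lines). The bilinear flux on one quarter.

PROOF. Core: s = AC J x y, v = FC J x y = starC - lSt + ch J (unfold). Pointwise:
 6 (EIs y - EI J x y) = -3 N (s.mu v.ka + s.ka v.mu - 4 s.nu v.nu): with H = ch J = starC - s, L = lSt - H, and
 EIs = √3/(12N²) = N s3 (1/(3N³))/2 is the same expression for H = starC (mu = nu = 0, ka = s3).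
 By divB (S = AC J, T = FC J): N(..) = A + mB + s.u (v.ka/(3N³) + v.mu/N), and
 -3 s.u (v.ka/(3N³) + v.mu/N) = bC y s   (v.ka = 2 s3 - 1/N - s.ka, v.mu = -1/(3N³) - s.mu, 2 s3 = √3).
 So 6(EIs - EI)/m = bC y s/m - 3 (A + mB)/m; integrate: RI_div, |W2 y (AC J 1 y)(FC J 1 y)| ≤ Cδ.
Sliver: s = AS J, v = FS J = starS - lSt + ch J: -6 EI = -3N(..) = bS y s - 3(A + mB) (v.ka = 1/N - s.ka,
 v.mu = 1/(3N³) - s.mu, v.nu = -s.nu; for H = starS the expression is 0 since L* has zero second order data);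
 SI_div with the edges from vedge.
On y = 1: W1 1 (AC J x 1)(FC J x 1) = W1 1 (AS J x 1)(FS J x 1) (star1), so the two fluxes through y = 1 cancel.
Sum: 6(RI(EIs/m) - QT J) = BI J - 3[ -∫W1(x,0)/m - ∫_0^1 W2C(0,y) - ∫_1^{49/40} W2S(0,y) + O(δ) ] = BI J + 3 WX + 3 WY + O(δ).
`WX_ry`: at y = 0, W1 0 s v = v.ka s.q - 2 v.nu s.p (N = 1, y = 0) is odd under fy (AC_ry0, FC_ry0).
`WY_rx`: W2 is odd under fx: AC_rx0, AS_rx0, FC_rx0, FS_rx0.
-/

namespace Pool.Agent.MSQ

private theorem QFlux_Npos (y : ℝ) : 0 < Nf y := by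
  unfold Nf
  positivity

private theorem QFlux_mpos (x : ℝ) : 0 < mf x := by
  unfold mf
  positivity

private theorem QFlux_cN : Continuous fun z : ℝ × ℝ => Nf z.2 := by
  unfold Nf
  fun_prop

private theorem QFlux_cm : Continuous fun z : ℝ × ℝ => mf z.1 := by
  unfold mf
  fun_prop

private theorem QFlux_bC {S : ℝ → ℝ → St} {Z E : ℝ → ℝ → ℝ} (h : JS S Z E) :
    (Continuous fun z : ℝ × ℝ => bC z.2 (S z.1 z.2) / mf z.1) ∧
    (Continuous fun z : ℝ × ℝ => bS z.2 (S z.1 z.2) / mf z.1) := by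
  have cu := h.cu
  have cm := h.cmu
  have ck := h.cka
  have cN := QFlux_cN
  have hN : ∀ z : ℝ × ℝ, Nf z.2 ≠ 0 := fun z => (QFlux_Npos _).ne'
  have base : Continuous fun z : ℝ × ℝ => (3 * Nf z.2 ^ 2 * (S z.1 z.2).u * (S z.1 z.2).mu +
      (S z.1 z.2).u * (S z.1 z.2).ka) / Nf z.2 ^ 3 :=
    Continuous.div (by fun_prop) (by fun_prop) fun z => pow_ne_zero _ (hN z)
  constructor
  · refine Continuous.div ?_ QFlux_cm fun z => (QFlux_mpos _).ne'
    unfold bC
    refine base.add ?_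
    exact Continuous.div (by fun_prop) (by fun_prop) fun z => pow_ne_zero _ (hN z)
  · refine Continuous.div ?_ QFlux_cm fun z => (QFlux_mpos _).ne'
    unfold bS
    refine base.sub ?_
    exact Continuous.div (by fun_prop) (by fun_prop) fun z => pow_ne_zero _ (hN z)

private theorem QFlux_EIs : Continuous fun z : ℝ × ℝ => EIs z.2 / mf z.1 := by
  refine Continuous.div ?_ QFlux_cm fun z => (QFlux_mpos _).ne'
  unfold EIs
  have cN := QFlux_cN
  exact Continuous.div (by fun_prop) (by fun_prop) fun z =>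
    mul_ne_zero (by norm_num) (pow_ne_zero _ (QFlux_Npos _).ne')

private theorem QFlux_core (J : Jet) (x y D : ℝ)
    (hD : D = Nf y * ((AC J x y).mu * (FC J x y).ka + (AC J x y).ka * (FC J x y).mu -
      4 * (AC J x y).nu * (FC J x y).nu) -
      (AC J x y).u * ((FC J x y).ka / (3 * Nf y ^ 3) + (FC J x y).mu / Nf y)) :
    EI J x y / mf x = EIs y / mf x +
      ((-1 / 6) * (bC y (AC J x y) / mf x) + (1 / 2) * (D / mf x)) := by
  have hm := (QFlux_mpos x).ne'
  have hN := (QFlux_Npos y).ne'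
  have key : EI J x y = EIs y + ((-1 / 6) * bC y (AC J x y) + (1 / 2) * D) := by
    rw [hD]
    simp only [EI, EIs, bC, FC, AC, St.sub, starC, lSt, s3]
    field_simp
    ring
  rw [key]
  field_simp

private theorem QFlux_sli (J : Jet) (x y D : ℝ)
    (hD : D = Nf y * ((AS J x y).mu * (FS J x y).ka + (AS J x y).ka * (FS J x y).mu -
      4 * (AS J x y).nu * (FS J x y).nu) -
      (AS J x y).u * ((FS J x y).ka / (3 * Nf y ^ 3) + (FS J x y).mu / Nf y)) :
    EI J x y / mf x = (-1 / 6) * (bS y (AS J x y) / mf x) + (1 / 2) * (D / mf x) := by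
  have hm := (QFlux_mpos x).ne'
  have hN := (QFlux_Npos y).ne'
  have key : EI J x y = (-1 / 6) * bS y (AS J x y) + (1 / 2) * D := by
    rw [hD]
    simp only [EI, bS, FS, AS, St.sub, starS, lSt]
    field_simp
    ring
  rw [key]
  field_simp

theorem qflux : ∃ C : ℝ, 0 ≤ C ∧ ∀ (δ : ℝ) (J : Jet), Hyp J δ →
    |6 * (RI 0 1 0 1 (fun x y => EIs y / mf x) - QT J) - (BI J + 3 * WX J + 3 * WY J)| ≤
      C * δ := by
  obtain ⟨C, hC0, hC⟩ := vedge
  refine ⟨9 * C, by positivity, ?_⟩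
  intro δ J h
  have hδ := h.pos
  obtain ⟨hc, hs⟩ := hC δ J h
  obtain ⟨Z1, E1', jA⟩ := js_AC J h.good
  obtain ⟨Z2, E2', jF⟩ := js_FC J h.good
  obtain ⟨Z3, E3', jAS⟩ := js_AS J h.good
  obtain ⟨Z4, E4', jFS⟩ := js_FS J h.good
  obtain ⟨A, B, cA, cB, dA, dB, eAB⟩ := divB jA jF
  obtain ⟨A', B', cA', cB', dA', dB', eAB'⟩ := divB jAS jFS
  obtain ⟨cW1, cW2⟩ := cont_W jA jF
  obtain ⟨cW1', cW2'⟩ := cont_W jAS jFS
  have cm := QFlux_cm
  have hm : ∀ z : ℝ × ℝ, mf z.1 ≠ 0 := fun z => (QFlux_mpos _).ne'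
  have cD : Continuous fun z : ℝ × ℝ => (A z.1 z.2 + mf z.1 * B z.1 z.2) / mf z.1 :=
    Continuous.div (cA.add (cm.mul cB)) cm hm
  have cD' : Continuous fun z : ℝ × ℝ => (A' z.1 z.2 + mf z.1 * B' z.1 z.2) / mf z.1 :=
    Continuous.div (cA'.add (cm.mul cB')) cm hm
  obtain ⟨cbC, _⟩ := QFlux_bC jA
  obtain ⟨_, cbS⟩ := QFlux_bC jAS
  -- the core
  have core : RI 0 1 0 1 (fun x y => EI J x y / mf x) =
      RI 0 1 0 1 (fun x y => EIs y / mf x) +
        ((-1 / 6) * RI 0 1 0 1 (fun x y => bC y (AC J x y) / mf x) +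
          (1 / 2) * RI 0 1 0 1 (fun x y => (A x y + mf x * B x y) / mf x)) := by
    have e : (fun x y => EI J x y / mf x) = fun x y => EIs y / mf x +
      ((-1 / 6) * (bC y (AC J x y) / mf x) + (1 / 2) * ((A x y + mf x * B x y) / mf x)) := by
      funext x y
      exact QFlux_core J x y _ (eAB x y)
    rw [e, RI_add 0 1 0 1 (fun x y => EIs y / mf x) (fun x y =>
      (-1 / 6) * (bC y (AC J x y) / mf x) + (1 / 2) * ((A x y + mf x * B x y) / mf x))
      QFlux_EIs ((cbC.const_mul _).add (cD.const_mul _)),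
      RI_add 0 1 0 1 (fun x y => (-1 / 6) * (bC y (AC J x y) / mf x))
        (fun x y => (1 / 2) * ((A x y + mf x * B x y) / mf x)) (cbC.const_mul _) (cD.const_mul _),
      RI_mul, RI_mul]
  have sliv : SI (fun x y => EI J x y / mf x) =
      (-1 / 6) * SI (fun x y => bS y (AS J x y) / mf x) +
          (1 / 2) * SI (fun x y => (A' x y + mf x * B' x y) / mf x) := by
    have e : (fun x y => EI J x y / mf x) = fun x y =>
      (-1 / 6) * (bS y (AS J x y) / mf x) + (1 / 2) * ((A' x y + mf x * B' x y) / mf x) := by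
      funext x y
      exact QFlux_sli J x y _ (eAB' x y)
    rw [e, SI_add (fun x y => (-1 / 6) * (bS y (AS J x y) / mf x))
        (fun x y => (1 / 2) * ((A' x y + mf x * B' x y) / mf x)) (cbS.const_mul _)
        (cD'.const_mul _), SI_mul, SI_mul]
  have div1 := RI_div 0 1 0 1 (fun x y => W1 y (AC J x y) (FC J x y))
    (fun x y => W2 y (AC J x y) (FC J x y)) A B cA cB dA dB
  have div2 := SI_div (C * δ) (mul_nonneg hC0 hδ.le) (fun x y => W1 y (AS J x y) (FS J x y))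
    (fun x y => W2 y (AS J x y) (FS J x y)) A' B' cA' cB' cW1' cW2' dA' dB'
    (fun k hk x h0 h1 => (hs x (stY k) (st_range k hk x h0 h1).1 (st_range k hk x h0 h1).2
      (st_ge k hk x _ h0 h1 le_rfl) (st_le k)).2.2.1)
    (fun k hk y h0 h1 => by
      have h2 : (0:ℝ) ≤ ((k : ℝ) + 1) / 6 := by positivity
      have h3 : ((k : ℝ) + 1) / 6 ≤ 1 := by
        rw [div_le_one (by norm_num)]
        have : (k : ℝ) + 1 ≤ 6 := by exact_mod_cast hk
        exact this
      exact (hs _ y h2 h3 (st_ge' k hk y h0) (h1.trans (st_le k))).2.2.2)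
  -- the flux through y = 1
  have h1eq : ∀ x, W1 1 (AC J x 1) (FC J x 1) = W1 1 (AS J x 1) (FS J x 1) := by
    intro x
    obtain ⟨e1, e2, e3, e4, e5, e6, e7⟩ := star1 J x
    unfold W1
    rw [e1, e2, e3, e6, e7]
  -- continuity in one variable
  have cx1 : Continuous fun x : ℝ => W1 1 (AC J x 1) (FC J x 1) / mf x := by
    have c1 : Continuous fun x : ℝ => W1 1 (AC J x 1) (FC J x 1) :=
      cW1.comp (continuous_id.prodMk continuous_const)
    have c2 : Continuous fun x : ℝ => mf x := by unfold mf; fun_prop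
    exact c1.div c2 fun x => (QFlux_mpos _).ne'
  have cx0 : Continuous fun x : ℝ => W1 0 (AC J x 0) (FC J x 0) / mf x := by
    have c1 : Continuous fun x : ℝ => W1 0 (AC J x 0) (FC J x 0) :=
      cW1.comp (continuous_id.prodMk continuous_const)
    have c2 : Continuous fun x : ℝ => mf x := by unfold mf; fun_prop
    exact c1.div c2 fun x => (QFlux_mpos _).ne'
  have cy1 : Continuous fun y : ℝ => W2 y (AC J 1 y) (FC J 1 y) :=
    cW2.comp (continuous_const.prodMk continuous_id)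
  have cy0 : Continuous fun y : ℝ => W2 y (AC J 0 y) (FC J 0 y) :=
    cW2.comp (continuous_const.prodMk continuous_id)
  have s1 : ∫ x in (0:ℝ)..1, (W1 1 (AC J x 1) (FC J x 1) - W1 0 (AC J x 0) (FC J x 0)) / mf x =
      (∫ x in (0:ℝ)..1, W1 1 (AC J x 1) (FC J x 1) / mf x) - WX J := by
    unfold WX
    rw [← intervalIntegral.integral_sub (cx1.intervalIntegrable _ _)
      (cx0.intervalIntegrable _ _)]
    refine intervalIntegral.integral_congr fun x _ => ?_
    show (_ - _) / _ = _ / _ - _ / _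
    rw [sub_div]
  have s2 : ∫ y in (0:ℝ)..1, (W2 y (AC J 1 y) (FC J 1 y) - W2 y (AC J 0 y) (FC J 0 y)) =
      (∫ y in (0:ℝ)..1, W2 y (AC J 1 y) (FC J 1 y)) -
        ∫ y in (0:ℝ)..1, W2 y (AC J 0 y) (FC J 0 y) :=
    intervalIntegral.integral_sub (cy1.intervalIntegrable _ _) (cy0.intervalIntegrable _ _)
  have s3' : |∫ y in (0:ℝ)..1, W2 y (AC J 1 y) (FC J 1 y)| ≤ C * δ := by
    have := intervalIntegral.norm_integral_le_of_norm_le_const (a := (0:ℝ)) (b := 1)
      (f := fun y => W2 y (AC J 1 y) (FC J 1 y)) (C := C * δ) (by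
        intro y hy
        rw [Set.uIoc_of_le zero_le_one] at hy
        exact (hc y hy.1.le hy.2).2)
    rw [Real.norm_eq_abs] at this
    simpa using this
  have s4 : (∫ x in (0:ℝ)..1, W1 1 (AC J x 1) (FC J x 1) / mf x) =
      ∫ x in (0:ℝ)..1, W1 1 (AS J x 1) (FS J x 1) / mf x :=
    intervalIntegral.integral_congr fun x _ => by
      show _ / _ = _ / _
      rw [h1eq x]
  beta_reduce at div1 div2
  rw [s1, s2, s4] at div1
  set I1 := ∫ x in (0:ℝ)..1, W1 1 (AS J x 1) (FS J x 1) / mf x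
  set I2 := ∫ y in (0:ℝ)..1, W2 y (AC J 1 y) (FC J 1 y)
  set I3 := ∫ y in (0:ℝ)..1, W2 y (AC J 0 y) (FC J 0 y) with hI3
  set I4 := ∫ y in (1:ℝ)..(49 / 40), W2 y (AS J 0 y) (FS J 0 y) with hI4
  have hWY : WY J = I3 + I4 := rfl
  have hQT : QT J = RI 0 1 0 1 (fun x y => EI J x y / mf x) + SI (fun x y => EI J x y / mf x) := rfl
  have hBI : BI J = RI 0 1 0 1 (fun x y => bC y (AC J x y) / mf x) +
    SI (fun x y => bS y (AS J x y) / mf x) := rfl
  rw [hQT, hBI, hWY, core, sliv, div1]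
  set X := SI (fun x y => (A' x y + mf x * B' x y) / mf x)
  rw [abs_le] at div2 s3' ⊢
  obtain ⟨d1, d2⟩ := div2
  obtain ⟨t1, t2⟩ := s3'
  constructor <;> linarith

theorem WX_ry (J : Jet) : WX J.ry = -WX J := by
  unfold WX
  rw [← intervalIntegral.integral_neg]
  refine intervalIntegral.integral_congr fun x _ => ?_
  show W1 0 (AC J.ry x 0) (FC J.ry x 0) / mf x = -(W1 0 (AC J x 0) (FC J x 0) / mf x)
  rw [AC_ry0, FC_ry0]
  simp only [W1, St.fy]
  ring

theorem WY_rx (J : Jet) : WY J.rx = -WY J := by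
  unfold WY
  rw [neg_add, ← intervalIntegral.integral_neg, ← intervalIntegral.integral_neg]
  congr 1
  · refine intervalIntegral.integral_congr fun y _ => ?_
    show W2 y (AC J.rx 0 y) (FC J.rx 0 y) = -(W2 y (AC J 0 y) (FC J 0 y))
    rw [AC_rx0, FC_rx0]
    simp only [W2, St.fx]
    ring
  · refine intervalIntegral.integral_congr fun y _ => ?_
    show W2 y (AS J.rx 0 y) (FS J.rx 0 y) = -(W2 y (AS J 0 y) (FS J 0 y))
    rw [AS_rx0, FS_rx0]
    simp only [W2, St.fx]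
    ring

end Pool.Agent.MSQ
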