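import Pool.Agent.MSQ.PairI
import Pool.Agent.MSQ.QFlux
import Pool.Agent.MSQ.EEq
import Pool.Agent.MSQ.Cst
/-!
SQ. The square theorem (assembly, proved from the modules).
-/
namespace Pool.Agent.MSQ

theorem SQb : ∃ C : ℝ, 0 ≤ C ∧ ∀ (δ : ℝ) (J : Jet), Hyp J δ → 1 / 2 ≤ J.f (0, 0) →
    EE J ≤ Real.pi * Real.arccos (1 / 3) / (4 * √3) + C * δ := by
  obtain ⟨C1, hC1, h1⟩ := pairI
  obtain ⟨C2, hC2, h2⟩ := qflux
  have hD : (0 : ℝ) < (DD : ℝ) := by norm_num [DD]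
  set a : ℝ := √3 * cc with ha
  have ha0 : 0 ≤ a := by
    have : (0 : ℝ) ≤ cc := by unfold cc; positivity
    positivity
  set R := RI 0 1 0 1 (fun x y => EIs y / mf x) with hR
  refine ⟨a / 6 * (4 * C2 + 4 / (DD : ℝ) * C1), by positivity, ?_⟩
  intro δ J hJ hb
  have hrx : Hyp J.rx δ := hyp_rx hJ
  have hry : Hyp J.ry δ := hyp_ry hJ
  have hrr : Hyp J.rx.ry δ := hyp_ry hrx
  have hbx : 1 / 2 ≤ J.rx.f (0, 0) := by
    show 1 / 2 ≤ J.f (-(0:ℝ), 0)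
    rw [neg_zero]; exact hb
  have p1 := h1 δ J hJ hb
  have p2 := h1 δ J.rx hrx hbx
  rw [VY_rx] at p2
  have q1 := abs_le.mp (h2 δ J hJ)
  have q2 := abs_le.mp (h2 δ J.rx hrx)
  have q3 := abs_le.mp (h2 δ J.ry hry)
  have q4 := abs_le.mp (h2 δ J.rx.ry hrr)
  have e1 : WX J.rx.ry = -WX J.rx := WX_ry _
  have e2 : WX J.ry = -WX J := WX_ry _
  have e3 : WY J.rx = -WY J := WY_rx _
  have e4 : WY J.rx.ry = -WY J.ry := by rw [rx_ry]; exact WY_rx _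
  rw [e3] at q2
  rw [e2] at q3
  rw [e1, e4] at q4
  have key : -(4 / (DD : ℝ) * C1 * δ) ≤ (BI J + BI J.ry) + (BI J.rx + BI J.rx.ry) := by
    have h3 : -(2 * C1 * δ) ≤ (DD : ℝ) / 2 * ((BI J + BI J.ry) + (BI J.rx + BI J.rx.ry)) := by
      linarith
    have h4 : (BI J + BI J.ry) + (BI J.rx + BI J.rx.ry) =
        2 / (DD : ℝ) * ((DD : ℝ) / 2 * ((BI J + BI J.ry) + (BI J.rx + BI J.rx.ry))) := by
      field_simp
    rw [h4]
    calc -(4 / (DD : ℝ) * C1 * δ) = 2 / (DD : ℝ) * (-(2 * C1 * δ)) := by ring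
      _ ≤ _ := mul_le_mul_of_nonneg_left h3 (by positivity)
  have hsum : 6 * (QT J + QT J.rx + QT J.ry + QT J.rx.ry) ≤
      24 * R + (4 * C2 + 4 / (DD : ℝ) * C1) * δ := by
    nlinarith [q1.1, q2.1, q3.1, q4.1, key]
  have hc := cst_val
  calc EE J ≤ a * (QT J + QT J.rx + QT J.ry + QT J.rx.ry) := eeq hJ
    _ ≤ a * ((24 * R + (4 * C2 + 4 / (DD : ℝ) * C1) * δ) / 6) :=
        mul_le_mul_of_nonneg_left (by linarith) ha0
    _ = 4 * a * R + a / 6 * (4 * C2 + 4 / (DD : ℝ) * C1) * δ := by ring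
    _ = _ := by rw [← hc]

/-- THE SQUARE THEOREM -/
theorem SQ : ∃ C : ℝ, 0 ≤ C ∧ ∀ (δ : ℝ) (J : Jet), Hyp J δ →
    EE J ≤ Real.pi * Real.arccos (1 / 3) / (4 * √3) + C * δ := by
  obtain ⟨C, hC, h⟩ := SQb
  refine ⟨C, hC, fun δ J hJ => ?_⟩
  by_cases hb : 1 / 2 ≤ J.f (0, 0)
  · exact h δ J hJ hb
  · have h1 : 1 / 2 ≤ J.sw.f (0, 0) := by
      show 1 / 2 ≤ lf (0, 0) - J.f (0, 0)
      have : lf (0, 0) = 1 := by unfold lf; norm_num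
      rw [this]; linarith [not_le.mp hb]
    rw [← ee_sw hJ]
    exact h δ J.sw (hyp_sw hJ) h1

end Pool.Agent.MSQ
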