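import Pool.Agent.MSQ.DataE
/-!
KP. Kernel computations: positivity checks of the certificate (already proved).
-/
namespace Pool.Agent.MSQ

set_option maxRecDepth 100000

theorem kP0 : cPos la22 ro22 cb0 = true := by
  decide +kernel
theorem kP1 : cPos la22 ro22 cb1 = true := by
  decide +kernel
theorem kP2 : cPos la22 ro22 cb2 = true := by
  decide +kernel
theorem kP3 : cPos la22 ro22 cb3 = true := by
  decide +kernel
theorem kP4 : cPos la22 ro22 cb4 = true := by
  decide +kernel
theorem kP5 : cPos la22 ro22 cb5 = true := by
  decide +kernel
theorem kP6 : cPos la22 ro22 cb6 = true := by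
  decide +kernel
theorem kP7 : cPos la22 ro22 cb7 = true := by
  decide +kernel
theorem kP8 : cPos la22 ro22 cb8 = true := by
  decide +kernel
theorem kP9 : cPos la22 ro22 cb9 = true := by
  decide +kernel
theorem kP10 : cPos la22 ro22 cb10 = true := by
  decide +kernel
theorem kP11 : cPos la22 ro22 cb11 = true := by
  decide +kernel

end Pool.Agent.MSQ
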