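import Pool.Agent.MSQ.DataE
/-!
KT0. Kernel computations: positivity checks of the certificate (already proved).
-/
namespace Pool.Agent.MSQ

set_option maxRecDepth 100000

theorem kT0 : cS1 cf1 la22 Rn UE1 UE2 UE2l UE3 UE34 UE34l UE1b UE3b cb0 = true := by
  decide +kernel
theorem kT1 : cS1 cf1 la22 Rn UE1 UE2 UE2l UE3 UE34 UE34l UE1b UE3b cb1 = true := by
  decide +kernel
theorem kT2 : cS1 cf1 la22 Rn UE1 UE2 UE2l UE3 UE34 UE34l UE1b UE3b cb2 = true := by
  decide +kernel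
theorem kT3 : cS1 cf1 la22 Rn UE1 UE2 UE2l UE3 UE34 UE34l UE1b UE3b cb3 = true := by
  decide +kernel
theorem kT4 : cS1 cf1 la22 Rn UE1 UE2 UE2l UE3 UE34 UE34l UE1b UE3b cb4 = true := by
  decide +kernel
theorem kT5 : cS1 cf1 la22 Rn UE1 UE2 UE2l UE3 UE34 UE34l UE1b UE3b cb5 = true := by
  decide +kernel

end Pool.Agent.MSQ
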