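import Pool.Agent.MSQ.KT8
import Pool.Agent.MSQ.KT9
import Pool.Agent.MSQ.KT10
import Pool.Agent.MSQ.KT11
/-!
KT1. Kernel computations: positivity checks of the certificate (already proved).
-/
namespace Pool.Agent.MSQ

set_option maxRecDepth 100000

theorem kT6 : cS1 cf1 la22 Rn UE1 UE2 UE2l UE3 UE34 UE34l UE1b UE3b cb6 = true := by
  decide +kernel
theorem kT7 : cS1 cf1 la22 Rn UE1 UE2 UE2l UE3 UE34 UE34l UE1b UE3b cb7 = true := by
  decide +kernel

end Pool.Agent.MSQ
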