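import Pool.Agent.MSQ.DataE
/-!
KU. Kernel computations: positivity checks of the certificate (already proved).
-/
namespace Pool.Agent.MSQ

set_option maxRecDepth 100000

theorem kU0 : cS2 DD cf1 ro22 Rn UE2 cb0 = true := by
  decide +kernel
theorem kU1 : cS2 DD cf1 ro22 Rn UE2 cb1 = true := by
  decide +kernel
theorem kU2 : cS2 DD cf1 ro22 Rn UE2 cb2 = true := by
  decide +kernel
theorem kU3 : cS2 DD cf1 ro22 Rn UE2 cb3 = true := by
  decide +kernel
theorem kU4 : cS2 DD cf1 ro22 Rn UE2 cb4 = true := by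
  decide +kernel
theorem kU5 : cS2 DD cf1 ro22 Rn UE2 cb5 = true := by
  decide +kernel
theorem kU6 : cS2 DD cf1 ro22 Rn UE2 cb6 = true := by
  decide +kernel
theorem kU7 : cS2 DD cf1 ro22 Rn UE2 cb7 = true := by
  decide +kernel
theorem kU8 : cS2 DD cf1 ro22 Rn UE2 cb8 = true := by
  decide +kernel
theorem kU9 : cS2 DD cf1 ro22 Rn UE2 cb9 = true := by
  decide +kernel
theorem kU10 : cS2 DD cf1 ro22 Rn UE2 cb10 = true := by
  decide +kernel
theorem kU11 : cS2 DD cf1 ro22 Rn UE2 cb11 = true := by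
  decide +kernel

end Pool.Agent.MSQ
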