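import Pool.Agent.MSQ.EvA

/-!
AddE (90 lines). The lists `coreAdd`, `sliAdd` (Poly.lean) evaluate to 12 times the forms `CM.Q`, `SM.Q`
(Defs.lean); removing the last column.

PROOF. As in R12E: unfold the lists, `simp` with the ev lemmas of EvA, then ring.
`qf_drop5`: the list L has 21 entries; if the six entries of the column of the last variable have value 0
then qf (evE (drop5 L)) [u,q,p,μ,ν] = qf (evE L) [u,q,p,μ,ν,κ]. Write L = [a0,...,a20] (from the length),
everything computes. `evE_zipWith`: evE x y (List.zipWith pAdd A B) for lists of the same length; and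
`qf_zip`: qf (List.zipWith (· + ·) a b) s = qf a s + qf b s for real lists of the same length (needed to
add R12 and coreAdd): prove it for length 21 and s of length 6 by writing all entries, or in general by
induction on s (take and drop of zipWith).
-/

namespace Pool.Agent.MSQ

theorem coreAdd_eval (e : Int) (l r : P) (b : CBox) (x y : ℝ) (s : St) :
    qf (evE x y (coreAdd e l r b)) s.l = 12 * (b.at l r x y).Q e x y s := by
  simp only [coreAdd, evE, List.map_cons, List.map_nil, St.l, qf, dotL, List.take_succ_cons,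
    List.take_zero, List.drop_succ_cons, List.drop_zero, List.length_cons, List.length_nil,
    ev_sumP, ev_pSm, ev_pX, ev_pY, ev_N3, ev_nil, List.sum_cons, List.sum_nil, CM.Q, CBox.at]
  push_cast
  ring

theorem sliAdd_eval (b : SBox) (x y : ℝ) (s : St) :
    qf (evE x y (sliAdd b)) s.l = 12 * (b.at x y).Q s := by
  simp only [sliAdd, evE, List.map_cons, List.map_nil, St.l, qf, dotL, List.take_succ_cons,
    List.take_zero, List.drop_succ_cons, List.drop_zero, List.length_cons, List.length_nil,
    ev_pAdd, ev_pSm, ev_nil, SM.Q, SBox.at]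
  push_cast
  ring

private theorem AddE_list {α : Type} (L : List α) (hL : L.length = 21) :
    ∃ a0 a1 a2 a3 a4 a5 a6 a7 a8 a9 a10 a11 a12 a13 a14 a15 a16 a17 a18 a19 a20 : α, L = [a0, a1, a2, a3, a4, a5, a6, a7, a8, a9, a10, a11, a12, a13, a14, a15, a16, a17, a18, a19, a20] := by
  obtain ⟨a0, L, rfl⟩ := List.exists_cons_of_length_eq_add_one hL
  rw [List.length_cons, Nat.add_right_cancel_iff] at hL
  obtain ⟨a1, L, rfl⟩ := List.exists_cons_of_length_eq_add_one hL
  rw [List.length_cons, Nat.add_right_cancel_iff] at hL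
  obtain ⟨a2, L, rfl⟩ := List.exists_cons_of_length_eq_add_one hL
  rw [List.length_cons, Nat.add_right_cancel_iff] at hL
  obtain ⟨a3, L, rfl⟩ := List.exists_cons_of_length_eq_add_one hL
  rw [List.length_cons, Nat.add_right_cancel_iff] at hL
  obtain ⟨a4, L, rfl⟩ := List.exists_cons_of_length_eq_add_one hL
  rw [List.length_cons, Nat.add_right_cancel_iff] at hL
  obtain ⟨a5, L, rfl⟩ := List.exists_cons_of_length_eq_add_one hL
  rw [List.length_cons, Nat.add_right_cancel_iff] at hL
  obtain ⟨a6, L, rfl⟩ := List.exists_cons_of_length_eq_add_one hL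
  rw [List.length_cons, Nat.add_right_cancel_iff] at hL
  obtain ⟨a7, L, rfl⟩ := List.exists_cons_of_length_eq_add_one hL
  rw [List.length_cons, Nat.add_right_cancel_iff] at hL
  obtain ⟨a8, L, rfl⟩ := List.exists_cons_of_length_eq_add_one hL
  rw [List.length_cons, Nat.add_right_cancel_iff] at hL
  obtain ⟨a9, L, rfl⟩ := List.exists_cons_of_length_eq_add_one hL
  rw [List.length_cons, Nat.add_right_cancel_iff] at hL
  obtain ⟨a10, L, rfl⟩ := List.exists_cons_of_length_eq_add_one hL
  rw [List.length_cons, Nat.add_right_cancel_iff] at hL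
  obtain ⟨a11, L, rfl⟩ := List.exists_cons_of_length_eq_add_one hL
  rw [List.length_cons, Nat.add_right_cancel_iff] at hL
  obtain ⟨a12, L, rfl⟩ := List.exists_cons_of_length_eq_add_one hL
  rw [List.length_cons, Nat.add_right_cancel_iff] at hL
  obtain ⟨a13, L, rfl⟩ := List.exists_cons_of_length_eq_add_one hL
  rw [List.length_cons, Nat.add_right_cancel_iff] at hL
  obtain ⟨a14, L, rfl⟩ := List.exists_cons_of_length_eq_add_one hL
  rw [List.length_cons, Nat.add_right_cancel_iff] at hL
  obtain ⟨a15, L, rfl⟩ := List.exists_cons_of_length_eq_add_one hL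
  rw [List.length_cons, Nat.add_right_cancel_iff] at hL
  obtain ⟨a16, L, rfl⟩ := List.exists_cons_of_length_eq_add_one hL
  rw [List.length_cons, Nat.add_right_cancel_iff] at hL
  obtain ⟨a17, L, rfl⟩ := List.exists_cons_of_length_eq_add_one hL
  rw [List.length_cons, Nat.add_right_cancel_iff] at hL
  obtain ⟨a18, L, rfl⟩ := List.exists_cons_of_length_eq_add_one hL
  rw [List.length_cons, Nat.add_right_cancel_iff] at hL
  obtain ⟨a19, L, rfl⟩ := List.exists_cons_of_length_eq_add_one hL
  rw [List.length_cons, Nat.add_right_cancel_iff] at hL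
  obtain ⟨a20, L, rfl⟩ := List.exists_cons_of_length_eq_add_one hL
  rw [List.length_cons, Nat.add_right_cancel_iff] at hL
  rw [List.length_eq_zero_iff] at hL
  subst hL
  exact ⟨_, _, _, _, _, _, _, _, _, _, _, _, _, _, _, _, _, _, _, _, _, rfl⟩

theorem qf_drop5 (L : List P) (hL : L.length = 21) (x y : ℝ) (s : St)
    (h5 : ev x y (L.getD 5 []) = 0) (h10 : ev x y (L.getD 10 []) = 0)
    (h14 : ev x y (L.getD 14 []) = 0) (h17 : ev x y (L.getD 17 []) = 0)
    (h19 : ev x y (L.getD 19 []) = 0) (h20 : ev x y (L.getD 20 []) = 0) :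
    qf (evE x y (drop5 L)) [s.u, s.q, s.p, s.mu, s.nu] = qf (evE x y L) s.l := by
  obtain ⟨a0, a1, a2, a3, a4, a5, a6, a7, a8, a9, a10, a11, a12, a13, a14, a15, a16, a17, a18, a19, a20, rfl⟩ := AddE_list L hL
  simp only [List.getD_cons_succ, List.getD_cons_zero] at h5 h10 h14 h17 h19 h20
  simp only [drop5, evE, List.map_cons, List.map_nil, St.l, qf, dotL, List.take_succ_cons,
    List.take_zero, List.drop_succ_cons, List.drop_zero, List.length_cons, List.length_nil,
    List.cons_append, List.nil_append, h5, h10, h14, h17, h19, h20]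
  ring

theorem qf_zip (A B : List P) (hA : A.length = 21) (hB : B.length = 21) (x y : ℝ) (s : St) :
    qf (evE x y (List.zipWith pAdd A B)) s.l = qf (evE x y A) s.l + qf (evE x y B) s.l := by
  obtain ⟨a0, a1, a2, a3, a4, a5, a6, a7, a8, a9, a10, a11, a12, a13, a14, a15, a16, a17, a18, a19, a20, rfl⟩ := AddE_list A hA
  obtain ⟨b0, b1, b2, b3, b4, b5, b6, b7, b8, b9, b10, b11, b12, b13, b14, b15, b16, b17, b18, b19, b20, rfl⟩ := AddE_list B hB
  simp only [List.zipWith_cons_cons, List.zipWith_nil_left, evE, List.map_cons, List.map_nil,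
    St.l, qf, dotL, List.take_succ_cons, List.take_zero, List.drop_succ_cons, List.drop_zero,
    List.length_cons, List.length_nil, ev_pAdd]
  ring

end Pool.Agent.MSQ
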