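import Pool.Agent.MSQ.EvA
/-!
R12E (60 lines). The list `R12` (Poly.lean) evaluates to 12 times the residual form `Rg` (Defs.lean).

PROOF. Unfold R12, evE, qf, dotL, St.l (the list has 21 entries, the vector 6, so take and drop compute by
simp/rfl), rewrite with ev_sumP, ev_pSm, ev_M2, ev_N3, ev_AG, ev_pY, ev_cP, ev_nil (EvA), unfold Rg, mf, and
ring. (D cast: `((D : Int) : ℝ)`.) If one big `ring` is slow, first prove the value of each of the 21
entries as a `have` and generalize `ev x y g.G11`, `Af x y g.G11`, ... to variables before `ring`.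
-/
namespace Pool.Agent.MSQ

private theorem R12E_qf (a0 a1 a2 a3 a4 a5 a6 a7 a8 a9 a10 a11 a12 a13 a14 a15 a16 a17 a18 a19 a20
    u q p m n k : ℝ) :
    qf [a0, a1, a2, a3, a4, a5, a6, a7, a8, a9, a10, a11, a12, a13, a14, a15, a16, a17, a18, a19,
      a20] [u, q, p, m, n, k] =
      u * (a0 * u + a1 * q + a2 * p + a3 * m + a4 * n + a5 * k) +
      q * (a6 * q + a7 * p + a8 * m + a9 * n + a10 * k) +
      p * (a11 * p + a12 * m + a13 * n + a14 * k) + m * (a15 * m + a16 * n + a17 * k) +
      n * (a18 * n + a19 * k) + k * (a20 * k) := by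
  simp [qf, dotL]
  ring

theorem R12_eval (D : Int) (g : GB) (x y : ℝ) (s : St) :
    qf (evE x y (R12 D g)) s.l = 12 * Rg D g x y s := by
  unfold R12 evE St.l
  simp only [List.map_cons, List.map_nil]
  rw [R12E_qf]
  simp only [ev_sumP, List.map_cons, List.map_nil, List.sum_cons, List.sum_nil, ev_pSm, ev_M2,
    ev_N3, ev_AG, ev_pY, ev_cP, ev_nil]
  unfold Rg mf
  push_cast
  ring

end Pool.Agent.MSQ
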