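import Pool.Agent.MSQ.ChkS
import Pool.Agent.MSQ.R12E
import Pool.Agent.MSQ.AddE
/-!
RSound (70 lines). The residual forms are nonnegative, from the checks `cR` and `sR`.

PROOF. `cR_sound`: chkM_sound applied to the list drop5 (zipWith pAdd (R12 D g) (coreAdd e l r b)) at the
point (x,y) (b.In gives the four inequalities) with the vector [u,q,p,μ,ν] gives
0 ≤ qf (evE ..) [u,q,p,μ,ν] = 12 (Rg + Q) by qf_drop5, qf_zip, R12_eval, coreAdd_eval. The six entries of
the last column vanish for the gauge coreG: values (times 12)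
 5: 12 D - 6 H13 - 36 ro22 with H13 = 2D - 6 ro22;  10: -6 H23 - 4 AG K with H23 = -6 AG la22, K = 9 la22
 (use ev_AG and linearity of Af: Af x y (pSm 9 l) = 9 Af x y l, from ev of pDY (pSm 9 l) = 9 ev (pDY l):
 prove ev x y (pDY (pSm c p)) = c * ev x y (pDY p) by induction, or from uniqueness of derivatives of
 EvD-type); 14: -6 H33 = 0;  17: -4 N3 K + 36 N3 la22 = 0; 19, 20: empty lists.
`sR_sound`: the same without drop5.
-/
namespace Pool.Agent.MSQ

private theorem RSound_derA (y : ℝ) (c k : Int) (l : List Int) :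
    evL y (derA k (smV c l)) = c * evL y (derA k l) := by
  induction l generalizing k with
  | nil => simp [smV, derA, evL]
  | cons a l ih =>
    have h1 : derA k (smV c (a :: l)) = (k * (c * a)) :: derA (k + 1) (smV c l) := rfl
    have h2 : derA k (a :: l) = (k * a) :: derA (k + 1) l := rfl
    rw [h1, h2]
    have h3 : ∀ (z : Int) (t : List Int), evL y (z :: t) = (z : ℝ) + y * evL y t := fun _ _ => rfl
    rw [h3, h3, ih]
    push_cast
    ring

private theorem RSound_der (y : ℝ) (c : Int) (l : List Int) :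
    evL y (der (smV c l)) = c * evL y (der l) := by
  cases l with
  | nil => simp [smV, der, derA, evL]
  | cons a l =>
    have h1 : der (smV c (a :: l)) = derA 1 (smV c l) := rfl
    have h2 : der (a :: l) = derA 1 l := rfl
    rw [h1, h2, RSound_derA]

private theorem RSound_pDY (x y : ℝ) (c : Int) (p : P) :
    ev x y (pDY (pSm c p)) = c * ev x y (pDY p) := by
  induction p with
  | nil => simp [pDY, pSm, smP, ev]
  | cons r l ih =>
    have h1 : pDY (pSm c (r :: l)) = der (smV c r) :: pDY (pSm c l) := rfl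
    have h2 : pDY (r :: l) = der r :: pDY l := rfl
    have h3 : ∀ (z : List Int) (t : P), ev x y (z :: t) = evL y z + x * ev x y t := fun _ _ => rfl
    rw [h1, h2, h3, h3, ih, RSound_der]
    ring

private theorem RSound_Af (x y : ℝ) (c : Int) (p : P) :
    Af x y (pSm c p) = c * Af x y p := by
  unfold Af
  rw [RSound_pDY, ev_pSm]
  ring

private theorem RSound_l5 (s : St) : [s.u, s.q, s.p, s.mu, s.nu].length = 5 := rfl

theorem cR_sound (D e : Int) (G11 G12 G13 G22 G23 G33 H11 H12 H22 l r : P) (b : CBox)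
    (h : cR D e (coreG D G11 G12 G13 G22 G23 G33 H11 H12 H22 l r) l r b = true) (x y : ℝ)
    (hb : b.In x y) (s : St) :
    0 ≤ Rg D (coreG D G11 G12 G13 G22 G23 G33 H11 H12 H22 l r) x y s +
      (b.at l r x y).Q e x y s := by
  obtain ⟨b1, b2, b3, b4⟩ := hb
  have h1 := chkM_sound 5 _ _ _ _ _ _ _ h x y b1 b2 b3 b4 [s.u, s.q, s.p, s.mu, s.nu] rfl
  rw [qf_drop5 _ rfl x y s, qf_zip _ _ rfl rfl, R12_eval, coreAdd_eval] at h1
  · linarith
  · change ev x y (pAdd (sumP [cP (12 * D), pSm (-6) (pAdd (cP (2 * D)) (pSm (-6) r))])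
      (pSm (-36) r)) = 0
    simp only [ev_pAdd, ev_sumP, List.map_cons, List.map_nil, List.sum_cons, List.sum_nil,
      ev_pSm, ev_cP]
    push_cast
    ring
  · change ev x y (pAdd (sumP [pSm (-6) (pSm (-6) (AG l)), pSm (-4) (AG (pSm 9 l))]) []) = 0
    simp only [ev_pAdd, ev_sumP, List.map_cons, List.map_nil, List.sum_cons, List.sum_nil,
      ev_pSm, ev_AG, ev_nil, RSound_Af]
    push_cast
    ring
  · change ev x y (pAdd (pSm (-6) []) []) = 0
    simp only [ev_pAdd, ev_pSm, ev_nil]
    ring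
  · change ev x y (pAdd (pSm (-4) (N3 (pSm 9 l))) (pSm 36 (N3 l))) = 0
    simp only [ev_pAdd, ev_pSm, ev_N3]
    push_cast
    ring
  · change ev x y (pAdd [] []) = 0
    simp only [ev_pAdd, ev_nil]
    ring
  · change ev x y (pAdd [] []) = 0
    simp only [ev_pAdd, ev_nil]
    ring

theorem sR_sound (D : Int) (g : GB) (b : SBox) (h : sR D g b = true) (x y : ℝ) (hb : b.In x y)
    (s : St) : 0 ≤ Rg D g x y s + (b.at x y).Q s := by
  obtain ⟨b1, b2, b3, b4⟩ := hb
  have h1 := chkM_sound 6 _ _ _ _ _ _ _ h x y b1 b2 b3 b4 s.l rfl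
  rw [qf_zip _ _ rfl rfl, R12_eval, sliAdd_eval] at h1
  linarith

end Pool.Agent.MSQ
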