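import Pool.Agent.MSQ.DataE
/-!
MSQ: the polynomials of DataE.lean written with the polynomial operations, and the one variable
positivity tests for the approximations of the square roots.
-/
namespace Pool.Agent.MSQ

def tdn : Int := c3n - ccn - qE
def brP : P := sumP [cP ((qE - ccn) * qE ^ 2 * 1296), pSm (-(qE - ccn) * c15n) (pX Jn),
  pSm (-(2 * qE - c3n) * qE) Mn, pX (cP ((2 * qE - c3n) * c15n * qE * 1296))]
def FE1 : P := sumP [pSm (3 * qE ^ 5 * 1296) Tn, pSm (3 * qE ^ 3) (pMul (pMul Tn In) Mn),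
  pSm (-2 * qE ^ 3 * 1296 * c15n) (pMul Tn In), cP (-3 * QE), pSm (-QE) [[0, 0, 1]], cP epn]
def FE2 : P := sumP [FE1, pSm (-c3n) (pMul (pMul Tn In) brP)]
def FE2l : P := sumP [FE2, pSm (c3n * tdn * qE ^ 3 * 1296) (pY Tn),
  pSm (-c3n * tdn * c15n * qE) (pMul (pY Tn) (pX Jn))]
def FE3 : P := sumP [pSm (3 * qE ^ 5 * 1296) Tn, pSm (3 * qE ^ 3) (pMul (pMul Tn Wn) Mn),
  pSm (-2 * qE ^ 3 * 1296 * c15n) (pMul Tn Wn), cP (-3 * QE),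
  pSm (-(qE ^ 6 * 1296)) [[0, 0, 2], [], [0, 0, 1]], cP epn]
def FE34 : P := sumP [FE3, pSm (-c3n * (qE - ccn) * qE ^ 2 * 1296) (pMul Tn Wn),
  pSm (c3n * (2 * qE - c3n) * qE) (pMul (pMul Tn Wn) Mn)]
def FE34l : P := sumP [FE34, pSm (c3n * tdn * qE ^ 3 * 648) (M2 (pY Tn))]
def FE1b : P := sumP [pSm (3 * qE ^ 5 * 1296) Tn,
  pSm (-c15n * qE ^ 3 * 1296) (pMul (pMul Tn In) [[2], [1]]), cP epn]
def FE3b : P := sumP [pSm (3 * qE ^ 5 * 1296) Tn, pSm (-2 * c15n * qE ^ 3 * 1296) (pMul Tn Wn),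
  cP epn]

/-- `(2+x^2) y^2` -/
def Zk : P := M2 [[0, 0, 1]]
def FMn : P := sumP [pSm (Ml.getD 0 0 * 1296) [[1]], pSm (Ml.getD 1 0 * 216) Zk,
  pSm (Ml.getD 2 0 * 36) (pMul Zk Zk), pSm (Ml.getD 3 0 * 6) (pMul Zk (pMul Zk Zk)),
  pSm (Ml.getD 4 0) (pMul Zk (pMul Zk (pMul Zk Zk)))]
def FJn : P := sumP [pSm (Jl.getD 0 0 * 1296) [[1]], pSm (Jl.getD 1 0 * 216) Zk,
  pSm (Jl.getD 2 0 * 36) (pMul Zk Zk), pSm (Jl.getD 3 0 * 6) (pMul Zk (pMul Zk Zk)),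
  pSm (Jl.getD 4 0) (pMul Zk (pMul Zk (pMul Zk Zk)))]

/-- positivity of a polynomial in `y` on `[0, 1/d]`, tested on `n` pieces -/
def cn (p : P) (n : Nat) (d : Int) : Bool :=
  (List.range n).all fun k => chkM 1 [p] 0 1 1 k (k + 1) (n * d)
/-- `qE^2 s - k (l - e)^2` -/
def lows (l : List Int) (s : P) (k e : Int) : P :=
  pAdd (pSm (qE * qE) s) (pSm (-k) (pMul (pAdd [l] (cP (-e))) (pAdd [l] (cP (-e)))))
/-- `k (l + e)^2 - qE^2 s` -/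
def ups (l : List Int) (s : P) (k e : Int) : P :=
  pAdd (pSm k (pMul (pAdd [l] (cP e)) (pAdd [l] (cP e)))) (pSm (-qE * qE) s)
/-- `k qE^2 - s (l - e)^2` -/
def lowi (l : List Int) (s : P) (k e : Int) : P :=
  pAdd (cP (k * qE * qE)) (pSm (-1) (pMul s (pMul (pAdd [l] (cP (-e))) (pAdd [l] (cP (-e))))))
/-- `s (l + e)^2 - k qE^2` -/
def upi (l : List Int) (s : P) (k e : Int) : P :=
  pAdd (pMul s (pMul (pAdd [l] (cP e)) (pAdd [l] (cP e)))) (cP (-k * qE * qE))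

end Pool.Agent.MSQ
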