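import Pool.Agent.MSQ.DataF
/-!
KE. Kernel computations: positivity checks of the certificate (already proved).
-/
namespace Pool.Agent.MSQ

set_option maxRecDepth 100000

theorem kE1 : eqP UE1 FE1 = true := by
  decide +kernel
theorem kE2 : eqP UE2 FE2 = true := by
  decide +kernel
theorem kE2l : eqP UE2l FE2l = true := by
  decide +kernel
theorem kE3 : eqP UE3 FE3 = true := by
  decide +kernel
theorem kE34 : eqP UE34 FE34 = true := by
  decide +kernel
theorem kE34l : eqP UE34l FE34l = true := by
  decide +kernel
theorem kE1b : eqP UE1b FE1b = true := by
  decide +kernel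
theorem kE3b : eqP UE3b FE3b = true := by
  decide +kernel
theorem kMn : eqP Mn FMn = true := by
  decide +kernel
theorem kJn : eqP Jn FJn = true := by
  decide +kernel

end Pool.Agent.MSQ
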