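import Pool.Agent.MSQ.DataF
/-!
KF. Kernel computations: positivity checks of the certificate (already proved).
-/
namespace Pool.Agent.MSQ

set_option maxRecDepth 100000

theorem kF0 : cn (ups Tl [[3, 1]] 1 20) 8 1 = true := by
  decide +kernel
theorem kF1 : cn (lows Tl [[3, 1]] 1 20) 8 1 = true := by
  decide +kernel
theorem kF2 : cn (ups Wl [[2, 1]] 2 4) 8 1 = true := by
  decide +kernel
theorem kF3 : cn (lows Wl [[2, 1]] 2 4) 8 1 = true := by
  decide +kernel
theorem kF4 : cn (upi Il [[2, 1]] 2 26) 8 1 = true := by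
  decide +kernel
theorem kF5 : cn (lowi Il [[2, 1]] 2 26) 8 1 = true := by
  decide +kernel
theorem kF6 : cn (ups Ml [[1, 1]] 1 4) 8 2 = true := by
  decide +kernel
theorem kF7 : cn (lows Ml [[1, 1]] 1 4) 8 2 = true := by
  decide +kernel
theorem kF8 : cn (upi Jl [[1, 1]] 1 26) 8 2 = true := by
  decide +kernel
theorem kF9 : cn (lowi Jl [[1, 1]] 1 26) 8 2 = true := by
  decide +kernel
theorem kF10 : cn (pAdd (pMul (pAdd [Rl] (cP 8)) (pAdd [Tl] (cP (2 * qE - 20)))) (cP (-qE * qE))) 8 1 = true := by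
  decide +kernel
theorem kF11 : cn (pAdd (cP (qE * qE)) (pSm (-1) (pMul (pAdd [Rl] (cP (-8))) (pAdd [Tl] (cP (2 * qE + 20)))))) 8 1 = true := by
  decide +kernel
theorem kF12 : ([pAdd [Tl] (cP (-20)), pAdd [Wl] (cP (-4)), pAdd [Il] (cP (-26)), pAdd [Rl] (cP (-8))].all fun p => cn p 8 1) = true := by
  decide +kernel
theorem kF13 : ([pAdd [Ml] (cP (-4)), pAdd [Jl] (cP (-26))].all fun p => cn p 8 2) = true := by
  decide +kernel

end Pool.Agent.MSQ
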