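import Pool.Agent.MSQ.ChkS
import Pool.Agent.MSQ.EvA
import Pool.Agent.MSQ.DataF
import Pool.Agent.MSQ.KF
import Pool.Agent.MSQ.KE
/-!
SqB (110 lines). Polynomial approximation of the square roots.

PROOF. (0) `cn p n d = true` implies 0 ≤ ev 0 t p (equivalently evL t for p = [l]) for all 0 ≤ t, d t ≤ 1
(n > 0): choose k < n with k/n ≤ d t ≤ (k+1)/n (k = ⌊n d t⌋ or n-1) and apply chkM_sound with s = [1] at
(0, t): n d t ∈ [k, k+1]. All polynomials here are of the form [list] so that ev 0 t [l] = evL t l.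
(1) T: with s = y^2, a = evL s Tl: ev x y Tn = evL (y^2) Tl (unfold, ring). kF0: (a+20)^2 ≥ qE^2 (3+s), kF1:
    qE^2 (3+s) ≥ (a-20)^2, kF12: a - 20 ≥ 0. So (a-20)/qE ≤ √(3+s) ≤ (a+20)/qE
    (Real.sqrt_le_iff / Real.le_sqrt).
(2) W: s = x^2: 2(a+4)^2 ≥ qE^2 (2+s), i.e. (a+4)^2 ≥ qE^2 (1+s/2) (kF2, kF3).
(3) I: kF4: (2+s)(a+26)^2 ≥ 2 qE^2, i.e. w^2 (a+26)^2 ≥ qE^2, so w (a+26) ≥ qE; kF5 similarly
    w (a-26) ≤ qE.
(4) M: z = mf x * y^2/3 ∈ [0,1/2], 6 z = (2+x^2) y^2. ev x y Mn = 1296 * evL z Ml : from kMn (ev_eqP, KE.lean)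
    ev x y FMn = Σ Ml_k 6^(4-k) (6 z)^k = 1296 Σ Ml_k z^k. kF6, kF7 with d = 2.
(5) J: kF8, kF9: (1+z)(a+26)^2 ≥ qE^2 ≥ (1+z)(a-26)^2.
(6) R: r = evL s Rl, a = evL s Tl: (r+8)(a + 2 qE - 20) ≥ qE^2 (kF10) and a - 20 ≤ qE T give
    (r+8)(2+T) qE ≥ qE^2 if r + 8 ≥ 0; kF11 the other side with a + 20 ≥ qE T and r - 8 ≥ 0 (kF12).
-/
namespace Pool.Agent.MSQ

private theorem SqB_q : (0:ℝ) < (qE : ℝ) := by
  unfold qE
  norm_num

private theorem SqB_cn (p : P) (n : ℕ) (d : Int) (h : cn p n d = true) (hn : 0 < n) (t : ℝ)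
    (h0 : 0 ≤ (d : ℝ) * t) (h1 : (d : ℝ) * t ≤ 1) : 0 ≤ ev 0 t p := by
  have hn' : (0:ℝ) < (n : ℝ) := by exact_mod_cast hn
  obtain ⟨k, hk, hk0, hk1⟩ : ∃ k : ℕ, k < n ∧ (k : ℝ) ≤ n * (d * t) ∧ n * (d * t) ≤ (k : ℝ) + 1 := by
    rcases lt_or_eq_of_le h1 with h2 | h2
    · refine ⟨⌊(n : ℝ) * (d * t)⌋₊, ?_, Nat.floor_le (by positivity), (Nat.lt_floor_add_one _).le⟩
      rw [Nat.floor_lt (by positivity)]
      nlinarith
    · refine ⟨n - 1, by omega, ?_, ?_⟩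
      · rw [h2, mul_one]
        exact_mod_cast Nat.sub_le n 1
      · rw [h2, mul_one]
        have : ((n - 1 : ℕ) : ℝ) = (n : ℝ) - 1 := by
          push_cast [Nat.cast_sub hn]
          ring
        rw [this]
        linarith
  unfold cn at h
  rw [List.all_eq_true] at h
  have h2 := h k (List.mem_range.2 hk)
  have h3 := chkM_sound 1 [p] 0 1 1 k (k + 1) (n * d) h2 0 t (by norm_num) (by norm_num)
    (by push_cast; linarith) (by push_cast; linarith) [1] rfl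
  simpa [evE, qf, dotL] using h3

private theorem SqB_e1 (t : ℝ) (l : List Int) : ev 0 t [l] = evL t l := by
  simp [ev]

private theorem SqB_sq {a e q T : ℝ} (hq : 0 < q) (hT : 0 ≤ T) (h0 : 0 ≤ a - e) (he : 0 ≤ e)
    (h1 : (q * T) ^ 2 ≤ (a + e) ^ 2) (h2 : (a - e) ^ 2 ≤ (q * T) ^ 2) :
    a - e ≤ q * T ∧ q * T ≤ a + e := by
  have h3 : 0 ≤ q * T := by positivity
  exact ⟨by nlinarith, by nlinarith⟩

private theorem SqB_abs {a e q T : ℝ} (hq : 0 < q) (h : a - e ≤ q * T ∧ q * T ≤ a + e) :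
    |a / q - T| ≤ e / q := by
  obtain ⟨h1, h2⟩ := h
  rw [abs_le]
  have e1 : a / q - T = (a - q * T) / q := by field_simp
  have e2 : -(e / q) = (-e) / q := by ring
  rw [e1, e2]
  exact ⟨div_le_div_of_nonneg_right (by linarith) hq.le,
    div_le_div_of_nonneg_right (by linarith) hq.le⟩

/-- inverse -/
private theorem SqB_inv {a e q w : ℝ} (hq : 0 < q) (hw : 0 < w) (h1 : q ≤ w * (a + e))
    (h2 : w * (a - e) ≤ q) : |a / q - 1 / w| ≤ e / q := by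
  refine SqB_abs hq ⟨?_, ?_⟩
  · rw [mul_one_div, le_div_iff₀ hw]
    linarith
  · rw [mul_one_div, div_le_iff₀ hw]
    linarith

private theorem SqB_sqi {a e q w : ℝ} (hq : 0 < q) (hw : 0 < w) (h0 : 0 ≤ a - e) (he : 0 ≤ e)
    (h1 : q ^ 2 ≤ w ^ 2 * (a + e) ^ 2) (h2 : w ^ 2 * (a - e) ^ 2 ≤ q ^ 2) :
    q ≤ w * (a + e) ∧ w * (a - e) ≤ q := by
  have h3 : 0 ≤ w * (a + e) := mul_nonneg hw.le (by linarith)
  have h4 : 0 ≤ w * (a - e) := mul_nonneg hw.le h0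
  rw [← mul_pow] at h1 h2
  exact ⟨by nlinarith, by nlinarith⟩

private theorem SqB_nn {l : List Int} {e : Int} {n : ℕ} {d : Int}
    (h : cn (pAdd [l] (cP (-e))) n d = true) (hn : 0 < n) {t : ℝ}
    (h0 : 0 ≤ (d : ℝ) * t) (h1 : (d : ℝ) * t ≤ 1) : 0 ≤ evL t l - e := by
  have h2 := SqB_cn _ n d h hn t h0 h1
  rw [ev_pAdd, SqB_e1, ev_cP] at h2
  push_cast at h2
  linarith

private theorem SqB_ups {l : List Int} {s : P} {k e : Int} {n : ℕ} {d : Int}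
    (h : cn (ups l s k e) n d = true) (hn : 0 < n) {t : ℝ}
    (h0 : 0 ≤ (d : ℝ) * t) (h1 : (d : ℝ) * t ≤ 1) :
    (qE : ℝ) ^ 2 * ev 0 t s ≤ k * (evL t l + e) ^ 2 := by
  have h2 := SqB_cn _ n d h hn t h0 h1
  unfold ups at h2
  rw [ev_pAdd, ev_pSm, ev_pSm, ev_pMul, ev_pAdd, SqB_e1, ev_cP] at h2
  push_cast at h2
  linarith

private theorem SqB_lows {l : List Int} {s : P} {k e : Int} {n : ℕ} {d : Int}
    (h : cn (lows l s k e) n d = true) (hn : 0 < n) {t : ℝ}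
    (h0 : 0 ≤ (d : ℝ) * t) (h1 : (d : ℝ) * t ≤ 1) :
    k * (evL t l - e) ^ 2 ≤ (qE : ℝ) ^ 2 * ev 0 t s := by
  have h2 := SqB_cn _ n d h hn t h0 h1
  unfold lows at h2
  rw [ev_pAdd, ev_pSm, ev_pSm, ev_pMul, ev_pAdd, SqB_e1, ev_cP] at h2
  push_cast at h2
  linarith

private theorem SqB_upi {l : List Int} {s : P} {k e : Int} {n : ℕ} {d : Int}
    (h : cn (upi l s k e) n d = true) (hn : 0 < n) {t : ℝ}
    (h0 : 0 ≤ (d : ℝ) * t) (h1 : (d : ℝ) * t ≤ 1) :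
    k * (qE : ℝ) ^ 2 ≤ ev 0 t s * (evL t l + e) ^ 2 := by
  have h2 := SqB_cn _ n d h hn t h0 h1
  unfold upi at h2
  rw [ev_pAdd, ev_pMul, ev_pMul, ev_pAdd, SqB_e1, ev_cP, ev_cP] at h2
  push_cast at h2
  linarith

private theorem SqB_lowi {l : List Int} {s : P} {k e : Int} {n : ℕ} {d : Int}
    (h : cn (lowi l s k e) n d = true) (hn : 0 < n) {t : ℝ}
    (h0 : 0 ≤ (d : ℝ) * t) (h1 : (d : ℝ) * t ≤ 1) :
    ev 0 t s * (evL t l - e) ^ 2 ≤ k * (qE : ℝ) ^ 2 := by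
  have h2 := SqB_cn _ n d h hn t h0 h1
  unfold lowi at h2
  rw [ev_pAdd, ev_pSm, ev_pMul, ev_pMul, ev_pAdd, SqB_e1, ev_cP, ev_cP] at h2
  push_cast at h2
  linarith

private theorem SqB_d1 {y : ℝ} (h0 : 0 ≤ y) (h1 : y ≤ 1) :
    0 ≤ ((1 : Int) : ℝ) * y ^ 2 ∧ ((1 : Int) : ℝ) * y ^ 2 ≤ 1 := by
  push_cast
  exact ⟨by positivity, by nlinarith⟩

private theorem SqB_s {c t : ℝ} {a b : Int} (h : (a : ℝ) + t * b = c) : ev 0 t [[a, b]] = c := by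
  rw [SqB_e1]
  simp only [evL]
  rw [← h]
  ring

private theorem SqB_Tn (x y : ℝ) : ev x y Tn = evL (y ^ 2) Tl := by
  simp only [Tn, Tl, ev, evL]
  push_cast
  ring

private theorem SqB_Rn (x y : ℝ) : ev x y Rn = evL (y ^ 2) Rl := by
  simp only [Rn, Rl, ev, evL]
  push_cast
  ring

private theorem SqB_Wn (x y : ℝ) : ev x y Wn = evL (x ^ 2) Wl := by
  simp only [Wn, Wl, ev, evL]
  push_cast
  ring

private theorem SqB_In (x y : ℝ) : ev x y In = evL (x ^ 2) Il := by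
  simp only [In, Il, ev, evL]
  push_cast
  ring

private theorem SqB_Zk (x y : ℝ) : ev x y Zk = 6 * (mf x * y ^ 2 / 3) := by
  unfold Zk mf
  rw [ev_M2]
  simp only [ev, evL]
  push_cast
  ring

private theorem SqB_Mn (x y : ℝ) : ev x y Mn = 1296 * evL (mf x * y ^ 2 / 3) Ml := by
  rw [ev_eqP x y _ _ kMn]
  unfold FMn
  simp only [ev_sumP, List.map_cons, List.map_nil, List.sum_cons, List.sum_nil, ev_pSm, ev_pMul,
    SqB_Zk]
  simp only [Ml, ev, evL, List.getD_cons_zero, List.getD_cons_succ]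
  push_cast
  ring

private theorem SqB_Jn (x y : ℝ) : ev x y Jn = 1296 * evL (mf x * y ^ 2 / 3) Jl := by
  rw [ev_eqP x y _ _ kJn]
  unfold FJn
  simp only [ev_sumP, List.map_cons, List.map_nil, List.sum_cons, List.sum_nil, ev_pSm, ev_pMul,
    SqB_Zk]
  simp only [Jl, ev, evL, List.getD_cons_zero, List.getD_cons_succ]
  push_cast
  ring

private theorem SqB_12 {p : P} (hp : p ∈ [pAdd [Tl] (cP (-20)), pAdd [Wl] (cP (-4)),
    pAdd [Il] (cP (-26)), pAdd [Rl] (cP (-8))]) : cn p 8 1 = true := by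
  have h := kF12
  rw [List.all_eq_true] at h
  exact h p hp

private theorem SqB_13 {p : P} (hp : p ∈ [pAdd [Ml] (cP (-4)), pAdd [Jl] (cP (-26))]) :
    cn p 8 2 = true := by
  have h := kF13
  rw [List.all_eq_true] at h
  exact h p hp

private theorem SqB_T (y : ℝ) (h0 : 0 ≤ y) (h1 : y ≤ 1) :
    evL (y ^ 2) Tl - 20 ≤ qE * TT y ∧ qE * TT y ≤ evL (y ^ 2) Tl + 20 := by
  obtain ⟨d0, d1⟩ := SqB_d1 h0 h1
  have hn := SqB_nn (SqB_12 (p := pAdd [Tl] (cP (-20))) (by simp)) (by norm_num) d0 d1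
  have hu := SqB_ups kF0 (by norm_num) d0 d1
  have hl := SqB_lows kF1 (by norm_num) d0 d1
  rw [SqB_s (c := 3 + y ^ 2) (by push_cast; ring)] at hu hl
  have hs : TT y ^ 2 = 3 + y ^ 2 := Real.sq_sqrt (by positivity)
  rw [← hs] at hu hl
  push_cast at hn hu hl
  exact SqB_sq SqB_q (Real.sqrt_nonneg _) hn (by norm_num) (by nlinarith) (by nlinarith)

theorem ap_T (x y : ℝ) (h0 : 0 ≤ y) (h1 : y ≤ 1) : |ev x y Tn / (qE : ℝ) - TT y| ≤ 20 / (qE : ℝ) := by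
  rw [SqB_Tn]
  exact SqB_abs SqB_q (SqB_T y h0 h1)

theorem ap_R (x y : ℝ) (h0 : 0 ≤ y) (h1 : y ≤ 1) :
    |ev x y Rn / (qE : ℝ) - 1 / (2 + TT y)| ≤ 8 / (qE : ℝ) := by
  rw [SqB_Rn]
  have hq := SqB_q
  obtain ⟨d0, d1⟩ := SqB_d1 h0 h1
  obtain ⟨t1, t2⟩ := SqB_T y h0 h1
  have hT : 0 ≤ TT y := Real.sqrt_nonneg _
  have hn := SqB_nn (SqB_12 (p := pAdd [Rl] (cP (-8))) (by simp)) (by norm_num) d0 d1
  have hu := SqB_cn _ 8 1 kF10 (by norm_num) _ d0 d1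
  have hl := SqB_cn _ 8 1 kF11 (by norm_num) _ d0 d1
  simp only [ev_pAdd, ev_pMul, ev_pSm, SqB_e1, ev_cP] at hu hl
  push_cast at hn hu hl
  have e1 : 0 ≤ (evL (y ^ 2) Rl + 8) * (qE * TT y - (evL (y ^ 2) Tl - 20)) :=
    mul_nonneg (by linarith) (by linarith)
  have e2 : 0 ≤ (evL (y ^ 2) Rl - 8) * (evL (y ^ 2) Tl + 20 - qE * TT y) :=
    mul_nonneg (by linarith) (by linarith)
  refine SqB_inv hq (by linarith) ?_ ?_
  · have h3 : (qE : ℝ) * qE ≤ qE * ((2 + TT y) * (evL (y ^ 2) Rl + 8)) := by nlinarith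
    exact le_of_mul_le_mul_left h3 hq
  · have h3 : (qE : ℝ) * ((2 + TT y) * (evL (y ^ 2) Rl - 8)) ≤ qE * qE := by nlinarith
    exact le_of_mul_le_mul_left h3 hq

private theorem SqB_w (x : ℝ) : 0 < wf x ∧ wf x ^ 2 = 1 + x ^ 2 / 2 := by
  unfold wf mf
  exact ⟨Real.sqrt_pos.2 (by positivity), Real.sq_sqrt (by positivity)⟩

theorem ap_W (x y : ℝ) (h0 : 0 ≤ x) (h1 : x ≤ 1) : |ev x y Wn / (qE : ℝ) - wf x| ≤ 4 / (qE : ℝ) := by
  rw [SqB_Wn]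
  obtain ⟨d0, d1⟩ := SqB_d1 h0 h1
  have hn := SqB_nn (SqB_12 (p := pAdd [Wl] (cP (-4))) (by simp)) (by norm_num) d0 d1
  have hu := SqB_ups kF2 (by norm_num) d0 d1
  have hl := SqB_lows kF3 (by norm_num) d0 d1
  obtain ⟨hw, hs⟩ := SqB_w x
  rw [SqB_s (c := 2 * wf x ^ 2) (by rw [hs]; push_cast; ring)] at hu hl
  push_cast at hn hu hl
  exact SqB_abs SqB_q (SqB_sq SqB_q hw.le hn (by norm_num) (by nlinarith) (by nlinarith))

theorem ap_I (x y : ℝ) (h0 : 0 ≤ x) (h1 : x ≤ 1) :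
    |ev x y In / (qE : ℝ) - 1 / wf x| ≤ 26 / (qE : ℝ) := by
  rw [SqB_In]
  obtain ⟨d0, d1⟩ := SqB_d1 h0 h1
  have hn := SqB_nn (SqB_12 (p := pAdd [Il] (cP (-26))) (by simp)) (by norm_num) d0 d1
  have hu := SqB_upi kF4 (by norm_num) d0 d1
  have hl := SqB_lowi kF5 (by norm_num) d0 d1
  obtain ⟨hw, hs⟩ := SqB_w x
  rw [SqB_s (c := 2 * wf x ^ 2) (by rw [hs]; push_cast; ring)] at hu hl
  push_cast at hn hu hl
  obtain ⟨a1, a2⟩ := SqB_sqi SqB_q hw hn (by norm_num) (by linarith) (by linarith)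
  exact SqB_inv SqB_q hw a1 a2

private theorem SqB_m (x y : ℝ) (h0 : 0 ≤ x) (h1 : x ≤ 1) (h2 : 0 ≤ y) (h3 : y ≤ 1) :
    0 < mY x y ∧ mY x y ^ 2 = 1 + mf x * y ^ 2 / 3 ∧
      0 ≤ ((2 : Int) : ℝ) * (mf x * y ^ 2 / 3) ∧ ((2 : Int) : ℝ) * (mf x * y ^ 2 / 3) ≤ 1 := by
  have hx : x ^ 2 ≤ 1 := by nlinarith
  have hy : y ^ 2 ≤ 1 := by nlinarith
  have hx0 : 0 ≤ x ^ 2 := by positivity
  have hy0 : 0 ≤ y ^ 2 := by positivity
  have hm : 0 ≤ mf x * y ^ 2 / 3 := by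
    unfold mf
    positivity
  refine ⟨Real.sqrt_pos.2 (by linarith), Real.sq_sqrt (by linarith), ?_, ?_⟩
  · push_cast
    linarith
  · push_cast
    unfold mf
    nlinarith

theorem ap_M (x y : ℝ) (h0 : 0 ≤ x) (h1 : x ≤ 1) (h2 : 0 ≤ y) (h3 : y ≤ 1) :
    |ev x y Mn / (1296 * (qE : ℝ)) - mY x y| ≤ 4 / (qE : ℝ) := by
  rw [SqB_Mn, mul_div_mul_left _ _ (by norm_num : (1296 : ℝ) ≠ 0)]
  obtain ⟨hm, hs, d0, d1⟩ := SqB_m x y h0 h1 h2 h3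
  have hn := SqB_nn (SqB_13 (p := pAdd [Ml] (cP (-4))) (by simp)) (by norm_num) d0 d1
  have hu := SqB_ups kF6 (by norm_num) d0 d1
  have hl := SqB_lows kF7 (by norm_num) d0 d1
  rw [SqB_s (c := mY x y ^ 2) (by rw [hs]; push_cast; ring)] at hu hl
  push_cast at hn hu hl
  exact SqB_abs SqB_q (SqB_sq SqB_q hm.le hn (by norm_num) (by nlinarith) (by nlinarith))

theorem ap_J (x y : ℝ) (h0 : 0 ≤ x) (h1 : x ≤ 1) (h2 : 0 ≤ y) (h3 : y ≤ 1) :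
    |ev x y Jn / (1296 * (qE : ℝ)) - 1 / mY x y| ≤ 26 / (qE : ℝ) := by
  rw [SqB_Jn, mul_div_mul_left _ _ (by norm_num : (1296 : ℝ) ≠ 0)]
  obtain ⟨hm, hs, d0, d1⟩ := SqB_m x y h0 h1 h2 h3
  have hn := SqB_nn (SqB_13 (p := pAdd [Jl] (cP (-26))) (by simp)) (by norm_num) d0 d1
  have hu := SqB_upi kF8 (by norm_num) d0 d1
  have hl := SqB_lowi kF9 (by norm_num) d0 d1
  rw [SqB_s (c := mY x y ^ 2) (by rw [hs]; push_cast; ring)] at hu hl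
  push_cast at hn hu hl
  obtain ⟨a1, a2⟩ := SqB_sqi SqB_q hm hn (by norm_num) (by linarith) (by linarith)
  exact SqB_inv SqB_q hm a1 a2

end Pool.Agent.MSQ
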