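import Pool.Agent.MSQ.SqB
/-!
EA2 (110 lines). The upper bounds E2, E2l are below their polynomial approximations.

Notation: q = qE = 4194304 (as real), T = TT y, w = wf x, I = 1/w, M = mY x y, J = 1/M; tilde = polynomial
approximations: T~ = ev Tn/q, W~ = ev Wn/q, I~ = ev In/q, M~ = ev Mn/(1296 q), J~ = ev Jn/(1296 q);
|T~-T| ≤ 20/q, |W~-w| ≤ 4/q, |I~-I| ≤ 26/q, |M~-M| ≤ 4/q, |J~-J| ≤ 26/q (SqB), 0 ≤ T ≤ 2, 1 ≤ w ≤ 1.2248,
0 ≤ I ≤ 1, 1 ≤ M ≤ 1.2248, 0 ≤ J ≤ 1; constants c3n/q, ccn/q, c15n/q are within 1/q of √3, cc, r15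
(squares; norm_num with Real.sqrt bounds). epn/QE = 192/q. QE = 2 q^6 1296.
Product rule: |a b - a' b'| ≤ |a - a'| |b| + |a'| |b - b'|.

PROOF. uv UE2 = uv UE1 - (c3n/q) T~ I~ br~, br~ = c1~ - c1~ (c15n/q) x J~ - s~ M~ + s~ (c15n/q) x with
 c1~ = (q - ccn)/(2q), s~ = (2q - c3n)/(2q) (kE2, kE1, FE2, brP; 2 q^3 1296 br~ = ev brP), and
 E2 = E1 - √3 T I br, br = (1-cc)/2 (1 - x r15 J) - (1-s3)(M - r15 x).
 |uv UE1 - 192/q - E1| ≤ 100/q as in EA1 (repeat the estimate here as a private lemma),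
 |br~ - br| ≤ 9/q  (c1: 1/2 *(1+1.2248); c1 r15 J: .15*(1 + 1.2248*26); s M: .5*1.2248 + .134*4; ...),
 |br| ≤ 1/20 (crude: |c1 - (1-s3) M| ≤ .02, the factor 1 - x r15 J has absolute value ≤ 1 and
   br = (c1 - (1-s3) M)(1 - x r15 J)),
 so |√3 T I br - tilde| ≤ (1.7321*2*9 + (1/20 + small)(1.7321*73 + 3))/q ≤ 40/q. Total ≤ 140/q < 192/q.
 E2l = E2 + √3 td0 T y (1 - x r15 J), uv UE2l = uv UE2 + (c3n/q)(tdn/(2q)) T~ y (1 - (c15n/q) x J~) (kE2l),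
 |tdn/(2q) - td0| ≤ 1.5/q, td0 ≤ .013: additional error ≤ 10/q.
-/
namespace Pool.Agent.MSQ

private lemma ea2_mul {a b a' b' A B da db : ℝ} (h1 : |a' - a| ≤ da) (h2 : |b' - b| ≤ db)
    (hb : |b'| ≤ B) (ha : |a| ≤ A) : |a' * b' - a * b| ≤ da * B + A * db := by
  have h : a' * b' - a * b = (a' - a) * b' + a * (b' - b) := by ring
  rw [h]
  refine (abs_add_le _ _).trans (add_le_add ?_ ?_)
  · rw [abs_mul]
    exact mul_le_mul h1 hb (abs_nonneg _) ((abs_nonneg _).trans h1)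
  · rw [abs_mul]
    exact mul_le_mul ha h2 (abs_nonneg _) ((abs_nonneg _).trans ha)

private lemma ea2_q : ((qE : ℤ) : ℝ) = 4194304 := by norm_num [qE]

private lemma ea2_QE : ((QE : ℤ) : ℝ) = 2 * 4194304 ^ 6 * 1296 := by
  norm_num [QE, qE]

private lemma ea2_TT (y : ℝ) (h2 : 0 ≤ y) (h3 : y ≤ 1) :
    0 ≤ TT y ∧ TT y ≤ 2 ∧ TT y ^ 2 = 3 + y ^ 2 := by
  refine ⟨Real.sqrt_nonneg _, ?_, Real.sq_sqrt (by positivity)⟩
  unfold TT
  rw [Real.sqrt_le_iff]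
  constructor <;> nlinarith

private lemma ea2_w (x : ℝ) (h0 : 0 ≤ x) (h1 : x ≤ 1) : 1 ≤ wf x ∧ wf x ≤ 1.2248 := by
  unfold wf mf
  constructor
  · rw [Real.one_le_sqrt]; nlinarith
  · rw [Real.sqrt_le_iff]
    constructor
    · norm_num
    · nlinarith

private lemma ea2_I (x : ℝ) (h0 : 0 ≤ x) (h1 : x ≤ 1) : 0 ≤ 1 / wf x ∧ 1 / wf x ≤ 1 := by
  obtain ⟨h, _⟩ := ea2_w x h0 h1
  constructor
  · positivity
  · rw [div_le_one (by linarith)]; exact h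

private lemma ea2_M (x y : ℝ) (h0 : 0 ≤ x) (h1 : x ≤ 1) (h2 : 0 ≤ y) (h3 : y ≤ 1) :
    1 ≤ mY x y ∧ mY x y ≤ 1.2248 := by
  have hx : x ^ 2 ≤ 1 := by nlinarith
  have hy : y ^ 2 ≤ 1 := by nlinarith
  have hx0 : 0 ≤ x ^ 2 := sq_nonneg x
  have hy0 : 0 ≤ y ^ 2 := sq_nonneg y
  have hm : (1 + x ^ 2 / 2) * y ^ 2 ≤ 3 / 2 := by nlinarith
  have hm0 : 0 ≤ (1 + x ^ 2 / 2) * y ^ 2 := by positivity
  unfold mY mf
  constructor
  · rw [Real.one_le_sqrt]; linarith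
  · rw [Real.sqrt_le_iff]
    constructor
    · norm_num
    · norm_num
      linarith

private lemma ea2_r15 : 1.2247 ≤ r15 ∧ r15 ≤ 1.2248 := by
  unfold r15
  constructor
  · apply Real.le_sqrt_of_sq_le; norm_num
  · rw [Real.sqrt_le_iff]; norm_num

private lemma ea2_c15 : |((c15n : ℤ) : ℝ) / 4194304 - r15| ≤ 1 / 4194304 := by
  have hc : ((c15n : ℤ) : ℝ) = 5136952 := by norm_num [c15n]
  rw [hc, abs_le]
  unfold r15
  constructor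
  · have : √(3 / 2 : ℝ) ≤ 5136953 / 4194304 := by
      rw [Real.sqrt_le_iff]; norm_num
    linarith
  · have : (5136951 : ℝ) / 4194304 ≤ √(3 / 2 : ℝ) := by
      apply Real.le_sqrt_of_sq_le; norm_num
    linarith

private lemma ea2_ep : ((epn : ℤ) : ℝ) / (2 * 4194304 ^ 6 * 1296) = 192 / 4194304 := by
  norm_num [epn]

/-- exact value of `UE1` -/
private lemma ea2_uE1 (x y : ℝ) : uv x y UE1 =
    3 / 2 * (ev x y Tn / 4194304) + (ev x y Tn / 4194304) * (ev x y In / 4194304) *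
      (3 / 2 * (ev x y Mn / (1296 * 4194304)) - (c15n : ℝ) / 4194304) - 3 - y ^ 2 +
      192 / 4194304 := by
  unfold uv
  rw [ev_eqP x y _ _ kE1]
  have h : ev x y [[0, 0, 1]] = y ^ 2 := by
    simp [ev, evL]; ring
  unfold FE1
  rw [ev_sumP]
  simp only [List.map_cons, List.map_nil, List.sum_cons, List.sum_nil, ev_pSm, ev_pMul, ev_cP, h]
  rw [← ea2_ep]
  push_cast
  rw [ea2_q, ea2_QE]
  ring

/-- the product `T I` -/
private lemma ea2_TI (x y : ℝ) (h0 : 0 ≤ x) (h1 : x ≤ 1) (h2 : 0 ≤ y) (h3 : y ≤ 1) :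
    |ev x y Tn / 4194304 - TT y| ≤ 20 / 4194304 ∧
    |(ev x y Tn / 4194304) * (ev x y In / 4194304) - TT y * (1 / wf x)| ≤ 73 / 4194304 := by
  have hT := ap_T x y h2 h3
  have hI := ap_I x y h0 h1
  rw [ea2_q] at hT hI
  obtain ⟨t0, t1, _⟩ := ea2_TT y h2 h3
  obtain ⟨i0, i1⟩ := ea2_I x h0 h1
  refine ⟨hT, ?_⟩
  have hI' : |ev x y In / 4194304| ≤ 1 + 26 / 4194304 := by
    rw [abs_le] at hI ⊢
    constructor <;> linarith [hI.1, hI.2]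
  have hTa : |TT y| ≤ 2 := by rw [abs_of_nonneg t0]; exact t1
  refine (ea2_mul hT hI hI' hTa).trans ?_
  norm_num

private lemma ea2_mid (x y : ℝ) (h0 : 0 ≤ x) (h1 : x ≤ 1) (h2 : 0 ≤ y) (h3 : y ≤ 1) :
    |(ev x y Tn / 4194304) * (ev x y In / 4194304)| ≤ 2.001 ∧
    |3 / 2 * (ev x y Mn / (1296 * 4194304)) - (c15n : ℝ) / 4194304| ≤ 0.626 ∧
    |(ev x y Tn / 4194304) * (ev x y In / 4194304) *
      (3 / 2 * (ev x y Mn / (1296 * 4194304)) - (c15n : ℝ) / 4194304) -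
      TT y * (1 / wf x) * (3 / 2 * mY x y - r15)| ≤ 65 / 4194304 := by
  obtain ⟨hT, hTI⟩ := ea2_TI x y h0 h1 h2 h3
  have hM := ap_M x y h0 h1 h2 h3
  rw [ea2_q] at hM
  obtain ⟨t0, t1, _⟩ := ea2_TT y h2 h3
  obtain ⟨i0, i1⟩ := ea2_I x h0 h1
  obtain ⟨m0, m1⟩ := ea2_M x y h0 h1 h2 h3
  obtain ⟨r0, r1⟩ := ea2_r15
  have hc := ea2_c15
  have hTI0 : 0 ≤ TT y * (1 / wf x) := mul_nonneg t0 i0
  have hTI1 : TT y * (1 / wf x) ≤ 2 := by nlinarith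
  have hMc : |(3 / 2 * (ev x y Mn / (1296 * 4194304)) - (c15n : ℝ) / 4194304) -
      (3 / 2 * mY x y - r15)| ≤ 7 / 4194304 := by
    rw [abs_le] at hM hc ⊢
    constructor <;> linarith [hM.1, hM.2, hc.1, hc.2]
  have hB : |3 / 2 * (ev x y Mn / (1296 * 4194304)) - (c15n : ℝ) / 4194304| ≤ 0.626 := by
    rw [abs_le] at hMc ⊢
    constructor <;> norm_num at * <;> linarith [hMc.1, hMc.2]
  have hA : |TT y * (1 / wf x)| ≤ 2 := by rw [abs_of_nonneg hTI0]; exact hTI1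
  refine ⟨?_, hB, ?_⟩
  · rw [abs_le] at hTI ⊢
    constructor <;> norm_num at * <;> linarith [hTI.1, hTI.2]
  · refine (ea2_mul hTI hMc hB hA).trans ?_
    norm_num


private lemma ea2_E1 (x y : ℝ) (h0 : 0 ≤ x) (h1 : x ≤ 1) (h2 : 0 ≤ y) (h3 : y ≤ 1) :
    E1 x y ≤ uv x y UE1 - 90 / 4194304 := by
  rw [ea2_uE1]
  obtain ⟨hT, hTI⟩ := ea2_TI x y h0 h1 h2 h3
  obtain ⟨_, _, hm⟩ := ea2_mid x y h0 h1 h2 h3
  obtain ⟨t0, t1, t2⟩ := ea2_TT y h2 h3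
  have hE : E1 x y = 3 / 2 * TT y + TT y * (1 / wf x) * (3 / 2 * mY x y - r15) - 3 - y ^ 2 := by
    unfold E1
    have : TT y * (3 / 2 + 3 / 2 * mY x y / wf x - r15 / wf x - TT y) =
      3 / 2 * TT y + TT y * (1 / wf x) * (3 / 2 * mY x y - r15) - TT y ^ 2 := by ring
    rw [this, t2]; ring
  rw [hE]
  rw [abs_le] at hT hm
  norm_num at hT hm ⊢
  linarith [hT.1, hT.2, hm.1, hm.2]

private lemma ea2_bd1 (x y : ℝ) (h0 : 0 ≤ x) (h1 : x ≤ 1) (h2 : 0 ≤ y) (h3 : y ≤ 1) :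
    |uv x y UE1| ≤ 9 := by
  rw [ea2_uE1]
  obtain ⟨hT, hTI⟩ := ea2_TI x y h0 h1 h2 h3
  obtain ⟨hp, hB, _⟩ := ea2_mid x y h0 h1 h2 h3
  obtain ⟨t0, t1, t2⟩ := ea2_TT y h2 h3
  have h := mul_le_mul hp hB (abs_nonneg _) (by norm_num : (0:ℝ) ≤ 2.001)
  rw [← abs_mul] at h
  have hy : y ^ 2 ≤ 1 := by nlinarith
  have hy0 : 0 ≤ y ^ 2 := sq_nonneg y
  rw [abs_le] at hT h ⊢
  norm_num at hT h ⊢
  constructor <;> linarith [hT.1, hT.2, h.1, h.2]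

private lemma ea2_c3 : |((c3n : ℤ) : ℝ) / 4194304 - √3| ≤ 1 / 4194304 := by
  have hc : ((c3n : ℤ) : ℝ) = 7264748 := by norm_num [c3n]
  rw [hc, abs_le]
  constructor
  · have : √(3 : ℝ) ≤ 7264749 / 4194304 := by
      rw [Real.sqrt_le_iff]; norm_num
    linarith
  · have : (7264747 : ℝ) / 4194304 ≤ √(3 : ℝ) := by
      apply Real.le_sqrt_of_sq_le; norm_num
    linarith

private lemma ea2_cceq : cc = √(1 / 2) := by
  unfold cc
  rw [Real.sqrt_div zero_le_one, Real.sqrt_one]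

private lemma ea2_cc : |((ccn : ℤ) : ℝ) / 4194304 - cc| ≤ 1 / 4194304 := by
  have hc : ((ccn : ℤ) : ℝ) = 2965821 := by norm_num [ccn]
  rw [hc, abs_le, ea2_cceq]
  constructor
  · have : √(1 / 2 : ℝ) ≤ 2965822 / 4194304 := by
      rw [Real.sqrt_le_iff]; norm_num
    linarith
  · have : (2965820 : ℝ) / 4194304 ≤ √(1 / 2 : ℝ) := by
      apply Real.le_sqrt_of_sq_le; norm_num
    linarith

private lemma ea2_s3 : 1.73205 ≤ √(3:ℝ) ∧ √(3:ℝ) ≤ 1.73206 := by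
  constructor
  · apply Real.le_sqrt_of_sq_le; norm_num
  · rw [Real.sqrt_le_iff]; norm_num

private lemma ea2_ccb : 0.7071 ≤ cc ∧ cc ≤ 0.70711 := by
  rw [ea2_cceq]
  constructor
  · apply Real.le_sqrt_of_sq_le; norm_num
  · rw [Real.sqrt_le_iff]; norm_num

/-- value of `brP` -/
private noncomputable def ea2_br' (x y : ℝ) : ℝ :=
  (1 - (ccn : ℝ) / 4194304) / 2 -
    (1 - (ccn : ℝ) / 4194304) / 2 * (((c15n : ℝ) / 4194304) * (ev x y Jn / (1296 * 4194304))) * x -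
    (1 - (c3n : ℝ) / 4194304 / 2) * (ev x y Mn / (1296 * 4194304)) +
    (1 - (c3n : ℝ) / 4194304 / 2) * ((c15n : ℝ) / 4194304) * x

private lemma ea2_brv (x y : ℝ) : ev x y brP = 2 * 4194304 ^ 3 * 1296 * ea2_br' x y := by
  unfold brP ea2_br'
  rw [ev_sumP]
  simp only [List.map_cons, List.map_nil, List.sum_cons, List.sum_nil, ev_pSm, ev_pX, ev_cP]
  push_cast
  rw [ea2_q]
  ring

private lemma ea2_uE2 (x y : ℝ) : uv x y UE2 = uv x y UE1 -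
    (c3n : ℝ) / 4194304 * ((ev x y Tn / 4194304) * (ev x y In / 4194304)) * ea2_br' x y := by
  unfold uv
  rw [ev_eqP x y _ _ kE2, ev_eqP x y _ _ kE1]
  unfold FE2
  rw [ev_sumP]
  simp only [List.map_cons, List.map_nil, List.sum_cons, List.sum_nil, ev_pSm, ev_pMul, ev_cP,
    ea2_brv]
  push_cast
  rw [ea2_QE]
  ring

private lemma ea2_uE2l (x y : ℝ) : uv x y UE2l = uv x y UE2 +
    (c3n : ℝ) / 4194304 * (((tdn : ℝ) / (2 * 4194304)) * (ev x y Tn / 4194304)) *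
      (1 - ((c15n : ℝ) / 4194304) * (ev x y Jn / (1296 * 4194304)) * x) * y := by
  unfold uv
  rw [ev_eqP x y _ _ kE2l, ev_eqP x y _ _ kE2]
  unfold FE2l
  rw [ev_sumP]
  simp only [List.map_cons, List.map_nil, List.sum_cons, List.sum_nil, ev_pSm, ev_pMul, ev_cP,
    ev_pX, ev_pY]
  push_cast
  rw [ea2_q, ea2_QE]
  ring

private lemma ea2_J (x y : ℝ) (h0 : 0 ≤ x) (h1 : x ≤ 1) (h2 : 0 ≤ y) (h3 : y ≤ 1) :
    0 ≤ 1 / mY x y ∧ 1 / mY x y ≤ 1 := by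
  obtain ⟨h, _⟩ := ea2_M x y h0 h1 h2 h3
  constructor
  · positivity
  · rw [div_le_one (by linarith)]; exact h

/-- `r15 J` -/
private lemma ea2_rJ (x y : ℝ) (h0 : 0 ≤ x) (h1 : x ≤ 1) (h2 : 0 ≤ y) (h3 : y ≤ 1) :
    |((c15n : ℝ) / 4194304) * (ev x y Jn / (1296 * 4194304)) - r15 * (1 / mY x y)| ≤
      33 / 4194304 ∧ 0 ≤ r15 * (1 / mY x y) ∧ r15 * (1 / mY x y) ≤ 1.2248 ∧
    |((c15n : ℝ) / 4194304) * (ev x y Jn / (1296 * 4194304))| ≤ 1.2249 := by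
  have hJ := ap_J x y h0 h1 h2 h3
  rw [ea2_q] at hJ
  obtain ⟨j0, j1⟩ := ea2_J x y h0 h1 h2 h3
  obtain ⟨r0, r1⟩ := ea2_r15
  have hc := ea2_c15
  have hJ' : |ev x y Jn / (1296 * 4194304)| ≤ 1 + 26 / 4194304 := by
    rw [abs_le] at hJ ⊢
    constructor <;> linarith [hJ.1, hJ.2]
  have hr : |r15| ≤ 1.2248 := by
    rw [abs_le]; constructor <;> norm_num at * <;> linarith
  have h := ea2_mul hc hJ hJ' hr
  have h' : |((c15n : ℝ) / 4194304) * (ev x y Jn / (1296 * 4194304)) - r15 * (1 / mY x y)| ≤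
      33 / 4194304 := h.trans (by norm_num)
  have hr0 : 0 ≤ r15 := by norm_num at r0; linarith
  have a0 : 0 ≤ r15 * (1 / mY x y) := mul_nonneg hr0 j0
  have a1 : r15 * (1 / mY x y) ≤ 1.2248 := by nlinarith
  refine ⟨h', a0, a1, ?_⟩
  have e1 : (33:ℝ) / 4194304 ≤ 0.0001 := by norm_num
  have e2 : (1.2249:ℝ) = 1.2248 + 0.0001 := by norm_num
  rw [abs_le] at h' ⊢
  rw [e2]
  constructor <;> linarith [h'.1, h'.2]

private noncomputable def ea2_br (x y : ℝ) : ℝ :=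
  (1 - cc) / 2 - (1 - cc) / 2 * (r15 * (1 / mY x y)) * x - (1 - s3) * mY x y + (1 - s3) * r15 * x

private lemma ea2_brbd (x y : ℝ) (h0 : 0 ≤ x) (h1 : x ≤ 1) (h2 : 0 ≤ y) (h3 : y ≤ 1) :
    |ea2_br x y| ≤ 1 / 20 := by
  obtain ⟨m0, m1⟩ := ea2_M x y h0 h1 h2 h3
  obtain ⟨_, a0, a1, _⟩ := ea2_rJ x y h0 h1 h2 h3
  obtain ⟨s0, s1⟩ := ea2_s3
  obtain ⟨c0, c1⟩ := ea2_ccb
  have hm : mY x y ≠ 0 := by linarith
  have hf : ea2_br x y = ((1 - cc) / 2 - (1 - s3) * mY x y) * (1 - r15 * (1 / mY x y) * x) := by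
    unfold ea2_br
    field_simp
    ring
  rw [hf, abs_mul]
  have hs : s3 = √3 / 2 := rfl
  have hA : |(1 - cc) / 2 - (1 - s3) * mY x y| ≤ 1 / 20 := by
    rw [hs, abs_le]
    norm_num at s0 s1 c0 c1 m1
    constructor <;> nlinarith
  have hB : |1 - r15 * (1 / mY x y) * x| ≤ 1 := by
    rw [abs_le]
    have q1 := mul_nonneg a0 h0
    have q2 : r15 * (1 / mY x y) * x ≤ 1.2248 * 1 := mul_le_mul a1 h1 h0 (by norm_num)
    constructor <;> linarith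
  calc _ ≤ 1 / 20 * 1 := mul_le_mul hA hB (abs_nonneg _) (by norm_num)
    _ = 1 / 20 := by norm_num

private lemma ea2_brd (x y : ℝ) (h0 : 0 ≤ x) (h1 : x ≤ 1) (h2 : 0 ≤ y) (h3 : y ≤ 1) :
    |ea2_br' x y - ea2_br x y| ≤ 9 / 4194304 := by
  obtain ⟨m0, m1⟩ := ea2_M x y h0 h1 h2 h3
  obtain ⟨hj, a0, a1, a2⟩ := ea2_rJ x y h0 h1 h2 h3
  obtain ⟨s0, s1⟩ := ea2_s3
  obtain ⟨c0, c1⟩ := ea2_ccb
  obtain ⟨r0, r1⟩ := ea2_r15
  have hM := ap_M x y h0 h1 h2 h3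
  rw [ea2_q] at hM
  have hs : s3 = √3 / 2 := rfl
  have k1 : |(1 - (ccn : ℝ) / 4194304) / 2 - (1 - cc) / 2| ≤ 1 / 2 / 4194304 := by
    have := ea2_cc
    rw [abs_le] at this ⊢
    norm_num at this ⊢
    constructor <;> linarith [this.1, this.2]
  have k2 : |(1 - (c3n : ℝ) / 4194304 / 2) - (1 - s3)| ≤ 1 / 2 / 4194304 := by
    have := ea2_c3
    rw [hs]
    rw [abs_le] at this ⊢
    norm_num at this ⊢
    constructor <;> linarith [this.1, this.2]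
  have b1 : |(1 - cc) / 2| ≤ 0.1465 := by
    rw [abs_le]; norm_num at c0 c1 ⊢; constructor <;> linarith
  have b2 : |1 - s3| ≤ 0.134 := by
    rw [hs, abs_le]; norm_num at s0 s1 ⊢; constructor <;> linarith
  have hM' : |ev x y Mn / (1296 * 4194304)| ≤ 1.2249 := by
    rw [abs_le] at hM ⊢
    norm_num at hM m1 ⊢
    constructor <;> linarith [hM.1, hM.2]
  have hr' : |(c15n : ℝ) / 4194304| ≤ 1.2249 := by
    have := ea2_c15
    rw [abs_le] at this ⊢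
    norm_num at this r0 r1 ⊢
    constructor <;> linarith [this.1, this.2]
  have t2 := ea2_mul k1 hj a2 b1
  have t3 := ea2_mul k2 hM hM' b2
  have t4 := ea2_mul k2 ea2_c15 hr' b2
  have t2x : |((1 - (ccn : ℝ) / 4194304) / 2 * (((c15n : ℝ) / 4194304) *
      (ev x y Jn / (1296 * 4194304))) - (1 - cc) / 2 * (r15 * (1 / mY x y))) * x| ≤
      1 / 2 / 4194304 * 1.2249 + 0.1465 * (33 / 4194304) := by
    rw [abs_mul, abs_of_nonneg h0]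
    calc _ ≤ (1 / 2 / 4194304 * 1.2249 + 0.1465 * (33 / 4194304)) * 1 :=
          mul_le_mul t2 h1 h0 (by norm_num)
      _ = _ := mul_one _
  have t4x : |((1 - (c3n : ℝ) / 4194304 / 2) * ((c15n : ℝ) / 4194304) - (1 - s3) * r15) * x| ≤
      1 / 2 / 4194304 * 1.2249 + 0.134 * (1 / 4194304) := by
    rw [abs_mul, abs_of_nonneg h0]
    calc _ ≤ (1 / 2 / 4194304 * 1.2249 + 0.134 * (1 / 4194304)) * 1 :=
          mul_le_mul t4 h1 h0 (by norm_num)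
      _ = _ := mul_one _
  have hd : ea2_br' x y - ea2_br x y =
      ((1 - (ccn : ℝ) / 4194304) / 2 - (1 - cc) / 2) -
      ((1 - (ccn : ℝ) / 4194304) / 2 * (((c15n : ℝ) / 4194304) *
        (ev x y Jn / (1296 * 4194304))) - (1 - cc) / 2 * (r15 * (1 / mY x y))) * x -
      ((1 - (c3n : ℝ) / 4194304 / 2) * (ev x y Mn / (1296 * 4194304)) - (1 - s3) * mY x y) +
      ((1 - (c3n : ℝ) / 4194304 / 2) * ((c15n : ℝ) / 4194304) - (1 - s3) * r15) * x := by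
    unfold ea2_br' ea2_br
    ring
  rw [hd]
  generalize ((1 - (ccn : ℝ) / 4194304) / 2 - (1 - cc) / 2) = A1 at k1 ⊢
  generalize ((1 - (ccn : ℝ) / 4194304) / 2 * (((c15n : ℝ) / 4194304) *
        (ev x y Jn / (1296 * 4194304))) - (1 - cc) / 2 * (r15 * (1 / mY x y))) * x = A2 at t2x ⊢
  generalize ((1 - (c3n : ℝ) / 4194304 / 2) * (ev x y Mn / (1296 * 4194304)) -
      (1 - s3) * mY x y) = A3 at t3 ⊢
  generalize ((1 - (c3n : ℝ) / 4194304 / 2) * ((c15n : ℝ) / 4194304) - (1 - s3) * r15) * x = A4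
      at t4x ⊢
  rw [abs_le] at k1 t2x t3 t4x ⊢
  norm_num at k1 t2x t3 t4x ⊢
  constructor <;> linarith [k1.1, k1.2, t2x.1, t2x.2, t3.1, t3.2, t4x.1, t4x.2]

/-- the middle factor -/
private lemma ea2_c3TI (x y : ℝ) (h0 : 0 ≤ x) (h1 : x ≤ 1) (h2 : 0 ≤ y) (h3 : y ≤ 1) :
    |(c3n : ℝ) / 4194304 * ((ev x y Tn / 4194304) * (ev x y In / 4194304)) -
      √3 * (TT y * (1 / wf x))| ≤ 129 / 4194304 ∧ |√3 * (TT y * (1 / wf x))| ≤ 3.4642 ∧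
    |(c3n : ℝ) / 4194304 * ((ev x y Tn / 4194304) * (ev x y In / 4194304))| ≤ 3.4643 := by
  obtain ⟨_, hTI⟩ := ea2_TI x y h0 h1 h2 h3
  obtain ⟨hp, _, _⟩ := ea2_mid x y h0 h1 h2 h3
  obtain ⟨t0, t1, _⟩ := ea2_TT y h2 h3
  obtain ⟨i0, i1⟩ := ea2_I x h0 h1
  obtain ⟨s0, s1⟩ := ea2_s3
  have hTI0 : 0 ≤ TT y * (1 / wf x) := mul_nonneg t0 i0
  have hTI1 : TT y * (1 / wf x) ≤ 2 := by nlinarith
  have hs : |√(3:ℝ)| ≤ 1.73206 := by rw [abs_of_nonneg (Real.sqrt_nonneg _)]; exact s1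
  have h := ea2_mul ea2_c3 hTI hp hs
  have h' : |(c3n : ℝ) / 4194304 * ((ev x y Tn / 4194304) * (ev x y In / 4194304)) -
      √3 * (TT y * (1 / wf x))| ≤ 129 / 4194304 := h.trans (by norm_num)
  have hb : |√3 * (TT y * (1 / wf x))| ≤ 3.4642 := by
    rw [abs_of_nonneg (by positivity)]
    calc √3 * (TT y * (1 / wf x)) ≤ 1.73206 * 2 := mul_le_mul s1 hTI1 hTI0 (by norm_num)
      _ ≤ _ := by norm_num
  refine ⟨h', hb, ?_⟩
  rw [abs_le] at h' hb ⊢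
  norm_num at h' hb ⊢
  constructor <;> linarith [h'.1, h'.2, hb.1, hb.2]

private lemma ea2_E2 (x y : ℝ) (h0 : 0 ≤ x) (h1 : x ≤ 1) (h2 : 0 ≤ y) (h3 : y ≤ 1) :
    E2 x y ≤ uv x y UE2 - 40 / 4194304 := by
  rw [ea2_uE2]
  have hE1 := ea2_E1 x y h0 h1 h2 h3
  obtain ⟨h, hb, _⟩ := ea2_c3TI x y h0 h1 h2 h3
  have hbr := ea2_brd x y h0 h1 h2 h3
  have hbb := ea2_brbd x y h0 h1 h2 h3
  have hb' : |ea2_br' x y| ≤ 0.0501 := by
    rw [abs_le] at hbr hbb ⊢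
    norm_num at hbr hbb ⊢
    constructor <;> linarith [hbr.1, hbr.2, hbb.1, hbb.2]
  have hh := ea2_mul h hbr hb' hb
  have hE : E2 x y = E1 x y - √3 * (TT y * (1 / wf x)) * ea2_br x y := by
    unfold E2 ea2_br
    ring
  rw [hE]
  generalize (c3n : ℝ) / 4194304 * ((ev x y Tn / 4194304) * (ev x y In / 4194304)) *
    ea2_br' x y = P' at hh ⊢
  generalize √3 * (TT y * (1 / wf x)) * ea2_br x y = P0 at hh ⊢
  rw [abs_le] at hh
  norm_num at hh hE1 ⊢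
  linarith [hh.1, hh.2]

theorem ea_E2 (x y : ℝ) (h0 : 0 ≤ x) (h1 : x ≤ 1) (h2 : 0 ≤ y) (h3 : y ≤ 1) :
    E2 x y ≤ uv x y UE2 := by
  have h := ea2_E2 x y h0 h1 h2 h3
  have e : (0:ℝ) ≤ 40 / 4194304 := by norm_num
  linarith

theorem ea_E2l (x y : ℝ) (h0 : 0 ≤ x) (h1 : x ≤ 1) (h2 : 0 ≤ y) (h3 : y ≤ 1) :
    E2l x y ≤ uv x y UE2l := by
  rw [ea2_uE2l]
  have hE2 := ea2_E2 x y h0 h1 h2 h3
  obtain ⟨hj, a0, a1, a2⟩ := ea2_rJ x y h0 h1 h2 h3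
  obtain ⟨s0, s1⟩ := ea2_s3
  obtain ⟨c0, c1⟩ := ea2_ccb
  obtain ⟨t0, t1, _⟩ := ea2_TT y h2 h3
  have hT := ap_T x y h2 h3
  rw [ea2_q] at hT
  have h3c := ea2_c3
  have hcc := ea2_cc
  have htd : ((tdn : ℤ) : ℝ) / (2 * 4194304) =
      ((c3n : ℝ) / 4194304 - (ccn : ℝ) / 4194304 - 1) / 2 := by
    unfold tdn
    push_cast
    rw [ea2_q]
    ring
  have htd0 : |((tdn : ℤ) : ℝ) / (2 * 4194304) - td0| ≤ 1 / 4194304 := by
    rw [htd]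
    unfold td0
    rw [abs_le] at h3c hcc ⊢
    norm_num at h3c hcc ⊢
    constructor <;> linarith [h3c.1, h3c.2, hcc.1, hcc.2]
  have hd0 : 0 ≤ td0 := by unfold td0; norm_num at s0 c1; linarith
  have hd1 : td0 ≤ 0.0125 := by unfold td0; norm_num at s1 c0 ⊢; linarith
  have hda : |td0| ≤ 0.0125 := by rw [abs_of_nonneg hd0]; exact hd1
  have hTa : |TT y| ≤ 2 := by rw [abs_of_nonneg t0]; exact t1
  have hT' : |ev x y Tn / 4194304| ≤ 2.0001 := by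
    rw [abs_le] at hT hTa ⊢
    norm_num at hT hTa ⊢
    constructor <;> linarith [hT.1, hT.2, hTa.1, hTa.2]
  have u1 := ea2_mul htd0 hT hT' hda
  have u1a : |td0 * TT y| ≤ 0.025 := by
    rw [abs_mul]
    calc |td0| * |TT y| ≤ 0.0125 * 2 := mul_le_mul hda hTa (abs_nonneg _) (by norm_num)
      _ = _ := by norm_num
  have u1b : |((tdn : ℤ) : ℝ) / (2 * 4194304) * (ev x y Tn / 4194304)| ≤ 0.0251 := by
    rw [abs_le] at u1 u1a ⊢
    norm_num at u1 u1a ⊢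
    constructor <;> linarith [u1.1, u1.2, u1a.1, u1a.2]
  have hs : |√(3:ℝ)| ≤ 1.73206 := by rw [abs_of_nonneg (Real.sqrt_nonneg _)]; exact s1
  have v1 := ea2_mul h3c u1 u1b hs
  have v1a : |√3 * (td0 * TT y)| ≤ 0.0434 := by
    rw [abs_mul]
    calc |√(3:ℝ)| * |td0 * TT y| ≤ 1.73206 * 0.025 :=
          mul_le_mul hs u1a (abs_nonneg _) (by norm_num)
      _ ≤ _ := by norm_num
  have w1 : |(1 - ((c15n : ℝ) / 4194304) * (ev x y Jn / (1296 * 4194304)) * x) -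
      (1 - r15 * (1 / mY x y) * x)| ≤ 33 / 4194304 := by
    have e : (1 - ((c15n : ℝ) / 4194304) * (ev x y Jn / (1296 * 4194304)) * x) -
      (1 - r15 * (1 / mY x y) * x) = -((((c15n : ℝ) / 4194304) *
        (ev x y Jn / (1296 * 4194304)) - r15 * (1 / mY x y)) * x) := by ring
    rw [e, abs_neg, abs_mul, abs_of_nonneg h0]
    calc _ ≤ 33 / 4194304 * 1 := mul_le_mul hj h1 h0 (by norm_num)
      _ = _ := mul_one _
  have w2 : |1 - r15 * (1 / mY x y) * x| ≤ 1 := by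
    rw [abs_le]
    have q1 := mul_nonneg a0 h0
    have q2 : r15 * (1 / mY x y) * x ≤ 1.2248 * 1 := mul_le_mul a1 h1 h0 (by norm_num)
    constructor <;> linarith
  have w3 : |1 - ((c15n : ℝ) / 4194304) * (ev x y Jn / (1296 * 4194304)) * x| ≤ 1.0001 := by
    rw [abs_le] at w1 w2 ⊢
    norm_num at w1 w2 ⊢
    constructor <;> linarith [w1.1, w1.2, w2.1, w2.2]
  have z := ea2_mul v1 w1 w3 v1a
  have zy : |((c3n : ℝ) / 4194304 * (((tdn : ℝ) / (2 * 4194304)) * (ev x y Tn / 4194304)) *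
      (1 - ((c15n : ℝ) / 4194304) * (ev x y Jn / (1296 * 4194304)) * x) -
      √3 * (td0 * TT y) * (1 - r15 * (1 / mY x y) * x)) * y| ≤ 10 / 4194304 := by
    rw [abs_mul, abs_of_nonneg h2]
    refine (mul_le_mul z h3 h2 (by norm_num)).trans ?_
    norm_num
  have hE : E2l x y = E2 x y + √3 * (td0 * TT y) * (1 - r15 * (1 / mY x y) * x) * y := by
    unfold E2l
    ring
  rw [hE]
  rw [sub_mul] at zy
  generalize (c3n : ℝ) / 4194304 * (((tdn : ℝ) / (2 * 4194304)) * (ev x y Tn / 4194304)) *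
      (1 - ((c15n : ℝ) / 4194304) * (ev x y Jn / (1296 * 4194304)) * x) * y = P' at zy ⊢
  generalize √3 * (td0 * TT y) * (1 - r15 * (1 / mY x y) * x) * y = P0 at zy ⊢
  rw [abs_le] at zy
  norm_num at zy hE2 ⊢
  linarith [zy.1, zy.2]

/-- a crude bound -/
theorem ea_bd2 (x y : ℝ) (h0 : 0 ≤ x) (h1 : x ≤ 1) (h2 : 0 ≤ y) (h3 : y ≤ 1) :
    |uv x y UE2| ≤ 10 := by
  rw [ea2_uE2]
  have hE1 := ea2_bd1 x y h0 h1 h2 h3
  obtain ⟨_, _, hc⟩ := ea2_c3TI x y h0 h1 h2 h3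
  have hbr := ea2_brd x y h0 h1 h2 h3
  have hbb := ea2_brbd x y h0 h1 h2 h3
  have hb' : |ea2_br' x y| ≤ 0.0501 := by
    rw [abs_le] at hbr hbb ⊢
    norm_num at hbr hbb ⊢
    constructor <;> linarith [hbr.1, hbr.2, hbb.1, hbb.2]
  have h := mul_le_mul hc hb' (abs_nonneg _) (by norm_num : (0:ℝ) ≤ 3.4643)
  rw [← abs_mul] at h
  rw [abs_le] at hE1 h ⊢
  norm_num at hE1 h ⊢
  constructor <;> linarith [hE1.1, hE1.2, h.1, h.2]

end Pool.Agent.MSQ
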