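import Pool.Agent.MSQ.SqB
/-!
EA3 (90 lines). The upper bounds E3, E34, E34l are below their polynomial approximations.

Notation: q = qE = 4194304 (as real), T = TT y, w = wf x, I = 1/w, M = mY x y, J = 1/M; tilde = polynomial
approximations: T~ = ev Tn/q, W~ = ev Wn/q, I~ = ev In/q, M~ = ev Mn/(1296 q), J~ = ev Jn/(1296 q);
|T~-T| ≤ 20/q, |W~-w| ≤ 4/q, |I~-I| ≤ 26/q, |M~-M| ≤ 4/q, |J~-J| ≤ 26/q (SqB), 0 ≤ T ≤ 2, 1 ≤ w ≤ 1.2248,
0 ≤ I ≤ 1, 1 ≤ M ≤ 1.2248, 0 ≤ J ≤ 1; constants c3n/q, ccn/q, c15n/q are within 1/q of √3, cc, r15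
(squares; norm_num with Real.sqrt bounds). epn/QE = 192/q. QE = 2 q^6 1296.
Product rule: |a b - a' b'| ≤ |a - a'| |b| + |a'| |b - b'|.

PROOF. uv UE3 = (3/2) T~ + T~ W~ ((3/2) M~ - c15n/q) - 3 - (1+x^2/2) y^2 + 192/q (kE3, FE3; the polynomial
 [[0,0,2],[],[0,0,1]] has value (2+x^2) y^2), E3 = (3/2) T + T w ((3/2) M - r15) - 3 - mf x y^2:
 |T~ W~ - T w| ≤ (20*1.2248 + 2*4 + 1)/q < 34/q, so the error is ≤ (30 + 34*5/8 + 2.46*7)/q < 70/q.
 E34 = E3 - √3 T w (c1 - (1-s3) M), uv UE34 = uv UE3 - (c3n/q) T~ W~ (c1~ - s~ M~) (kE34),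
 |c1 - (1-s3) M| ≤ .02, error of that factor ≤ 2/q: additional error ≤ (1.7321*2.46*2 + .02*(1.7321*34+3))/q < 11/q.
 E34l = E34 + √3 td0 T mf(x) y, uv UE34l = uv UE34 + (c3n/q)(tdn/(2q)) T~ (1+x^2/2) y (kE34l; M2 has value 2+x^2):
 additional error ≤ (1.7321*1.5*2*1.5 + 1.7321*.013*20*1.5 + ..)/q < 12/q.
-/
namespace Pool.Agent.MSQ

private theorem EA3_q : (qE : ℝ) = 4194304 := by
  unfold qE
  norm_num

private theorem EA3_c3 : |(c3n : ℝ) / (qE : ℝ) - √3| ≤ 1 / (qE : ℝ) := by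
  have h : (c3n : ℝ) = 7264748 := by
    unfold c3n
    norm_num
  have h1 : √3 ≤ (7264749 : ℝ) / 4194304 := Real.sqrt_le_iff.2 ⟨by norm_num, by norm_num⟩
  have h2 : (7264747 : ℝ) / 4194304 ≤ √3 := Real.le_sqrt_of_sq_le (by norm_num)
  rw [h, EA3_q, abs_le]
  constructor <;> linarith

private theorem EA3_cc : |(ccn : ℝ) / (qE : ℝ) - cc| ≤ 1 / (qE : ℝ) := by
  have h : (ccn : ℝ) = 2965821 := by
    unfold ccn
    norm_num
  have h0 : cc = √(1 / 2) := by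
    rw [cc, one_div, one_div, Real.sqrt_inv]
  have h1 : √(1 / 2) ≤ (2965822 : ℝ) / 4194304 := Real.sqrt_le_iff.2 ⟨by norm_num, by norm_num⟩
  have h2 : (2965820 : ℝ) / 4194304 ≤ √(1 / 2) := Real.le_sqrt_of_sq_le (by norm_num)
  rw [h, EA3_q, h0, abs_le]
  constructor <;> linarith

private theorem EA3_c15 : |(c15n : ℝ) / (qE : ℝ) - r15| ≤ 1 / (qE : ℝ) := by
  have h : (c15n : ℝ) = 5136952 := by
    unfold c15n
    norm_num
  have h1 : √(3 / 2) ≤ (5136953 : ℝ) / 4194304 := Real.sqrt_le_iff.2 ⟨by norm_num, by norm_num⟩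
  have h2 : (5136951 : ℝ) / 4194304 ≤ √(3 / 2) := Real.le_sqrt_of_sq_le (by norm_num)
  unfold r15
  rw [h, EA3_q, abs_le]
  constructor <;> linarith

private theorem EA3_pr {a a' b b' A B α β : ℝ} (h1 : |a - a'| ≤ α) (h2 : |b - b'| ≤ β)
    (h3 : |b| ≤ B) (h4 : |a'| ≤ A) : |a * b - a' * b'| ≤ α * B + A * β := by
  have e : a * b - a' * b' = (a - a') * b + a' * (b - b') := by ring
  rw [e]
  refine (abs_add_le _ _).trans ?_
  rw [abs_mul, abs_mul]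
  have h5 : 0 ≤ α := (abs_nonneg _).trans h1
  have h6 : 0 ≤ A := (abs_nonneg _).trans h4
  have h7 := mul_le_mul h1 h3 (abs_nonneg _) h5
  have h8 := mul_le_mul h4 h2 (abs_nonneg _) h6
  linarith

private theorem EA3_ev3 (x y : ℝ) : uv x y UE3 =
    3 / 2 * (ev x y Tn / (qE : ℝ)) +
    (ev x y Tn / (qE : ℝ)) * (ev x y Wn / (qE : ℝ)) * (3 / 2 * (ev x y Mn / (1296 * (qE : ℝ))) -
      (c15n : ℝ) / (qE : ℝ)) - 3 - mf x * y ^ 2 + 192 / (qE : ℝ) := by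
  have h1 : ev x y [[0, 0, 2], [], [0, 0, 1]] = (2 + x ^ 2) * y ^ 2 := by
    simp [ev, evL]
    ring
  have h2 : (epn : ℝ) = 2 * 4194304 ^ 6 * 1296 * (192 / 4194304) := by
    unfold epn
    norm_num
  unfold uv
  rw [ev_eqP _ _ _ _ kE3]
  unfold FE3
  simp only [ev_sumP, List.map_cons, List.map_nil, List.sum_cons, List.sum_nil, ev_pSm,
    ev_pMul, ev_cP, h1]
  unfold QE mf
  push_cast
  rw [h2, EA3_q]
  ring

private theorem EA3_ev34 (x y : ℝ) : uv x y UE34 = uv x y UE3 -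
    (c3n : ℝ) / (qE : ℝ) * ((ev x y Tn / (qE : ℝ)) * (ev x y Wn / (qE : ℝ))) *
      ((1 - (ccn : ℝ) / (qE : ℝ)) / 2 - (1 - (c3n : ℝ) / (qE : ℝ) / 2) *
        (ev x y Mn / (1296 * (qE : ℝ)))) := by
  unfold uv
  rw [ev_eqP _ _ _ _ kE34, ev_eqP _ _ _ _ kE3]
  unfold FE34
  simp only [ev_sumP, List.map_cons, List.map_nil, List.sum_cons, List.sum_nil, ev_pSm,
    ev_pMul]
  unfold QE
  push_cast
  rw [EA3_q]
  ring

private theorem EA3_ev34l (x y : ℝ) : uv x y UE34l = uv x y UE34 +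
    ((c3n : ℝ) / (qE : ℝ) * (((c3n : ℝ) / (qE : ℝ) - (ccn : ℝ) / (qE : ℝ) - 1) / 2)) *
      (ev x y Tn / (qE : ℝ)) * (mf x * y) := by
  unfold uv
  rw [ev_eqP _ _ _ _ kE34l, ev_eqP _ _ _ _ kE34]
  unfold FE34l
  simp only [ev_sumP, List.map_cons, List.map_nil, List.sum_cons, List.sum_nil, ev_pSm,
    ev_M2, ev_pY]
  unfold QE tdn mf
  push_cast
  rw [EA3_q]
  ring

private theorem EA3_T (y : ℝ) (h2 : 0 ≤ y) (h3 : y ≤ 1) : 0 ≤ TT y ∧ TT y ≤ 2 := by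
  unfold TT
  refine ⟨Real.sqrt_nonneg _, Real.sqrt_le_iff.2 ⟨by norm_num, by nlinarith⟩⟩

private theorem EA3_w (x : ℝ) (h0 : 0 ≤ x) (h1 : x ≤ 1) : 1 ≤ wf x ∧ wf x ≤ 12248 / 10000 := by
  unfold wf mf
  refine ⟨Real.one_le_sqrt.2 (by nlinarith), Real.sqrt_le_iff.2 ⟨by norm_num, by nlinarith⟩⟩

private theorem EA3_M (x y : ℝ) (h0 : 0 ≤ x) (h1 : x ≤ 1) (h2 : 0 ≤ y) (h3 : y ≤ 1) :
    1 ≤ mY x y ∧ mY x y ≤ 12248 / 10000 := by
  have hx : x ^ 2 ≤ 1 := by nlinarith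
  have hy : y ^ 2 ≤ 1 := by nlinarith
  have hm : mf x * y ^ 2 / 3 ≤ 1 / 2 := by
    unfold mf
    nlinarith [sq_nonneg x, sq_nonneg y]
  have hm0 : 0 ≤ mf x * y ^ 2 / 3 := by
    unfold mf
    positivity
  unfold mY
  refine ⟨Real.one_le_sqrt.2 (by linarith), Real.sqrt_le_iff.2 ⟨by norm_num, by linarith⟩⟩

/-- the main estimates; `e = 1/q` -/
private theorem EA3_main (x y : ℝ) (h0 : 0 ≤ x) (h1 : x ≤ 1) (h2 : 0 ≤ y) (h3 : y ≤ 1) :
    |(ev x y Tn / (qE : ℝ)) * (ev x y Wn / (qE : ℝ)) - TT y * wf x| ≤ 34 / (qE : ℝ) ∧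
    |(ev x y Tn / (qE : ℝ)) * (ev x y Wn / (qE : ℝ))| ≤ 26 / 10 := by
  have hT := ap_T x y h2 h3
  have hW := ap_W x y h0 h1
  obtain ⟨t0, t1⟩ := EA3_T y h2 h3
  obtain ⟨w0, w1⟩ := EA3_w x h0 h1
  rw [EA3_q] at *
  set T' := ev x y Tn / 4194304 with hT'
  set W' := ev x y Wn / 4194304 with hW'
  have a1 := abs_le.1 hT
  have a2 := abs_le.1 hW
  have b1 : |W'| ≤ 123 / 100 := by
    rw [abs_le]
    constructor <;> linarith [a2.1, a2.2]
  have b2 : |TT y| ≤ 2 := by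
    rw [abs_of_nonneg t0]
    exact t1
  have b3 := EA3_pr hT hW b1 b2
  have b4 : |T' * W' - TT y * wf x| ≤ 34 / 4194304 := b3.trans (by norm_num)
  refine ⟨b4, ?_⟩
  have b5 : 0 ≤ TT y * wf x := by positivity
  have b6 : TT y * wf x ≤ 2 * (12248 / 10000) := mul_le_mul t1 w1 (by linarith) (by norm_num)
  have b7 := abs_le.1 b4
  rw [abs_le]
  constructor <;> linarith [b7.1, b7.2]

private theorem EA3_s3 (x y : ℝ) (h0 : 0 ≤ x) (h1 : x ≤ 1) (h2 : 0 ≤ y) (h3 : y ≤ 1) :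
    E3 x y + 120 / (qE : ℝ) ≤ uv x y UE3 := by
  have hT := abs_le.1 (ap_T x y h2 h3)
  have hM := ap_M x y h0 h1 h2 h3
  obtain ⟨k1, k2⟩ := EA3_main x y h0 h1 h2 h3
  obtain ⟨t0, t1⟩ := EA3_T y h2 h3
  obtain ⟨w0, w1⟩ := EA3_w x h0 h1
  obtain ⟨m0, m1⟩ := EA3_M x y h0 h1 h2 h3
  have hc := EA3_c15
  rw [EA3_ev3]
  unfold E3
  rw [EA3_q] at *
  set T' := ev x y Tn / 4194304
  set W' := ev x y Wn / 4194304
  set M' := ev x y Mn / (1296 * 4194304)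
  set c' := (c15n : ℝ) / 4194304
  have a2 := abs_le.1 hM
  have a3 := abs_le.1 hc
  have r1 : r15 ≤ 5136954 / 4194304 := by
    have : (c15n : ℝ) = 5136952 := by
      unfold c15n
      norm_num
    have h4 : c' = 5136952 / 4194304 := by
      simp only [c', this]
    linarith [a3.1, a3.2]
  have r2 : 5136950 / 4194304 ≤ r15 := by
    have : (c15n : ℝ) = 5136952 := by
      unfold c15n
      norm_num
    have h4 : c' = 5136952 / 4194304 := by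
      simp only [c', this]
    linarith [a3.1, a3.2]
  have g1 : |(3 / 2 * M' - c') - (3 / 2 * mY x y - r15)| ≤ 7 / 4194304 := by
    rw [abs_le]
    constructor <;> linarith [a2.1, a2.2, a3.1, a3.2]
  have g2 : |3 / 2 * mY x y - r15| ≤ 62 / 100 := by
    rw [abs_le]
    constructor <;> linarith
  have g3 := abs_le.1 (EA3_pr k1 g1 (B := 63 / 100) (A := 25 / 10) (by
    rw [abs_le] at g1 g2 ⊢
    constructor <;> linarith [g1.1, g1.2, g2.1, g2.2]) (by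
    rw [abs_of_nonneg (by positivity)]
    have := mul_le_mul t1 w1 (by linarith) (by norm_num : (0 : ℝ) ≤ 2)
    linarith))
  have e1 : 3 / 2 * TT y * (1 + wf x * mY x y) - r15 * TT y * wf x - 3 - mf x * y ^ 2 =
    3 / 2 * TT y + TT y * wf x * (3 / 2 * mY x y - r15) - 3 - mf x * y ^ 2 := by ring
  rw [e1]
  linarith [g3.1, g3.2, hT.1, hT.2]

private theorem EA3_s34 (x y : ℝ) (h0 : 0 ≤ x) (h1 : x ≤ 1) (h2 : 0 ≤ y) (h3 : y ≤ 1) :
    E34 x y + 100 / (qE : ℝ) ≤ uv x y UE34 := by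
  have hs := EA3_s3 x y h0 h1 h2 h3
  have hM := ap_M x y h0 h1 h2 h3
  obtain ⟨k1, k2⟩ := EA3_main x y h0 h1 h2 h3
  obtain ⟨t0, t1⟩ := EA3_T y h2 h3
  obtain ⟨w0, w1⟩ := EA3_w x h0 h1
  obtain ⟨m0, m1⟩ := EA3_M x y h0 h1 h2 h3
  have hc := EA3_c3
  have hcc := EA3_cc
  rw [EA3_ev34]
  unfold E34 s3
  rw [EA3_q] at *
  set T' := ev x y Tn / 4194304
  set W' := ev x y Wn / 4194304
  set M' := ev x y Mn / (1296 * 4194304)
  set c' := (c3n : ℝ) / 4194304 with hc'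
  set d' := (ccn : ℝ) / 4194304 with hd'
  have v1 : (c3n : ℝ) = 7264748 := by
    unfold c3n
    norm_num
  have v2 : (ccn : ℝ) = 2965821 := by
    unfold ccn
    norm_num
  rw [v1] at hc'
  rw [v2] at hd'
  have a2 := abs_le.1 hM
  have a3 := abs_le.1 hc
  have a4 := abs_le.1 hcc
  have r1 : |√3| ≤ 174 / 100 := by
    rw [abs_of_nonneg (Real.sqrt_nonneg _)]
    linarith [a3.1, a3.2]
  have g1 := EA3_pr hc k1 k2 r1
  have g2 : |(1 - c' / 2) - (1 - √3 / 2)| ≤ 1 / 2 / 4194304 := by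
    rw [abs_le]
    constructor <;> linarith [a3.1, a3.2]
  have g3 : |1 - √3 / 2| ≤ 135 / 1000 := by
    rw [abs_le]
    constructor <;> linarith [a3.1, a3.2]
  have g4 : |M'| ≤ 123 / 100 := by
    rw [abs_le]
    constructor <;> linarith [a2.1, a2.2]
  have g5 := abs_le.1 (EA3_pr g2 hM g4 g3)
  have g6 : |((1 - d') / 2 - (1 - c' / 2) * M') - ((1 - cc) / 2 - (1 - √3 / 2) * mY x y)| ≤
      2 / 4194304 := by
    rw [abs_le]
    constructor <;> linarith [g5.1, g5.2, a4.1, a4.2]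
  have g7 : |(1 - d') / 2 - (1 - c' / 2) * M'| ≤ 3 / 100 := by
    have n1 : 1 - c' / 2 = 1123860 / 8388608 * 1 := by
      rw [hc']
      norm_num
    rw [n1, abs_le]
    constructor <;> nlinarith [a2.1, a2.2]
  have g8 : |√3 * (TT y * wf x)| ≤ 43 / 10 := by
    have n0 : 0 ≤ TT y * wf x := by positivity
    have n1 : TT y * wf x ≤ 2 * (12248 / 10000) := mul_le_mul t1 w1 (by linarith) (by norm_num)
    rw [abs_mul, abs_of_nonneg n0]
    have n2 : |√3| ≤ 1733 / 1000 := by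
      rw [abs_of_nonneg (Real.sqrt_nonneg _)]
      linarith [a3.1, a3.2]
    have := mul_le_mul n2 n1 n0 (by norm_num)
    linarith
  have g9 := abs_le.1 (EA3_pr g1 g6 g7 g8)
  have e1 : E3 x y - √3 * TT y * ((1 - cc) / 2 * wf x - (1 - √3 / 2) * (wf x * mY x y)) =
    E3 x y - √3 * (TT y * wf x) * ((1 - cc) / 2 - (1 - √3 / 2) * mY x y) := by ring
  rw [e1]
  linarith [g9.1, g9.2]

theorem ea_E3 (x y : ℝ) (h0 : 0 ≤ x) (h1 : x ≤ 1) (h2 : 0 ≤ y) (h3 : y ≤ 1) :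
    E3 x y ≤ uv x y UE3 := by
  have := EA3_s3 x y h0 h1 h2 h3
  rw [EA3_q] at this
  linarith
theorem ea_E34 (x y : ℝ) (h0 : 0 ≤ x) (h1 : x ≤ 1) (h2 : 0 ≤ y) (h3 : y ≤ 1) :
    E34 x y ≤ uv x y UE34 := by
  have := EA3_s34 x y h0 h1 h2 h3
  rw [EA3_q] at this
  linarith
theorem ea_E34l (x y : ℝ) (h0 : 0 ≤ x) (h1 : x ≤ 1) (h2 : 0 ≤ y) (h3 : y ≤ 1) :
    E34l x y ≤ uv x y UE34l := by
  have hs := EA3_s34 x y h0 h1 h2 h3
  have hT := ap_T x y h2 h3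
  obtain ⟨t0, t1⟩ := EA3_T y h2 h3
  have hc := EA3_c3
  have hcc := EA3_cc
  rw [EA3_ev34l]
  unfold E34l td0
  rw [EA3_q] at *
  set T' := ev x y Tn / 4194304
  set c' := (c3n : ℝ) / 4194304 with hc'
  set d' := (ccn : ℝ) / 4194304 with hd'
  have v1 : (c3n : ℝ) = 7264748 := by
    unfold c3n
    norm_num
  have v2 : (ccn : ℝ) = 2965821 := by
    unfold ccn
    norm_num
  rw [v1] at hc'
  rw [v2] at hd'
  have a1 := abs_le.1 hT
  have a3 := abs_le.1 hc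
  have a4 := abs_le.1 hcc
  have r1 : |√3| ≤ 174 / 100 := by
    rw [abs_of_nonneg (Real.sqrt_nonneg _)]
    linarith [a3.1, a3.2]
  have g1 : |(c' - d' - 1) / 2 - (√3 - cc - 1) / 2| ≤ 1 / 4194304 := by
    rw [abs_le]
    constructor <;> linarith [a3.1, a3.2, a4.1, a4.2]
  have g2 : |(c' - d' - 1) / 2| ≤ 2 / 100 := by
    rw [hc', hd', abs_le]
    constructor <;> norm_num
  have g3 := EA3_pr hc g1 g2 r1
  have g4 : |T'| ≤ 21 / 10 := by
    rw [abs_le]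
    constructor <;> linarith [a1.1, a1.2]
  have g5 : |√3 * ((√3 - cc - 1) / 2)| ≤ 4 / 100 := by
    have n2 : |(√3 - cc - 1) / 2| ≤ 2 / 100 := by
      rw [abs_le]
      constructor <;> linarith [a3.1, a3.2, a4.1, a4.2]
    rw [abs_mul]
    have := mul_le_mul r1 n2 (abs_nonneg _) (by norm_num)
    linarith
  have g6 := EA3_pr g3 hT g4 g5
  have g7 : |c' * ((c' - d' - 1) / 2) * T' - √3 * ((√3 - cc - 1) / 2) * TT y| ≤ 6 / 4194304 :=
    g6.trans (by norm_num)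
  have hm0 : 0 ≤ mf x * y := by
    unfold mf
    positivity
  have hm1 : mf x * y ≤ 2 := by
    unfold mf
    nlinarith [mul_nonneg h0 h0, mul_nonneg h0 h2]
  have g8 := mul_le_mul g7 hm1 hm0 (by norm_num)
  rw [← abs_of_nonneg hm0, ← abs_mul] at g8
  have g9 := abs_le.1 g8
  have e1 : √3 * ((√3 - cc - 1) / 2) * TT y * mf x * y =
    √3 * ((√3 - cc - 1) / 2) * TT y * (mf x * y) := by ring
  rw [e1]
  have e2 : (c' * ((c' - d' - 1) / 2) * T' - √3 * ((√3 - cc - 1) / 2) * TT y) * (mf x * y) =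
    c' * ((c' - d' - 1) / 2) * T' * (mf x * y) -
      √3 * ((√3 - cc - 1) / 2) * TT y * (mf x * y) := by ring
  rw [e2] at g9
  linarith [g9.1, g9.2]

end Pool.Agent.MSQ
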