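import Pool.Agent.MSQ.PlF
import Pool.Agent.MSQ.KH
import Pool.Agent.MSQ.EA1
import Pool.Agent.MSQ.EA2
import Pool.Agent.MSQ.EA3
/-!
CFa (170 lines). The facts `CF` of a state in the core.

NOTATION: X = cc x, Y = w y/√3, w = wf x, N = Nf y, T = TT y = √3 N, M = mY x y = √(1+Y²), 0 ≤ x,y ≤ 1, so
0 ≤ X ≤ cc, 0 ≤ Y ≤ cc (w² ≤ 3/2), ρ = x r15/M = X/(M/√3) (r15 = √3 cc). A = starC-function - H:
(AC J x y).u = s3 - cc/(2w) - J.f(X,Y)/w = (s3 w - cc/2 - J.f (X,Y))/w.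
PROOF. mu0, mu1, k0, k1, det: AC.mu = -μ_H, AC.nu = -ν_H, AC.ka = s3 - κ_H, so 1 + 3N³ mu = 3N³(1/(3N³) - μ_H),
 3N²(1-√3N/2) + 3N³ ka = 3N³(1/N - κ_H), and kh (KH.lean).
u0: pl2 (Y ≤ w/√3 = √(1+X²)/√3): J.f ≤ s3 w - cc/2 + δ, w ≥ 1. u1: h.low: u ≤ (s3 w - cc + δ)/w ≤ 2.
U1b: J.f ≥ X/2 + cc/2 - δ: 3N u ≤ 3N (s3 - cc(1+x/2)/w) + 3Nδ/w = E1b + (3N/w) δ, 3N = √3 T ≤ 4; ea_E1b.
U1 (x ≤ 4/5): X ≤ 1/√3 ≤ M/√3 (cc*4/5 < 1/√3), pl1: J.f ≥ l - s3 M + cc/2 - δ, l = w N: 3N u ≤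
 (3N/w)(s3 w + s3 M - cc - wN + δ) = E1 + (3N/w)δ; ea_E1.
U2l (x ≤ 4/5): pl3 with ρ ∈ [0,1] and pl8: l - J.f ≤ (1-ρ)(M - 1/2 + √3 td0 Y + √3 Y δ) + ρ(s3 M - cc/2 + δ)
  = s3 M - cc/2 - (1-ρ)((1-cc)/2 - (1-s3)M) + (1-ρ)√3 td0 Y + (≤ 2δ), with √3 Y = w y; so
 3N u ≤ E1 - (√3T/w)(1-ρ)((1-cc)/2 - (1-s3)M) + √3 T td0 y (1-ρ) + 8δ = E2l + 8δ; ea_E2l
 ((1-ρ)((1-cc)/2-(1-s3)M) = (1-cc)/2 (1-x r15/M) - (1-s3)(M - r15 x)).
R3, R34l, R3b: rr x y s = 3N (s3 - cc w/2 - w (J.f - X J.fX)) (ch_rr, star_rr).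
 R3: pl7 and J.f(0,Y) ≥ M - (s3 M - cc/2 + δ) (pl1 at X = 0): J.f - X J.fX ≥ M²/(wN) - s3 M + cc/2 - δ, so
  rr ≤ 3N s3 + 3N w s3 M - 3N w cc - 3M² + 3N w δ = E3 + 3Nwδ (3N s3 = 3T/2, 3N cc = r15 T, 3M² = 3 + mf x y²).
 R34l: J.f(0,Y) ≥ 1/2 - √3 td0 Y - √3 Y δ (pl8): rr ≤ E34l + 3N w √3 Y δ; 3N w √3 Y = 3 N w² y ≤ 6.
 R3b: pl6: rr ≤ 3N(s3 - cc w/2 - w cc/2 + 2wδ) = E3b + 6Nwδ ≤ E3b + 10 δ (N ≤ 1.1548, w ≤ 1.2248: 8.5).
-/
namespace Pool.Agent.MSQ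

private theorem cfa_r3 : √3 ^ 2 = (3 : ℝ) := Real.sq_sqrt (by norm_num)
private theorem cfa_r3p : 0 < (√3 : ℝ) := Real.sqrt_pos.2 (by norm_num)
private theorem cfa_cc : cc ^ 2 = 1 / 2 := by
  unfold cc
  rw [div_pow, Real.sq_sqrt (by norm_num)]
  norm_num
private theorem cfa_ccp : 0 < cc := by
  unfold cc
  positivity
private theorem cfa_r15 : r15 = √3 * cc := by
  unfold r15 cc
  rw [Real.sqrt_div (by norm_num)]
  ring
private theorem cfa_w2 (x : ℝ) : wf x ^ 2 = 1 + x ^ 2 / 2 := by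
  unfold wf mf
  exact Real.sq_sqrt (by positivity)
private theorem cfa_w0 (x : ℝ) : 0 < wf x := by
  unfold wf mf
  exact Real.sqrt_pos.2 (by positivity)
private theorem cfa_w1 (x : ℝ) : 1 ≤ wf x := by
  nlinarith [cfa_w2 x, cfa_w0 x, sq_nonneg x]
private theorem cfa_N2 (y : ℝ) : Nf y ^ 2 = 1 + y ^ 2 / 3 := by
  unfold Nf
  exact Real.sq_sqrt (by positivity)
private theorem cfa_N0 (y : ℝ) : 0 < Nf y := by
  unfold Nf
  exact Real.sqrt_pos.2 (by positivity)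
private theorem cfa_N1 (y : ℝ) : 1 ≤ Nf y := by
  nlinarith [cfa_N2 y, cfa_N0 y, sq_nonneg y]
private theorem cfa_T (y : ℝ) : TT y = √3 * Nf y := by
  unfold TT Nf
  rw [← Real.sqrt_mul (by norm_num)]
  congr 1
  ring
private theorem cfa_M2 (x y : ℝ) : mY x y ^ 2 = 1 + wf x ^ 2 * y ^ 2 / 3 := by
  unfold mY
  rw [cfa_w2]
  unfold mf
  exact Real.sq_sqrt (by positivity)
private theorem cfa_M0 (x y : ℝ) : 0 < mY x y := by
  unfold mY mf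
  exact Real.sqrt_pos.2 (by positivity)
private theorem cfa_M1 (x y : ℝ) : 1 ≤ mY x y := by
  nlinarith [cfa_M2 x y, cfa_M0 x y, mul_nonneg (sq_nonneg (wf x)) (sq_nonneg y)]
private theorem cfa_Y2 (x y : ℝ) : (wf x * y / √3) ^ 2 = wf x ^ 2 * y ^ 2 / 3 := by
  rw [div_pow, mul_pow, cfa_r3]
private theorem cfa_MY (x y : ℝ) : √(1 + (wf x * y / √3) ^ 2) = mY x y := by
  rw [cfa_Y2, ← cfa_M2, Real.sqrt_sq (cfa_M0 x y).le]
private theorem cfa_WX (x : ℝ) : √(1 + (cc * x) ^ 2) = wf x := by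
  have h : 1 + (cc * x) ^ 2 = wf x ^ 2 := by
    rw [cfa_w2, mul_pow, cfa_cc]; ring
  rw [h, Real.sqrt_sq (cfa_w0 x).le]
private theorem cfa_rr (J : Jet) (x y : ℝ) : rr x y (AC J x y) =
    3 * Nf y * (s3 - cc * wf x / 2 - wf x * (J.f (cc * x, wf x * y / √3) -
      cc * x * J.fX (cc * x, wf x * y / √3))) := by
  rw [← star_rr x y, ← ch_rr J x y]
  unfold rr
  change 3 * Nf y * (((starC x y).u - (ch J x y).u) - x * ((starC x y).p - (ch J x y).p) +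
    x ^ 2 * y * ((starC x y).q - (ch J x y).q) / 2) = _
  ring

private theorem cfa_b0 {x : ℝ} (h0 : 0 ≤ x) (h1 : x ≤ 1) : x ^ 2 ≤ 1 := by nlinarith
private theorem cfa_b1 {x : ℝ} (h0 : 0 ≤ x) (h1 : x ≤ 1) : wf x ^ 2 ≤ 3 / 2 := by
  rw [cfa_w2]
  linarith [cfa_b0 h0 h1]
private theorem cfa_b2 {y : ℝ} (h0 : 0 ≤ y) (h1 : y ≤ 1) : Nf y ^ 2 ≤ 4 / 3 := by
  rw [cfa_N2]
  linarith [cfa_b0 h0 h1]
private theorem cfa_b3 {a b : ℝ} (h : a ^ 2 ≤ b ^ 2) (hb : 0 ≤ b) : a ≤ b :=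
  abs_le_of_sq_le_sq' h hb |>.2
private theorem cfa_b4 {x y : ℝ} (h0 : 0 ≤ x) (h1 : x ≤ 1) (h2 : 0 ≤ y) (h3 : y ≤ 1) :
    Nf y * wf x ≤ 3 / 2 := by
  refine cfa_b3 ?_ (by norm_num)
  rw [mul_pow]
  have h4 := mul_le_mul (cfa_b2 h2 h3) (cfa_b1 h0 h1) (sq_nonneg _) (by norm_num)
  linarith
private theorem cfa_b5 {y : ℝ} (h0 : 0 ≤ y) (h1 : y ≤ 1) : Nf y ≤ 6 / 5 :=
  cfa_b3 (by linarith [cfa_b2 h0 h1]) (by norm_num)
private theorem cfa_b6 : cc ≤ 3 / 4 := cfa_b3 (by rw [cfa_cc]; norm_num) (by norm_num)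
private theorem cfa_b7 : 7 / 10 ≤ cc := cfa_b3 (by rw [cfa_cc]; norm_num) cfa_ccp.le
private theorem cfa_b8 : √3 ≤ (7 / 4 : ℝ) := cfa_b3 (by rw [cfa_r3]; norm_num) (by norm_num)
private theorem cfa_b9 : (17 / 10 : ℝ) ≤ √3 := cfa_b3 (by rw [cfa_r3]; norm_num) cfa_r3p.le
private theorem cfa_b10 {x y : ℝ} (h0 : 0 ≤ x) (h1 : x ≤ 1) (h2 : 0 ≤ y) (h3 : y ≤ 1) :
    wf x ^ 2 * y ^ 2 / 3 ≤ 1 / 2 := by
  have h4 := mul_le_mul (cfa_b1 h0 h1) (cfa_b0 h2 h3) (sq_nonneg _) (by norm_num)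
  linarith
private theorem cfa_b11 {ρ y : ℝ} (h0 : 0 ≤ ρ) (h1 : ρ ≤ 1) (h2 : 0 ≤ y) (h3 : y ≤ 1) :
    (1 - ρ) * y ≤ 1 := by
  have h4 := mul_le_mul (by linarith : 1 - ρ ≤ 1) h3 h2 (by norm_num)
  linarith

private theorem cfa_E1 (x y : ℝ) : E1 x y = 3 / 2 * √3 * Nf y +
    3 / 2 * √3 * Nf y * mY x y * (wf x)⁻¹ - 3 * Nf y * cc * (wf x)⁻¹ - 3 * Nf y ^ 2 := by
  unfold E1
  rw [cfa_T, cfa_r15]
  simp only [div_eq_mul_inv (3 / 2 * mY x y), div_eq_mul_inv (√3 * cc)]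
  linear_combination (-(Nf y * cc * (wf x)⁻¹) - Nf y ^ 2) * cfa_r3

private theorem cfa_E1b (x y : ℝ) : E1b x y = 3 / 2 * √3 * Nf y -
    3 * Nf y * cc * (1 + x / 2) * (wf x)⁻¹ := by
  unfold E1b
  rw [cfa_T, cfa_r15, div_eq_mul_inv (√3 * cc * (1 + x / 2))]
  linear_combination (-(Nf y * cc * (1 + x / 2) * (wf x)⁻¹)) * cfa_r3

private theorem cfa_E3b (x y : ℝ) : E3b x y = 3 / 2 * √3 * Nf y - 3 * Nf y * cc * wf x := by
  unfold E3b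
  rw [cfa_T, cfa_r15]
  linear_combination (-(Nf y * cc * wf x)) * cfa_r3

private theorem cfa_E3 (x y : ℝ) : E3 x y = 3 / 2 * √3 * Nf y * (1 + wf x * mY x y) -
    3 * Nf y * cc * wf x - 3 * mY x y ^ 2 := by
  unfold E3
  rw [cfa_T, cfa_r15, cfa_M2, cfa_w2]
  unfold mf
  linear_combination (-(Nf y * cc * wf x)) * cfa_r3

private theorem cfa_E34l (x y : ℝ) : E34l x y = 3 / 2 * √3 * Nf y * (1 + wf x * mY x y) -
    3 * Nf y * cc * wf x - 3 * mY x y ^ 2 -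
    3 * Nf y * ((1 - cc) / 2 * wf x - (1 - √3 / 2) * (wf x * mY x y)) +
    3 * td0 * Nf y * wf x ^ 2 * y := by
  unfold E34l E34
  rw [cfa_E3, cfa_T]
  have h : mf x = wf x ^ 2 := by rw [cfa_w2]; rfl
  rw [h]
  unfold s3
  linear_combination (-(Nf y * ((1 - cc) / 2 * wf x - (1 - √3 / 2) * (wf x * mY x y))) +
    td0 * Nf y * wf x ^ 2 * y) * cfa_r3

private theorem cfa_E2l (x y : ℝ) : E2l x y = 3 / 2 * √3 * Nf y +
    3 / 2 * √3 * Nf y * mY x y * (wf x)⁻¹ - 3 * Nf y * cc * (wf x)⁻¹ - 3 * Nf y ^ 2 -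
    3 * Nf y * ((1 - cc) / 2 * (1 - x * r15 / mY x y) - (1 - √3 / 2) * (mY x y - r15 * x)) *
      (wf x)⁻¹ +
    3 * td0 * Nf y * y * (1 - x * r15 / mY x y) := by
  unfold E2l E2
  rw [cfa_E1, cfa_T, div_eq_mul_inv (√3 * (√3 * Nf y) * _) (wf x)]
  unfold s3
  linear_combination (-(Nf y * ((1 - cc) / 2 * (1 - x * r15 / mY x y) -
    (1 - √3 / 2) * (mY x y - r15 * x)) * (wf x)⁻¹) +
    td0 * Nf y * y * (1 - x * r15 / mY x y)) * cfa_r3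

theorem cfa {J : Jet} {δ : ℝ} (h : Hyp J δ) (hb : 1 / 2 ≤ J.f (0, 0)) (x y : ℝ) (hx0 : 0 ≤ x)
    (hx1 : x ≤ 1) (hy0 : 0 ≤ y) (hy1 : y ≤ 1) : CF δ x y (AC J x y) := by
  have hr3 := cfa_r3
  have hr3p := cfa_r3p
  have hcc := cfa_cc
  have hccp := cfa_ccp
  have hw2 := cfa_w2 x
  have hw0 := cfa_w0 x
  have hw1 := cfa_w1 x
  have hN2 := cfa_N2 y
  have hN0 := cfa_N0 y
  have hN1 := cfa_N1 y
  have hM2 := cfa_M2 x y
  have hM0 := cfa_M0 x y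
  have hM1 := cfa_M1 x y
  have hδ := h.pos
  have hδ1 := h.le1
  have hw22 := cfa_b1 hx0 hx1
  have hNw := cfa_b4 hx0 hx1 hy0 hy1
  have hNle := cfa_b5 hy0 hy1
  have hccle := cfa_b6
  have hccge := cfa_b7
  have hr3le := cfa_b8
  have hr3ge := cfa_b9
  have hiw : 0 < (wf x)⁻¹ := inv_pos.2 hw0
  have hiw1 : (wf x)⁻¹ ≤ 1 := inv_le_one_of_one_le₀ hw1
  have hwi : wf x * (wf x)⁻¹ = 1 := mul_inv_cancel₀ hw0.ne'
  -- the point
  obtain ⟨Y, hY⟩ : ∃ Y, Y = wf x * y / √3 := ⟨_, rfl⟩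
  obtain ⟨X, hX⟩ : ∃ X, X = cc * x := ⟨_, rfl⟩
  have hX0 : 0 ≤ X := by rw [hX]; positivity
  have hXc : X ≤ cc := by
    rw [hX]
    exact mul_le_of_le_one_right hccp.le hx1
  have hX1 : |X| ≤ 1 := by rw [abs_of_nonneg hX0]; linarith
  have hY0 : 0 ≤ Y := by rw [hY]; positivity
  have hYr : √3 * Y = wf x * y := by rw [hY]; field_simp
  have hY2 : Y ^ 2 = wf x ^ 2 * y ^ 2 / 3 := by rw [hY]; exact cfa_Y2 x y
  have hYc : Y ≤ cc := by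
    have h1 : Y ^ 2 ≤ cc ^ 2 := by
      rw [hY2, hcc]
      exact cfa_b10 hx0 hx1 hy0 hy1
    exact (sq_le_sq₀ hY0 hccp.le).1 h1
  have hYc' : |Y| ≤ cc := by rwa [abs_of_nonneg hY0]
  have hY1 : |Y| ≤ 1 := by linarith
  have hMY : √(1 + Y ^ 2) = mY x y := by rw [hY]; exact cfa_MY x y
  have hWX : √(1 + X ^ 2) = wf x := by rw [hX]; exact cfa_WX x
  have hlf : lf (X, Y) = wf x * Nf y := by rw [hX, hY]; exact lf_chart x y
  obtain ⟨f, hf⟩ : ∃ f, f = J.f (X, Y) := ⟨_, rfl⟩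
  have hu : (AC J x y).u = √3 / 2 - cc * (wf x)⁻¹ / 2 - f * (wf x)⁻¹ := by
    change s3 - cc / (2 * wf x) - J.f (cc * x, wf x * y / √3) / wf x = _
    rw [← hX, ← hY, ← hf]
    unfold s3
    field_simp
  -- lower and upper bounds of f
  have hf1 : X / 2 + cc / 2 - δ ≤ f := by
    have h1 := h.low X Y hX1 hY1
    rw [abs_of_nonneg hX0] at h1
    rw [hf]
    exact h1
  have hf2 : f ≤ √3 / 2 * wf x - cc / 2 + δ := by
    have h1 := pl2 h X Y hX1 (by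
      rw [hWX, abs_of_nonneg hY0, hY]
      gcongr
      exact mul_le_of_le_one_right hw0.le hy1)
    rw [hWX] at h1
    rw [hf]
    exact h1
  have hNiw : 0 < Nf y * (wf x)⁻¹ := mul_pos hN0 hiw
  have hNiw1 : Nf y * (wf x)⁻¹ ≤ 6 / 5 :=
    (mul_le_of_le_one_right hN0.le hiw1).trans hNle
  have hNiwδ : Nf y * (wf x)⁻¹ * δ ≤ 6 / 5 * δ := mul_le_mul_of_nonneg_right hNiw1 hδ.le
  -- kh
  obtain ⟨k1, k2, k3, k4, k5, k6⟩ := kh h x y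
  have hN3 : 0 < Nf y ^ 3 := by positivity
  have hmu : (AC J x y).mu = -(ch J x y).mu := by
    change 0 - (ch J x y).mu = _
    ring
  have hnu : (AC J x y).nu = -(ch J x y).nu := by
    change 0 - (ch J x y).nu = _
    ring
  have hka : (AC J x y).ka = √3 / 2 - (ch J x y).ka := rfl
  have e1 : 1 + 3 * Nf y ^ 3 * (AC J x y).mu =
      3 * Nf y ^ 3 * (1 / (3 * Nf y ^ 3) - (ch J x y).mu) := by
    rw [hmu]
    field_simp
    ring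
  have e2 : 3 * Nf y ^ 2 * (1 - √3 * Nf y / 2) + 3 * Nf y ^ 3 * (AC J x y).ka =
      3 * Nf y ^ 3 * (1 / Nf y - (ch J x y).ka) := by
    rw [hka]
    field_simp
    ring
  -- pl1
  have hxX : x ≤ 4 / 5 → |X| ≤ √(1 + Y ^ 2) / √3 := by
    intro hx
    rw [hMY, abs_of_nonneg hX0, le_div_iff₀ hr3p, hX]
    have h1 : (cc * x * √3) ^ 2 ≤ 1 ^ 2 := by
      rw [mul_pow, mul_pow, hcc, hr3]
      have h3 : x ^ 2 ≤ (4 / 5) ^ 2 := by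
        exact pow_le_pow_left₀ hx0 hx 2
      linarith
    have h2 := (sq_le_sq₀ (by positivity) (by norm_num)).1 h1
    linarith
  have hf0 : mY x y - (√3 / 2 * mY x y - cc / 2 + δ) ≤ J.f (0, Y) := by
    have h1 := pl1 h 0 Y hY1 (by rw [abs_zero]; positivity)
    have h2 : lf (0, Y) = mY x y := by
      rw [← hMY]
      unfold lf
      congr 1
      simp
    rw [h2, hMY] at h1
    unfold s3 at h1
    linarith
  have hf0b : 1 / 2 - √3 * td0 * Y - √3 * Y * δ ≤ J.f (0, Y) := pl8 h hb Y hY0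
  obtain ⟨g, hg⟩ : ∃ g, g = J.f (X, Y) - X * J.fX (X, Y) := ⟨_, rfl⟩
  have hrr : rr x y (AC J x y) = 3 * Nf y * (√3 / 2 - cc * wf x / 2 - wf x * g) := by
    rw [cfa_rr, ← hX, ← hY, ← hg]
    rfl
  have hg7 : mY x y ^ 2 / (wf x * Nf y) - (mY x y - J.f (0, Y)) ≤ g := by
    have h1 := pl7 h X Y
    rw [hMY, hlf] at h1
    have h2 : 1 + Y ^ 2 = mY x y ^ 2 := by rw [hM2, hY2]
    rw [h2] at h1
    rw [hg]
    exact h1
  have hwN : 0 < wf x * Nf y := mul_pos hw0 hN0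
  have hg7' : mY x y ^ 2 - wf x * Nf y * (mY x y - J.f (0, Y)) ≤ wf x * Nf y * g := by
    have h1 := mul_le_mul_of_nonneg_left hg7 hwN.le
    have h2 : wf x * Nf y * (mY x y ^ 2 / (wf x * Nf y)) = mY x y ^ 2 := by
      field_simp
    rw [mul_sub, h2] at h1
    exact h1
  have hg6 : cc / 2 - 2 * δ ≤ g := by
    rw [hg]
    exact pl6 h X Y hX0 hXc hYc'
  refine ⟨?_, ?_, ?_, ?_, ?_, ?_, ?_, ?_, ?_, ?_, ?_, ?_, ?_⟩
  · rw [hmu]; linarith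
  · rw [e1]
    exact mul_nonneg (by positivity) (by linarith)
  · rw [e2]
    exact mul_nonneg (by positivity) (by linarith)
  · rw [e2, mul_sub]
    have h1 : 3 * Nf y ^ 3 * (1 / Nf y) = 3 * Nf y ^ 2 := by field_simp
    rw [h1]
    have h2 : 0 ≤ 3 * Nf y ^ 3 * (ch J x y).ka := mul_nonneg (by positivity) k2
    linarith
  · rw [e1, e2, hnu]
    have h1 := mul_le_mul_of_nonneg_left k6 (by positivity : 0 ≤ 9 * (Nf y ^ 3) ^ 2)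
    linarith
  · rw [hu]
    have h1 : (f - (√3 / 2 * wf x - cc / 2 + δ)) * (wf x)⁻¹ ≤ 0 :=
      mul_nonpos_of_nonpos_of_nonneg (by linarith) hiw.le
    have h2 : δ * (wf x)⁻¹ ≤ δ * 1 := mul_le_mul_of_nonneg_left hiw1 hδ.le
    have h3 : (f - (√3 / 2 * wf x - cc / 2 + δ)) * (wf x)⁻¹ =
        f * (wf x)⁻¹ - √3 / 2 + cc * (wf x)⁻¹ / 2 - δ * (wf x)⁻¹ := by
      linear_combination (-(√3 / 2)) * hwi
    linarith
  · rw [hu]
    have h1 : -1 ≤ cc / 2 + f := by linarith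
    have h2 : (-1) * (wf x)⁻¹ ≤ (cc / 2 + f) * (wf x)⁻¹ := mul_le_mul_of_nonneg_right h1 hiw.le
    linarith
  · refine le_trans ?_ (add_le_add_left (ea_E1b x y hx0 hx1 hy0 hy1) _)
    rw [hu, cfa_E1b]
    have h1 := mul_le_mul_of_nonneg_left hf1 hNiw.le
    rw [hX] at h1
    linarith
  · intro hx
    refine le_trans ?_ (add_le_add_left (ea_E1 x y hx0 hx1 hy0 hy1) _)
    rw [hu, cfa_E1]
    have h1 := pl1 h X Y hY1 (hxX hx)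
    rw [hlf, hMY, ← hf] at h1
    unfold s3 at h1
    have h2 := mul_le_mul_of_nonneg_left h1 hNiw.le
    have h3 : Nf y * (wf x)⁻¹ * (wf x * Nf y - f) = Nf y ^ 2 - Nf y * (wf x)⁻¹ * f := by
      linear_combination (Nf y ^ 2) * hwi
    rw [h3] at h2
    linarith
  · intro hx
    refine le_trans ?_ (add_le_add_left (ea_E2l x y hx0 hx1 hy0 hy1) _)
    rw [hu, cfa_E2l]
    obtain ⟨ρ, hρ⟩ : ∃ ρ, ρ = x * r15 / mY x y := ⟨_, rfl⟩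
    have hρM : ρ * mY x y = r15 * x := by rw [hρ]; field_simp
    have hρX : X = ρ * (√(1 + Y ^ 2) / √3) := by
      rw [hMY, ← mul_div_assoc, hρM, cfa_r15, hX]
      field_simp
    have hρ0 : 0 ≤ ρ := by
      rw [hρ, cfa_r15]
      positivity
    have hρ1 : ρ ≤ 1 := by
      have h1 := hxX hx
      rw [abs_of_nonneg hX0, hρX, hMY] at h1
      have h2 : 0 < mY x y / √3 := div_pos hM0 hr3p
      by_contra hc
      push Not at hc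
      have := mul_lt_mul_of_pos_right hc h2
      linarith
    have h1 := pl3 h X Y ρ hY1 hρ0 hρ1 hρX
    rw [hlf, hMY, ← hf] at h1
    have h2 := mul_le_mul_of_nonneg_left hf0b (by linarith : 0 ≤ 1 - ρ)
    rw [← hρ, ← hρM]
    unfold s3 at h1
    have h4 : wf x * Nf y - f ≤ (√3 / 2 * mY x y - cc / 2) -
        (1 - ρ) * ((1 - cc) / 2 - (1 - √3 / 2) * mY x y) + (1 - ρ) * (td0 * (wf x * y)) +
        ((1 - ρ) * (wf x * y) + ρ) * δ := by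
      rw [← hYr]
      linarith
    have h5 := mul_le_mul_of_nonneg_left h4 hNiw.le
    have h3 : Nf y * (wf x)⁻¹ * (wf x * Nf y - f) = Nf y ^ 2 - Nf y * (wf x)⁻¹ * f := by
      linear_combination (Nf y ^ 2) * hwi
    have h6 : Nf y * (wf x)⁻¹ * ((√3 / 2 * mY x y - cc / 2) -
        (1 - ρ) * ((1 - cc) / 2 - (1 - √3 / 2) * mY x y) + (1 - ρ) * (td0 * (wf x * y)) +
        ((1 - ρ) * (wf x * y) + ρ) * δ) = Nf y * (wf x)⁻¹ * ((√3 / 2 * mY x y - cc / 2) -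
        (1 - ρ) * ((1 - cc) / 2 - (1 - √3 / 2) * mY x y)) + Nf y * (1 - ρ) * td0 * y +
        (Nf y * ((1 - ρ) * y) + Nf y * (wf x)⁻¹ * ρ) * δ := by
      linear_combination (Nf y * (1 - ρ) * td0 * y + Nf y * ((1 - ρ) * y) * δ) * hwi
    rw [h3, h6] at h5
    have h7 : (Nf y * ((1 - ρ) * y) + Nf y * (wf x)⁻¹ * ρ) * δ ≤ 12 / 5 * δ := by
      refine mul_le_mul_of_nonneg_right ?_ hδ.le
      have h8 : (1 - ρ) * y ≤ 1 := cfa_b11 hρ0 hρ1 hy0 hy1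
      have h9 : Nf y * ((1 - ρ) * y) ≤ Nf y * 1 := mul_le_mul_of_nonneg_left h8 hN0.le
      have h10 : Nf y * (wf x)⁻¹ * ρ ≤ 6 / 5 * 1 := mul_le_mul hNiw1 hρ1 hρ0 (by norm_num)
      linarith
    linarith
  · refine le_trans ?_ (add_le_add_left (ea_E3 x y hx0 hx1 hy0 hy1) _)
    rw [hrr, cfa_E3]
    have h1 := mul_le_mul_of_nonneg_left hf0 hwN.le
    have h2 : Nf y * wf x * δ ≤ 3 / 2 * δ := mul_le_mul_of_nonneg_right hNw hδ.le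
    linarith
  · refine le_trans ?_ (add_le_add_left (ea_E34l x y hx0 hx1 hy0 hy1) _)
    rw [hrr, cfa_E34l]
    have h1 := mul_le_mul_of_nonneg_left hf0b hwN.le
    have h2 : wf x * Nf y * (1 / 2 - √3 * td0 * Y - √3 * Y * δ) = wf x * Nf y / 2 -
        td0 * Nf y * wf x ^ 2 * y - Nf y * wf x ^ 2 * y * δ := by
      linear_combination (-(wf x * Nf y * td0) - wf x * Nf y * δ) * hYr
    rw [h2] at h1
    have h3 : Nf y * wf x ^ 2 * y * δ ≤ 9 / 5 * δ := by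
      refine mul_le_mul_of_nonneg_right ?_ hδ.le
      have h4 : Nf y * wf x ^ 2 ≤ 6 / 5 * (3 / 2) :=
        mul_le_mul hNle hw22 (by positivity) (by norm_num)
      have h5 : Nf y * wf x ^ 2 * y ≤ Nf y * wf x ^ 2 * 1 :=
        mul_le_mul_of_nonneg_left hy1 (by positivity)
      linarith
    linarith
  · refine le_trans ?_ (add_le_add_left (ea_E3b x y hx0 hx1 hy0 hy1) _)
    rw [hrr, cfa_E3b]
    have h1 := mul_le_mul_of_nonneg_left hg6 hwN.le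
    have h2 : Nf y * wf x * δ ≤ 3 / 2 * δ := mul_le_mul_of_nonneg_right hNw hδ.le
    linarith

end Pool.Agent.MSQ
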