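import Pool.Agent.MSQ.PlF
import Pool.Agent.MSQ.KH
import Pool.Agent.MSQ.EA2
import Pool.Agent.MSQ.EA3
/-!
CPa (100 lines). The facts `CP` of a pair of states in the core, and the pair fact on the interface.

NOTATION as in CFa: X = cc x, Y = w y/√3, M = mY x y = √(1+Y²), T = √3 N, ρ = x r15/M. Let t = AC J.ry x y; its u is
(s3 w - cc/2 - J.f (X,-Y))/w and J.ry satisfies the same hypotheses (prove `Hyp J.ry δ` privately or use pl1, pl3,
pl7 for J at -Y: they are stated for all |Y| ≤ 1; √(1+(-Y)²) = M).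
PROOF. U2: pl3 at (X,Y) and (X,-Y), added and halved, with pl9: J.f(0,Y)+J.f(0,-Y) ≥ 1:
 l - (J.f(X,Y)+J.f(X,-Y))/2 ≤ (1-ρ)(M - 1/2) + ρ(s3 M - cc/2 + δ) = s3M - cc/2 - (1-ρ)((1-cc)/2-(1-s3)M) + ρδ, so
 3N (u+u')/2 ≤ E2 + (3N/w)δ ≤ uv UE2 + 10δ (ea_E2), valid whenever 0 ≤ ρ ≤ 1: for x ≤ 4/5, and for y = 1 and
 all x ≤ 1 (X ≤ M/√3 ⇔ x²/2 ≤ (1 + (1+x²/2)/3)/3 ⇔ x² ≤ 1).
R34: pl7 at (X,Y) and (X,-Y) (fX at (X,-Y) is J.ry's fX), added and halved:
 (rr s + rr t)/2 ≤ 3N(s3 - cc w/2 - w(M²/(wN) - M + 1/2)) = E34 (exact).  [rr x y t = 3N(s3 - cc w/2 - w(J.f - X J.fX)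
 at (X,-Y)) by ch_rr for J.ry, star_rr.]
-/
namespace Pool.Agent.MSQ

private theorem cpa_T (y : ℝ) : √3 * TT y = 3 * Nf y := by
  unfold TT Nf
  have h : (3 : ℝ) + y ^ 2 = 3 * (1 + y ^ 2 / 3) := by ring
  rw [h, Real.sqrt_mul (by norm_num)]
  have h3 : √3 * √3 = (3 : ℝ) := Real.mul_self_sqrt (by norm_num)
  calc √3 * (√3 * √(1 + y ^ 2 / 3)) = (√3 * √3) * √(1 + y ^ 2 / 3) := by ring
    _ = 3 * √(1 + y ^ 2 / 3) := by rw [h3]

private theorem cpa_r15 : √3 * cc = r15 := by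
  unfold cc r15
  rw [Real.sqrt_div (by norm_num)]
  ring

private theorem cpa_mY (x y : ℝ) : √(1 + (wf x * y / √3) ^ 2) = mY x y := by
  unfold mY wf
  congr 1
  have h3 : √3 ^ 2 = (3 : ℝ) := Real.sq_sqrt (by norm_num)
  have hm : √(mf x) ^ 2 = mf x := Real.sq_sqrt (by unfold mf; positivity)
  rw [div_pow, mul_pow, h3, hm]

private theorem cpa_lfneg (X Y : ℝ) : lf (X, -Y) = lf (X, Y) := by
  unfold lf
  simp

private theorem cpa_wpos (x : ℝ) : 1 ≤ wf x := by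
  unfold wf mf
  rw [Real.one_le_sqrt]
  nlinarith [sq_nonneg x]

private theorem cpa_Npos (y : ℝ) : 1 ≤ Nf y := by
  unfold Nf
  rw [Real.one_le_sqrt]
  nlinarith [sq_nonneg y]

private theorem cpa_Nle (y : ℝ) (h0 : 0 ≤ y) (h1 : y ≤ 1) : Nf y ≤ 5 / 4 := by
  unfold Nf
  rw [Real.sqrt_le_left (by norm_num)]
  nlinarith

private theorem cpa_Mpos (x y : ℝ) : 1 ≤ mY x y := by
  unfold mY
  rw [Real.one_le_sqrt]
  have : 0 ≤ mf x := by unfold mf; positivity
  have : 0 ≤ mf x * y ^ 2 / 3 := by positivity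
  linarith

private theorem cpa_Msq (x y : ℝ) : mY x y ^ 2 = 1 + mf x * y ^ 2 / 3 := by
  unfold mY
  rw [Real.sq_sqrt]
  have : 0 ≤ mf x := by unfold mf; positivity
  positivity

private theorem cpa_Yle (x y : ℝ) (hx0 : 0 ≤ x) (hx1 : x ≤ 1) (hy0 : 0 ≤ y) (hy1 : y ≤ 1) :
    |wf x * y / √3| ≤ 1 := by
  have h3 : (0 : ℝ) < √3 := by positivity
  have hw := cpa_wpos x
  rw [abs_of_nonneg (by positivity), div_le_one h3]
  have h1 : wf x ≤ √3 := by
    unfold wf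
    apply Real.sqrt_le_sqrt
    unfold mf
    nlinarith
  calc wf x * y ≤ wf x * 1 := by gcongr
    _ ≤ √3 := by linarith

private theorem cpa_E2 {J : Jet} {δ : ℝ} (h : Hyp J δ) (hb : 1 / 2 ≤ J.f (0, 0)) (x y : ℝ)
    (hx0 : 0 ≤ x) (hx1 : x ≤ 1) (hy0 : 0 ≤ y) (hy1 : y ≤ 1) (hxM : x * r15 ≤ mY x y) :
    3 * Nf y * (((AC J x y).u + (AC J.ry x y).u) / 2) ≤ E2 x y + 10 * δ := by
  have hY := cpa_Yle x y hx0 hx1 hy0 hy1
  have hw := cpa_wpos x
  have hN := cpa_Npos y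
  have hN2 := cpa_Nle y hy0 hy1
  have hM := cpa_Mpos x y
  have hd := h.pos
  have hr0 : 0 ≤ r15 := Real.sqrt_nonneg _
  have h3 : (0 : ℝ) < √3 := by positivity
  have h33 : √3 * √3 = (3 : ℝ) := Real.mul_self_sqrt (by norm_num)
  have hMY := cpa_mY x y
  have hMY' : √(1 + (-(wf x * y / √3)) ^ 2) = mY x y := by rw [neg_sq]; exact hMY
  have hlf := lf_chart x y
  obtain ⟨ρ, hρ⟩ : ∃ ρ : ℝ, ρ = x * r15 / mY x y := ⟨_, rfl⟩
  have hρM : ρ * mY x y = x * r15 := by rw [hρ]; field_simp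
  have hρ0 : 0 ≤ ρ := by rw [hρ]; positivity
  have hρ1 : ρ ≤ 1 := by rw [hρ, div_le_one (by linarith)]; exact hxM
  have hX : cc * x = ρ * (mY x y / √3) := by
    rw [← mul_div_assoc, hρM, eq_div_iff h3.ne', ← cpa_r15]
    ring
  have p1 := pl3 h (cc * x) (wf x * y / √3) ρ hY hρ0 hρ1 (by rw [hMY]; exact hX)
  have p2 := pl3 h (cc * x) (-(wf x * y / √3)) ρ (by rw [abs_neg]; exact hY) hρ0 hρ1
    (by rw [hMY']; exact hX)
  rw [hMY, hlf] at p1
  rw [hMY', cpa_lfneg, hlf] at p2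
  have p9 := pl9 h hb (wf x * y / √3)
  have hu1 : (AC J x y).u = s3 - cc / (2 * wf x) - J.f (cc * x, wf x * y / √3) / wf x := rfl
  have hu2 : (AC J.ry x y).u = s3 - cc / (2 * wf x) - J.f (cc * x, -(wf x * y / √3)) / wf x := rfl
  rw [hu1, hu2]
  clear hu1 hu2 hlf hMY hMY' hX hY
  generalize J.f (cc * x, wf x * y / √3) = f1 at *
  generalize J.f (cc * x, -(wf x * y / √3)) = f2 at *
  generalize J.f (0, wf x * y / √3) = g1 at *
  generalize J.f (0, -(wf x * y / √3)) = g2 at *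
  have hT := cpa_T y
  have hTT : TT y * TT y = 3 * (Nf y * Nf y) := by
    have e : (√3 * TT y) * (√3 * TT y) = (3 * Nf y) * (3 * Nf y) := by rw [hT]
    have e2 : (√3 * √3) * (TT y * TT y) = 9 * (Nf y * Nf y) := by linarith [e]
    rw [h33] at e2
    linarith
  have hr := cpa_r15
  -- the average bound
  have key : wf x * Nf y - (f1 + f2) / 2 ≤
      (1 - ρ) * (mY x y - 1 / 2) + ρ * (s3 * mY x y - cc / 2 + δ) := by
    have : 0 ≤ (1 - ρ) * ((g1 + g2) / 2 - 1 / 2) :=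
      mul_nonneg (by linarith) (by linarith)
    nlinarith [p1, p2, this]
  have hE2 : E2 x y = 3 * Nf y / wf x * (s3 * wf x - cc / 2 - wf x * Nf y +
      ((1 - ρ) * (mY x y - 1 / 2) + ρ * (s3 * mY x y - cc / 2))) := by
    unfold E2 E1
    have hw' : wf x ≠ 0 := by positivity
    rw [← hρ]
    have e1 : mY x y - r15 * x = mY x y * (1 - ρ) := by linarith [hρM]
    rw [e1]
    have e2 : TT y * (3 / 2 + 3 / 2 * mY x y / wf x - r15 / wf x - TT y) =
        (3 / 2 * TT y) + (3 / 2 * TT y) * mY x y / wf x - (r15 * TT y) / wf x - TT y * TT y := by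
      ring
    have e3 : 3 / 2 * TT y = 3 * Nf y * s3 := by
      rw [← hT]
      unfold s3
      have : √3 * TT y * (√3 / 2) = (√3 * √3) * TT y / 2 := by ring
      rw [this, h33]
      ring
    have e4 : r15 * TT y = 3 * Nf y * cc := by
      rw [← hT, ← hr]; ring
    rw [e2, e3, e4, hTT, hT]
    field_simp
    ring
  have h3N : 3 * Nf y / wf x * (ρ * δ) ≤ 10 * δ := by
    have a1 : 3 * Nf y / wf x ≤ 4 := by
      rw [div_le_iff₀ (by linarith)]
      nlinarith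
    have a2 : ρ * δ ≤ δ := by nlinarith
    have a3 : 0 ≤ ρ * δ := by positivity
    have a4 : 0 ≤ 3 * Nf y / wf x := by positivity
    nlinarith
  have hmain : 3 * Nf y * ((s3 - cc / (2 * wf x) - f1 / wf x +
      (s3 - cc / (2 * wf x) - f2 / wf x)) / 2) =
      3 * Nf y / wf x * (s3 * wf x - cc / 2 - (f1 + f2) / 2) := by
    have hw' : wf x ≠ 0 := by positivity
    field_simp
    ring
  rw [hmain, hE2]
  have a4 : 0 ≤ 3 * Nf y / wf x := by positivity
  have := mul_le_mul_of_nonneg_left key a4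
  nlinarith [this, h3N]

private theorem cpa_rr {J : Jet} (x y : ℝ) :
    rr x y (AC J x y) = 3 * Nf y * (s3 - cc * wf x / 2 -
      wf x * (J.f (cc * x, wf x * y / √3) - cc * x * J.fX (cc * x, wf x * y / √3))) := by
  have h1 := ch_rr J x y
  have h2 := star_rr x y
  unfold rr
  rw [← h1, ← h2]
  simp only [AC, St.sub]
  ring

theorem cpa {J : Jet} {δ : ℝ} (h : Hyp J δ) (hb : 1 / 2 ≤ J.f (0, 0)) (x y : ℝ) (hx0 : 0 ≤ x)
    (hx1 : x ≤ 1) (hy0 : 0 ≤ y) (hy1 : y ≤ 1) : CP δ x y (AC J x y) (AC J.ry x y) := by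
  have hd := h.pos
  refine ⟨fun hx => ?_, ?_⟩
  · have hxM : x * r15 ≤ mY x y := by
      have hM := cpa_Mpos x y
      have hr : r15 ≤ 5 / 4 := by
        unfold r15
        rw [Real.sqrt_le_left (by norm_num)]
        norm_num
      have hr0 : 0 ≤ r15 := Real.sqrt_nonneg _
      nlinarith
    have := cpa_E2 h hb x y hx0 hx1 hy0 hy1 hxM
    have h2 := ea_E2 x y hx0 hx1 hy0 hy1
    linarith
  · have hE := ea_E34 x y hx0 hx1 hy0 hy1
    have r1 := cpa_rr (J := J) x y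
    have r2 : rr x y (AC J.ry x y) = 3 * Nf y * (s3 - cc * wf x / 2 -
      wf x * (J.f (cc * x, -(wf x * y / √3)) - cc * x * J.fX (cc * x, -(wf x * y / √3)))) :=
      cpa_rr (J := J.ry) x y
    have p1 := pl7 h (cc * x) (wf x * y / √3)
    have p2 := pl7 h (cc * x) (-(wf x * y / √3))
    have p9 := pl9 h hb (wf x * y / √3)
    have hMY := cpa_mY x y
    have hMY' : √(1 + (-(wf x * y / √3)) ^ 2) = mY x y := by rw [neg_sq]; exact hMY
    have hM2 : 1 + (wf x * y / √3) ^ 2 = mY x y ^ 2 := by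
      rw [← hMY, Real.sq_sqrt (by positivity)]
    have hM2' : 1 + (-(wf x * y / √3)) ^ 2 = mY x y ^ 2 := by rw [neg_sq]; exact hM2
    rw [hMY, hM2, lf_chart] at p1
    rw [hMY', hM2', cpa_lfneg, lf_chart] at p2
    rw [r1, r2]
    clear r1 r2 hMY hMY' hM2 hM2'
    generalize J.f (cc * x, wf x * y / √3) = f1 at *
    generalize J.f (cc * x, -(wf x * y / √3)) = f2 at *
    generalize J.fX (cc * x, wf x * y / √3) = k1 at *
    generalize J.fX (cc * x, -(wf x * y / √3)) = k2 at *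
    generalize J.f (0, wf x * y / √3) = g1 at *
    generalize J.f (0, -(wf x * y / √3)) = g2 at *
    have hw := cpa_wpos x
    have hN := cpa_Npos y
    have hT := cpa_T y
    have h33 : √3 * √3 = (3 : ℝ) := Real.mul_self_sqrt (by norm_num)
    have key : mY x y ^ 2 / (wf x * Nf y) - mY x y + 1 / 2 ≤
        ((f1 - cc * x * k1) + (f2 - cc * x * k2)) / 2 := by linarith
    have hE34 : E34 x y = 3 * Nf y * (s3 - cc * wf x / 2 -
        wf x * (mY x y ^ 2 / (wf x * Nf y) - mY x y + 1 / 2)) := by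
      unfold E34 E3
      have e3 : 3 / 2 * TT y = 3 * Nf y * s3 := by
        rw [← hT]
        unfold s3
        have : √3 * TT y * (√3 / 2) = (√3 * √3) * TT y / 2 := by ring
        rw [this, h33]
        ring
      have e4 : r15 * TT y = 3 * Nf y * cc := by
        rw [← hT, ← cpa_r15]; ring
      have e5 : mf x * y ^ 2 = 3 * mY x y ^ 2 - 3 := by rw [cpa_Msq]; ring
      have hw' : wf x ≠ 0 := by positivity
      have hN' : Nf y ≠ 0 := by positivity
      rw [e3, e4, e5, hT]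
      field_simp
      ring
    have a4 : 0 ≤ 3 * Nf y * wf x := by positivity
    have := mul_le_mul_of_nonneg_left key a4
    rw [hE34] at hE
    nlinarith [this, hE]

theorem if2 {J : Jet} {δ : ℝ} (h : Hyp J δ) (hb : 1 / 2 ≤ J.f (0, 0)) (x : ℝ) (hx0 : 0 ≤ x)
    (hx1 : x ≤ 1) :
    3 * Nf 1 * (((AC J x 1).u + (AC J.ry x 1).u) / 2) ≤ uv x 1 UE2 + 10 * δ := by
  have hxM : x * r15 ≤ mY x 1 := by
    have hr0 : 0 ≤ r15 := Real.sqrt_nonneg _
    unfold mY
    apply Real.le_sqrt_of_sq_le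
    have hr : r15 ^ 2 = 3 / 2 := by unfold r15; exact Real.sq_sqrt (by norm_num)
    rw [mul_pow, hr]
    unfold mf
    nlinarith
  have := cpa_E2 h hb x 1 hx0 hx1 (by norm_num) le_rfl hxM
  have h2 := ea_E2 x 1 hx0 hx1 (by norm_num) le_rfl
  linarith

end Pool.Agent.MSQ
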