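import Pool.Agent.MSQ.EvD
/-!
DivL (80 lines). Divergence of the linear gauges.

PROOF. Core: ∂_y (f q - f_y u) = f_y q + f μ - f_yy u - f_y q = f μ - f_yy u (hasDerivAt_ev_y).
Sliver: V1 = f1 q + f0 u + f2 p, V2 = h0 u + h2 p with h0 = -f2_y - m h2_x:
 ∂_y V1 = f1_y q + f1 μ + f0_y u + f0 q + f2_y p + f2 ν,
 m ∂_x V2 = m h0_x u + h0 p + m h2_x p + h2 (κ - u + yq)/2,   h0_x = -f2_xy - x h2_x - m h2_xx (m' = x),
where f2_xy = ev (pDX (pDY f2)). The coefficient of p is f2_y + h0 + m h2_x = 0. Sum =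
 f1 μ + f2 ν + h2 κ/2 + u (f0_y + m h0_x - h2/2) + q (f1_y + f0 + y h2/2)  and
 N^6 (f0_y + m h0_x - h2/2) = -l1f - 2 D N² , i.e. u-coefficient = -(l1f D f0 f2 h2 + 2 D N²)/N^6,
 q-coefficient = l2f f0 f1 h2 (Defs.lean).
-/
namespace Pool.Agent.MSQ

private theorem divL_mf (x : ℝ) : HasDerivAt mf x x := by
  unfold mf
  have h := ((hasDerivAt_pow 2 x).div_const 2).const_add 1
  refine h.congr_deriv ?_
  norm_num

private theorem divL_mf_pos (x : ℝ) : 0 < mf x := by
  unfold mf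
  positivity

private theorem divL_mf_cont : Continuous mf := by
  unfold mf
  fun_prop

private theorem divL_N_pos (y : ℝ) : 0 < Nf y := by
  unfold Nf
  positivity

theorem divLC {S : ℝ → ℝ → St} {Z E : ℝ → ℝ → ℝ} (hS : JS S Z E) (f : P) (x y : ℝ) :
    HasDerivAt (fun t => ev x t f * (S x t).q - ev x t (pDY f) * (S x t).u)
      (ev x y f * (S x y).mu - ev x y (pDY (pDY f)) * (S x y).u) y := by
  have h1 := (hasDerivAt_ev_y x y f).mul (hS.qy x y)
  have h2 := (hasDerivAt_ev_y x y (pDY f)).mul (hS.uy x y)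
  refine (h1.sub h2).congr_deriv ?_
  ring
theorem divLS {S : ℝ → ℝ → St} {Z E : ℝ → ℝ → ℝ} (hS : JS S Z E) (D : ℝ) (f0 f1 f2 h2 : P) :
    ∃ A B : ℝ → ℝ → ℝ, (Continuous fun z : ℝ × ℝ => A z.1 z.2) ∧
      (Continuous fun z : ℝ × ℝ => B z.1 z.2) ∧
      (∀ x y, HasDerivAt (fun t => ev x t f1 * (S x t).q + ev x t f0 * (S x t).u +
        ev x t f2 * (S x t).p) (A x y) y) ∧
      (∀ x y, HasDerivAt (fun t => (-ev t y (pDY f2) - mf t * ev t y (pDX h2)) * (S t y).u +
        ev t y h2 * (S t y).p) (B x y) x) ∧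
      ∀ x y, A x y + mf x * B x y =
        ev x y f1 * (S x y).mu + ev x y f2 * (S x y).nu + ev x y h2 * (S x y).ka / 2 -
          (l1f D f0 f2 h2 x y + 2 * D * Nf y ^ 2) / Nf y ^ 6 * (S x y).u +
          l2f f0 f1 h2 x y * (S x y).q := by
  have hc : ∀ p : P, Continuous fun z : ℝ × ℝ => ev z.1 z.2 p := continuous_ev
  have hm : Continuous fun z : ℝ × ℝ => mf z.1 := divL_mf_cont.comp continuous_fst
  refine ⟨fun x y => ev x y (pDY f1) * (S x y).q + ev x y f1 * (S x y).mu +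
      (ev x y (pDY f0) * (S x y).u + ev x y f0 * (S x y).q) +
      (ev x y (pDY f2) * (S x y).p + ev x y f2 * (S x y).nu),
    fun x y => (-ev x y (pDX (pDY f2)) - (x * ev x y (pDX h2) +
      mf x * ev x y (pDX (pDX h2)))) * (S x y).u +
      (-ev x y (pDY f2) - mf x * ev x y (pDX h2)) * ((S x y).p / mf x) +
      (ev x y (pDX h2) * (S x y).p + ev x y h2 *
        (((S x y).ka - (S x y).u + y * (S x y).q) / (2 * mf x))), ?_, ?_, ?_, ?_, ?_⟩
  · exact ((((hc _).mul hS.cq).add ((hc _).mul hS.cmu)).add (((hc _).mul hS.cu).add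
      ((hc _).mul hS.cq))).add (((hc _).mul hS.cp).add ((hc _).mul hS.cnu))
  · refine (((((hc _).neg).sub ((continuous_fst.mul (hc _)).add (hm.mul (hc _)))).mul
      hS.cu).add ((((hc _).neg).sub (hm.mul (hc _))).mul (hS.cp.div hm
        (fun z => (divL_mf_pos z.1).ne')))).add (((hc _).mul hS.cp).add ((hc _).mul ?_))
    refine ((hS.cka.sub hS.cu).add (continuous_snd.mul hS.cq)).div (continuous_const.mul hm) ?_
    intro z
    have := divL_mf_pos z.1
    positivity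
  · intro x y
    exact (((hasDerivAt_ev_y x y f1).mul (hS.qy x y)).add
      ((hasDerivAt_ev_y x y f0).mul (hS.uy x y))).add
      ((hasDerivAt_ev_y x y f2).mul (hS.py x y))
  · intro x y
    exact (((hasDerivAt_ev_x x y (pDY f2)).neg.sub ((divL_mf x).mul
      (hasDerivAt_ev_x x y (pDX h2)))).mul (hS.ux x y)).add
      ((hasDerivAt_ev_x x y h2).mul (hS.px x y))
  · intro x y
    have h1 := (divL_mf_pos x).ne'
    have hNy := (divL_N_pos y).ne'
    have h3 : (l1f D f0 f2 h2 x y + 2 * D * Nf y ^ 2) / Nf y ^ 6 =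
        -ev x y (pDY f0) + mf x * (ev x y (pDX (pDY f2)) +
        x * ev x y (pDX h2) + mf x * ev x y (pDX (pDX h2))) + ev x y h2 / 2 := by
      unfold l1f
      rw [div_eq_iff (pow_ne_zero 6 hNy)]
      ring
    dsimp only
    rw [h3]
    unfold l2f
    field_simp
    ring

end Pool.Agent.MSQ
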