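import Pool.Agent.MSQ.EvD
/-!
DivQ (150 lines). The divergence identity of the quadratic gauge.

PROOF. Let (u,q,p,μ,ν,κ) be the components of S x y. Product rule with
 u_y = q, q_y = μ, p_y = ν, κ_y = 2Z - yμ, N' = y/(3N) (N = Nf y, N^2 = 1+y^2/3),
 u_x = p/m, q_x = ν/m, p_x = (κ-u+yq)/(2m), ν_x = Z/m, and hasDerivAt_ev_y, hasDerivAt_ev_x for the polynomials.
 A = ∂_y V1q: with Q1 = numerator of V1q (V1q = Q1/N):
   A = (∂_y Q1)/N - Q1 y/(3 N^3),
   ∂_y Q1 = G11_y u²/2 + G11 u q + G12_y u q + G12 (q² + u μ) + G22_y q²/2 + G22 q μ + G13_y u p +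
     G13 (q p + u ν) + G23_y q p + G23 (μ p + q ν) + G33_y p²/2 + G33 p ν + K_y q(κ-u+yq) +
     K μ (κ-u+yq) + K q (2Z - yμ - q + q + yμ)            (last bracket = 2Z)
 m B = m ∂_x V2q = [ m(H11_x u²/2 + ...) + H11 u p + H12 (p q + u ν) + H22 q ν + H13 (p² + u(κ-u+yq)/2) +
     H23 (ν p + q (κ-u+yq)/2) + H33 p (κ-u+yq)/2 ]/N³ - (2/N)( m K_x q ν + K ν² + K q Z ).
 The Z terms cancel in A + m B. Multiply by N³, N² = 1+y²/3: N³(A + mB) = D(3N²uμ+uκ) - Rg (definition of Rg).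
 Continuity of A and B: they are built from continuous functions (continuous_ev, the continuity fields of JS,
 N > 0, m > 0). Suggestion: define A, B by the explicit formulas above and prove three separate private lemmas.
-/
namespace Pool.Agent.MSQ

private theorem dvq_Npos (y : ℝ) : 0 < Nf y := Real.sqrt_pos.2 (by positivity)

private theorem dvq_Nsq (y : ℝ) : Nf y ^ 2 = 1 + y ^ 2 / 3 := Real.sq_sqrt (by positivity)

private theorem dvq_N (y : ℝ) : HasDerivAt Nf (y / (3 * Nf y)) y := by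
  have h1 : HasDerivAt (fun t : ℝ => 1 + t ^ 2 / 3) (2 * y / 3) y := by
    have h2 := ((hasDerivAt_pow 2 y).div_const 3).const_add 1
    refine h2.congr_deriv ?_
    norm_num
  have h3 := h1.sqrt (by positivity : (1 : ℝ) + y ^ 2 / 3 ≠ 0)
  refine h3.congr_deriv ?_
  change 2 * y / 3 / (2 * Nf y) = y / (3 * Nf y)
  have h4 := (dvq_Npos y).ne'
  field_simp

private theorem dvq_cN : Continuous fun z : ℝ × ℝ => Nf z.2 := by
  have h : Continuous Nf := by
    unfold Nf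
    fun_prop
  exact h.comp continuous_snd

private theorem dvq_cm : Continuous fun z : ℝ × ℝ => mf z.1 := by
  unfold mf
  fun_prop

private theorem dvq_mpos (x : ℝ) : 0 < mf x := by
  unfold mf
  positivity

private noncomputable def dvqQ (g : GB) (x y : ℝ) (s : St) : ℝ :=
  ev x y g.G11 * s.u ^ 2 / 2 + ev x y g.G12 * s.u * s.q + ev x y g.G22 * s.q ^ 2 / 2 +
    ev x y g.G13 * s.u * s.p + ev x y g.G23 * s.q * s.p + ev x y g.G33 * s.p ^ 2 / 2 +
    ev x y g.K * s.q * (s.ka - s.u + y * s.q)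

private noncomputable def dvqQy (g : GB) (x y : ℝ) (s : St) (Z : ℝ) : ℝ :=
  (ev x y (pDY g.G11) * s.u ^ 2 / 2 + ev x y g.G11 * s.u * s.q) +
  (ev x y (pDY g.G12) * s.u * s.q + ev x y g.G12 * (s.q ^ 2 + s.u * s.mu)) +
  (ev x y (pDY g.G22) * s.q ^ 2 / 2 + ev x y g.G22 * s.q * s.mu) +
  (ev x y (pDY g.G13) * s.u * s.p + ev x y g.G13 * (s.q * s.p + s.u * s.nu)) +
  (ev x y (pDY g.G23) * s.q * s.p + ev x y g.G23 * (s.mu * s.p + s.q * s.nu)) +
  (ev x y (pDY g.G33) * s.p ^ 2 / 2 + ev x y g.G33 * s.p * s.nu) +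
  ((ev x y (pDY g.K) * s.q + ev x y g.K * s.mu) * (s.ka - s.u + y * s.q) +
    2 * (ev x y g.K * s.q * Z))

private noncomputable def dvqR (g : GB) (x y : ℝ) (s : St) : ℝ :=
  ev x y g.H11 * s.u ^ 2 / 2 + ev x y g.H12 * s.u * s.q + ev x y g.H22 * s.q ^ 2 / 2 +
    ev x y g.H13 * s.u * s.p + ev x y g.H23 * s.q * s.p + ev x y g.H33 * s.p ^ 2 / 2

private noncomputable def dvqRx (g : GB) (x y : ℝ) (s : St) : ℝ :=
  ev x y (pDX g.H11) * s.u ^ 2 / 2 + ev x y (pDX g.H12) * s.u * s.q +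
    ev x y (pDX g.H22) * s.q ^ 2 / 2 + ev x y (pDX g.H13) * s.u * s.p +
    ev x y (pDX g.H23) * s.q * s.p + ev x y (pDX g.H33) * s.p ^ 2 / 2

private noncomputable def dvqH (g : GB) (x y : ℝ) (s : St) : ℝ :=
  ev x y g.H11 * s.u * s.p + ev x y g.H12 * (s.p * s.q + s.u * s.nu) +
    ev x y g.H22 * s.q * s.nu + ev x y g.H13 * (s.p ^ 2 + s.u * (s.ka - s.u + y * s.q) / 2) +
    ev x y g.H23 * (s.nu * s.p + s.q * (s.ka - s.u + y * s.q) / 2) +
    ev x y g.H33 * s.p * (s.ka - s.u + y * s.q) / 2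

private noncomputable def dvqA (g : GB) (S : ℝ → ℝ → St) (Z : ℝ → ℝ → ℝ) (x y : ℝ) : ℝ :=
  dvqQy g x y (S x y) (Z x y) / Nf y - dvqQ g x y (S x y) * (y / (3 * Nf y ^ 3))

private noncomputable def dvqB (g : GB) (S : ℝ → ℝ → St) (Z : ℝ → ℝ → ℝ) (x y : ℝ) : ℝ :=
  (dvqRx g x y (S x y) + dvqH g x y (S x y) / mf x) / Nf y ^ 3 -
    2 * (ev x y (pDX g.K) * (S x y).q * (S x y).nu +
      (ev x y g.K * (S x y).nu ^ 2 + ev x y g.K * (S x y).q * Z x y) / mf x) / Nf y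

private theorem dvq_dQ {S : ℝ → ℝ → St} {Z E : ℝ → ℝ → ℝ} (hS : JS S Z E) (g : GB) (x y : ℝ) :
    HasDerivAt (fun t => dvqQ g x t (S x t)) (dvqQy g x y (S x y) (Z x y)) y := by
  have hu := hS.uy x y
  have hq := hS.qy x y
  have hp := hS.py x y
  have hk := hS.kay x y
  have a1 := ((hasDerivAt_ev_y x y g.G11).mul (hu.pow 2)).div_const 2
  have a2 := ((hasDerivAt_ev_y x y g.G12).mul hu).mul hq
  have a3 := ((hasDerivAt_ev_y x y g.G22).mul (hq.pow 2)).div_const 2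
  have a4 := ((hasDerivAt_ev_y x y g.G13).mul hu).mul hp
  have a5 := ((hasDerivAt_ev_y x y g.G23).mul hq).mul hp
  have a6 := ((hasDerivAt_ev_y x y g.G33).mul (hp.pow 2)).div_const 2
  have a7 := ((hasDerivAt_ev_y x y g.K).mul hq).mul ((hk.sub hu).add ((hasDerivAt_id y).mul hq))
  have h := (((((a1.add a2).add a3).add a4).add a5).add a6).add a7
  refine h.congr_deriv ?_
  simp only [dvqQy, Pi.mul_apply, Pi.pow_apply, Pi.sub_apply, Pi.add_apply, id, Nat.cast_ofNat]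
  ring

private theorem dvq_dR {S : ℝ → ℝ → St} {Z E : ℝ → ℝ → ℝ} (hS : JS S Z E) (g : GB) (x y : ℝ) :
    HasDerivAt (fun t => dvqR g t y (S t y))
      (dvqRx g x y (S x y) + dvqH g x y (S x y) / mf x) x := by
  have hu := hS.ux x y
  have hq := hS.qx x y
  have hp := hS.px x y
  have a1 := ((hasDerivAt_ev_x x y g.H11).mul (hu.pow 2)).div_const 2
  have a2 := ((hasDerivAt_ev_x x y g.H12).mul hu).mul hq
  have a3 := ((hasDerivAt_ev_x x y g.H22).mul (hq.pow 2)).div_const 2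
  have a4 := ((hasDerivAt_ev_x x y g.H13).mul hu).mul hp
  have a5 := ((hasDerivAt_ev_x x y g.H23).mul hq).mul hp
  have a6 := ((hasDerivAt_ev_x x y g.H33).mul (hp.pow 2)).div_const 2
  have h := ((((a1.add a2).add a3).add a4).add a5).add a6
  refine h.congr_deriv ?_
  have hm := (dvq_mpos x).ne'
  simp only [dvqRx, dvqH, Pi.mul_apply, Pi.pow_apply, Nat.cast_ofNat]
  field_simp
  ring

private theorem dvq_ev (p : P) : Continuous fun z : ℝ × ℝ => ev z.1 z.2 p := continuous_ev p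

private theorem dvq_cQ {S : ℝ → ℝ → St} {Z E : ℝ → ℝ → ℝ} (hS : JS S Z E) (g : GB) :
    Continuous fun z : ℝ × ℝ => dvqQ g z.1 z.2 (S z.1 z.2) := by
  have cu := hS.cu
  have cq := hS.cq
  have cp := hS.cp
  have cW := (hS.cka.sub hS.cu).add (continuous_snd.mul hS.cq)
  have a1 := ((dvq_ev g.G11).mul (cu.pow 2)).div_const 2
  have a2 := ((dvq_ev g.G12).mul cu).mul cq
  have a3 := ((dvq_ev g.G22).mul (cq.pow 2)).div_const 2
  have a4 := ((dvq_ev g.G13).mul cu).mul cp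
  have a5 := ((dvq_ev g.G23).mul cq).mul cp
  have a6 := ((dvq_ev g.G33).mul (cp.pow 2)).div_const 2
  have a7 := ((dvq_ev g.K).mul cq).mul cW
  exact (((((a1.add a2).add a3).add a4).add a5).add a6).add a7

private theorem dvq_cR {S : ℝ → ℝ → St} {Z E : ℝ → ℝ → ℝ} (hS : JS S Z E) (g : GB) :
    Continuous fun z : ℝ × ℝ => dvqR g z.1 z.2 (S z.1 z.2) := by
  have cu := hS.cu
  have cq := hS.cq
  have cp := hS.cp
  have a1 := ((dvq_ev g.H11).mul (cu.pow 2)).div_const 2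
  have a2 := ((dvq_ev g.H12).mul cu).mul cq
  have a3 := ((dvq_ev g.H22).mul (cq.pow 2)).div_const 2
  have a4 := ((dvq_ev g.H13).mul cu).mul cp
  have a5 := ((dvq_ev g.H23).mul cq).mul cp
  have a6 := ((dvq_ev g.H33).mul (cp.pow 2)).div_const 2
  exact ((((a1.add a2).add a3).add a4).add a5).add a6

private theorem dvq_cRx {S : ℝ → ℝ → St} {Z E : ℝ → ℝ → ℝ} (hS : JS S Z E) (g : GB) :
    Continuous fun z : ℝ × ℝ => dvqRx g z.1 z.2 (S z.1 z.2) := by
  have cu := hS.cu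
  have cq := hS.cq
  have cp := hS.cp
  have a1 := ((dvq_ev (pDX g.H11)).mul (cu.pow 2)).div_const 2
  have a2 := ((dvq_ev (pDX g.H12)).mul cu).mul cq
  have a3 := ((dvq_ev (pDX g.H22)).mul (cq.pow 2)).div_const 2
  have a4 := ((dvq_ev (pDX g.H13)).mul cu).mul cp
  have a5 := ((dvq_ev (pDX g.H23)).mul cq).mul cp
  have a6 := ((dvq_ev (pDX g.H33)).mul (cp.pow 2)).div_const 2
  exact ((((a1.add a2).add a3).add a4).add a5).add a6

private theorem dvq_cH {S : ℝ → ℝ → St} {Z E : ℝ → ℝ → ℝ} (hS : JS S Z E) (g : GB) :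
    Continuous fun z : ℝ × ℝ => dvqH g z.1 z.2 (S z.1 z.2) := by
  have cu := hS.cu
  have cq := hS.cq
  have cp := hS.cp
  have cn := hS.cnu
  have cW := (hS.cka.sub hS.cu).add (continuous_snd.mul hS.cq)
  have a1 := ((dvq_ev g.H11).mul cu).mul cp
  have a2 := (dvq_ev g.H12).mul ((cp.mul cq).add (cu.mul cn))
  have a3 := ((dvq_ev g.H22).mul cq).mul cn
  have a4 := (dvq_ev g.H13).mul ((cp.pow 2).add ((cu.mul cW).div_const 2))
  have a5 := (dvq_ev g.H23).mul ((cn.mul cp).add ((cq.mul cW).div_const 2))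
  have a6 := (((dvq_ev g.H33).mul cp).mul cW).div_const 2
  exact ((((a1.add a2).add a3).add a4).add a5).add a6

private theorem dvq_cQy {S : ℝ → ℝ → St} {Z E : ℝ → ℝ → ℝ} (hS : JS S Z E) (g : GB) :
    Continuous fun z : ℝ × ℝ => dvqQy g z.1 z.2 (S z.1 z.2) (Z z.1 z.2) := by
  have cu := hS.cu
  have cq := hS.cq
  have cp := hS.cp
  have cn := hS.cnu
  have cm := hS.cmu
  have cW := (hS.cka.sub hS.cu).add (continuous_snd.mul hS.cq)
  have a1 := (((dvq_ev (pDY g.G11)).mul (cu.pow 2)).div_const 2).add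
    (((dvq_ev g.G11).mul cu).mul cq)
  have a2 := (((dvq_ev (pDY g.G12)).mul cu).mul cq).add
    ((dvq_ev g.G12).mul ((cq.pow 2).add (cu.mul cm)))
  have a3 := (((dvq_ev (pDY g.G22)).mul (cq.pow 2)).div_const 2).add
    (((dvq_ev g.G22).mul cq).mul cm)
  have a4 := (((dvq_ev (pDY g.G13)).mul cu).mul cp).add
    ((dvq_ev g.G13).mul ((cq.mul cp).add (cu.mul cn)))
  have a5 := (((dvq_ev (pDY g.G23)).mul cq).mul cp).add
    ((dvq_ev g.G23).mul ((cm.mul cp).add (cq.mul cn)))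
  have a6 := (((dvq_ev (pDY g.G33)).mul (cp.pow 2)).div_const 2).add
    (((dvq_ev g.G33).mul cp).mul cn)
  have a7 := ((((dvq_ev (pDY g.K)).mul cq).add ((dvq_ev g.K).mul cm)).mul cW).add
    ((continuous_const (y := (2 : ℝ))).mul (((dvq_ev g.K).mul cq).mul hS.cZ))
  exact (((((a1.add a2).add a3).add a4).add a5).add a6).add a7

theorem divQ {S : ℝ → ℝ → St} {Z E : ℝ → ℝ → ℝ} (hS : JS S Z E) (D : ℝ) (g : GB) :
    ∃ A B : ℝ → ℝ → ℝ, (Continuous fun z : ℝ × ℝ => A z.1 z.2) ∧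
      (Continuous fun z : ℝ × ℝ => B z.1 z.2) ∧
      (∀ x y, HasDerivAt (fun t => V1q g x t (S x t)) (A x y) y) ∧
      (∀ x y, HasDerivAt (fun t => V2q g t y (S t y)) (B x y) x) ∧
      ∀ x y, A x y + mf x * B x y =
        (D * (3 * (1 + y ^ 2 / 3) * (S x y).u * (S x y).mu + (S x y).u * (S x y).ka) -
          Rg D g x y (S x y)) / Nf y ^ 3 := by
  have cN3 : Continuous fun z : ℝ × ℝ => Nf z.2 ^ 3 := dvq_cN.pow 3
  have hN0 : ∀ z : ℝ × ℝ, Nf z.2 ≠ 0 := fun z => (dvq_Npos z.2).ne'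
  have hN3 : ∀ z : ℝ × ℝ, Nf z.2 ^ 3 ≠ 0 := fun z => pow_ne_zero 3 (hN0 z)
  refine ⟨dvqA g S Z, dvqB g S Z, ?_, ?_, fun x y => ?_, fun x y => ?_, fun x y => ?_⟩
  · have t1 := (dvq_cQy hS g).div dvq_cN hN0
    have t2 : Continuous fun z : ℝ × ℝ => z.2 / (3 * Nf z.2 ^ 3) :=
      continuous_snd.div (continuous_const.mul cN3) fun z => mul_ne_zero three_ne_zero (hN3 z)
    exact t1.sub ((dvq_cQ hS g).mul t2)
  · have hm0 : ∀ z : ℝ × ℝ, mf z.1 ≠ 0 := fun z => (dvq_mpos z.1).ne'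
    have t1 := ((dvq_cRx hS g).add ((dvq_cH hS g).div dvq_cm hm0)).div cN3 hN3
    have t2 := ((dvq_ev (pDX g.K)).mul hS.cq).mul hS.cnu
    have t3 := ((dvq_ev g.K).mul (hS.cnu.pow 2)).add (((dvq_ev g.K).mul hS.cq).mul hS.cZ)
    have t4 := ((continuous_const (y := (2 : ℝ))).mul (t2.add (t3.div dvq_cm hm0))).div dvq_cN hN0
    exact t1.sub t4
  · have hN := (dvq_Npos y).ne'
    have h := (dvq_dQ hS g x y).div (dvq_N y) hN
    refine h.congr_deriv ?_
    unfold dvqA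
    generalize dvqQy g x y (S x y) (Z x y) = a
    generalize dvqQ g x y (S x y) = b
    field_simp
  · have hN := (dvq_Npos y).ne'
    have hm := (dvq_mpos x).ne'
    have h1 := (dvq_dR hS g x y).div_const (Nf y ^ 3)
    have h2 := ((((hasDerivAt_ev_x x y g.K).const_mul 2).mul (hS.qx x y)).mul
      (hS.nux x y)).div_const (Nf y)
    refine (h1.sub h2).congr_deriv ?_
    unfold dvqB
    simp only [Pi.mul_apply]
    generalize dvqRx g x y (S x y) + dvqH g x y (S x y) / mf x = a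
    field_simp
    ring
  · have hN := (dvq_Npos y).ne'
    have hm := (dvq_mpos x).ne'
    have hs := dvq_Nsq y
    rw [eq_div_iff (pow_ne_zero 3 hN)]
    have e1 : dvqA g S Z x y * Nf y ^ 3 = (1 + y ^ 2 / 3) * dvqQy g x y (S x y) (Z x y) -
        y / 3 * dvqQ g x y (S x y) := by
      unfold dvqA
      rw [← hs]
      field_simp
    have e2 : mf x * dvqB g S Z x y * Nf y ^ 3 = mf x * dvqRx g x y (S x y) +
        dvqH g x y (S x y) - 2 * (1 + y ^ 2 / 3) * (mf x * (ev x y (pDX g.K) * (S x y).q *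
          (S x y).nu) + (ev x y g.K * (S x y).nu ^ 2 + ev x y g.K * (S x y).q * Z x y)) := by
      unfold dvqB
      rw [← hs]
      field_simp
    rw [add_mul, e1, e2]
    simp only [dvqQy, dvqQ, dvqRx, dvqH, Rg, Af]
    ring
/-- continuity of the gauge along a state field -/
theorem cont_Vq {S : ℝ → ℝ → St} {Z E : ℝ → ℝ → ℝ} (hS : JS S Z E) (g : GB) :
    (Continuous fun z : ℝ × ℝ => V1q g z.1 z.2 (S z.1 z.2)) ∧
    (Continuous fun z : ℝ × ℝ => V2q g z.1 z.2 (S z.1 z.2)) := by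
  have hN0 : ∀ z : ℝ × ℝ, Nf z.2 ≠ 0 := fun z => (dvq_Npos z.2).ne'
  have hN3 : ∀ z : ℝ × ℝ, Nf z.2 ^ 3 ≠ 0 := fun z => pow_ne_zero 3 (hN0 z)
  refine ⟨(dvq_cQ hS g).div dvq_cN hN0, ((dvq_cR hS g).div (dvq_cN.pow 3) hN3).sub ?_⟩
  exact ((((continuous_const (y := (2 : ℝ))).mul (dvq_ev g.K)).mul hS.cq).mul hS.cnu).div
    dvq_cN hN0

end Pool.Agent.MSQ
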