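import Pool.Agent.MSQ.Defs
/-!
PtC (150 lines). The pointwise inequality in the core (pure real algebra).

NOTATION: N = Nf y, N² = 1 + y²/3, 1 ≤ N ≤ 1.1548 (0 ≤ y ≤ 1), T = √3 N, e = s.hs t, o = s.hd t, EL = 3N²(1-T/2),
 α(s) = -3N³ s.mu ∈ [0,1] (CF.mu0, mu1), tr(a,b,c)(s) = a(1+3N³μ) + 2b(3N³ν) + c(EL + 3N³κ), rr x y s = 3N(u - xp + x²yq/2).
IDENTITY (checked numerically; field_simp; ring, using only N² = 1+y²/3 to rewrite 1+y²/3): the right hand side equals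
  [P1(s)+P1(t)]/(2N⁷) + [P2(s)+P2(t)]/(2N⁶) + [P3(s)+P3(t)]/(6N⁷) + P4/(3N⁷) + P5/(3N⁴) + α(e) S1/(3N⁷) + e.u S2/N⁶
 P1 = α tr(la11,la12,la22),  P2 = u tr(ro11,ro12,ro22),
 P3 = α (phA(E1-3Nu) + phB(E2l-3Nu) + phC(E1b-3Nu) + psA(E3-rr) + psB(E34l-rr) + psE(E3b-rr)),
 P4 = α(e) (phs(E2-3N e.u) + pss(E34 - (rr s + rr t)/2)),  P5 = vus e.u (E2 - 3N e.u),
 E.. = uv x y UE..; S1, S2 = the right hand sides of CM.Good.S1, S2 (so ≥ 0).
ESTIMATES: tr(..) of a psd matrix (a, b; b, 2c) with the psd matrix (1+3N³μ, 3N³ν; 3N³ν, (EL+3N³κ)/2) is ≥ 0 (from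
 a ≥ 0, c ≥ 0, b² ≤ 2ac and the det fact: |2b·3N³ν| ≤ 2√(2ac)·√(m11 m22) ≤ a m11 + 2 c m22; prove it by
 (2b n)² ≤ 4·2ac·m11·m22 ≤ (a m11 + 2c m22)²), and ≤ 9B since |3N³ν| ≤ 2 (2(3N³ν)² ≤ 1·3N² ≤ 4), EL + 3N³κ ≤ 4.
 P1 ≥ 0. P2 ≥ -δ·9B (u ≥ -δ). P3 ≥ -6·B·10δ (each bracket ≥ -10δ, α ≤ 1, φ ≤ B; for x > 4/5 the multipliers
 phA, phB, phs, vus vanish by CM.Good.zero). P4 ≥ -2·B·10δ. P5: a = e.u ∈ [-δ,2], b = E2 - 3N e.u ∈ [-10δ, 20]: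
 ab ≥ -20δ - 20δ, so P5 ≥ -40Bδ. α(e) S1 ≥ 0. e.u S2 ≥ -δ S2, S2 ≤ N⁶ g + D(2-T)N² + ... ≤ 3B + B + 4B·.. ≤ 20B
 (|uv UE2| ≤ 10: the vus term is ≤ N²/3·B·10). The sum of the errors is < 1000 B δ.
-/
namespace Pool.Agent.MSQ

private theorem ptC_tr0 {a b c m n k : ℝ} (ha : 0 ≤ a) (hc : 0 ≤ c) (hb : b ^ 2 ≤ 2 * a * c)
    (hm : 0 ≤ m) (hk : 0 ≤ k) (hn : 2 * n ^ 2 ≤ m * k) : 0 ≤ a * m + 2 * b * n + c * k := by
  have h1 : (2 * b * n) ^ 2 ≤ (a * m + c * k) ^ 2 := by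
    have h2 : b ^ 2 * (2 * n ^ 2) ≤ 2 * a * c * (m * k) :=
      mul_le_mul hb hn (by positivity) (by positivity)
    nlinarith [sq_nonneg (a * m - c * k)]
  have h3 := abs_le_of_sq_le_sq h1 (by positivity)
  have h4 := (abs_le.mp h3).1
  linarith

private theorem ptC_tr1 {a b c m n k B : ℝ} (hb : |b| ≤ B) (ha : |a| ≤ B) (hc : |c| ≤ B)
    (hm : 0 ≤ m) (hm1 : m ≤ 1) (hk : 0 ≤ k) (hk1 : k ≤ 4) (hn : 2 * n ^ 2 ≤ m * k) :
    a * m + 2 * b * n + c * k ≤ 9 * B := by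
  have hB : 0 ≤ B := (abs_nonneg _).trans ha
  have h1 : m * k ≤ 1 * 4 := mul_le_mul hm1 hk1 hk (by norm_num)
  have h2 : |n| ≤ 2 := abs_le_of_sq_le_sq (by nlinarith) (by norm_num)
  have h3 : |b * n| ≤ B * 2 := by
    rw [abs_mul]; exact mul_le_mul hb h2 (abs_nonneg _) hB
  have h4 := (abs_le.mp h3).2
  have h5 : a * m ≤ B * 1 := by
    calc a * m ≤ |a| * m := mul_le_mul_of_nonneg_right (le_abs_self _) hm
      _ ≤ B * 1 := mul_le_mul ha hm1 hm hB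
  have h6 : c * k ≤ B * 4 := by
    calc c * k ≤ |c| * k := mul_le_mul_of_nonneg_right (le_abs_self _) hk
      _ ≤ B * 4 := mul_le_mul hc hk1 hk hB
  nlinarith

private theorem ptC_mul {φ b B δ : ℝ} (hδ : 0 ≤ δ) (h0 : 0 ≤ φ) (h1 : |φ| ≤ B)
    (hb : φ = 0 ∨ -(10 * δ) ≤ b) : -(10 * B * δ) ≤ φ * b := by
  have hB : 0 ≤ B := (abs_nonneg _).trans h1
  have h2 : φ ≤ B := (le_abs_self _).trans h1
  rcases hb with h | h
  · rw [h]; have : 0 ≤ B * δ := mul_nonneg hB hδ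
    nlinarith
  · have h3 : φ * (-(10 * δ)) ≤ φ * b := mul_le_mul_of_nonneg_left h h0
    have h4 : φ * δ ≤ B * δ := mul_le_mul_of_nonneg_right h2 hδ
    nlinarith

private theorem ptC_al {α X C : ℝ} (h0 : 0 ≤ α) (h1 : α ≤ 1) (hC : 0 ≤ C) (hX : -C ≤ X) :
    -C ≤ α * X := by
  have h2 : α * (-C) ≤ α * X := mul_le_mul_of_nonneg_left hX h0
  have h3 : α * C ≤ 1 * C := mul_le_mul_of_nonneg_right h1 hC
  nlinarith

private theorem ptC_fin {N B δ a1 b1 a2 b2 a3 b3 a4 a5 a6 a7 : ℝ} (hN1 : 1 ≤ N)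
    (hN : N ≤ 6 / 5) (hBδ : 0 ≤ B * δ) (h1 : 0 ≤ a1) (k1 : 0 ≤ b1) (h2 : -(9 * B * δ) ≤ a2)
    (k2 : -(9 * B * δ) ≤ b2) (h3 : -(60 * B * δ) ≤ a3) (k3 : -(60 * B * δ) ≤ b3)
    (h4 : -(20 * B * δ) ≤ a4) (h5 : -(20 * B * δ) ≤ a5) (h6 : 0 ≤ a6)
    (h7 : -(20 * B * δ) ≤ a7) :
    -(1000 * B * δ) ≤ ((a1 + b1) / 2 + N * (a2 + b2) / 2 + (a3 + b3) / 6 + a4 / 3 +
      N ^ 3 * a5 / 3 + a6 / 3 + N * a7) / N ^ 7 := by
  have hN0 : 0 ≤ N := by linarith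
  have hN7 : (1 : ℝ) ≤ N ^ 7 := one_le_pow₀ hN1
  have hN3' : N ^ 3 ≤ 2 := by
    calc N ^ 3 ≤ (6 / 5) ^ 3 := pow_le_pow_left₀ hN0 hN 3
      _ ≤ 2 := by norm_num
  rw [le_div_iff₀ (by positivity)]
  have hfin : -(1000 * B * δ) * N ^ 7 ≤ -(1000 * B * δ) := by
    have := mul_le_mul_of_nonneg_left hN7 hBδ
    linarith
  refine hfin.trans ?_
  have w2 : -(40 * B * δ) ≤ N * (a2 + b2) := by
    have q1 := mul_le_mul_of_nonneg_left (add_le_add h2 k2) hN0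
    have q2 := mul_le_mul_of_nonneg_right hN (by positivity : (0:ℝ) ≤ 18 * (B * δ))
    linarith
  have w5 : -(40 * B * δ) ≤ N ^ 3 * a5 := by
    have q1 := mul_le_mul_of_nonneg_left h5 (by positivity : (0:ℝ) ≤ N ^ 3)
    have q2 := mul_le_mul_of_nonneg_right hN3' (by positivity : (0:ℝ) ≤ 20 * (B * δ))
    linarith
  have w7 : -(40 * B * δ) ≤ N * a7 := by
    have q1 := mul_le_mul_of_nonneg_left h7 hN0
    have q2 := mul_le_mul_of_nonneg_right (hN.trans (by norm_num : (6:ℝ) / 5 ≤ 2))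
      (by positivity : (0:ℝ) ≤ 20 * (B * δ))
    linarith
  linarith

/-- the identity -/
private theorem ptC_id (x y D f g N r E1 E2 E2l E3 E34 E34l E1b E3b : ℝ) (M : CM) (s t : St)
    (hN : 1 + y ^ 2 / 3 = N ^ 2) (hN0 : N ≠ 0) :
    (-(M.Q 1 x y (s.hs t)) - M.Q 0 x y (s.hd t)) / N ^ 3 +
      D * (2 - r * N) * ((s.u + t.u) / 2) / N ^ 4 - f * ((s.mu + t.mu) / 2) +
      g * ((s.u + t.u) / 2) =
    (((-3 * N ^ 3 * s.mu) * (M.la11 * (1 + 3 * N ^ 3 * s.mu) + 2 * M.la12 * (3 * N ^ 3 * s.nu) +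
        M.la22 * (3 * N ^ 2 * (1 - r * N / 2) + 3 * N ^ 3 * s.ka)) +
      (-3 * N ^ 3 * t.mu) * (M.la11 * (1 + 3 * N ^ 3 * t.mu) + 2 * M.la12 * (3 * N ^ 3 * t.nu) +
        M.la22 * (3 * N ^ 2 * (1 - r * N / 2) + 3 * N ^ 3 * t.ka))) / 2 +
     N * (s.u * (M.ro11 * (1 + 3 * N ^ 3 * s.mu) + 2 * M.ro12 * (3 * N ^ 3 * s.nu) +
        M.ro22 * (3 * N ^ 2 * (1 - r * N / 2) + 3 * N ^ 3 * s.ka)) +
      t.u * (M.ro11 * (1 + 3 * N ^ 3 * t.mu) + 2 * M.ro12 * (3 * N ^ 3 * t.nu) +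
        M.ro22 * (3 * N ^ 2 * (1 - r * N / 2) + 3 * N ^ 3 * t.ka))) / 2 +
     ((-3 * N ^ 3 * s.mu) * (M.phA * (E1 - 3 * N * s.u) + M.phB * (E2l - 3 * N * s.u) +
        M.phC * (E1b - 3 * N * s.u) +
        M.psA * (E3 - 3 * N * (s.u - x * s.p + x ^ 2 * y * s.q / 2)) +
        M.psB * (E34l - 3 * N * (s.u - x * s.p + x ^ 2 * y * s.q / 2)) +
        M.psE * (E3b - 3 * N * (s.u - x * s.p + x ^ 2 * y * s.q / 2))) +
      (-3 * N ^ 3 * t.mu) * (M.phA * (E1 - 3 * N * t.u) + M.phB * (E2l - 3 * N * t.u) +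
        M.phC * (E1b - 3 * N * t.u) +
        M.psA * (E3 - 3 * N * (t.u - x * t.p + x ^ 2 * y * t.q / 2)) +
        M.psB * (E34l - 3 * N * (t.u - x * t.p + x ^ 2 * y * t.q / 2)) +
        M.psE * (E3b - 3 * N * (t.u - x * t.p + x ^ 2 * y * t.q / 2)))) / 6 +
     (-3 * N ^ 3 * ((s.mu + t.mu) / 2)) * (M.phs * (E2 - 3 * N * ((s.u + t.u) / 2)) +
        M.pss * (E34 - (3 * N * (s.u - x * s.p + x ^ 2 * y * s.q / 2) +
          3 * N * (t.u - x * t.p + x ^ 2 * y * t.q / 2)) / 2)) / 3 +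
     N ^ 3 * (M.vus * (((s.u + t.u) / 2) * (E2 - 3 * N * ((s.u + t.u) / 2)))) / 3 +
     (-3 * N ^ 3 * ((s.mu + t.mu) / 2)) * (N ^ 4 * f - 3 * M.la11 - 3 * M.la22 *
        (3 * N ^ 2 * (1 - r * N / 2)) -
        (M.phA * E1 + M.phB * E2l + M.phC * E1b + M.phs * E2 +
          M.psA * E3 + M.psB * E34l + M.psE * E3b + M.pss * E34)) / 3 +
     N * (((s.u + t.u) / 2) * (N ^ 6 * g + D * (2 - r * N) * N ^ 2 - M.ro11 -
        M.ro22 * (3 * N ^ 2 * (1 - r * N / 2)) - N ^ 2 / 3 * M.vus * E2))) / N ^ 7 := by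
  have h1 : (-(M.Q 1 x y (s.hs t)) - M.Q 0 x y (s.hd t)) / N ^ 3 =
      (N ^ 4 * (-(M.Q 1 x y (s.hs t)) - M.Q 0 x y (s.hd t))) / N ^ 7 := by
    field_simp
  have h2 : D * (2 - r * N) * ((s.u + t.u) / 2) / N ^ 4 =
      (N ^ 3 * (D * (2 - r * N) * ((s.u + t.u) / 2))) / N ^ 7 := by
    field_simp
  have h3 : f * ((s.mu + t.mu) / 2) = (N ^ 7 * (f * ((s.mu + t.mu) / 2))) / N ^ 7 := by
    field_simp
  have h4 : g * ((s.u + t.u) / 2) = (N ^ 7 * (g * ((s.u + t.u) / 2))) / N ^ 7 := by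
    field_simp
  rw [h1, h2, h3, h4, ← add_div, ← sub_div, ← add_div]
  congr 1
  simp only [CM.Q, St.hs, St.hd, hN]
  ring

theorem ptC (δ x y D B f g : ℝ) (M : CM) (s t : St) (hδ : 0 ≤ δ) (hδ1 : δ ≤ 1) (hx0 : 0 ≤ x)
    (hx1 : x ≤ 1) (hy0 : 0 ≤ y) (hy1 : y ≤ 1) (hD : 0 ≤ D) (hDB : D ≤ B) (hf : |f| ≤ B)
    (hg : |g| ≤ B) (hM : M.Good D f g x y) (hB : M.Le B) (hs : CF δ x y s) (ht : CF δ x y t)
    (hp : CP δ x y s t) (hU : |uv x y UE2| ≤ 10) :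
    -(1000 * B * δ) ≤ (-(M.Q 1 x y (s.hs t)) - M.Q 0 x y (s.hd t)) / Nf y ^ 3 +
      D * (2 - √3 * Nf y) * ((s.u + t.u) / 2) / Nf y ^ 4 - f * ((s.mu + t.mu) / 2) +
      g * ((s.u + t.u) / 2) := by
  have hN2 : 1 + y ^ 2 / 3 = Nf y ^ 2 := by
    unfold Nf; rw [Real.sq_sqrt (by positivity)]
  have hN1 : 1 ≤ Nf y := by
    unfold Nf
    exact Real.one_le_sqrt.mpr (by nlinarith [sq_nonneg y])
  have hN43 : Nf y ^ 2 ≤ 4 / 3 := by rw [← hN2]; nlinarith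
  have hNle : Nf y ≤ 6 / 5 := by nlinarith
  have hN0 : Nf y ≠ 0 := by linarith
  have hB0 : 0 ≤ B := (abs_nonneg _).trans hf
  have h3sq : √3 ^ 2 = 3 := Real.sq_sqrt (by norm_num)
  have h3pos : 0 < √3 := Real.sqrt_pos.mpr (by norm_num)
  have h3N : √3 * Nf y ≤ 2 := by
    have : (√3 * Nf y) ^ 2 ≤ 2 ^ 2 := by rw [mul_pow, h3sq]; linarith
    exact (abs_le_of_sq_le_sq this (by norm_num) |> (abs_le.mp ·) |>.2)
  have h3N0 : 1 ≤ √3 * Nf y := by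
    have h31 : 1 ≤ √3 := Real.one_le_sqrt.mpr (by norm_num)
    nlinarith
  obtain ⟨b1, b2, b3, b4, b5, b6, b7, b8, b9, b10, b11, b12, b13, b14, b15⟩ := hB
  rw [ptC_id x y D f g (Nf y) √3 (uv x y UE1) (uv x y UE2) (uv x y UE2l) (uv x y UE3)
    (uv x y UE34) (uv x y UE34l) (uv x y UE1b) (uv x y UE3b) M s t hN2 hN0]
  have hS1 := hM.S1
  have hS2 := hM.S2
  have hrs : rr x y s = 3 * Nf y * (s.u - x * s.p + x ^ 2 * y * s.q / 2) := rfl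
  have hrt : rr x y t = 3 * Nf y * (t.u - x * t.p + x ^ 2 * y * t.q / 2) := rfl
  have key : ∀ s : St, CF δ x y s →
      0 ≤ (-3 * Nf y ^ 3 * s.mu) * (M.la11 * (1 + 3 * Nf y ^ 3 * s.mu) +
        2 * M.la12 * (3 * Nf y ^ 3 * s.nu) +
        M.la22 * (3 * Nf y ^ 2 * (1 - √3 * Nf y / 2) + 3 * Nf y ^ 3 * s.ka)) ∧
      -(9 * B * δ) ≤ s.u * (M.ro11 * (1 + 3 * Nf y ^ 3 * s.mu) +
        2 * M.ro12 * (3 * Nf y ^ 3 * s.nu) +
        M.ro22 * (3 * Nf y ^ 2 * (1 - √3 * Nf y / 2) + 3 * Nf y ^ 3 * s.ka)) ∧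
      -(60 * B * δ) ≤ (-3 * Nf y ^ 3 * s.mu) * (M.phA * (uv x y UE1 - 3 * Nf y * s.u) +
        M.phB * (uv x y UE2l - 3 * Nf y * s.u) +
        M.phC * (uv x y UE1b - 3 * Nf y * s.u) +
        M.psA * (uv x y UE3 - 3 * Nf y * (s.u - x * s.p + x ^ 2 * y * s.q / 2)) +
        M.psB * (uv x y UE34l - 3 * Nf y * (s.u - x * s.p + x ^ 2 * y * s.q / 2)) +
        M.psE * (uv x y UE3b - 3 * Nf y * (s.u - x * s.p + x ^ 2 * y * s.q / 2))) ∧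
      0 ≤ -3 * Nf y ^ 3 * s.mu ∧ -3 * Nf y ^ 3 * s.mu ≤ 1 := by
    intro s hs
    have hN3 : 0 ≤ Nf y ^ 3 := by positivity
    have a0 : 0 ≤ -3 * Nf y ^ 3 * s.mu := by
      have := mul_nonneg hN3 (neg_nonneg.mpr hs.mu0)
      linarith
    have a1 : -3 * Nf y ^ 3 * s.mu ≤ 1 := by linarith [hs.mu1]
    have m1 : 1 + 3 * Nf y ^ 3 * s.mu ≤ 1 := by linarith
    have k4 : 3 * Nf y ^ 2 * (1 - √3 * Nf y / 2) + 3 * Nf y ^ 3 * s.ka ≤ 4 := by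
      linarith [hs.k1]
    have t1 := ptC_tr0 hM.la11 hM.la22 hM.la12 hs.mu1 hs.k0 hs.det
    have t2 := ptC_tr0 hM.ro11 hM.ro22 hM.ro12 hs.mu1 hs.k0 hs.det
    have t3 := ptC_tr1 b5 b4 b6 hs.mu1 m1 hs.k0 k4 hs.det
    have e3 := hs.R3
    have e34l := hs.R34l
    have e3b := hs.R3b
    have hrs : rr x y s = 3 * Nf y * (s.u - x * s.p + x ^ 2 * y * s.q / 2) := rfl
    rw [hrs] at e3 e34l e3b
    refine ⟨mul_nonneg a0 t1, ?_, ?_, a0, a1⟩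
    · have h1 := mul_le_mul_of_nonneg_right hs.u0 t2
      have h2 := mul_le_mul_of_nonneg_left t3 hδ
      linarith
    · refine ptC_al a0 a1 (by positivity) ?_
      have c1 : -(10 * B * δ) ≤ M.phA * (uv x y UE1 - 3 * Nf y * s.u) :=
        ptC_mul hδ hM.phA b7 (hM.zero.elim (fun h => Or.inr (by linarith [hs.U1 h]))
          (fun h => Or.inl h.1))
      have c2 : -(10 * B * δ) ≤ M.phB * (uv x y UE2l - 3 * Nf y * s.u) :=
        ptC_mul hδ hM.phB b8 (hM.zero.elim (fun h => Or.inr (by linarith [hs.U2l h]))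
          (fun h => Or.inl h.2.1))
      have c3 : -(10 * B * δ) ≤ M.phC * (uv x y UE1b - 3 * Nf y * s.u) :=
        ptC_mul hδ hM.phC b9 (Or.inr (by linarith [hs.U1b]))
      have c4 := ptC_mul hδ hM.psA b11
        (Or.inr (show -(10 * δ) ≤ uv x y UE3 - 3 * Nf y * (s.u - x * s.p + x ^ 2 * y * s.q / 2) by
          linarith))
      have c5 := ptC_mul hδ hM.psB b12
        (Or.inr (show -(10 * δ) ≤ uv x y UE34l -
          3 * Nf y * (s.u - x * s.p + x ^ 2 * y * s.q / 2) by linarith))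
      have c6 := ptC_mul hδ hM.psE b13
        (Or.inr (show -(10 * δ) ≤ uv x y UE3b -
          3 * Nf y * (s.u - x * s.p + x ^ 2 * y * s.q / 2) by linarith))
      linarith
  obtain ⟨p1s, p2s, p3s, a0s, a1s⟩ := key s hs
  obtain ⟨p1t, p2t, p3t, a0t, a1t⟩ := key t ht
  have a0e : 0 ≤ -3 * Nf y ^ 3 * ((s.mu + t.mu) / 2) := by linarith
  have a1e : -3 * Nf y ^ 3 * ((s.mu + t.mu) / 2) ≤ 1 := by linarith
  have r34 := hp.R34
  rw [hrs, hrt] at r34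
  have p4 : -(20 * B * δ) ≤ (-3 * Nf y ^ 3 * ((s.mu + t.mu) / 2)) *
      (M.phs * (uv x y UE2 - 3 * Nf y * ((s.u + t.u) / 2)) +
        M.pss * (uv x y UE34 - (3 * Nf y * (s.u - x * s.p + x ^ 2 * y * s.q / 2) +
          3 * Nf y * (t.u - x * t.p + x ^ 2 * y * t.q / 2)) / 2)) := by
    refine ptC_al a0e a1e (by positivity) ?_
    have c1 : -(10 * B * δ) ≤ M.phs * (uv x y UE2 - 3 * Nf y * ((s.u + t.u) / 2)) :=
      ptC_mul hδ hM.phs b10 (hM.zero.elim (fun h => Or.inr (by linarith [hp.U2 h]))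
        (fun h => Or.inl h.2.2.1))
    have c2 := ptC_mul hδ hM.pss b14
      (Or.inr (show -(10 * δ) ≤ uv x y UE34 -
        (3 * Nf y * (s.u - x * s.p + x ^ 2 * y * s.q / 2) +
          3 * Nf y * (t.u - x * t.p + x ^ 2 * y * t.q / 2)) / 2 by linarith))
    linarith
  have eu0 : -δ ≤ (s.u + t.u) / 2 := by linarith [hs.u0, ht.u0]
  have eu2 : (s.u + t.u) / 2 ≤ 2 := by linarith [hs.u1, ht.u1]
  have hUb := abs_le.mp hU
  have hBδ : 0 ≤ B * δ := mul_nonneg hB0 hδ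
  have p5 : -(20 * B * δ) ≤ M.vus * (((s.u + t.u) / 2) *
      (uv x y UE2 - 3 * Nf y * ((s.u + t.u) / 2))) := by
    rcases hM.zero with h | h
    · have hb := hp.U2 h
      have hb1 : -(10 * δ) ≤ uv x y UE2 - 3 * Nf y * ((s.u + t.u) / 2) := by linarith
      have hprod : -(20 * δ) ≤ ((s.u + t.u) / 2) *
          (uv x y UE2 - 3 * Nf y * ((s.u + t.u) / 2)) := by
        generalize hE : (s.u + t.u) / 2 = a at *
        rcases le_or_gt 0 a with ha | ha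
        · have h1 := mul_le_mul_of_nonneg_left hb1 ha
          have h2 := mul_le_mul_of_nonneg_right eu2 hδ
          linarith
        · have h0 : 0 ≤ -a := by linarith
          have h1 : uv x y UE2 - 3 * Nf y * a ≤ 20 := by
            have h3 : Nf y * (-a) ≤ 6 / 5 * 1 :=
              mul_le_mul hNle (by linarith) h0 (by norm_num)
            linarith [hUb.2]
          have h2 := mul_le_mul_of_nonneg_left h1 h0
          linarith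
      have hv : M.vus ≤ B := (le_abs_self _).trans b15
      have h1 := mul_le_mul_of_nonneg_left hprod hM.vus
      have h2 := mul_le_mul_of_nonneg_right hv hδ
      linarith
    · rw [h.2.2.2, zero_mul]; linarith
  have p6 : 0 ≤ (-3 * Nf y ^ 3 * ((s.mu + t.mu) / 2)) * (Nf y ^ 4 * f - 3 * M.la11 - 3 * M.la22 *
        (3 * Nf y ^ 2 * (1 - √3 * Nf y / 2)) -
        (M.phA * uv x y UE1 + M.phB * uv x y UE2l + M.phC * uv x y UE1b + M.phs * uv x y UE2 +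
          M.psA * uv x y UE3 + M.psB * uv x y UE34l + M.psE * uv x y UE3b +
          M.pss * uv x y UE34)) := mul_nonneg a0e hS1
  have p7 : -(20 * B * δ) ≤ ((s.u + t.u) / 2) * (Nf y ^ 6 * g + D * (2 - √3 * Nf y) * Nf y ^ 2 -
      M.ro11 - M.ro22 * (3 * Nf y ^ 2 * (1 - √3 * Nf y / 2)) -
      Nf y ^ 2 / 3 * M.vus * uv x y UE2) := by
    have hSle : Nf y ^ 6 * g + D * (2 - √3 * Nf y) * Nf y ^ 2 -
      M.ro11 - M.ro22 * (3 * Nf y ^ 2 * (1 - √3 * Nf y / 2)) -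
      Nf y ^ 2 / 3 * M.vus * uv x y UE2 ≤ 20 * B := by
      have hN6 : Nf y ^ 6 ≤ 3 := by
        have : Nf y ^ 6 = (Nf y ^ 2) ^ 3 := by ring
        rw [this]
        calc (Nf y ^ 2) ^ 3 ≤ (4 / 3) ^ 3 := pow_le_pow_left₀ (by positivity) hN43 3
          _ ≤ 3 := by norm_num
      have q1 : Nf y ^ 6 * g ≤ 3 * B := by
        calc Nf y ^ 6 * g ≤ Nf y ^ 6 * |g| :=
              mul_le_mul_of_nonneg_left (le_abs_self _) (by positivity)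
          _ ≤ 3 * B := mul_le_mul hN6 hg (abs_nonneg _) (by norm_num)
      have q2 : D * (2 - √3 * Nf y) * Nf y ^ 2 ≤ B * 1 * (4 / 3) := by
        apply mul_le_mul _ hN43 (by positivity) (by positivity)
        exact mul_le_mul hDB (by linarith) (by linarith) hB0
      have q3 : 0 ≤ M.ro22 * (3 * Nf y ^ 2 * (1 - √3 * Nf y / 2)) :=
        mul_nonneg hM.ro22 (mul_nonneg (by positivity) (by linarith))
      have q4 : -(Nf y ^ 2 / 3 * M.vus * uv x y UE2) ≤ 4 / 9 * B * 10 := by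
        have hv : M.vus ≤ B := (le_abs_self _).trans b15
        have : |Nf y ^ 2 / 3 * M.vus * uv x y UE2| ≤ 4 / 9 * B * 10 := by
          rw [abs_mul]
          apply mul_le_mul _ hU (abs_nonneg _) (by positivity)
          rw [abs_of_nonneg (mul_nonneg (by positivity) hM.vus)]
          exact mul_le_mul (by linarith) hv hM.vus (by norm_num)
        linarith [(abs_le.mp this).1]
      linarith [hM.ro11]
    have h1 := mul_le_mul_of_nonneg_right eu0 hS2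
    have h2 := mul_le_mul_of_nonneg_left hSle hδ
    linarith
  exact ptC_fin hN1 hNle hBδ p1s p1t p2s p2t p3s p3t p4 p5 p6 p7

end Pool.Agent.MSQ
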