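import Pool.Agent.MSQ.ChkS
import Pool.Agent.MSQ.EvA
/-!
CGood (80 lines). Sign conditions on the multipliers of a core box, from the checks cPos, cS1, cS2.
`uv x y p = ev x y p / QE`, `qE = 2^22`, `QE = 2*qE^6*1296`, D = DD.

PROOF. `cPos` is a conjunction (Bool &&); chkM_sound with n = 1, s = [1] gives 0 ≤ ev x y b.phA, ...
(qf (evE x y [p]) [1] = ev x y p). With n = 2 and s = [a, b]: for all a b,
0 ≤ la11 a^2 + 2 la12 a b + 2 la22 b^2; hence 0 ≤ la11, 0 ≤ la22 and la12^2 ≤ 2 la11 la22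
(take (a,b) = (1,0), (0,1) and, for the determinant, (2 la22, -la12) and (la12 , -la11): if la22 > 0 use
the first (0 ≤ 2 la22 (2 la11 la22 - la12^2)), if la22 = 0 then la12 = 0 because 0 ≤ la11 a^2 + 2 la12 a for
all a, b=1: discriminant argument (`discrim_le_zero` or a = -la12 and a = k large)). The same for ro.
S1: the polynomial of cS1 has value
 18 QE [ N^4 f - 3 la11 - 3 la22 (3+y^2)(1-y^2)(R+8/qE)/2 - Σ φ uv ],  R = ev Rn / qE, N^2 = 1 + y^2/3,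
 (3+y^2) = 3 N^2; note QE / qE as Int is exact: QE / qE = 2*qE^5*1296 (norm_num [QE, qE]).
 And 3 N^2 (1 - √3 N/2) = (3+y^2)(1-y^2)/(2 (2+T)) ≤ (3+y^2)(1-y^2)(R + 8/qE)/2, T = √3 N = TT y
 (√3 Nf y = TT y: both are nonnegative with square 3+y^2), because (2-T)(2+T) = 1 - y^2, and la22 ≥ 0.
S2: the polynomial of cS2 has value
 54 QE [ N^6 g - ro11 + D N^2 (1-y^2)(R - 8/qE) - ro22 (3+y^2)(1-y^2)(R+8/qE)/2 - (N^2/3) vus uv(UE2) ],
 and 2 - T = (1-y^2)/(2+T) ≥ (1-y^2)(R-8/qE).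
`zero`: from hz (ev x y [] = 0).
-/
namespace Pool.Agent.MSQ

private theorem CGood_q1 (a s : ℝ) : qf [a] [s] = s * (a * s) := by
  simp [qf, dotL]

private theorem CGood_q2 (a b c s t : ℝ) :
    qf [a, b, c] [s, t] = s * (a * s + b * t) + t * (c * t) := by
  simp [qf, dotL]

private theorem CGood_N2 (y : ℝ) : Nf y ^ 2 = 1 + y ^ 2 / 3 := by
  unfold Nf
  exact Real.sq_sqrt (by positivity)

private theorem CGood_N4 (y : ℝ) : Nf y ^ 4 = (1 + y ^ 2 / 3) ^ 2 := by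
  rw [← CGood_N2, ← pow_mul]

private theorem CGood_N6 (y : ℝ) : Nf y ^ 6 = (1 + y ^ 2 / 3) ^ 3 := by
  rw [← CGood_N2, ← pow_mul]

/-- `√3 N = T` -/
private theorem CGood_T (y : ℝ) : √3 * Nf y = TT y := by
  unfold Nf TT
  rw [← Real.sqrt_mul (by norm_num)]
  congr 1
  ring

/-- a positive semidefinite form of two variables -/
private theorem CGood_psd {a b c : ℝ}
    (h : ∀ s t : ℝ, 0 ≤ s * (a * s + 2 * b * t) + t * (2 * c * t)) :
    0 ≤ a ∧ 0 ≤ c ∧ b ^ 2 ≤ 2 * a * c := by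
  have h1 : 0 ≤ a := by
    have := h 1 0
    linarith
  have h2 : 0 ≤ c := by
    have := h 0 1
    linarith
  refine ⟨h1, h2, ?_⟩
  rcases eq_or_lt_of_le h2 with h3 | h3
  · rw [← h3]
    have h4 := h (-b) (a / 2 + 1)
    rw [← h3] at h4
    have h5 : b ^ 2 ≤ 0 := by nlinarith
    linarith
  · have h4 := h (2 * c) (-b)
    have h5 : 0 ≤ 2 * c * (2 * a * c - b ^ 2) := by nlinarith
    have h6 : 0 < 2 * c := by linarith
    have h7 := nonneg_of_mul_nonneg_right h5 h6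
    linarith

/-- bounds of `2 - T` -/
private theorem CGood_R (y r e : ℝ) (hy0 : 0 ≤ y) (hy1 : y ≤ 1) (hR : |r - 1 / (2 + TT y)| ≤ e) :
    (1 - y ^ 2) * (r - e) ≤ 2 - TT y ∧ 2 - TT y ≤ (1 - y ^ 2) * (r + e) := by
  have hT0 : 0 ≤ TT y := Real.sqrt_nonneg _
  have hT2 : TT y ^ 2 = 3 + y ^ 2 := by
    unfold TT
    exact Real.sq_sqrt (by positivity)
  have h1 : 2 - TT y = (1 - y ^ 2) * (1 / (2 + TT y)) := by
    field_simp
    nlinarith
  have h2 : 0 ≤ 1 - y ^ 2 := by nlinarith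
  obtain ⟨h3, h4⟩ := abs_le.mp hR
  rw [h1]
  exact ⟨mul_le_mul_of_nonneg_left (by linarith) h2, mul_le_mul_of_nonneg_left (by linarith) h2⟩

/-- one entry test -/
private theorem CGood_one (b : CBox) (x y : ℝ) (hb : b.In x y) (p : P)
    (h : chkM 1 [p] b.x0 b.x1 b.qx b.y0 b.y1 b.qy = true) : 0 ≤ ev x y p := by
  obtain ⟨b1, b2, b3, b4⟩ := hb
  have := chkM_sound 1 _ _ _ _ _ _ _ h x y b1 b2 b3 b4 [1] rfl
  unfold evE at this
  simp only [List.map_cons, List.map_nil, CGood_q1] at this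
  linarith

/-- two by two test -/
private theorem CGood_two (b : CBox) (x y : ℝ) (hb : b.In x y) (p q r : P)
    (h : chkM 2 [p, pSm 2 q, pSm 2 r] b.x0 b.x1 b.qx b.y0 b.y1 b.qy = true) :
    0 ≤ ev x y p ∧ 0 ≤ ev x y r ∧ ev x y q ^ 2 ≤ 2 * ev x y p * ev x y r := by
  obtain ⟨b1, b2, b3, b4⟩ := hb
  refine CGood_psd fun s t => ?_
  have := chkM_sound 2 _ _ _ _ _ _ _ h x y b1 b2 b3 b4 [s, t] rfl
  unfold evE at this
  simp only [List.map_cons, List.map_nil, CGood_q2, ev_pSm] at this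
  push_cast at this
  exact this

private theorem CGood_QE : (QE : ℝ) = (qE : ℝ) * ((QE / qE : Int) : ℝ) := by
  have h : QE = qE * (QE / qE) := by
    norm_num [QE, qE]
  exact_mod_cast h

private theorem CGood_qE : (0:ℝ) < (qE : ℝ) := by
  have h : (0:Int) < qE := by norm_num [qE]
  exact_mod_cast h

private theorem CGood_QE0 : (0:ℝ) < (QE : ℝ) := by
  have h : (0:Int) < QE := by norm_num [QE, qE]
  exact_mod_cast h

/-- the first scalar condition -/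
private theorem CGood_S1 {Q A q y f l11 l22 Rn T N2 e1 e2 e3 e4 e5 e6 e7 e8 u1 u2 u3 u4 u5 u6 u7 u8 :
    ℝ} (hq : 0 < q) (hQ0 : 0 < Q) (hQ : Q = q * A) (hN : 0 ≤ N2) (hN2 : N2 = 1 + y ^ 2 / 3)
    (hl : 0 ≤ l22) (hR : 2 - T ≤ (1 - y ^ 2) * (Rn / q + 8 / q))
    (h : 0 ≤ 2 * Q * ((3 + y ^ 2) * ((3 + y ^ 2) * f)) + (-54 * Q * l11 +
      (-27 * A * (l22 * ((3 + y ^ 2) * ((1 - y ^ 2) * (Rn + 8)))) +
      (-18 * (e1 * u1 + (e2 * u2 + (e3 * u3 + (e4 * u4 + (e5 * u5 + (e6 * u6 + (e7 * u7 +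
        (e8 * u8 + 0)))))))) + 0)))) :
    0 ≤ N2 ^ 2 * f - 3 * l11 - 3 * l22 * (3 * N2 * (1 - T / 2)) -
      (e1 * (u1 / Q) + e2 * (u2 / Q) + e3 * (u3 / Q) + e4 * (u4 / Q) + e5 * (u5 / Q) +
        e6 * (u6 / Q) + e7 * (u7 / Q) + e8 * (u8 / Q)) := by
  have h1 : 3 * l22 * (3 * N2 * (1 - T / 2)) ≤
      3 * l22 * (3 * N2 * ((1 - y ^ 2) * (Rn / q + 8 / q) / 2)) := by
    have h2 : 3 * N2 * (1 - T / 2) ≤ 3 * N2 * ((1 - y ^ 2) * (Rn / q + 8 / q) / 2) :=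
      mul_le_mul_of_nonneg_left (by linarith) (by linarith)
    exact mul_le_mul_of_nonneg_left h2 (by linarith)
  have h3 : 0 ≤ N2 ^ 2 * f - 3 * l11 - 3 * l22 * (3 * N2 * ((1 - y ^ 2) * (Rn / q + 8 / q) / 2)) -
      (e1 * (u1 / Q) + e2 * (u2 / Q) + e3 * (u3 / Q) + e4 * (u4 / Q) + e5 * (u5 / Q) +
        e6 * (u6 / Q) + e7 * (u7 / Q) + e8 * (u8 / Q)) := by
    refine nonneg_of_mul_nonneg_right (a := 18 * Q) (le_of_le_of_eq h ?_) (by linarith)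
    have hA : A = Q / q := by
      rw [hQ]
      field_simp
    rw [hA, hN2]
    field_simp
    ring
  linarith

/-- the second scalar condition -/
private theorem CGood_S2 {Q A q y g r11 r22 Rn T N2 D v u : ℝ} (hq : 0 < q) (hQ0 : 0 < Q)
    (hQ : Q = q * A) (hN : 0 ≤ N2) (hN2 : N2 = 1 + y ^ 2 / 3) (hr : 0 ≤ r22) (hD : 0 ≤ D)
    (hR : 2 - T ≤ (1 - y ^ 2) * (Rn / q + 8 / q)) (hR' : (1 - y ^ 2) * (Rn / q - 8 / q) ≤ 2 - T)
    (h : 0 ≤ 2 * Q * ((3 + y ^ 2) * ((3 + y ^ 2) * ((3 + y ^ 2) * g))) + (-54 * Q * r11 +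
      (18 * A * D * ((3 + y ^ 2) * ((1 - y ^ 2) * (Rn + -8))) +
      (-27 * A * (r22 * ((3 + y ^ 2) * ((1 - y ^ 2) * (Rn + 8)))) +
      (-6 * ((3 + y ^ 2) * (v * u)) + 0))))) :
    0 ≤ N2 ^ 3 * g + D * (2 - T) * N2 - r11 - r22 * (3 * N2 * (1 - T / 2)) -
      N2 / 3 * v * (u / Q) := by
  have h1 : r22 * (3 * N2 * (1 - T / 2)) ≤
      r22 * (3 * N2 * ((1 - y ^ 2) * (Rn / q + 8 / q) / 2)) := by
    have h2 : 3 * N2 * (1 - T / 2) ≤ 3 * N2 * ((1 - y ^ 2) * (Rn / q + 8 / q) / 2) :=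
      mul_le_mul_of_nonneg_left (by linarith) (by linarith)
    exact mul_le_mul_of_nonneg_left h2 hr
  have h4 : D * ((1 - y ^ 2) * (Rn / q - 8 / q)) * N2 ≤ D * (2 - T) * N2 :=
    mul_le_mul_of_nonneg_right (mul_le_mul_of_nonneg_left hR' hD) hN
  have h3 : 0 ≤ N2 ^ 3 * g + D * ((1 - y ^ 2) * (Rn / q - 8 / q)) * N2 - r11 -
      r22 * (3 * N2 * ((1 - y ^ 2) * (Rn / q + 8 / q) / 2)) - N2 / 3 * v * (u / Q) := by
    refine nonneg_of_mul_nonneg_right (a := 54 * Q) (le_of_le_of_eq h ?_) (by linarith)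
    have hA : A = Q / q := by
      rw [hQ]
      field_simp
    rw [hA, hN2]
    field_simp
    ring
  linarith

theorem cGood (b : CBox) (x y : ℝ) (hb : b.In x y) (hx0 : 0 ≤ x) (hx1 : x ≤ 1) (hy0 : 0 ≤ y)
    (hy1 : y ≤ 1) (h1 : cPos la22 ro22 b = true)
    (h2 : cS1 cf1 la22 Rn UE1 UE2 UE2l UE3 UE34 UE34l UE1b UE3b b = true)
    (h3 : cS2 DD cf1 ro22 Rn UE2 b = true)
    (hz : x ≤ 4 / 5 ∨ (b.phA = [] ∧ b.phB = [] ∧ b.phs = [] ∧ b.vus = []))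
    (hR : |ev x y Rn / (qE : ℝ) - 1 / (2 + TT y)| ≤ 8 / (qE : ℝ)) :
    (b.at la22 ro22 x y).Good (DD : ℝ) (ev x y cf1) (ev x y (pDY (pDY cf1))) x y := by
  have hs := h1
  unfold cPos at hs
  simp only [Bool.and_eq_true] at hs
  obtain ⟨⟨⟨⟨⟨⟨⟨⟨⟨⟨g1, g2⟩, g3⟩, g4⟩, g5⟩, g6⟩, g7⟩, g8⟩, g9⟩, g10⟩, g11⟩ := hs
  obtain ⟨l1, l2, l3⟩ := CGood_two b x y hb _ _ _ g1
  obtain ⟨r1, r2, r3⟩ := CGood_two b x y hb _ _ _ g2
  obtain ⟨hRa, hRb⟩ := CGood_R y _ _ hy0 hy1 hR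
  have hN : 0 ≤ Nf y ^ 2 := by positivity
  have hD : (0:ℝ) ≤ (DD : ℝ) := by
    have : (0:Int) ≤ DD := by norm_num [DD]
    exact_mod_cast this
  refine ⟨l1, l2, l3, r1, r2, r3, CGood_one b x y hb _ g3, CGood_one b x y hb _ g4,
    CGood_one b x y hb _ g5, CGood_one b x y hb _ g6, CGood_one b x y hb _ g7,
    CGood_one b x y hb _ g8, CGood_one b x y hb _ g9, CGood_one b x y hb _ g10,
    CGood_one b x y hb _ g11, ?_, ?_, ?_⟩
  · rcases hz with hz | ⟨z1, z2, z3, z4⟩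
    · exact Or.inl hz
    · right
      unfold CBox.at
      rw [z1, z2, z3, z4]
      exact ⟨rfl, rfl, rfl, rfl⟩
  · unfold cS1 at h2
    have := CGood_one b x y hb _ h2
    simp only [List.map_cons, List.map_nil, ev_sumP, List.sum_cons, List.sum_nil,
      ev_pSm, ev_N3, ev_O2, ev_pMul, ev_pAdd, ev_cP] at this
    push_cast at this
    have h5 := CGood_S1 CGood_qE CGood_QE0 CGood_QE hN (CGood_N2 y) l2 hRb this
    rw [← CGood_T, ← pow_mul] at h5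
    exact h5
  · unfold cS2 at h3
    have := CGood_one b x y hb _ h3
    simp only [List.map_cons, List.map_nil, ev_sumP, List.sum_cons, List.sum_nil,
      ev_pSm, ev_N3, ev_O2, ev_pMul, ev_pAdd, ev_cP] at this
    push_cast at this
    have h5 := CGood_S2 CGood_qE CGood_QE0 CGood_QE hN (CGood_N2 y) r2 hD hRb hRa this
    rw [← CGood_T, ← pow_mul] at h5
    exact h5

end Pool.Agent.MSQ
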