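import Pool.Agent.MSQ.DataE
/-!
KCe0. Kernel computations: positivity checks of the certificate (already proved).
-/
namespace Pool.Agent.MSQ

set_option maxRecDepth 100000

theorem kCe0 : cR DD 1 gCe la22 ro22 cb0 = true := by
  decide +kernel
theorem kCe1 : cR DD 1 gCe la22 ro22 cb1 = true := by
  decide +kernel
theorem kCe2 : cR DD 1 gCe la22 ro22 cb2 = true := by
  decide +kernel
theorem kCe3 : cR DD 1 gCe la22 ro22 cb3 = true := by
  decide +kernel

end Pool.Agent.MSQ
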