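import Pool.Agent.MSQ.DataE
/-!
KCo1. Kernel computations: positivity checks of the certificate (already proved).
-/
namespace Pool.Agent.MSQ

set_option maxRecDepth 100000

theorem kCo4 : cR DD 0 gCo la22 ro22 cb4 = true := by
  decide +kernel
theorem kCo5 : cR DD 0 gCo la22 ro22 cb5 = true := by
  decide +kernel
theorem kCo6 : cR DD 0 gCo la22 ro22 cb6 = true := by
  decide +kernel
theorem kCo7 : cR DD 0 gCo la22 ro22 cb7 = true := by
  decide +kernel

end Pool.Agent.MSQ
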