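import Pool.Agent.MSQ.CGood
import Pool.Agent.MSQ.RSound
import Pool.Agent.MSQ.EvD
import Pool.Agent.MSQ.SqB
import Pool.Agent.MSQ.KP
import Pool.Agent.MSQ.KT0
import Pool.Agent.MSQ.KT1
import Pool.Agent.MSQ.KU
import Pool.Agent.MSQ.KCe0
import Pool.Agent.MSQ.KCe1
import Pool.Agent.MSQ.KCe2
import Pool.Agent.MSQ.KCo0
import Pool.Agent.MSQ.KCo1
import Pool.Agent.MSQ.KCo2
/-!
CertC (60 lines). The certificate of the core.

PROOF. For 0 ≤ x, y ≤ 1 one of the 12 boxes contains (x,y): x in [0,2/5], [2/5,4/5], [4/5,1] and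
y in [0,1/4], [1/4,1/2], [1/2,3/4], [3/4,1]; box index 4*i + j; cb0..cb3: qx = 5 (see Data.lean), x0 = 0, x1 = 2,
etc. (b.In by norm_num [CBox.In, cbk], unfold only the fields x0..qy: `show ((0:Int):ℝ) ≤ ...`.) For the boxes
cb8..cb11 (x ≥ 4/5) phA, phB, phs, vus are the empty list (rfl). M := (cbk.at la22 ro22 x y).
cGood (with ap_R of SqB), cR_sound with gCe = coreG DD ... (rfl, unfold gCe), the checks kC.., kP.., kT.., kU...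
B: sum of the bounds of ev_bdd over the 13 polynomials of each of the 12 boxes, la22, ro22 (y ≤ 2), cf1 and
pDY (pDY cf1). To keep it short, prove a private lemma for one box giving a bound, then take the sum of the 12.
-/
namespace Pool.Agent.MSQ

private theorem CertC_list (L : List P) : ∃ B : ℝ, 0 ≤ B ∧ ∀ p ∈ L, ∀ x y : ℝ,
    0 ≤ x → x ≤ 1 → 0 ≤ y → y ≤ 2 → |ev x y p| ≤ B := by
  induction L with
  | nil => exact ⟨0, le_refl _, fun p hp => absurd hp List.not_mem_nil⟩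
  | cons p L ih =>
    obtain ⟨B1, h1, h2⟩ := ih
    obtain ⟨B2, h3, h4⟩ := ev_bdd p
    refine ⟨B1 + B2, by linarith, ?_⟩
    intro q hq x y a b c d
    rcases List.mem_cons.1 hq with rfl | hq
    · have := h4 x y a b c d
      linarith
    · have := h2 q hq x y a b c d
      linarith

/-- the polynomials of a box -/
private def CertC_P (b : CBox) : List P :=
  [b.la11, b.la12, b.ro11, b.ro12, b.phA, b.phB, b.phC, b.phs, b.psA, b.psB, b.psE, b.pss, b.vus]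

private theorem CertC_bd (b : CBox) : ∃ B : ℝ, 0 ≤ B ∧ ∀ x y : ℝ,
    0 ≤ x → x ≤ 1 → 0 ≤ y → y ≤ 1 → (b.at la22 ro22 x y).Le B := by
  obtain ⟨B, hB, h⟩ := CertC_list (la22 :: ro22 :: CertC_P b)
  refine ⟨B, hB, fun x y a1 a2 a3 a4 => ?_⟩
  have h' : ∀ p ∈ la22 :: ro22 :: CertC_P b, |ev x y p| ≤ B :=
    fun p hp => h p hp x y a1 a2 a3 (by linarith)
  unfold CertC_P at h'
  simp only [List.forall_mem_cons] at h'
  obtain ⟨p1, p2, p3, p4, p5, p6, p7, p8, p9, p10, p11, p12, p13, p14, p15, -⟩ := h'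
  exact ⟨p3, p4, p1, p5, p6, p2, p7, p8, p9, p10, p11, p12, p13, p14, p15⟩

private theorem CertC_le {M : CM} {B B' : ℝ} (h : M.Le B) (hB : B ≤ B') : M.Le B' := by
  unfold CM.Le at h ⊢
  obtain ⟨h1, h2, h3, h4, h5, h6, h7, h8, h9, h10, h11, h12, h13, h14, h15⟩ := h
  refine ⟨?_, ?_, ?_, ?_, ?_, ?_, ?_, ?_, ?_, ?_, ?_, ?_, ?_, ?_, ?_⟩ <;> linarith

private theorem CertC_box (b : CBox) (B : ℝ) (x y : ℝ) (hb : b.In x y) (hx0 : 0 ≤ x)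
    (hx1 : x ≤ 1) (hy0 : 0 ≤ y) (hy1 : y ≤ 1) (h1 : cPos la22 ro22 b = true)
    (h2 : cS1 cf1 la22 Rn UE1 UE2 UE2l UE3 UE34 UE34l UE1b UE3b b = true)
    (h3 : cS2 DD cf1 ro22 Rn UE2 b = true)
    (hz : x ≤ 4 / 5 ∨ (b.phA = [] ∧ b.phB = [] ∧ b.phs = [] ∧ b.vus = []))
    (he : cR DD 1 gCe la22 ro22 b = true) (ho : cR DD 0 gCo la22 ro22 b = true)
    (hle : (b.at la22 ro22 x y).Le B) :
    ∃ M : CM, M.Good (DD : ℝ) (ev x y cf1) (ev x y (pDY (pDY cf1))) x y ∧ M.Le B ∧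
      (∀ s : St, 0 ≤ Rg (DD : ℝ) gCe x y s + M.Q 1 x y s) ∧
      (∀ s : St, 0 ≤ Rg (DD : ℝ) gCo x y s + M.Q 0 x y s) := by
  refine ⟨b.at la22 ro22 x y, cGood b x y hb hx0 hx1 hy0 hy1 h1 h2 h3 hz (ap_R x y hy0 hy1), hle,
    fun s => ?_, fun s => ?_⟩
  · have := cR_sound DD 1 cG11e cG12e cG13e cG22e cG23e cG33e cH11e cH12e cH22e la22 ro22 b he x y
      hb s
    rw [Int.cast_one] at this
    exact this
  · have := cR_sound DD 0 cG11o cG12o cG13o cG22o cG23o cG33o cH11o cH12o cH22o la22 ro22 b ho x y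
      hb s
    rw [Int.cast_zero] at this
    exact this

theorem certC : ∃ B : ℝ, 0 ≤ B ∧ ∀ x y : ℝ, 0 ≤ x → x ≤ 1 → 0 ≤ y → y ≤ 1 →
    |ev x y cf1| ≤ B ∧ |ev x y (pDY (pDY cf1))| ≤ B ∧
    ∃ M : CM, M.Good (DD : ℝ) (ev x y cf1) (ev x y (pDY (pDY cf1))) x y ∧ M.Le B ∧
      (∀ s : St, 0 ≤ Rg (DD : ℝ) gCe x y s + M.Q 1 x y s) ∧
      (∀ s : St, 0 ≤ Rg (DD : ℝ) gCo x y s + M.Q 0 x y s) := by
  obtain ⟨C, hC, hc⟩ := CertC_list [cf1, pDY (pDY cf1)]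
  obtain ⟨B0, hB0, h0⟩ := CertC_bd cb0
  obtain ⟨B1, hB1, h1⟩ := CertC_bd cb1
  obtain ⟨B2, hB2, h2⟩ := CertC_bd cb2
  obtain ⟨B3, hB3, h3⟩ := CertC_bd cb3
  obtain ⟨B4, hB4, h4⟩ := CertC_bd cb4
  obtain ⟨B5, hB5, h5⟩ := CertC_bd cb5
  obtain ⟨B6, hB6, h6⟩ := CertC_bd cb6
  obtain ⟨B7, hB7, h7⟩ := CertC_bd cb7
  obtain ⟨B8, hB8, h8⟩ := CertC_bd cb8
  obtain ⟨B9, hB9, h9⟩ := CertC_bd cb9
  obtain ⟨B10, hB10, h10⟩ := CertC_bd cb10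
  obtain ⟨B11, hB11, h11⟩ := CertC_bd cb11
  refine ⟨C + B0 + B1 + B2 + B3 + B4 + B5 + B6 + B7 + B8 + B9 + B10 + B11, by linarith, ?_⟩
  intro x y hx0 hx1 hy0 hy1
  have q1 := hc cf1 (by simp) x y hx0 hx1 hy0 (by linarith)
  have q2 := hc (pDY (pDY cf1)) (by simp) x y hx0 hx1 hy0 (by linarith)
  refine ⟨by linarith, by linarith, ?_⟩
  rcases le_total x (2 / 5) with hx | hx
  · rcases le_total y (1 / 4) with hy | hy
    · refine CertC_box cb0 _ x y ?_ hx0 hx1 hy0 hy1 kP0 kT0 kU0 (Or.inl (by linarith)) kCe0 kCo0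
        (CertC_le (h0 x y hx0 hx1 hy0 hy1) (by linarith))
      change ((0 : Int) : ℝ) ≤ ((5 : Int) : ℝ) * x ∧ ((5 : Int) : ℝ) * x ≤ ((2 : Int) : ℝ) ∧
        ((0 : Int) : ℝ) ≤ ((4 : Int) : ℝ) * y ∧ ((4 : Int) : ℝ) * y ≤ ((1 : Int) : ℝ)
      push_cast
      refine ⟨?_, ?_, ?_, ?_⟩ <;> linarith
    · rcases le_total y (1 / 2) with hy2 | hy2
      · refine CertC_box cb1 _ x y ?_ hx0 hx1 hy0 hy1 kP1 kT1 kU1 (Or.inl (by linarith)) kCe1 kCo1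
          (CertC_le (h1 x y hx0 hx1 hy0 hy1) (by linarith))
        change ((0 : Int) : ℝ) ≤ ((5 : Int) : ℝ) * x ∧ ((5 : Int) : ℝ) * x ≤ ((2 : Int) : ℝ) ∧
          ((1 : Int) : ℝ) ≤ ((4 : Int) : ℝ) * y ∧ ((4 : Int) : ℝ) * y ≤ ((2 : Int) : ℝ)
        push_cast
        refine ⟨?_, ?_, ?_, ?_⟩ <;> linarith
      · rcases le_total y (3 / 4) with hy3 | hy3
        · refine CertC_box cb2 _ x y ?_ hx0 hx1 hy0 hy1 kP2 kT2 kU2 (Or.inl (by linarith)) kCe2 kCo2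
            (CertC_le (h2 x y hx0 hx1 hy0 hy1) (by linarith))
          change ((0 : Int) : ℝ) ≤ ((5 : Int) : ℝ) * x ∧ ((5 : Int) : ℝ) * x ≤ ((2 : Int) : ℝ) ∧
            ((2 : Int) : ℝ) ≤ ((4 : Int) : ℝ) * y ∧ ((4 : Int) : ℝ) * y ≤ ((3 : Int) : ℝ)
          push_cast
          refine ⟨?_, ?_, ?_, ?_⟩ <;> linarith
        · refine CertC_box cb3 _ x y ?_ hx0 hx1 hy0 hy1 kP3 kT3 kU3 (Or.inl (by linarith)) kCe3 kCo3
            (CertC_le (h3 x y hx0 hx1 hy0 hy1) (by linarith))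
          change ((0 : Int) : ℝ) ≤ ((5 : Int) : ℝ) * x ∧ ((5 : Int) : ℝ) * x ≤ ((2 : Int) : ℝ) ∧
            ((3 : Int) : ℝ) ≤ ((4 : Int) : ℝ) * y ∧ ((4 : Int) : ℝ) * y ≤ ((4 : Int) : ℝ)
          push_cast
          refine ⟨?_, ?_, ?_, ?_⟩ <;> linarith
  · rcases le_total x (4 / 5) with hx2 | hx2
    · rcases le_total y (1 / 4) with hy | hy
      · refine CertC_box cb4 _ x y ?_ hx0 hx1 hy0 hy1 kP4 kT4 kU4 (Or.inl (by linarith)) kCe4 kCo4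
          (CertC_le (h4 x y hx0 hx1 hy0 hy1) (by linarith))
        change ((2 : Int) : ℝ) ≤ ((5 : Int) : ℝ) * x ∧ ((5 : Int) : ℝ) * x ≤ ((4 : Int) : ℝ) ∧
          ((0 : Int) : ℝ) ≤ ((4 : Int) : ℝ) * y ∧ ((4 : Int) : ℝ) * y ≤ ((1 : Int) : ℝ)
        push_cast
        refine ⟨?_, ?_, ?_, ?_⟩ <;> linarith
      · rcases le_total y (1 / 2) with hy2 | hy2
        · refine CertC_box cb5 _ x y ?_ hx0 hx1 hy0 hy1 kP5 kT5 kU5 (Or.inl (by linarith)) kCe5 kCo5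
            (CertC_le (h5 x y hx0 hx1 hy0 hy1) (by linarith))
          change ((2 : Int) : ℝ) ≤ ((5 : Int) : ℝ) * x ∧ ((5 : Int) : ℝ) * x ≤ ((4 : Int) : ℝ) ∧
            ((1 : Int) : ℝ) ≤ ((4 : Int) : ℝ) * y ∧ ((4 : Int) : ℝ) * y ≤ ((2 : Int) : ℝ)
          push_cast
          refine ⟨?_, ?_, ?_, ?_⟩ <;> linarith
        · rcases le_total y (3 / 4) with hy3 | hy3
          · refine CertC_box cb6 _ x y ?_ hx0 hx1 hy0 hy1 kP6 kT6 kU6 (Or.inl (by linarith)) kCe6 kCo6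
              (CertC_le (h6 x y hx0 hx1 hy0 hy1) (by linarith))
            change ((2 : Int) : ℝ) ≤ ((5 : Int) : ℝ) * x ∧ ((5 : Int) : ℝ) * x ≤ ((4 : Int) : ℝ) ∧
              ((2 : Int) : ℝ) ≤ ((4 : Int) : ℝ) * y ∧ ((4 : Int) : ℝ) * y ≤ ((3 : Int) : ℝ)
            push_cast
            refine ⟨?_, ?_, ?_, ?_⟩ <;> linarith
          · refine CertC_box cb7 _ x y ?_ hx0 hx1 hy0 hy1 kP7 kT7 kU7 (Or.inl (by linarith)) kCe7 kCo7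
              (CertC_le (h7 x y hx0 hx1 hy0 hy1) (by linarith))
            change ((2 : Int) : ℝ) ≤ ((5 : Int) : ℝ) * x ∧ ((5 : Int) : ℝ) * x ≤ ((4 : Int) : ℝ) ∧
              ((3 : Int) : ℝ) ≤ ((4 : Int) : ℝ) * y ∧ ((4 : Int) : ℝ) * y ≤ ((4 : Int) : ℝ)
            push_cast
            refine ⟨?_, ?_, ?_, ?_⟩ <;> linarith
    · rcases le_total y (1 / 4) with hy | hy
      · refine CertC_box cb8 _ x y ?_ hx0 hx1 hy0 hy1 kP8 kT8 kU8 (Or.inr ⟨rfl, rfl, rfl, rfl⟩) kCe8 kCo8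
          (CertC_le (h8 x y hx0 hx1 hy0 hy1) (by linarith))
        change ((4 : Int) : ℝ) ≤ ((5 : Int) : ℝ) * x ∧ ((5 : Int) : ℝ) * x ≤ ((5 : Int) : ℝ) ∧
          ((0 : Int) : ℝ) ≤ ((4 : Int) : ℝ) * y ∧ ((4 : Int) : ℝ) * y ≤ ((1 : Int) : ℝ)
        push_cast
        refine ⟨?_, ?_, ?_, ?_⟩ <;> linarith
      · rcases le_total y (1 / 2) with hy2 | hy2
        · refine CertC_box cb9 _ x y ?_ hx0 hx1 hy0 hy1 kP9 kT9 kU9 (Or.inr ⟨rfl, rfl, rfl, rfl⟩) kCe9 kCo9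
            (CertC_le (h9 x y hx0 hx1 hy0 hy1) (by linarith))
          change ((4 : Int) : ℝ) ≤ ((5 : Int) : ℝ) * x ∧ ((5 : Int) : ℝ) * x ≤ ((5 : Int) : ℝ) ∧
            ((1 : Int) : ℝ) ≤ ((4 : Int) : ℝ) * y ∧ ((4 : Int) : ℝ) * y ≤ ((2 : Int) : ℝ)
          push_cast
          refine ⟨?_, ?_, ?_, ?_⟩ <;> linarith
        · rcases le_total y (3 / 4) with hy3 | hy3
          · refine CertC_box cb10 _ x y ?_ hx0 hx1 hy0 hy1 kP10 kT10 kU10 (Or.inr ⟨rfl, rfl, rfl, rfl⟩) kCe10 kCo10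
              (CertC_le (h10 x y hx0 hx1 hy0 hy1) (by linarith))
            change ((4 : Int) : ℝ) ≤ ((5 : Int) : ℝ) * x ∧ ((5 : Int) : ℝ) * x ≤ ((5 : Int) : ℝ) ∧
              ((2 : Int) : ℝ) ≤ ((4 : Int) : ℝ) * y ∧ ((4 : Int) : ℝ) * y ≤ ((3 : Int) : ℝ)
            push_cast
            refine ⟨?_, ?_, ?_, ?_⟩ <;> linarith
          · refine CertC_box cb11 _ x y ?_ hx0 hx1 hy0 hy1 kP11 kT11 kU11 (Or.inr ⟨rfl, rfl, rfl, rfl⟩) kCe11 kCo11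
              (CertC_le (h11 x y hx0 hx1 hy0 hy1) (by linarith))
            change ((4 : Int) : ℝ) ≤ ((5 : Int) : ℝ) * x ∧ ((5 : Int) : ℝ) * x ≤ ((5 : Int) : ℝ) ∧
              ((3 : Int) : ℝ) ≤ ((4 : Int) : ℝ) * y ∧ ((4 : Int) : ℝ) * y ≤ ((4 : Int) : ℝ)
            push_cast
            refine ⟨?_, ?_, ?_, ?_⟩ <;> linarith

end Pool.Agent.MSQ
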