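import Pool.Agent.MSQ.IntC
import Pool.Agent.MSQ.EvD
/-!
CertI (30 lines). Interface certificate with a uniform bound.

PROOF. Take B = the sum of the bounds of ev_bdd for all the polynomials occurring (c1: gSe.G12, gCe.G12; the 18
lists c2, c2s, d1; pDY cf1, sf0), use intC.
-/
namespace Pool.Agent.MSQ

private theorem CertI_list : ∀ L : List P, ∃ B : ℝ, 0 ≤ B ∧ ∀ p ∈ L, ∀ x : ℝ, 0 ≤ x → x ≤ 1 →
    |ev x 1 p| ≤ B
  | [] => ⟨0, le_refl _, fun p hp => by simp at hp⟩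
  | a :: L => by
    obtain ⟨B, hB, h⟩ := CertI_list L
    obtain ⟨C, hC, h'⟩ := ev_bdd a
    refine ⟨B + C, by linarith, fun p hp x h0 h1 => ?_⟩
    rcases List.mem_cons.1 hp with rfl | hp
    · have := h' x 1 h0 h1 zero_le_one one_le_two
      linarith
    · have := h p hp x h0 h1
      linarith

theorem certI : ∃ B : ℝ, 0 ≤ B ∧ ∀ x : ℝ, 0 ≤ x → x ≤ 1 → ∃ c1 c2 c2s d1 lin : ℝ,
    IGood x c1 c2 c2s d1 lin ∧ c1 ≤ B ∧ c2 ≤ B ∧ c2s ≤ B ∧ d1 ≤ B ∧ lin ≤ B := by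
  obtain ⟨B1, hB1, h1⟩ := CertI_list [ic2_0, ic2_1, ic2_2, ic2_3, ic2_4, ic2_5]
  obtain ⟨B2, hB2, h2⟩ := CertI_list [ic2s_0, ic2s_1, ic2s_2, ic2s_3, ic2s_4, ic2s_5]
  obtain ⟨B3, hB3, h3⟩ := CertI_list [id1_0, id1_1, id1_2, id1_3, id1_4, id1_5]
  obtain ⟨B4, hB4, h4⟩ := ev_bdd gSe.G12
  obtain ⟨B5, hB5, h5⟩ := ev_bdd gCe.G12
  obtain ⟨B6, hB6, h6⟩ := ev_bdd (pDY cf1)
  obtain ⟨B7, hB7, h7⟩ := ev_bdd sf0
  refine ⟨B1 + B2 + B3 + B4 + B5 + B6 + B7, by linarith, fun x hx0 hx1 => ?_⟩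
  obtain ⟨c2, c2s, d1, m2, m2s, m1, hg⟩ := intC x hx0 hx1
  refine ⟨_, _, _, _, _, hg, ?_, ?_, ?_, ?_, ?_⟩
  · have a1 := abs_le.1 (h4 x 1 hx0 hx1 zero_le_one one_le_two)
    have a2 := abs_le.1 (h5 x 1 hx0 hx1 zero_le_one one_le_two)
    linarith [a1.2, a2.1]
  · have a1 := abs_le.1 (h1 c2 m2 x hx0 hx1)
    linarith [a1.2]
  · have a1 := abs_le.1 (h2 c2s m2s x hx0 hx1)
    linarith [a1.2]
  · have a1 := abs_le.1 (h3 d1 m1 x hx0 hx1)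
    linarith [a1.2]
  · have a1 := abs_le.1 (h6 x 1 hx0 hx1 zero_le_one one_le_two)
    have a2 := abs_le.1 (h7 x 1 hx0 hx1 zero_le_one one_le_two)
    linarith [a1.1, a2.1]

end Pool.Agent.MSQ
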