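import Pool.Agent.MSQ.DataE
/-!
KQ. Kernel computations: positivity checks of the certificate (already proved).
-/
namespace Pool.Agent.MSQ

set_option maxRecDepth 100000

theorem kQ0 : sPos sb0 = true := by
  decide +kernel
theorem kQ1 : sPos sb1 = true := by
  decide +kernel
theorem kQ2 : sPos sb2 = true := by
  decide +kernel
theorem kQ3 : sPos sb3 = true := by
  decide +kernel
theorem kQ4 : sPos sb4 = true := by
  decide +kernel
theorem kQ5 : sPos sb5 = true := by
  decide +kernel
theorem kA0 : sA2 sf1 sf2 sh2 sb0 = true := by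
  decide +kernel
theorem kA1 : sA2 sf1 sf2 sh2 sb1 = true := by
  decide +kernel
theorem kA2 : sA2 sf1 sf2 sh2 sb2 = true := by
  decide +kernel
theorem kA3 : sA2 sf1 sf2 sh2 sb3 = true := by
  decide +kernel
theorem kA4 : sA2 sf1 sf2 sh2 sb4 = true := by
  decide +kernel
theorem kA5 : sA2 sf1 sf2 sh2 sb5 = true := by
  decide +kernel
theorem kL0 : sL1 DD sf0 sf2 sh2 sb0 = true := by
  decide +kernel
theorem kL1 : sL1 DD sf0 sf2 sh2 sb1 = true := by
  decide +kernel
theorem kL2 : sL1 DD sf0 sf2 sh2 sb2 = true := by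
  decide +kernel
theorem kL3 : sL1 DD sf0 sf2 sh2 sb3 = true := by
  decide +kernel
theorem kL4 : sL1 DD sf0 sf2 sh2 sb4 = true := by
  decide +kernel
theorem kL5 : sL1 DD sf0 sf2 sh2 sb5 = true := by
  decide +kernel
theorem kM0 : sL2 sf0 sf1 sh2 sb0 = true := by
  decide +kernel
theorem kM1 : sL2 sf0 sf1 sh2 sb1 = true := by
  decide +kernel
theorem kM2 : sL2 sf0 sf1 sh2 sb2 = true := by
  decide +kernel
theorem kM3 : sL2 sf0 sf1 sh2 sb3 = true := by
  decide +kernel
theorem kM4 : sL2 sf0 sf1 sh2 sb4 = true := by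
  decide +kernel
theorem kM5 : sL2 sf0 sf1 sh2 sb5 = true := by
  decide +kernel

end Pool.Agent.MSQ
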