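import Pool.Agent.MSQ.DataE
/-!
KSe. Kernel computations: positivity checks of the certificate (already proved).
-/
namespace Pool.Agent.MSQ

set_option maxRecDepth 100000

theorem kSe0 : sR DD gSe sb0 = true := by
  decide +kernel
theorem kSe1 : sR DD gSe sb1 = true := by
  decide +kernel
theorem kSe2 : sR DD gSe sb2 = true := by
  decide +kernel
theorem kSe3 : sR DD gSe sb3 = true := by
  decide +kernel
theorem kSe4 : sR DD gSe sb4 = true := by
  decide +kernel
theorem kSe5 : sR DD gSe sb5 = true := by
  decide +kernel

end Pool.Agent.MSQ
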