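import Pool.Agent.MSQ.DataE
/-!
KSo. Kernel computations: positivity checks of the certificate (already proved).
-/
namespace Pool.Agent.MSQ

set_option maxRecDepth 100000

theorem kSo0 : sR DD gSo sb0 = true := by
  decide +kernel
theorem kSo1 : sR DD gSo sb1 = true := by
  decide +kernel
theorem kSo2 : sR DD gSo sb2 = true := by
  decide +kernel
theorem kSo3 : sR DD gSo sb3 = true := by
  decide +kernel
theorem kSo4 : sR DD gSo sb4 = true := by
  decide +kernel
theorem kSo5 : sR DD gSo sb5 = true := by
  decide +kernel

end Pool.Agent.MSQ
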