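import Pool.Agent.MSQ.SGood
import Pool.Agent.MSQ.RSound
import Pool.Agent.MSQ.EvD
import Pool.Agent.MSQ.KQ
import Pool.Agent.MSQ.KSe
import Pool.Agent.MSQ.KSo
/-!
CertS (50 lines). The certificate of the sliver.

PROOF. Box k is sbk: x in [k/6,(k+1)/6], y in [1, stY k] (sb0: y1 = 49, qy = 40, ...; sb1: qy = 1000; sb3:
231/200; sb4: 277/250; sb5: 132/125). M := sbk.at x y, sGood, sR_sound, checks kQ.., kA.., kL.., kM.., kSe.., kSo...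
B as in CertC: ev_bdd (y ≤ 2), also for l1f and l2f (polynomials in x, y and Nf y^2 = 1 + y^2/3 ≤ 7/3, mf x ≤ 3/2).
-/
namespace Pool.Agent.MSQ

private theorem CertS_cont {f : ℝ × ℝ → ℝ} (hf : Continuous f) :
    ∃ B : ℝ, 0 ≤ B ∧ ∀ x y : ℝ, 0 ≤ x → x ≤ 1 → 0 ≤ y → y ≤ 2 → |f (x, y)| ≤ B := by
  have hc : IsCompact (Set.Icc (0 : ℝ) 1 ×ˢ Set.Icc (0 : ℝ) 2) :=
    isCompact_Icc.prod isCompact_Icc
  obtain ⟨C, hC⟩ := hc.exists_bound_of_continuousOn hf.continuousOn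
  refine ⟨max C 0, le_max_right _ _, ?_⟩
  intro x y hx0 hx1 hy0 hy2
  have h := hC (x, y) ⟨⟨hx0, hx1⟩, ⟨hy0, hy2⟩⟩
  rw [Real.norm_eq_abs] at h
  exact h.trans (le_max_left _ _)

private theorem CertS_Nf : Continuous fun z : ℝ × ℝ => Nf z.2 := by
  unfold Nf
  fun_prop

private theorem CertS_mf : Continuous fun z : ℝ × ℝ => mf z.1 := by
  unfold mf
  fun_prop

private theorem CertS_l1 (D : ℝ) (f0 f2 h2 : P) :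
    Continuous fun z : ℝ × ℝ => l1f D f0 f2 h2 z.1 z.2 := by
  unfold l1f
  have h1 := CertS_Nf
  have h2' := CertS_mf
  have h3 := continuous_ev (pDY f0)
  have h4 := continuous_ev (pDX (pDY f2))
  have h5 := continuous_ev (pDX h2)
  have h6 := continuous_ev (pDX (pDX h2))
  have h7 := continuous_ev h2
  fun_prop

private theorem CertS_l2 (f0 f1 h2 : P) :
    Continuous fun z : ℝ × ℝ => l2f f0 f1 h2 z.1 z.2 := by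
  unfold l2f
  have h3 := continuous_ev (pDY f1)
  have h4 := continuous_ev f0
  have h7 := continuous_ev h2
  fun_prop

private theorem CertS_list (L : List P) : ∃ B : ℝ, 0 ≤ B ∧ ∀ p ∈ L, ∀ x y : ℝ,
    0 ≤ x → x ≤ 1 → 0 ≤ y → y ≤ 2 → |ev x y p| ≤ B := by
  induction L with
  | nil => exact ⟨0, le_refl _, fun p hp => absurd hp List.not_mem_nil⟩
  | cons p L ih =>
    obtain ⟨B1, h1, h2⟩ := ih
    obtain ⟨B2, h3, h4⟩ := ev_bdd p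
    refine ⟨B1 + B2, by linarith, ?_⟩
    intro q hq x y a b c d
    rcases List.mem_cons.1 hq with rfl | hq
    · have := h4 x y a b c d
      linarith
    · have := h2 q hq x y a b c d
      linarith

private theorem CertS_box (b : SBox) (B x y : ℝ) (hb : b.In x y)
    (hQ : sPos b = true) (hA : sA2 sf1 sf2 sh2 b = true) (hL : sL1 DD sf0 sf2 sh2 b = true)
    (hM : sL2 sf0 sf1 sh2 b = true) (hSe : sR DD gSe b = true) (hSo : sR DD gSo b = true)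
    (hle : |ev x y b.ro11| ≤ B ∧ |ev x y b.ro12| ≤ B ∧ |ev x y b.ro22| ≤ B) :
    ∃ M : SM, M.Good (ev x y sf1) (ev x y sf2) (ev x y sh2) (l1f (DD : ℝ) sf0 sf2 sh2 x y)
        (l2f sf0 sf1 sh2 x y) y ∧ M.Le B ∧
      (∀ s : St, 0 ≤ Rg (DD : ℝ) gSe x y s + M.Q s) ∧
      (∀ s : St, 0 ≤ Rg (DD : ℝ) gSo x y s + M.Q s) :=
  ⟨b.at x y, sGood b x y hb hQ hA hL hM, hle, fun s => sR_sound DD gSe b hSe x y hb s,
    fun s => sR_sound DD gSo b hSo x y hb s⟩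

theorem certS : ∃ B : ℝ, 0 ≤ B ∧ ∀ k : ℕ, k < 6 → ∀ x y : ℝ, (k : ℝ) / 6 ≤ x → x ≤ ((k : ℝ) + 1) / 6 →
    1 ≤ y → y ≤ stY k →
    |l1f (DD : ℝ) sf0 sf2 sh2 x y| ≤ B ∧ |l2f sf0 sf1 sh2 x y| ≤ B ∧
    ∃ M : SM, M.Good (ev x y sf1) (ev x y sf2) (ev x y sh2) (l1f (DD : ℝ) sf0 sf2 sh2 x y)
        (l2f sf0 sf1 sh2 x y) y ∧ M.Le B ∧
      (∀ s : St, 0 ≤ Rg (DD : ℝ) gSe x y s + M.Q s) ∧
      (∀ s : St, 0 ≤ Rg (DD : ℝ) gSo x y s + M.Q s) := by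
  obtain ⟨B1, hB1, h1⟩ := CertS_cont (CertS_l1 (DD : ℝ) sf0 sf2 sh2)
  obtain ⟨B2, hB2, h2⟩ := CertS_cont (CertS_l2 sf0 sf1 sh2)
  obtain ⟨B3, hB3, h3⟩ := CertS_list [sb0.ro11, sb0.ro12, sb0.ro22, sb1.ro11, sb1.ro12, sb1.ro22,
    sb2.ro11, sb2.ro12, sb2.ro22, sb3.ro11, sb3.ro12, sb3.ro22, sb4.ro11, sb4.ro12, sb4.ro22,
    sb5.ro11, sb5.ro12, sb5.ro22]
  refine ⟨B1 + B2 + B3, by linarith, ?_⟩
  intro k hk x y hx0 hx1 hy0 hy1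
  have hkr : ((k : ℝ) + 1) / 6 ≤ 1 := by
    have : (k : ℝ) ≤ 5 := by exact_mod_cast (by omega : k ≤ 5)
    linarith
  have hkr0 : 0 ≤ (k : ℝ) / 6 := by positivity
  have hst : stY k ≤ 2 := by
    interval_cases k <;> unfold stY <;> norm_num
  have a1 : 0 ≤ x := by linarith
  have a2 : x ≤ 1 := by linarith
  have a3 : 0 ≤ y := by linarith
  have a4 : y ≤ 2 := by linarith
  have c1 := h1 x y a1 a2 a3 a4
  have c2 := h2 x y a1 a2 a3 a4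
  have c3 : ∀ p ∈ [sb0.ro11, sb0.ro12, sb0.ro22, sb1.ro11, sb1.ro12, sb1.ro22,
    sb2.ro11, sb2.ro12, sb2.ro22, sb3.ro11, sb3.ro12, sb3.ro22, sb4.ro11, sb4.ro12, sb4.ro22,
    sb5.ro11, sb5.ro12, sb5.ro22], |ev x y p| ≤ B1 + B2 + B3 := by
    intro p hp
    have := h3 p hp x y a1 a2 a3 a4
    linarith
  refine ⟨by linarith, by linarith, ?_⟩
  clear h1 h2 h3 c1 c2 hB1 hB2 hB3 hkr hkr0 hst
  simp only [List.forall_mem_cons] at c3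
  obtain ⟨p0, p1, p2, p3, p4, p5, p6, p7, p8, p9, p10, p11, p12, p13, p14, p15, p16, p17, -⟩ := c3
  rcases (by omega : k = 0 ∨ k = 1 ∨ k = 2 ∨ k = 3 ∨ k = 4 ∨ k = 5) with rfl | rfl | rfl | rfl |
    rfl | rfl
  · refine CertS_box sb0 _ x y ?_ kQ0 kA0 kL0 kM0 kSe0 kSo0 ⟨p0, p1, p2⟩
    change ((0 : Int) : ℝ) ≤ ((6 : Int) : ℝ) * x ∧ ((6 : Int) : ℝ) * x ≤ ((1 : Int) : ℝ) ∧
      ((40 : Int) : ℝ) ≤ ((40 : Int) : ℝ) * y ∧ ((40 : Int) : ℝ) * y ≤ ((49 : Int) : ℝ)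
    unfold stY at hy1
    norm_num at hx0 hx1 hy1 ⊢
    refine ⟨?_, ?_, ?_, ?_⟩ <;> linarith
  · refine CertS_box sb1 _ x y ?_ kQ1 kA1 kL1 kM1 kSe1 kSo1 ⟨p3, p4, p5⟩
    change ((1 : Int) : ℝ) ≤ ((6 : Int) : ℝ) * x ∧ ((6 : Int) : ℝ) * x ≤ ((2 : Int) : ℝ) ∧
      ((1000 : Int) : ℝ) ≤ ((1000 : Int) : ℝ) * y ∧ ((1000 : Int) : ℝ) * y ≤ ((1217 : Int) : ℝ)
    unfold stY at hy1
    norm_num at hx0 hx1 hy1 ⊢
    refine ⟨?_, ?_, ?_, ?_⟩ <;> linarith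
  · refine CertS_box sb2 _ x y ?_ kQ2 kA2 kL2 kM2 kSe2 kSo2 ⟨p6, p7, p8⟩
    change ((2 : Int) : ℝ) ≤ ((6 : Int) : ℝ) * x ∧ ((6 : Int) : ℝ) * x ≤ ((3 : Int) : ℝ) ∧
      ((1000 : Int) : ℝ) ≤ ((1000 : Int) : ℝ) * y ∧ ((1000 : Int) : ℝ) * y ≤ ((1193 : Int) : ℝ)
    unfold stY at hy1
    norm_num at hx0 hx1 hy1 ⊢
    refine ⟨?_, ?_, ?_, ?_⟩ <;> linarith
  · refine CertS_box sb3 _ x y ?_ kQ3 kA3 kL3 kM3 kSe3 kSo3 ⟨p9, p10, p11⟩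
    change ((3 : Int) : ℝ) ≤ ((6 : Int) : ℝ) * x ∧ ((6 : Int) : ℝ) * x ≤ ((4 : Int) : ℝ) ∧
      ((200 : Int) : ℝ) ≤ ((200 : Int) : ℝ) * y ∧ ((200 : Int) : ℝ) * y ≤ ((231 : Int) : ℝ)
    unfold stY at hy1
    norm_num at hx0 hx1 hy1 ⊢
    refine ⟨?_, ?_, ?_, ?_⟩ <;> linarith
  · refine CertS_box sb4 _ x y ?_ kQ4 kA4 kL4 kM4 kSe4 kSo4 ⟨p12, p13, p14⟩
    change ((4 : Int) : ℝ) ≤ ((6 : Int) : ℝ) * x ∧ ((6 : Int) : ℝ) * x ≤ ((5 : Int) : ℝ) ∧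
      ((250 : Int) : ℝ) ≤ ((250 : Int) : ℝ) * y ∧ ((250 : Int) : ℝ) * y ≤ ((277 : Int) : ℝ)
    unfold stY at hy1
    norm_num at hx0 hx1 hy1 ⊢
    refine ⟨?_, ?_, ?_, ?_⟩ <;> linarith
  · refine CertS_box sb5 _ x y ?_ kQ5 kA5 kL5 kM5 kSe5 kSo5 ⟨p15, p16, p17⟩
    change ((5 : Int) : ℝ) ≤ ((6 : Int) : ℝ) * x ∧ ((6 : Int) : ℝ) * x ≤ ((6 : Int) : ℝ) ∧
      ((125 : Int) : ℝ) ≤ ((125 : Int) : ℝ) * y ∧ ((125 : Int) : ℝ) * y ≤ ((132 : Int) : ℝ)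
    unfold stY at hy1
    norm_num at hx0 hx1 hy1 ⊢
    refine ⟨?_, ?_, ?_, ?_⟩ <;> linarith

end Pool.Agent.MSQ
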