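import Pool.Agent.MSQ.DataE
/-!
KZ. Kernel computations: positivity checks of the certificate (already proved).
-/
namespace Pool.Agent.MSQ

set_option maxRecDepth 100000

theorem kZe0 : zE gCe 0 2 5 = true := by
  decide +kernel
theorem kZe1 : zE gCe 2 4 5 = true := by
  decide +kernel
theorem kZe2 : zE gCe 4 5 5 = true := by
  decide +kernel
theorem kZo0 : zO gCo 0 2 5 = true := by
  decide +kernel
theorem kZo1 : zO gCo 2 4 5 = true := by
  decide +kernel
theorem kZo2 : zO gCo 4 5 5 = true := by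
  decide +kernel
theorem kZ1 : isZ (at0 (pDY cf1)) = true := by
  decide +kernel
theorem kZ2 : isZ (at1 cf1) = true := by
  decide +kernel
theorem kZ3 : isZ (at1 sf1) = true := by
  decide +kernel
theorem kZ4 : isZ (at1 sf2) = true := by
  decide +kernel
theorem kZ5 : eqP (at1 gCe.K) (at1 gSe.K) = true := by
  decide +kernel
theorem kZ6 : eqP (at1 gCo.K) (at1 gSo.K) = true := by
  decide +kernel
theorem kZ7 : eqP (at1 gCe.G22) (at1 gSe.G22) = true := by
  decide +kernel
theorem kZ8 : eqP (at1 gCo.G22) (at1 gSo.G22) = true := by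
  decide +kernel
theorem kZ9 : eqP (at1 gCe.G23) (at1 gSe.G23) = true := by
  decide +kernel
theorem kZ10 : eqP (at1 gCo.G23) (at1 gSo.G23) = true := by
  decide +kernel
theorem kZ11 : eqP (pAdd (at1 gCe.G12) (pSm (-1) (at1 gSe.G12))) (pAdd (at1 gCo.G12) (pSm (-1) (at1 gSo.G12))) = true := by
  decide +kernel
theorem kZ12 : ([gCe.H11, gCe.H12, gCe.H22, gCe.H33, gCo.H11, gCo.H12, gCo.H22, gCo.H33, gSe.H11, gSe.H12, gSe.H22,
    gSe.H33, gSo.H11, gSo.H12, gSo.H22, gSo.H33, pDY sf2, pDX sh2, w1e, w1o].all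
    fun p => (p.headD []).all (· == 0)) = true := by
  decide +kernel

end Pool.Agent.MSQ
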