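import Pool.Agent.MSQ.ChkS
import Pool.Agent.MSQ.EvA
import Pool.Agent.MSQ.KZ
/-!
CertZ (70 lines). The conditions on the lines y = 0 and x = 0.

PROOF. `certZ`: V1q gCe at y = 0 with q = 0: (G11 u^2/2 + G13 u p + G33 p^2/2)/N(0) ≤ 0 because
0 ≤ -G11 u^2 - 2 G13 u p - G33 p^2 (check zE at (x,0), chkM_sound with s = [u,p], ev_at0; intervals
[0,2/5], [2/5,4/5], [4/5,1]: kZe0, kZe1, kZe2). V1q gCo with u = p = κ = 0: G22 q^2/2 (K q (0 - 0 + 0*q) = 0) ≤ 0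
by zO. The linear part: cf1 * 0 - (pDY cf1 at y=0) * u = 0 by kZ1.
`certX`: at x = 0 the polynomials H11, H12, H22, H33 of the four gauges vanish (kZ12 and ev_head), so
V2q g 0 y s = (H13 u p + H23 q p)/N^3 - 2 K q ν/N is odd under (p, ν) → (-p, -ν) (St.fx), and
h0f 0 y = 0 (pDY sf2 and pDX sh2 vanish at x = 0). (For the core gauge H33 = [].)
`certW`: ev 0 1 w1e = 0 by kZ12.
-/
namespace Pool.Agent.MSQ

private theorem certZ_e (x : ℝ) (x0 x1 qx : Int) (h : zE gCe x0 x1 qx = true)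
    (h0 : (x0 : ℝ) ≤ (qx : ℝ) * x) (h1 : (qx : ℝ) * x ≤ (x1 : ℝ)) (u p : ℝ) :
    ev x 0 gCe.G11 * u ^ 2 + 2 * ev x 0 gCe.G13 * u * p + ev x 0 gCe.G33 * p ^ 2 ≤ 0 := by
  unfold zE at h
  have h2 := chkM_sound 2 _ x0 x1 qx 0 1 1 h x 0 h0 h1 (by norm_num) (by norm_num) [u, p] rfl
  simp only [evE, List.map_cons, List.map_nil, qf, dotL, List.take_succ_cons, List.take_zero,
    List.drop_succ_cons, List.drop_zero, List.length_cons, List.length_nil, ev_pSm, ev_at0] at h2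
  push_cast at h2
  nlinarith [h2]

private theorem certZ_o (x : ℝ) (x0 x1 qx : Int) (h : zO gCo x0 x1 qx = true)
    (h0 : (x0 : ℝ) ≤ (qx : ℝ) * x) (h1 : (qx : ℝ) * x ≤ (x1 : ℝ)) (q : ℝ) :
    ev x 0 gCo.G22 * q ^ 2 ≤ 0 := by
  unfold zO at h
  have h2 := chkM_sound 1 _ x0 x1 qx 0 1 1 h x 0 h0 h1 (by norm_num) (by norm_num) [q] rfl
  simp only [evE, List.map_cons, List.map_nil, qf, dotL, List.take_succ_cons, List.take_zero,
    List.drop_succ_cons, List.drop_zero, List.length_cons, List.length_nil, ev_pSm, ev_at0] at h2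
  push_cast at h2
  nlinarith [h2]

private theorem certZ_12 : (∀ y : ℝ, ev 0 y gCe.H11 = 0 ∧ ev 0 y gCe.H12 = 0 ∧
    ev 0 y gCe.H22 = 0 ∧ ev 0 y gCe.H33 = 0 ∧ ev 0 y gCo.H11 = 0 ∧ ev 0 y gCo.H12 = 0 ∧
    ev 0 y gCo.H22 = 0 ∧ ev 0 y gCo.H33 = 0 ∧ ev 0 y gSe.H11 = 0 ∧ ev 0 y gSe.H12 = 0 ∧
    ev 0 y gSe.H22 = 0 ∧ ev 0 y gSe.H33 = 0 ∧ ev 0 y gSo.H11 = 0 ∧ ev 0 y gSo.H12 = 0 ∧
    ev 0 y gSo.H22 = 0 ∧ ev 0 y gSo.H33 = 0 ∧ ev 0 y (pDY sf2) = 0 ∧ ev 0 y (pDX sh2) = 0 ∧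
    ev 0 y w1e = 0 ∧ ev 0 y w1o = 0) := by
  intro y
  have h := kZ12
  rw [List.all_eq_true] at h
  refine ⟨?_, ?_, ?_, ?_, ?_, ?_, ?_, ?_, ?_, ?_, ?_, ?_, ?_, ?_, ?_, ?_, ?_, ?_, ?_, ?_⟩ <;>
    refine ev_head y _ (h _ ?_) <;> simp only [List.mem_cons, true_or, or_true]

theorem certZ (x : ℝ) (h0 : 0 ≤ x) (h1 : x ≤ 1) (u p q μ ν κ : ℝ) :
    V1C x 0 ⟨u, 0, p, μ, 0, κ⟩ ⟨0, q, 0, 0, ν, 0⟩ ≤ 0 := by
  have hN : Nf 0 = 1 := by unfold Nf; norm_num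
  have hE : ev x 0 gCe.G11 * u ^ 2 + 2 * ev x 0 gCe.G13 * u * p + ev x 0 gCe.G33 * p ^ 2 ≤ 0 := by
    rcases le_total x (2 / 5) with h | h
    · exact certZ_e x 0 2 5 kZe0 (by push_cast; linarith) (by push_cast; linarith) u p
    · rcases le_total x (4 / 5) with h' | h'
      · exact certZ_e x 2 4 5 kZe1 (by push_cast; linarith) (by push_cast; linarith) u p
      · exact certZ_e x 4 5 5 kZe2 (by push_cast; linarith) (by push_cast; linarith) u p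
  have hO : ev x 0 gCo.G22 * q ^ 2 ≤ 0 := by
    rcases le_total x (2 / 5) with h | h
    · exact certZ_o x 0 2 5 kZo0 (by push_cast; linarith) (by push_cast; linarith) q
    · rcases le_total x (4 / 5) with h' | h'
      · exact certZ_o x 2 4 5 kZo1 (by push_cast; linarith) (by push_cast; linarith) q
      · exact certZ_o x 4 5 5 kZo2 (by push_cast; linarith) (by push_cast; linarith) q
  have hL : ev x 0 (pDY cf1) = 0 := by
    rw [← ev_at0 x 0 (pDY cf1)]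
    exact ev_isZ x 0 _ kZ1
  unfold V1C V1q
  rw [hN, hL]
  dsimp only
  nlinarith [hE, hO]
theorem certX (y : ℝ) (e o : St) :
    V2C 0 y e.fx o.fx = -V2C 0 y e o ∧ V2S 0 y e.fx o.fx = -V2S 0 y e o := by
  obtain ⟨a1, a2, a3, a4, b1, b2, b3, b4, c1, c2, c3, c4, d1, d2, d3, d4, e1, e2, _, _⟩ :=
    certZ_12 y
  unfold V2C V2S V2q h0f St.fx
  rw [a1, a2, a3, a4, b1, b2, b3, b4, c1, c2, c3, c4, d1, d2, d3, d4, e1, e2]
  dsimp only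
  constructor <;> ring
theorem certW : ev 0 1 w1e = 0 ∧ ev 0 1 w1o = 0 := by
  obtain ⟨_, _, _, _, _, _, _, _, _, _, _, _, _, _, _, _, _, _, h1, h2⟩ := certZ_12 1
  exact ⟨h1, h2⟩

end Pool.Agent.MSQ
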