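import Pool.Agent.MSQ.Poly0
/-!
MSQ: fast positivity test of a polynomial matrix on a box. The coefficients are packed in large
integers (base `2^w`), the change of variable is done on the packed numbers, then the coefficient
matrices are read off as digits.
-/
namespace Pool.Agent.MSQ

/-- `A = a + b T`, `Q = q (1+T)`: value at `t = T` of the change of variable of the polynomial with
coefficients `l` (missing coefficients are 0); second component `Q^n` -/
def hor (A Q : Int) : Nat → List Int → Int × Int
  | 0, _ => (0, 1)
  | n + 1, l =>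
    let r := hor A Q n l.tail
    (l.headD 0 * r.2 + A * r.1, Q * r.2)

/-- packing of the entries: `Σ_e B^e E_e` -/
def packE (B : Int) : List P → P
  | [] => []
  | p :: l => pAdd p (pSm B (packE B l))

/-- the `n` lowest digits of `u` in base `2^W` -/
def digN (W : Nat) : Nat → Nat → List Nat
  | 0, _ => []
  | n + 1, u => (u % 2 ^ W) :: digN W n (u / 2 ^ W)

/-- `c (1 + T + ... + T^(n-1))` -/
def geo (T c : Nat) : Nat → Nat
  | 0 => 0
  | n + 1 => c + T * geo T c n

/-- sum of the absolute values of all coefficients -/
def abs1 (l : List Int) : Nat := l.foldr (fun z a => z.natAbs + a) 0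
def abs2 (p : P) : Nat := p.foldr (fun r a => abs1 r + a) 0
def abs3 (E : List P) : Nat := E.foldr (fun p a => abs2 p + a) 0

/-- the largest length of a row -/
def lenM (p : P) : Nat := p.foldr (fun r a => max r.length a) 0

/-- the positivity test with parameters: `n` size, `ne` number of entries, `nx`, `ny` numbers of
coefficients, `w` number of bits, `p` packed polynomial -/
def chkK (n ne nx ny w : Nat) (p : P) (x0 x1 qx y0 y1 qy : Int) : Bool :=
  (digN (w * ne * ny) nx
    ((hor (x0 + x1 * 2 ^ (w * ne * ny)) (qx + qx * 2 ^ (w * ne * ny)) nx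
      (p.map fun r => (hor (y0 + y1 * 2 ^ (w * ne)) (qy + qy * 2 ^ (w * ne)) ny r).1)).1 +
      (geo (2 ^ (w * ne * ny)) (geo (2 ^ (w * ne)) (geo (2 ^ w) (2 ^ (w - 1)) ne) ny) nx : Nat)
      ).toNat).all fun u =>
    (digN (w * ne) ny u).all fun v =>
      psd n ((digN w ne v).map fun (d : Nat) => (d : Int) - 2 ^ (w - 1))

/-- number of bits: more than the logarithm of a bound for all the transformed coefficients -/
def bitsW (E : List P) (nx ny : Nat) (x0 x1 qx y0 y1 qy : Int) : Nat :=
  Nat.log2 (abs3 E * (max (x0.natAbs + x1.natAbs) (2 * qx.natAbs)) ^ nx *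
    (max (y0.natAbs + y1.natAbs) (2 * qy.natAbs)) ^ ny) + 2

/-- positivity test, entries given as a list of polynomials -/
def chkN (n : Nat) (E : List P) (x0 x1 qx y0 y1 qy : Int) : Bool :=
  decide (0 < qx) && decide (0 < qy) && decide (x0 < x1) && decide (y0 < y1) &&
    decide (E.length ≤ n * (n + 1) / 2) &&
    chkK n (n * (n + 1) / 2) (embL 0 E).length (lenM (packE 1 E))
      (bitsW E (embL 0 E).length (lenM (packE 1 E)) x0 x1 qx y0 y1 qy)
      (packE (2 ^ bitsW E (embL 0 E).length (lenM (packE 1 E)) x0 x1 qx y0 y1 qy) E)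
      x0 x1 qx y0 y1 qy

end Pool.Agent.MSQ
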