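import Pool.Agent.MSQ.Defs
import Pool.Agent.MSQ.Fast
/-!
MSQ: auxiliary definitions for the soundness of the fast positivity test (Fast.lean).
-/
namespace Pool.Agent.MSQ

/-- as `trA`, with a prescribed number `n` of coefficients (missing coefficients are 0) -/
def trC {α : Type} (sm : Int → α → α) (add : α → α → α) (zero : α) (a b q : Int) :
    Nat → List α → List α × List Int
  | 0, _ => ([], [1])
  | n + 1, l =>
    (addL add ((trC sm add zero a b q n l.tail).2.map (fun z => sm z (l.headD zero)))
        (mulLin sm add zero a b (trC sm add zero a b q n l.tail).1),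
      mulLin (· * ·) (· + ·) 0 q q (trC sm add zero a b q n l.tail).2)

/-- value at the integer `T`, through `ψ` -/
def evI {α : Type} (ψ : α → Int) (T : Int) : List α → Int
  | [] => 0
  | c :: l => ψ c + T * evI ψ T l

/-- sum of `ν` -/
def sN {α : Type} (ν : α → Nat) (l : List α) : Nat := (l.map ν).sum

end Pool.Agent.MSQ
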