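import Pool.Agent.MSQ.FDef
/-!
FDig (70 lines). Reading off shifted coefficients as digits (digN, geo of Fast.lean).

PROOF. Induction on M, generalizing L. M = 0: L = [], everything is 0 (2^(W*0) = 1). M+1: write v0 = head (or missing, value
0), L' = tail: evI ψ T L + geo T o (M+1) = (ψ v0 + o) + T (evI ψ T L' + geo T o M) with T = 2^W, d := ψ v0 + o ∈ [0,T)
(for the missing element: 0 ≤ o < 2^W by ho) and R := evI ψ T L' + geo T o M ∈ [0, T^M): hence the value is in
[0, T^(M+1)), its toNat is d.toNat + T * R.toNat, mod T is d.toNat, div T is R.toNat.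
(Nat.add_mul_mod_self_left, Nat.add_mul_div_left; 2^(W*(M+1)) = 2^W * 2^(W*M).)
-/
namespace Pool.Agent.MSQ

theorem digN_spec {α : Type} (ψ : α → Int) (W o M : ℕ) (L : List α) (hL : L.length ≤ M)
    (ho : o < 2 ^ W) (h : ∀ v ∈ L, 0 ≤ ψ v + (o : Int) ∧ ψ v + (o : Int) < 2 ^ W) :
    0 ≤ evI ψ (2 ^ W) L + (geo (2 ^ W) o M : Int) ∧
    evI ψ (2 ^ W) L + (geo (2 ^ W) o M : Int) < 2 ^ (W * M) ∧
    digN W M (evI ψ (2 ^ W) L + (geo (2 ^ W) o M : Int)).toNat =
      (L.map fun v => (ψ v + (o : Int)).toNat) ++ List.replicate (M - L.length) o := by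
  have ho' : (o : Int) < 2 ^ W := by exact_mod_cast ho
  induction M generalizing L with
  | zero =>
    have hl : L = [] := List.eq_nil_of_length_eq_zero (Nat.le_zero.mp hL)
    subst hl
    simp [evI, geo, digN]
  | succ M ih =>
    have hT : (0 : Int) < 2 ^ W := by positivity
    have hTM : (0 : Int) < 2 ^ (W * M) := by positivity
    obtain ⟨d, R, L', hd, hR, hL', hval, hmap, hL'2⟩ : ∃ (d R : Int) (L' : List α),
        (0 ≤ d ∧ d < 2 ^ W) ∧ R = evI ψ (2 ^ W) L' + (geo (2 ^ W) o M : Int) ∧ L'.length ≤ M ∧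
        evI ψ (2 ^ W) L + (geo (2 ^ W) o (M + 1) : Int) = d + 2 ^ W * R ∧
        ((L.map fun v => (ψ v + (o : Int)).toNat) ++ List.replicate (M + 1 - L.length) o =
          d.toNat :: ((L'.map fun v => (ψ v + (o : Int)).toNat) ++
            List.replicate (M - L'.length) o)) ∧
        (∀ v ∈ L', 0 ≤ ψ v + (o : Int) ∧ ψ v + (o : Int) < 2 ^ W) := by
      cases L with
      | nil =>
        refine ⟨o, _, [], ⟨by positivity, ho'⟩, rfl, Nat.zero_le _, ?_, ?_, ?_⟩
        · simp only [evI, geo]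
          push_cast
          ring
        · simp [List.replicate_succ]
        · intro v hv
          simp at hv
      | cons c l =>
        refine ⟨ψ c + o, _, l, h c (by simp), rfl, by simpa using hL, ?_, ?_, ?_⟩
        · simp only [evI, geo]
          push_cast
          ring
        · simp
        · intro v hv
          exact h v (by simp [hv])
    obtain ⟨h0, h1, h2⟩ := ih L' hL' hL'2
    rw [← hR] at h0 h1 h2
    rw [hval, hmap, ← h2]
    have e1 : (2 : Int) ^ (W * (M + 1)) = 2 ^ W * 2 ^ (W * M) := by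
      rw [← pow_add]
      congr 1
      ring
    have hcast : (d + 2 ^ W * R).toNat = d.toNat + 2 ^ W * R.toNat := by
      obtain ⟨a, rfl⟩ := Int.eq_ofNat_of_zero_le hd.1
      obtain ⟨b, rfl⟩ := Int.eq_ofNat_of_zero_le h0
      have : ((a : Int) + 2 ^ W * (b : Int)) = ((a + 2 ^ W * b : ℕ) : Int) := by push_cast; ring
      rw [this]
      simp only [Int.toNat_natCast]
    have hdn : d.toNat < 2 ^ W := by
      obtain ⟨a, rfl⟩ := Int.eq_ofNat_of_zero_le hd.1
      simp only [Int.toNat_natCast]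
      exact_mod_cast hd.2
    refine ⟨by nlinarith [hd.1, mul_nonneg hT.le h0], ?_, ?_⟩
    · rw [e1]
      nlinarith [hd.2, mul_le_mul_of_nonneg_left (Int.add_one_le_iff.mpr h1) hT.le]
    · rw [hcast]
      simp only [digN]
      rw [Nat.add_mul_mod_self_left, Nat.mod_eq_of_lt hdn,
        Nat.add_mul_div_left _ _ (by positivity), Nat.div_eq_of_lt hdn, zero_add]

end Pool.Agent.MSQ
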