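import Pool.Agent.MSQ.FDef
/-!
FPk (90 lines). Packing and embedding (packE of Fast.lean, embL of Poly.lean).

PROOF. `evI_addV`, `evI_smV`: as for evL. `map_addL`: mapping an additive function through addL (induction).
`pk_emb`: prove for all k: (embL k E).map (fun r => r.map (evI id B)) = pSm (B^k) (packE B E) by induction on E:
 (emb k p).map (fun r => r.map (evI id B)) = pSm (B^k) p because evI id B (List.replicate k 0 ++ [c]) = B^k * c;
 pSm (B^k) (pAdd p (pSm B Q)) = pAdd (pSm (B^k) p) (pSm (B^(k+1)) Q) (map_addL twice, smP of smP). k = 0: pSm 1 Q = Q.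
 (map over both levels of addP: (addP A B).map (fun r => r.map ψ) = addP-of-Int lists, i.e. pAdd (..) (..).)
`emb_len`: every vector in embL k E has length ≤ k + E.length (addV has length the maximum).
`emb_row`: rows: r.length ≤ lenM (packE 1 E): (embL 0 E).map (map (evI id 1)) = packE 1 E has the same row lengths, and
 a member of a list has length ≤ lenM.
`emb_abs`: the total norm: sN (sN (sN Int.natAbs)) (embL k E) ≤ abs3 E: sN (sN (sN natAbs)) (emb k p) = abs2 p
 (replicate k 0 ++ [c] has norm |c|), and the norm of addP is ≤ the sum of the norms.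
-/
namespace Pool.Agent.MSQ

private theorem FPk_sN_cons {α : Type} (ν : α → Nat) (c : α) (l : List α) : sN ν (c :: l) = ν c + sN ν l := by
  unfold sN
  rw [List.map_cons, List.sum_cons]

private theorem FPk_sN_nil {α : Type} (ν : α → Nat) : sN ν [] = 0 := rfl

private theorem FPk_nrm {α : Type} (f : α → α → α) (ν : α → Nat) (h : ∀ a b, ν (f a b) ≤ ν a + ν b) :
    ∀ X Y : List α, sN ν (addL f X Y) ≤ sN ν X + sN ν Y := by
  intro X
  induction X with
  | nil =>
    intro Y
    simp [addL, FPk_sN_nil]
  | cons a s ih =>
    intro Y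
    cases Y with
    | nil => simp [addL, FPk_sN_nil]
    | cons b t =>
      have h1 := ih t
      have h2 := h a b
      simp only [addL, FPk_sN_cons]
      omega

private theorem FPk_map {α β : Type} (f : α → α → α) (f' : β → β → β) (g : α → β)
    (h : ∀ a b, g (f a b) = f' (g a) (g b)) :
    ∀ X Y : List α, (addL f X Y).map g = addL f' (X.map g) (Y.map g) := by
  intro X
  induction X with
  | nil =>
    intro Y
    simp [addL]
  | cons a s ih =>
    intro Y
    cases Y with
    | nil => simp [addL]
    | cons b t =>
      simp only [addL, List.map_cons, h, ih]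

private theorem FPk_all {α : Type} (f : α → α → α) (p : α → Prop) (h : ∀ a b, p a → p b → p (f a b)) :
    ∀ X Y : List α, (∀ a ∈ X, p a) → (∀ b ∈ Y, p b) → ∀ c ∈ addL f X Y, p c := by
  intro X
  induction X with
  | nil =>
    intro Y _ hY c hc
    exact hY c hc
  | cons a s ih =>
    intro Y hX hY c hc
    cases Y with
    | nil => exact hX c hc
    | cons b t =>
      rcases List.mem_cons.1 hc with h1 | h1
      · rw [h1]
        exact h a b (hX a (List.mem_cons_self)) (hY b (List.mem_cons_self))
      · exact ih t (fun x hx => hX x (List.mem_cons_of_mem _ hx)) (fun x hx => hY x (List.mem_cons_of_mem _ hx)) c h1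

private theorem FPk_len {α : Type} (f : α → α → α) (m : ℕ) :
    ∀ X Y : List α, X.length ≤ m → Y.length ≤ m → (addL f X Y).length ≤ m := by
  intro X
  induction X generalizing m with
  | nil =>
    intro Y _ hY
    exact hY
  | cons a s ih =>
    intro Y hX hY
    cases Y with
    | nil => exact hX
    | cons b t =>
      rw [List.length_cons] at hX hY
      show (f a b :: addL f s t).length ≤ m
      rw [List.length_cons]
      have := ih (m - 1) t (by omega) (by omega)
      omega

private theorem FPk_trC {α : Type} (sm : Int → α → α) (add : α → α → α) (zero : α) (a b q : Int) (p : α → Prop)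
    (h0 : p zero) (hs : ∀ c x, p x → p (sm c x)) (ha : ∀ x y, p x → p y → p (add x y)) :
    ∀ (n : ℕ) (l : List α), (∀ x ∈ l, p x) → ∀ x ∈ (trC sm add zero a b q n l).1, p x := by
  intro n
  induction n with
  | zero =>
    intro l _ x hx
    simp [trC] at hx
  | succ n ih =>
    intro l hl x hx
    have htail : ∀ x ∈ l.tail, p x := fun x hx => hl x (List.mem_of_mem_tail hx)
    have hhead : p (l.headD zero) := by
      cases l with
      | nil => exact h0
      | cons c t => exact hl c List.mem_cons_self
    refine FPk_all add p ha _ _ ?_ ?_ x hx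
    · intro y hy
      obtain ⟨z, _, rfl⟩ := List.mem_map.1 hy
      exact hs z _ hhead
    · refine FPk_all add p ha _ _ ?_ ?_
      · intro y hy
        obtain ⟨z, hz, rfl⟩ := List.mem_map.1 hy
        exact hs a z (ih l.tail htail z hz)
      · intro y hy
        rcases List.mem_cons.1 hy with h1 | h1
        · rw [h1]
          exact h0
        · obtain ⟨z, hz, rfl⟩ := List.mem_map.1 h1
          exact hs b z (ih l.tail htail z hz)

theorem evI_addV (T : Int) (a b : List Int) : evI id T (addV a b) = evI id T a + evI id T b := by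
  induction a generalizing b with
  | nil => simp [addV, addL, evI]
  | cons a s ih =>
    cases b with
    | nil => simp [addV, addL, evI]
    | cons b t =>
      have h := ih t
      simp only [addV] at h
      simp only [addV, addL, evI, h, id]
      ring
theorem evI_smV (T c : Int) (a : List Int) : evI id T (smV c a) = c * evI id T a := by
  induction a with
  | nil => simp [smV, evI]
  | cons a s ih =>
    simp only [smV] at ih
    simp only [smV, List.map_cons, evI, ih, id]
    ring
theorem evI_addP (B T : Int) (a b : List (List Int)) :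
    evI (evI id B) T (addP a b) = evI (evI id B) T a + evI (evI id B) T b := by
  induction a generalizing b with
  | nil => simp [addP, addL, evI]
  | cons a s ih =>
    cases b with
    | nil => simp [addP, addL, evI]
    | cons b t =>
      have h := ih t
      simp only [addP] at h
      simp only [addP, addL, evI, h, evI_addV]
      ring
theorem evI_smP (B T c : Int) (a : List (List Int)) :
    evI (evI id B) T (smP c a) = c * evI (evI id B) T a := by
  induction a with
  | nil => simp [smP, evI]
  | cons a s ih =>
    simp only [smP] at ih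
    simp only [smP, List.map_cons, evI, ih, evI_smV]
    ring
theorem nrm_addV (a b : List Int) : sN Int.natAbs (addV a b) ≤ sN Int.natAbs a + sN Int.natAbs b :=
  FPk_nrm _ _ Int.natAbs_add_le a b
theorem nrm_smV (c : Int) (a : List Int) : sN Int.natAbs (smV c a) ≤ c.natAbs * sN Int.natAbs a := by
  induction a with
  | nil => simp [smV, sN]
  | cons a s ih =>
    simp only [smV] at ih
    simp only [smV, List.map_cons, FPk_sN_cons, Int.natAbs_mul]
    rw [mul_add]
    exact Nat.add_le_add_left ih _
theorem nrm_addP (a b : List (List Int)) :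
    sN (sN Int.natAbs) (addP a b) ≤ sN (sN Int.natAbs) a + sN (sN Int.natAbs) b :=
  FPk_nrm _ _ nrm_addV a b
theorem nrm_smP (c : Int) (a : List (List Int)) :
    sN (sN Int.natAbs) (smP c a) ≤ c.natAbs * sN (sN Int.natAbs) a := by
  induction a with
  | nil => simp [smP, sN]
  | cons a s ih =>
    simp only [smP] at ih
    simp only [smP, List.map_cons, FPk_sN_cons]
    rw [mul_add]
    exact Nat.add_le_add (nrm_smV c a) ih

private theorem FPk_unit (B c : Int) (k : ℕ) : evI id B (List.replicate k 0 ++ [c]) = B ^ k * c := by
  induction k with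
  | zero => simp [evI]
  | succ k ih =>
    rw [List.replicate_succ, List.cons_append]
    show (0 : Int) + B * evI id B (List.replicate k 0 ++ [c]) = _
    rw [ih]
    ring

private theorem FPk_smP_add (c : Int) (a b : P) : pSm c (pAdd a b) = pAdd (pSm c a) (pSm c b) := by
  refine FPk_map addV addV (smV c) (fun x y => ?_) a b
  exact FPk_map (· + ·) (· + ·) (fun z => c * z) (fun u v => mul_add c u v) x y

private theorem FPk_smP_smP (c d : Int) (a : P) : pSm c (pSm d a) = pSm (c * d) a := by
  unfold pSm smP smV
  rw [List.map_map]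
  refine List.map_congr_left (fun r _ => ?_)
  rw [Function.comp_apply, List.map_map]
  refine List.map_congr_left (fun x _ => ?_)
  rw [Function.comp_apply, mul_assoc]

private theorem FPk_smP_one (a : P) : pSm 1 a = a := by
  unfold pSm smP smV
  simp

private theorem FPk_pk (B : Int) (E : List P) : ∀ k : ℕ,
    (embL k E).map (fun r => r.map (evI id B)) = pSm (B ^ k) (packE B E) := by
  induction E with
  | nil =>
    intro k
    rfl
  | cons p l ih =>
    intro k
    have h1 : (embL k (p :: l)).map (fun r => r.map (evI id B)) =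
        addL addV ((emb k p).map (fun r => r.map (evI id B))) ((embL (k + 1) l).map (fun r => r.map (evI id B))) :=
      FPk_map addP addV (fun r => r.map (evI id B)) (fun x y =>
        FPk_map addV (· + ·) (evI id B) (fun u v => evI_addV B u v) x y) _ _
    have h2 : (emb k p).map (fun r => r.map (evI id B)) = pSm (B ^ k) p := by
      unfold emb pSm smP smV
      rw [List.map_map]
      refine List.map_congr_left (fun r _ => ?_)
      rw [Function.comp_apply, List.map_map]
      refine List.map_congr_left (fun x _ => ?_)
      rw [Function.comp_apply, FPk_unit]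
    rw [h1, h2, ih (k + 1)]
    show pAdd (pSm (B ^ k) p) (pSm (B ^ (k + 1)) (packE B l)) = pSm (B ^ k) (pAdd p (pSm B (packE B l)))
    rw [FPk_smP_add, FPk_smP_smP, pow_succ]
theorem pk_emb (B : Int) (E : List P) :
    (embL 0 E).map (fun r => r.map (evI id B)) = packE B E := by
  rw [FPk_pk, pow_zero, FPk_smP_one]

private theorem FPk_emb_len (E : List P) : ∀ k : ℕ, ∀ r ∈ embL k E, ∀ v ∈ r, v.length ≤ k + E.length := by
  induction E with
  | nil =>
    intro k r hr
    simp [embL] at hr
  | cons p l ih =>
    intro k
    refine FPk_all addP (fun r => ∀ v ∈ r, v.length ≤ k + (p :: l).length) ?_ _ _ ?_ ?_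
    · intro a b ha hb
      exact FPk_all addV (fun v => v.length ≤ k + (p :: l).length) (fun x y => FPk_len _ _ x y) a b ha hb
    · intro r hr v hv
      obtain ⟨r', _, rfl⟩ := List.mem_map.1 hr
      obtain ⟨c, _, rfl⟩ := List.mem_map.1 hv
      simp only [List.length_append, List.length_replicate, List.length_cons, List.length_nil]
      omega
    · intro r hr v hv
      have := ih (k + 1) r hr v hv
      rw [List.length_cons]
      omega
theorem emb_len (E : List P) : ∀ r ∈ embL 0 E, ∀ v ∈ r, v.length ≤ E.length := by
  intro r hr v hv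
  have := FPk_emb_len E 0 r hr v hv
  omega

private theorem FPk_lenM (p : P) : ∀ r ∈ p, r.length ≤ lenM p := by
  induction p with
  | nil =>
    intro r hr
    simp at hr
  | cons a s ih =>
    intro r hr
    have h1 : lenM (a :: s) = max a.length (lenM s) := rfl
    rw [h1]
    rcases List.mem_cons.1 hr with h2 | h2
    · rw [h2]
      exact le_max_left _ _
    · exact (ih r h2).trans (le_max_right _ _)
theorem emb_row (E : List P) : ∀ r ∈ embL 0 E, r.length ≤ lenM (packE 1 E) := by
  intro r hr
  have h1 : r.map (evI id 1) ∈ packE 1 E := by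
    rw [← pk_emb]
    exact List.mem_map.2 ⟨r, hr, rfl⟩
  have h2 := FPk_lenM _ _ h1
  rwa [List.length_map] at h2

private theorem FPk_unit_abs (c : Int) (k : ℕ) : sN Int.natAbs (List.replicate k 0 ++ [c]) = c.natAbs := by
  induction k with
  | zero => simp [sN]
  | succ k ih =>
    rw [List.replicate_succ, List.cons_append, FPk_sN_cons, ih]
    simp

private theorem FPk_row_abs (r : List Int) (k : ℕ) :
    sN (sN Int.natAbs) (r.map (fun c => List.replicate k 0 ++ [c])) = abs1 r := by
  induction r with
  | nil => rfl
  | cons c r ih =>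
    rw [List.map_cons, FPk_sN_cons, FPk_unit_abs, ih]
    rfl

private theorem FPk_emb_abs1 (p : P) (k : ℕ) : sN (sN (sN Int.natAbs)) (emb k p) = abs2 p := by
  induction p with
  | nil => rfl
  | cons r p ih =>
    have h1 : emb k (r :: p) = r.map (fun c => List.replicate k 0 ++ [c]) :: emb k p := rfl
    rw [h1, FPk_sN_cons, FPk_row_abs, ih]
    rfl

private theorem FPk_emb_abs (E : List P) : ∀ k : ℕ, sN (sN (sN Int.natAbs)) (embL k E) ≤ abs3 E := by
  induction E with
  | nil =>
    intro k
    exact Nat.zero_le _
  | cons p l ih =>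
    intro k
    have h1 : sN (sN (sN Int.natAbs)) (embL k (p :: l)) ≤
        sN (sN (sN Int.natAbs)) (emb k p) + sN (sN (sN Int.natAbs)) (embL (k + 1) l) :=
      FPk_nrm addP _ nrm_addP _ _
    have h2 : abs3 (p :: l) = abs2 p + abs3 l := rfl
    rw [h2]
    rw [FPk_emb_abs1] at h1
    exact h1.trans (Nat.add_le_add_left (ih (k + 1)) _)
theorem emb_abs (E : List P) : sN (sN (sN Int.natAbs)) (embL 0 E) ≤ abs3 E := FPk_emb_abs E 0
/-- lengths of vectors and rows are preserved by the transformation -/
theorem trC_vlen (m : ℕ) (a b q : Int) (n : ℕ) (l : List (List Int)) (h : ∀ v ∈ l, v.length ≤ m) :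
    ∀ v ∈ (trC smV addV [] a b q n l).1, v.length ≤ m := by
  refine FPk_trC smV addV [] a b q (fun v => v.length ≤ m) (Nat.zero_le _) (fun c x hx => ?_)
    (fun x y hx hy => FPk_len _ m x y hx hy) n l h
  show (x.map (c * ·)).length ≤ m
  rw [List.length_map]
  exact hx
theorem trC_vlen2 (m k : ℕ) (a b q : Int) (n : ℕ) (l : List (List (List Int)))
    (h : ∀ r ∈ l, r.length ≤ k ∧ ∀ v ∈ r, v.length ≤ m) :
    ∀ r ∈ (trC smP addP [] a b q n l).1, r.length ≤ k ∧ ∀ v ∈ r, v.length ≤ m := by
  refine FPk_trC smP addP [] a b q (fun r => r.length ≤ k ∧ ∀ v ∈ r, v.length ≤ m)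
    ⟨Nat.zero_le _, fun v hv => ?_⟩ (fun c x hx => ⟨?_, fun v hv => ?_⟩)
    (fun x y hx hy => ⟨FPk_len _ k x y hx.1 hy.1, FPk_all addV (fun v => v.length ≤ m)
      (fun u w hu hw => FPk_len _ m u w hu hw) x y hx.2 hy.2⟩) n l h
  · simp at hv
  · show (x.map (smV c)).length ≤ k
    rw [List.length_map]
    exact hx.1
  · obtain ⟨u, hu, rfl⟩ := List.mem_map.1 hv
    show (u.map (c * ·)).length ≤ m
    rw [List.length_map]
    exact hx.2 u hu

end Pool.Agent.MSQ
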