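import Pool.Agent.MSQ.FDef
/-!
FTr (140 lines). The change of variable `trC` with `n` coefficients: lengths, real value, integer value (= the Horner
scheme `hor` of Fast.lean), norm.

PROOF. All by induction on n, generalizing l. Let r = trC .. n l.tail.
Private lemmas for `evA` (see TrS.lean, same proofs) and for `evI`: value of addL add A B is the sum, of A.map f is
c * value, of mulLin sm add zero a b A is (a + b t) * value (ψ zero = 0).
`trC_len`: length of addL is the maximum of the lengths (private lemma), mulLin A has length A.length + 1.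
 (.1 has length n+1: max (r.2.length = n+1) (mulLin r.1 : n+1).)
`trC_real`: second component: evA cast t (trC n l).2 = (q(1+t))^n. First component for n+1:
 q(1+t) ((q(1+t))^n φ(l0) + (a+bt) evA φ t r.1) = (q(1+t))^(n+1) φ(l0) + (a+bt) (q(1+t))^n evA φ x l.tail, and
 a+bt = q(1+t) x, evA φ x l = φ(l0) + x evA φ x l.tail (for l = [] : φ zero = 0, all values are 0).
`trC_int`: the recursion of `hor` is the same: evI ψ T (trC n l).1 = (hor (a+bT) (q+qT) n (l.map ψ)).1 and
 evI id T (trC n l).2 = (hor (a+bT) (q+qT) n (l.map ψ)).2; (l.map ψ).headD 0 = ψ (l.headD zero) since ψ zero = 0.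
`trC_norm`: ν (add a b) ≤ ν a + ν b, ν (sm c a) ≤ |c| ν a, ν zero = 0. sN ν (addL add A B) ≤ sN ν A + sN ν B,
 sN ν (A.map (sm c)) ≤ |c| sN ν A, sN ν (mulLin .. A) ≤ (|a|+|b|) sN ν A,
 sN ν (Z.map (fun z => sm z v)) ≤ sN natAbs Z * ν v. First sN natAbs (trC n l).2 ≤ (2|q|)^n. Then with
 mx = max (|a|+|b|) (2|q|) ≥ 1 (q ≠ 0): sN ν (trC (n+1) l).1 ≤ (2|q|)^n ν(l0) + (|a|+|b|) sN ν l.tail mx^n
  ≤ mx^(n+1) (ν(l0) + sN ν l.tail).
`mem_norm`: an element of a list has ν at most sN ν.
-/
namespace Pool.Agent.MSQ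

private theorem FTr_addLen {α : Type} (add : α → α → α) : ∀ A B : List α,
    (addL add A B).length = max A.length B.length
  | [], B => by simp [addL]
  | a :: A, [] => by simp [addL]
  | a :: A, b :: B => by
    simp only [addL, List.length_cons, FTr_addLen add A B]
    omega

private theorem FTr_mulLen {α : Type} (sm : Int → α → α) (add : α → α → α) (zero : α) (a b : Int)
    (A : List α) : (mulLin sm add zero a b A).length = A.length + 1 := by
  unfold mulLin
  rw [FTr_addLen]
  simp

private theorem FTr_add {α : Type} (add : α → α → α) (φ : α → ℝ)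
    (h1 : ∀ a b, φ (add a b) = φ a + φ b) (t : ℝ) : ∀ A B : List α,
    evA φ t (addL add A B) = evA φ t A + evA φ t B
  | [], B => by simp [addL, evA]
  | a :: A, [] => by simp [addL, evA]
  | a :: A, b :: B => by
    simp only [addL, evA, h1, FTr_add add φ h1 t A B]
    ring

private theorem FTr_map {α β : Type} (f : β → α) (φ : α → ℝ) (ψ : β → ℝ) (c : ℝ)
    (h : ∀ b, φ (f b) = c * ψ b) (t : ℝ) : ∀ A : List β,
    evA φ t (A.map f) = c * evA ψ t A
  | [] => by simp [evA]
  | a :: A => by
    simp only [List.map_cons, evA, h, FTr_map f φ ψ c h t A]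
    ring

private theorem FTr_mul {α : Type} (sm : Int → α → α) (add : α → α → α) (zero : α) (φ : α → ℝ)
    (h1 : ∀ a b, φ (add a b) = φ a + φ b) (h2 : ∀ c a, φ (sm c a) = (c : ℝ) * φ a)
    (h0 : φ zero = 0) (a b : Int) (t : ℝ) (A : List α) :
    evA φ t (mulLin sm add zero a b A) = (a + b * t) * evA φ t A := by
  unfold mulLin
  rw [FTr_add add φ h1, FTr_map (sm a) φ φ a (h2 a)]
  simp only [evA]
  rw [FTr_map (sm b) φ φ b (h2 b), h0]
  ring

private theorem FTr_one {α : Type} (sm : Int → α → α) (add : α → α → α) (zero : α)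
    (a b q : Int) (t : ℝ) : ∀ (n : ℕ) (l : List α),
    evA (fun z : Int => (z : ℝ)) t (trC sm add zero a b q n l).2 = ((q : ℝ) * (1 + t)) ^ n
  | 0, l => by simp [trC, evA]
  | n + 1, l => by
    simp only [trC]
    rw [FTr_mul (fun x y : Int => x * y) (fun x y : Int => x + y) 0 (fun z : Int => (z : ℝ))
      (fun x y => by push_cast; ring) (fun x y => by push_cast; ring) (by simp),
      FTr_one sm add zero a b q t n l.tail, pow_succ]
    ring

private theorem FTr_iadd {α : Type} (add : α → α → α) (φ : α → Int)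
    (h1 : ∀ a b, φ (add a b) = φ a + φ b) (t : Int) : ∀ A B : List α,
    evI φ t (addL add A B) = evI φ t A + evI φ t B
  | [], B => by simp [addL, evI]
  | a :: A, [] => by simp [addL, evI]
  | a :: A, b :: B => by
    simp only [addL, evI, h1, FTr_iadd add φ h1 t A B]
    ring

private theorem FTr_imap {α β : Type} (f : β → α) (φ : α → Int) (ψ : β → Int) (c : Int)
    (h : ∀ b, φ (f b) = c * ψ b) (t : Int) : ∀ A : List β,
    evI φ t (A.map f) = c * evI ψ t A
  | [] => by simp [evI]
  | a :: A => by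
    simp only [List.map_cons, evI, h, FTr_imap f φ ψ c h t A]
    ring

private theorem FTr_imul {α : Type} (sm : Int → α → α) (add : α → α → α) (zero : α) (φ : α → Int)
    (h1 : ∀ a b, φ (add a b) = φ a + φ b) (h2 : ∀ c a, φ (sm c a) = c * φ a)
    (h0 : φ zero = 0) (a b : Int) (t : Int) (A : List α) :
    evI φ t (mulLin sm add zero a b A) = (a + b * t) * evI φ t A := by
  unfold mulLin
  rw [FTr_iadd add φ h1, FTr_imap (sm a) φ φ a (h2 a)]
  simp only [evI]
  rw [FTr_imap (sm b) φ φ b (h2 b), h0]
  ring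

private theorem FTr_ione {α : Type} (sm : Int → α → α) (add : α → α → α) (zero : α)
    (ψ : α → Int) (a b q : Int) (t : Int) : ∀ (n : ℕ) (l : List α),
    evI (fun z : Int => z) t (trC sm add zero a b q n l).2 =
      (hor (a + b * t) (q + q * t) n (l.map ψ)).2
  | 0, l => by simp [trC, evI, hor]
  | n + 1, l => by
    simp only [trC, hor]
    rw [FTr_imul (fun x y : Int => x * y) (fun x y : Int => x + y) 0 (fun z : Int => z)
      (fun x y => rfl) (fun x y => rfl) rfl,
      FTr_ione sm add zero ψ a b q t n l.tail, List.map_tail]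

private theorem FTr_nadd {α : Type} (add : α → α → α) (ν : α → ℕ)
    (h1 : ∀ a b, ν (add a b) ≤ ν a + ν b) : ∀ A B : List α,
    sN ν (addL add A B) ≤ sN ν A + sN ν B
  | [], B => by simp [addL, sN]
  | a :: A, [] => by simp [addL, sN]
  | a :: A, b :: B => by
    have e := FTr_nadd add ν h1 A B
    have e2 := h1 a b
    simp only [sN] at e
    simp only [addL, sN, List.map_cons, List.sum_cons]
    omega

private theorem FTr_nmap {α β : Type} (f : β → α) (ν : α → ℕ) (μ : β → ℕ) (c : ℕ)
    (h : ∀ b, ν (f b) ≤ c * μ b) : ∀ A : List β,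
    sN ν (A.map f) ≤ c * sN μ A
  | [] => by simp [sN]
  | a :: A => by
    have e := FTr_nmap f ν μ c h A
    have e2 := h a
    simp only [sN] at e
    simp only [sN, List.map_cons, List.sum_cons, mul_add]
    omega

private theorem FTr_nmul {α : Type} (sm : Int → α → α) (add : α → α → α) (zero : α) (ν : α → ℕ)
    (h1 : ∀ a b, ν (add a b) ≤ ν a + ν b) (h2 : ∀ c a, ν (sm c a) ≤ c.natAbs * ν a)
    (h0 : ν zero = 0) (a b : Int) (A : List α) :
    sN ν (mulLin sm add zero a b A) ≤ (a.natAbs + b.natAbs) * sN ν A := by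
  unfold mulLin
  refine (FTr_nadd add ν h1 _ _).trans ?_
  have e1 := FTr_nmap (sm a) ν ν a.natAbs (h2 a) A
  have e2 := FTr_nmap (sm b) ν ν b.natAbs (h2 b) A
  have e3 : sN ν (zero :: A.map (sm b)) = sN ν (A.map (sm b)) := by
    simp [sN, h0]
  rw [e3, add_mul]
  exact Nat.add_le_add e1 e2

private theorem FTr_none {α : Type} (sm : Int → α → α) (add : α → α → α) (zero : α)
    (a b q : Int) : ∀ (n : ℕ) (l : List α),
    sN Int.natAbs (trC sm add zero a b q n l).2 ≤ (2 * q.natAbs) ^ n
  | 0, l => by simp [trC, sN]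
  | n + 1, l => by
    simp only [trC]
    refine (FTr_nmul (fun x y : Int => x * y) (fun x y : Int => x + y) 0 Int.natAbs
      (fun x y => Int.natAbs_add_le x y) (fun x y => (Int.natAbs_mul x y).le) rfl q q _).trans ?_
    refine (Nat.mul_le_mul_left _ (FTr_none sm add zero a b q n l.tail)).trans ?_
    rw [pow_succ, two_mul, mul_comm]

private theorem FTr_head {α : Type} (zero : α) (ν : α → ℕ) (h0 : ν zero = 0) (l : List α) :
    sN ν l = ν (l.headD zero) + sN ν l.tail := by
  cases l with
  | nil => simp [sN, h0]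
  | cons c l => simp [sN]

theorem trC_len {α : Type} (sm : Int → α → α) (add : α → α → α) (zero : α) (a b q : Int)
    (n : ℕ) (l : List α) : (trC sm add zero a b q n l).1.length = n ∧
      (trC sm add zero a b q n l).2.length = n + 1 := by
  induction n generalizing l with
  | zero => simp [trC]
  | succ n ih =>
    obtain ⟨i1, i2⟩ := ih l.tail
    simp only [trC]
    rw [FTr_addLen, FTr_mulLen, FTr_mulLen, List.length_map, i1, i2]
    simp
theorem trC_real {α : Type} (sm : Int → α → α) (add : α → α → α) (zero : α) (φ : α → ℝ)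
    (h1 : ∀ a b, φ (add a b) = φ a + φ b) (h2 : ∀ c a, φ (sm c a) = (c : ℝ) * φ a)
    (h0 : φ zero = 0) (a b q : Int) (t x : ℝ) (hx : (q : ℝ) * (1 + t) * x = a + b * t)
    (n : ℕ) (l : List α) (hl : l.length ≤ n) :
    (q : ℝ) * (1 + t) * evA φ t (trC sm add zero a b q n l).1 =
      ((q : ℝ) * (1 + t)) ^ n * evA φ x l := by
  induction n generalizing l with
  | zero =>
    have : l = [] := List.length_eq_zero_iff.1 (by omega)
    subst this
    simp [trC, evA]
  | succ n ih =>
    have hl' : l.tail.length ≤ n := by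
      rw [List.length_tail]
      omega
    have i1 := ih l.tail hl'
    have e0 : evA φ x l = φ (l.headD zero) + x * evA φ x l.tail := by
      cases l with
      | nil => simp [evA, h0]
      | cons c l => simp [evA]
    simp only [trC]
    rw [FTr_add add φ h1, FTr_map (fun z => sm z (l.headD zero)) φ (fun z : Int => (z : ℝ))
      (φ (l.headD zero)) (fun z => by rw [h2]; ring), FTr_one, FTr_mul sm add zero φ h1 h2 h0, e0]
    have e : (q : ℝ) * (1 + t) * (φ (l.headD zero) * ((q : ℝ) * (1 + t)) ^ n +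
        (a + b * t) * evA φ t (trC sm add zero a b q n l.tail).1) =
        ((q : ℝ) * (1 + t)) ^ (n + 1) * φ (l.headD zero) +
        (a + b * t) * ((q : ℝ) * (1 + t) * evA φ t (trC sm add zero a b q n l.tail).1) := by ring
    rw [e, i1, ← hx]
    ring
theorem trC_int {α : Type} (sm : Int → α → α) (add : α → α → α) (zero : α) (ψ : α → Int)
    (h1 : ∀ a b, ψ (add a b) = ψ a + ψ b) (h2 : ∀ c a, ψ (sm c a) = c * ψ a)
    (h0 : ψ zero = 0) (a b q T : Int) (n : ℕ) (l : List α) :
    evI ψ T (trC sm add zero a b q n l).1 = (hor (a + b * T) (q + q * T) n (l.map ψ)).1 := by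
  induction n generalizing l with
  | zero => simp [trC, evI, hor]
  | succ n ih =>
    have e0 : (l.map ψ).headD 0 = ψ (l.headD zero) := by
      cases l with
      | nil => simp [h0]
      | cons c l => simp
    simp only [trC, hor]
    rw [FTr_iadd add ψ h1, FTr_imap (fun z => sm z (l.headD zero)) ψ (fun z : Int => z)
      (ψ (l.headD zero)) (fun z => by rw [h2]; ring), FTr_ione sm add zero ψ,
      FTr_imul sm add zero ψ h1 h2 h0, e0, ih l.tail, List.map_tail]
theorem trC_norm {α : Type} (sm : Int → α → α) (add : α → α → α) (zero : α) (ν : α → ℕ)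
    (h1 : ∀ a b, ν (add a b) ≤ ν a + ν b) (h2 : ∀ c a, ν (sm c a) ≤ c.natAbs * ν a)
    (h0 : ν zero = 0) (a b q : Int) (hq : q ≠ 0) (n : ℕ) (l : List α) :
    sN ν (trC sm add zero a b q n l).1 ≤
      sN ν l * (max (a.natAbs + b.natAbs) (2 * q.natAbs)) ^ n := by
  induction n generalizing l with
  | zero => simp [trC, sN]
  | succ n ih =>
    have hq1 : 1 ≤ q.natAbs := Nat.one_le_iff_ne_zero.2 (Int.natAbs_ne_zero.2 hq)
    simp only [trC]
    generalize hm : max (a.natAbs + b.natAbs) (2 * q.natAbs) = m at ih ⊢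
    have hm1 : a.natAbs + b.natAbs ≤ m := hm ▸ le_max_left _ _
    have hm2 : 2 * q.natAbs ≤ m := hm ▸ le_max_right _ _
    have hm3 : 1 ≤ m := by omega
    refine (FTr_nadd add ν h1 _ _).trans ?_
    have e1 := FTr_nmap (fun z => sm z (l.headD zero)) ν Int.natAbs (ν (l.headD zero))
      (fun z => by rw [mul_comm]; exact h2 z _) (trC sm add zero a b q n l.tail).2
    have e2 := FTr_nmul sm add zero ν h1 h2 h0 a b (trC sm add zero a b q n l.tail).1
    have e3 : sN Int.natAbs (trC sm add zero a b q n l.tail).2 ≤ m ^ n :=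
      (FTr_none sm add zero a b q n l.tail).trans (Nat.pow_le_pow_left hm2 n)
    have e4 := ih l.tail
    have e5 : m ^ n ≤ m ^ (n + 1) := Nat.pow_le_pow_right hm3 (Nat.le_succ n)
    rw [FTr_head zero ν h0 l, add_mul]
    refine Nat.add_le_add (e1.trans ?_) (e2.trans ?_)
    · exact Nat.mul_le_mul_left _ (e3.trans e5)
    · calc (a.natAbs + b.natAbs) * sN ν (trC sm add zero a b q n l.tail).1
          ≤ m * (sN ν l.tail * m ^ n) := Nat.mul_le_mul hm1 e4
        _ = sN ν l.tail * m ^ (n + 1) := by rw [pow_succ]; ring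
theorem mem_norm {α : Type} (ν : α → ℕ) (l : List α) (v : α) (h : v ∈ l) : ν v ≤ sN ν l := by
  unfold sN
  exact List.le_sum_of_mem (List.mem_map_of_mem h)

end Pool.Agent.MSQ
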