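import Pool.Agent.MSQ.Defs
/-!
QfLin (40 lines). `qf` and `dotL` are linear in the coefficient list (padded addition `addV`).

PROOF. `dotL (addV ..)`: induction on the first list, cases on the second, then on s.
For `qf`: induction on s, generalizing the lists; `List.take` and `List.drop` of a padded sum is the
padded sum of the takes and drops (prove these two auxiliary facts for `addL` by induction on n,
generalizing both lists), and `List.map` commutes with `addV` (cast). `smV` is a map.
-/
namespace Pool.Agent.MSQ

private theorem qfl_take {α : Type} (f : α → α → α) (n : ℕ) (a b : List α) :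
    (addL f a b).take n = addL f (a.take n) (b.take n) := by
  induction n generalizing a b with
  | zero => simp [addL]
  | succ n ih =>
    cases a with
    | nil => simp [addL]
    | cons x a =>
      cases b with
      | nil => simp [addL]
      | cons y b => simp [addL, ih]

private theorem qfl_drop {α : Type} (f : α → α → α) (n : ℕ) (a b : List α) :
    (addL f a b).drop n = addL f (a.drop n) (b.drop n) := by
  induction n generalizing a b with
  | zero => simp
  | succ n ih =>
    cases a with
    | nil => simp [addL]
    | cons x a =>
      cases b with
      | nil =>
        simp only [addL, List.drop_succ_cons, List.drop_nil]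
        cases a.drop n <;> rfl
      | cons y b => simp [addL, ih]

private theorem qfl_dot_nil (s : List ℝ) : dotL [] s = 0 := by
  cases s <;> rfl

private theorem qfl_dot (a b : List Int) (s : List ℝ) :
    dotL ((addV a b).map fun z : Int => (z : ℝ)) s =
      dotL (a.map fun z : Int => (z : ℝ)) s + dotL (b.map fun z : Int => (z : ℝ)) s := by
  unfold addV
  induction a generalizing b s with
  | nil => simp [addL, qfl_dot_nil]
  | cons x a ih =>
    cases b with
    | nil => simp [addL, qfl_dot_nil]
    | cons y b =>
      cases s with
      | nil => simp [addL, dotL]
      | cons t s =>
        simp only [addL, List.map_cons, dotL, ih]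
        push_cast
        ring

private theorem qfl_dot_sm (c : Int) (a : List Int) (s : List ℝ) :
    dotL ((smV c a).map fun z : Int => (z : ℝ)) s =
      c * dotL (a.map fun z : Int => (z : ℝ)) s := by
  unfold smV
  induction a generalizing s with
  | nil => simp [qfl_dot_nil]
  | cons x a ih =>
    cases s with
    | nil => simp [dotL]
    | cons t s =>
      simp only [List.map_cons, dotL, ih]
      push_cast
      ring

theorem qf_addV (a b : List Int) (s : List ℝ) :
    qf ((addV a b).map fun z : Int => (z : ℝ)) s =
      qf (a.map fun z : Int => (z : ℝ)) s + qf (b.map fun z : Int => (z : ℝ)) s := by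
  induction s generalizing a b with
  | nil => simp [qf]
  | cons t s ih =>
    have h1 : ((addV a b).map fun z : Int => (z : ℝ)).take (s.length + 1) =
        (addV (a.take (s.length + 1)) (b.take (s.length + 1))).map fun z : Int => (z : ℝ) := by
      rw [← List.map_take]
      unfold addV
      rw [qfl_take]
    have h2 : ((addV a b).map fun z : Int => (z : ℝ)).drop (s.length + 1) =
        (addV (a.drop (s.length + 1)) (b.drop (s.length + 1))).map fun z : Int => (z : ℝ) := by
      rw [← List.map_drop]
      unfold addV
      rw [qfl_drop]
    simp only [qf]
    rw [h1, h2, qfl_dot, ih, List.map_take, List.map_take, List.map_drop, List.map_drop]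
    ring

theorem qf_smV (c : Int) (a : List Int) (s : List ℝ) :
    qf ((smV c a).map fun z : Int => (z : ℝ)) s = c * qf (a.map fun z : Int => (z : ℝ)) s := by
  induction s generalizing a with
  | nil => simp [qf]
  | cons t s ih =>
    have h1 : ((smV c a).map fun z : Int => (z : ℝ)).take (s.length + 1) =
        (smV c (a.take (s.length + 1))).map fun z : Int => (z : ℝ) := by
      unfold smV
      simp only [List.map_take]
    have h2 : ((smV c a).map fun z : Int => (z : ℝ)).drop (s.length + 1) =
        (smV c (a.drop (s.length + 1))).map fun z : Int => (z : ℝ) := by
      unfold smV
      simp only [List.map_drop]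
    simp only [qf]
    rw [h1, h2, qfl_dot_sm, ih, List.map_take, List.map_drop]
    ring

theorem qf_nil (s : List ℝ) : qf [] s = 0 := by
  induction s with
  | nil => rfl
  | cons t s ih =>
    simp only [qf, List.take_nil, List.drop_nil, ih]
    simp [dotL]

end Pool.Agent.MSQ
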