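import Pool.Agent.MSQ.PsdS
import Pool.Agent.MSQ.QfLin
import Pool.Agent.MSQ.FTr
import Pool.Agent.MSQ.FDig
import Pool.Agent.MSQ.FPk
/-!
FOpen (150 lines). The fast test implies nonnegativity on the half open box.

NAMES: P = embL 0 E, nx = P.length, ny = lenM (packE 1 E), ne = n(n+1)/2, w = bitsW .. (so w ≥ 2 and, with
 S = abs3 E * mx^nx * my^ny, S < 2^(w-1) by Nat.lt_pow_succ_log2-type lemma `Nat.lt_log2_self`/`Nat.log2_lt`),
 h = 2^(w-1) < 2^w, o1 = geo (2^w) h ne, o2 = geo (2^(w*ne)) o1 ny,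
 TY r = (trC smV addV [] y0 y1 qy ny r).1, L = (trC smP addP [] x0 x1 qx nx (P.map TY)).1,
 φ v = qf (v.map cast) s  (additive, homogeneous, φ [] = 0: QfLin), ψ1 = evI id (2^w), ψ2 = evI ψ1 (2^(w*ne)).
STEPS. (1) Norm: ν1 = sN natAbs, ν2 = sN ν1. trC_norm twice: sN ν2 L ≤ sN ν2 (P.map TY) mx^nx and
 ν2 (TY r) ≤ ν2 r * my^ny, so sN ν2 L ≤ (sN ν2 P) my^ny mx^nx ≤ S < h. Hence for c ∈ L, v ∈ c, z ∈ v: |z| < h
 (mem_norm three times).
(2) Integer value: for r ∈ P: ψ2 (TY r) = (hor (y0+y1 2^(w*ne)) (qy + ..) ny (r.map ψ1)).1 (trC_int), and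
 evI ψ2 (2^(w*ne*ny)) L = (hor (..) (..) nx ((P.map TY).map ψ2)).1; with pk_emb (r.map ψ1 are the rows of packE (2^w) E)
 this is the number inside chkK: Z.
(3) Digits: digN_spec for a vector v (ψ = id, W = w, o = h, M = ne, v.length ≤ ne by emb_len, trC_vlen(2) and E.length ≤ ne):
 0 ≤ ψ1 v + o1 < 2^(w*ne) and digN w ne (ψ1 v + o1).toNat = (v.map (z + h).toNat) ++ replicate .. h. Applied to [] it
 gives o1 < 2^(w*ne). Then digN_spec for c ∈ L (ψ = ψ1, W = w*ne, o = o1, M = ny, c.length ≤ ny), then for L itself (ψ = ψ2,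
 W = w*ne*ny, o = o2, M = nx, L.length = nx). So the list tested by chkK contains, for c ∈ L and v ∈ c, the digits of v:
 psd n (((v.map (z+h).toNat) ++ replicate _ h).map (fun d => (d:Int) - 2^(w-1))) = true, and this list is v ++ replicate _ 0.
(4) psd_sound: 0 ≤ qf ((v ++ replicate k 0).map cast) s = φ v (trailing zeros do not change qf: e.g. v ++ replicate k 0 =
 addV v (replicate (v.length + k) 0) and qf of zeros is 0; or qf_addV).
(5) Real values: t = (qx x - x0)/(x1 - qx x) ≥ 0, t' = (qy y - y0)/(y1 - qy y) ≥ 0. All φ v ≥ 0 gives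
 0 ≤ evA (fun c => evA φ t' c) t L. trC_real (with φ' = evA φ t', additive for addP): = (qx(1+t))^nx evA φ' x (P.map TY) / (qx(1+t)), and
 for each r: qy(1+t') evA φ t' (TY r) = (qy(1+t'))^ny evA φ y r (r.length ≤ ny: emb_row), so
 qy(1+t') evA φ' x (P.map TY) = (qy(1+t'))^ny evA (evA φ y) x P  (evA of a map, scalar factor). Divide by positive factors.
-/
namespace Pool.Agent.MSQ

private theorem fop_geo (W o M : ℕ) (ho : o < 2 ^ W) : geo (2 ^ W) o M < 2 ^ (W * M) := by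
  have h := (digN_spec (α := Int) id W o M [] (by simp) ho (by simp)).2.1
  simp only [evI, zero_add] at h
  exact_mod_cast h

private theorem fop_core (n ne nx ny w : ℕ) (hw : 1 ≤ w) (L : List (List (List Int)))
    (hLn : L.length ≤ nx) (hc : ∀ c ∈ L, c.length ≤ ny ∧ ∀ v ∈ c, v.length ≤ ne)
    (hb : ∀ c ∈ L, ∀ v ∈ c, ∀ z ∈ v, z.natAbs < 2 ^ (w - 1))
    (h : (digN (w * ne * ny) nx
      (evI (evI (evI id (2 ^ w)) (2 ^ (w * ne))) (2 ^ (w * ne * ny)) L +
      (geo (2 ^ (w * ne * ny)) (geo (2 ^ (w * ne)) (geo (2 ^ w) (2 ^ (w - 1)) ne) ny) nx : Nat)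
      ).toNat).all (fun u =>
    (digN (w * ne) ny u).all fun v =>
      psd n ((digN w ne v).map fun (d : Nat) => (d : Int) - 2 ^ (w - 1))) = true) :
    ∀ c ∈ L, ∀ v ∈ c, ∃ k, psd n (v ++ List.replicate k 0) = true := by
  have hh : 2 ^ (w - 1) < 2 ^ w := Nat.pow_lt_pow_right (by norm_num) (by omega)
  have hh2 : 2 ^ w = 2 * 2 ^ (w - 1) := by
    rw [← pow_succ']
    congr 1
    omega
  have ho1 : geo (2 ^ w) (2 ^ (w - 1)) ne < 2 ^ (w * ne) := fop_geo w _ ne hh
  have ho2 : geo (2 ^ (w * ne)) (geo (2 ^ w) (2 ^ (w - 1)) ne) ny < 2 ^ (w * ne * ny) :=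
    fop_geo (w * ne) _ ny ho1
  have h1 : ∀ c ∈ L, ∀ v ∈ c, 0 ≤ evI id (2 ^ w) v + (geo (2 ^ w) (2 ^ (w - 1)) ne : Int) ∧
      evI id (2 ^ w) v + (geo (2 ^ w) (2 ^ (w - 1)) ne : Int) < 2 ^ (w * ne) ∧
      digN w ne (evI id (2 ^ w) v + (geo (2 ^ w) (2 ^ (w - 1)) ne : Int)).toNat =
        (v.map fun z => (id z + ((2 ^ (w - 1) : ℕ) : Int)).toNat) ++
          List.replicate (ne - v.length) (2 ^ (w - 1)) := by
    intro c hcL v hv
    refine digN_spec id w (2 ^ (w - 1)) ne v ((hc c hcL).2 v hv) hh ?_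
    intro z hz
    have h2 := hb c hcL v hv z hz
    have h3 : (2 : Int) ^ w = 2 * ((2 ^ (w - 1) : ℕ) : Int) := by exact_mod_cast hh2
    rw [h3]
    simp only [id]
    omega
  have h2 : ∀ c ∈ L, 0 ≤ evI (evI id (2 ^ w)) (2 ^ (w * ne)) c +
        (geo (2 ^ (w * ne)) (geo (2 ^ w) (2 ^ (w - 1)) ne) ny : Int) ∧
      evI (evI id (2 ^ w)) (2 ^ (w * ne)) c +
        (geo (2 ^ (w * ne)) (geo (2 ^ w) (2 ^ (w - 1)) ne) ny : Int) < 2 ^ (w * ne * ny) ∧
      digN (w * ne) ny (evI (evI id (2 ^ w)) (2 ^ (w * ne)) c +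
        (geo (2 ^ (w * ne)) (geo (2 ^ w) (2 ^ (w - 1)) ne) ny : Int)).toNat =
        (c.map fun v => (evI id (2 ^ w) v + ((geo (2 ^ w) (2 ^ (w - 1)) ne : ℕ) : Int)).toNat) ++
          List.replicate (ny - c.length) (geo (2 ^ w) (2 ^ (w - 1)) ne) := by
    intro c hcL
    exact digN_spec (evI id (2 ^ w)) (w * ne) (geo (2 ^ w) (2 ^ (w - 1)) ne) ny c (hc c hcL).1 ho1
      (fun v hv => ⟨(h1 c hcL v hv).1, (h1 c hcL v hv).2.1⟩)
  have h3 := (digN_spec (evI (evI id (2 ^ w)) (2 ^ (w * ne))) (w * ne * ny)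
    (geo (2 ^ (w * ne)) (geo (2 ^ w) (2 ^ (w - 1)) ne) ny) nx L hLn ho2
    (fun c hcL => ⟨(h2 c hcL).1, (h2 c hcL).2.1⟩)).2.2
  rw [h3, List.all_eq_true] at h
  intro c hcL v hv
  have h4 := h (evI (evI id (2 ^ w)) (2 ^ (w * ne)) c +
        (geo (2 ^ (w * ne)) (geo (2 ^ w) (2 ^ (w - 1)) ne) ny : Int)).toNat
    (List.mem_append_left _ (List.mem_map.2 ⟨c, hcL, rfl⟩))
  rw [(h2 c hcL).2.2, List.all_eq_true] at h4
  have h5 := h4 (evI id (2 ^ w) v + ((geo (2 ^ w) (2 ^ (w - 1)) ne : ℕ) : Int)).toNat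
    (List.mem_append_left _ (List.mem_map.2 ⟨v, hv, rfl⟩))
  rw [(h1 c hcL v hv).2.2, List.map_append, List.map_map, List.map_replicate] at h5
  refine ⟨ne - v.length, ?_⟩
  have h6 : v.map ((fun (d : Nat) => (d : Int) - 2 ^ (w - 1)) ∘
      fun z => (id z + ((2 ^ (w - 1) : ℕ) : Int)).toNat) = v := by
    conv_rhs => rw [← List.map_id v]
    apply List.map_congr_left
    intro z hz
    have h7 := hb c hcL v hv z hz
    have h8 : ((2 : Int) ^ (w - 1)) = ((2 ^ (w - 1) : ℕ) : Int) := by push_cast; rfl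
    simp only [Function.comp, id, h8]
    omega
  have h9 : (((2 ^ (w - 1) : ℕ) : Int) - 2 ^ (w - 1)) = 0 := by
    push_cast
    ring
  rw [h6, h9] at h5
  exact h5

private theorem fop_pad (v : List Int) (k : ℕ) (s : List ℝ) :
    qf ((v ++ List.replicate k 0).map fun z : Int => (z : ℝ)) s =
      qf (v.map fun z : Int => (z : ℝ)) s := by
  have h1 : ∀ (v : List Int) (k : ℕ), v ++ List.replicate k 0 =
      addV v (List.replicate (v.length + k) 0) := by
    intro v
    induction v with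
    | nil => intro k; simp [addV, addL]
    | cons a v ih =>
      intro k
      have h2 : (a :: v).length + k = (v.length + k) + 1 := by
        simp only [List.length_cons]
        omega
      rw [h2, List.replicate_succ, List.cons_append, ih]
      simp only [addV, addL, add_zero]
  have h2 : (List.replicate (v.length + k) (0 : Int)) =
      smV 0 (List.replicate (v.length + k) (0 : Int)) := by
    simp [smV]
  rw [h1, qf_addV]
  have h3 : qf ((List.replicate (v.length + k) (0 : Int)).map fun z : Int => (z : ℝ)) s = 0 := by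
    rw [h2, qf_smV]
    simp
  rw [h3, add_zero]

private theorem fop_add {α : Type} (add : α → α → α) (φ : α → ℝ)
    (h1 : ∀ a b, φ (add a b) = φ a + φ b) (t : ℝ) (a b : List α) :
    evA φ t (addL add a b) = evA φ t a + evA φ t b := by
  induction a generalizing b with
  | nil => simp [addL, evA]
  | cons x a ih =>
    cases b with
    | nil => simp [addL, evA]
    | cons y b =>
      simp only [addL, evA, ih, h1]
      ring

private theorem fop_sm {α : Type} (sm : Int → α → α) (φ : α → ℝ)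
    (h2 : ∀ c a, φ (sm c a) = (c : ℝ) * φ a) (t : ℝ) (c : Int) (a : List α) :
    evA φ t (a.map (sm c)) = (c : ℝ) * evA φ t a := by
  induction a with
  | nil => simp [evA]
  | cons x a ih =>
    simp only [List.map_cons, evA, ih, h2]
    ring

private theorem fop_nonneg {α : Type} (φ : α → ℝ) (t : ℝ) (ht : 0 ≤ t) (l : List α)
    (h : ∀ c ∈ l, 0 ≤ φ c) : 0 ≤ evA φ t l := by
  induction l with
  | nil => simp [evA]
  | cons x l ih =>
    simp only [evA]
    have h1 := h x (by simp)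
    have h2 := ih (fun c hc => h c (by simp [hc]))
    positivity

private theorem fop_map {α β : Type} (g : α → β) (f : β → ℝ) (h : α → ℝ) (A B x : ℝ) (l : List α)
    (hl : ∀ r ∈ l, A * f (g r) = B * h r) : A * evA f x (l.map g) = B * evA h x l := by
  induction l with
  | nil => simp [evA]
  | cons r l ih =>
    simp only [List.map_cons, evA, mul_add]
    rw [hl r (by simp), mul_left_comm, ih (fun c hc => hl c (by simp [hc]))]
    ring

private theorem fop_sum {α β : Type} (g : α → β) (f : β → ℕ) (h : α → ℕ) (B : ℕ) (l : List α)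
    (hl : ∀ r ∈ l, f (g r) ≤ h r * B) : sN f (l.map g) ≤ sN h l * B := by
  induction l with
  | nil => simp [sN]
  | cons r l ih =>
    have h1 := hl r (by simp)
    have h2 := ih (fun c hc => hl c (by simp [hc]))
    simp only [sN, List.map_cons, List.sum_cons, add_mul] at h2 ⊢
    exact Nat.add_le_add h1 h2

theorem chkN_open (n : ℕ) (E : List P) (x0 x1 qx y0 y1 qy : Int)
    (h : chkN n E x0 x1 qx y0 y1 qy = true) (x y : ℝ) (hx0 : (x0 : ℝ) ≤ (qx : ℝ) * x)
    (hx1 : (qx : ℝ) * x < (x1 : ℝ)) (hy0 : (y0 : ℝ) ≤ (qy : ℝ) * y)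
    (hy1 : (qy : ℝ) * y < (y1 : ℝ)) (s : List ℝ) (hs : s.length = n) :
    0 ≤ evA (fun c => evA (fun v : List Int => qf (v.map fun z : Int => (z : ℝ)) s) y c) x
      (embL 0 E) := by
  unfold chkN at h
  simp only [Bool.and_eq_true, decide_eq_true_eq] at h
  obtain ⟨⟨⟨⟨⟨hqx, hqy⟩, hxx⟩, hyy⟩, hE⟩, hK⟩ := h
  set nx := (embL 0 E).length with hnx
  set ny := lenM (packE 1 E) with hny
  set w := bitsW E nx ny x0 x1 qx y0 y1 qy with hw
  set ne := n * (n + 1) / 2 with hne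
  set TY : List (List Int) → List (List Int) := fun r => (trC smV addV [] y0 y1 qy ny r).1 with hTY
  set L := (trC smP addP [] x0 x1 qx nx ((embL 0 E).map TY)).1 with hL
  set mx := max (x0.natAbs + x1.natAbs) (2 * qx.natAbs) with hmx
  set my := max (y0.natAbs + y1.natAbs) (2 * qy.natAbs) with hmy
  -- norms
  have hn1 : sN (sN (sN Int.natAbs)) L ≤ abs3 E * mx ^ nx * my ^ ny := by
    have e1 := trC_norm smP addP [] (sN (sN Int.natAbs)) nrm_addP nrm_smP rfl x0 x1 qx hqx.ne' nx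
      ((embL 0 E).map TY)
    have e2 : sN (sN (sN Int.natAbs)) ((embL 0 E).map TY) ≤
        sN (sN (sN Int.natAbs)) (embL 0 E) * my ^ ny :=
      fop_sum TY _ _ _ _ (fun r _ => trC_norm smV addV [] (sN Int.natAbs) nrm_addV nrm_smV rfl
        y0 y1 qy hqy.ne' ny r)
    calc sN (sN (sN Int.natAbs)) L ≤ sN (sN (sN Int.natAbs)) ((embL 0 E).map TY) * mx ^ nx := e1
      _ ≤ (sN (sN (sN Int.natAbs)) (embL 0 E) * my ^ ny) * mx ^ nx := Nat.mul_le_mul_right _ e2
      _ ≤ (abs3 E * my ^ ny) * mx ^ nx :=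
        Nat.mul_le_mul_right _ (Nat.mul_le_mul_right _ (emb_abs E))
      _ = abs3 E * mx ^ nx * my ^ ny := by ring
  have hw1 : abs3 E * mx ^ nx * my ^ ny < 2 ^ (w - 1) := by
    have e1 : w - 1 = Nat.log2 (abs3 E * mx ^ nx * my ^ ny) + 1 := by
      rw [hw]
      unfold bitsW
      rfl
    rw [e1]
    exact Nat.lt_log2_self
  have hw2 : 1 ≤ w := by
    rw [hw]
    unfold bitsW
    omega
  have hb : ∀ c ∈ L, ∀ v ∈ c, ∀ z ∈ v, z.natAbs < 2 ^ (w - 1) := by
    intro c hc v hv z hz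
    have e1 := mem_norm Int.natAbs v z hz
    have e2 := mem_norm (sN Int.natAbs) c v hv
    have e3 := mem_norm (sN (sN Int.natAbs)) L c hc
    omega
  -- lengths
  have hlen : ∀ c ∈ L, c.length ≤ ny ∧ ∀ v ∈ c, v.length ≤ ne := by
    apply trC_vlen2
    intro r hr
    obtain ⟨r0, hr0, rfl⟩ := List.mem_map.1 hr
    refine ⟨(trC_len smV addV [] y0 y1 qy ny r0).1.le, ?_⟩
    apply trC_vlen
    intro v hv
    exact (emb_len E r0 hr0 v hv).trans hE
  have hLn : L.length ≤ nx := (trC_len smP addP [] x0 x1 qx nx ((embL 0 E).map TY)).1.le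
  -- integer value
  have hZ : (hor (x0 + x1 * 2 ^ (w * ne * ny)) (qx + qx * 2 ^ (w * ne * ny)) nx
      ((packE (2 ^ w) E).map fun r =>
        (hor (y0 + y1 * 2 ^ (w * ne)) (qy + qy * 2 ^ (w * ne)) ny r).1)).1 =
      evI (evI (evI id (2 ^ w)) (2 ^ (w * ne))) (2 ^ (w * ne * ny)) L := by
    rw [hL, trC_int smP addP [] (evI (evI id (2 ^ w)) (2 ^ (w * ne)))
      (evI_addP (2 ^ w) (2 ^ (w * ne))) (evI_smP (2 ^ w) (2 ^ (w * ne))) rfl, ← pk_emb,
      List.map_map, List.map_map]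
    congr 2
    apply List.map_congr_left
    intro r _
    simp only [Function.comp]
    exact (trC_int smV addV [] (evI id (2 ^ w)) (evI_addV (2 ^ w)) (evI_smV (2 ^ w)) rfl
      y0 y1 qy (2 ^ (w * ne)) ny r).symm
  unfold chkK at hK
  rw [hZ] at hK
  have hcore := fop_core n ne nx ny w hw2 L hLn hlen hb hK
  have hφ : ∀ c ∈ L, ∀ v ∈ c, 0 ≤ qf (v.map fun z : Int => (z : ℝ)) s := by
    intro c hc v hv
    obtain ⟨k, hk⟩ := hcore c hc v hv
    rw [← fop_pad v k s]
    exact psd_sound n _ hk s hs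
  -- real values
  have hdx : 0 < (x1 : ℝ) - qx * x := by linarith
  have hdy : 0 < (y1 : ℝ) - qy * y := by linarith
  set t : ℝ := (qx * x - x0) / (x1 - qx * x) with ht
  set t' : ℝ := (qy * y - y0) / (y1 - qy * y) with ht'
  have ht0 : 0 ≤ t := div_nonneg (by linarith) hdx.le
  have ht0' : 0 ≤ t' := div_nonneg (by linarith) hdy.le
  have hqxr : (0 : ℝ) < qx := by exact_mod_cast hqx
  have hqyr : (0 : ℝ) < qy := by exact_mod_cast hqy
  have hxt : (qx : ℝ) * (1 + t) * x = x0 + x1 * t := by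
    rw [ht]
    field_simp
    ring
  have hyt : (qy : ℝ) * (1 + t') * y = y0 + y1 * t' := by
    rw [ht']
    field_simp
    ring
  set φ : List Int → ℝ := fun v => qf (v.map fun z : Int => (z : ℝ)) s with hφd
  have hφ1 : ∀ a b, φ (addV a b) = φ a + φ b := fun a b => qf_addV a b s
  have hφ2 : ∀ c a, φ (smV c a) = (c : ℝ) * φ a := fun c a => qf_smV c a s
  have hφ0 : φ [] = 0 := qf_nil s
  have r1 := trC_real smP addP [] (evA φ t') (fop_add addV φ hφ1 t')
    (fun c a => fop_sm smV φ hφ2 t' c a) rfl x0 x1 qx t x hxt nx ((embL 0 E).map TY)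
    (by rw [List.length_map])
  have r2 : (qy : ℝ) * (1 + t') * evA (evA φ t') x ((embL 0 E).map TY) =
      ((qy : ℝ) * (1 + t')) ^ ny * evA (evA φ y) x (embL 0 E) := by
    apply fop_map
    intro r hr
    exact trC_real smV addV [] φ hφ1 hφ2 hφ0 y0 y1 qy t' y hyt ny r (emb_row E r hr)
  have r3 : 0 ≤ evA (evA φ t') t L :=
    fop_nonneg _ t ht0 L (fun c hc => fop_nonneg _ t' ht0' c (hφ c hc))
  have r4 : 0 ≤ evA (evA φ t') x ((embL 0 E).map TY) := by
    have e1 : 0 ≤ ((qx : ℝ) * (1 + t)) ^ nx * evA (evA φ t') x ((embL 0 E).map TY) := by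
      rw [← r1]
      positivity
    exact nonneg_of_mul_nonneg_right e1 (by positivity)
  have e2 : 0 ≤ ((qy : ℝ) * (1 + t')) ^ ny * evA (evA φ y) x (embL 0 E) := by
    rw [← r2]
    positivity
  exact nonneg_of_mul_nonneg_right e2 (by positivity)

end Pool.Agent.MSQ
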