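import Pool.Agent.MSQ.Defs
/-!
PtI (60 lines). The pointwise inequality on the interface (pure real algebra).

NOTATION: N = Nf 1, N² = 4/3; e = s.hs t, o = s.hd t; U1 = uv x 1 UE1/(3N), U2 = uv x 1 UE2/(3N).
IDENTITY: the right hand side equals (use 3N² = 4)
 (c2/2)[s.u(U1 - s.u) + t.u(U1 - t.u)] + c2s e.u(U2 - e.u) + d1 s.u t.u - (c1/2)(s.u s.q + t.u t.q)
   + N (lin - (c2 uv UE1 + c2s uv UE2)/4) e.u.
ESTIMATES: u ∈ [-δ, 2], U1 - u ≥ -10δ and ≤ 13, u(U1-u) ≥ -13δ - 20δ, the same for U2; s.u t.u ≥ -2δ;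
 -u q ≥ -3δ - 2δ (q ∈ [-3, δ]); the last factor is in [0, 2B+..] (lin ≤ B, the uv's are ≥ -... : use
 |uv| ≤ 10): N (..) e.u ≥ -δ·2(B + 5B). Total error < 1000 B δ.
-/
namespace Pool.Agent.MSQ

private theorem ptI_mul {δ u v : ℝ} (hδ : 0 ≤ δ) (hδ1 : δ ≤ 1) (hu0 : -δ ≤ u) (hu1 : u ≤ 2)
    (hv0 : -(10 * δ) ≤ v) (hv1 : v ≤ 13) : -(43 * δ) ≤ u * v := by
  have h := mul_nonneg (by linarith : 0 ≤ u + δ) (by linarith : 0 ≤ v + 10 * δ)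
  have h1 : δ * u ≤ δ * 2 := mul_le_mul_of_nonneg_left hu1 hδ
  have h2 : δ * v ≤ δ * 13 := mul_le_mul_of_nonneg_left hv1 hδ
  have h3 : δ * δ ≤ δ * 1 := mul_le_mul_of_nonneg_left hδ1 hδ
  nlinarith

private theorem ptI_uq {δ u q : ℝ} (hδ : 0 ≤ δ) (hδ1 : δ ≤ 1) (hu0 : -δ ≤ u) (hu1 : u ≤ 2)
    (hq0 : -3 ≤ q) (hq1 : q ≤ δ) : u * q ≤ 6 * δ := by
  have h := mul_nonneg (by linarith : 0 ≤ u + δ) (by linarith : 0 ≤ δ - q)
  have h1 : δ * u ≤ δ * 2 := mul_le_mul_of_nonneg_left hu1 hδ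
  have h2 : δ * (-3) ≤ δ * q := mul_le_mul_of_nonneg_left hq0 hδ
  have h3 : δ * δ ≤ δ * 1 := mul_le_mul_of_nonneg_left hδ1 hδ
  nlinarith

private theorem ptI_uu {δ u v : ℝ} (hδ : 0 ≤ δ) (hδ1 : δ ≤ 1) (hu0 : -δ ≤ u) (hu1 : u ≤ 2)
    (hv0 : -δ ≤ v) (hv1 : v ≤ 2) : -(5 * δ) ≤ u * v := by
  have h := mul_nonneg (by linarith : 0 ≤ u + δ) (by linarith : 0 ≤ v + δ)
  have h1 : δ * u ≤ δ * 2 := mul_le_mul_of_nonneg_left hu1 hδ
  have h2 : δ * v ≤ δ * 2 := mul_le_mul_of_nonneg_left hv1 hδ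
  have h3 : δ * δ ≤ δ * 1 := mul_le_mul_of_nonneg_left hδ1 hδ
  nlinarith

theorem ptI (δ x B c1 c2 c2s d1 lin : ℝ) (s t : St) (hδ : 0 ≤ δ) (hδ1 : δ ≤ 1) (h : IGood x c1 c2 c2s d1 lin)
    (hc1 : c1 ≤ B) (hc2 : c2 ≤ B) (hc2s : c2s ≤ B) (hd1 : d1 ≤ B) (hlin : lin ≤ B)
    (hU1 : |uv x 1 UE1| ≤ 10) (hU2 : |uv x 1 UE2| ≤ 10) (hs : IF1 δ x s) (ht : IF1 δ x t)
    (hp : 3 * Nf 1 * ((s.u + t.u) / 2) ≤ uv x 1 UE2 + 10 * δ) :
    -(1000 * B * δ) ≤ -(c2 + c2s - d1) * (s.hs t).u ^ 2 - (c2 + d1) * (s.hd t).u ^ 2 -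
      c1 * ((s.hs t).u * (s.hs t).q + (s.hd t).u * (s.hd t).q) + Nf 1 * lin * (s.hs t).u := by
  have hN2 : Nf 1 ^ 2 = 4 / 3 := by
    unfold Nf
    rw [Real.sq_sqrt (by norm_num)]
    norm_num
  have hN0 : 0 ≤ Nf 1 := Real.sqrt_nonneg _
  have hN1 : 1 ≤ Nf 1 := by nlinarith
  have hN3 : Nf 1 ≤ 2 := by nlinarith
  obtain ⟨hs0, hs1, hsq1, hsq2, hsU⟩ := hs
  obtain ⟨ht0, ht1, htq1, htq2, htU⟩ := ht
  obtain ⟨g1, g2, g3, g4, g5, -⟩ := h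
  generalize uv x 1 UE1 = a at *
  generalize uv x 1 UE2 = b at *
  generalize Nf 1 = N at *
  rw [abs_le] at hU1 hU2
  have hB : 0 ≤ B := g1.trans hc1
  have hBδ : 0 ≤ B * δ := mul_nonneg hB hδ
  -- U1 = a N / 4
  have hNa : N * a ≤ 20 := by nlinarith
  have hNb : N * b ≤ 20 := by nlinarith
  have key : ∀ u c : ℝ, 3 * N * u ≤ c + 10 * δ → -(10 * δ) ≤ N * c / 4 - u := by
    intro u c hu
    have h1 : N * (3 * N * u) ≤ N * (c + 10 * δ) := mul_le_mul_of_nonneg_left hu hN0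
    have h2 : N * (3 * N * u) = 4 * u := by
      have : N * (3 * N * u) = 3 * N ^ 2 * u := by ring
      rw [this, hN2]
      ring
    rw [h2] at h1
    nlinarith
  have e1 := ptI_mul hδ hδ1 hs0 hs1 (key _ _ hsU) (by linarith)
  have e2 := ptI_mul hδ hδ1 ht0 ht1 (key _ _ htU) (by linarith)
  have he0 : -δ ≤ (s.u + t.u) / 2 := by linarith
  have he1 : (s.u + t.u) / 2 ≤ 2 := by linarith
  have e3 := ptI_mul hδ hδ1 he0 he1 (key _ _ hp) (by linarith)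
  have e4 := ptI_uu hδ hδ1 hs0 hs1 ht0 ht1
  have e5 := ptI_uq hδ hδ1 hs0 hs1 hsq2 hsq1
  have e6 := ptI_uq hδ hδ1 ht0 ht1 htq2 htq1
  -- the weighted inequalities
  have w1 : -(43 * B * δ) ≤ c2 / 2 * (s.u * (N * a / 4 - s.u) + t.u * (N * a / 4 - t.u)) := by
    have h1 : c2 / 2 * (-(86 * δ)) ≤ c2 / 2 * (s.u * (N * a / 4 - s.u) + t.u * (N * a / 4 - t.u)) :=
      mul_le_mul_of_nonneg_left (by linarith) (by linarith)
    have h2 : c2 * δ ≤ B * δ := mul_le_mul_of_nonneg_right hc2 hδ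
    linarith
  have w2 : -(43 * B * δ) ≤ c2s * ((s.u + t.u) / 2 * (N * b / 4 - (s.u + t.u) / 2)) := by
    have h1 : c2s * (-(43 * δ)) ≤ c2s * ((s.u + t.u) / 2 * (N * b / 4 - (s.u + t.u) / 2)) :=
      mul_le_mul_of_nonneg_left e3 g3
    have h2 : c2s * δ ≤ B * δ := mul_le_mul_of_nonneg_right hc2s hδ
    linarith
  have w3 : -(5 * B * δ) ≤ d1 * (s.u * t.u) := by
    have h1 : d1 * (-(5 * δ)) ≤ d1 * (s.u * t.u) := mul_le_mul_of_nonneg_left e4 g4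
    have h2 : d1 * δ ≤ B * δ := mul_le_mul_of_nonneg_right hd1 hδ
    linarith
  have w4 : c1 / 2 * (s.u * s.q + t.u * t.q) ≤ 6 * B * δ := by
    have h1 : c1 / 2 * (s.u * s.q + t.u * t.q) ≤ c1 / 2 * (12 * δ) :=
      mul_le_mul_of_nonneg_left (by linarith) (by linarith)
    have h2 : c1 * δ ≤ B * δ := mul_le_mul_of_nonneg_right hc1 hδ
    linarith
  have w5 : -(12 * B * δ) ≤ N * (lin - (c2 * a + c2s * b) / 4) * ((s.u + t.u) / 2) := by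
    have f0 : 0 ≤ lin - (c2 * a + c2s * b) / 4 := by linarith
    have h3 : -(10 * B) ≤ c2 * a := by
      have : c2 * (-10) ≤ c2 * a := mul_le_mul_of_nonneg_left hU1.1 g2
      linarith
    have h4 : -(10 * B) ≤ c2s * b := by
      have : c2s * (-10) ≤ c2s * b := mul_le_mul_of_nonneg_left hU2.1 g3
      linarith
    have f1 : lin - (c2 * a + c2s * b) / 4 ≤ 6 * B := by linarith
    have f2 : N * (lin - (c2 * a + c2s * b) / 4) ≤ 2 * (6 * B) :=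
      mul_le_mul hN3 f1 f0 (by norm_num)
    have f3 : 0 ≤ N * (lin - (c2 * a + c2s * b) / 4) := mul_nonneg hN0 f0
    have f4 := mul_le_mul_of_nonneg_left he0 f3
    have f5 := mul_le_mul_of_nonneg_right f2 hδ
    linarith
  have hid : -(c2 + c2s - d1) * (s.hs t).u ^ 2 - (c2 + d1) * (s.hd t).u ^ 2 -
      c1 * ((s.hs t).u * (s.hs t).q + (s.hd t).u * (s.hd t).q) + N * lin * (s.hs t).u =
      c2 / 2 * (s.u * (N * a / 4 - s.u) + t.u * (N * a / 4 - t.u)) +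
      c2s * ((s.u + t.u) / 2 * (N * b / 4 - (s.u + t.u) / 2)) + d1 * (s.u * t.u) -
      c1 / 2 * (s.u * s.q + t.u * t.q) +
      N * (lin - (c2 * a + c2s * b) / 4) * ((s.u + t.u) / 2) := by
    simp only [St.hs, St.hd]
    ring
  rw [hid]
  linarith

end Pool.Agent.MSQ
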