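import Pool.Agent.MSQ.JAll
import Pool.Agent.MSQ.CertI
import Pool.Agent.MSQ.CertZ
import Pool.Agent.MSQ.SFa
import Pool.Agent.MSQ.CPa
import Pool.Agent.MSQ.PtI
import Pool.Agent.MSQ.Edge
import Pool.Agent.MSQ.HypR
import Pool.Agent.MSQ.DivQ
import Pool.Agent.MSQ.EA1
import Pool.Agent.MSQ.EA2
/-!
IReg (120 lines). The interface y = 1 and the line y = 0.

PROOF. `ireg`: at y = 1 the values of V1S on (eS,oS) and on (eC,oC) agree, because V1q and the linear part only use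
u, q, p, ka and these agree (star1 for J and for J.ry). Put e = eC J x 1, o = oC J x 1,
 F(x) = ev x 1 w1e * (e.u)² + ev x 1 w1o * (o.u)²; F' = [m w1e_x e.u² + 2 w1e e.u e.p + (same with o)]/m (u_x = p/m).
certI (form) and ptI (if1 for J and J.ry, if2, |uv| ≤ 10: ea_bd, ea_bd2):
 -1000 B δ ≤ N (V1C - V1S) + m F'. Divide by m ≥ 1, integrate over [0,1] (everything continuous):
 N ∫ (V1C - V1S)/m ≥ -1000Bδ - (F(1) - F(0)); F(0) = 0 (certW), |F(1)| ≤ B' (2δ)² ≤ 4B'δ (edgeC at y = 1 for J and J.ry).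
 N = Nf 1 = 2/√3 ≥ 1.
`zreg`: at y = 0: eC J x 0 = ⟨u,0,p,μ,0,κ⟩, oC J x 0 = ⟨0,q,0,0,ν,0⟩ by AC_ry0 (HypR); certZ.
-/
namespace Pool.Agent.MSQ

private theorem IReg_m (x : ℝ) : 1 ≤ mf x := by
  unfold mf
  nlinarith [sq_nonneg x]

private theorem IReg_mc : Continuous mf := by
  unfold mf
  fun_prop

private theorem IReg_N1 : 1 ≤ Nf 1 := by
  unfold Nf
  rw [Real.one_le_sqrt]
  norm_num

/-- `V1q` depends only on `u, q, p, ka` -/
private theorem IReg_V1q (g : GB) (x y : ℝ) {s t : St} (h1 : s.u = t.u) (h2 : s.q = t.q)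
    (h3 : s.p = t.p) (h4 : s.ka = t.ka) : V1q g x y s = V1q g x y t := by
  unfold V1q
  rw [h1, h2, h3, h4]

private theorem IReg_V1S (J : Jet) (x : ℝ) :
    V1S x 1 (eS J x 1) (oS J x 1) = V1S x 1 (eC J x 1) (oC J x 1) := by
  obtain ⟨a1, a2, a3, -, a5, -, -⟩ := star1 J x
  obtain ⟨b1, b2, b3, -, b5, -, -⟩ := star1 J.ry x
  have e1 : (eS J x 1).u = (eC J x 1).u := by
    simp only [eS, eC, St.hs, a1, b1]
  have e2 : (eS J x 1).q = (eC J x 1).q := by
    simp only [eS, eC, St.hs, a2, b2]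
  have e3 : (eS J x 1).p = (eC J x 1).p := by
    simp only [eS, eC, St.hs, a3, b3]
  have e4 : (eS J x 1).ka = (eC J x 1).ka := by
    simp only [eS, eC, St.hs, a5, b5]
  have o1 : (oS J x 1).u = (oC J x 1).u := by
    simp only [oS, oC, St.hd, a1, b1]
  have o2 : (oS J x 1).q = (oC J x 1).q := by
    simp only [oS, oC, St.hd, a2, b2]
  have o3 : (oS J x 1).p = (oC J x 1).p := by
    simp only [oS, oC, St.hd, a3, b3]
  have o4 : (oS J x 1).ka = (oC J x 1).ka := by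
    simp only [oS, oC, St.hd, a5, b5]
  unfold V1S
  rw [IReg_V1q gSe x 1 e1 e2 e3 e4, IReg_V1q gSo x 1 o1 o2 o3 o4, e1, e2, e3]

private theorem IReg_line {f : ℝ × ℝ → ℝ} (hf : Continuous f) : Continuous fun x : ℝ => f (x, 1) :=
  hf.comp (by fun_prop)

/-- the flux function on the interface -/
private noncomputable def IRegF (J : Jet) (x : ℝ) : ℝ :=
  ev x 1 w1e * (eC J x 1).u ^ 2 + ev x 1 w1o * (oC J x 1).u ^ 2

private noncomputable def IRegG (J : Jet) (x : ℝ) : ℝ :=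
  (mf x * ev x 1 (pDX w1e) * (eC J x 1).u ^ 2 + 2 * ev x 1 w1e * (eC J x 1).u * (eC J x 1).p) +
      (mf x * ev x 1 (pDX w1o) * (oC J x 1).u ^ 2 + 2 * ev x 1 w1o * (oC J x 1).u * (oC J x 1).p)

private theorem IReg_deriv {J : Jet} (h : J.Good) (x : ℝ) :
    HasDerivAt (IRegF J) (IRegG J x / mf x) x := by
  obtain ⟨Z, E, he⟩ := js_eC J h
  obtain ⟨Z', E', ho⟩ := js_oC J h
  have hm : mf x ≠ 0 := by have := IReg_m x; positivity
  have h1 := (hasDerivAt_ev_x x 1 w1e).mul ((he.ux x 1).pow 2)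
  have h2 := (hasDerivAt_ev_x x 1 w1o).mul ((ho.ux x 1).pow 2)
  refine (h1.add h2).congr_deriv ?_
  unfold IRegG
  simp only [Pi.pow_apply]
  field_simp
  ring

private theorem IReg_cont {J : Jet} (h : J.Good) : Continuous fun x => IRegG J x / mf x := by
  obtain ⟨Z, E, he⟩ := js_eC J h
  obtain ⟨Z', E', ho⟩ := js_oC J h
  have e1 := IReg_line he.cu
  have e2 := IReg_line he.cp
  have o1 := IReg_line ho.cu
  have o2 := IReg_line ho.cp
  have a1 := IReg_line (continuous_ev w1e)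
  have a2 := IReg_line (continuous_ev (pDX w1e))
  have a3 := IReg_line (continuous_ev w1o)
  have a4 := IReg_line (continuous_ev (pDX w1o))
  have a5 := IReg_mc
  refine Continuous.div ?_ a5 fun x => ?_
  · unfold IRegG
    fun_prop
  · have := IReg_m x
    positivity

private theorem IReg_cC {J : Jet} (h : J.Good) :
    Continuous fun x => V1C x 1 (eC J x 1) (oC J x 1) / mf x := by
  obtain ⟨Z, E, he⟩ := js_eC J h
  obtain ⟨Z', E', ho⟩ := js_oC J h
  have v1 := IReg_line (cont_Vq he gCe).1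
  have v2 := IReg_line (cont_Vq ho gCo).1
  have e1 := IReg_line he.cu
  have e2 := IReg_line he.cq
  have a1 := IReg_line (continuous_ev cf1)
  have a2 := IReg_line (continuous_ev (pDY cf1))
  refine Continuous.div ?_ IReg_mc fun x => ?_
  · unfold V1C
    fun_prop
  · have := IReg_m x
    positivity

private theorem IReg_cS {J : Jet} (h : J.Good) :
    Continuous fun x => V1S x 1 (eC J x 1) (oC J x 1) / mf x := by
  obtain ⟨Z, E, he⟩ := js_eC J h
  obtain ⟨Z', E', ho⟩ := js_oC J h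
  have v1 := IReg_line (cont_Vq he gSe).1
  have v2 := IReg_line (cont_Vq ho gSo).1
  have e1 := IReg_line he.cu
  have e2 := IReg_line he.cq
  have e3 := IReg_line he.cp
  have a1 := IReg_line (continuous_ev sf1)
  have a2 := IReg_line (continuous_ev sf0)
  have a3 := IReg_line (continuous_ev sf2)
  refine Continuous.div ?_ IReg_mc fun x => ?_
  · unfold V1S
    fun_prop
  · have := IReg_m x
    positivity

theorem ireg : ∃ C : ℝ, 0 ≤ C ∧ ∀ (δ : ℝ) (J : Jet), Hyp J δ → 1 / 2 ≤ J.f (0, 0) →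
    -(C * δ) ≤ (∫ x in (0:ℝ)..1, V1C x 1 (eC J x 1) (oC J x 1) / mf x) -
      ∫ x in (0:ℝ)..1, V1S x 1 (eS J x 1) (oS J x 1) / mf x := by
  obtain ⟨B, hB, hcert⟩ := certI
  refine ⟨1000 * B + (|ev 1 1 w1e| + |ev 1 1 w1o|), by positivity, fun δ J h hb => ?_⟩
  have hδ := h.pos
  have hδ1 := h.le1
  -- replace the sliver states
  have eq1 : (∫ x in (0:ℝ)..1, V1S x 1 (eS J x 1) (oS J x 1) / mf x) =
      ∫ x in (0:ℝ)..1, V1S x 1 (eC J x 1) (oC J x 1) / mf x := by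
    simp only [IReg_V1S]
  rw [eq1]
  set VC : ℝ → ℝ := fun x => V1C x 1 (eC J x 1) (oC J x 1) / mf x with hVC
  set VS : ℝ → ℝ := fun x => V1S x 1 (eC J x 1) (oC J x 1) / mf x with hVS
  have cC : Continuous VC := IReg_cC h.good
  have cS : Continuous VS := IReg_cS h.good
  have cG := IReg_cont h.good
  -- pointwise inequality
  have pt : ∀ x : ℝ, 0 ≤ x → x ≤ 1 →
      -(1000 * B * δ) ≤ Nf 1 * (VC x - VS x) + IRegG J x / mf x := by
    intro x h0 h1
    obtain ⟨c1, c2, c2s, d1, lin, hG, b1, b2, b3, b4, b5⟩ := hcert x h0 h1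
    have hp := ptI δ x B c1 c2 c2s d1 lin (AC J x 1) (AC J.ry x 1) hδ.le hδ1 hG b1 b2 b3 b4 b5
      (ea_bd x 1 h0 h1 (by norm_num) le_rfl) (ea_bd2 x 1 h0 h1 (by norm_num) le_rfl)
      (if1 h x h0 h1) (if1 (hyp_ry h) x h0 h1) (if2 h hb x h0 h1)
    have hf := hG.form (eC J x 1) (oC J x 1)
    have hpf : -(1000 * B * δ) ≤ Nf 1 * (V1C x 1 (eC J x 1) (oC J x 1) -
        V1S x 1 (eC J x 1) (oC J x 1)) + IRegG J x := by
      refine le_trans hp (le_trans hf (le_of_eq ?_))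
      unfold IRegG
      ring
    have hm := IReg_m x
    have hm0 : 0 < mf x := by linarith
    have e : Nf 1 * (VC x - VS x) + IRegG J x / mf x =
        (Nf 1 * (V1C x 1 (eC J x 1) (oC J x 1) -
        V1S x 1 (eC J x 1) (oC J x 1)) + IRegG J x) / mf x := by
      rw [hVC, hVS]
      simp only
      field_simp
    rw [e, le_div_iff₀ hm0]
    have hBδ : 0 ≤ 1000 * B * δ := by positivity
    nlinarith
  -- integrate
  have int1 : ∫ x in (0:ℝ)..1, IRegG J x / mf x = IRegF J 1 - IRegF J 0 :=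
    intervalIntegral.integral_eq_sub_of_hasDerivAt (fun x _ => IReg_deriv h.good x)
      (cG.intervalIntegrable _ _)
  have int2 : ∫ x in (0:ℝ)..1, (Nf 1 * (VC x - VS x) + IRegG J x / mf x) =
      Nf 1 * ((∫ x in (0:ℝ)..1, VC x) - ∫ x in (0:ℝ)..1, VS x) + (IRegF J 1 - IRegF J 0) := by
    have c1 : Continuous fun x => Nf 1 * (VC x - VS x) := continuous_const.mul (cC.sub cS)
    rw [intervalIntegral.integral_add (c1.intervalIntegrable _ _)
      (cG.intervalIntegrable _ _), intervalIntegral.integral_const_mul,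
      intervalIntegral.integral_sub (cC.intervalIntegrable _ _) (cS.intervalIntegrable _ _), int1]
  have int3 : ∫ _x in (0:ℝ)..1, (-(1000 * B * δ)) ≤
      ∫ x in (0:ℝ)..1, (Nf 1 * (VC x - VS x) + IRegG J x / mf x) := by
    refine intervalIntegral.integral_mono_on zero_le_one
      (continuous_const.intervalIntegrable _ _)
      (((continuous_const.mul (cC.sub cS)).add cG).intervalIntegrable _ _) fun x hx => ?_
    exact pt x hx.1 hx.2
  rw [int2, intervalIntegral.integral_const, sub_zero, one_smul] at int3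
  -- boundary terms
  have F0 : IRegF J 0 = 0 := by
    unfold IRegF
    rw [certW.1, certW.2]
    ring
  have F1 : IRegF J 1 ≤ (|ev 1 1 w1e| + |ev 1 1 w1o|) * δ := by
    obtain ⟨a1, -, -⟩ := edgeC h 1 (by norm_num) le_rfl
    obtain ⟨a2, -, -⟩ := edgeC (hyp_ry h) 1 (by norm_num) le_rfl
    rw [abs_le] at a1 a2
    have e1 : (eC J 1 1).u = ((AC J 1 1).u + (AC J.ry 1 1).u) / 2 := rfl
    have e2 : (oC J 1 1).u = ((AC J 1 1).u - (AC J.ry 1 1).u) / 2 := rfl
    have s1 : (eC J 1 1).u ^ 2 ≤ δ := by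
      rw [e1]
      have h1 : ((AC J 1 1).u + (AC J.ry 1 1).u) / 2 ≤ δ := by linarith [a1.2, a2.2]
      have h2 : -δ ≤ ((AC J 1 1).u + (AC J.ry 1 1).u) / 2 := by linarith [a1.1, a2.1]
      have h3 : (((AC J 1 1).u + (AC J.ry 1 1).u) / 2) ^ 2 ≤ δ ^ 2 := sq_le_sq' h2 h1
      nlinarith
    have s2 : (oC J 1 1).u ^ 2 ≤ δ := by
      rw [e2]
      have h1 : ((AC J 1 1).u - (AC J.ry 1 1).u) / 2 ≤ δ := by linarith [a1.2, a2.1]
      have h2 : -δ ≤ ((AC J 1 1).u - (AC J.ry 1 1).u) / 2 := by linarith [a1.1, a2.2]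
      have h3 : (((AC J 1 1).u - (AC J.ry 1 1).u) / 2) ^ 2 ≤ δ ^ 2 := sq_le_sq' h2 h1
      nlinarith
    unfold IRegF
    have t1 : ev 1 1 w1e * (eC J 1 1).u ^ 2 ≤ |ev 1 1 w1e| * δ :=
      (mul_le_mul_of_nonneg_right (le_abs_self _) (sq_nonneg _)).trans
        (mul_le_mul_of_nonneg_left s1 (abs_nonneg _))
    have t2 : ev 1 1 w1o * (oC J 1 1).u ^ 2 ≤ |ev 1 1 w1o| * δ :=
      (mul_le_mul_of_nonneg_right (le_abs_self _) (sq_nonneg _)).trans
        (mul_le_mul_of_nonneg_left s2 (abs_nonneg _))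
    rw [add_mul]
    exact add_le_add t1 t2
  rw [F0, sub_zero] at int3
  have hN := IReg_N1
  have hN0 : 0 < Nf 1 := by linarith
  set C : ℝ := 1000 * B + (|ev 1 1 w1e| + |ev 1 1 w1o|) with hC
  have hCδ : 0 ≤ C * δ := by positivity
  have h4 : -(C * δ) ≤ Nf 1 * ((∫ x in (0:ℝ)..1, VC x) - ∫ x in (0:ℝ)..1, VS x) := by
    have : C * δ = 1000 * B * δ + (|ev 1 1 w1e| + |ev 1 1 w1o|) * δ := by rw [hC]; ring
    linarith
  by_contra hcon
  rw [not_le] at hcon
  have h5 : Nf 1 * ((∫ x in (0:ℝ)..1, VC x) - ∫ x in (0:ℝ)..1, VS x) < Nf 1 * (-(C * δ)) :=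
    mul_lt_mul_of_pos_left hcon hN0
  nlinarith
theorem zreg (δ : ℝ) (J : Jet) (h : Hyp J δ) :
    (∫ x in (0:ℝ)..1, V1C x 0 (eC J x 0) (oC J x 0) / mf x) ≤ 0 := by
  have _ := h
  have pt : ∀ x ∈ Set.Icc (0:ℝ) 1, 0 ≤ -(V1C x 0 (eC J x 0) (oC J x 0) / mf x) := by
    intro x hx
    have e1 : eC J x 0 = ⟨(AC J x 0).u, 0, (AC J x 0).p, (AC J x 0).mu, 0, (AC J x 0).ka⟩ := by
      unfold eC
      rw [AC_ry0]
      simp only [St.hs, St.fy, St.mk.injEq]
      refine ⟨?_, ?_, ?_, ?_, ?_, ?_⟩ <;> ring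
    have e2 : oC J x 0 = ⟨0, (AC J x 0).q, 0, 0, (AC J x 0).nu, 0⟩ := by
      unfold oC
      rw [AC_ry0]
      simp only [St.hd, St.fy, St.mk.injEq]
      refine ⟨?_, ?_, ?_, ?_, ?_, ?_⟩ <;> ring
    rw [e1, e2]
    have := certZ x hx.1 hx.2 (AC J x 0).u (AC J x 0).p (AC J x 0).q (AC J x 0).mu (AC J x 0).nu
      (AC J x 0).ka
    have hm := IReg_m x
    have hm0 : 0 < mf x := by linarith
    rw [← neg_div]
    exact div_nonneg (by linarith) hm0.le
  have := intervalIntegral.integral_nonneg (μ := MeasureTheory.volume) zero_le_one pt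
  rw [intervalIntegral.integral_neg] at this
  linarith

end Pool.Agent.MSQ
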