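import Pool.Agent.MSQ.DataE
/-!
KI. Kernel computations: positivity checks of the certificate (already proved).
-/
namespace Pool.Agent.MSQ

set_option maxRecDepth 100000

theorem kIe0 : iE gCe gSe w1e ic2_0 ic2s_0 id1_0 0 1 6 = true := by
  decide +kernel
theorem kIe1 : iE gCe gSe w1e ic2_1 ic2s_1 id1_1 1 2 6 = true := by
  decide +kernel
theorem kIe2 : iE gCe gSe w1e ic2_2 ic2s_2 id1_2 2 3 6 = true := by
  decide +kernel
theorem kIe3 : iE gCe gSe w1e ic2_3 ic2s_3 id1_3 3 4 6 = true := by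
  decide +kernel
theorem kIe4 : iE gCe gSe w1e ic2_4 ic2s_4 id1_4 4 5 6 = true := by
  decide +kernel
theorem kIe5 : iE gCe gSe w1e ic2_5 ic2s_5 id1_5 5 6 6 = true := by
  decide +kernel
theorem kIo0 : iO gCo gSo w1o ic2_0 id1_0 0 1 6 = true := by
  decide +kernel
theorem kIo1 : iO gCo gSo w1o ic2_1 id1_1 1 2 6 = true := by
  decide +kernel
theorem kIo2 : iO gCo gSo w1o ic2_2 id1_2 2 3 6 = true := by
  decide +kernel
theorem kIo3 : iO gCo gSo w1o ic2_3 id1_3 3 4 6 = true := by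
  decide +kernel
theorem kIo4 : iO gCo gSo w1o ic2_4 id1_4 4 5 6 = true := by
  decide +kernel
theorem kIo5 : iO gCo gSo w1o ic2_5 id1_5 5 6 6 = true := by
  decide +kernel
theorem kIp0 : iP gCe gSe ic2_0 ic2s_0 id1_0 0 1 6 = true := by
  decide +kernel
theorem kIp1 : iP gCe gSe ic2_1 ic2s_1 id1_1 1 2 6 = true := by
  decide +kernel
theorem kIp2 : iP gCe gSe ic2_2 ic2s_2 id1_2 2 3 6 = true := by
  decide +kernel
theorem kIp3 : iP gCe gSe ic2_3 ic2s_3 id1_3 3 4 6 = true := by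
  decide +kernel
theorem kIp4 : iP gCe gSe ic2_4 ic2s_4 id1_4 4 5 6 = true := by
  decide +kernel
theorem kIp5 : iP gCe gSe ic2_5 ic2s_5 id1_5 5 6 6 = true := by
  decide +kernel
theorem kIl0 : iL cf1 sf0 UE1 UE2 ic2_0 ic2s_0 0 1 6 = true := by
  decide +kernel
theorem kIl1 : iL cf1 sf0 UE1 UE2 ic2_1 ic2s_1 1 2 6 = true := by
  decide +kernel
theorem kIl2 : iL cf1 sf0 UE1 UE2 ic2_2 ic2s_2 2 3 6 = true := by
  decide +kernel
theorem kIl3 : iL cf1 sf0 UE1 UE2 ic2_3 ic2s_3 3 4 6 = true := by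
  decide +kernel
theorem kIl4 : iL cf1 sf0 UE1 UE2 ic2_4 ic2s_4 4 5 6 = true := by
  decide +kernel
theorem kIl5 : iL cf1 sf0 UE1 UE2 ic2_5 ic2s_5 5 6 6 = true := by
  decide +kernel

end Pool.Agent.MSQ
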