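import Pool.Agent.MSQ.ChkS
import Pool.Agent.MSQ.EvA
import Pool.Agent.MSQ.KI
import Pool.Agent.MSQ.KZ
/-!
IntC (110 lines). The interface conditions, from the checks.

PROOF. `iGood1`: put c1 = ev x 1 gSe.G12 - ev x 1 gCe.G12, c2 = ev x 1 c2, ..., lin = -ev x 1 (pDY cf1) - ev x 1 sf0.
chkM_sound at the point (x, 1) (y-range [0,1]) with ev_at1 (ev x 1 (at1 p) = ev x 1 p).
 * iP: nonnegativity of c2, c2s, d1, c1.
 * iL: 0 ≤ 4 QE lin - c2 ev(UE1) - c2s ev(UE2) → hlin (uv = ev/QE).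
 * iE (n = 2, s = [e.u, e.p]): 0 ≤ 2 [ (ΔG11/2 + m w1e_x + c2 + c2s - d1) e.u^2 + (ΔG13 + 2 w1e) e.u e.p +
   ΔG33/2 e.p^2 ], Δ = core - sliver at y = 1, M2 (pDX w1e) = 2 m w1e_x; iO the same for the odd block with
   c2 + d1.
 * Nf 1 * V1q g x 1 s is the numerator of V1q (Nf 1 > 0). In N (V1C - V1S) the terms with G22, G23, K cancel
   (kZ5 - kZ10 with ev_eqP, ev_at1), ΔG12 = -c1 for both blocks (kZ11), and the linear part is
   N lin e.u because cf1, sf1, sf2 vanish at y = 1 (kZ2, kZ3, kZ4 with ev_isZ, ev_at1).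
`intC`: for 0 ≤ x ≤ 1 choose the interval [k/6,(k+1)/6] containing x (k = 0..5, checks kIe.., KI.lean), the
bound B from ev_bdd-like compactness is not needed here.
-/
namespace Pool.Agent.MSQ

/-- numerator of the quadratic gauge at `y = 1` -/
private noncomputable def IntC_num (g : GB) (x : ℝ) (s : St) : ℝ :=
  ev x 1 g.G11 * s.u ^ 2 / 2 + ev x 1 g.G12 * s.u * s.q + ev x 1 g.G22 * s.q ^ 2 / 2 +
    ev x 1 g.G13 * s.u * s.p + ev x 1 g.G23 * s.q * s.p + ev x 1 g.G33 * s.p ^ 2 / 2 +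
    ev x 1 g.K * s.q * (s.ka - s.u + 1 * s.q)

private theorem IntC_Npos : 0 < Nf 1 := by
  unfold Nf
  exact Real.sqrt_pos.mpr (by norm_num)

private theorem IntC_V (g : GB) (x : ℝ) (s : St) : Nf 1 * V1q g x 1 s = IntC_num g x s := by
  unfold V1q IntC_num
  exact mul_div_cancel₀ _ IntC_Npos.ne'

private theorem IntC_c1 (E : P) (a b q : Int) (x : ℝ) (h0 : (a : ℝ) ≤ (q : ℝ) * x)
    (h1 : (q : ℝ) * x ≤ (b : ℝ)) (h : chkM 1 [E] a b q 0 1 1 = true) : 0 ≤ ev x 1 E := by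
  have h2 := chkM_sound 1 [E] a b q 0 1 1 h x 1 h0 h1 (by norm_num) (by norm_num) [1] rfl
  simpa [evE, qf, dotL] using h2

private theorem IntC_c2 (A B C : P) (a b q : Int) (x : ℝ) (h0 : (a : ℝ) ≤ (q : ℝ) * x)
    (h1 : (q : ℝ) * x ≤ (b : ℝ)) (h : chkM 2 [A, B, C] a b q 0 1 1 = true) (u p : ℝ) :
    0 ≤ ev x 1 A * u ^ 2 + ev x 1 B * u * p + ev x 1 C * p ^ 2 := by
  have h2 := chkM_sound 2 [A, B, C] a b q 0 1 1 h x 1 h0 h1 (by norm_num) (by norm_num) [u, p] rfl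
  have e : qf (evE x 1 [A, B, C]) [u, p] =
      ev x 1 A * u ^ 2 + ev x 1 B * u * p + ev x 1 C * p ^ 2 := by
    simp [evE, qf, dotL]
    ring
  rw [e] at h2
  exact h2

private theorem IntC_eq (x : ℝ) (p q : P) (h : eqP (at1 p) (at1 q) = true) :
    ev x 1 p = ev x 1 q := by
  have h1 := ev_eqP x 1 _ _ h
  rwa [ev_at1, ev_at1] at h1

private theorem IntC_z (x : ℝ) (p : P) (h : isZ (at1 p) = true) : ev x 1 p = 0 := by
  have h1 := ev_isZ x 1 _ h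
  rwa [ev_at1] at h1

private theorem IntC_E (gc gs : GB) (w c2 c2s d1 : P) (a b q : Int) (x : ℝ)
    (h0 : (a : ℝ) ≤ (q : ℝ) * x) (h1 : (q : ℝ) * x ≤ (b : ℝ))
    (h : iE gc gs w c2 c2s d1 a b q = true) (u p : ℝ) :
    0 ≤ ((ev x 1 gc.G11 - ev x 1 gs.G11) + (2 + x ^ 2) * ev x 1 (pDX w) + 2 * ev x 1 c2 +
      2 * ev x 1 c2s - 2 * ev x 1 d1) * u ^ 2 +
      (2 * (ev x 1 gc.G13 - ev x 1 gs.G13) + 4 * ev x 1 w) * u * p +
      (ev x 1 gc.G33 - ev x 1 gs.G33) * p ^ 2 := by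
  have h2 := IntC_c2 _ _ _ a b q x h0 h1 h u p
  simp only [ev_sumP, List.map_cons, List.map_nil, List.sum_cons, List.sum_nil, ev_pAdd, ev_pSm,
    ev_M2, ev_at1] at h2
  push_cast at h2
  linarith

private theorem IntC_O (gc gs : GB) (w c2 d1 : P) (a b q : Int) (x : ℝ)
    (h0 : (a : ℝ) ≤ (q : ℝ) * x) (h1 : (q : ℝ) * x ≤ (b : ℝ))
    (h : iO gc gs w c2 d1 a b q = true) (u p : ℝ) :
    0 ≤ ((ev x 1 gc.G11 - ev x 1 gs.G11) + (2 + x ^ 2) * ev x 1 (pDX w) + 2 * ev x 1 c2 +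
      2 * ev x 1 d1) * u ^ 2 +
      (2 * (ev x 1 gc.G13 - ev x 1 gs.G13) + 4 * ev x 1 w) * u * p +
      (ev x 1 gc.G33 - ev x 1 gs.G33) * p ^ 2 := by
  have h2 := IntC_c2 _ _ _ a b q x h0 h1 h u p
  simp only [ev_sumP, List.map_cons, List.map_nil, List.sum_cons, List.sum_nil, ev_pAdd, ev_pSm,
    ev_M2, ev_at1] at h2
  push_cast at h2
  linarith

private theorem IntC_P (gc gs : GB) (c2 c2s d1 : P) (a b q : Int) (x : ℝ)
    (h0 : (a : ℝ) ≤ (q : ℝ) * x) (h1 : (q : ℝ) * x ≤ (b : ℝ))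
    (h : iP gc gs c2 c2s d1 a b q = true) :
    0 ≤ ev x 1 c2 ∧ 0 ≤ ev x 1 c2s ∧ 0 ≤ ev x 1 d1 ∧ 0 ≤ ev x 1 gs.G12 - ev x 1 gc.G12 := by
  unfold iP at h
  simp only [Bool.and_eq_true] at h
  obtain ⟨⟨⟨ha, hb⟩, hc⟩, hd⟩ := h
  refine ⟨IntC_c1 _ a b q x h0 h1 ha, IntC_c1 _ a b q x h0 h1 hb, IntC_c1 _ a b q x h0 h1 hc, ?_⟩
  have h2 := IntC_c1 _ a b q x h0 h1 hd
  rw [ev_pAdd, ev_pSm, ev_at1, ev_at1] at h2
  push_cast at h2
  linarith

private theorem IntC_L (f1 s0 u1 u2 c2 c2s : P) (a b q : Int) (x : ℝ)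
    (h0 : (a : ℝ) ≤ (q : ℝ) * x) (h1 : (q : ℝ) * x ≤ (b : ℝ))
    (h : iL f1 s0 u1 u2 c2 c2s a b q = true) :
    (ev x 1 c2 * uv x 1 u1 + ev x 1 c2s * uv x 1 u2) / 4 ≤ -ev x 1 (pDY f1) - ev x 1 s0 := by
  have hQ : (0:ℝ) < (QE : ℝ) := by
    unfold QE qE
    norm_num
  have h2 := IntC_c1 _ a b q x h0 h1 h
  simp only [ev_sumP, List.map_cons, List.map_nil, List.sum_cons, List.sum_nil, ev_pSm,
    ev_pMul, ev_at1] at h2
  push_cast at h2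
  unfold uv
  have e : (ev x 1 c2 * (ev x 1 u1 / (QE : ℝ)) + ev x 1 c2s * (ev x 1 u2 / (QE : ℝ))) / 4 =
      (ev x 1 c2 * ev x 1 u1 + ev x 1 c2s * ev x 1 u2) / (4 * QE) := by
    field_simp
  rw [e, div_le_iff₀ (by positivity)]
  linarith

private theorem IntC_alg (gce gco gse gso : GB) (x N f q1 q2 s0 a1 a2 we wex wo wox c2 c2s d1 : ℝ)
    (e o : St)
    (hf : f = 0) (h1 : a1 = 0) (h2 : a2 = 0)
    (k1 : ev x 1 gce.K = ev x 1 gse.K) (k2 : ev x 1 gco.K = ev x 1 gso.K)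
    (k3 : ev x 1 gce.G22 = ev x 1 gse.G22) (k4 : ev x 1 gco.G22 = ev x 1 gso.G22)
    (k5 : ev x 1 gce.G23 = ev x 1 gse.G23) (k6 : ev x 1 gco.G23 = ev x 1 gso.G23)
    (k7 : ev x 1 gce.G12 - ev x 1 gse.G12 = ev x 1 gco.G12 - ev x 1 gso.G12)
    (hE : 0 ≤ ((ev x 1 gce.G11 - ev x 1 gse.G11) + (2 + x ^ 2) * wex + 2 * c2 +
      2 * c2s - 2 * d1) * e.u ^ 2 +
      (2 * (ev x 1 gce.G13 - ev x 1 gse.G13) + 4 * we) * e.u * e.p +
      (ev x 1 gce.G33 - ev x 1 gse.G33) * e.p ^ 2)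
    (hO : 0 ≤ ((ev x 1 gco.G11 - ev x 1 gso.G11) + (2 + x ^ 2) * wox + 2 * c2 +
      2 * d1) * o.u ^ 2 +
      (2 * (ev x 1 gco.G13 - ev x 1 gso.G13) + 4 * wo) * o.u * o.p +
      (ev x 1 gco.G33 - ev x 1 gso.G33) * o.p ^ 2)
    (hq : q1 = IntC_num gce x e + IntC_num gco x o + N * (f * e.q - s0 * e.u))
    (hq' : q2 = IntC_num gse x e + IntC_num gso x o + N * (a1 * e.q + d1 * 0 + a2 * e.p)) :
    -(c2 + c2s - d1) * e.u ^ 2 - (c2 + d1) * o.u ^ 2 -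
      (ev x 1 gse.G12 - ev x 1 gce.G12) * (e.u * e.q + o.u * o.q) + N * (-s0) * e.u ≤
    (q1 - q2) +
      (mf x * wex * e.u ^ 2 + 2 * we * e.u * e.p) +
      (mf x * wox * o.u ^ 2 + 2 * wo * o.u * o.p) := by
  subst hf h1 h2
  rw [hq, hq']
  unfold IntC_num mf
  rw [k1, k2, k3, k4, k5, k6]
  have k8 : ev x 1 gce.G12 = ev x 1 gse.G12 + (ev x 1 gco.G12 - ev x 1 gso.G12) := by linarith
  rw [k8]
  nlinarith [hE, hO]

theorem iGood1 (a b q : Int) (c2 c2s d1 : P) (x : ℝ) (h0 : (a : ℝ) ≤ (q : ℝ) * x)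
    (h1 : (q : ℝ) * x ≤ (b : ℝ)) (hE : iE gCe gSe w1e c2 c2s d1 a b q = true)
    (hO : iO gCo gSo w1o c2 d1 a b q = true) (hP : iP gCe gSe c2 c2s d1 a b q = true)
    (hL : iL cf1 sf0 UE1 UE2 c2 c2s a b q = true) :
    IGood x (ev x 1 gSe.G12 - ev x 1 gCe.G12) (ev x 1 c2) (ev x 1 c2s) (ev x 1 d1)
      (-ev x 1 (pDY cf1) - ev x 1 sf0) := by
  obtain ⟨p1, p2, p3, p4⟩ := IntC_P gCe gSe c2 c2s d1 a b q x h0 h1 hP
  refine ⟨p4, p1, p2, p3, IntC_L cf1 sf0 UE1 UE2 c2 c2s a b q x h0 h1 hL, ?_⟩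
  intro e o
  have hE' := IntC_E gCe gSe w1e c2 c2s d1 a b q x h0 h1 hE e.u e.p
  have hO' := IntC_O gCo gSo w1o c2 d1 a b q x h0 h1 hO o.u o.p
  have k7 : ev x 1 gCe.G12 - ev x 1 gSe.G12 = ev x 1 gCo.G12 - ev x 1 gSo.G12 := by
    have h2 := ev_eqP x 1 _ _ kZ11
    rw [ev_pAdd, ev_pSm, ev_pAdd, ev_pSm, ev_at1, ev_at1, ev_at1, ev_at1] at h2
    push_cast at h2
    linarith
  have key := IntC_alg gCe gCo gSe gSo x (Nf 1) (ev x 1 cf1)
    (IntC_num gCe x e + IntC_num gCo x o + Nf 1 * (ev x 1 cf1 * e.q -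
      (ev x 1 (pDY cf1) + ev x 1 sf0) * e.u))
    (IntC_num gSe x e + IntC_num gSo x o + Nf 1 * (ev x 1 sf1 * e.q + ev x 1 d1 * 0 +
      ev x 1 sf2 * e.p))
    (ev x 1 (pDY cf1) + ev x 1 sf0) (ev x 1 sf1) (ev x 1 sf2) (ev x 1 w1e) (ev x 1 (pDX w1e))
    (ev x 1 w1o) (ev x 1 (pDX w1o)) (ev x 1 c2) (ev x 1 c2s) (ev x 1 d1) e o
    (IntC_z x cf1 kZ2) (IntC_z x sf1 kZ3) (IntC_z x sf2 kZ4)
    (IntC_eq x _ _ kZ5) (IntC_eq x _ _ kZ6) (IntC_eq x _ _ kZ7) (IntC_eq x _ _ kZ8)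
    (IntC_eq x _ _ kZ9) (IntC_eq x _ _ kZ10) k7 hE' hO' rfl rfl
  have e1 : Nf 1 * (V1C x 1 e o - V1S x 1 e o) =
      (IntC_num gCe x e + IntC_num gCo x o + Nf 1 * (ev x 1 cf1 * e.q -
      (ev x 1 (pDY cf1) + ev x 1 sf0) * e.u)) -
      (IntC_num gSe x e + IntC_num gSo x o + Nf 1 * (ev x 1 sf1 * e.q + ev x 1 d1 * 0 +
      ev x 1 sf2 * e.p)) := by
    rw [← IntC_V gCe x e, ← IntC_V gCo x o, ← IntC_V gSe x e, ← IntC_V gSo x o]
    unfold V1C V1S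
    ring
  rw [e1]
  have e2 : -ev x 1 (pDY cf1) - ev x 1 sf0 = -(ev x 1 (pDY cf1) + ev x 1 sf0) := by ring
  rw [e2]
  exact key

theorem intC (x : ℝ) (h0 : 0 ≤ x) (h1 : x ≤ 1) :
    ∃ c2 c2s d1 : P, (c2 ∈ [ic2_0, ic2_1, ic2_2, ic2_3, ic2_4, ic2_5]) ∧
      (c2s ∈ [ic2s_0, ic2s_1, ic2s_2, ic2s_3, ic2s_4, ic2s_5]) ∧
      (d1 ∈ [id1_0, id1_1, id1_2, id1_3, id1_4, id1_5]) ∧
      IGood x (ev x 1 gSe.G12 - ev x 1 gCe.G12) (ev x 1 c2) (ev x 1 c2s) (ev x 1 d1)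
        (-ev x 1 (pDY cf1) - ev x 1 sf0) := by
  rcases le_or_gt (6 * x) 1 with c | c
  · exact ⟨ic2_0, ic2s_0, id1_0, by simp only [List.mem_cons, true_or, or_true],
      by simp only [List.mem_cons, true_or, or_true],
      by simp only [List.mem_cons, true_or, or_true],
      iGood1 0 1 6 _ _ _ x (by push_cast; linarith) (by push_cast; linarith) kIe0 kIo0 kIp0 kIl0⟩
  rcases le_or_gt (6 * x) 2 with d | d
  · exact ⟨ic2_1, ic2s_1, id1_1, by simp only [List.mem_cons, true_or, or_true],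
      by simp only [List.mem_cons, true_or, or_true],
      by simp only [List.mem_cons, true_or, or_true],
      iGood1 1 2 6 _ _ _ x (by push_cast; linarith) (by push_cast; linarith) kIe1 kIo1 kIp1 kIl1⟩
  rcases le_or_gt (6 * x) 3 with d' | d'
  · exact ⟨ic2_2, ic2s_2, id1_2, by simp only [List.mem_cons, true_or, or_true],
      by simp only [List.mem_cons, true_or, or_true],
      by simp only [List.mem_cons, true_or, or_true],
      iGood1 2 3 6 _ _ _ x (by push_cast; linarith) (by push_cast; linarith) kIe2 kIo2 kIp2 kIl2⟩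
  rcases le_or_gt (6 * x) 4 with f | f
  · exact ⟨ic2_3, ic2s_3, id1_3, by simp only [List.mem_cons, true_or, or_true],
      by simp only [List.mem_cons, true_or, or_true],
      by simp only [List.mem_cons, true_or, or_true],
      iGood1 3 4 6 _ _ _ x (by push_cast; linarith) (by push_cast; linarith) kIe3 kIo3 kIp3 kIl3⟩
  rcases le_or_gt (6 * x) 5 with g | g
  · exact ⟨ic2_4, ic2s_4, id1_4, by simp only [List.mem_cons, true_or, or_true],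
      by simp only [List.mem_cons, true_or, or_true],
      by simp only [List.mem_cons, true_or, or_true],
      iGood1 4 5 6 _ _ _ x (by push_cast; linarith) (by push_cast; linarith) kIe4 kIo4 kIp4 kIl4⟩
  · exact ⟨ic2_5, ic2s_5, id1_5, by simp only [List.mem_cons, true_or, or_true],
      by simp only [List.mem_cons, true_or, or_true],
      by simp only [List.mem_cons, true_or, or_true],
      iGood1 5 6 6 _ _ _ x (by push_cast; linarith) (by push_cast; linarith) kIe5 kIo5 kIp5 kIl5⟩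

end Pool.Agent.MSQ
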