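import Pool.Agent.MSQ.Defs
/-!
JStar (90 lines). The three explicit state fields satisfy the relations `JS` with Z = E = 0.

PROOF. `Nf y = √(1+y^2/3)`: HasDerivAt Nf (y/(3 Nf y)) y (Nf > 0), `wf x`: HasDerivAt wf (x/(2 wf x)) x,
wf x ^2 = mf x, Nf y ^2 = 1 + y^2/3.
lSt: u = N, q = N' = y/(3N), q' = 1/(3N) - y^2/(9N^3) = (3N^2 - y^2)/(9 N^3) = 1/(3N^3) = μ, ν = p = 0,
 px: (κ - u + y q)/(2m) = (1/N - N + y^2/(3N))/(2m) = 0 since N^2 = 1 + y^2/3; κ' = -y/(3 N^3) = -y μ.
 mux: derivative in x of 1/(3 N(y)^3) is 0.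
starC: u = s3 - cc/(2w): u_x = cc w'/(2 w^2) = cc x/(4 w^3) = p/m; p_x = (cc/4)(1/w - x^2/(2 w^3)) =
 (cc/4)/w^3 (w^2 - x^2/2 = 1) and (κ - u)/(2m) = (cc/(2w))/(2 w^2); κ = s3 constant.
starS: u = N - y/(2√3) - cc/(2w): the sum of the two; px: κ - u + y q = 1/N - N + y/(2√3) + cc/(2w) +
 y^2/(3N) - y/(2√3) = cc/(2w).
Continuity: all functions are continuous (wf, Nf positive).
-/
namespace Pool.Agent.MSQ

private theorem JStar_N2 (y : ℝ) : Nf y ^ 2 = 1 + y ^ 2 / 3 :=
  Real.sq_sqrt (by positivity)

private theorem JStar_Npos (y : ℝ) : 0 < Nf y := Real.sqrt_pos.2 (by positivity)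

private theorem JStar_w2 (x : ℝ) : wf x ^ 2 = mf x := Real.sq_sqrt (by unfold mf; positivity)

private theorem JStar_mpos (x : ℝ) : 0 < mf x := by
  unfold mf
  positivity

private theorem JStar_wpos (x : ℝ) : 0 < wf x := Real.sqrt_pos.2 (JStar_mpos x)

private theorem JStar_dN (y : ℝ) : HasDerivAt Nf (y / (3 * Nf y)) y := by
  have h1 : HasDerivAt (fun y : ℝ => 1 + y ^ 2 / 3) (2 * y / 3) y := by
    have h2 : HasDerivAt (fun y : ℝ => y ^ 2) (2 * y) y := by
      have := hasDerivAt_pow 2 y
      simpa using this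
    exact (h2.div_const 3).const_add 1
  have h3 := h1.sqrt (by positivity)
  refine h3.congr_deriv ?_
  change 2 * y / 3 / (2 * Nf y) = y / (3 * Nf y)
  have h4 := (JStar_Npos y).ne'
  field_simp

private theorem JStar_dw (x : ℝ) : HasDerivAt wf (x / (2 * wf x)) x := by
  have h1 : HasDerivAt mf x x := by
    have h2 : HasDerivAt (fun y : ℝ => y ^ 2) (2 * x) x := by
      have := hasDerivAt_pow 2 x
      simpa using this
    have h3 := (h2.div_const 2).const_add 1
    refine h3.congr_deriv ?_
    ring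
  exact h1.sqrt (JStar_mpos x).ne'

private theorem JStar_cN : Continuous Nf := by
  unfold Nf
  fun_prop

private theorem JStar_cw : Continuous wf := by
  unfold wf mf
  fun_prop

/-- derivative of `N'` -/
private theorem JStar_dq (y : ℝ) :
    HasDerivAt (fun t => t / (3 * Nf t)) (1 / (3 * Nf y ^ 3)) y := by
  have h0 := (JStar_Npos y).ne'
  have h1 := (hasDerivAt_id y).div ((JStar_dN y).const_mul 3) (by positivity)
  refine h1.congr_deriv ?_
  have h2 := JStar_N2 y
  simp only [id]
  field_simp
  linear_combination 3 * h2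

private theorem JStar_dk (y : ℝ) :
    HasDerivAt (fun t => 1 / Nf t) (2 * 0 - y * (1 / (3 * Nf y ^ 3))) y := by
  have h0 := (JStar_Npos y).ne'
  have h1 := (JStar_dN y).inv h0
  have h2 : (fun t => 1 / Nf t) = fun t => (Nf t)⁻¹ := by
    funext t
    exact one_div _
  rw [h2]
  refine h1.congr_deriv ?_
  field_simp
  ring

/-- derivative of `1/(2w)` -/
private theorem JStar_du (x : ℝ) :
    HasDerivAt (fun t => cc / (2 * wf t)) (-(cc * x / (4 * wf x) / mf x)) x := by
  have h0 := (JStar_wpos x).ne'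
  have h1 := (((JStar_dw x).const_mul 2).inv (by positivity)).const_mul cc
  have h2 : (fun t => cc / (2 * wf t)) = fun t => cc * (2 * wf t)⁻¹ := by
    funext t
    exact div_eq_mul_inv _ _
  rw [h2]
  refine h1.congr_deriv ?_
  rw [← JStar_w2 x]
  field_simp
  ring

private theorem JStar_dp (x : ℝ) :
    HasDerivAt (fun t => cc * t / (4 * wf t)) (cc / (2 * wf x) / (2 * mf x)) x := by
  have h0 := (JStar_wpos x).ne'
  have h1 := ((hasDerivAt_id x).const_mul cc).div ((JStar_dw x).const_mul 4) (by positivity)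
  refine h1.congr_deriv ?_
  have h2 := JStar_w2 x
  have h3 : mf x = 1 + x ^ 2 / 2 := rfl
  rw [h3] at h2
  simp only [id]
  rw [← JStar_w2 x]
  field_simp
  linear_combination 4 * cc * h2

private theorem JStar_c1 : Continuous fun z : ℝ × ℝ => z.2 / (3 * Nf z.2) :=
  continuous_snd.div ((JStar_cN.comp continuous_snd).const_smul (3 : ℝ))
    fun z => by
      have := JStar_Npos z.2
      positivity

private theorem JStar_c2 : Continuous fun z : ℝ × ℝ => 1 / (3 * Nf z.2 ^ 3) :=
  continuous_const.div (((JStar_cN.comp continuous_snd).pow 3).const_smul (3 : ℝ))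
    fun z => by
      have := JStar_Npos z.2
      positivity

private theorem JStar_c3 : Continuous fun z : ℝ × ℝ => 1 / Nf z.2 :=
  continuous_const.div (JStar_cN.comp continuous_snd) fun z => (JStar_Npos z.2).ne'

private theorem JStar_c4 : Continuous fun z : ℝ × ℝ => cc / (2 * wf z.1) :=
  continuous_const.div ((JStar_cw.comp continuous_fst).const_smul (2 : ℝ))
    fun z => by
      have := JStar_wpos z.1
      positivity

private theorem JStar_c5 : Continuous fun z : ℝ × ℝ => cc * z.1 / (4 * wf z.1) :=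
  (continuous_const.mul continuous_fst).div ((JStar_cw.comp continuous_fst).const_smul (4 : ℝ))
    fun z => by
      have := JStar_wpos z.1
      positivity

theorem js_lSt : JS lSt (fun _ _ => 0) (fun _ _ => 0) := by
  refine ⟨fun x y => JStar_dN y, fun x y => ?_, fun x y => JStar_dq y, fun x y => ?_,
    fun x y => ?_, fun x y => ?_, fun x y => JStar_dk y, fun x y => ?_, fun x y => ?_,
    fun x y => ?_, JStar_cN.comp continuous_snd, JStar_c1, continuous_const, JStar_c2,
    continuous_const, JStar_c3, continuous_const, continuous_const⟩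
  · exact (hasDerivAt_const x (Nf y)).congr_deriv (by simp [lSt])
  · exact (hasDerivAt_const x (y / (3 * Nf y))).congr_deriv (by simp [lSt])
  · exact hasDerivAt_const y (0 : ℝ)
  · refine (hasDerivAt_const x (0 : ℝ)).congr_deriv ?_
    show (0 : ℝ) = (1 / Nf y - Nf y + y * (y / (3 * Nf y))) / (2 * mf x)
    have h0 := (JStar_Npos y).ne'
    have h2 := JStar_N2 y
    have h1 : 1 / Nf y - Nf y + y * (y / (3 * Nf y)) = 0 := by
      field_simp
      linear_combination -3 * h2
    rw [h1, zero_div]
  · exact (hasDerivAt_const x (0 : ℝ)).congr_deriv (by simp)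
  · exact hasDerivAt_const y (0 : ℝ)
  · exact (hasDerivAt_const x (1 / (3 * Nf y ^ 3))).congr_deriv (by simp)

theorem js_starC : JS starC (fun _ _ => 0) (fun _ _ => 0) := by
  refine ⟨fun x y => ?_, fun x y => ?_, fun x y => hasDerivAt_const y (0 : ℝ), fun x y => ?_,
    fun x y => ?_, fun x y => ?_, fun x y => ?_, fun x y => ?_, fun x y => ?_,
    fun x y => ?_, continuous_const.sub JStar_c4, continuous_const, JStar_c5, continuous_const,
    continuous_const, continuous_const, continuous_const, continuous_const⟩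
  · exact hasDerivAt_const y (s3 - cc / (2 * wf x))
  · refine ((JStar_du x).const_sub s3).congr_deriv ?_
    rw [neg_neg]
    rfl
  · exact (hasDerivAt_const x (0 : ℝ)).congr_deriv (by simp [starC])
  · exact hasDerivAt_const y (cc * x / (4 * wf x))
  · refine (JStar_dp x).congr_deriv ?_
    show cc / (2 * wf x) / (2 * mf x) = (s3 - (s3 - cc / (2 * wf x)) + y * 0) / (2 * mf x)
    congr 1
    ring
  · refine (hasDerivAt_const y s3).congr_deriv ?_
    show (0 : ℝ) = 2 * 0 - y * 0
    ring
  · exact (hasDerivAt_const x (0 : ℝ)).congr_deriv (by simp)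
  · exact hasDerivAt_const y (0 : ℝ)
  · exact (hasDerivAt_const x (0 : ℝ)).congr_deriv (by simp)

theorem js_starS : JS starS (fun _ _ => 0) (fun _ _ => 0) := by
  have hl : ∀ y : ℝ, HasDerivAt (fun t : ℝ => t / (2 * √3)) (1 / (2 * √3)) y := fun y =>
    (hasDerivAt_id y).div_const _
  refine ⟨fun x y => ?_, fun x y => ?_, fun x y => ?_, fun x y => ?_,
    fun x y => ?_, fun x y => ?_, fun x y => JStar_dk y, fun x y => ?_, fun x y => ?_,
    fun x y => ?_, ?_, ?_, JStar_c5, JStar_c2,
    continuous_const, JStar_c3, continuous_const, continuous_const⟩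
  · exact ((JStar_dN y).sub (hl y)).sub_const (cc / (2 * wf x))
  · refine ((JStar_du x).const_sub (Nf y - y / (2 * √3))).congr_deriv ?_
    rw [neg_neg]
    rfl
  · exact (JStar_dq y).sub_const (1 / (2 * √3))
  · exact (hasDerivAt_const x (y / (3 * Nf y) - 1 / (2 * √3))).congr_deriv (by simp [starS])
  · exact hasDerivAt_const y (cc * x / (4 * wf x))
  · refine (JStar_dp x).congr_deriv ?_
    show cc / (2 * wf x) / (2 * mf x) = (1 / Nf y - (Nf y - y / (2 * √3) - cc / (2 * wf x)) +
      y * (y / (3 * Nf y) - 1 / (2 * √3))) / (2 * mf x)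
    have h0 := (JStar_Npos y).ne'
    have h2 := JStar_N2 y
    have h1 : 1 / Nf y - Nf y + y * (y / (3 * Nf y)) = 0 := by
      field_simp
      linear_combination -3 * h2
    congr 1
    linear_combination -h1
  · exact (hasDerivAt_const x (0 : ℝ)).congr_deriv (by simp)
  · exact hasDerivAt_const y (0 : ℝ)
  · exact (hasDerivAt_const x (1 / (3 * Nf y ^ 3))).congr_deriv (by simp)
  · exact ((JStar_cN.comp continuous_snd).sub (continuous_snd.div_const _)).sub JStar_c4
  · exact JStar_c1.sub continuous_const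

end Pool.Agent.MSQ
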