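import Pool.Agent.MSQ.Defs
/-!
JetC (90 lines). A C³ function has a good jet.

PROOF. fX z = fderiv ℝ H z (1,0), fY z = fderiv ℝ H z (0,1); for ContDiff ℝ (n+1) H the functions z ↦ fderiv ℝ H z v are
ContDiff ℝ n (ContDiff.fderiv_right, clm_apply). Iterate three times. D1: HasFDerivAt H (fderiv ℝ H z) z and
fderiv ℝ H z (a,b) = a fX z + b fY z (linearity). Symmetry of the mixed derivatives (needed because the same fXY is
used in D1 J.fX J.fXX J.fXY and D1 J.fY J.fXY J.fYY): second_derivative_symmetric / ContDiffAt.isSymmSndFDerivAt,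
applied to H, fX, fY.
-/
namespace Pool.Agent.MSQ

private noncomputable def jcD (v : ℝ × ℝ) (F : ℝ × ℝ → ℝ) : ℝ × ℝ → ℝ := fun z => fderiv ℝ F z v

private theorem jcD_cd (v : ℝ × ℝ) {F : ℝ × ℝ → ℝ} (n : ℕ) (h : ContDiff ℝ ((n + 1 : ℕ) : WithTop ℕ∞) F) :
    ContDiff ℝ ((n : ℕ) : WithTop ℕ∞) (jcD v F) := by
  have h1 : ContDiff ℝ ((n : ℕ) : WithTop ℕ∞) (fderiv ℝ F) :=
    h.fderiv_right (by exact_mod_cast le_rfl)
  exact h1.clm_apply contDiff_const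

private theorem jc_D1 {F : ℝ × ℝ → ℝ} (h : Differentiable ℝ F) :
    D1 F (jcD (1, 0) F) (jcD (0, 1) F) := by
  intro z
  have h1 := (h z).hasFDerivAt
  have h2 : fderiv ℝ F z = jcD (1, 0) F z • ContinuousLinearMap.fst ℝ ℝ ℝ +
      jcD (0, 1) F z • ContinuousLinearMap.snd ℝ ℝ ℝ := by
    ext <;> simp [jcD]
  rwa [h2] at h1

private theorem jc_symm {F : ℝ × ℝ → ℝ} (h : ContDiff ℝ ((2 : ℕ) : WithTop ℕ∞) F) (v w : ℝ × ℝ) :
    jcD v (jcD w F) = jcD w (jcD v F) := by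
  funext z
  have h1 : DifferentiableAt ℝ (fderiv ℝ F) z := by
    have h2 : ContDiff ℝ ((1 : ℕ) : WithTop ℕ∞) (fderiv ℝ F) :=
      h.fderiv_right (by exact_mod_cast le_rfl)
    exact (h2.differentiable (by simp)) z
  have h3 : ∀ a b : ℝ × ℝ, jcD a (jcD b F) z = fderiv ℝ (fderiv ℝ F) z a b := by
    intro a b
    have h4 : HasFDerivAt (jcD b F) ((ContinuousLinearMap.apply ℝ ℝ b).comp
        (fderiv ℝ (fderiv ℝ F) z)) z :=
      (ContinuousLinearMap.apply ℝ ℝ b).hasFDerivAt.comp z h1.hasFDerivAt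
    unfold jcD at h4 ⊢
    rw [h4.fderiv]
    rfl
  rw [h3, h3]
  have h5 : IsSymmSndFDerivAt ℝ F z := by
    refine h.contDiffAt.isSymmSndFDerivAt ?_
    simp
  exact h5.eq v w

theorem jet_of_contDiff (H : ℝ × ℝ → ℝ) (h : ContDiff ℝ 3 H) : ∃ J : Jet, J.Good ∧ J.f = H := by
  have h3 : ContDiff ℝ ((2 + 1 : ℕ) : WithTop ℕ∞) H := by exact_mod_cast h
  have h2 : ∀ v, ContDiff ℝ ((1 + 1 : ℕ) : WithTop ℕ∞) (jcD v H) := fun v => jcD_cd v 2 h3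
  have h1 : ∀ v w, ContDiff ℝ ((0 + 1 : ℕ) : WithTop ℕ∞) (jcD v (jcD w H)) := fun v w =>
    jcD_cd v 1 (h2 w)
  have h0 : ∀ u v w, Continuous (jcD u (jcD v (jcD w H))) := fun u v w => by
    have h4 := jcD_cd u 0 (h1 v w)
    exact h4.continuous
  have d0 : Differentiable ℝ H := h3.differentiable (by simp)
  have d1 : ∀ v, Differentiable ℝ (jcD v H) := fun v => (h2 v).differentiable (by simp)
  have d2 : ∀ v w, Differentiable ℝ (jcD v (jcD w H)) := fun v w =>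
    (h1 v w).differentiable (by simp)
  have hH : ContDiff ℝ ((2 : ℕ) : WithTop ℕ∞) H := h3.of_le (by norm_num)
  have s0 : jcD (1, 0) (jcD (0, 1) H) = jcD (0, 1) (jcD (1, 0) H) := jc_symm hH _ _
  have sX : jcD (1, 0) (jcD (0, 1) (jcD (1, 0) H)) = jcD (0, 1) (jcD (1, 0) (jcD (1, 0) H)) :=
    jc_symm (h2 _) _ _
  have sY : jcD (1, 0) (jcD (0, 1) (jcD (0, 1) H)) = jcD (0, 1) (jcD (1, 0) (jcD (0, 1) H)) :=
    jc_symm (h2 _) _ _
  refine ⟨⟨H, jcD (1, 0) H, jcD (0, 1) H, jcD (1, 0) (jcD (1, 0) H), jcD (0, 1) (jcD (1, 0) H),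
    jcD (0, 1) (jcD (0, 1) H), jcD (1, 0) (jcD (1, 0) (jcD (1, 0) H)),
    jcD (0, 1) (jcD (1, 0) (jcD (1, 0) H)), jcD (0, 1) (jcD (0, 1) (jcD (1, 0) H)),
    jcD (0, 1) (jcD (0, 1) (jcD (0, 1) H))⟩, ?_, rfl⟩
  constructor
  · exact jc_D1 d0
  · exact jc_D1 (d1 _)
  · have := jc_D1 (d1 (0, 1))
    rwa [s0] at this
  · exact jc_D1 (d2 _ _)
  · have := jc_D1 (d2 (0, 1) (1, 0))
    rwa [sX] at this
  · have := jc_D1 (d2 (0, 1) (0, 1))
    rwa [sY, s0] at this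
  · exact h0 _ _ _
  · exact h0 _ _ _
  · exact h0 _ _ _
  · exact h0 _ _ _

end Pool.Agent.MSQ
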