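import Pool.Agent.MSQ.Defs
/-!
PtS (130 lines). The pointwise inequality in the sliver (pure real algebra).

NOTATION: N = Nf y, 1 ≤ N ≤ 1.24 (1 ≤ y ≤ 5/4), e = s.hs t, o = s.hd t.
 Mh(s) = [[1-3N³μ, -3N³ν],[-3N³ν, 3N²/2 - 3N³κ/2]], ML(s) = [[3N³μ, 3N³ν],[3N³ν, 3N³κ/2]]; both are psd (SF).
IDENTITY (checked numerically; field_simp; ring): the right hand side equals
  (P(s)+P(t))/2 + (a11 e.mu + 2 a12 e.nu + a22 e.ka/2)/N⁶ + l1 e.u/N⁶ - l2 e.q,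
  P = PW/N⁹ + PU/N⁶, PW = Σ_{a,b,c,d} w_{ab,cd} Mh_{ac} ML_{bd}, PU = u (ro11·3N³μ + 2 ro12·3N³ν + ro22·3N³κ),
  (a11, a12, a22) = the coefficients in SM.Good.hA2 (a11 a² + 2 a12 ab + a22 b² ≥ 0).
  Written out: PW = w1111 Mh11 ML11 + 2 w1112 Mh11 ML12 + 2 w1121 Mh12 ML11 + 2 w1122 Mh12 ML12 + w1212 Mh11 ML22 +
  2 w1221 Mh12 ML12 + 2 w1222 Mh12 ML22 + w2121 Mh22 ML11 + 2 w2122 Mh22 ML12 + w2222 Mh22 ML22.
ESTIMATES. PW ≥ 0: a psd 2×2 matrix is a sum of two rank one matrices v vᵀ (if m11 > 0: v1 = (m11,m12)/√m11,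
 v2 = (0, √(m22 - m12²/m11)); if m11 = 0 then m12 = 0), and for rank one Mh = v vᵀ, ML = z zᵀ one has
 PW = M.W (v1 z1) (v1 z2) (v2 z1) (v2 z2) ≥ 0; PW is bilinear in (Mh, ML).
 The a-term ≥ 0: psd with psd K = [[μ,ν],[ν,κ/2]] (same rank one argument, or the determinant argument).
 PU ≥ -δ·(bound): trace of psd matrices is between 0 and 20B (3N³μ ≤ 1, |3N³ν| ≤ 2, 3N³κ ≤ 3N² ≤ 5).
 l1 e.u ≥ -δ l1 ≥ -Bδ. -l2 e.q ≥ -l2 δ ≥ -Bδ (e.q ≤ δ, l2 ≥ 0).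
-/
namespace Pool.Agent.MSQ

/-- a psd matrix is a sum of two rank one matrices -/
private theorem ptS_dec {a b c : ℝ} (ha : 0 ≤ a) (hc : 0 ≤ c) (h : b ^ 2 ≤ a * c) :
    ∃ u v w : ℝ, a = u ^ 2 ∧ b = u * v ∧ c = v ^ 2 + w ^ 2 := by
  rcases ha.eq_or_lt with h0 | h0
  · refine ⟨0, 0, √c, ?_, ?_, ?_⟩
    · rw [← h0]
      norm_num
    · rw [← h0] at h
      have : b ^ 2 = 0 := le_antisymm (by linarith) (sq_nonneg b)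
      have : b = 0 := by simpa using this
      rw [this]
      norm_num
    · rw [Real.sq_sqrt hc]
      norm_num
  · have hs : √a ^ 2 = a := Real.sq_sqrt ha
    have hs0 : 0 < √a := Real.sqrt_pos.2 h0
    have hd : 0 ≤ c - b ^ 2 / a := by
      rw [sub_nonneg, div_le_iff₀ h0]
      linarith
    refine ⟨√a, b / √a, √(c - b ^ 2 / a), hs.symm, ?_, ?_⟩
    · field_simp
    · rw [Real.sq_sqrt hd, div_pow, hs]
      ring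

private theorem ptS_W {M : SM} (hW : ∀ a b c d : ℝ, 0 ≤ M.W a b c d) {a b c p q r : ℝ}
    (ha : 0 ≤ a) (hc : 0 ≤ c) (h : b ^ 2 ≤ a * c) (hp : 0 ≤ p) (hr : 0 ≤ r)
    (h' : q ^ 2 ≤ p * r) :
    0 ≤ M.w1111 * a * p + 2 * M.w1112 * a * q + 2 * M.w1121 * b * p + 2 * M.w1122 * b * q +
      M.w1212 * a * r + 2 * M.w1221 * b * q + 2 * M.w1222 * b * r + M.w2121 * c * p +
      2 * M.w2122 * c * q + M.w2222 * c * r := by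
  obtain ⟨u, v, w, rfl, rfl, rfl⟩ := ptS_dec ha hc h
  obtain ⟨x, y, z, rfl, rfl, rfl⟩ := ptS_dec hp hr h'
  have h1 := hW (u * x) (u * y) (v * x) (v * y)
  have h2 := hW 0 (u * z) 0 (v * z)
  have h3 := hW 0 0 (w * x) (w * y)
  have h4 := hW 0 0 0 (w * z)
  have h5 := add_nonneg (add_nonneg h1 h2) (add_nonneg h3 h4)
  refine h5.trans_eq ?_
  unfold SM.W
  ring

private theorem ptS_A {a11 a12 a22 : ℝ}
    (hA : ∀ a b : ℝ, 0 ≤ a11 * a ^ 2 + 2 * a12 * a * b + a22 * b ^ 2) {p q r : ℝ}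
    (hp : 0 ≤ p) (hr : 0 ≤ r) (h : q ^ 2 ≤ p * r) : 0 ≤ a11 * p + 2 * a12 * q + a22 * r := by
  obtain ⟨x, y, z, rfl, rfl, rfl⟩ := ptS_dec hp hr h
  have h1 := hA x y
  have h2 := hA 0 z
  refine (add_nonneg h1 h2).trans_eq ?_
  ring

private theorem ptS_ro {r11 r12 r22 : ℝ} (h1 : 0 ≤ r11) (h2 : 0 ≤ r22)
    (h : r12 ^ 2 ≤ 2 * r11 * r22) (a b : ℝ) :
    0 ≤ r11 * a ^ 2 + 2 * r12 * a * b + (2 * r22) * b ^ 2 := by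
  obtain ⟨u, v, w, e1, e2, e3⟩ :=
    ptS_dec h1 (by linarith : 0 ≤ 2 * r22) (by linarith : r12 ^ 2 ≤ r11 * (2 * r22))
  rw [e1, e2, e3]
  have : u ^ 2 * a ^ 2 + 2 * (u * v) * a * b + (v ^ 2 + w ^ 2) * b ^ 2 =
      (u * a + v * b) ^ 2 + (w * b) ^ 2 := by ring
  rw [this]
  positivity

/-- the quadratic part of the integrand at one state -/
private theorem ptS_one {N δ B f1 f2 h2 : ℝ} {M : SM} {s : St} (hδ : 0 ≤ δ) (hN0 : 1 ≤ N)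
    (hN2 : 3 * N ^ 2 ≤ 5) (hr1 : 0 ≤ M.ro11) (hr2 : 0 ≤ M.ro22)
    (hr3 : M.ro12 ^ 2 ≤ 2 * M.ro11 * M.ro22) (hW : ∀ a b c d : ℝ, 0 ≤ M.W a b c d)
    (hA : ∀ a b : ℝ, 0 ≤ (-(N ^ 6 * f1) - 3 * (M.w1111 + 3 / 2 * N ^ 2 * M.w2121)) * a ^ 2 +
    2 * (-(N ^ 6 * f2) / 2 - 3 * (M.w1112 + 3 / 2 * N ^ 2 * M.w2122)) * a * b +
    (-(N ^ 6 * h2) - 3 * (M.w1212 + 3 / 2 * N ^ 2 * M.w2222)) * b ^ 2)
    (hB : M.Le B) (hmu : 0 ≤ s.mu) (hka : 0 ≤ s.ka) (hdet : 2 * s.nu ^ 2 ≤ s.mu * s.ka)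
    (hmu1 : 3 * N ^ 3 * s.mu ≤ 1) (hka1 : N * s.ka ≤ 1)
    (hdet1 : 2 * s.nu ^ 2 ≤ (1 / (3 * N ^ 3) - s.mu) * (1 / N - s.ka)) (hu : -δ ≤ s.u) :
    -(10 * B * δ) ≤ -M.Q s / N ^ 3 - f1 * s.mu - f2 * s.nu - h2 * s.ka / 2 := by
  have hNp : 0 < N := by linarith
  have hN3 : 0 < N ^ 3 := by positivity
  have hN6 : 1 ≤ N ^ 6 := one_le_pow₀ hN0
  have hN60 : 0 < N ^ 6 := by positivity
  -- abbreviations
  have hm : 0 ≤ 3 * N ^ 3 * s.mu := by positivity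
  have hk : 0 ≤ 3 * N ^ 3 * s.ka / 2 := by positivity
  have hn : (3 * N ^ 3 * s.nu) ^ 2 ≤ 3 * N ^ 3 * s.mu * (3 * N ^ 3 * s.ka / 2) := by
    have : (9 * N ^ 6 / 2) * (2 * s.nu ^ 2) ≤ (9 * N ^ 6 / 2) * (s.mu * s.ka) :=
      mul_le_mul_of_nonneg_left hdet (by positivity)
    nlinarith
  have hk1 : 3 * N ^ 3 * s.ka / 2 ≤ 3 * N ^ 2 / 2 := by
    have : (3 * N ^ 2 / 2) * (N * s.ka) ≤ (3 * N ^ 2 / 2) * 1 :=
      mul_le_mul_of_nonneg_left hka1 (by positivity)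
    nlinarith
  have hn1 : (-(3 * N ^ 3 * s.nu)) ^ 2 ≤
      (1 - 3 * N ^ 3 * s.mu) * (3 * N ^ 2 / 2 - 3 * N ^ 3 * s.ka / 2) := by
    have h1 : (9 * N ^ 6 / 2) * (2 * s.nu ^ 2) ≤
        (9 * N ^ 6 / 2) * ((1 / (3 * N ^ 3) - s.mu) * (1 / N - s.ka)) :=
      mul_le_mul_of_nonneg_left hdet1 (by positivity)
    have h2 : (9 * N ^ 6 / 2) * ((1 / (3 * N ^ 3) - s.mu) * (1 / N - s.ka)) =
        (1 - 3 * N ^ 3 * s.mu) * (3 * N ^ 2 / 2 - 3 * N ^ 3 * s.ka / 2) := by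
      field_simp
      norm_num
    rw [h2] at h1
    nlinarith
  have hPW := ptS_W hW (by linarith : 0 ≤ 1 - 3 * N ^ 3 * s.mu)
    (by linarith : 0 ≤ 3 * N ^ 2 / 2 - 3 * N ^ 3 * s.ka / 2) hn1 hm hk hn
  have hAA := ptS_A hA hmu (by positivity : 0 ≤ s.ka / 2) (by linarith : s.nu ^ 2 ≤ s.mu * (s.ka / 2))
  have hT0 := ptS_A (ptS_ro hr1 hr2 hr3) hm hk hn
  -- upper bound of the trace
  have hnn : |3 * N ^ 3 * s.nu| ≤ 2 := by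
    apply abs_le_of_sq_le_sq _ (by norm_num)
    nlinarith
  obtain ⟨b1, b2, b3⟩ := hB
  have hB0 : 0 ≤ B := (abs_nonneg _).trans b1
  have hT1 : M.ro11 * (3 * N ^ 3 * s.mu) + 2 * M.ro12 * (3 * N ^ 3 * s.nu) +
      2 * M.ro22 * (3 * N ^ 3 * s.ka / 2) ≤ 10 * B := by
    have t1 : M.ro11 * (3 * N ^ 3 * s.mu) ≤ B * 1 :=
      mul_le_mul ((le_abs_self _).trans b1) hmu1 hm hB0
    have t2 : M.ro12 * (3 * N ^ 3 * s.nu) ≤ B * 2 := by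
      refine (le_abs_self _).trans ?_
      rw [abs_mul]
      exact mul_le_mul b2 hnn (abs_nonneg _) hB0
    have t3 : M.ro22 * (3 * N ^ 3 * s.ka / 2) ≤ B * (5 / 2) :=
      mul_le_mul ((le_abs_self _).trans b3) (by linarith) hk hB0
    linarith
  have hT2 : -(10 * B * δ) ≤ s.u * (M.ro11 * (3 * N ^ 3 * s.mu) + 2 * M.ro12 * (3 * N ^ 3 * s.nu) +
      2 * M.ro22 * (3 * N ^ 3 * s.ka / 2)) := by
    have t1 := mul_le_mul_of_nonneg_right hu hT0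
    have t2 := mul_le_mul_of_nonneg_left hT1 hδ
    linarith
  have hT3 : -(10 * B * δ) ≤ s.u * (M.ro11 * (3 * N ^ 3 * s.mu) +
      2 * M.ro12 * (3 * N ^ 3 * s.nu) + 2 * M.ro22 * (3 * N ^ 3 * s.ka / 2)) / N ^ 6 := by
    rw [le_div_iff₀ hN60]
    have : 10 * B * δ * 1 ≤ 10 * B * δ * N ^ 6 :=
      mul_le_mul_of_nonneg_left hN6 (by positivity)
    linarith
  have hA3 := div_nonneg hAA hN60.le
  have hW3 := div_nonneg hPW (by positivity : 0 ≤ N ^ 9)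
  have hid : -M.Q s / N ^ 3 - f1 * s.mu - f2 * s.nu - h2 * s.ka / 2 =
      s.u * (M.ro11 * (3 * N ^ 3 * s.mu) + 2 * M.ro12 * (3 * N ^ 3 * s.nu) +
        2 * M.ro22 * (3 * N ^ 3 * s.ka / 2)) / N ^ 6 +
      ((-(N ^ 6 * f1) - 3 * (M.w1111 + 3 / 2 * N ^ 2 * M.w2121)) * s.mu +
        2 * (-(N ^ 6 * f2) / 2 - 3 * (M.w1112 + 3 / 2 * N ^ 2 * M.w2122)) * s.nu +
        (-(N ^ 6 * h2) - 3 * (M.w1212 + 3 / 2 * N ^ 2 * M.w2222)) * (s.ka / 2)) / N ^ 6 +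
      (M.w1111 * (1 - 3 * N ^ 3 * s.mu) * (3 * N ^ 3 * s.mu) +
        2 * M.w1112 * (1 - 3 * N ^ 3 * s.mu) * (3 * N ^ 3 * s.nu) +
        2 * M.w1121 * (-(3 * N ^ 3 * s.nu)) * (3 * N ^ 3 * s.mu) +
        2 * M.w1122 * (-(3 * N ^ 3 * s.nu)) * (3 * N ^ 3 * s.nu) +
        M.w1212 * (1 - 3 * N ^ 3 * s.mu) * (3 * N ^ 3 * s.ka / 2) +
        2 * M.w1221 * (-(3 * N ^ 3 * s.nu)) * (3 * N ^ 3 * s.nu) +
        2 * M.w1222 * (-(3 * N ^ 3 * s.nu)) * (3 * N ^ 3 * s.ka / 2) +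
        M.w2121 * (3 * N ^ 2 / 2 - 3 * N ^ 3 * s.ka / 2) * (3 * N ^ 3 * s.mu) +
        2 * M.w2122 * (3 * N ^ 2 / 2 - 3 * N ^ 3 * s.ka / 2) * (3 * N ^ 3 * s.nu) +
        M.w2222 * (3 * N ^ 2 / 2 - 3 * N ^ 3 * s.ka / 2) * (3 * N ^ 3 * s.ka / 2)) / N ^ 9 := by
    unfold SM.Q
    field_simp
    ring
  rw [hid]
  linarith

theorem ptS (δ y D B f1 f2 h2 l1 l2 : ℝ) (M : SM) (s t : St) (hδ : 0 ≤ δ) (hy0 : 1 ≤ y)
    (hy1 : y ≤ 5 / 4) (hl1 : |l1| ≤ B) (hl2 : |l2| ≤ B) (hM : M.Good f1 f2 h2 l1 l2 y)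
    (hB : M.Le B) (hs : SF δ y s) (ht : SF δ y t) :
    -(1000 * B * δ) ≤ (-(M.Q (s.hs t)) - M.Q (s.hd t)) / Nf y ^ 3 -
      2 * D * ((s.u + t.u) / 2) / Nf y ^ 4 -
      (f1 * ((s.mu + t.mu) / 2) + f2 * ((s.nu + t.nu) / 2) + h2 * ((s.ka + t.ka) / 2) / 2 -
        (l1 + 2 * D * Nf y ^ 2) / Nf y ^ 6 * ((s.u + t.u) / 2) + l2 * ((s.q + t.q) / 2)) := by
  have hN2 : Nf y ^ 2 = 1 + y ^ 2 / 3 := by
    unfold Nf
    rw [Real.sq_sqrt (by positivity)]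
  have hN0 : 0 ≤ Nf y := Real.sqrt_nonneg _
  have hN1 : 1 ≤ Nf y := by nlinarith
  have hN3 : 3 * Nf y ^ 2 ≤ 5 := by
    rw [hN2]
    nlinarith
  obtain ⟨r1, r2, r3, hW, hA, g1, g2⟩ := hM
  have e1 := ptS_one hδ hN1 hN3 r1 r2 r3 hW hA hB hs.mu0 hs.ka0 hs.det0 hs.mu1 hs.ka1 hs.det1 hs.u0
  have e2 := ptS_one hδ hN1 hN3 r1 r2 r3 hW hA hB ht.mu0 ht.ka0 ht.det0 ht.mu1 ht.ka1 ht.det1 ht.u0
  have hsu := hs.u0
  have htu := ht.u0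
  have hsq := hs.q1
  have htq := ht.q1
  generalize Nf y = N at *
  have hNp : 0 < N := by linarith
  have hN6 : 1 ≤ N ^ 6 := one_le_pow₀ hN1
  have hN60 : 0 < N ^ 6 := by positivity
  have hB0 : 0 ≤ B := (abs_nonneg _).trans hl1
  have hBδ : 0 ≤ B * δ := mul_nonneg hB0 hδ
  have e3 : -(B * δ) ≤ l1 * ((s.u + t.u) / 2) / N ^ 6 := by
    rw [le_div_iff₀ hN60]
    have h1 : l1 * (-δ) ≤ l1 * ((s.u + t.u) / 2) := mul_le_mul_of_nonneg_left (by linarith) g1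
    have h2 : l1 * δ ≤ B * δ := mul_le_mul_of_nonneg_right ((le_abs_self _).trans hl1) hδ
    have h3 : B * δ * 1 ≤ B * δ * N ^ 6 := mul_le_mul_of_nonneg_left hN6 hBδ
    linarith
  have e4 : l2 * ((s.q + t.q) / 2) ≤ B * δ := by
    have h1 : l2 * ((s.q + t.q) / 2) ≤ l2 * δ := mul_le_mul_of_nonneg_left (by linarith) g2
    have h2 : l2 * δ ≤ B * δ := mul_le_mul_of_nonneg_right ((le_abs_self _).trans hl2) hδ
    linarith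
  have hid : (-(M.Q (s.hs t)) - M.Q (s.hd t)) / N ^ 3 -
      2 * D * ((s.u + t.u) / 2) / N ^ 4 -
      (f1 * ((s.mu + t.mu) / 2) + f2 * ((s.nu + t.nu) / 2) + h2 * ((s.ka + t.ka) / 2) / 2 -
        (l1 + 2 * D * N ^ 2) / N ^ 6 * ((s.u + t.u) / 2) + l2 * ((s.q + t.q) / 2)) =
      (-M.Q s / N ^ 3 - f1 * s.mu - f2 * s.nu - h2 * s.ka / 2) / 2 +
      (-M.Q t / N ^ 3 - f1 * t.mu - f2 * t.nu - h2 * t.ka / 2) / 2 +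
      l1 * ((s.u + t.u) / 2) / N ^ 6 - l2 * ((s.q + t.q) / 2) := by
    simp only [SM.Q, St.hs, St.hd]
    field_simp
    ring
  rw [hid]
  linarith

end Pool.Agent.MSQ
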