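import Pool.Agent.MSQ.RDiv
import Pool.Agent.MSQ.DivQ
import Pool.Agent.MSQ.DivL
import Pool.Agent.MSQ.JAll
import Pool.Agent.MSQ.CertS
import Pool.Agent.MSQ.SFa
import Pool.Agent.MSQ.PtS
import Pool.Agent.MSQ.VEdge
import Pool.Agent.MSQ.HypR
/-!
SReg (120 lines). The sliver region.

PROOF. As CReg with e = eS J, o = oS J, gSe, gSo, divLS (f0 = sf0, f1 = sf1, f2 = sf2, h2 = sh2, D = DD; note
h0f = -ev (pDY sf2) - mf * ev (pDX sh2)): A + mB = Σ (DD(3N²uμ+uκ) - Rg)/N³ + (linear part), so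
 DD(bS s + bS t)/2 - (A+mB) = (Rg_e + Rg_o)/N³ - 2 DD (u+u')/2/N⁴ - (linear part) ≥ -1000 B δ by certS and ptS
(sfa for J and J.ry, y ≤ stY k ≤ 5/4) on each rectangle of the staircase. SI_mono, SI_div (ε = C δ, edges: vedge with st_ge,
st_ge', st_le).
-/
namespace Pool.Agent.MSQ

private theorem SReg_N (y : ℝ) : 0 < Nf y ∧ Nf y ^ 2 = 1 + y ^ 2 / 3 := by
  have h : (0 : ℝ) < 1 + y ^ 2 / 3 := by positivity
  exact ⟨Real.sqrt_pos.mpr h, Real.sq_sqrt h.le⟩

private theorem SReg_m (x : ℝ) : 1 ≤ mf x := by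
  unfold mf
  nlinarith [sq_nonneg x]

private theorem SReg_cm : Continuous fun z : ℝ × ℝ => mf z.1 := by
  unfold mf
  fun_prop

private theorem SReg_cN : Continuous fun z : ℝ × ℝ => Nf z.2 := by
  unfold Nf
  fun_prop

private theorem SReg_bid (D y : ℝ) (s t : St) :
    D / 2 * (bS y s + bS y t) =
      (D * (3 * (1 + y ^ 2 / 3) * (s.hs t).u * (s.hs t).mu + (s.hs t).u * (s.hs t).ka)) / Nf y ^ 3 +
      (D * (3 * (1 + y ^ 2 / 3) * (s.hd t).u * (s.hd t).mu + (s.hd t).u * (s.hd t).ka)) / Nf y ^ 3 -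
      2 * D * ((s.u + t.u) / 2) / Nf y ^ 4 := by
  obtain ⟨h0, h2⟩ := SReg_N y
  rw [← h2]
  simp only [bS, St.hs, St.hd]
  field_simp
  ring

private theorem SReg_key {D y T L K Re Ro Qe Qo : ℝ} {s t : St}
    (hT : T = (D * (3 * (1 + y ^ 2 / 3) * (s.hs t).u * (s.hs t).mu + (s.hs t).u * (s.hs t).ka) -
        Re) / Nf y ^ 3 +
      (D * (3 * (1 + y ^ 2 / 3) * (s.hd t).u * (s.hd t).mu + (s.hd t).u * (s.hd t).ka) -
        Ro) / Nf y ^ 3 + L)
    (hRe : 0 ≤ Re + Qe) (hRo : 0 ≤ Ro + Qo)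
    (hp : -K ≤ (-Qe - Qo) / Nf y ^ 3 - 2 * D * ((s.u + t.u) / 2) / Nf y ^ 4 - L) :
    T - K ≤ D / 2 * (bS y s + bS y t) := by
  obtain ⟨h0, h2⟩ := SReg_N y
  rw [SReg_bid, hT]
  have h1 : 0 ≤ (Re + Qe + (Ro + Qo)) / Nf y ^ 3 := div_nonneg (by linarith) (by positivity)
  simp only [sub_div, add_div, neg_div] at h1 hp ⊢
  linarith

private theorem SReg_cb {S : ℝ → ℝ → St} {Z E : ℝ → ℝ → ℝ} (hS : JS S Z E) :
    Continuous fun z : ℝ × ℝ => bS z.2 (S z.1 z.2) / mf z.1 := by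
  have c1 := hS.cu
  have c2 := hS.cmu
  have c3 := hS.cka
  have c4 := SReg_cN
  have c5 := SReg_cm
  have h0 : ∀ z : ℝ × ℝ, Nf z.2 ≠ 0 := fun z => (SReg_N z.2).1.ne'
  have h1 : ∀ z : ℝ × ℝ, mf z.1 ≠ 0 := fun z => (lt_of_lt_of_le one_pos (SReg_m z.1)).ne'
  refine Continuous.div ?_ c5 h1
  unfold bS
  refine Continuous.sub (Continuous.div ?_ (c4.pow 3) fun z => pow_ne_zero _ (h0 z))
    (Continuous.div ?_ (c4.pow 4) fun z => pow_ne_zero _ (h0 z))
  · exact (((continuous_const.mul (c4.pow 2)).mul c1).mul c2).add (c1.mul c3)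
  · exact continuous_const.mul c1

theorem sreg : ∃ C : ℝ, 0 ≤ C ∧ ∀ (δ : ℝ) (J : Jet), Hyp J δ →
    -(∫ x in (0:ℝ)..1, V1S x 1 (eS J x 1) (oS J x 1) / mf x) -
      (∫ y in (1:ℝ)..(49 / 40), V2S 0 y (eS J 0 y) (oS J 0 y)) - C * δ ≤
    (DD : ℝ) / 2 * (SI (fun x y => bS y (AS J x y) / mf x) +
      SI (fun x y => bS y (AS J.ry x y) / mf x)) := by
  obtain ⟨Cv, hCv, hv⟩ := vedge
  obtain ⟨B, hB0, hB⟩ := certS
  refine ⟨2 * Cv + 1000 * B, by positivity, fun δ J h => ?_⟩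
  have hδ := h.pos
  obtain ⟨Ze, Ee, je⟩ := js_eS J h.good
  obtain ⟨Zo, Eo, jo⟩ := js_oS J h.good
  obtain ⟨Zs, Es, js⟩ := js_AS J h.good
  obtain ⟨Zt, Et, jt⟩ := js_AS J.ry (good_ry J h.good)
  obtain ⟨Ae, Be, cAe, cBe, dAe, dBe, ide⟩ := divQ je (DD : ℝ) gSe
  obtain ⟨Ao, Bo, cAo, cBo, dAo, dBo, ido⟩ := divQ jo (DD : ℝ) gSo
  obtain ⟨Al, Bl, cAl, cBl, dAl, dBl, idl⟩ := divLS je (DD : ℝ) sf0 sf1 sf2 sh2
  have cme := SReg_cm
  have hm0 : ∀ z : ℝ × ℝ, mf z.1 ≠ 0 := fun z => (lt_of_lt_of_le one_pos (SReg_m z.1)).ne'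
  have cA : Continuous fun z : ℝ × ℝ =>
      (fun x y => Ae x y + Ao x y + Al x y) z.1 z.2 := (cAe.add cAo).add cAl
  have cB : Continuous fun z : ℝ × ℝ =>
      (fun x y => Be x y + Bo x y + Bl x y) z.1 z.2 := (cBe.add cBo).add cBl
  have cV1 : Continuous fun z : ℝ × ℝ =>
      (fun x y => V1S x y (eS J x y) (oS J x y)) z.1 z.2 := by
    have a1 := (cont_Vq je gSe).1
    have a2 := (cont_Vq jo gSo).1
    exact (a1.add a2).add ((((continuous_ev sf1).mul je.cq).add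
      ((continuous_ev sf0).mul je.cu)).add ((continuous_ev sf2).mul je.cp))
  have cV2 : Continuous fun z : ℝ × ℝ =>
      (fun x y => V2S x y (eS J x y) (oS J x y)) z.1 z.2 := by
    have a1 := (cont_Vq je gSe).2
    have a2 := (cont_Vq jo gSo).2
    have a3 : Continuous fun z : ℝ × ℝ => h0f z.1 z.2 := by
      unfold h0f
      exact (continuous_ev (pDY sf2)).neg.sub (cme.mul (continuous_ev (pDX sh2)))
    exact (a1.add a2).add ((a3.mul je.cu).add ((continuous_ev sh2).mul je.cp))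
  have dV1 : ∀ x y, HasDerivAt (fun t => (fun x y => V1S x y (eS J x y) (oS J x y)) x t)
      ((fun x y => Ae x y + Ao x y + Al x y) x y) y := fun x y =>
    ((dAe x y).add (dAo x y)).add (dAl x y)
  have dV2 : ∀ x y, HasDerivAt (fun t => (fun x y => V2S x y (eS J x y) (oS J x y)) t y)
      ((fun x y => Be x y + Bo x y + Bl x y) x y) x := fun x y =>
    ((dBe x y).add (dBo x y)).add (dBl x y)
  have hdiv := SI_div (Cv * δ) (by positivity)
    (fun x y => V1S x y (eS J x y) (oS J x y)) (fun x y => V2S x y (eS J x y) (oS J x y))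
    (fun x y => Ae x y + Ao x y + Al x y) (fun x y => Be x y + Bo x y + Bl x y)
    cA cB cV1 cV2 dV1 dV2
    (fun k hk x h0 h1 => ((hv δ J h).2 x (stY k) (st_range k hk x h0 h1).1
      (st_range k hk x h0 h1).2 (st_ge k hk x (stY k) h0 h1 le_rfl) (st_le k)).1)
    (fun k hk y h0 h1 => by
      have hr := st_range k hk (((k : ℝ) + 1) / 6) (by linarith) le_rfl
      exact ((hv δ J h).2 (((k : ℝ) + 1) / 6) y hr.1 hr.2 (st_ge' k hk y h0)
        (h1.trans (st_le k))).2.1)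
  have hdiv' := (abs_le.mp hdiv).1
  -- pointwise
  have hpt : ∀ k : ℕ, k < 6 → ∀ x y, (k : ℝ) / 6 ≤ x → x ≤ ((k : ℝ) + 1) / 6 → 1 ≤ y →
      y ≤ stY k →
      (fun x y => ((fun x y => Ae x y + Ao x y + Al x y) x y +
        mf x * (fun x y => Be x y + Bo x y + Bl x y) x y) / mf x) x y +
          (fun _ _ => (-1 : ℝ) * (1000 * B * δ)) x y ≤
      (fun x y => (DD : ℝ) / 2 * (bS y (AS J x y) / mf x + bS y (AS J.ry x y) / mf x)) x y := by
    intro k hk x y h0 h1 h2 h3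
    obtain ⟨hl1, hl2, M, hM, hMB, hMe, hMo⟩ := hB k hk x y h0 h1 h2 h3
    obtain ⟨hx0, hx1⟩ := st_range k hk x h0 h1
    have hy1 : y ≤ 5 / 4 := h3.trans (st_le k)
    have hs := sfa h x y hx0 hx1 h2 hy1
    have ht := sfa (hyp_ry h) x y hx0 hx1 h2 hy1
    have hp := ptS δ y (DD : ℝ) B _ _ _ _ _ M (AS J x y) (AS J.ry x y) hδ.le h2 hy1 hl1 hl2 hM
      hMB hs ht
    have hkey := SReg_key (T := (Ae x y + Ao x y + Al x y) + mf x * (Be x y + Bo x y + Bl x y))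
      (by
        have e1 := ide x y
        have e2 := ido x y
        have e3 := idl x y
        have e4 : (Ae x y + Ao x y + Al x y) + mf x * (Be x y + Bo x y + Bl x y) =
          (Ae x y + mf x * Be x y) + (Ao x y + mf x * Bo x y) + (Al x y + mf x * Bl x y) := by
          ring
        rw [e4, e1, e2, e3]
        rfl)
      (hMe _) (hMo _) hp
    have hm := SReg_m x
    have hmp : 0 < mf x := lt_of_lt_of_le one_pos hm
    have hK : 0 ≤ 1000 * B * δ := by positivity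
    have hK2 : 1000 * B * δ / mf x ≤ 1000 * B * δ := div_le_self hK hm
    have hdivm := div_le_div_of_nonneg_right hkey hmp.le
    change ((Ae x y + Ao x y + Al x y) + mf x * (Be x y + Bo x y + Bl x y)) / mf x +
      (-1 : ℝ) * (1000 * B * δ) ≤
      (DD : ℝ) / 2 * (bS y (AS J x y) / mf x + bS y (AS J.ry x y) / mf x)
    have e5 : (DD : ℝ) / 2 * (bS y (AS J x y) / mf x + bS y (AS J.ry x y) / mf x) =
        (DD : ℝ) / 2 * (bS y (AS J x y) + bS y (AS J.ry x y)) / mf x := by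
      ring
    rw [e5]
    rw [sub_div] at hdivm
    linarith
  have cf1 : Continuous fun z : ℝ × ℝ => (fun x y => ((fun x y => Ae x y + Ao x y + Al x y) x y +
        mf x * (fun x y => Be x y + Bo x y + Bl x y) x y) / mf x) z.1 z.2 :=
    (cA.add (cme.mul cB)).div cme hm0
  have cf2 : Continuous fun z : ℝ × ℝ => (fun _ _ : ℝ => (-1 : ℝ) * (1000 * B * δ)) z.1 z.2 :=
    continuous_const
  have cg1 := SReg_cb js
  have cg2 := SReg_cb jt
  have cg : Continuous fun z : ℝ × ℝ => (fun x y => (DD : ℝ) / 2 *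
      (bS y (AS J x y) / mf x + bS y (AS J.ry x y) / mf x)) z.1 z.2 :=
    continuous_const.mul (cg1.add cg2)
  have hmono := SI_mono (fun x y => (fun x y => ((fun x y => Ae x y + Ao x y + Al x y) x y +
        mf x * (fun x y => Be x y + Bo x y + Bl x y) x y) / mf x) x y +
          (fun _ _ => (-1 : ℝ) * (1000 * B * δ)) x y)
      (fun x y => (DD : ℝ) / 2 * (bS y (AS J x y) / mf x + bS y (AS J.ry x y) / mf x))
      (cf1.add cf2) cg hpt
  rw [SI_add _ _ cf1 cf2, SI_mul (-1) (fun _ _ => 1000 * B * δ),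
    SI_mul ((DD : ℝ) / 2) (fun x y => bS y (AS J x y) / mf x + bS y (AS J.ry x y) / mf x),
    SI_add _ _ cg1 cg2] at hmono
  have hc := SI_const_le (1000 * B * δ) (by positivity)
  refine le_trans ?_ hmono
  have e6 : (2 * Cv + 1000 * B) * δ = 2 * (Cv * δ) + 1000 * B * δ := by ring
  rw [e6]
  linarith

end Pool.Agent.MSQ
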