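import Pool.Agent.MSQ.CReg
import Pool.Agent.MSQ.SReg
import Pool.Agent.MSQ.IReg
/-!
PairI (50 lines). The inequality for a pair of reflected quarters.

PROOF. `pairI`: add creg, sreg, ireg, zreg; BI J = RI .. + SI .. (definition).
`VY_rx`: eC J.rx 0 y = (eC J 0 y).fx because AC J.rx 0 y = (AC J 0 y).fx and AC J.rx.ry 0 y = AC J.ry.rx 0 y =
(AC J.ry 0 y).fx (rx_ry, AC_rx0); the same for o and the sliver; then certX (V2C and V2S are odd at x = 0) and
intervalIntegral.integral_neg.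
-/
namespace Pool.Agent.MSQ

theorem pairI : ∃ C : ℝ, 0 ≤ C ∧ ∀ (δ : ℝ) (J : Jet), Hyp J δ → 1 / 2 ≤ J.f (0, 0) →
    -VY J - C * δ ≤ (DD : ℝ) / 2 * (BI J + BI J.ry) := by
  obtain ⟨C1, h1, H1⟩ := creg
  obtain ⟨C2, h2, H2⟩ := sreg
  obtain ⟨C3, h3, H3⟩ := ireg
  refine ⟨C1 + C2 + C3, by positivity, fun δ J h hJ => ?_⟩
  have a1 := H1 δ J h hJ
  have a2 := H2 δ J h
  have a3 := H3 δ J h hJ
  have a4 := zreg δ J h
  unfold BI VY
  linarith

private theorem PairI_hs (s t : St) : s.fx.hs t.fx = (s.hs t).fx := by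
  simp only [St.hs, St.fx, St.mk.injEq]
  refine ⟨trivial, trivial, ?_, trivial, ?_, trivial⟩ <;> ring

private theorem PairI_hd (s t : St) : s.fx.hd t.fx = (s.hd t).fx := by
  simp only [St.hd, St.fx, St.mk.injEq]
  refine ⟨trivial, trivial, ?_, trivial, ?_, trivial⟩ <;> ring

theorem VY_rx (J : Jet) : VY J.rx = -VY J := by
  have e1 : ∀ y, eC J.rx 0 y = (eC J 0 y).fx := fun y => by
    unfold eC
    rw [rx_ry, AC_rx0, AC_rx0, PairI_hs]
  have e2 : ∀ y, oC J.rx 0 y = (oC J 0 y).fx := fun y => by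
    unfold oC
    rw [rx_ry, AC_rx0, AC_rx0, PairI_hd]
  have e3 : ∀ y, eS J.rx 0 y = (eS J 0 y).fx := fun y => by
    unfold eS
    rw [rx_ry, AS_rx0, AS_rx0, PairI_hs]
  have e4 : ∀ y, oS J.rx 0 y = (oS J 0 y).fx := fun y => by
    unfold oS
    rw [rx_ry, AS_rx0, AS_rx0, PairI_hd]
  unfold VY
  simp only [e1, e2, e3, e4, (certX _ _ _).1, (certX _ _ _).2, intervalIntegral.integral_neg]
  ring

end Pool.Agent.MSQ
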