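import Pool.Agent.MSQ.CvXY
/-!
PlF (140 lines). Facts about H = J.f and L = l - H in the plane. c = cc = 1/√2, s3 = √3/2, td0 = (√3-c-1)/2.

PROOF. Put k = √(1+Y²), X0 = k/√3 ≤ 1 for |Y| ≤ 1 (k² ≤ 2 ≤ 3). lf (X0,Y)² = k² + k²/3 = (2k/√3)².
pl1: L(X0,Y) = lf - H ≤ lf(X0,Y) - X0/2 - c/2 + δ (h.low) = k(2/√3 - 1/(2√3)) - c/2 + δ = s3 k - c/2 + δ. The
 same at -X0. L(·,Y) is convex, so L(X,Y) ≤ max of the two values for |X| ≤ X0.
pl2: the same with the roles exchanged (h.upp): H(X,Y0) ≤ lf - Y0/2 - c/2 + δ = s3 √(1+X²) - c/2 + δ, Y0 = √(1+X²)/√3.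
pl3: convexity between 0 and X0.
pl4: J.fX (·,Y) monotone, J.fX (c,Y) ≤ 1/2 + δ by h.aX1 at X = c (|c| = c, sign c = 1).
pl5: lJ.fY - J.fY monotone in Y: for Y ≤ c compare with Y = c (h.aY2), for c ≤ Y ≤ 1 directly h.aY2; lower
 bound: for Y ≥ 0 ≥ -c compare with Y = -c, where sign = -1.
pl6: h.low gives J.f ≥ X/2 + c/2 - δ, pl4: X J.fX ≤ X/2 + X δ, X ≤ 1.
pl7: tangent inequality of L in X at X evaluated at 0: L(0,Y) ≥ L(X,Y) - X L_X(X,Y), and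
 l - X l_X = (1+Y²)/l, L(0,Y) = √(1+Y²) - J.f (0,Y).
pl8 (branch): H(0,·) convex, H(0,0) ≥ 1/2, H(0,-1/√3) ≤ s3 - c/2 + δ (pl2 at X = 0: √1/√3; or h.upp). For
 Y > 0, 0 is a convex combination of -a (a = 1/√3) and Y: H(0,0)(Y + a) ≤ Y H(0,-a) + a H(0,Y), so
 H(0,Y) ≥ 1/2 + (Y/a)(1/2 - H(0,-a)) ≥ 1/2 - √3 Y (s3 - c/2 - 1/2 + δ), and s3 - c/2 - 1/2 = td0.
pl9: (H(0,Y) + H(0,-Y))/2 ≥ H(0,0) by convexity.
-/
namespace Pool.Agent.MSQ

private theorem plf_cc_pos : 0 < cc := by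
  unfold cc; positivity
private theorem plf_cc_sq : cc ^ 2 = 1 / 2 := by
  unfold cc; rw [div_pow, Real.sq_sqrt (by norm_num)]; norm_num
private theorem plf_cc_le : cc ≤ 1 := by
  nlinarith [plf_cc_sq, plf_cc_pos]
private theorem plf_s3 : √3 ^ 2 = 3 := Real.sq_sqrt (by norm_num)
private theorem plf_s3p : 0 < √3 := by positivity

private theorem plf_x0 (Y : ℝ) (hY : |Y| ≤ 1) : √(1 + Y ^ 2) / √3 ≤ 1 := by
  rw [div_le_one plf_s3p]
  apply Real.sqrt_le_sqrt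
  have := sq_abs Y
  have h0 := abs_nonneg Y
  nlinarith

private theorem plf_lf (k a : ℝ) (hk : 0 ≤ k) (h : a = 4 * k ^ 2 / 3) : √a = 2 * k / √3 := by
  rw [h]
  have : 4 * k ^ 2 / 3 = (2 * k / √3) ^ 2 := by
    rw [div_pow, plf_s3]; ring
  rw [this, Real.sqrt_sq (by positivity)]

private theorem plf_alg (k : ℝ) : 2 * k / √3 - (k / √3) / 2 = s3 * k := by
  unfold s3
  have h := plf_s3
  have h3 := plf_s3p
  field_simp
  rw [h]
  ring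

private theorem plf_Lend {J : Jet} {δ : ℝ} (h : Hyp J δ) (X Y : ℝ) (hY : |Y| ≤ 1)
    (hX : |X| = √(1 + Y ^ 2) / √3) :
    lf (X, Y) - J.f (X, Y) ≤ s3 * √(1 + Y ^ 2) - cc / 2 + δ := by
  have h1 := plf_x0 Y hY
  have h2 := h.low X Y (by rw [hX]; exact h1) hY
  have hk : 0 ≤ √(1 + Y ^ 2) := Real.sqrt_nonneg _
  have hk2 : √(1 + Y ^ 2) ^ 2 = 1 + Y ^ 2 := Real.sq_sqrt (by positivity)
  have h3 : lf (X, Y) = 2 * √(1 + Y ^ 2) / √3 := by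
    unfold lf
    apply plf_lf _ _ hk
    have : X ^ 2 = (1 + Y ^ 2) / 3 := by
      rw [← sq_abs X, hX, div_pow, hk2, plf_s3]
    simp only [this, hk2]
    ring
  have h4 := plf_alg (√(1 + Y ^ 2))
  rw [hX] at h2
  rw [h3]
  linarith

theorem pl1 {J : Jet} {δ : ℝ} (h : Hyp J δ) (X Y : ℝ) (hY : |Y| ≤ 1) (hX : |X| ≤ √(1 + Y ^ 2) / √3) :
    lf (X, Y) - J.f (X, Y) ≤ s3 * √(1 + Y ^ 2) - cc / 2 + δ := by
  have hc := (cvX h Y).2.2.2.2.2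
  set X0 := √(1 + Y ^ 2) / √3 with hX0
  have hX0p : 0 ≤ X0 := by positivity
  have hm := hc.le_max_of_mem_Icc (x := -X0) (y := X0) (z := X) (Set.mem_univ _) (Set.mem_univ _)
    (abs_le.mp hX)
  have e1 := plf_Lend h X0 Y hY (by rw [abs_of_nonneg hX0p])
  have e2 := plf_Lend h (-X0) Y hY (by rw [abs_neg, abs_of_nonneg hX0p])
  exact hm.trans (max_le e2 e1)

private theorem plf_Hend {J : Jet} {δ : ℝ} (h : Hyp J δ) (X Y : ℝ) (hX : |X| ≤ 1)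
    (hY : |Y| = √(1 + X ^ 2) / √3) :
    J.f (X, Y) ≤ s3 * √(1 + X ^ 2) - cc / 2 + δ := by
  have h1 := plf_x0 X hX
  have h2 := h.upp X Y hX (by rw [hY]; exact h1)
  have hk : 0 ≤ √(1 + X ^ 2) := Real.sqrt_nonneg _
  have hk2 : √(1 + X ^ 2) ^ 2 = 1 + X ^ 2 := Real.sq_sqrt (by positivity)
  have h3 : lf (X, Y) = 2 * √(1 + X ^ 2) / √3 := by
    unfold lf
    apply plf_lf _ _ hk
    have : Y ^ 2 = (1 + X ^ 2) / 3 := by
      rw [← sq_abs Y, hY, div_pow, hk2, plf_s3]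
    simp only [this, hk2]
    ring
  have h4 := plf_alg (√(1 + X ^ 2))
  rw [hY, h3] at h2
  linarith

theorem pl2 {J : Jet} {δ : ℝ} (h : Hyp J δ) (X Y : ℝ) (hX : |X| ≤ 1) (hY : |Y| ≤ √(1 + X ^ 2) / √3) :
    J.f (X, Y) ≤ s3 * √(1 + X ^ 2) - cc / 2 + δ := by
  have hc := (cvY h X).2.2.2.2.1
  set Y0 := √(1 + X ^ 2) / √3 with hY0
  have hY0p : 0 ≤ Y0 := by positivity
  have hm := hc.le_max_of_mem_Icc (x := -Y0) (y := Y0) (z := Y) (Set.mem_univ _) (Set.mem_univ _)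
    (abs_le.mp hY)
  have e1 := plf_Hend h X Y0 hX (by rw [abs_of_nonneg hY0p])
  have e2 := plf_Hend h X (-Y0) hX (by rw [abs_neg, abs_of_nonneg hY0p])
  exact hm.trans (max_le e2 e1)

theorem pl3 {J : Jet} {δ : ℝ} (h : Hyp J δ) (X Y ρ : ℝ) (hY : |Y| ≤ 1) (h0 : 0 ≤ ρ) (h1 : ρ ≤ 1)
    (hX : X = ρ * (√(1 + Y ^ 2) / √3)) :
    lf (X, Y) - J.f (X, Y) ≤ (1 - ρ) * (√(1 + Y ^ 2) - J.f (0, Y)) +
      ρ * (s3 * √(1 + Y ^ 2) - cc / 2 + δ) := by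
  have hc := (cvX h Y).2.2.2.2.2
  have hp : 0 ≤ √(1 + Y ^ 2) / √3 := by positivity
  have e1 := plf_Lend h (√(1 + Y ^ 2) / √3) Y hY (by rw [abs_of_nonneg hp])
  have e2 := hc.2 (Set.mem_univ (0 : ℝ)) (Set.mem_univ (√(1 + Y ^ 2) / √3))
    (sub_nonneg.mpr h1) h0 (by ring)
  simp only [smul_eq_mul, mul_zero, zero_add] at e2
  rw [← hX] at e2
  have e3 : lf (0, Y) = √(1 + Y ^ 2) := by
    unfold lf; norm_num
  rw [e3] at e2
  have e4 := mul_le_mul_of_nonneg_left e1 h0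
  linarith

theorem pl4 {J : Jet} {δ : ℝ} (h : Hyp J δ) (X Y : ℝ) (hX : X ≤ cc) (hY : |Y| ≤ cc) :
    J.fX (X, Y) ≤ 1 / 2 + δ := by
  have hm := (cvX h Y).2.1 hX
  have e := h.aX1 cc Y (le_abs_self _) (by rw [abs_of_pos plf_cc_pos]; exact plf_cc_le) hY
  rw [sign_pos plf_cc_pos] at e
  have e' := (abs_le.mp e).2
  simp only [SignType.coe_one] at e'
  simp only at hm
  linarith

theorem pl5 {J : Jet} {δ : ℝ} (h : Hyp J δ) (X Y : ℝ) (hX : |X| ≤ cc) (h0 : 0 ≤ Y) (h1 : Y ≤ 1) :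
    lJ.fY (X, Y) - J.fY (X, Y) ≤ 1 / 2 + δ ∧ -(1 / 2 + δ) ≤ lJ.fY (X, Y) - J.fY (X, Y) := by
  have hm := (cvY h X).2.2.2.1
  have hcp := plf_cc_pos
  constructor
  · rcases le_total Y cc with hc | hc
    · have e := h.aY2 X cc hX (le_abs_self _) (by rw [abs_of_pos hcp]; exact plf_cc_le)
      rw [sign_pos hcp] at e
      have e' := (abs_le.mp e).2
      simp only [SignType.coe_one] at e'
      have e2 := hm hc
      simp only at e2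
      linarith
    · have hYp : 0 < Y := lt_of_lt_of_le hcp hc
      have e := h.aY2 X Y hX (by rw [abs_of_pos hYp]; exact hc) (by rw [abs_of_pos hYp]; exact h1)
      rw [sign_pos hYp] at e
      have e' := (abs_le.mp e).2
      simp only [SignType.coe_one] at e'
      linarith
  · have e := h.aY2 X (-cc) hX (by rw [abs_neg]; exact le_abs_self _)
      (by rw [abs_neg, abs_of_pos hcp]; exact plf_cc_le)
    rw [sign_neg (neg_lt_zero.mpr hcp)] at e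
    have e' := (abs_le.mp e).1
    simp only [SignType.coe_neg_one] at e'
    have e2 := hm (show -cc ≤ Y by linarith)
    simp only at e2
    linarith

theorem pl6 {J : Jet} {δ : ℝ} (h : Hyp J δ) (X Y : ℝ) (h0 : 0 ≤ X) (hX : X ≤ cc) (hY : |Y| ≤ cc) :
    cc / 2 - 2 * δ ≤ J.f (X, Y) - X * J.fX (X, Y) := by
  have h1 := pl4 h X Y hX hY
  have h2 := h.low X Y (by rw [abs_of_nonneg h0]; exact hX.trans plf_cc_le) (hY.trans plf_cc_le)
  rw [abs_of_nonneg h0] at h2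
  have h3 := mul_le_mul_of_nonneg_left h1 h0
  have h4 : X * δ ≤ δ := by
    have := h.pos
    have hx1 : X ≤ 1 := hX.trans plf_cc_le
    nlinarith
  linarith

theorem pl7 {J : Jet} {δ : ℝ} (h : Hyp J δ) (X Y : ℝ) :
    (1 + Y ^ 2) / lf (X, Y) - (√(1 + Y ^ 2) - J.f (0, Y)) ≤ J.f (X, Y) - X * J.fX (X, Y) := by
  have h1 := (cvX h Y).2.2.1 X 0
  have e3 : lf (0, Y) = √(1 + Y ^ 2) := by
    unfold lf; norm_num
  rw [e3] at h1
  have hl : 0 < lf (X, Y) := by unfold lf; positivity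
  have hl2 : lf (X, Y) ^ 2 = 1 + X ^ 2 + Y ^ 2 := by
    unfold lf; exact Real.sq_sqrt (by positivity)
  have e4 : lJ.fX (X, Y) = X / lf (X, Y) := rfl
  rw [e4] at h1
  have e5 : (1 + Y ^ 2) / lf (X, Y) = lf (X, Y) - X * (X / lf (X, Y)) := by
    field_simp
    linarith
  rw [e5]
  linarith

theorem pl8 {J : Jet} {δ : ℝ} (h : Hyp J δ) (hb : 1 / 2 ≤ J.f (0, 0)) (Y : ℝ) (h0 : 0 ≤ Y) :
    1 / 2 - √3 * td0 * Y - √3 * Y * δ ≤ J.f (0, Y) := by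
  have h1 := (cvY h 0).1 0 Y
  have h2 := (cvY h 0).1 0 (-(1 / √3))
  have h3 := pl2 h 0 (-(1 / √3)) (by norm_num) (by
    rw [abs_neg, abs_of_pos (by positivity)]; norm_num)
  have h4 : √(1 + (0 : ℝ) ^ 2) = 1 := by norm_num
  rw [h4] at h3
  have h5 : td0 = s3 - cc / 2 - 1 / 2 := by
    unfold td0 s3; ring
  rw [h5]
  set a := J.fY (0, 0)
  have h6 : J.f (0, 0) - a * (1 / √3) ≤ s3 - cc / 2 + δ := by linarith
  have h7 : √3 * J.f (0, 0) - a ≤ √3 * (s3 - cc / 2 + δ) := by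
    have := mul_le_mul_of_nonneg_left h6 plf_s3p.le
    have e : √3 * (J.f (0, 0) - a * (1 / √3)) = √3 * J.f (0, 0) - a := by
      have := plf_s3p.ne'
      field_simp
    rw [e] at this
    exact this
  have h8 : √3 * (1 / 2) ≤ √3 * J.f (0, 0) := mul_le_mul_of_nonneg_left hb plf_s3p.le
  have h9 : (√3 * (1 / 2) - √3 * (s3 - cc / 2 + δ)) * Y ≤ a * Y := by
    apply mul_le_mul_of_nonneg_right _ h0
    linarith
  nlinarith

theorem pl9 {J : Jet} {δ : ℝ} (h : Hyp J δ) (hb : 1 / 2 ≤ J.f (0, 0)) (Y : ℝ) :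
    1 / 2 ≤ (J.f (0, Y) + J.f (0, -Y)) / 2 := by
  have h1 := (cvY h 0).1 0 Y
  have h2 := (cvY h 0).1 0 (-Y)
  nlinarith

end Pool.Agent.MSQ
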