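import Pool.Agent.MSQ.Fast
/-
MSQ: computable part. Polynomials in `x, y` with integer coefficients, positivity test, residual
matrices of the square certificate.
-/
namespace Pool.Agent.MSQ

/-- positivity test of a polynomial matrix (entries given as a list of polynomials) on the box
`x0 ≤ qx x ≤ x1`, `y0 ≤ qy y ≤ y1` (the fast test of Fast.lean) -/
def chkM (n : Nat) (E : List P) (x0 x1 qx y0 y1 qy : Int) : Bool := chkN n E x0 x1 qx y0 y1 qy

def pX (p : P) : P := [] :: p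
def pY (p : P) : P := p.map (fun r => 0 :: r)
def mul1 : List Int → List Int → List Int
  | [], _ => []
  | a :: l, p => addV (smV a p) (0 :: mul1 l p)
def pMul : P → P → P
  | [], _ => []
  | r :: l, p => pAdd (p.map (mul1 r)) (pX (pMul l p))
def derA (k : Int) : List Int → List Int
  | [] => []
  | a :: l => k * a :: derA (k + 1) l
def der (l : List Int) : List Int := derA 1 l.tail
def pDY (p : P) : P := p.map der
def dxA (k : Int) : P → P
  | [] => []
  | r :: l => smV k r :: dxA (k + 1) l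
def pDX (p : P) : P := dxA 1 p.tail
/-- multiplication by `3 + y^2` -/
def N3 (p : P) : P := pAdd (pSm 3 p) (pY (pY p))
/-- multiplication by `2 + x^2` -/
def M2 (p : P) : P := pAdd (pSm 2 p) (pX (pX p))
/-- value at `y = 1` as a polynomial in `x` -/
def at1 (p : P) : P := p.map fun r => [r.sum]
/-- value at `y = 0` as a polynomial in `x` -/
def at0 (p : P) : P := p.map fun r => r.take 1
def cP (c : Int) : P := [[c]]

/-- gauge of one block -/
structure GB where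
  G11 : P
  G12 : P
  G13 : P
  G22 : P
  G23 : P
  G33 : P
  H11 : P
  H12 : P
  H13 : P
  H22 : P
  H23 : P
  H33 : P
  K : P

/-- `(3+y^2) G_y - y G` -/
def AG (G : P) : P := pAdd (N3 (pDY G)) (pSm (-1) (pY G))

def sumP (l : List P) : P := l.foldr pAdd []

/-- the 21 coefficients of 12 times the residual form, states (u,q,p,mu,nu,kap) -/
def R12 (D : Int) (g : GB) : List P :=
  [ sumP [pSm (-2) (AG g.G11), pSm (-3) (M2 (pDX g.H11)), pSm 6 g.H13],
    sumP [pSm (-4) (AG g.G12), pSm (-4) (N3 g.G11), pSm (-6) (M2 (pDX g.H12)), pSm (-6) (pY g.H13),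
      pSm 6 g.H23, pSm 4 (AG g.K)],
    sumP [pSm (-4) (AG g.G13), pSm (-6) (M2 (pDX g.H13)), pSm (-12) g.H11, pSm 6 g.H33],
    sumP [N3 (cP (12 * D)), pSm (-4) (N3 g.G12), pSm 4 (N3 g.K)],
    sumP [pSm (-4) (N3 g.G13), pSm (-12) g.H12],
    sumP [cP (12 * D), pSm (-6) g.H13],
    sumP [pSm (-2) (AG g.G22), pSm (-4) (N3 g.G12), pSm (-3) (M2 (pDX g.H22)), pSm (-6) (pY g.H23),
      pSm (-4) (pY (AG g.K))],
    sumP [pSm (-4) (AG g.G23), pSm (-4) (N3 g.G13), pSm (-6) (M2 (pDX g.H23)), pSm (-12) g.H12,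
      pSm (-6) (pY g.H33)],
    sumP [pSm (-4) (N3 g.G22), pSm (-4) (pY (N3 g.K))],
    sumP [pSm (-4) (N3 g.G23), pSm (-12) g.H22, pSm 4 (N3 (M2 (pDX g.K)))],
    sumP [pSm (-6) g.H23, pSm (-4) (AG g.K)],
    sumP [pSm (-2) (AG g.G33), pSm (-3) (M2 (pDX g.H33)), pSm (-12) g.H13],
    pSm (-4) (N3 g.G23),
    sumP [pSm (-4) (N3 g.G33), pSm (-12) g.H23],
    pSm (-6) g.H33,
    [], [], pSm (-4) (N3 g.K), pSm 8 (N3 g.K), [], [] ]

/-- core gauge from the free polynomials -/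
def coreG (D : Int) (G11 G12 G13 G22 G23 G33 H11 H12 H22 la22 ro22 : P) : GB :=
  ⟨G11, G12, G13, G22, G23, G33, H11, H12, pAdd (cP (2 * D)) (pSm (-6) ro22), H22,
    pSm (-6) (AG la22), [], pSm 9 la22⟩

/-- data of one core box -/
structure CBox where
  x0 : Int
  x1 : Int
  qx : Int
  y0 : Int
  y1 : Int
  qy : Int
  la11 : P
  la12 : P
  ro11 : P
  ro12 : P
  phA : P
  phB : P
  phC : P
  phs : P
  psA : P
  psB : P
  psE : P
  pss : P
  vus : P

/-- data of one sliver box -/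
structure SBox where
  x0 : Int
  x1 : Int
  qx : Int
  y0 : Int
  y1 : Int
  qy : Int
  ro11 : P
  ro12 : P
  ro22 : P
  w1111 : P
  w1112 : P
  w1121 : P
  w1122 : P
  w1212 : P
  w1221 : P
  w1222 : P
  w2121 : P
  w2122 : P
  w2222 : P

/-- local products of a core box, added to `R12`; `e` = 1 for the even block, 0 for the odd one -/
def coreAdd (e : Int) (la22 ro22 : P) (b : CBox) : List P :=
  let ph := sumP [b.phA, b.phB, b.phC, pSm e b.phs]
  let ps := sumP [b.psA, b.psB, b.psE, pSm e b.pss]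
  [ pSm (12 * e) b.vus, [], [],
    pSm (-36) (sumP [b.ro11, ph, ps]), pSm (-72) b.ro12, pSm (-36) ro22,
    [], [], pSm (-18) (pX (pX (pY ps))), [], [],
    [], pSm 36 (pX ps), [], [],
    pSm 36 (N3 b.la11), pSm 72 (N3 b.la12), pSm 36 (N3 la22),
    [], [], [] ]

def sliAdd (b : SBox) : List P :=
  [ [], [], [], pSm (-36) b.ro11, pSm (-72) b.ro12, pSm (-36) b.ro22,
    [], [], [], [], [],
    [], [], [], [],
    pSm 108 b.w1111, pSm 216 (pAdd b.w1112 b.w1121), pSm 54 (pAdd b.w1212 b.w2121),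
    pSm 216 (pAdd b.w1122 b.w1221), pSm 108 (pAdd b.w1222 b.w2122),
    pSm 27 b.w2222 ]

/-- remove the last column of a 6x6 upper triangle -/
def drop5 (l : List P) : List P :=
  l.take 5 ++ (l.drop 6).take 4 ++ (l.drop 11).take 3 ++ (l.drop 15).take 2 ++ (l.drop 18).take 1

def cR (D e : Int) (g : GB) (la22 ro22 : P) (b : CBox) : Bool :=
  chkM 5 (drop5 (List.zipWith pAdd (R12 D g) (coreAdd e la22 ro22 b))) b.x0 b.x1 b.qx b.y0 b.y1 b.qy

def sR (D : Int) (g : GB) (b : SBox) : Bool :=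
  chkM 6 (List.zipWith pAdd (R12 D g) (sliAdd b)) b.x0 b.x1 b.qx b.y0 b.y1 b.qy

/-- positivity of the local multipliers of a core box -/
def cPos (la22 ro22 : P) (b : CBox) : Bool :=
  let c n E := chkM n E b.x0 b.x1 b.qx b.y0 b.y1 b.qy
  c 2 [b.la11, pSm 2 b.la12, pSm 2 la22] && c 2 [b.ro11, pSm 2 b.ro12, pSm 2 ro22] &&
  c 1 [b.phA] && c 1 [b.phB] && c 1 [b.phC] && c 1 [b.phs] && c 1 [b.psA] && c 1 [b.psB] &&
  c 1 [b.psE] && c 1 [b.pss] && c 1 [b.vus]

def sPos (b : SBox) : Bool :=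
  let c n E := chkM n E b.x0 b.x1 b.qx b.y0 b.y1 b.qy
  c 2 [b.ro11, pSm 2 b.ro12, pSm 2 b.ro22] &&
  c 4 [b.w1111, pSm 2 b.w1112, pSm 2 b.w1121, pSm 2 b.w1122, b.w1212, pSm 2 b.w1221,
    pSm 2 b.w1222, b.w2121, pSm 2 b.w2122, b.w2222]

/-- sliver, linear conditions: -54 (N^6 [f1, f2/2; f2/2, h2] + 3 Lam) -/
def sA2 (f1 f2 h2 : P) (b : SBox) : Bool :=
  chkM 2 [sumP [pSm (-2) (N3 (N3 (N3 f1))), pSm (-162) b.w1111, pSm (-81) (N3 b.w2121)],
    sumP [pSm (-2) (N3 (N3 (N3 f2))), pSm (-324) b.w1112, pSm (-162) (N3 b.w2122)],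
    sumP [pSm (-2) (N3 (N3 (N3 h2))), pSm (-162) b.w1212, pSm (-81) (N3 b.w2222)]]
    b.x0 b.x1 b.qx b.y0 b.y1 b.qy

/-- 108 times the coefficient of `u` -/
def sL1 (D : Int) (f0 f2 h2 : P) (b : SBox) : Bool :=
  chkM 1 [sumP [N3 (cP (-72 * D)), N3 (N3 (N3 (sumP [pSm (-4) (pDY f0), pSm 2 (M2 (pDX (pDY f2))),
    pSm 2 (M2 (pX (pDX h2))), M2 (M2 (pDX (pDX h2))), pSm 2 h2])))]]
    b.x0 b.x1 b.qx b.y0 b.y1 b.qy

/-- twice the coefficient of `q` -/
def sL2 (f0 f1 h2 : P) (b : SBox) : Bool :=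
  chkM 1 [sumP [pSm 2 (pDY f1), pSm 2 f0, pY h2]] b.x0 b.x1 b.qx b.y0 b.y1 b.qy

end Pool.Agent.MSQ
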