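import Pool.Agent.MSQ.Data
/-!
MSQ: computable part, scalar conditions with polynomial bounds of the square roots.
`Tn/qE` approximates `sqrt(3+y^2)`, `Rn/qE` approximates `1/(2+sqrt(3+y^2))`,
`Wn/qE` approximates `sqrt(1+x^2/2)`, `In/qE` approximates `1/sqrt(1+x^2/2)`,
`Mn/(1296 qE)` approximates `sqrt(1+z)` and `Jn/(1296 qE)` approximates `1/sqrt(1+z)`,
`z = (1+x^2/2) y^2/3`.
-/
namespace Pool.Agent.MSQ

def qE : Int := 4194304
def QE : Int := 2 * qE ^ 6 * 1296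

/-- multiplication by `1 - y^2` -/
def O2 (p : P) : P := pAdd p (pSm (-1) (pY (pY p)))

def comp1 : List Int → P → P → P → P
  | [], _, _, acc => acc
  | a :: l, s, r, acc => comp1 l s (pMul s r) (pAdd acc (pSm a r))

/-- scalar condition S1 of a core box (times 18 QE) -/
def cS1 (cf1 la22 Rn UE1 UE2 UE2l UE3 UE34 UE34l UE1b UE3b : P) (b : CBox) : Bool :=
  chkM 1 [sumP [pSm (2 * QE) (N3 (N3 cf1)), pSm (-54 * QE) b.la11,
    pSm (-27 * (QE / qE)) (pMul la22 (N3 (O2 (pAdd Rn (cP 8))))),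
    pSm (-18) (sumP [pMul b.phA UE1, pMul b.phB UE2l, pMul b.phC UE1b, pMul b.phs UE2,
      pMul b.psA UE3, pMul b.psB UE34l, pMul b.psE UE3b, pMul b.pss UE34])]]
    b.x0 b.x1 b.qx b.y0 b.y1 b.qy

/-- scalar condition S2 of a core box (times 54 QE) -/
def cS2 (D : Int) (cf1 ro22 Rn UE2 : P) (b : CBox) : Bool :=
  chkM 1 [sumP [pSm (2 * QE) (N3 (N3 (N3 (pDY (pDY cf1))))), pSm (-54 * QE) b.ro11,
    pSm (18 * (QE / qE) * D) (N3 (O2 (pAdd Rn (cP (-8))))),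
    pSm (-27 * (QE / qE)) (pMul ro22 (N3 (O2 (pAdd Rn (cP 8))))),
    pSm (-6) (N3 (pMul b.vus UE2))]]
    b.x0 b.x1 b.qx b.y0 b.y1 b.qy

/-- interface, even block: twice the form in (u,p) -/
def iE (gc gs : GB) (w1 c2 c2s d1 : P) (x0 x1 qx : Int) : Bool :=
  let dG11 := pAdd (at1 gc.G11) (pSm (-1) (at1 gs.G11))
  let dG13 := pAdd (at1 gc.G13) (pSm (-1) (at1 gs.G13))
  let dG33 := pAdd (at1 gc.G33) (pSm (-1) (at1 gs.G33))
  chkM 2 [sumP [dG11, M2 (pDX w1), pSm 2 c2, pSm 2 c2s, pSm (-2) d1],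
    sumP [pSm 2 dG13, pSm 4 w1], dG33] x0 x1 qx 0 1 1

def iO (gc gs : GB) (w1 c2 d1 : P) (x0 x1 qx : Int) : Bool :=
  let dG11 := pAdd (at1 gc.G11) (pSm (-1) (at1 gs.G11))
  let dG13 := pAdd (at1 gc.G13) (pSm (-1) (at1 gs.G13))
  let dG33 := pAdd (at1 gc.G33) (pSm (-1) (at1 gs.G33))
  chkM 2 [sumP [dG11, M2 (pDX w1), pSm 2 c2, pSm 2 d1],
    sumP [pSm 2 dG13, pSm 4 w1], dG33] x0 x1 qx 0 1 1

/-- interface: nonnegativity of the multipliers and of the jump of `-G12` -/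
def iP (gc gs : GB) (c2 c2s d1 : P) (x0 x1 qx : Int) : Bool :=
  chkM 1 [c2] x0 x1 qx 0 1 1 && chkM 1 [c2s] x0 x1 qx 0 1 1 && chkM 1 [d1] x0 x1 qx 0 1 1 &&
  chkM 1 [pAdd (at1 gs.G12) (pSm (-1) (at1 gc.G12))] x0 x1 qx 0 1 1

/-- interface: coefficient of `u` (times 4 QE) -/
def iL (cf1 sf0 UE1 UE2 c2 c2s : P) (x0 x1 qx : Int) : Bool :=
  chkM 1 [sumP [pSm (-4 * QE) (at1 (pDY cf1)), pSm (-4 * QE) (at1 sf0),
    pSm (-1) (pMul c2 (at1 UE1)), pSm (-1) (pMul c2s (at1 UE2))]] x0 x1 qx 0 1 1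

/-- `y = 0` -/
def zE (gc : GB) (x0 x1 qx : Int) : Bool :=
  chkM 2 [pSm (-1) (at0 gc.G11), pSm (-2) (at0 gc.G13), pSm (-1) (at0 gc.G33)] x0 x1 qx 0 1 1
def zO (gc : GB) (x0 x1 qx : Int) : Bool :=
  chkM 1 [pSm (-1) (at0 gc.G22)] x0 x1 qx 0 1 1

/-- all coefficients are zero -/
def isZ (p : P) : Bool := p.all fun r => r.all (· == 0)
def eqP (p q : P) : Bool := isZ (pAdd p (pSm (-1) q))

end Pool.Agent.MSQ
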