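import Pool.Agent.MSQ.ChkS
import Pool.Agent.MSQ.EvA
/-!
SGood (70 lines). Sign conditions of a sliver box, from the checks sPos, sA2, sL1, sL2.

PROOF. chkM_sound with n = 2 (ro: as in CGood: for all a b, 0 ≤ ro11 a^2 + 2 ro12 a b + 2 ro22 b^2, note the
third entry of the list is `pSm 2 b.ro22`), with n = 4, s = [a,b,c,d] for W (exactly `SM.W`), with n = 2 for
A2: the three entries have values 54 times the three coefficients in `SM.Good.hA2` (27 N^6 = (3+y^2)^3,
3 N^2 = 3 + y^2, N = Nf y), n = 1, s = [1] for the scalar conditions: value of sL1 = 108 * l1f .., value of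
sL2 = 2 * l2f ...
-/
namespace Pool.Agent.MSQ

private theorem SGood_q1 (a s : ℝ) : qf [a] [s] = s * (a * s) := by
  simp [qf, dotL]

private theorem SGood_q2 (a b c s t : ℝ) :
    qf [a, b, c] [s, t] = s * (a * s + b * t) + t * (c * t) := by
  simp [qf, dotL]

private theorem SGood_q4 (a0 a1 a2 a3 a4 a5 a6 a7 a8 a9 s t u v : ℝ) :
    qf [a0, a1, a2, a3, a4, a5, a6, a7, a8, a9] [s, t, u, v] =
      s * (a0 * s + a1 * t + a2 * u + a3 * v) + t * (a4 * t + a5 * u + a6 * v) +
      u * (a7 * u + a8 * v) + v * (a9 * v) := by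
  simp [qf, dotL]
  ring

private theorem SGood_N2 (y : ℝ) : Nf y ^ 2 = 1 + y ^ 2 / 3 := by
  unfold Nf
  exact Real.sq_sqrt (by positivity)

private theorem SGood_N6 (y : ℝ) : Nf y ^ 6 = (1 + y ^ 2 / 3) ^ 3 := by
  rw [← SGood_N2, ← pow_mul]

/-- a positive semidefinite form of two variables -/
private theorem SGood_psd {a b c : ℝ}
    (h : ∀ s t : ℝ, 0 ≤ s * (a * s + 2 * b * t) + t * (2 * c * t)) :
    0 ≤ a ∧ 0 ≤ c ∧ b ^ 2 ≤ 2 * a * c := by
  have h1 : 0 ≤ a := by
    have := h 1 0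
    linarith
  have h2 : 0 ≤ c := by
    have := h 0 1
    linarith
  refine ⟨h1, h2, ?_⟩
  rcases eq_or_lt_of_le h2 with h3 | h3
  · rw [← h3]
    have h4 := h (-b) (a / 2 + 1)
    rw [← h3] at h4
    have h5 : b ^ 2 ≤ 0 := by nlinarith
    linarith
  · have h4 := h (2 * c) (-b)
    have h5 : 0 ≤ 2 * c * (2 * a * c - b ^ 2) := by nlinarith
    have h6 : 0 < 2 * c := by linarith
    have h7 := nonneg_of_mul_nonneg_right h5 h6
    linarith

theorem sGood (b : SBox) (x y : ℝ) (hb : b.In x y) (h1 : sPos b = true)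
    (h2 : sA2 sf1 sf2 sh2 b = true) (h3 : sL1 DD sf0 sf2 sh2 b = true)
    (h4 : sL2 sf0 sf1 sh2 b = true) :
    (b.at x y).Good (ev x y sf1) (ev x y sf2) (ev x y sh2) (l1f (DD : ℝ) sf0 sf2 sh2 x y)
      (l2f sf0 sf1 sh2 x y) y := by
  obtain ⟨b1, b2, b3, b4⟩ := hb
  have hs := h1
  unfold sPos at hs
  simp only [Bool.and_eq_true] at hs
  obtain ⟨hro, hw⟩ := hs
  have r1 : ∀ s t : ℝ, 0 ≤ s * (ev x y b.ro11 * s + 2 * ev x y b.ro12 * t) +
      t * (2 * ev x y b.ro22 * t) := by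
    intro s t
    have := chkM_sound 2 _ _ _ _ _ _ _ hro x y b1 b2 b3 b4 [s, t] rfl
    unfold evE at this
    simp only [List.map_cons, List.map_nil, SGood_q2, ev_pSm] at this
    push_cast at this
    exact this
  obtain ⟨r2, r3, r4⟩ := SGood_psd r1
  refine ⟨r2, r3, r4, ?_, ?_, ?_, ?_⟩
  · intro s t u v
    have := chkM_sound 4 _ _ _ _ _ _ _ hw x y b1 b2 b3 b4 [s, t, u, v] rfl
    unfold evE at this
    simp only [List.map_cons, List.map_nil, SGood_q4, ev_pSm] at this
    push_cast at this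
    unfold SM.W SBox.at
    refine le_of_le_of_eq this ?_
    ring
  · intro s t
    unfold sA2 at h2
    have := chkM_sound 2 _ _ _ _ _ _ _ h2 x y b1 b2 b3 b4 [s, t] rfl
    unfold evE at this
    simp only [List.map_cons, List.map_nil, SGood_q2, ev_sumP, List.sum_cons, List.sum_nil,
      ev_pSm, ev_N3] at this
    push_cast at this
    unfold SBox.at
    change 0 ≤ (-(Nf y ^ 6 * ev x y sf1) - 3 * (ev x y b.w1111 + 3 / 2 * Nf y ^ 2 *
      ev x y b.w2121)) * s ^ 2 + 2 * (-(Nf y ^ 6 * ev x y sf2) / 2 - 3 * (ev x y b.w1112 +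
      3 / 2 * Nf y ^ 2 * ev x y b.w2122)) * s * t + (-(Nf y ^ 6 * ev x y sh2) - 3 *
      (ev x y b.w1212 + 3 / 2 * Nf y ^ 2 * ev x y b.w2222)) * t ^ 2
    rw [SGood_N6, SGood_N2]
    refine nonneg_of_mul_nonneg_right (a := 54) (le_of_le_of_eq this ?_) (by norm_num)
    ring
  · unfold sL1 at h3
    have := chkM_sound 1 _ _ _ _ _ _ _ h3 x y b1 b2 b3 b4 [1] rfl
    unfold evE at this
    simp only [List.map_cons, List.map_nil, SGood_q1, ev_sumP, List.sum_cons, List.sum_nil,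
      ev_pSm, ev_N3, ev_M2, ev_pX, ev_cP] at this
    push_cast at this
    unfold l1f mf
    rw [SGood_N6, SGood_N2]
    refine nonneg_of_mul_nonneg_right (a := 108) (le_of_le_of_eq this ?_) (by norm_num)
    ring
  · unfold sL2 at h4
    have := chkM_sound 1 _ _ _ _ _ _ _ h4 x y b1 b2 b3 b4 [1] rfl
    unfold evE at this
    simp only [List.map_cons, List.map_nil, SGood_q1, ev_sumP, List.sum_cons, List.sum_nil,
      ev_pSm, ev_pY] at this
    push_cast at this
    unfold l2f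
    refine nonneg_of_mul_nonneg_right (a := 2) (le_of_le_of_eq this ?_) (by norm_num)
    ring

end Pool.Agent.MSQ
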