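import Pool.Agent.MSQ.Defs
/-!
TrS (50 lines). Soundness of the change of variable `trA` (file Poly.lean).
`evA φ t L = Σ_k φ(c_k) t^k` (Defs.lean).

PROOF. Induction on l. First: `evA φ t (addL add A B) = evA φ t A + evA φ t B` (induction on A, cases on B),
`evA φ t (A.map (sm c)) = c * evA φ t A`, hence
`evA φ t (mulLin sm add zero a b h) = (a + b t) * evA φ t h`  (φ zero = 0).
(1) `evA (fun z : Int => (z:ℝ)) t (trA sm add zero a b q l).2 = (q (1+t))^l.length`: each step multiplies
    by `q + q t` (apply the `mulLin` formula with α = Int, φ = cast).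
(2) the statement: for l = [] both sides are 0. For c :: l', with r = trA .. l':
    evA φ t (r.2.map (fun z => sm z c)) = (evA cast t r.2) * φ c = (q(1+t))^l'.length * φ c, and
    q(1+t) * ((q(1+t))^n φ c + (a+bt) * evA φ t r.1)
      = (q(1+t))^(n+1) φ c + (a+bt) (q(1+t))^n evA φ x l'      (induction)
      = (q(1+t))^(n+1) (φ c + x evA φ x l')     because a + b t = q (1+t) x.
-/
namespace Pool.Agent.MSQ

private theorem TrS_add {α : Type} (add : α → α → α) (φ : α → ℝ)
    (h1 : ∀ a b, φ (add a b) = φ a + φ b) (t : ℝ) : ∀ A B : List α,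
    evA φ t (addL add A B) = evA φ t A + evA φ t B
  | [], B => by simp [addL, evA]
  | a :: A, [] => by simp [addL, evA]
  | a :: A, b :: B => by
    simp only [addL, evA, h1, TrS_add add φ h1 t A B]
    ring

private theorem TrS_map {α β : Type} (f : β → α) (φ : α → ℝ) (ψ : β → ℝ) (c : ℝ)
    (h : ∀ b, φ (f b) = c * ψ b) (t : ℝ) : ∀ A : List β,
    evA φ t (A.map f) = c * evA ψ t A
  | [] => by simp [evA]
  | a :: A => by
    simp only [List.map_cons, evA, h, TrS_map f φ ψ c h t A]
    ring

private theorem TrS_mul {α : Type} (sm : Int → α → α) (add : α → α → α) (zero : α) (φ : α → ℝ)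
    (h1 : ∀ a b, φ (add a b) = φ a + φ b) (h2 : ∀ c a, φ (sm c a) = (c : ℝ) * φ a)
    (h0 : φ zero = 0) (a b : Int) (t : ℝ) (A : List α) :
    evA φ t (mulLin sm add zero a b A) = (a + b * t) * evA φ t A := by
  unfold mulLin
  rw [TrS_add add φ h1, TrS_map (sm a) φ φ a (h2 a)]
  simp only [evA]
  rw [TrS_map (sm b) φ φ b (h2 b), h0]
  ring

private theorem TrS_one {α : Type} (sm : Int → α → α) (add : α → α → α) (zero : α)
    (a b q : Int) (t : ℝ) : ∀ l : List α,
    evA (fun z : Int => (z : ℝ)) t (trA sm add zero a b q l).2 = ((q : ℝ) * (1 + t)) ^ l.length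
  | [] => by simp [trA, evA]
  | c :: l => by
    simp only [trA]
    rw [TrS_mul (fun x y : Int => x * y) (fun x y : Int => x + y) 0 (fun z : Int => (z : ℝ))
      (fun x y => by push_cast; ring) (fun x y => by push_cast; ring) (by simp),
      TrS_one sm add zero a b q t l, List.length_cons, pow_succ]
    ring

theorem trA_sound {α : Type} (sm : Int → α → α) (add : α → α → α) (zero : α) (φ : α → ℝ)
    (h1 : ∀ a b, φ (add a b) = φ a + φ b) (h2 : ∀ c a, φ (sm c a) = (c : ℝ) * φ a)
    (h0 : φ zero = 0) (a b q : Int) (t x : ℝ) (hx : (q : ℝ) * (1 + t) * x = a + b * t)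
    (l : List α) :
    (q : ℝ) * (1 + t) * evA φ t (trA sm add zero a b q l).1 =
      ((q : ℝ) * (1 + t)) ^ l.length * evA φ x l := by
  induction l with
  | nil => simp [trA, evA]
  | cons c l ih =>
    simp only [trA]
    rw [TrS_add add φ h1, TrS_map (fun z => sm z c) φ (fun z : Int => (z : ℝ)) (φ c)
      (fun z => by rw [h2]; ring), TrS_one, TrS_mul sm add zero φ h1 h2 h0, List.length_cons]
    simp only [evA]
    have e : (q : ℝ) * (1 + t) * (φ c * ((q : ℝ) * (1 + t)) ^ l.length +
        (a + b * t) * evA φ t (trA sm add zero a b q l).1) =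
        ((q : ℝ) * (1 + t)) ^ (l.length + 1) * φ c +
        (a + b * t) * ((q : ℝ) * (1 + t) * evA φ t (trA sm add zero a b q l).1) := by ring
    rw [e, ih, ← hx]
    ring

end Pool.Agent.MSQ
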